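import Pool.Agent.H.MP_1693ff_gtB.GDefs

/-!
# The equations of the limit slopes have one solution; linear system
-/

namespace CJ

open Real Set Filter Topology CG
open CF hiding St

/-- `A ↦ A^e - (A/(1+A))^e` is monotone on `[0,∞)`: with `x = A/(1+A)`, `A = x/(1-x)`, it is
`x^e ((1-x)^{-e} - 1)`, a product of two nonnegative increasing functions of `x ∈ [0,1)`. -/
theorem asyma_mono {e A A' : ℝ} (he : 1 ≤ e) (hA : 0 ≤ A) (h : A ≤ A') :
    A ^ e - (A / (1 + A)) ^ e ≤ A' ^ e - (A' / (1 + A')) ^ e := by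
  have he0 : 0 ≤ e := by linarith
  have hA' : 0 ≤ A' := hA.trans h
  have key : ∀ B : ℝ, 0 ≤ B → B ^ e - (B / (1 + B)) ^ e = (B / (1 + B)) ^ e * ((1 + B) ^ e - 1) := by
    intro B hB
    have h1 : 0 < 1 + B := by linarith
    have h2 : B ^ e = (B / (1 + B)) ^ e * (1 + B) ^ e := by
      rw [← Real.mul_rpow (by positivity) h1.le, div_mul_cancel₀ B h1.ne']
    rw [mul_sub, mul_one, ← h2]
  rw [key A hA, key A' hA']
  have h3 : A / (1 + A) ≤ A' / (1 + A') := by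
    rw [div_le_div_iff₀ (by linarith) (by linarith)]
    nlinarith
  have h4 : (A / (1 + A)) ^ e ≤ (A' / (1 + A')) ^ e :=
    Real.rpow_le_rpow (by positivity) h3 he0
  have h5 : (1 + A) ^ e ≤ (1 + A') ^ e := Real.rpow_le_rpow (by linarith) (by linarith) he0
  have h6 : 1 ≤ (1 + A) ^ e := Real.one_le_rpow (by linarith) he0
  exact mul_le_mul h4 (by linarith) (by linarith) (by positivity)

theorem gasyma_lt {e a b m M m' M' : ℝ} (he : 1 ≤ e) (h1 : 0 < m) (h2 : m < 1) (h3 : 1 < M)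
    (h1' : 0 < m') (h2' : m' < 1) (h3' : 1 < M') (g : (1 - m) ^ e + (M - 1) ^ e = a)
    (g' : (1 - m') ^ e + (M' - 1) ^ e = a) (k : (m⁻¹ - 1) ^ e + (1 - M⁻¹) ^ e = b)
    (k' : (m'⁻¹ - 1) ^ e + (1 - M'⁻¹) ^ e = b) (hm : m < m') : False := by
  have he0 : 0 < e := by linarith
  have hD : (1 - m') ^ e < (1 - m) ^ e := Real.rpow_lt_rpow (by linarith) (by linarith) he0
  have hM : (M - 1) ^ e < (M' - 1) ^ e := by linarith
  have hMM : M - 1 < M' - 1 := (Real.rpow_lt_rpow_iff (by linarith) (by linarith) he0).1 hM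
  have hmono := asyma_mono he (by linarith : (0:ℝ) ≤ M - 1) hMM.le
  have e1 : (M - 1) / (1 + (M - 1)) = 1 - M⁻¹ := by
    have : M ≠ 0 := by linarith
    rw [add_sub_cancel, sub_div, div_self this, one_div]
  have e2 : (M' - 1) / (1 + (M' - 1)) = 1 - M'⁻¹ := by
    have : M' ≠ 0 := by linarith
    rw [add_sub_cancel, sub_div, div_self this, one_div]
  rw [e1, e2] at hmono
  have e3 : (m⁻¹ - 1) ^ e = (1 - m) ^ e * (m ^ e)⁻¹ := by
    rw [← Real.inv_rpow h1.le, ← Real.mul_rpow (by linarith) (by positivity)]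
    congr 1
    field_simp
  have e4 : (m'⁻¹ - 1) ^ e = (1 - m') ^ e * (m' ^ e)⁻¹ := by
    rw [← Real.inv_rpow h1'.le, ← Real.mul_rpow (by linarith) (by positivity)]
    congr 1
    field_simp
  have e5 : m ^ e < m' ^ e := Real.rpow_lt_rpow h1.le hm he0
  have e6 : m' ^ e ≤ 1 := Real.rpow_le_one h1'.le h2'.le he0.le
  have e7 : 0 < m ^ e := Real.rpow_pos_of_pos h1 e
  have e8 : 0 < m' ^ e := Real.rpow_pos_of_pos h1' e
  have e9 : (m' ^ e)⁻¹ < (m ^ e)⁻¹ := (inv_lt_inv₀ e8 e7).2 e5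
  have e10 : 1 ≤ (m' ^ e)⁻¹ := (one_le_inv₀ e8).2 e6
  have e11 : 0 < (1 - m) ^ e := Real.rpow_pos_of_pos (by linarith) e
  have e12 : (1 - m) ^ e * (m' ^ e)⁻¹ < (1 - m) ^ e * (m ^ e)⁻¹ := mul_lt_mul_of_pos_left e9 e11
  have e13 : ((1 - m) ^ e - (1 - m') ^ e) * 1 ≤ ((1 - m) ^ e - (1 - m') ^ e) * (m' ^ e)⁻¹ :=
    mul_le_mul_of_nonneg_left e10 (by linarith)
  rw [e3] at k
  rw [e4] at k'
  nlinarith

/-- Uniqueness of the limit slopes. Suppose `m < m'`.  First equation: `M < M'` (strictly, since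
`1 - m > 1 - m'`, so `(M-1)^e < (M'-1)^e`) and `(M'-1)^e - (M-1)^e = D^e - D'^e` with `D = 1 - m`,
`D' = 1 - m'`.  Second equation: `(1 - 1/M')^e - (1 - 1/M)^e = (D/m)^e - (D'/m')^e`.
The right side is `≥ D^e/m^e - D'^e/m'^e > D^e - D'^e` (as `1/m^e > 1/m'^e ≥ 1` and `D > 0`):
`D^e/m^e - D'^e/m'^e ≥ (D^e - D'^e)/m'^e + D^e (1/m^e - 1/m'^e)`, the first term is
`≥ D^e - D'^e ≥ 0` and the second is `> 0`.
The left side: `1 - 1/M = A/(1+A)` with `A = M - 1`; by `asyma_mono` it is `≤ A'^e - A^e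
= D^e - D'^e`. Contradiction. -/
theorem asyma_unique {e a b m M m' M' : ℝ} (he : 1 ≤ e) (h1 : 0 < m) (h2 : m < 1) (h3 : 1 < M)
    (h1' : 0 < m') (h2' : m' < 1) (h3' : 1 < M') (g : (1 - m) ^ e + (M - 1) ^ e = a)
    (g' : (1 - m') ^ e + (M' - 1) ^ e = a) (k : (m⁻¹ - 1) ^ e + (1 - M⁻¹) ^ e = b)
    (k' : (m'⁻¹ - 1) ^ e + (1 - M'⁻¹) ^ e = b) : m = m' ∧ M = M' := by
  have hm : m = m' := by
    rcases lt_trichotomy m m' with h | h | h
    · exact (gasyma_lt he h1 h2 h3 h1' h2' h3' g g' k k' h).elim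
    · exact h
    · exact (gasyma_lt he h1' h2' h3' h1 h2 h3 g' g k' k h).elim
  refine ⟨hm, ?_⟩
  subst hm
  have h4 : (M - 1) ^ e = (M' - 1) ^ e := by linarith
  have h5 := (Real.rpow_left_inj (by linarith) (by linarith) (by linarith : e ≠ 0)).1 h4
  linarith

/-- The linear system of the intercepts has at most one solution: the determinant is, up to
sign, `(1-m)^{e-1} (M-1)^{e-1} (m^{-e} - M^{-e}) ≠ 0`, since
`(m⁻¹-1)^{e-1} m⁻¹ = (1-m)^{e-1} m^{-e}` and `(1-M⁻¹)^{e-1} M⁻¹ = (M-1)^{e-1} M^{-e}`. -/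
theorem asyma_lin {e m M κ l κ' l' K L : ℝ} (he : 1 ≤ e) (h1 : 0 < m) (h2 : m < 1) (h3 : 1 < M)
    (g : (1 - m) ^ (e - 1) * κ - (M - 1) ^ (e - 1) * l = K)
    (g' : (1 - m) ^ (e - 1) * κ' - (M - 1) ^ (e - 1) * l' = K)
    (k : (m⁻¹ - 1) ^ (e - 1) * (κ / m) - (1 - M⁻¹) ^ (e - 1) * (l / M) = L)
    (k' : (m⁻¹ - 1) ^ (e - 1) * (κ' / m) - (1 - M⁻¹) ^ (e - 1) * (l' / M) = L) :
    κ = κ' ∧ l = l' := by
  have hP : 0 < (1 - m) ^ (e - 1) := Real.rpow_pos_of_pos (by linarith) _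
  have hQ : 0 < (M - 1) ^ (e - 1) := Real.rpow_pos_of_pos (by linarith) _
  have hM0 : 0 < M := by linarith
  have e1 : (m⁻¹ - 1) ^ (e - 1) = (1 - m) ^ (e - 1) * (m ^ (e - 1))⁻¹ := by
    rw [← Real.inv_rpow h1.le, ← Real.mul_rpow (by linarith) (by positivity)]
    congr 1
    field_simp
  have e2 : (1 - M⁻¹) ^ (e - 1) = (M - 1) ^ (e - 1) * (M ^ (e - 1))⁻¹ := by
    rw [← Real.inv_rpow hM0.le, ← Real.mul_rpow (by linarith) (by positivity)]
    congr 1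
    field_simp
  have hm1 : m ^ (e - 1) ≤ 1 := Real.rpow_le_one h1.le h2.le (by linarith)
  have hM1 : 1 ≤ M ^ (e - 1) := Real.one_le_rpow h3.le (by linarith)
  have hm0 : 0 < m ^ (e - 1) := Real.rpow_pos_of_pos h1 _
  have hMp : 0 < M ^ (e - 1) := Real.rpow_pos_of_pos hM0 _
  have hU : 1 < (m ^ (e - 1))⁻¹ / m := by
    rw [lt_div_iff₀ h1, one_mul]
    exact lt_of_lt_of_le h2 ((one_le_inv₀ hm0).2 hm1)
  have hV : (M ^ (e - 1))⁻¹ / M < 1 := by
    rw [div_lt_one hM0]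
    exact lt_of_le_of_lt ((inv_le_one₀ hMp).2 hM1) h3
  set P := (1 - m) ^ (e - 1) with hPd
  set Q := (M - 1) ^ (e - 1) with hQd
  set U := (m ^ (e - 1))⁻¹ / m with hUd
  set W := (M ^ (e - 1))⁻¹ / M with hWd
  have k1 : P * U * κ - Q * W * l = L := by
    rw [← k, e1, e2, hUd, hWd]; ring
  have k2 : P * U * κ' - Q * W * l' = L := by
    rw [← k', e1, e2, hUd, hWd]; ring
  have h5 : Q * (U - W) * (l - l') = 0 := by
    linear_combination k1 - k2 - U * (g - g')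
  have h6 : l - l' = 0 := by
    rcases mul_eq_zero.1 h5 with h | h
    · rcases mul_eq_zero.1 h with h' | h'
      · exact absurd h' hQ.ne'
      · linarith
    · exact h
  have h7 : P * (κ - κ') = 0 := by
    linear_combination g - g' + Q * h6
  have h8 : κ - κ' = 0 := by
    rcases mul_eq_zero.1 h7 with h | h
    · exact absurd h hP.ne'
    · exact h
  exact ⟨by linarith, by linarith⟩

end CJ
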