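import Pool.Agent.H.MP_1693ff_gtB.GDefs

/-!
# Limits of the intercepts
-/

namespace CJ

open Real Set Filter Topology CG
open CF hiding St

/-- The limit of one equation. -/
theorem gasymc_eq {e a b c K L R : ℝ} {u w z f g h X : ℝ → ℝ} (ha : 0 < a)
    (hb : 0 < b) (hc : 0 < c) (hX : ∀ᶠ τ in atTop, 0 < X τ) (hu : ∀ᶠ τ in atTop, 0 < u τ)
    (hw : ∀ᶠ τ in atTop, 0 < w τ) (hz : ∀ᶠ τ in atTop, 0 < z τ)
    (hu' : Tendsto (fun τ => u τ / X τ) atTop (𝓝 a))
    (hw' : Tendsto (fun τ => w τ / X τ) atTop (𝓝 b))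
    (hz' : Tendsto (fun τ => z τ / X τ) atTop (𝓝 c))
    (hf : Tendsto f atTop (𝓝 K)) (hg : Tendsto g atTop (𝓝 L)) (hh : Tendsto h atTop (𝓝 R))
    (eq : ∀ᶠ τ in atTop, u τ ^ (e - 1) * f τ - w τ ^ (e - 1) * g τ = z τ ^ (e - 1) * h τ) :
    a ^ (e - 1) * K - b ^ (e - 1) * L = c ^ (e - 1) * R := by
  have h1 := (hu'.rpow_const (p := e - 1) (Or.inl ha.ne')).mul hf
  have h2 := (hw'.rpow_const (p := e - 1) (Or.inl hb.ne')).mul hg
  have h3 := (hz'.rpow_const (p := e - 1) (Or.inl hc.ne')).mul hh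
  refine tendsto_nhds_unique (h1.sub h2) (h3.congr' ?_)
  filter_upwards [hX, hu, hw, hz, eq] with τ k1 k2 k3 k4 k5
  rw [Real.div_rpow k4.le k1.le, Real.div_rpow k2.le k1.le, Real.div_rpow k3.le k1.le]
  have hp : X τ ^ (e - 1) ≠ 0 := (Real.rpow_pos_of_pos k1 _).ne'
  field_simp
  linarith

/-- A function antitone from some point on and bounded below converges. -/
theorem gasymc_anti {f : ℝ → ℝ} {T C : ℝ} (h : ∀ a b, T ≤ a → a ≤ b → f b ≤ f a)
    (hC : ∀ τ, C ≤ f τ) : ∃ κ, Tendsto f atTop (𝓝 κ) := by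
  have h1 : Antitone (fun τ => f (max τ T)) := fun a b hab =>
    h _ _ (le_max_right _ _) (max_le_max hab le_rfl)
  have h2 : BddBelow (range (fun τ => f (max τ T))) := ⟨C, by rintro _ ⟨τ, rfl⟩; exact hC _⟩
  refine ⟨_, (tendsto_atTop_ciInf h1 h2).congr' ?_⟩
  filter_upwards [eventually_ge_atTop T] with τ hτ
  rw [max_eq_left hτ]

theorem gasymc_mul {z e : ℝ} (hz : 0 < z) : z ^ e = z ^ (e - 1) * z := by
  rw [Real.rpow_sub_one hz.ne']
  field_simp

/-- Intercepts at `+∞`.  For `x ≥ 0`, `f := y + s x` is antitone (`relG`: `y' + s' x' ≤ y + s' x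
≤ y + s x`) and `g := yH + sH x` is monotone (`relH`); bounded by `ib`; let `κ`, `l` be the limits.
The graph is above its tangent lines: `y τ + s τ' x τ ≥ y τ' + s τ' x τ'` for all `τ, τ'`
(both cases of `relG`), let `τ' → +∞`: `y τ + m x τ ≥ κ`; in the same way
`yH τ + M x τ ≤ l`.
Equations: `(x+y) r1-type`: multiply `r1'` by `x` and subtract from `r1`:
`(x+y)^{e-1} (y + s x) - (-(x+yH))^{e-1} (yH + sH x) = φ^{e-1} (φ - x φ₁)`
(`z^e = z^{e-1} z` for `z > 0`); divide by `x^{e-1}` and let `τ → +∞`: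
`(1-m)^{e-1} κ - (M-1)^{e-1} l = A^{e-1} B`.
Multiply `r2'` by `yH` and subtract from `r2` (`x' = x(τ+2)`, `s' = s(τ+2)`, `yH = y(τ+2)`):
`(x'+yH)^{e-1} (yH + s' x')/s' - (-(x+yH))^{e-1} (yH + sH x)/sH = ψ^{e-1}(ψ - yH ψ₁)`;
divide by `(-yH)^{e-1}`: `(m⁻¹-1)^{e-1} κ/m - (1-M⁻¹)^{e-1} l/M = A'^{e-1} (-B')`.
(`φ(x)/x → A`, `ψ(yH)/(-yH) → A'`; ratios `(x+y)/x → 1-m` etc. from `ib`.) -/
theorem icept_top {e A B A' B' m M : ℝ} {φ φ₁ ψ ψ₁ x y s yH sH : ℝ → ℝ} (he : 1 ≤ e)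
    (C : GCv e A B A' B' φ φ₁ ψ ψ₁ x y s yH sH) (hm0 : 0 < m) (hm1 : m < 1) (hM : 1 < M)
    (hm : Tendsto s atTop (𝓝 m)) (hM' : Tendsto sH atTop (𝓝 M)) : ∃ κ l,
    (∀ τ, κ ≤ y τ + m * x τ ∧ yH τ + M * x τ ≤ l) ∧
    (1 - m) ^ (e - 1) * κ - (M - 1) ^ (e - 1) * l = A ^ (e - 1) * B ∧
    (m⁻¹ - 1) ^ (e - 1) * (κ / m) - (1 - M⁻¹) ^ (e - 1) * (l / M) = A' ^ (e - 1) * (-B') := by
  obtain ⟨Cb, hCb⟩ := C.ib
  have x0 : ∀ᶠ τ in atTop, 0 < x τ := C.xtop.eventually_gt_atTop 0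
  obtain ⟨T, hT⟩ := eventually_atTop.1 x0
  have hM0 : 0 < M := by linarith
  -- limits
  obtain ⟨κ, hκ⟩ : ∃ κ, Tendsto (fun τ => y τ + s τ * x τ) atTop (𝓝 κ) := by
    refine gasymc_anti (T := T) (C := -Cb) (fun a b ha hab => ?_) (fun τ => ?_)
    · obtain ⟨-, h2, -, h4⟩ := C.relG a b hab
      have h5 := mul_le_mul_of_nonneg_right h2 (hT a ha).le
      nlinarith
    · exact (abs_le.1 (hCb τ).1).1
  obtain ⟨l', hl'⟩ : ∃ κ, Tendsto (fun τ => -(yH τ + sH τ * x τ)) atTop (𝓝 κ) := by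
    refine gasymc_anti (T := T) (C := -Cb) (fun a b ha hab => ?_) (fun τ => ?_)
    · obtain ⟨-, h2, h3, -⟩ := C.relH a b hab
      have h5 := mul_le_mul_of_nonneg_right h2 (hT a ha).le
      nlinarith
    · exact neg_le_neg (abs_le.1 (hCb τ).2).2
  have hl : Tendsto (fun τ => yH τ + sH τ * x τ) atTop (𝓝 (-l')) :=
    hl'.neg.congr fun τ => neg_neg _
  -- shifted functions
  have hsh : Tendsto (fun τ : ℝ => τ + 2) atTop atTop :=
    tendsto_atTop_add_const_right _ _ tendsto_id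
  have hyH : Tendsto yH atTop atBot := (C.ytop.comp hsh).congr fun τ => (C.sh τ).symm
  have hv : Tendsto (fun τ => -yH τ) atTop atTop := tendsto_neg_atBot_atTop.comp hyH
  have v0 : ∀ᶠ τ in atTop, 0 < -yH τ := hv.eventually_gt_atTop 0
  have f0 : Tendsto (fun τ => (y τ + s τ * x τ) / x τ) atTop (𝓝 0) := hκ.div_atTop C.xtop
  have g0 : Tendsto (fun τ => (yH τ + sH τ * x τ) / x τ) atTop (𝓝 0) := hl.div_atTop C.xtop
  have f2 : Tendsto (fun τ => y (τ + 2) + s (τ + 2) * x (τ + 2)) atTop (𝓝 κ) := hκ.comp hsh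
  have s2 : Tendsto (fun τ => s (τ + 2)) atTop (𝓝 m) := hm.comp hsh
  have f3 : Tendsto (fun τ => (y (τ + 2) + s (τ + 2) * x (τ + 2)) / (-yH τ)) atTop (𝓝 0) :=
    f2.div_atTop hv
  have g3 : Tendsto (fun τ => (yH τ + sH τ * x τ) / (-yH τ)) atTop (𝓝 0) := hl.div_atTop hv
  refine ⟨κ, -l', fun τ => ⟨?_, ?_⟩, ?_, ?_⟩
  · -- above the tangent lines
    have h1 : Tendsto (fun τ' => y τ + s τ' * x τ) atTop (𝓝 (y τ + m * x τ)) :=
      (hm.mul_const _).const_add _
    refine le_of_tendsto_of_tendsto' hκ h1 fun τ' => ?_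
    rcases le_total τ τ' with h | h
    · obtain ⟨-, -, -, h4⟩ := C.relG _ _ h
      linarith
    · obtain ⟨-, -, h3, -⟩ := C.relG _ _ h
      linarith
  · have h1 : Tendsto (fun τ' => yH τ + sH τ' * x τ) atTop (𝓝 (yH τ + M * x τ)) :=
      (hM'.mul_const _).const_add _
    refine le_of_tendsto_of_tendsto' h1 hl fun τ' => ?_
    rcases le_total τ τ' with h | h
    · obtain ⟨-, -, h3, -⟩ := C.relH _ _ h
      linarith
    · obtain ⟨-, -, -, h4⟩ := C.relH _ _ h
      linarith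
  · have hφ := C.φt.comp C.xtop
    have φ0 : ∀ᶠ τ in atTop, 0 < φ (x τ) := by
      filter_upwards [hφ.eventually (lt_mem_nhds C.A0), x0] with τ h1 h2
      simp only [Function.comp] at h1
      exact (div_pos_iff_of_pos_right h2).1 h1
    refine gasymc_eq (u := fun τ => x τ + y τ) (w := fun τ => -(x τ + yH τ))
      (z := fun τ => φ (x τ)) (X := x) (by linarith) (by linarith) C.A0 x0
      (Eventually.of_forall C.pos)
      (Eventually.of_forall fun τ => neg_pos.2 (C.neg τ)) φ0 ?_ ?_ hφ hκ hl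
      (C.φt'.comp C.xtop) ?_
    · have h := (f0.sub hm).const_add 1
      rw [zero_sub, ← sub_eq_add_neg] at h
      refine h.congr' ?_
      filter_upwards [x0] with τ h1
      field_simp
      ring
    · have h := (hM'.sub g0).sub_const 1
      rw [sub_zero] at h
      refine h.congr' ?_
      filter_upwards [x0] with τ h1
      field_simp
      ring
    · filter_upwards [φ0] with τ h1
      have h2 := C.r1 τ
      have h3 := C.r1' τ
      rw [gasymc_mul (C.pos τ), gasymc_mul (neg_pos.2 (C.neg τ)), gasymc_mul h1] at h2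
      simp only [Function.comp]
      linear_combination h2 - x τ * h3
  · have hψ := C.ψb.comp hyH
    have hψ' : Tendsto (fun τ => ψ (yH τ) / (-yH τ)) atTop (𝓝 A') := by
      have := hψ.neg
      rw [neg_neg] at this
      refine this.congr fun τ => ?_
      simp only [Function.comp]
      rw [div_neg]
    have ψ0 : ∀ᶠ τ in atTop, 0 < ψ (yH τ) := by
      filter_upwards [hψ'.eventually (lt_mem_nhds C.A'0), v0] with τ h1 h2
      exact (div_pos_iff_of_pos_right h2).1 h1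
    have hm1' : 1 < m⁻¹ := (one_lt_inv₀ hm0).2 hm1
    have hM1' : M⁻¹ < 1 := inv_lt_one_of_one_lt₀ hM
    refine gasymc_eq (u := fun τ => x (τ + 2) + yH τ) (w := fun τ => -(x τ + yH τ))
      (z := fun τ => ψ (yH τ)) (X := fun τ => -yH τ) (by linarith) (by linarith) C.A'0 v0
      (Eventually.of_forall fun τ => by rw [C.sh τ]; exact C.pos (τ + 2))
      (Eventually.of_forall fun τ => neg_pos.2 (C.neg τ)) ψ0 ?_ ?_ hψ'
      (f2.div s2 hm0.ne') (hl.div hM' hM0.ne') (C.ψb'.comp hyH) ?_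
    · have h := ((f3.add_const 1).mul (s2.inv₀ hm0.ne')).sub_const 1
      rw [zero_add, one_mul] at h
      refine h.congr' ?_
      filter_upwards [v0] with τ h1
      have h2 := C.s0 (τ + 2)
      have h3 : yH τ ≠ 0 := by intro h4; rw [h4] at h1; simp at h1
      rw [← C.sh τ]
      field_simp
      ring
    · have h := ((g3.add_const 1).mul (hM'.inv₀ hM0.ne')).const_sub 1
      rw [zero_add, one_mul] at h
      refine h.congr' ?_
      filter_upwards [v0] with τ h1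
      have h2 := C.sH0 τ
      have h3 : yH τ ≠ 0 := by intro h4; rw [h4] at h1; simp at h1
      field_simp
      ring
    · filter_upwards [ψ0] with τ h1
      have h2 := C.r2 τ
      have h3 := C.r2' τ
      have h4 : 0 < x (τ + 2) + yH τ := by rw [C.sh τ]; exact C.pos (τ + 2)
      rw [gasymc_mul h4, gasymc_mul (neg_pos.2 (C.neg τ)), gasymc_mul h1] at h2
      simp only [Function.comp, Pi.div_apply]
      have h5 := C.s0 (τ + 2)
      have h6 := C.sH0 τ
      rw [← C.sh τ]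
      have e1 : (yH τ + s (τ + 2) * x (τ + 2)) / s (τ + 2) =
          x (τ + 2) + yH τ * (s (τ + 2))⁻¹ := by
        field_simp
        ring
      have e2 : (yH τ + sH τ * x τ) / sH τ = x τ + yH τ * (sH τ)⁻¹ := by
        field_simp
        ring
      rw [e1, e2]
      linear_combination h2 - yH τ * h3

/-- The configuration reflected in the origin. -/
theorem gasymc_refl {e A B A' B' : ℝ} {φ φ₁ ψ ψ₁ x y s yH sH : ℝ → ℝ}
    (C : GCv e A B A' B' φ φ₁ ψ ψ₁ x y s yH sH) :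
    GCv e A (-B) A' (-B') (fun z => φ (-z)) (fun z => -φ₁ (-z)) (fun z => ψ (-z))
      (fun z => -ψ₁ (-z)) (fun τ => -x (-τ)) (fun τ => -yH (-τ)) (fun τ => sH (-τ))
      (fun τ => -y (-τ)) (fun τ => s (-τ)) := by
  have hyH : yH = fun τ => y (τ + 2) := funext C.sh
  have hcH : Continuous yH := by
    rw [hyH]
    exact C.cy.comp (continuous_id.add continuous_const)
  have key : ∀ τ : ℝ, yH (-(τ + 2)) = y (-τ) := fun τ => by
    rw [C.sh]
    congr 1
    ring
  have k2 : ∀ τ : ℝ, -(τ + 2) + 2 = -τ := fun τ => by ring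
  refine { cx := ?_, cy := ?_, xmono := ?_, s0 := ?_, sH0 := ?_, sh := ?_, relG := ?_, relH := ?_,
           pos := ?_, neg := ?_, xtop := ?_, xbot := ?_, ytop := ?_, ybot := ?_, o1 := ?_,
           o2 := ?_, o3 := ?_, o4 := ?_, o5 := ?_, o6 := ?_, sb := ?_, ib := ?_, r1 := ?_,
           r1' := ?_, r2 := ?_, r2' := ?_, A0 := C.A0, A'0 := C.A'0, φt := ?_, φb := ?_,
           φt' := ?_, φb' := ?_, ψt := ?_, ψb := ?_, ψt' := ?_, ψb' := ?_ }
  · exact (C.cx.comp continuous_neg).neg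
  · exact (hcH.comp continuous_neg).neg
  · intro a b hab
    exact neg_lt_neg (C.xmono (neg_lt_neg hab))
  · exact fun τ => C.sH0 _
  · exact fun τ => C.s0 _
  · exact fun τ => by rw [key]
  · intro a b hab
    obtain ⟨h1, h2, h3, h4⟩ := C.relH (-b) (-a) (neg_le_neg hab)
    refine ⟨by linarith, h2, by linarith, by linarith⟩
  · intro a b hab
    obtain ⟨h1, h2, h3, h4⟩ := C.relG (-b) (-a) (neg_le_neg hab)
    refine ⟨by linarith, h2, by linarith, by linarith⟩
  · intro τ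
    have := C.neg (-τ)
    linarith
  · intro τ
    have := C.pos (-τ)
    linarith
  · exact tendsto_neg_atBot_atTop.comp (C.xbot.comp tendsto_neg_atTop_atBot)
  · exact tendsto_neg_atTop_atBot.comp (C.xtop.comp tendsto_neg_atBot_atTop)
  · refine tendsto_neg_atTop_atBot.comp ?_
    have : Tendsto yH atBot atTop := by
      rw [hyH]
      exact C.ybot.comp (tendsto_atBot_add_const_right _ _ tendsto_id)
    exact this.comp tendsto_neg_atTop_atBot
  · refine tendsto_neg_atBot_atTop.comp ?_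
    have : Tendsto yH atTop atBot := by
      rw [hyH]
      exact C.ytop.comp (tendsto_atTop_add_const_right _ _ tendsto_id)
    exact this.comp tendsto_neg_atBot_atTop
  · obtain ⟨τ, h⟩ := C.o2
    exact ⟨-τ, by rw [neg_neg]; exact h⟩
  · obtain ⟨τ, h⟩ := C.o1
    exact ⟨-τ, by rw [neg_neg]; exact h⟩
  · obtain ⟨τ, h⟩ := C.o5
    exact ⟨-τ, by rw [neg_neg]; exact h⟩
  · obtain ⟨τ, h⟩ := C.o6
    exact ⟨-τ, by rw [neg_neg]; exact h⟩
  · obtain ⟨τ, h⟩ := C.o3
    exact ⟨-τ, by rw [neg_neg]; exact h⟩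
  · obtain ⟨τ, h⟩ := C.o4
    exact ⟨-τ, by rw [neg_neg]; exact h⟩
  · obtain ⟨c, h0, h⟩ := C.sb
    exact ⟨c, h0, fun τ => ⟨(h (-τ)).2.1, (h (-τ)).1, (h (-τ)).2.2.2, (h (-τ)).2.2.1⟩⟩
  · obtain ⟨c, h⟩ := C.ib
    refine ⟨c, fun τ => ⟨?_, ?_⟩⟩
    · have h1 := (h (-τ)).2
      rw [← abs_neg] at h1
      refine le_trans (le_of_eq (congrArg _ ?_)) h1
      ring
    · have h1 := (h (-τ)).1
      rw [← abs_neg] at h1
      refine le_trans (le_of_eq (congrArg _ ?_)) h1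
      ring
  · intro τ
    have h := C.r1 (-τ)
    rw [neg_neg, ← h, add_comm]
    congr 2 <;> ring
  · intro τ
    have h := C.r1' (-τ)
    have e1 : -(-x (-τ) + -y (-τ)) = x (-τ) + y (-τ) := by ring
    have e2 : -x (-τ) + -yH (-τ) = -(x (-τ) + yH (-τ)) := by ring
    rw [neg_neg, e1, e2]
    linear_combination -h
  · intro τ
    have h := C.r2 (-(τ + 2))
    rw [k2, key] at h
    rw [neg_neg, ← h, add_comm]
    congr 2 <;> ring
  · intro τ
    have h := C.r2' (-(τ + 2))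
    rw [k2, key] at h
    have e1 : -(-x (-τ) + -y (-τ)) = x (-τ) + y (-τ) := by ring
    have e2 : -x (-(τ + 2)) + -y (-τ) = -(x (-(τ + 2)) + y (-τ)) := by ring
    rw [neg_neg, e1, e2]
    linear_combination -h
  · have h := (C.φb.comp tendsto_neg_atTop_atBot).neg
    rw [neg_neg] at h
    refine h.congr fun z => ?_
    simp only [Function.comp]
    rw [div_neg, neg_neg]
  · have h := (C.φt.comp tendsto_neg_atBot_atTop).neg
    refine h.congr fun z => ?_
    simp only [Function.comp]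
    rw [div_neg, neg_neg]
  · refine (C.φb'.comp tendsto_neg_atTop_atBot).congr fun z => ?_
    simp only [Function.comp]
    ring
  · rw [neg_neg]
    refine (C.φt'.comp tendsto_neg_atBot_atTop).congr fun z => ?_
    simp only [Function.comp]
    ring
  · have h := (C.ψb.comp tendsto_neg_atTop_atBot).neg
    rw [neg_neg] at h
    refine h.congr fun z => ?_
    simp only [Function.comp]
    rw [div_neg, neg_neg]
  · have h := (C.ψt.comp tendsto_neg_atBot_atTop).neg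
    refine h.congr fun z => ?_
    simp only [Function.comp]
    rw [div_neg, neg_neg]
  · refine (C.ψb'.comp tendsto_neg_atTop_atBot).congr fun z => ?_
    simp only [Function.comp]
    ring
  · rw [neg_neg]
    refine (C.ψt'.comp tendsto_neg_atBot_atTop).congr fun z => ?_
    simp only [Function.comp]
    ring

/-- Intercepts at `-∞`, in the same way: for `x ≤ 0`, `y + s x` decreases and `yH + sH x`
increases for `τ → -∞`; limits `l` (upper curve, slope `M`) and `κ` (lower curve, slope `m`);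
`y τ + M x τ ≥ l`, `yH τ + m x τ ≤ κ`.  Equations, dividing by `(-x)^{e-1}`, `yH^{e-1}`:
`(M-1)^{e-1} l - (1-m)^{e-1} κ = A^{e-1} (-B)`,
`(1-M⁻¹)^{e-1} l/M - (m⁻¹-1)^{e-1} κ/m = A'^{e-1} B'` (`φ/(-x) → A`, `φ - xφ₁ → -B`,
`ψ/yH → A'`, `ψ - yHψ₁ → B'`). -/
theorem icept_bot {e A B A' B' m M : ℝ} {φ φ₁ ψ ψ₁ x y s yH sH : ℝ → ℝ} (he : 1 ≤ e)
    (C : GCv e A B A' B' φ φ₁ ψ ψ₁ x y s yH sH) (hm0 : 0 < m) (hm1 : m < 1) (hM : 1 < M)
    (hm : Tendsto sH atBot (𝓝 m)) (hM' : Tendsto s atBot (𝓝 M)) : ∃ κ l,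
    (∀ τ, l ≤ y τ + M * x τ ∧ yH τ + m * x τ ≤ κ) ∧
    (1 - m) ^ (e - 1) * κ - (M - 1) ^ (e - 1) * l = A ^ (e - 1) * B ∧
    (m⁻¹ - 1) ^ (e - 1) * (κ / m) - (1 - M⁻¹) ^ (e - 1) * (l / M) = A' ^ (e - 1) * (-B') := by
  obtain ⟨κ, l, h1, h2, h3⟩ := icept_top he (gasymc_refl C) hm0 hm1 hM
    (hm.comp tendsto_neg_atTop_atBot) (hM'.comp tendsto_neg_atTop_atBot)
  refine ⟨-κ, -l, fun τ => ?_, ?_, ?_⟩
  · have h := h1 (-τ)
    simp only [neg_neg] at h
    exact ⟨by linarith [h.2], by linarith [h.1]⟩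
  · linear_combination -h2
  · linear_combination -h3

end CJ
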