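import Pool.Agent.H.MP_1693ff_gtE.OLinkA

/-!
# The change of the centre
-/

namespace CJ

open Real Set Filter Topology CG CH
open CF hiding St

variable {E : Type} [NormedAddCommGroup E] [InnerProductSpace ℝ E]

theorem olink_pt (ax ω : E) (a : ℝ) : -a • ax + -ω = -(a • ax + ω) := by
  rw [neg_smul, neg_add]

theorem olink_pt2 (ax ω : E) (a b : ℝ) : (a + b) • ax + ω = a • ax + ω + b • ax := by
  rw [add_smul]
  abel

theorem olink_d1_neg (A : E → ℝ) (u x : E) : D1 A u (-x) = -D1 A u x := by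
  simp only [D1, map_neg]

theorem olink_d2_neg (A : E → ℝ) (u x y : E) : D2 A u x (-y) = -D2 A u x y := by
  simp only [D2, map_neg]

theorem olink_d2_neg2 (A : E → ℝ) (u x y : E) : D2 A u (-x) y = -D2 A u x y := by
  simp only [D2, map_neg, ContinuousLinearMap.neg_apply]

/-- `(a + d A(-v)) ax + ω = v + d A(-v) ax` for `v = a ax + ω`. -/
theorem rv_link {d : ℝ} {ax : E} {A B : E → ℝ} (D : Bd d ax A B) {ω : E} {a : ℝ}
    (hv : a • ax + ω ≠ 0) (v : ℝ) :
    rv (JE d A ax (-ω) (-a) v) = JE d B ax ω (a + d * A (-(a • ax + ω)))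
      ((1 - d * D1 A (-(a • ax + ω)) ax) * v) := by
  have h1 := (link_d1 D hv ax).2.2
  have h2 := (link_d2 D hv rfl ax).1
  have h3 := D.lA _ hv
  simp only [rv, JE, olink_pt, olink_pt2]
  rw [h1, h2, h3]
  congr 1
  · ring
  · ring
  · ring

/-- The transverse part. -/
theorem rvT_link {d : ℝ} {ax : E} {A B : E → ℝ} (D : Bd d ax A B) {ω : E} (η : E) {a : ℝ}
    (hv : a • ax + ω ≠ 0) (v w : ℝ) :
    ∃ w', rvT (JE d A ax (-ω) (-a) v) (JT d A ax (-ω) (-η) (-a) w) =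
      JT d B ax ω η (a + d * A (-(a • ax + ω))) w' := by
  obtain ⟨_, h1, _⟩ := link_d1 D hv η
  obtain ⟨_, h2, h3⟩ := link_d2 D hv rfl η
  refine ⟨-((1 - d * D1 A (-(a • ax + ω)) ax) * w + d * D1 A (-(a • ax + ω)) η), ?_⟩
  simp only [rvT, JE, JT, olink_pt, olink_pt2, olink_d1_neg, olink_d2_neg, olink_d2_neg2]
  rw [h1, h2, h3]
  congr 1
  · rw [div_eq_mul_inv]
    ring
  · ring
  · ring
  · ring

end CJ
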