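import Pool.Agent.H.MP_1693ff_gtE.OOppB
import Pool.Agent.H.MP_1693ff_gtE.OLink

/-!
# The chain of a smooth body
-/

namespace CJ

open Real Set Filter Topology CG CH
open CF hiding St

variable {E : Type} [NormedAddCommGroup E] [InnerProductSpace ℝ E]

theorem opp_bd {e : ℝ} (he : 1 ≤ e) {Φ A : E → ℝ} (hA : Hg A) (hΦ : Hg Φ)
    (ho : ∀ v, v ≠ 0 → Φ v ^ e = A v ^ e + A (-v) ^ e) {v : E} (hv : v ≠ 0) : Opp e Φ A v := by
  have hv' : -v ≠ 0 := neg_ne_zero.2 hv
  refine ⟨he, (hA.c v hv).of_le (by norm_num), (hA.c _ hv').of_le (by norm_num),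
    (hΦ.c v hv).of_le (by norm_num), hA.p v hv, hA.p _ hv', hΦ.p v hv, ?_⟩
  filter_upwards [isOpen_ne.mem_nhds hv] with u hu
  exact (ho u hu).symm

/-- The half step maps the surface seen from `0` to the surface seen from `d ax`. -/
theorem hst_bd {e d : ℝ} {ax : E} {A B Φ : E → ℝ} (D : Bd d ax A B) (he : 1 ≤ e) (hΦ : Hg Φ)
    (ho : ∀ v, v ≠ 0 → Φ v ^ e = A v ^ e + A (-v) ^ e) {ω : E} (hω : Un ax ω) (a v : ℝ) :
    hst e d (PE Φ ax ω) (JE d A ax ω a v) = JE d B ax ω (a + d * A (-(a • ax + ω)))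
      ((1 - d * D1 A (-(a • ax + ω)) ax) * v) := by
  have hv := ax_ne hω a
  rw [hst_opp D.d0 v (opp_bd he D.hA hΦ ho hv), rv_link D hv]

/-- The transverse part. -/
theorem hst3_bd {e d : ℝ} {ax : E} {A B Φ : E → ℝ} (D : Bd d ax A B) (he : 1 ≤ e) (hΦ : Hg Φ)
    (ho : ∀ v, v ≠ 0 → Φ v ^ e = A v ^ e + A (-v) ^ e) {ω : E} (hω : Un ax ω) (η : E)
    (a v w : ℝ) :
    ∃ w', hst3 e d (PE Φ ax ω) (GE Φ ax ω η) (JE d A ax ω a v) (JT d A ax ω η a w) =
      JT d B ax ω η (a + d * A (-(a • ax + ω))) w' := by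
  have hv := ax_ne hω a
  obtain ⟨w₁, h₁⟩ := hst3_opp D.d0 η v w (opp_bd he D.hA hΦ ho hv) (D.sA _ (neg_ne_zero.2 hv))
  obtain ⟨w₂, h₂⟩ := rvT_link D η hv v w₁
  exact ⟨w₂, by rw [h₁, h₂]⟩

/-- `2 - jet` positivity: the second derivative of `A` at `v = a ax + ω` is positive on
`z ax + ρ η ≠ 0` (which is not a multiple of `v`), so the determinant is positive. -/
theorem pd_bd {d : ℝ} {ax : E} {A B : E → ℝ} (D : Bd d ax A B) {ω η : E} (F : Fm ax ω η)
    (a v w : ℝ) : PD (JE d A ax ω a v) (JT d A ax ω η a w) := by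
  have hv := ax_ne F.w a
  have hww : inner ℝ ω ω = (1 : ℝ) := by
    rw [real_inner_self_eq_norm_sq, F.w.n1]; norm_num
  have hhh : inner ℝ η η = (1 : ℝ) := by
    rw [real_inner_self_eq_norm_sq, F.h.n1]; norm_num
  have haw : inner ℝ ax ω = (0 : ℝ) := F.w.o1
  have hah : inner ℝ ax η = (0 : ℝ) := F.h.o1
  have hwh : inner ℝ ω η = (0 : ℝ) := F.o
  have hs : IsSymmSndFDerivAt ℝ A (a • ax + ω) :=
    ((D.hA.c _ hv).of_le (by norm_num : (2 : WithTop ℕ∞) ≤ 3)).isSymmSndFDerivAt (by simp)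
  set P := D2 A (a • ax + ω) ax ax with hP
  set L := D2 A (a • ax + ω) ax η with hL
  set Q := D2 A (a • ax + ω) η η with hQ
  have hL2 : D2 A (a • ax + ω) η ax = L := hs η ax
  have h1 : 0 < P := by
    refine D.qA _ _ hv fun c hc => ?_
    have h2 : inner ℝ ax ω = (inner ℝ (c • (a • ax + ω)) ω : ℝ) := by rw [← hc]
    rw [inner_smul_left, inner_add_left, inner_smul_left, haw, hww] at h2
    have hc0 : c = 0 := by simpa using h2.symm
    rw [hc0, zero_smul] at hc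
    have h3 := F.a
    rw [hc, norm_zero] at h3
    exact zero_ne_one h3
  have h2 : 0 < D2 A (a • ax + ω) (P • η - L • ax) (P • η - L • ax) := by
    refine D.qA _ _ hv fun c hc => ?_
    have h2 : inner ℝ (P • η - L • ax) η = (inner ℝ (c • (a • ax + ω)) η : ℝ) := by rw [← hc]
    rw [inner_sub_left, inner_smul_left, inner_smul_left, inner_smul_left, inner_add_left,
      inner_smul_left, hah, hwh, hhh] at h2
    simp at h2
    exact h1.ne' h2
  have h3 : D2 A (a • ax + ω) (P • η - L • ax) (P • η - L • ax) = P * (P * Q - L ^ 2) := by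
    have e1 : D2 A (a • ax + ω) (P • η - L • ax) (P • η - L • ax) =
        P * (P * D2 A (a • ax + ω) η η - L * D2 A (a • ax + ω) η ax) -
          L * (P * D2 A (a • ax + ω) ax η - L * D2 A (a • ax + ω) ax ax) := by
      unfold D2
      simp only [map_sub, map_smul, ContinuousLinearMap.sub_apply, ContinuousLinearMap.smul_apply,
        smul_eq_mul]
      ring
    rw [e1, hL2, ← hP, ← hL, ← hQ]
    ring
  rw [h3] at h2
  have h4 : 0 < P * Q - L ^ 2 := (pos_iff_pos_of_mul_pos h2).1 h1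
  refine ⟨mul_pos D.d0 h1, ?_⟩
  show (d * L) ^ 2 < d * P * (d * Q)
  have h5 : 0 < d ^ 2 * (P * Q - L ^ 2) := mul_pos (pow_pos D.d0 2) h4
  nlinarith [h5]

end CJ
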