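import Pool.Agent.H.MP_1693ff_gtE.OHalf

/-!
# The half curve: all properties
-/

namespace CJ

open Real Set Filter Topology CG CH
open CF hiding St

/-- chaining a property along the pieces `[n, n+1]`. -/
theorem ohalfb_chain {P : ℝ → ℝ → Prop}
    (htr : ∀ a b c, a ≤ b → b ≤ c → P a b → P b c → P a c)
    (hp : ∀ n : ℕ, ∀ t ∈ Icc (n : ℝ) (n + 1), ∀ t' ∈ Icc (n : ℝ) (n + 1),
      t ≤ t' → P t t') {t t' : ℝ} (ht : 0 ≤ t) (htt : t ≤ t') : P t t' := by
  have key : ∀ N : ℕ, ∀ t t' : ℝ, 0 ≤ t → t ≤ t' → t' ≤ (N : ℝ) + 1 → P t t' := by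
    intro N
    induction N with
    | zero =>
      intro t t' h1 h2 h3
      have h3' : t' ≤ 1 := by simpa using h3
      exact hp 0 t ⟨by push_cast; linarith, by push_cast; linarith⟩ t'
        ⟨by push_cast; linarith, by push_cast; linarith⟩ h2
    | succ N ih =>
      intro t t' h1 h2 h3
      push_cast at h3
      by_cases hc : t' ≤ (N : ℝ) + 1
      · exact ih t t' h1 h2 hc
      · push Not at hc
        by_cases hd : (N : ℝ) + 1 ≤ t
        · exact hp (N + 1) t ⟨by push_cast; linarith, by push_cast; linarith⟩ t'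
            ⟨by push_cast; linarith, by push_cast; linarith⟩ h2
        · push Not at hd
          refine htr t ((N : ℝ) + 1) t' hd.le hc.le (ih t _ h1 hd.le le_rfl) ?_
          exact hp (N + 1) _ ⟨by push_cast; linarith, by push_cast; linarith⟩ t'
            ⟨by push_cast; linarith, by push_cast; linarith⟩ hc.le
  obtain ⟨N, hN⟩ := exists_nat_ge t'
  exact key N t t' ht htt (by linarith)

/-- gluing of continuous pieces. -/
theorem ohalfb_cont {f : ℝ → ℝ}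
    (hp : ∀ n : ℕ, ContinuousOn f (Icc (n : ℝ) (n + 1))) :
    ContinuousOn f (Ici 0) := by
  have key : ∀ N : ℕ, ContinuousOn f (Icc 0 ((N : ℝ) + 1)) := by
    intro N
    induction N with
    | zero =>
      have h := hp 0
      norm_num at h
      norm_num
      exact h
    | succ N ih =>
      have h : Icc (0 : ℝ) (((N + 1 : ℕ) : ℝ) + 1) =
          Icc 0 ((N : ℝ) + 1) ∪ Icc (((N + 1 : ℕ) : ℝ)) (((N + 1 : ℕ) : ℝ) + 1) := by
        have h1 : ((N + 1 : ℕ) : ℝ) = (N : ℝ) + 1 := by push_cast; ring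
        have h0 : (0 : ℝ) ≤ N := Nat.cast_nonneg N
        rw [h1, Icc_union_Icc_eq_Icc (by linarith) (by linarith)]
      rw [h]
      exact ih.union_of_isClosed (hp (N + 1)) isClosed_Icc isClosed_Icc
  intro t ht
  obtain ⟨N, hN⟩ := exists_nat_ge t
  have h0 : (0 : ℝ) ≤ N := Nat.cast_nonneg N
  have h1 : ContinuousWithinAt f (Icc 0 ((N : ℝ) + 1)) t :=
    key N t ⟨ht, by linarith⟩
  refine h1.mono_of_mem_nhdsWithin ?_
  have h2 : Iio ((N : ℝ) + 1) ∈ 𝓝 t := Iio_mem_nhds (by linarith)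
  have h3 : Ici (0 : ℝ) ∩ Iio ((N : ℝ) + 1) ∈ 𝓝[Ici 0] t :=
    inter_mem_nhdsWithin _ h2
  exact mem_of_superset h3 (fun y hy => ⟨hy.1, hy.2.le⟩)

/-- the chain that gives `ZG` on `[n, n+1]`. -/
noncomputable def ohalfb_ch (e d : ℝ) (h k : ℝ → ℝ) (S S' : ℝ → St) (n : ℕ) (t : ℝ) : St :=
  if Even n then chn e d h k S n t else chn e d k h S' n t

theorem ohalfb_piece {e d : ℝ} {h k : ℝ → ℝ} {S S' : ℝ → St} (D : HK e d h k S S') (n : ℕ) {τ : ℝ}
    (hτ : τ ∈ Icc (n : ℝ) (n + 1)) :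
    (ZG e d h k S S' τ).α = (ohalfb_ch e d h k S S' n (τ - n)).α ∧
    (ZG e d h k S S' τ).a = (ohalfb_ch e d h k S S' n (τ - n)).a ∧
    (ZG e d h k S S' τ).s = (ohalfb_ch e d h k S S' n (τ - n)).s := by
  have h1 : τ - n ∈ Icc (0 : ℝ) 1 := ⟨by linarith [hτ.1], by linarith [hτ.2]⟩
  have h2 := zg_piece D n h1
  rw [add_sub_cancel] at h2
  exact h2

theorem ohalfb_mem {n : ℕ} {τ : ℝ} (hτ : τ ∈ Icc (n : ℝ) (n + 1)) : τ - n ∈ Icc (0 : ℝ) 1 :=
  ⟨by linarith [hτ.1], by linarith [hτ.2]⟩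

theorem ohalfb_ch_cont {e d : ℝ} {h k : ℝ → ℝ} {S S' : ℝ → St} (D : HK e d h k S S') (n : ℕ) :
    ContinuousOn (fun t => (ohalfb_ch e d h k S S' n t).a) (Icc 0 1) ∧
    ContinuousOn (fun t => (ohalfb_ch e d h k S S' n t).α) (Icc 0 1) ∧
    ContinuousOn (fun t => (ohalfb_ch e d h k S S' n t).s) (Icc 0 1) := by
  unfold ohalfb_ch
  by_cases hn : Even n
  · simp only [hn, if_true]
    exact chn_cont D n
  · simp only [hn, if_false]
    exact chn_cont D.swap n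

theorem ohalfb_ch_rel {e d : ℝ} {h k : ℝ → ℝ} {S S' : ℝ → St} (D : HK e d h k S S') (n : ℕ)
    {t t' : ℝ} (ht : t ∈ Icc (0 : ℝ) 1) (ht' : t' ∈ Icc (0 : ℝ) 1) (htt : t ≤ t') :
    RelG (ohalfb_ch e d h k S S' n t).a (-(ohalfb_ch e d h k S S' n t).α) (ohalfb_ch e d h k S S' n t).s
      (ohalfb_ch e d h k S S' n t').a (-(ohalfb_ch e d h k S S' n t').α) (ohalfb_ch e d h k S S' n t').s ∧
    (t < t' → (ohalfb_ch e d h k S S' n t).a < (ohalfb_ch e d h k S S' n t').a) := by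
  unfold ohalfb_ch
  by_cases hn : Even n
  · simp only [hn, if_true]
    exact chn_rel D n ht ht' htt
  · simp only [hn, if_false]
    exact chn_rel D.swap n ht ht' htt

/-- every `τ ≥ 0` is in a piece. -/
theorem ohalfb_floor {τ : ℝ} (hτ : 0 ≤ τ) : τ ∈ Icc ((⌊τ⌋₊ : ℕ) : ℝ) (⌊τ⌋₊ + 1) :=
  ⟨Nat.floor_le hτ, (Nat.lt_floor_add_one τ).le⟩

/-- All properties of the half curve. -/
theorem half_HZG {e d : ℝ} {h k : ℝ → ℝ} {S S' : ℝ → St} (D : HK e d h k S S') :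
    HZG (ZG e d h k S S') := by
  have hd : 0 < d := D.d0
  -- continuity on the pieces
  have hsub : ∀ n : ℕ, MapsTo (fun τ : ℝ => τ - (n : ℝ)) (Icc (n : ℝ) (n + 1))
      (Icc (0 : ℝ) 1) := fun n τ hτ => ohalfb_mem hτ
  have hcs : ∀ n : ℕ, ContinuousOn (fun τ : ℝ => τ - (n : ℝ)) (Icc (n : ℝ) (n + 1)) :=
    fun n => by fun_prop
  have ca : ∀ n : ℕ, ContinuousOn (fun τ => (ZG e d h k S S' τ).a) (Icc (n : ℝ) (n + 1)) := by
    intro n
    have hc := ((ohalfb_ch_cont D n).1).comp (hcs n) (hsub n)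
    exact hc.congr fun τ hτ => (ohalfb_piece D n hτ).2.1
  have cα : ∀ n : ℕ, ContinuousOn (fun τ => (ZG e d h k S S' τ).α) (Icc (n : ℝ) (n + 1)) := by
    intro n
    have hc := ((ohalfb_ch_cont D n).2.1).comp (hcs n) (hsub n)
    exact hc.congr fun τ hτ => (ohalfb_piece D n hτ).1
  have cs : ∀ n : ℕ, ContinuousOn (fun τ => (ZG e d h k S S' τ).s) (Icc (n : ℝ) (n + 1)) := by
    intro n
    have hc := ((ohalfb_ch_cont D n).2.2).comp (hcs n) (hsub n)
    exact hc.congr fun τ hτ => (ohalfb_piece D n hτ).2.2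
  -- relations on the pieces
  have hrel : ∀ n : ℕ, ∀ τ ∈ Icc (n : ℝ) (n + 1), ∀ τ' ∈ Icc (n : ℝ) (n + 1), τ ≤ τ' →
      RelG (ZG e d h k S S' τ).a (-(ZG e d h k S S' τ).α) (ZG e d h k S S' τ).s
        (ZG e d h k S S' τ').a (-(ZG e d h k S S' τ').α) (ZG e d h k S S' τ').s ∧
      (τ < τ' → (ZG e d h k S S' τ).a < (ZG e d h k S S' τ').a) := by
    intro n τ hτ τ' hτ' hle
    obtain ⟨a1, a2, a3⟩ := ohalfb_piece D n hτ
    obtain ⟨b1, b2, b3⟩ := ohalfb_piece D n hτ'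
    rw [a1, a2, a3, b1, b2, b3]
    obtain ⟨c1, c2⟩ := ohalfb_ch_rel D n (ohalfb_mem hτ) (ohalfb_mem hτ')
      (by linarith : τ - (n : ℝ) ≤ τ' - n)
    exact ⟨c1, fun hlt => c2 (by linarith)⟩
  have rel : ∀ τ τ', 0 ≤ τ → τ ≤ τ' →
      RelG (ZG e d h k S S' τ).a (-(ZG e d h k S S' τ).α) (ZG e d h k S S' τ).s
        (ZG e d h k S S' τ').a (-(ZG e d h k S S' τ').α) (ZG e d h k S S' τ').s := by
    intro τ τ' h0 hle
    exact ohalfb_chain (P := fun τ τ' => RelG (ZG e d h k S S' τ).a (-(ZG e d h k S S' τ).α)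
        (ZG e d h k S S' τ).s (ZG e d h k S S' τ').a (-(ZG e d h k S S' τ').α) (ZG e d h k S S' τ').s)
      (fun a b c _ _ h1 h2 => h1.trans h2)
      (fun n t ht t' ht' htt => (hrel n t ht t' ht' htt).1) h0 hle
  refine ⟨ohalfb_cont ca, ohalfb_cont cα, ohalfb_cont cs, ?_, ?_, ?_, rel, ?_, ?_, ?_, ?_⟩
  · intro τ hτ
    exact (zg_good D hτ).s0
  · -- mono
    intro t ht t' ht' htt
    have := ohalfb_chain (P := fun t t' => t < t' → (ZG e d h k S S' t).a < (ZG e d h k S S' t').a)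
      (by
        intro a b c hab hbc h1 h2 hac
        rcases lt_or_eq_of_le hab with h | h
        · rcases lt_or_eq_of_le hbc with h' | h'
          · exact (h1 h).trans (h2 h')
          · rw [← h']; exact h1 h
        · rw [h]; exact h2 (h ▸ hac))
      (fun n t ht t' ht' htt => (hrel n t ht t' ht' htt).2) ht htt.le
    exact this htt
  · -- pos
    intro τ hτ
    have h1 := (zg_good D hτ).W0
    unfold St.W at h1
    rw [div_pos_iff_of_pos_right hd] at h1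
    linarith
  · -- top
    refine tendsto_atTop.2 fun M => ?_
    obtain ⟨N, hN⟩ := D.gr M
    filter_upwards [eventually_ge_atTop ((N : ℝ) + 1)] with τ hτ
    have hN0 : (0 : ℝ) ≤ N := Nat.cast_nonneg N
    have h0 : 0 ≤ τ := by linarith
    have h2 := ohalfb_floor h0
    have h3 := ohalfb_mem h2
    have h4 : N ≤ ⌊τ⌋₊ := Nat.le_floor (by linarith)
    rw [(ohalfb_piece D _ h2).2.1]
    unfold ohalfb_ch
    by_cases hn : Even ⌊τ⌋₊
    · simp only [hn, if_true]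
      exact (hN _ h4 _ h3).1
    · simp only [hn, if_false]
      exact (hN _ h4 _ h3).2
  · -- lt
    obtain ⟨N, hN⟩ := D.lt
    have h0 : (0 : ℝ) ≤ N := Nat.cast_nonneg N
    refine ⟨N, h0, ?_⟩
    have h2 : (N : ℝ) ∈ Icc ((N : ℕ) : ℝ) (N + 1) := ⟨le_rfl, by linarith⟩
    rw [(ohalfb_piece D N h2).2.2]
    unfold ohalfb_ch
    by_cases hn : Even N
    · simp only [hn, if_true]
      exact (hN _ le_rfl _ (ohalfb_mem h2)).1
    · simp only [hn, if_false]
      exact (hN _ le_rfl _ (ohalfb_mem h2)).2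
  · -- cb
    obtain ⟨C, hC⟩ := D.cb
    refine ⟨C, fun τ hτ => ?_⟩
    have h3 := ohalfb_floor hτ
    obtain ⟨a1, a2, a3⟩ := ohalfb_piece D _ h3
    rw [a1, a2, a3]
    unfold ohalfb_ch
    by_cases hn : Even ⌊τ⌋₊
    · simp only [hn, if_true]
      exact (hC _ (ohalfb_mem h3) _).1
    · simp only [hn, if_false]
      exact (hC _ (ohalfb_mem h3) _).2
  · -- sb
    obtain ⟨c, hc, H⟩ := D.sb
    refine ⟨c, hc, fun τ hτ => ?_⟩
    have h3 := ohalfb_floor hτ
    rw [(ohalfb_piece D _ h3).2.2]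
    unfold ohalfb_ch
    by_cases hn : Even ⌊τ⌋₊
    · simp only [hn, if_true]
      exact (H _ (ohalfb_mem h3) _).1
    · simp only [hn, if_false]
      exact (H _ (ohalfb_mem h3) _).2

end CJ
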