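import Pool.Agent.H.MP_1693ff_gtB.GFinD
import Pool.Agent.H.MP_1693ff_gtE.OGlueC
import Pool.Agent.H.MP_1693ff_gtB.GBodyB
import Pool.Agent.H.MP_1693ff_gtE.OAsymD

/-!
# Near-constant pairs
-/

namespace CJ

open Real Set Filter Topology CG CH Pointwise
open CF hiding St

theorem gprof_cot {f : ℝ → ℝ} {θ : ℝ} (hθ : θ ∈ Ioo 0 π) :
    sin θ * prof f (cos θ / sin θ) = f θ := by
  have hs : 0 < sin θ := Real.sin_pos_of_mem_Ioo hθ
  have h1 : √(1 + (cos θ / sin θ) ^ 2) = 1 / sin θ := by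
    have : 1 + (cos θ / sin θ) ^ 2 = (1 / sin θ) ^ 2 := by
      field_simp
      linarith [Real.sin_sq_add_cos_sq θ]
    rw [this, Real.sqrt_sq (by positivity)]
  have h2 : arctan (cos θ / sin θ) = π / 2 - θ := by
    have : cos θ / sin θ = tan (π / 2 - θ) := by
      rw [Real.tan_eq_sin_div_cos, Real.sin_pi_div_two_sub, Real.cos_pi_div_two_sub]
    rw [this, Real.arctan_tan (by linarith [hθ.2]) (by linarith [hθ.1])]
  unfold prof
  rw [h1, h2, sub_sub_cancel]
  field_simp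

/-- The body of the two functions `h₁`, `h₂`, unit distance. -/
theorem body_of_HK {e d : ℝ} {h₁ h₂ : ℝ → ℝ} {U L V V' : ℝ → St}
    (D : HK e d h₁ h₂ U L) (D' : HK e d (ng h₂) (ng h₁) V V') (m13 : Mir U V) (m24 : Mir L V')
    (p₁ : ∀ θ, 0 < h₁ θ) (p₂ : ∀ θ, 0 < h₂ θ) :
    ∃ K, PairI (-e) (fun θ => (d * h₁ θ) ^ e) (fun θ => (d * h₂ θ) ^ e) K 0 (ev 0) := by
  obtain ⟨x, y, s, yH, sH, G, -⟩ := exists_gcvG D D' m13 m24 (p₁ 0) (p₂ 0)
  have he0 : 0 < e := by linarith [D.e1]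
  have hd : 0 < d := D.d0
  obtain ⟨m, M, F, F', C, eF, eF', g1, g2⟩ := curveW D.e1 G
  obtain ⟨b1, b2, b3, b4⟩ := body_chordI he0 C
  have hi := body_interior C
  have hpp : ∀ a, 0 < prof h₁ a := fun a => by
    unfold prof
    have := p₁ (π / 2 - arctan a)
    positivity
  refine ⟨body F F' x y s, body_isBody C, hi.1, hi.2, ?_, ?_⟩
  · refine chordI_per (fun θ => by simp only [D.hp]) ?_ fun θ hθ => ?_
    · rw [b2, g1]
    · obtain ⟨τ, hτ⟩ := curve_surj_x C (cos θ / sin θ)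
      have hs : 0 < sin θ := Real.sin_pos_of_mem_Ioo hθ
      rw [b1 θ hθ τ hτ, eF, G.r1 τ, hτ, ← gprof_cot (f := h₁) hθ]
      have h0 : 0 < prof h₁ (cos θ / sin θ) := hpp _
      rw [← Real.mul_rpow hs.le (by positivity)]
      congr 1
      ring
  · refine chordI_per (fun θ => by simp only [D.kp]) ?_ fun θ hθ => ?_
    · rw [b4, g2]
    · obtain ⟨τ, hτ⟩ := curve_surj_y C (-(cos θ / sin θ))
      have hs : 0 < sin θ := Real.sin_pos_of_mem_Ioo hθ
      have hsh : yH (τ - 2) = y τ := by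
        rw [G.sh]; congr 1; ring
      have hH : y (τ - 2) - F (x (τ - 2)) = -(cos θ / sin θ) := by
        rw [eF, hsh, hτ]
      rw [b3 θ hθ τ (τ - 2) hτ hH, eF]
      have hr := G.r2 (τ - 2)
      have e2 : τ - 2 + 2 = τ := by ring
      rw [e2] at hr
      have e3 : x τ + y τ = x τ + yH (τ - 2) := by rw [hsh]
      rw [e3, hr, hsh, hτ]
      have hpn : prof (ng h₂) (-(cos θ / sin θ)) = prof h₂ (cos θ / sin θ) := by
        rw [(prof_neg D'.hp D'.hc _).1]
        congr 1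
        funext t
        simp [ng]
      rw [hpn, ← gprof_cot (f := h₂) hθ]
      have h0 : 0 < prof h₂ (cos θ / sin θ) := by
        unfold prof
        have := p₂ (π / 2 - arctan (cos θ / sin θ))
        positivity
      rw [← Real.mul_rpow hs.le (by positivity)]
      congr 1
      ring

end CJ
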