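import Pool.Agent.H.MP_1693ff_gtE.ONGB

/-!
# The gauge function in space: continuity at the axis
-/

namespace CJ

open Real Set Filter Topology CG CH
open CF hiding St

variable {E : Type*} [NormedAddCommGroup E] [InnerProductSpace ℝ E]
variable {e d m M : ℝ} {H₁ H₂ : E → ℝ} {ax : E} {X Y s YH sH : E → ℝ → ℝ}

theorem onglocb_inv {x : ℝ → ℝ} (hc : Continuous x) (hm : StrictMono x)
    (ht : Tendsto x atTop atTop) (hb : Tendsto x atBot atBot) :
    ∃ τ : ℝ → ℝ, (∀ p, x (τ p) = p) ∧ Tendsto τ atTop atTop ∧ Tendsto τ atBot atBot := by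
  choose τ hτ using hc.surjective ht hb
  refine ⟨τ, hτ, ?_, ?_⟩
  · rw [tendsto_atTop]
    intro b
    filter_upwards [eventually_ge_atTop (x b)] with p hp
    rw [← hm.le_iff_le, hτ]
    exact hp
  · rw [tendsto_atBot]
    intro b
    filter_upwards [eventually_le_atBot (x b)] with p hp
    rw [← hm.le_iff_le, hτ]
    exact hp

theorem onglocb_div {c : ℝ} (hc : 0 < c) : Tendsto (fun l : ℝ => c / l) (𝓝[>] 0) atTop := by
  simp only [div_eq_mul_inv]
  exact tendsto_inv_nhdsGT_zero.const_mul_atTop hc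

theorem onglocb_div' {c : ℝ} (hc : c < 0) : Tendsto (fun l : ℝ => c / l) (𝓝[>] 0) atBot := by
  simp only [div_eq_mul_inv]
  exact tendsto_inv_nhdsGT_zero.const_mul_atTop_of_neg hc

/-- Continuity at the axis in orthogonal directions: `gg (c ax + l ω) = l (x + y)(τ)`,
`x(τ) = c/l` (`l > 0`).  For `c > 0`: `x → ∞`, `τ → ∞`, `(x+y)/x → 1 - m` (`GC0.ib`, `lt`);
`c < 0`: `x → -∞`, `(x+y)/x → 1 - M`; `c = 0`: `x = 0`, `l (0 + y) → 0`. -/
theorem gg_axis_lim (hax : ‖ax‖ = 1) (g : GA e d H₁ H₂ ax m M X Y s YH sH) {ω : E}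
    (hω : Un ax ω) (c : ℝ) :
    Tendsto (fun l : ℝ => gg ax m M X Y (c • ax + l • ω)) (𝓝[>] 0)
      (𝓝 (gg ax m M X Y (c • ax))) := by
  have C := g.cv ω hω
  obtain ⟨τ, hτ, hτt, hτb⟩ := onglocb_inv C.cx C.xmono C.xtop C.xbot
  obtain ⟨K, hK⟩ := C.ib
  have key : ∀ l : ℝ, 0 < l → gg ax m M X Y (c • ax + l • ω) = l * (c / l + Y ω (τ (c / l))) := by
    intro l hl
    have h1 := gg_curve hax g hω hl (τ (c / l))
    rw [hτ, smul_add, smul_smul, mul_div_cancel₀ _ hl.ne'] at h1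
    exact h1
  have key' : (fun l : ℝ => l * (c / l + Y ω (τ (c / l)))) =ᶠ[𝓝[>] 0]
      fun l : ℝ => gg ax m M X Y (c • ax + l • ω) := by
    filter_upwards [self_mem_nhdsWithin] with l hl
    exact (key l hl).symm
  refine Tendsto.congr' key' ?_
  have hax' := gg_axis (ax := ax) (m := m) (M := M) (X := X) (Y := Y) hax c
  rw [hax']
  rcases lt_trichotomy c 0 with hc | hc | hc
  · rw [if_neg (not_le.2 hc)]
    have h1 : Tendsto (fun t => (-Y ω t) / (-X ω t)) atBot (𝓝 (-M)) := by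
      refine CG.gasymb_ratio (s := s ω) (C := K) (tendsto_neg_atBot_atTop.comp C.xbot)
        (g.lb ω hω) fun t => ?_
      have h2 : -Y ω t + s ω t * -X ω t = -(Y ω t + s ω t * X ω t) := by ring
      rw [h2, abs_neg]
      exact (hK t).1
    have h2 := (h1.comp hτb).comp (onglocb_div' hc)
    have h3 : Tendsto (fun l : ℝ => c * (1 + (-Y ω (τ (c / l))) / (-X ω (τ (c / l)))))
        (𝓝[>] 0) (𝓝 (c * (1 + -M))) := (h2.const_add 1).const_mul c
    have h4 : (1 - M) * c = c * (1 + -M) := by ring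
    rw [h4]
    refine h3.congr' ?_
    filter_upwards [self_mem_nhdsWithin] with l hl
    have hl' : l ≠ 0 := ne_of_gt hl
    have hc' : c ≠ 0 := ne_of_lt hc
    rw [hτ, neg_div_neg_eq]
    field_simp
  · subst hc
    rw [if_pos le_rfl, mul_zero]
    have h1 : Tendsto (fun l : ℝ => l * Y ω (τ 0)) (𝓝[>] 0) (𝓝 (0 * Y ω (τ 0))) :=
      (tendsto_nhdsWithin_of_tendsto_nhds tendsto_id).mul_const _
    rw [zero_mul] at h1
    refine h1.congr' ?_
    filter_upwards with l
    rw [zero_div, zero_add]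
  · rw [if_pos hc.le]
    have h1 : Tendsto (fun t => Y ω t / X ω t) atTop (𝓝 (-m)) :=
      CG.gasymb_ratio (s := s ω) (C := K) C.xtop (g.lt ω hω) fun t => (hK t).1
    have h2 := (h1.comp hτt).comp (onglocb_div hc)
    have h3 : Tendsto (fun l : ℝ => c * (1 + Y ω (τ (c / l)) / X ω (τ (c / l))))
        (𝓝[>] 0) (𝓝 (c * (1 + -m))) := (h2.const_add 1).const_mul c
    have h4 : (1 - m) * c = c * (1 + -m) := by ring
    rw [h4]
    refine h3.congr' ?_
    filter_upwards [self_mem_nhdsWithin] with l hl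
    have hl' : l ≠ 0 := ne_of_gt hl
    have hc' : c ≠ 0 := ne_of_gt hc
    rw [hτ]
    field_simp

end CJ
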