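import Pool.Agent.H.MP_1693ff_gtE.OHomA
import Pool.Agent.H.MP_1693ff_gt.Nec3a

/-!
# Gauge functions of a smooth body
-/

namespace CJ

open Real Set Filter Topology CG CH
open CF hiding St

variable {E : Type} [NormedAddCommGroup E] [InnerProductSpace ℝ E]

theorem obodyk_aux1 {K : Set E} {p : E} (hp : p ∈ K) : radial K p 0 = 0 := by
  unfold radial
  have h : {c : ℝ | 0 ≤ c ∧ p + c • (0 : E) ∈ K} = Ici 0 := by
    ext c
    simp only [Set.mem_ofPred_eq, smul_zero, add_zero, mem_Ici]
    exact ⟨fun h => h.1, fun h => ⟨h, hp⟩⟩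
  rw [h]
  exact Real.sSup_of_not_bddAbove (not_bddAbove_Ici (0 : ℝ))

/-- The inverse of the radial function is the gauge function of `K - p` (`radial_eq`; both are `0`
at `0`: `sSup` of the unbounded set `[0, ∞)` is `0`). -/
theorem rad_gauge {K : Set E} (hK : IsBody K) {p : E} (hp : p ∈ interior K) (u : E) :
    (radial K p u)⁻¹ = gauge {x : E | p + x ∈ K} u := by
  by_cases hu : u = 0
  · subst hu
    rw [obodyk_aux1 (interior_subset hp), gauge_zero, inv_zero]
  · rw [(radial_eq hK hp hu).1, inv_inv]

theorem rad_hg {K : Set E} (hK : IsBody K) {p : E} (hp : p ∈ interior K)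
    (c : ContDiffOn ℝ 3 (fun u => (radial K p u)⁻¹) {0}ᶜ) : Hg (fun u => (radial K p u)⁻¹) := by
  refine ⟨?_, ?_, ?_⟩
  · intro c hc v
    show (radial K p (c • v))⁻¹ = c * (radial K p v)⁻¹
    rw [rad_gauge hK hp, rad_gauge hK hp, gauge_smul_of_nonneg hc.le, smul_eq_mul]
  · intro v hv
    show 0 < (radial K p v)⁻¹
    rw [rad_gauge hK hp]
    exact (radial_eq hK hp hv).2
  · intro v hv
    exact c.contDiffAt (isOpen_compl_singleton.mem_nhds hv)

/-- The gauge function is sublinear, so its derivative in the direction `x` is at most its value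
at `x`, and the value at a vector `x` with `p + d x ∈ interior K` is less than `1/d`. -/
theorem rad_sl {K : Set E} (hK : IsBody K) {p : E} (hp : p ∈ interior K)
    (c : ContDiffOn ℝ 3 (fun u => (radial K p u)⁻¹) {0}ᶜ) {d : ℝ} (hd : 0 < d) {x : E}
    (hx : p + d • x ∈ interior K) {v : E} (hv : v ≠ 0) :
    0 < 1 - d * D1 (fun u => (radial K p u)⁻¹) v x := by
  obtain ⟨hc, h0, hcomp⟩ := nec3a_facts hK hp
  set V : E → ℝ := fun u => (radial K p u)⁻¹ with hV
  have hVg : ∀ u, V u = gauge {x : E | p + x ∈ K} u := fun u => rad_gauge hK hp u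
  have hdiff : DifferentiableAt ℝ V v :=
    ((rad_hg hK hp c).c v hv).differentiableAt (by norm_num)
  -- the value at `x`
  have h1 : d * V x < 1 := by
    rw [hVg, ← smul_eq_mul, ← gauge_smul_of_nonneg hd.le]
    have hint : d • x ∈ interior {x : E | p + x ∈ K} := by
      have : interior {x : E | p + x ∈ K} = {x : E | p + x ∈ interior K} :=
        ((Homeomorph.addLeft p).preimage_interior K).symm
      rw [this]
      exact hx
    exact interior_subset_gauge_lt_one _ hint
  -- derivative along `t ↦ v + t x`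
  have hder : HasDerivAt (fun t : ℝ => V (v + t • x)) (D1 V v x) 0 := by
    have h2 : HasDerivAt (fun t : ℝ => v + t • x) x 0 := by
      have h3 := ((hasDerivAt_id (0 : ℝ)).smul_const x).const_add v
      simpa using h3
    have h4 : DifferentiableAt ℝ V ((fun t : ℝ => v + t • x) 0) := by
      simpa using hdiff
    have h5 := d1_along (γ := fun t : ℝ => v + t • x) h4 h2
    simpa using h5
  have h6 : D1 V v x ≤ V x := by
    have h7 := hder.tendsto_slope_zero_right
    refine le_of_tendsto h7 ?_
    filter_upwards [self_mem_nhdsWithin] with t ht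
    have ht0 : (0 : ℝ) < t := ht
    have h8 : V (v + t • x) ≤ V v + t * V x := by
      rw [hVg, hVg, hVg]
      refine (gauge_add_le hc (absorbent_nhds_zero h0) _ _).trans ?_
      rw [gauge_smul_of_nonneg ht0.le, smul_eq_mul]
    simp only [zero_add, zero_smul, add_zero, smul_eq_mul]
    rw [inv_mul_le_iff₀ ht0]
    linarith
  have h9 : d * D1 V v x ≤ d * V x := mul_le_mul_of_nonneg_left h6 hd.le
  linarith

end CJ
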