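import Pool.Agent.H.MP_1693ff_gtE.OBodyK

/-!
# Gauge functions of a smooth body: change of the centre
-/

namespace CJ

open Real Set Filter Topology CG CH
open CF hiding St

variable {E : Type} [NormedAddCommGroup E] [InnerProductSpace ℝ E]

/-- The change of the centre from `p` to `q = p + y`: for `v ≠ 0` let `r = radial K p v`, so
`x = p + r v` is a boundary point (for `c > r`, `p + c v ∉ K`).  With `w = v - (1/r) y` we have
`q + r w = x`; for `c > r` the point `q + c w` is not in `K`, otherwise `x` would be an interior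
point (`q` is interior and `x` is strictly between `q` and `q + c w`), so `radial K q w = r`. -/
theorem rad_link {K : Set E} (hK : IsBody K) {p y : E} (hp : p ∈ interior K)
    (hq : p + y ∈ interior K) {v : E} (hv : v ≠ 0) :
    (radial K (p + y) (v - (radial K p v)⁻¹ • y))⁻¹ = (radial K p v)⁻¹ := by
  obtain ⟨hc, h0, hcomp⟩ := nec3a_facts hK hp
  obtain ⟨hc', h0', hcomp'⟩ := nec3a_facts hK hq
  rw [rad_gauge hK hq, rad_gauge hK hp]
  set C : Set E := {x : E | p + x ∈ K} with hC
  set C' : Set E := {x : E | p + y + x ∈ K} with hC'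
  set g : ℝ := gauge C v with hg
  have hpos : 0 < g := (gauge_pos (absorbent_nhds_zero h0)
      ((NormedSpace.isVonNBounded_iff ℝ).2 hcomp.isBounded)).2 hv
  have h1 : gauge C (g⁻¹ • v) = 1 := by
    rw [gauge_smul_of_nonneg (inv_nonneg.2 hpos.le), smul_eq_mul, ← hg, inv_mul_cancel₀ hpos.ne']
  have h2 : g⁻¹ • v ∈ frontier C := (gauge_eq_one_iff_mem_frontier hc h0).1 h1
  have h3 : C' = (Homeomorph.addLeft y) ⁻¹' C := by
    ext z
    simp only [hC, hC', Set.mem_preimage, Homeomorph.coe_addLeft, Set.mem_ofPred_eq]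
    rw [add_assoc]
  have h4 : g⁻¹ • v - y ∈ frontier C' := by
    rw [h3, ← Homeomorph.preimage_frontier, Set.mem_preimage, Homeomorph.coe_addLeft]
    have e : y + (g⁻¹ • v - y) = g⁻¹ • v := by abel
    show y + (g⁻¹ • v - y) ∈ frontier C
    rw [e]
    exact h2
  have h5 : gauge C' (g⁻¹ • v - y) = 1 := (gauge_eq_one_iff_mem_frontier hc' h0').2 h4
  have h6 : v - g • y = g • (g⁻¹ • v - y) := by
    rw [smul_sub, smul_smul, mul_inv_cancel₀ hpos.ne', one_smul]
  rw [h6, gauge_smul_of_nonneg hpos.le, h5, smul_eq_mul, mul_one]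

theorem obodyl_fderiv_neg {F : Type} [NormedAddCommGroup F] [NormedSpace ℝ F] (C : E → F) (v : E) :
    fderiv ℝ (fun u => C (-u)) v = -fderiv ℝ C (-v) := by
  have h := (ContinuousLinearEquiv.neg ℝ (M := E)).comp_right_fderiv (f := C) (x := v)
  have h2 : (fun u => C (-u)) = C ∘ (ContinuousLinearEquiv.neg ℝ (M := E)) := by
    funext u
    simp
  rw [h2, h]
  ext x
  simp

/-- **The data of a smooth body.**  `A u = 1/radial K 0 u`, `B u = 1/radial K (d ax) (-u)`:
`rad_hg`, `rad_sl` (for `B` at `-u`, direction `-ax`), `rad_link` (`p = 0`, `y = d ax`, at `-v`;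
and `p = d ax`, `y = -d ax`). -/
theorem bd_of_body {K : Set E} (hK : IsBody K) {d : ℝ} (hd : 0 < d) {ax : E} (hax : ‖ax‖ = 1)
    (h0 : (0 : E) ∈ interior K) (h1 : d • ax ∈ interior K) (s0 : Sm K 0) (s1 : Sm K (d • ax)) :
    Bd d ax (fun u => (radial K 0 u)⁻¹) (fun u => (radial K (d • ax) (-u))⁻¹) := by
  have hgC := rad_hg hK h1 s1.c
  set C : E → ℝ := fun u => (radial K (d • ax) u)⁻¹ with hC
  have hD1 : ∀ v x, D1 (fun u => C (-u)) v x = -D1 C (-v) x := by
    intro v x
    unfold D1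
    rw [obodyl_fderiv_neg]
    rfl
  have hD2 : ∀ v x y, D2 (fun u => C (-u)) v x y = D2 C (-v) x y := by
    intro v x y
    unfold D2
    have e1 : fderiv ℝ (fun u => C (-u)) = fun u => -(fderiv ℝ C) (-u) := by
      funext u
      exact obodyl_fderiv_neg C u
    rw [e1]
    have e2 : fderiv ℝ (fun u => -(fderiv ℝ C) (-u)) v = -fderiv ℝ (fun u => (fderiv ℝ C) (-u)) v :=
      fderiv_fun_neg
    rw [e2, obodyl_fderiv_neg, neg_neg]
  refine ⟨hd, hax, rad_hg hK h0 s0.c, ⟨?_, ?_, ?_⟩, ?_, ?_, ?_, ?_, ?_, ?_⟩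
  · intro c hc v
    show C (-(c • v)) = c * C (-v)
    rw [← smul_neg, hgC.h c hc]
  · intro v hv
    exact hgC.p (-v) (neg_ne_zero.2 hv)
  · intro v hv
    exact (hgC.c (-v) (neg_ne_zero.2 hv)).comp v contDiff_neg.contDiffAt
  · intro v x hv hx
    exact s0.q v hv x hx
  · intro v x hv hx
    show 0 < D2 (fun u => C (-u)) v x x
    rw [hD2]
    refine s1.q (-v) (neg_ne_zero.2 hv) x fun c hc => hx (-c) ?_
    rw [hc, smul_neg, neg_smul]
  · intro v hv
    exact rad_sl hK h0 s0.c hd (by rwa [zero_add]) hv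
  · intro v hv
    show 0 < 1 - d * D1 (fun u => C (-u)) v ax
    have h2 := rad_sl hK h1 s1.c hd (x := -ax) (by
      rw [smul_neg, add_neg_cancel]
      exact h0) (neg_ne_zero.2 hv)
    rw [hD1, ← d1_neg]
    exact h2
  · intro v hv
    have h2 := rad_link hK h0 (y := d • ax) (by rwa [zero_add]) (neg_ne_zero.2 hv)
    rw [zero_add] at h2
    have e : -(v + (d * (radial K 0 (-v))⁻¹) • ax) = -v - (radial K 0 (-v))⁻¹ • (d • ax) := by
      rw [smul_smul, mul_comm d]
      abel
    show (radial K (d • ax) (-(v + (d * (radial K 0 (-v))⁻¹) • ax)))⁻¹ = (radial K 0 (-v))⁻¹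
    rw [e]
    exact h2
  · intro v hv
    have h2 := rad_link hK h1 (y := -(d • ax)) (by
      rw [add_neg_cancel]
      exact h0) hv
    rw [add_neg_cancel] at h2
    have e : v + (d * (radial K (d • ax) v)⁻¹) • ax =
        v - (radial K (d • ax) v)⁻¹ • (-(d • ax)) := by
      rw [smul_neg, smul_smul, mul_comm d]
      abel
    show (radial K 0 (v + (d * (radial K (d • ax) (-(-v)))⁻¹) • ax))⁻¹ =
      (radial K (d • ax) (-(-v)))⁻¹
    rw [neg_neg, e]
    exact h2

end CJ
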