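import Pool.Agent.H.MP_1693ff_gtE.OCont

/-!
# Open conditions
-/

namespace CJ

open Real Set Filter Topology CG CH
open CF hiding St

variable {X : Type*} [TopologicalSpace X]

/-- `Cd` and `PD` are open conditions. -/
theorem cd_open {e d c C : ℝ} (he : 1 ≤ e) (hd : 0 < d) (hc : 0 < c) {P : X → Pf} {S : X → St}
    {x : X} (hS : CS S x) (h0 : ContinuousAt (fun y => (P y).f (S y).a) x)
    (h1 : ContinuousAt (fun y => (P y).f1 (S y).a) x)
    (h2 : ContinuousAt (fun y => (P y).f2 (S y).a) x) (W0 : 0 < (S x).W d)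
    (h : Cd e d c C (P x) (S x)) : ∀ᶠ y in 𝓝 x, Cd e d c C (P y) (S y) := by
  have hW := ocont_W (d := d) hS
  obtain ⟨-, ho1, -⟩ := ct_opp he hd hS h0 h1 h2 W0 h.W1
  have e1 : ∀ᶠ y in 𝓝 x, c * (1 + (S y).a) < (S y).W d :=
    ContinuousAt.eventually_lt (continuousAt_const.mul (continuousAt_const.add hS.a)) hW h.W0
  have e2 : ∀ᶠ y in 𝓝 x, (S y).W d < (P y).f (S y).a :=
    ContinuousAt.eventually_lt hW h0 h.W1
  have e3 : ∀ᶠ y in 𝓝 x, c < (S y).s :=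
    ContinuousAt.eventually_lt continuousAt_const hS.s h.s0
  have e4 : ∀ᶠ y in 𝓝 x, (S y).s < c⁻¹ :=
    ContinuousAt.eventually_lt hS.s continuousAt_const h.s1
  have e5 : ∀ᶠ y in 𝓝 x, 0 < (S y).k :=
    ContinuousAt.eventually_lt continuousAt_const hS.k h.k0
  have e6 : ∀ᶠ y in 𝓝 x, 0 < (S y).v :=
    ContinuousAt.eventually_lt continuousAt_const hS.v h.v0
  have e7 : ∀ᶠ y in 𝓝 x, 0 < 1 + d * opp1 e d (P y) (S y) :=
    ContinuousAt.eventually_lt continuousAt_const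
      (continuousAt_const.add (continuousAt_const.mul ho1)) h.p0
  have e8 : ∀ᶠ y in 𝓝 x, |(S y).s * (S y).a - (S y).α| < C :=
    ContinuousAt.eventually_lt ((hS.s.mul hS.a).sub hS.α).abs continuousAt_const h.g0
  filter_upwards [e1, e2, e3, e4, e5, e6, e7, e8] with y a1 a2 a3 a4 a5 a6 a7 a8
  exact ⟨a1, a2, a3, a4, a5, a6, a7, a8⟩

theorem pd_open {S : X → St} {T : X → Tt} {x : X} (hS : CS S x) (hT : CT T x)
    (h : PD (S x) (T x)) : ∀ᶠ y in 𝓝 x, PD (S y) (T y) := by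
  have e1 : ∀ᶠ y in 𝓝 x, 0 < (S y).k :=
    ContinuousAt.eventually_lt continuousAt_const hS.k h.1
  have e2 : ∀ᶠ y in 𝓝 x, (T y).ℓ ^ 2 < (S y).k * (T y).q :=
    ContinuousAt.eventually_lt (hT.ℓ.pow 2) (hS.k.mul hT.q) h.2
  filter_upwards [e1, e2] with y a1 a2
  exact ⟨a1, a2⟩

end CJ
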