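import Pool.Agent.H.MP_1693ff_gtE.OCstA
import Pool.Agent.H.MP_1693ff_gtE.OBdSt

/-!
# Strict inequalities for a smooth body
-/

namespace CJ

open Real Set Filter Topology CG CH
open CF hiding St

variable {ι : Type} [TopologicalSpace ι]
variable {E : Type} [NormedAddCommGroup E] [InnerProductSpace ℝ E]

theorem ocst_norm {ax ω : E} (h1 : ‖ax‖ = 1) (hω : Un ax ω) {a : ℝ} (ha : 0 ≤ a) :
    1 + a ≤ 2 * ‖a • ax + ω‖ := by
  have h2 : ‖a • ax + ω‖ ^ 2 = a ^ 2 + 1 := by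
    rw [norm_add_sq_real, norm_smul, h1, hω.n1, inner_smul_left, hω.o1]
    simp
  have h3 := norm_nonneg (a • ax + ω)
  by_contra hc
  push Not at hc
  nlinarith [sq_nonneg (a - 1)]

theorem ocst_ax {ax ω : E} (h1 : ‖ax‖ = 1) (hω : Un ax ω) (a c : ℝ) : ax ≠ c • (a • ax + ω) := by
  intro hc
  have hww : inner ℝ ω ω = (1 : ℝ) := by
    rw [real_inner_self_eq_norm_sq, hω.n1]; norm_num
  have h2 : inner ℝ ax ω = (inner ℝ (c • (a • ax + ω)) ω : ℝ) := by rw [← hc]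
  rw [inner_smul_left, inner_add_left, inner_smul_left, hω.o1, hww] at h2
  have hc0 : c = 0 := by simpa using h2.symm
  rw [hc0, zero_smul] at hc
  rw [hc, norm_zero] at h1
  exact zero_ne_one h1

/-- One surface: for `v = a ax + ω`, `a ≥ 0`: `‖v‖ ≥ 1`, `‖v‖ ≥ a`, so `c (1 + a) < A v` for
`c < m/2`; `A v < Φ v` (`Φ^e = A^e + A(-)^e`); `s = 1 - d D1 A v ax`; `k > 0` by `D.qA`
(`ax` is not a multiple of `v`); `1 + d opp1 = 1 - d D1 A (-v) ax > 0` (`opp_jet`);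
`s a - α = d (A v - a D1 A v ax) = d D1 A v ω` (`ho_euler`). -/
theorem cst_one [FiniteDimensional ℝ E] {e d : ℝ} {ax : E} {A B Φ : E → ℝ} (D : Bd d ax A B)
    (he : 1 ≤ e) (hΦ : Hg Φ) (ho : ∀ v, v ≠ 0 → Φ v ^ e = A v ^ e + A (-v) ^ e) :
    ∃ c C : ℝ, 0 < c ∧ 0 < C ∧ (∀ ω, Un ax ω → ∀ a v : ℝ, 0 ≤ a → 0 < v →
      Cd e d c C (PE Φ ax ω) (JE d A ax ω a v)) ∧ ∀ ω, Un ax ω → LC d c C ax A ω := by
  obtain ⟨m, M, hm, hM, hb⟩ := hg_bds D.hA D.sA
  have hd := D.d0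
  have hdM : 0 < d * M := mul_pos hd hM
  have hc0 : 0 < min (m / 4) (2 * M)⁻¹ := lt_min (by linarith) (by positivity)
  have hcm : min (m / 4) (2 * M)⁻¹ ≤ m / 4 := min_le_left _ _
  have hcM : M < (min (m / 4) (2 * M)⁻¹)⁻¹ := by
    have h1 : 2 * M ≤ (min (m / 4) (2 * M)⁻¹)⁻¹ := by
      have h2 : min (m / 4) (2 * M)⁻¹ ≤ (2 * M)⁻¹ := min_le_right _ _
      have h3 := inv_anti₀ hc0 h2
      rwa [inv_inv] at h3
    linarith
  refine ⟨min (m / 4) (2 * M)⁻¹, d * M + 1, hc0, by linarith, ?_, ?_⟩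
  · intro ω hω a v ha hv
    have hne := ax_ne hω a
    have hne' : -(a • ax + ω) ≠ 0 := neg_ne_zero.2 hne
    obtain ⟨b1, b2, b3, b4⟩ := hb _ hne
    have hn := ocst_norm D.a1 hω ha
    have hW := ooppb_W hd A ax ω a v
    have hA0 := D.hA.p _ hne
    have hA0' := D.hA.p _ hne'
    have hΦ0 := hΦ.p _ hne
    have he0 : 0 < e := by linarith
    refine ⟨?_, ?_, ?_, ?_, ?_, hv, ?_, ?_⟩
    · rw [hW]
      show min (m / 4) (2 * M)⁻¹ * (1 + a) < A (a • ax + ω)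
      have h1 : min (m / 4) (2 * M)⁻¹ * (1 + a) ≤ m / 4 * (1 + a) :=
        mul_le_mul_of_nonneg_right hcm (by linarith)
      have h2 : m * (1 + a) ≤ m * (2 * ‖a • ax + ω‖) := mul_le_mul_of_nonneg_left hn hm.le
      have h3 : 0 < m * (1 + a) := mul_pos hm (by linarith)
      nlinarith
    · rw [hW]
      show A (a • ax + ω) < Φ (a • ax + ω)
      have h1 : A (a • ax + ω) ^ e < Φ (a • ax + ω) ^ e := by
        rw [ho _ hne]
        have := Real.rpow_pos_of_pos hA0' e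
        linarith
      exact (Real.rpow_lt_rpow_iff hA0.le hΦ0.le he0).1 h1
    · show min (m / 4) (2 * M)⁻¹ < 1 - d * D1 A (a • ax + ω) ax
      linarith
    · show 1 - d * D1 A (a • ax + ω) ax < _
      linarith
    · exact mul_pos hd (D.qA _ _ hne fun c => ocst_ax D.a1 hω a c)
    · rw [(opp_jet hd v (opp_bd he D.hA hΦ ho hne)).2.1]
      have h1 := D.sA _ hne'
      linarith
    · show |(1 - d * D1 A (a • ax + ω) ax) * a - (a - d * A (a • ax + ω))| < d * M + 1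
      have h1 : D1 A (a • ax + ω) (a • ax + ω) = A (a • ax + ω) :=
        ho_euler D.hA.h ((D.hA.c _ hne).differentiableAt (by norm_num))
      rw [d1_add, d1_smul] at h1
      have h2 : (1 - d * D1 A (a • ax + ω) ax) * a - (a - d * A (a • ax + ω)) =
          d * D1 A (a • ax + ω) ω := by
        rw [← h1]; ring
      rw [h2, abs_mul, abs_of_pos hd]
      have h3 := b4 ω
      rw [hω.n1, mul_one] at h3
      have h4 := mul_le_mul_of_nonneg_left h3 hd.le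
      linarith
  · intro ω hω
    have hne : ax ≠ 0 := by
      intro h
      have h1 := D.a1
      rw [h, norm_zero] at h1
      exact zero_ne_one h1
    obtain ⟨b1, b2, b3, b4⟩ := hb _ hne
    have h1 : D1 A ax ax = A ax :=
      ho_euler D.hA.h ((D.hA.c _ hne).differentiableAt (by norm_num))
    rw [D.a1, mul_one] at b1
    rw [h1] at b2 b3
    refine ⟨by linarith, by linarith, by linarith, ?_⟩
    have h3 := b4 ω
    rw [hω.n1, mul_one] at h3
    have h4 := mul_le_mul_of_nonneg_left h3 hd.le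
    linarith

/-- `Cd` and `LC` are monotone in the constants. -/
theorem cd_mono {e d c C c' C' : ℝ} {P : Pf} {S : St} (h : Cd e d c C P S) (ha : 0 ≤ S.a)
    (h0 : 0 < c') (h1 : c' ≤ c) (h2 : C ≤ C') : Cd e d c' C' P S := by
  have h3 := inv_anti₀ h0 h1
  refine ⟨lt_of_le_of_lt (mul_le_mul_of_nonneg_right h1 (by linarith)) h.W0, h.W1,
    h1.trans_lt h.s0, h.s1.trans_le h3, h.k0, h.v0, h.p0, h.g0.trans_le h2⟩

theorem lc_mono {d c C c' C' : ℝ} {ax : E} {A : E → ℝ} {ω : E} (h : LC d c C ax A ω)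
    (h0 : 0 < c') (h1 : c' ≤ c) (h2 : C ≤ C') : LC d c' C' ax A ω := by
  have h3 := inv_anti₀ h0 h1
  exact ⟨h1.trans_lt h.w, h1.trans_lt h.s0, h.s1.trans_le h3, h.g.trans_le h2⟩

/-- Both surfaces: minimum and maximum of the constants (`cst_one` for `F` and `F.swap`). -/
theorem cst [FiniteDimensional ℝ E] {e d : ℝ} {ax : E} {A B : E → ℝ} {Φ Ψ : ι → E → ℝ} {i₀ : ι}
    (F : Fml e d ax A B Φ Ψ i₀) : ∃ c C : ℝ, CC e d c C ax A B (Φ i₀) (Ψ i₀) := by
  obtain ⟨c1, C1, h1, h2, h3, h4⟩ := cst_one F.bd F.e1 (F.hΦ i₀) F.oΦ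
  obtain ⟨c2, C2, k1, k2, k3, k4⟩ := cst_one F.bd.swap F.e1 (F.hΨ i₀) F.oΨ
  have hc0 : 0 < min c1 c2 := lt_min h1 k1
  refine ⟨min c1 c2, max C1 C2, hc0, h2.trans_le (le_max_left _ _), ?_, ?_, ?_, ?_⟩
  · intro ω hω a v ha hv
    exact cd_mono (h3 ω hω a v ha hv) ha hc0 (min_le_left _ _) (le_max_left _ _)
  · intro ω hω a v ha hv
    exact cd_mono (k3 ω hω a v ha hv) ha hc0 (min_le_right _ _) (le_max_right _ _)
  · intro ω hω
    exact lc_mono (h4 ω hω) hc0 (min_le_left _ _) (le_max_left _ _)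
  · intro ω hω
    exact lc_mono (k4 ω hω) hc0 (min_le_right _ _) (le_max_right _ _)

theorem CC.swap {e d c C : ℝ} {ax : E} {A B Φ Ψ : E → ℝ} (H : CC e d c C ax A B Φ Ψ) :
    CC e d c C ax B A Ψ Φ := ⟨H.c0, H.C0, H.jB, H.jA, H.lB, H.lA⟩

end CJ
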