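import Pool.Agent.H.MP_1693ff_gtE.OJCc

/-!
# Continuity of profile values
-/

namespace CJ

open Real Set Filter Topology CG CH
open CF hiding St

variable {ι : Type} [TopologicalSpace ι]
variable {E : Type} [NormedAddCommGroup E] [InnerProductSpace ℝ E]

/-- Continuity of the profile values along a family of states: `Φ i (a ax + ω)` etc.
(`JD.c0`, `JC.c1`, `JC.c2`). -/
theorem pe_cont {Φ : ι → E → ℝ} {i₀ : ι} {ax : E} {x : E × E × ℝ}
    {a : ι × (E × E × ℝ) → ℝ} (ha : ContinuousAt a (i₀, x))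
    (j : JC i₀ (a (i₀, x) • ax + x.1) 3 Φ) :
    ContinuousAt (fun p : ι × (E × E × ℝ) => (PE (Φ p.1) ax p.2.1).f (a p)) (i₀, x) ∧
    ContinuousAt (fun p : ι × (E × E × ℝ) => (PE (Φ p.1) ax p.2.1).f1 (a p)) (i₀, x) ∧
    ContinuousAt (fun p : ι × (E × E × ℝ) => (PE (Φ p.1) ax p.2.1).f2 (a p)) (i₀, x) ∧
    ContinuousAt (fun p : ι × (E × E × ℝ) => (GE (Φ p.1) ax p.2.1 p.2.2.1).fr (a p)) (i₀, x) ∧
    ContinuousAt (fun p : ι × (E × E × ℝ) => (GE (Φ p.1) ax p.2.1 p.2.2.1).far (a p)) (i₀, x) ∧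
    ContinuousAt (fun p : ι × (E × E × ℝ) => (GE (Φ p.1) ax p.2.1 p.2.2.1).ft (a p)) (i₀, x) := by
  have h1 : ContinuousAt (fun p : ι × (E × E × ℝ) => p.1) (i₀, x) := continuousAt_fst
  have hη : ContinuousAt (fun p : ι × (E × E × ℝ) => p.2.2.1) (i₀, x) := by fun_prop
  have hu : ContinuousAt (fun p : ι × (E × E × ℝ) => a p • ax + p.2.1) (i₀, x) := by
    have h2 : ContinuousAt (fun p : ι × (E × E × ℝ) => p.2.1) (i₀, x) := by fun_prop
    exact (ha.smul continuousAt_const).add h2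
  have hax : ContinuousAt (fun _ : ι × (E × E × ℝ) => ax) (i₀, x) := continuousAt_const
  refine ⟨?_, ?_, ?_, ?_, ?_, ?_⟩
  · exact ContinuousAt.comp (x := (i₀, x)) (g := fun q : ι × E => Φ q.1 q.2)
      (f := fun p : ι × (E × E × ℝ) => (p.1, a p • ax + p.2.1)) (JD.c0 j.2) (h1.prodMk hu)
  · exact ContinuousAt.comp (x := (i₀, x)) (g := fun q : ι × E × E => D1 (Φ q.1) q.2.1 q.2.2)
      (f := fun p : ι × (E × E × ℝ) => (p.1, a p • ax + p.2.1, ax))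
      (JC.c1 (k := 2) j ax) (h1.prodMk (hu.prodMk hax))
  · exact ContinuousAt.comp (x := (i₀, x))
      (g := fun q : ι × E × E × E => D2 (Φ q.1) q.2.1 q.2.2.1 q.2.2.2)
      (f := fun p : ι × (E × E × ℝ) => (p.1, a p • ax + p.2.1, ax, ax))
      (JC.c2 (k := 1) j ax ax) (h1.prodMk (hu.prodMk (hax.prodMk hax)))
  · exact ContinuousAt.comp (x := (i₀, x)) (g := fun q : ι × E × E => D1 (Φ q.1) q.2.1 q.2.2)
      (f := fun p : ι × (E × E × ℝ) => (p.1, a p • ax + p.2.1, p.2.2.1))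
      (JC.c1 (k := 2) j x.2.1) (h1.prodMk (hu.prodMk hη))
  · exact ContinuousAt.comp (x := (i₀, x))
      (g := fun q : ι × E × E × E => D2 (Φ q.1) q.2.1 q.2.2.1 q.2.2.2)
      (f := fun p : ι × (E × E × ℝ) => (p.1, a p • ax + p.2.1, ax, p.2.2.1))
      (JC.c2 (k := 1) j ax x.2.1) (h1.prodMk (hu.prodMk (hax.prodMk hη)))
  · exact ContinuousAt.comp (x := (i₀, x))
      (g := fun q : ι × E × E × E => D2 (Φ q.1) q.2.1 q.2.2.1 q.2.2.2)
      (f := fun p : ι × (E × E × ℝ) => (p.1, a p • ax + p.2.1, p.2.2.1, p.2.2.1))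
      (JC.c2 (k := 1) j x.2.1 x.2.1) (h1.prodMk (hu.prodMk (hη.prodMk hη)))

end CJ
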