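import Pool.Agent.H.MP_1693ff_gtE.OChE
import Pool.Agent.H.MP_1693ff_gtE.OPeC
import Pool.Agent.H.MP_1693ff_gtE.OCst
import Pool.Agent.H.MP_1693ff_gtE.OCont2

/-!
# The chains of a family: fixed number of steps
-/

namespace CJ

open Real Set Filter Topology CG CH
open CF hiding St

variable {ι : Type} [TopologicalSpace ι]
variable {E : Type} [NormedAddCommGroup E] [InnerProductSpace ℝ E]

theorem ochc_even {e d : ℝ} {ax : E} {Φ Ψ : ι → E → ℝ} {S : ι → E → ℝ → St}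
    {T : ι → E → E → ℝ → Tt} {n : ℕ} (hn : Even n) :
    (fun p => chE e d ax Φ Ψ S (n + 1) p) =
      (fun p => hst e d (PE (Φ p.1) ax p.2.1) (chE e d ax Φ Ψ S n p)) ∧
    (fun p => ctE e d ax Φ Ψ S T (n + 1) p) =
      (fun p => hst3 e d (PE (Φ p.1) ax p.2.1) (GE (Φ p.1) ax p.2.1 p.2.2.1)
        (chE e d ax Φ Ψ S n p) (ctE e d ax Φ Ψ S T n p)) := by
  constructor <;> funext p <;> simp [chE, ctE, cS, cT, hn]

theorem ochc_odd {e d : ℝ} {ax : E} {Φ Ψ : ι → E → ℝ} {S : ι → E → ℝ → St}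
    {T : ι → E → E → ℝ → Tt} {n : ℕ} (hn : ¬Even n) :
    (fun p => chE e d ax Φ Ψ S (n + 1) p) =
      (fun p => hst e d (PE (Ψ p.1) ax p.2.1) (chE e d ax Φ Ψ S n p)) ∧
    (fun p => ctE e d ax Φ Ψ S T (n + 1) p) =
      (fun p => hst3 e d (PE (Ψ p.1) ax p.2.1) (GE (Ψ p.1) ax p.2.1 p.2.2.1)
        (chE e d ax Φ Ψ S n p) (ctE e d ax Φ Ψ S T n p)) := by
  constructor <;> funext p <;> simp [chE, ctE, cS, cT, hn]

/-- **Continuity of the `n`-th state at `(i₀, x)`.**  Induction on `n`: `cs_hst`, `ct_hst`,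
`pe_cont`; the inequalities at `(i₀, x)` from `cst` and `chE_i0`
(`c (1 + a) < W`, so `W > 0`). -/
theorem chE_cont [FiniteDimensional ℝ E] {e d : ℝ} {ax : E} {A B : E → ℝ} {Φ Ψ : ι → E → ℝ}
    {i₀ : ι} (F : Fml e d ax A B Φ Ψ i₀) {S : ι → E → ℝ → St} {T : ι → E → E → ℝ → Tt}
    (H : Stf d ax A S T i₀) {x : E × E × ℝ} (hx : x ∈ XX ax) (n : ℕ) :
    CS (fun p => chE e d ax Φ Ψ S n p) (i₀, x) ∧
      CT (fun p => ctE e d ax Φ Ψ S T n p) (i₀, x) := by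
  obtain ⟨c, C, K⟩ := cst F
  obtain ⟨m, hm, h⟩ := chE_i0 F H
  have hω : Un ax x.1 := hx.1
  induction n with
  | zero => exact ⟨H.cs x hx, H.ct x hx⟩
  | succ n ih =>
    obtain ⟨a, v, w, ha, hv, e1, e2⟩ := h x hx n
    have ha0 : 0 ≤ a := le_trans (by positivity) ha
    by_cases hn : Even n
    · rw [if_pos hn] at e1 e2
      obtain ⟨k1, k2⟩ := ochc_even (e := e) (d := d) (ax := ax) (Φ := Φ) (Ψ := Ψ) (S := S) (T := T) hn
      rw [k1, k2]
      obtain ⟨h0, h1, h2, h3, h4, h5⟩ := pe_cont (Φ := Φ) (ax := ax) (x := x)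
        (a := fun p => (chE e d ax Φ Ψ S n p).a) ih.1.a (F.jΦ _ (ax_ne hω _))
      have hc := K.jA x.1 hω a v ha0 hv
      have W0 : 0 < (chE e d ax Φ Ψ S n (i₀, x)).W d := by
        rw [e1]
        refine lt_trans ?_ hc.W0
        have : 0 < c * (1 + a) := mul_pos K.c0 (by linarith)
        exact this
      have W1 : (chE e d ax Φ Ψ S n (i₀, x)).W d <
          (PE (Φ i₀) ax x.1).f (chE e d ax Φ Ψ S n (i₀, x)).a := by
        rw [e1]
        exact hc.W1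
      have p0 : 0 < 1 + d * opp1 e d (PE (Φ i₀) ax x.1) (chE e d ax Φ Ψ S n (i₀, x)) := by
        rw [e1]
        exact hc.p0
      exact ⟨cs_hst F.e1 F.bd.d0 ih.1 h0 h1 h2 W0 W1 p0,
        ct_hst F.e1 F.bd.d0 ih.1 ih.2 h0 h1 h2 h3 h4 h5 W0 W1 p0⟩
    · rw [if_neg hn] at e1 e2
      obtain ⟨k1, k2⟩ := ochc_odd (e := e) (d := d) (ax := ax) (Φ := Φ) (Ψ := Ψ) (S := S) (T := T) hn
      rw [k1, k2]
      obtain ⟨h0, h1, h2, h3, h4, h5⟩ := pe_cont (Φ := Ψ) (ax := ax) (x := x)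
        (a := fun p => (chE e d ax Φ Ψ S n p).a) ih.1.a (F.jΨ _ (ax_ne hω _))
      have hc := K.jB x.1 hω a v ha0 hv
      have W0 : 0 < (chE e d ax Φ Ψ S n (i₀, x)).W d := by
        rw [e1]
        refine lt_trans ?_ hc.W0
        have : 0 < c * (1 + a) := mul_pos K.c0 (by linarith)
        exact this
      have W1 : (chE e d ax Φ Ψ S n (i₀, x)).W d <
          (PE (Ψ i₀) ax x.1).f (chE e d ax Φ Ψ S n (i₀, x)).a := by
        rw [e1]
        exact hc.W1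
      have p0 : 0 < 1 + d * opp1 e d (PE (Ψ i₀) ax x.1) (chE e d ax Φ Ψ S n (i₀, x)) := by
        rw [e1]
        exact hc.p0
      exact ⟨cs_hst F.e1 F.bd.d0 ih.1 h0 h1 h2 W0 W1 p0,
        ct_hst F.e1 F.bd.d0 ih.1 ih.2 h0 h1 h2 h3 h4 h5 W0 W1 p0⟩

/-- **Finitely many steps.**  `cd_open`, `pd_open` with `chE_cont`, `pe_cont`; `Cd` and `PD` at
`(i₀, x)` by `K`, `pd_bd` (for `‖η‖ = 1`: `Fm ax ω η`) and `chE_i0`.  If `‖η₀‖ ≠ 1` then
`‖η‖ ≠ 1` nearby, and the second claim is empty. -/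
theorem near_fin [FiniteDimensional ℝ E] {e d : ℝ} {ax : E} {A B : E → ℝ} {Φ Ψ : ι → E → ℝ}
    {i₀ : ι} (F : Fml e d ax A B Φ Ψ i₀) {S : ι → E → ℝ → St} {T : ι → E → E → ℝ → Tt}
    (H : Stf d ax A S T i₀) {c C : ℝ} (K : CC e d c C ax A B (Φ i₀) (Ψ i₀)) {x : E × E × ℝ} (hx : x ∈ XX ax)
    (n : ℕ) : ∀ᶠ p : ι × (E × E × ℝ) in 𝓝 (i₀, x),
      Cd e d c C (if Even n then PE (Φ p.1) ax p.2.1 else PE (Ψ p.1) ax p.2.1)
        (chE e d ax Φ Ψ S n p) ∧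
      (‖p.2.2.1‖ = 1 → PD (chE e d ax Φ Ψ S n p) (ctE e d ax Φ Ψ S T n p)) := by
  obtain ⟨m, hm, h⟩ := chE_i0 F H
  have hω : Un ax x.1 := hx.1
  have hct := chE_cont F H hx n
  obtain ⟨a, v, w, ha, hv, e1, e2⟩ := h x hx n
  have ha0 : 0 ≤ a := le_trans (by positivity) ha
  have hcd : ∀ᶠ p : ι × (E × E × ℝ) in 𝓝 (i₀, x),
      Cd e d c C (if Even n then PE (Φ p.1) ax p.2.1 else PE (Ψ p.1) ax p.2.1)
        (chE e d ax Φ Ψ S n p) := by
    by_cases hn : Even n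
    · simp only [if_pos hn]
      rw [if_pos hn] at e1 e2
      obtain ⟨h0, h1, h2, h3, h4, h5⟩ := pe_cont (Φ := Φ) (ax := ax) (x := x)
        (a := fun p => (chE e d ax Φ Ψ S n p).a) hct.1.a (F.jΦ _ (ax_ne hω _))
      have hc := K.jA x.1 hω a v ha0 hv
      have W0 : 0 < (chE e d ax Φ Ψ S n (i₀, x)).W d := by
        rw [e1]
        refine lt_trans ?_ hc.W0
        have : 0 < c * (1 + a) := mul_pos K.c0 (by linarith)
        exact this
      refine cd_open (P := fun p : ι × (E × E × ℝ) => PE (Φ p.1) ax p.2.1) F.e1 F.bd.d0 K.c0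
        hct.1 h0 h1 h2 W0 ?_
      show Cd e d c C (PE (Φ i₀) ax x.1) (chE e d ax Φ Ψ S n (i₀, x))
      rw [e1]
      exact hc
    · simp only [if_neg hn]
      rw [if_neg hn] at e1 e2
      obtain ⟨h0, h1, h2, h3, h4, h5⟩ := pe_cont (Φ := Ψ) (ax := ax) (x := x)
        (a := fun p => (chE e d ax Φ Ψ S n p).a) hct.1.a (F.jΨ _ (ax_ne hω _))
      have hc := K.jB x.1 hω a v ha0 hv
      have W0 : 0 < (chE e d ax Φ Ψ S n (i₀, x)).W d := by
        rw [e1]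
        refine lt_trans ?_ hc.W0
        have : 0 < c * (1 + a) := mul_pos K.c0 (by linarith)
        exact this
      refine cd_open (P := fun p : ι × (E × E × ℝ) => PE (Ψ p.1) ax p.2.1) F.e1 F.bd.d0 K.c0
        hct.1 h0 h1 h2 W0 ?_
      show Cd e d c C (PE (Ψ i₀) ax x.1) (chE e d ax Φ Ψ S n (i₀, x))
      rw [e1]
      exact hc
  refine hcd.and ?_
  by_cases hη : ‖x.2.1‖ = 1
  · have hF : Fm ax x.1 x.2.1 := ⟨F.bd.a1, hω, ⟨hη, hx.2.1⟩, hx.2.2.1⟩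
    have hpd : PD (chE e d ax Φ Ψ S n (i₀, x)) (ctE e d ax Φ Ψ S T n (i₀, x)) := by
      rw [e1, e2]
      by_cases hn : Even n
      · rw [if_pos hn]
        exact pd_bd F.bd hF a v w
      · rw [if_neg hn]
        exact pd_bd F.bd.swap hF a v w
    filter_upwards [pd_open hct.1 hct.2 hpd] with p hp _
    exact hp
  · have hcn : ContinuousAt (fun p : ι × (E × E × ℝ) => ‖p.2.2.1‖) (i₀, x) := by
      have : Continuous (fun p : ι × (E × E × ℝ) => ‖p.2.2.1‖) := by fun_prop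
      exact this.continuousAt
    filter_upwards [hcn.eventually_ne hη] with p hp hp'
    exact absurd hp' hp

end CJ
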