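import Pool.Agent.H.MP_1693ff_gtE.OCstA
import Pool.Agent.H.MP_1693ff_gtE.OBdSt

/-!
# The chains of a family at `i₀`
-/

namespace CJ

open Real Set Filter Topology CG CH
open CF hiding St

variable {ι : Type} [TopologicalSpace ι]
variable {E : Type} [NormedAddCommGroup E] [InnerProductSpace ℝ E]

theorem oche_norm {ax ω : E} (hω : Un ax ω) (a : ℝ) : 1 ≤ ‖-(a • ax + ω)‖ := by
  rw [norm_neg]
  have h1 : inner ℝ (a • ax + ω) ω = (1 : ℝ) := by
    rw [inner_add_left, inner_smul_left, hω.o1, real_inner_self_eq_norm_sq, hω.n1]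
    simp
  have h2 := real_inner_le_norm (a • ax + ω) ω
  rw [h1, hω.n1, mul_one] at h2
  exact h2

/-- one step of the chain at `i₀` -/
theorem oche_step {e d m : ℝ} {ax : E} {A B Φ : E → ℝ} (D : Bd d ax A B) (he : 1 ≤ e)
    (hΦ : Hg Φ) (ho : ∀ v, v ≠ 0 → Φ v ^ e = A v ^ e + A (-v) ^ e)
    (hm : ∀ v, v ≠ 0 → m * ‖v‖ ≤ A v) (m0 : 0 < m) {ω : E} (hω : Un ax ω) (η : E)
    {n : ℕ} {a v w : ℝ} (ha : d * m * n ≤ a) (hv : 0 < v) :
    ∃ a' v' w' : ℝ, d * m * ((n + 1 : ℕ) : ℝ) ≤ a' ∧ 0 < v' ∧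
      hst e d (PE Φ ax ω) (JE d A ax ω a v) = JE d B ax ω a' v' ∧
      hst3 e d (PE Φ ax ω) (GE Φ ax ω η) (JE d A ax ω a v) (JT d A ax ω η a w) =
        JT d B ax ω η a' w' := by
  obtain ⟨w', hw'⟩ := hst3_bd D he hΦ ho hω η a v w
  have hne := ax_ne hω a
  refine ⟨a + d * A (-(a • ax + ω)), (1 - d * D1 A (-(a • ax + ω)) ax) * v, w', ?_, ?_,
    hst_bd D he hΦ ho hω a v, hw'⟩
  · have h1 := hm _ (neg_ne_zero.2 hne)
    have h2 := oche_norm hω a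
    have h3 : m ≤ A (-(a • ax + ω)) := by nlinarith
    have h4 : d * m ≤ d * A (-(a • ax + ω)) := mul_le_mul_of_nonneg_left h3 D.d0.le
    push_cast
    linarith
  · exact mul_pos (D.sA _ (neg_ne_zero.2 hne)) hv

/-- **The chain at `i₀`.**  Induction on `n` with `hst_bd`, `hst3_bd` (for `D` and `D.swap`
according to the parity); `a_{n+1} = a_n + d A (-v) ≥ a_n + d m` (`hg_bds`: `A (-v) ≥ m ‖v‖`,
`‖v‖ ≥ 1`), `v_{n+1} = (1 - d D1 A (-v) ax) v_n > 0`. -/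
theorem chE_i0 [FiniteDimensional ℝ E] {e d : ℝ} {ax : E} {A B : E → ℝ} {Φ Ψ : ι → E → ℝ}
    {i₀ : ι} (F : Fml e d ax A B Φ Ψ i₀) {S : ι → E → ℝ → St} {T : ι → E → E → ℝ → Tt}
    (H : Stf d ax A S T i₀) : ∃ m > 0, ∀ x ∈ XX ax, ∀ n : ℕ, ∃ a v w : ℝ, m * n ≤ a ∧ 0 < v ∧
      chE e d ax Φ Ψ S n (i₀, x) = JE d (if Even n then A else B) ax x.1 a v ∧
      ctE e d ax Φ Ψ S T n (i₀, x) = JT d (if Even n then A else B) ax x.1 x.2.1 a w := by
  obtain ⟨mA, MA, hmA, -, hA⟩ := hg_bds F.bd.hA F.bd.sA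
  obtain ⟨mB, MB, hmB, -, hB⟩ := hg_bds F.bd.hB F.bd.sB
  have m0 : 0 < min mA mB := lt_min hmA hmB
  refine ⟨d * min mA mB, mul_pos F.bd.d0 m0, fun x hx n => ?_⟩
  have hω : Un ax x.1 := hx.1
  have h1 : ∀ v : E, v ≠ 0 → min mA mB * ‖v‖ ≤ A v := fun v hv =>
    (mul_le_mul_of_nonneg_right (min_le_left _ _) (norm_nonneg v)).trans (hA v hv).1
  have h2 : ∀ v : E, v ≠ 0 → min mA mB * ‖v‖ ≤ B v := fun v hv =>
    (mul_le_mul_of_nonneg_right (min_le_right _ _) (norm_nonneg v)).trans (hB v hv).1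
  induction n with
  | zero =>
    obtain ⟨a, v, w, ha, hv, hS, hT⟩ := H.lim x.1 x.2.1 x.2.2 hx
    refine ⟨a, v, w, by simpa using ha, hv, ?_, ?_⟩
    · simpa [chE, cS] using hS
    · simpa [ctE, cT] using hT
  | succ n ih =>
    obtain ⟨a, v, w, ha, hv, hS, hT⟩ := ih
    rcases Nat.even_or_odd n with hn | hn
    · have hn' : ¬ Even (n + 1) := by
        rw [Nat.even_add_one, not_not]; exact hn
      rw [if_pos hn] at hS hT
      obtain ⟨a', v', w', k1, k2, k3, k4⟩ := oche_step F.bd F.e1 (F.hΦ i₀) F.oΦ h1 m0 hω x.2.1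
        (w := w) ha hv
      refine ⟨a', v', w', k1, k2, ?_, ?_⟩
      · rw [if_neg hn', ← k3, ← hS]
        simp only [chE, cS, if_pos hn]
      · rw [if_neg hn', ← k4, ← hS, ← hT]
        simp only [ctE, chE, cT, if_pos hn]
    · have hn0 : ¬ Even n := Nat.not_even_iff_odd.2 hn
      have hn' : Even (n + 1) := by
        rw [Nat.even_add_one]; exact hn0
      rw [if_neg hn0] at hS hT
      obtain ⟨a', v', w', k1, k2, k3, k4⟩ := oche_step F.bd.swap F.e1 (F.hΨ i₀) F.oΨ h2 m0 hω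
        x.2.1 (w := w) ha hv
      refine ⟨a', v', w', k1, k2, ?_, ?_⟩
      · rw [if_pos hn', ← k3, ← hS]
        simp only [chE, cS, if_neg hn0]
      · rw [if_pos hn', ← k4, ← hS, ← hT]
        simp only [ctE, chE, cT, if_neg hn0]

end CJ
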