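import Pool.Agent.H.MP_1693ff_gtE.OE

/-!
# Continuity of the half step
-/

namespace CJ

open Real Set Filter Topology CG CH
open CF hiding St

variable {X : Type*} [TopologicalSpace X]

theorem ocont_W {d : ℝ} {S : X → St} {x : X} (hS : CS S x) :
    ContinuousAt (fun y => (S y).W d) x := by
  unfold St.W
  exact (hS.a.sub hS.α).div_const d

theorem ocont_p {d : ℝ} {S : X → St} {x : X} (hS : CS S x) :
    ContinuousAt (fun y => (S y).p d) x := by
  unfold St.p
  exact (continuousAt_const.sub hS.s).div_const d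

theorem ocont_r {d : ℝ} {S : X → St} {x : X} (hS : CS S x) :
    ContinuousAt (fun y => (S y).r d) x := by
  unfold St.r
  exact hS.k.div_const d

theorem ocont_base {e d : ℝ} (he : 1 ≤ e) {P : Pf} {S : St} (W0 : 0 < S.W d)
    (W1 : S.W d < P.f S.a) : 0 < P.f S.a ^ e - S.W d ^ e := by
  have h := Real.rpow_lt_rpow W0.le W1 (by linarith : (0 : ℝ) < e)
  linarith

theorem ocont_opp_pos {e d : ℝ} (he : 1 ≤ e) {P : Pf} {S : St} (W0 : 0 < S.W d)
    (W1 : S.W d < P.f S.a) : 0 < opp e d P S := by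
  unfold opp
  exact Real.rpow_pos_of_pos (ocont_base he W0 W1) _

theorem ocont_opp {e d : ℝ} (he : 1 ≤ e) {P : X → Pf} {S : X → St} {x : X}
    (hS : CS S x) (h0 : ContinuousAt (fun y => (P y).f (S y).a) x) (W0 : 0 < (S x).W d)
    (W1 : (S x).W d < (P x).f (S x).a) :
    ContinuousAt (fun y => opp e d (P y) (S y)) x := by
  have f0 : (P x).f (S x).a ≠ 0 := (W0.trans W1).ne'
  have b0 := ocont_base he W0 W1
  unfold opp
  exact ((h0.rpow_const (Or.inl f0)).sub ((ocont_W hS).rpow_const (Or.inl W0.ne'))).rpow_const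
    (Or.inl b0.ne')

theorem ocont_A {e d : ℝ} (he : 1 ≤ e) {P : X → Pf} {S : X → St} {x : X}
    (hS : CS S x) (h0 : ContinuousAt (fun y => (P y).f (S y).a) x) (W0 : 0 < (S x).W d)
    (W1 : (S x).W d < (P x).f (S x).a) :
    ContinuousAt (fun y => ((P y).f (S y).a / opp e d (P y) (S y)) ^ (e - 1)) x := by
  have f0 : 0 < (P x).f (S x).a := W0.trans W1
  have o0 := ocont_opp_pos he W0 W1
  exact (h0.div (ocont_opp he hS h0 W0 W1) o0.ne').rpow_const (Or.inl (div_pos f0 o0).ne')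

theorem ocont_B {e d : ℝ} (he : 1 ≤ e) {P : X → Pf} {S : X → St} {x : X}
    (hS : CS S x) (h0 : ContinuousAt (fun y => (P y).f (S y).a) x) (W0 : 0 < (S x).W d)
    (W1 : (S x).W d < (P x).f (S x).a) :
    ContinuousAt (fun y => ((S y).W d / opp e d (P y) (S y)) ^ (e - 1)) x := by
  have o0 := ocont_opp_pos he W0 W1
  exact ((ocont_W hS).div (ocont_opp he hS h0 W0 W1) o0.ne').rpow_const
    (Or.inl (div_pos W0 o0).ne')

theorem ocont_cc {e d : ℝ} (he : 1 ≤ e) {P : X → Pf} {S : X → St} {x : X}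
    (hS : CS S x) (h0 : ContinuousAt (fun y => (P y).f (S y).a) x) (W0 : 0 < (S x).W d)
    (W1 : (S x).W d < (P x).f (S x).a) :
    ContinuousAt (fun y => cc e d (P y) (S y)) x := by
  have f0 : 0 < (P x).f (S x).a := W0.trans W1
  have o0 := ocont_opp_pos he W0 W1
  unfold cc
  exact ((continuousAt_const.mul ((ocont_W hS).rpow_const (Or.inl W0.ne'))).mul
    (h0.rpow_const (Or.inl f0.ne'))).mul ((ocont_opp he hS h0 W0 W1).rpow_const (Or.inl o0.ne'))

theorem ocont_dl {d : ℝ} {P : X → Pf} {S : X → St} {x : X}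
    (hS : CS S x) (h0 : ContinuousAt (fun y => (P y).f (S y).a) x)
    (h1 : ContinuousAt (fun y => (P y).f1 (S y).a) x) :
    ContinuousAt (fun y => dl d (P y) (S y)) x := by
  unfold dl
  exact (h0.mul (ocont_p hS)).sub ((ocont_W hS).mul h1)

theorem ocont_dr {d : ℝ} {P : X → Pf} {G : X → Pt} {S : X → St} {T : X → Tt} {x : X}
    (hS : CS S x) (hT : CT T x) (h0 : ContinuousAt (fun y => (P y).f (S y).a) x)
    (h3 : ContinuousAt (fun y => (G y).fr (S y).a) x) :
    ContinuousAt (fun y => dr d (P y) (G y) (S y) (T y)) x := by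
  unfold dr
  exact (h0.mul (hT.κ.div_const d)).add ((ocont_W hS).mul h3)

theorem ocont_og {e d : ℝ} (he : 1 ≤ e) {P : X → Pf} {G : X → Pt} {S : X → St}
    {T : X → Tt} {x : X} (hS : CS S x) (hT : CT T x)
    (h0 : ContinuousAt (fun y => (P y).f (S y).a) x)
    (h3 : ContinuousAt (fun y => (G y).fr (S y).a) x) (W0 : 0 < (S x).W d)
    (W1 : (S x).W d < (P x).f (S x).a) :
    ContinuousAt (fun y => og e d (P y) (G y) (S y) (T y)) x := by
  unfold og
  exact (continuousAt_const.mul ((ocont_A he hS h0 W0 W1).mul h3)).add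
    ((ocont_B he hS h0 W0 W1).mul hT.κ)

theorem ocont_mz {e d : ℝ} (he : 1 ≤ e) {P : X → Pf} {G : X → Pt} {S : X → St}
    {T : X → Tt} {x : X} (hS : CS S x) (hT : CT T x)
    (h0 : ContinuousAt (fun y => (P y).f (S y).a) x)
    (h1 : ContinuousAt (fun y => (P y).f1 (S y).a) x)
    (h3 : ContinuousAt (fun y => (G y).fr (S y).a) x)
    (h4 : ContinuousAt (fun y => (G y).far (S y).a) x) (W0 : 0 < (S x).W d)
    (W1 : (S x).W d < (P x).f (S x).a) :
    ContinuousAt (fun y => mz e d (P y) (G y) (S y) (T y)) x := by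
  unfold mz
  exact (((ocont_A he hS h0 W0 W1).mul h4).sub
    ((ocont_B he hS h0 W0 W1).mul (hT.ℓ.div_const d))).add
    ((ocont_cc he hS h0 W0 W1).mul ((ocont_dl hS h0 h1).mul (ocont_dr hS hT h0 h3)))

theorem ocont_mr {e d : ℝ} (he : 1 ≤ e) {P : X → Pf} {G : X → Pt} {S : X → St}
    {T : X → Tt} {x : X} (hS : CS S x) (hT : CT T x)
    (h0 : ContinuousAt (fun y => (P y).f (S y).a) x)
    (h3 : ContinuousAt (fun y => (G y).fr (S y).a) x)
    (h5 : ContinuousAt (fun y => (G y).ft (S y).a) x) (W0 : 0 < (S x).W d)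
    (W1 : (S x).W d < (P x).f (S x).a) :
    ContinuousAt (fun y => mr e d (P y) (G y) (S y) (T y)) x := by
  unfold mr
  exact (((ocont_A he hS h0 W0 W1).mul h5).sub
    ((ocont_B he hS h0 W0 W1).mul (hT.q.div_const d))).sub
    ((ocont_cc he hS h0 W0 W1).mul ((ocont_dr hS hT h0 h3).pow 2))

/-- Real powers of positive numbers, quotients. -/
theorem ct_opp {e d : ℝ} (he : 1 ≤ e) (hd : 0 < d) {P : X → Pf} {S : X → St} {x : X}
    (hS : CS S x) (h0 : ContinuousAt (fun y => (P y).f (S y).a) x)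
    (h1 : ContinuousAt (fun y => (P y).f1 (S y).a) x)
    (h2 : ContinuousAt (fun y => (P y).f2 (S y).a) x) (W0 : 0 < (S x).W d)
    (W1 : (S x).W d < (P x).f (S x).a) :
    ContinuousAt (fun y => opp e d (P y) (S y)) x ∧
    ContinuousAt (fun y => opp1 e d (P y) (S y)) x ∧
    ContinuousAt (fun y => opp2 e d (P y) (S y)) x := by
  have ho := ocont_opp he hS h0 W0 W1
  have hA := ocont_A he hS h0 W0 W1
  have hB := ocont_B he hS h0 W0 W1
  have o0 := ocont_opp_pos he W0 W1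
  have f0 : 0 < (P x).f (S x).a := W0.trans W1
  refine ⟨ho, ?_, ?_⟩
  · unfold opp1
    exact (hA.mul h1).sub (hB.mul (ocont_p hS))
  · unfold opp2
    exact ((hA.mul h2).sub (hB.mul (ocont_r hS))).sub
      (((((continuousAt_const.mul ((ocont_W hS).rpow_const (Or.inl W0.ne'))).mul
        (h0.rpow_const (Or.inl f0.ne'))).mul (ho.rpow_const (Or.inl o0.ne')))).mul
        (((h0.mul (ocont_p hS)).sub ((ocont_W hS).mul h1)).pow 2))

theorem cs_hst {e d : ℝ} (he : 1 ≤ e) (hd : 0 < d) {P : X → Pf} {S : X → St} {x : X}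
    (hS : CS S x) (h0 : ContinuousAt (fun y => (P y).f (S y).a) x)
    (h1 : ContinuousAt (fun y => (P y).f1 (S y).a) x)
    (h2 : ContinuousAt (fun y => (P y).f2 (S y).a) x) (W0 : 0 < (S x).W d)
    (W1 : (S x).W d < (P x).f (S x).a) (p0 : 0 < 1 + d * opp1 e d (P x) (S x)) :
    CS (fun y => hst e d (P y) (S y)) x := by
  obtain ⟨ho, ho1, ho2⟩ := ct_opp he hd hS h0 h1 h2 W0 W1
  have hp : ContinuousAt (fun y => 1 + d * opp1 e d (P y) (S y)) x :=
    continuousAt_const.add (continuousAt_const.mul ho1)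
  have hi : ContinuousAt (fun y => (1 + d * opp1 e d (P y) (S y))⁻¹) x := hp.inv₀ p0.ne'
  exact ⟨hS.a, hS.a.add (continuousAt_const.mul ho), hi,
    (continuousAt_const.mul ho2).mul (hi.pow 3), hS.v.mul hp⟩

theorem ct_hst {e d : ℝ} (he : 1 ≤ e) (hd : 0 < d) {P : X → Pf} {G : X → Pt} {S : X → St}
    {T : X → Tt} {x : X}
    (hS : CS S x) (hT : CT T x) (h0 : ContinuousAt (fun y => (P y).f (S y).a) x)
    (h1 : ContinuousAt (fun y => (P y).f1 (S y).a) x)
    (h2 : ContinuousAt (fun y => (P y).f2 (S y).a) x)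
    (h3 : ContinuousAt (fun y => (G y).fr (S y).a) x)
    (h4 : ContinuousAt (fun y => (G y).far (S y).a) x)
    (h5 : ContinuousAt (fun y => (G y).ft (S y).a) x) (W0 : 0 < (S x).W d)
    (W1 : (S x).W d < (P x).f (S x).a) (p0 : 0 < 1 + d * opp1 e d (P x) (S x)) :
    CT (fun y => hst3 e d (P y) (G y) (S y) (T y)) x := by
  obtain ⟨ho, ho1, ho2⟩ := ct_opp he hd hS h0 h1 h2 W0 W1
  have hp : ContinuousAt (fun y => 1 + d * opp1 e d (P y) (S y)) x :=
    continuousAt_const.add (continuousAt_const.mul ho1)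
  have hi : ContinuousAt (fun y => (1 + d * opp1 e d (P y) (S y))⁻¹) x := hp.inv₀ p0.ne'
  have hg := ocont_og he hS hT h0 h3 W0 W1
  have hz := ocont_mz he hS hT h0 h1 h3 h4 W0 W1
  have hr := ocont_mr he hS hT h0 h3 h5 W0 W1
  exact ⟨(hi.mul hg).neg,
    (hi.mul continuousAt_const).mul ((hi.mul hz).sub ((ho2.mul (hi.pow 2)).mul hg)),
    (hi.mul continuousAt_const).mul ((((ho2.mul (hi.pow 2)).mul (hg.pow 2)).sub
      (((continuousAt_const.mul hz).mul hi).mul hg)).add hr),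
    (hp.mul hT.w).add hg⟩

end CJ
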