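import Pool.Agent.H.MP_1693ff_gtE.OHom

/-!
# Bounds of a gauge function
-/

namespace CJ

open Real Set Filter Topology CG CH
open CF hiding St

variable {E : Type} [NormedAddCommGroup E] [InnerProductSpace ℝ E]

/-- Bounds on the unit sphere (compact): `A ≥ m > 0`, `1 - d D1 A v ax ∈ [m, M]`,
`‖fderiv A v‖ ≤ M`; by homogeneity (`ho_d1`) for all `v ≠ 0`, with `A v ≥ m ‖v‖`. -/
theorem hg_bds [FiniteDimensional ℝ E] {d : ℝ} {ax : E} {A : E → ℝ} (hA : Hg A)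
    (s : ∀ v, v ≠ 0 → 0 < 1 - d * D1 A v ax) : ∃ m M : ℝ, 0 < m ∧ 0 < M ∧ ∀ v, v ≠ 0 →
      m * ‖v‖ ≤ A v ∧ m ≤ 1 - d * D1 A v ax ∧ 1 - d * D1 A v ax ≤ M ∧
      ∀ x : E, |D1 A v x| ≤ M * ‖x‖ := by
  have hK : IsCompact (Metric.sphere (0 : E) 1) := isCompact_sphere 0 1
  have hne : ∀ u ∈ Metric.sphere (0 : E) 1, u ≠ 0 := by
    intro u hu h0
    rw [mem_sphere_zero_iff_norm, h0, norm_zero] at hu
    norm_num at hu
  have cA : ContinuousOn A (Metric.sphere (0 : E) 1) := fun u hu =>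
    (hA.c u (hne u hu)).continuousAt.continuousWithinAt
  have cF : ContinuousOn (fderiv ℝ A) (Metric.sphere (0 : E) 1) := fun u hu => by
    have h1 : ContDiffAt ℝ 2 (fderiv ℝ A) u := (hA.c u (hne u hu)).fderiv_right (by norm_num)
    exact h1.continuousAt.continuousWithinAt
  have cS : ContinuousOn (fun u => 1 - d * D1 A u ax) (Metric.sphere (0 : E) 1) := by
    have h1 : ContinuousOn (fun u => fderiv ℝ A u ax) (Metric.sphere (0 : E) 1) :=
      cF.clm_apply continuousOn_const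
    exact continuousOn_const.sub (continuousOn_const.mul h1)
  obtain ⟨m1, hm1, h1⟩ := hK.exists_forall_le' cA (fun u hu => hA.p u (hne u hu))
  obtain ⟨m2, hm2, h2⟩ := hK.exists_forall_le' cS (fun u hu => s u (hne u hu))
  obtain ⟨M1, h3⟩ := hK.exists_bound_of_continuousOn cS
  obtain ⟨M2, h4⟩ := hK.exists_bound_of_continuousOn cF
  refine ⟨min m1 m2, max 1 (max M1 M2), lt_min hm1 hm2, lt_max_of_lt_left one_pos, ?_⟩
  intro v hv
  have hc : 0 < ‖v‖ := norm_pos_iff.2 hv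
  have hu : ‖v‖⁻¹ • v ∈ Metric.sphere (0 : E) 1 := by
    rw [mem_sphere_zero_iff_norm, norm_smul, norm_inv, norm_norm, inv_mul_cancel₀ hc.ne']
  have hvu : ‖v‖ • (‖v‖⁻¹ • v) = v := by
    rw [smul_smul, mul_inv_cancel₀ hc.ne', one_smul]
  have hD : ∀ x, D1 A v x = D1 A (‖v‖⁻¹ • v) x := by
    intro x
    have h5 := ho_d1 hA.h hc ((hA.c _ (hne _ hu)).differentiableAt (by norm_num)) x
    rwa [hvu] at h5
  refine ⟨?_, ?_, ?_, ?_⟩
  · have h5 := hA.h _ hc (‖v‖⁻¹ • v)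
    rw [hvu] at h5
    rw [h5, mul_comm]
    exact mul_le_mul_of_nonneg_left ((min_le_left _ _).trans (h1 _ hu)) hc.le
  · rw [hD]
    exact (min_le_right _ _).trans (h2 _ hu)
  · rw [hD]
    have h5 := (le_abs_self _).trans (h3 _ hu)
    exact h5.trans ((le_max_left _ _).trans (le_max_right _ _))
  · intro x
    rw [hD]
    have h5 : |D1 A (‖v‖⁻¹ • v) x| ≤ ‖fderiv ℝ A (‖v‖⁻¹ • v)‖ * ‖x‖ := by
      have := (fderiv ℝ A (‖v‖⁻¹ • v)).le_opNorm x
      rwa [Real.norm_eq_abs] at this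
    refine h5.trans (mul_le_mul_of_nonneg_right ?_ (norm_nonneg _))
    exact (h4 _ hu).trans ((le_max_right _ _).trans (le_max_right _ _))

end CJ
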