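import Pool.Agent.H.MP_1693ff_gtE.OE

/-!
# The normalised half step: limits of the ingredients
-/

namespace CJ

open Real Set Filter Topology CG CH
open CF hiding St

variable {X : Type*} {l : Filter X} {e d : ℝ} {G : X → Np} {M : X → Nv} {F : Np} {N : Nv}

theorem ost0_sub (he : 1 ≤ e) (w0 : 0 < N.w) (w1 : N.w < F.w) : 0 < F.w ^ e - N.w ^ e :=
  sub_pos.2 (Real.rpow_lt_rpow w0.le w1 (lt_of_lt_of_le zero_lt_one he))

/-- `0 < F.w^e - N.w^e`. -/
theorem no_pos (he : 1 ≤ e) (w0 : 0 < N.w) (w1 : N.w < F.w) : 0 < no e F N := by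
  unfold no
  exact Real.rpow_pos_of_pos (ost0_sub he w0 w1) _

theorem nm_pos (he : 1 ≤ e) (hd : 0 < d) (w0 : 0 < N.w) (w1 : N.w < F.w) : 1 < nm e d F N := by
  unfold nm
  have := mul_pos hd (no_pos he w0 w1)
  linarith

/-- `no^e = F.w^e - N.w^e`. -/
theorem no_pow (he : 1 ≤ e) (w0 : 0 < N.w) (w1 : N.w < F.w) :
    no e F N ^ e = F.w ^ e - N.w ^ e := by
  unfold no
  exact Real.rpow_inv_rpow (ost0_sub he w0 w1).le (by linarith)

/-- Continuity of real powers at positive numbers. -/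
theorem lim_no (he : 1 ≤ e) (w0 : 0 < N.w) (w1 : N.w < F.w)
    (hw : Tendsto (fun x => (M x).w) l (𝓝 N.w)) (hFw : Tendsto (fun x => (G x).w) l (𝓝 F.w)) :
    Tendsto (fun x => no e (G x) (M x)) l (𝓝 (no e F N)) := by
  unfold no
  have h1 := hFw.rpow_const (p := e) (Or.inl (w0.trans w1).ne')
  have h2 := hw.rpow_const (p := e) (Or.inl w0.ne')
  exact (h1.sub h2).rpow_const (Or.inl (ost0_sub he w0 w1).ne')

theorem lim_nm (he : 1 ≤ e) (w0 : 0 < N.w) (w1 : N.w < F.w)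
    (hw : Tendsto (fun x => (M x).w) l (𝓝 N.w)) (hFw : Tendsto (fun x => (G x).w) l (𝓝 F.w)) :
    Tendsto (fun x => nm e d (G x) (M x)) l (𝓝 (nm e d F N)) := by
  unfold nm
  exact tendsto_const_nhds.add ((lim_no he w0 w1 hw hFw).const_mul d)

theorem lim_A (he : 1 ≤ e) (w0 : 0 < N.w) (w1 : N.w < F.w)
    (hw : Tendsto (fun x => (M x).w) l (𝓝 N.w)) (hFw : Tendsto (fun x => (G x).w) l (𝓝 F.w)) :
    Tendsto (fun x => ((G x).w / no e (G x) (M x)) ^ (e - 1)) l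
      (𝓝 ((F.w / no e F N) ^ (e - 1))) :=
  (hFw.div (lim_no he w0 w1 hw hFw) (no_pos he w0 w1).ne').rpow_const
    (Or.inl (div_pos (w0.trans w1) (no_pos he w0 w1)).ne')

theorem lim_B (he : 1 ≤ e) (w0 : 0 < N.w) (w1 : N.w < F.w)
    (hw : Tendsto (fun x => (M x).w) l (𝓝 N.w)) (hFw : Tendsto (fun x => (G x).w) l (𝓝 F.w)) :
    Tendsto (fun x => ((M x).w / no e (G x) (M x)) ^ (e - 1)) l
      (𝓝 ((N.w / no e F N) ^ (e - 1))) :=
  (hw.div (lim_no he w0 w1 hw hFw) (no_pos he w0 w1).ne').rpow_const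
    (Or.inl (div_pos w0 (no_pos he w0 w1)).ne')

theorem lim_nc (he : 1 ≤ e) (w0 : 0 < N.w) (w1 : N.w < F.w)
    (hw : Tendsto (fun x => (M x).w) l (𝓝 N.w)) (hFw : Tendsto (fun x => (G x).w) l (𝓝 F.w)) :
    Tendsto (fun x => nc e (G x) (M x)) l (𝓝 (nc e F N)) := by
  unfold nc
  have h1 := hw.rpow_const (p := e - 2) (Or.inl w0.ne')
  have h2 := hFw.rpow_const (p := e - 2) (Or.inl (w0.trans w1).ne')
  have h3 := (lim_no he w0 w1 hw hFw).rpow_const (p := 1 - 2 * e) (Or.inl (no_pos he w0 w1).ne')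
  exact ((h1.const_mul (e - 1)).mul h2).mul h3

/-- `nz → 0`. -/
theorem lim_nz (he : 1 ≤ e) (hd : 0 < d) (w0 : 0 < N.w) (w1 : N.w < F.w)
    (hz : Tendsto (fun x => (M x).z) l (𝓝 0))
    (hw : Tendsto (fun x => (M x).w) l (𝓝 N.w)) (hFw : Tendsto (fun x => (G x).w) l (𝓝 F.w)) :
    Tendsto (fun x => nz e d (G x) (M x)) l (𝓝 0) := by
  unfold nz
  have h1 := hz.div (lim_nm (d := d) he w0 w1 hw hFw)
    (zero_lt_one.trans (nm_pos he hd w0 w1)).ne'
  rwa [zero_div] at h1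

/-- `τ → 1`: `nz → 0` and `ngo` is bounded (`|g| ≤ C` eventually; a bounded function times a
function which tends to `0`). -/
theorem lim_nt (he : 1 ≤ e) (hd : 0 < d) (w0 : 0 < N.w) (w1 : N.w < F.w)
    (hz : Tendsto (fun x => (M x).z) l (𝓝 0))
    (hw : Tendsto (fun x => (M x).w) l (𝓝 N.w)) (hFw : Tendsto (fun x => (G x).w) l (𝓝 F.w))
    (hFg : Tendsto (fun x => (G x).g) l (𝓝 F.g)) {C : ℝ} (hg : ∀ᶠ x in l, |(M x).g| ≤ C) :
    Tendsto (fun x => nt e d (G x) (M x)) l (𝓝 1) := by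
  have hZ := lim_nz he hd w0 w1 hz hw hFw
  have hA := lim_A he w0 w1 hw hFw
  have hB := lim_B he w0 w1 hw hFw
  have h1 : Tendsto (fun x => nz e d (G x) (M x) *
      (((G x).w / no e (G x) (M x)) ^ (e - 1) * (G x).g)) l (𝓝 0) := by
    have := hZ.mul (hA.mul hFg)
    rwa [zero_mul] at this
  have h2 : Tendsto (fun x => nz e d (G x) (M x) *
      ((M x).w / no e (G x) (M x)) ^ (e - 1)) l (𝓝 0) := by
    have := hZ.mul hB
    rwa [zero_mul] at this
  have h3 : Tendsto (fun x => (M x).g * (nz e d (G x) (M x) *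
      ((M x).w / no e (G x) (M x)) ^ (e - 1))) l (𝓝 0) := bdd_le_mul_tendsto_zero' C hg h2
  have h4 : Tendsto (fun x => 1 - d * nz e d (G x) (M x) * ngo e (G x) (M x)) l (𝓝 1) := by
    have h5 := ((h1.sub h3).const_mul d).const_sub 1
    rw [sub_zero, mul_zero, sub_zero] at h5
    refine h5.congr fun x => ?_
    unfold ngo
    ring
  have h6 := h4.inv₀ one_ne_zero
  rw [inv_one] at h6
  exact h6

/-- `β → 0`: `nz → 0`, `τ → 1` and `nbo` converges. -/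
theorem lim_nbe (he : 1 ≤ e) (hd : 0 < d) (w0 : 0 < N.w) (w1 : N.w < F.w)
    (hz : Tendsto (fun x => (M x).z) l (𝓝 0))
    (hw : Tendsto (fun x => (M x).w) l (𝓝 N.w)) (hFw : Tendsto (fun x => (G x).w) l (𝓝 F.w))
    (hFg : Tendsto (fun x => (G x).g) l (𝓝 F.g)) (hFb : Tendsto (fun x => (G x).b) l (𝓝 F.b))
    (hg : Tendsto (fun x => (M x).g) l (𝓝 N.g)) (hb : Tendsto (fun x => (M x).b) l (𝓝 N.b)) :
    Tendsto (fun x => nbe e d (G x) (M x)) l (𝓝 0) := by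
  have hC : ∀ᶠ x in l, |(M x).g| ≤ |N.g| + 1 := hg.abs.eventually_le_const (lt_add_one _)
  have hT := lim_nt he hd w0 w1 hz hw hFw hFg hC
  have hZ := lim_nz he hd w0 w1 hz hw hFw
  have hA := lim_A he w0 w1 hw hFw
  have hB := lim_B he w0 w1 hw hFw
  have hO : Tendsto (fun x => nbo e (G x) (M x)) l (𝓝 (nbo e F N)) := by
    unfold nbo
    exact (hA.mul hFb).add (hB.mul hb)
  have h := ((hT.mul hZ).mul_const d).mul hO
  rw [mul_zero, zero_mul, zero_mul] at h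
  exact h

/-- On the limit cycle (`z = 0`): `τ = 1`, `β = 0`. -/
theorem nt_zero (z0 : N.z = 0) : nt e d F N = 1 ∧ nbe e d F N = 0 := by
  have h : nz e d F N = 0 := by
    unfold nz
    rw [z0, zero_div]
  constructor
  · unfold nt
    rw [h]; simp
  · unfold nbe
    rw [h]; simp

end CJ
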