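import Pool.Agent.H.MP_1693ff_gtE.OCycA
import Pool.Agent.H.MP_1693ff_gtE.OSt0

/-!
# The limit cycle of a smooth body
-/

namespace CJ

open Real Set Filter Topology CG CH
open CF hiding St

theorem ocyc_unique {X : Type*} {l : Filter X} [l.NeBot] {f : X → Nv} {c c' : Nv}
    (h : TN l f c) (h' : TN l f c') : c = c' := by
  have h1 := tendsto_nhds_unique h.z h'.z
  have h2 := tendsto_nhds_unique h.w h'.w
  have h3 := tendsto_nhds_unique h.g h'.g
  have h4 := tendsto_nhds_unique h.b h'.b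
  have h5 := tendsto_nhds_unique h.K h'.K
  have h6 := tendsto_nhds_unique h.L h'.L
  have h7 := tendsto_nhds_unique h.Q h'.Q
  cases c
  cases c'
  simp only [Nv.mk.injEq]
  exact ⟨h1, h2, h3, h4, h5, h6, h7⟩

theorem ocyc_comp {X Y : Type*} {l : Filter X} {l' : Filter Y} {f : X → Nv} {c : Nv}
    (h : TN l f c) {g : Y → X} (hg : Tendsto g l' l) : TN l' (fun y => f (g y)) c :=
  ⟨h.z.comp hg, h.w.comp hg, h.g.comp hg, h.b.comp hg, h.K.comp hg, h.L.comp hg, h.Q.comp hg⟩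

theorem ocyc_compP {X Y : Type*} {l : Filter X} {l' : Filter Y} {f : X → Np} {c : Np}
    (h : TP l f c) {g : Y → X} (hg : Tendsto g l' l) : TP l' (fun y => f (g y)) c :=
  ⟨h.w.comp hg, h.g.comp hg, h.b.comp hg, h.K.comp hg, h.L.comp hg, h.Q.comp hg⟩

theorem ocyc_congr {X : Type*} {l : Filter X} {f f' : X → Nv} {c : Nv}
    (h : TN l f c) (hf : f =ᶠ[l] f') : TN l f' c :=
  ⟨h.z.congr' (hf.mono fun x hx => by show (f x).z = (f' x).z; rw [hx]),
   h.w.congr' (hf.mono fun x hx => by show (f x).w = (f' x).w; rw [hx]),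
   h.g.congr' (hf.mono fun x hx => by show (f x).g = (f' x).g; rw [hx]),
   h.b.congr' (hf.mono fun x hx => by show (f x).b = (f' x).b; rw [hx]),
   h.K.congr' (hf.mono fun x hx => by show (f x).K = (f' x).K; rw [hx]),
   h.L.congr' (hf.mono fun x hx => by show (f x).L = (f' x).L; rw [hx]),
   h.Q.congr' (hf.mono fun x hx => by show (f x).Q = (f' x).Q; rw [hx])⟩

/-- continuity of the normalised half step at the limit cycle. -/
theorem ocyc_nst {X : Type*} {l : Filter X} {e d : ℝ} {G : X → Np} {M : X → Nv} {F : Np} {N : Nv}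
    (he : 1 ≤ e) (hd : 0 < d) (w0 : 0 < N.w) (w1 : N.w < F.w) (z0 : N.z = 0)
    (hM : TN l M N) (hG : TP l G F) : TN l (fun x => nst e d (G x) (M x)) (nst e d F N) := by
  have hA := lim_A he w0 w1 hM.w hG.w
  have hB := lim_B he w0 w1 hM.w hG.w
  have hC := lim_nc he w0 w1 hM.w hG.w
  have hno := lim_no he w0 w1 hM.w hG.w
  have hnm := lim_nm (d := d) he w0 w1 hM.w hG.w
  have hz : Tendsto (fun x => (M x).z) l (𝓝 0) := by
    have := hM.z
    rwa [z0] at this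
  have hnz := lim_nz (d := d) he hd w0 w1 hz hM.w hG.w
  have hgb : ∀ᶠ x in l, |(M x).g| ≤ |N.g| + 1 :=
    (hM.g.abs.eventually (gt_mem_nhds (by linarith : |N.g| < |N.g| + 1))).mono
      fun x hx => hx.le
  have hnt := lim_nt (d := d) he hd w0 w1 hz hM.w hG.w hG.g hgb
  have hnbe := lim_nbe (d := d) he hd w0 w1 hz hM.w hG.w hG.g hG.b hM.g hM.b
  obtain ⟨t1, b0⟩ := nt_zero (e := e) (d := d) (F := F) z0
  have hngo : Tendsto (fun x => ngo e (G x) (M x)) l (𝓝 (ngo e F N)) :=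
    (hA.mul hG.g).sub (hB.mul hM.g)
  have hnbo : Tendsto (fun x => nbo e (G x) (M x)) l (𝓝 (nbo e F N)) :=
    (hA.mul hG.b).add (hB.mul hM.b)
  have hndl : Tendsto (fun x => ndl (G x) (M x)) l (𝓝 (ndl F N)) :=
    (hM.w.mul hG.g).sub (hG.w.mul hM.g)
  have hndr : Tendsto (fun x => ndr (G x) (M x)) l (𝓝 (ndr F N)) :=
    (hG.w.mul hM.b).add (hM.w.mul hG.b)
  have hn11 : Tendsto (fun x => n11 e (G x) (M x)) l (𝓝 (n11 e F N)) :=
    ((hA.mul hG.K).sub (hB.mul hM.K)).sub (hC.mul (hndl.pow 2))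
  have hn12 : Tendsto (fun x => n12 e (G x) (M x)) l (𝓝 (n12 e F N)) :=
    ((hA.mul hG.L).sub (hB.mul hM.L)).add ((hC.mul hndl).mul hndr)
  have hn22 : Tendsto (fun x => n22 e (G x) (M x)) l (𝓝 (n22 e F N)) :=
    ((hA.mul hG.Q).sub (hB.mul hM.Q)).sub (hC.mul (hndr.pow 2))
  rw [← t1] at hnt
  rw [← b0] at hnbe
  have hm0 : nm e d F N ≠ 0 := (zero_lt_one.trans (nm_pos he hd w0 w1)).ne'
  have hz1 : nz e d F N = 0 := by
    unfold nz
    rw [z0, zero_div]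
  refine ⟨?_, ?_, ?_, ?_, ?_, ?_, ?_⟩
  · show Tendsto (fun x => nz e d (G x) (M x)) l (𝓝 (nz e d F N))
    rw [hz1]
    exact hnz
  · exact hno.div hnm hm0
  · exact (hnt.div hnm hm0).mul hngo
  · exact ((hnt.div hnm hm0).mul hnbo).neg
  · exact (hnt.pow 3).mul hn11
  · exact (hnt.pow 2).mul (hn12.sub (hnbe.mul hn11))
  · exact hnt.mul ((hn22.sub ((hnbe.const_mul 2).mul hn12)).add ((hnbe.pow 2).mul hn11))

variable {E : Type} [NormedAddCommGroup E] [InnerProductSpace ℝ E]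

theorem ocyc_lt {e : ℝ} {A Φ : E → ℝ} (hA : Hg A) (he : 1 ≤ e) (hΦ : Hg Φ)
    (ho : ∀ v, v ≠ 0 → Φ v ^ e = A v ^ e + A (-v) ^ e) {v : E} (hv : v ≠ 0) : A v < Φ v := by
  have h1 := ho v hv
  have h2 : 0 < A (-v) ^ e := Real.rpow_pos_of_pos (hA.p _ (neg_ne_zero.2 hv)) _
  have h3 : A v ^ e < Φ v ^ e := by linarith
  by_contra hcon
  rw [not_lt] at hcon
  have h4 := Real.rpow_le_rpow (hΦ.p v hv).le hcon (by linarith : 0 ≤ e)
  linarith

theorem ocyc_ne {ax ω : E} (h1 : ‖ax‖ = 1) : ax + (0 : ℝ) • ω ≠ 0 := by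
  rw [zero_smul, add_zero]
  intro h
  rw [h, norm_zero] at h1
  exact zero_ne_one h1

/-- The limit `z → 0+` of `cyc_step` (all components of `nst` are continuous at the limit:
`lim_no`, ...; `z' → 0`; uniqueness of limits). -/
theorem cyc_zero {e d : ℝ} {ax : E} {A B Φ : E → ℝ} (D : Bd d ax A B) (he : 1 ≤ e) (hΦ : Hg Φ)
    (ho : ∀ v, v ≠ 0 → Φ v ^ e = A v ^ e + A (-v) ^ e) {ω : E} (hω : Un ax ω) (η : E) :
    NS B ax ω η 0 = nst e d (NP Φ ax ω η 0) (NS A ax ω η 0) := by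
  have hne : ax + (0 : ℝ) • ω ≠ 0 := ocyc_ne D.a1
  have w0 : 0 < (NS A ax ω η 0).w := D.hA.p _ hne
  have w1 : (NS A ax ω η 0).w < (NP Φ ax ω η 0).w := ocyc_lt D.hA he hΦ ho hne
  have z0 : (NS A ax ω η 0).z = 0 := rfl
  have hle : Tendsto (fun z : ℝ => z) (𝓝[>] (0 : ℝ)) (𝓝 0) := tendsto_id.mono_left nhdsWithin_le_nhds
  have hM : TN (𝓝[>] (0 : ℝ)) (fun z => NS A ax ω η z) (NS A ax ω η 0) :=
    ocyc_comp (tn_NS D.hA D.a1 ω η) hle
  have hG : TP (𝓝[>] (0 : ℝ)) (fun z => NP Φ ax ω η z) (NP Φ ax ω η 0) :=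
    ocyc_compP (tp_NP hΦ D.a1 ω η) hle
  have h1 := ocyc_nst he D.d0 w0 w1 z0 hM hG
  have hnz : Tendsto (fun z => nz e d (NP Φ ax ω η z) (NS A ax ω η z)) (𝓝[>] (0 : ℝ)) (𝓝 0) :=
    lim_nz he D.d0 w0 w1 (hM.z) hM.w hG.w
  have h2 : TN (𝓝[>] (0 : ℝ)) (fun z => NS B ax ω η (nz e d (NP Φ ax ω η z) (NS A ax ω η z)))
      (NS B ax ω η 0) := ocyc_comp (tn_NS D.hB D.a1 ω η) hnz
  have h3 : (fun z => NS B ax ω η (nz e d (NP Φ ax ω η z) (NS A ax ω η z))) =ᶠ[𝓝[>] (0 : ℝ)]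
      fun z => nst e d (NP Φ ax ω η z) (NS A ax ω η z) := by
    filter_upwards [self_mem_nhdsWithin] with z hz
    exact (cyc_step D he hΦ ho hω η hz).symm
  exact ocyc_unique (ocyc_congr h2 h3) h1

/-- The limit cycle. -/
theorem cyc_bd {e d : ℝ} {ax : E} {A B Φ Ψ : E → ℝ} (D : Bd d ax A B) (he : 1 ≤ e) (hΦ : Hg Φ)
    (hΨ : Hg Ψ) (ho : ∀ v, v ≠ 0 → Φ v ^ e = A v ^ e + A (-v) ^ e)
    (ho' : ∀ v, v ≠ 0 → Ψ v ^ e = B v ^ e + B (-v) ^ e) {ω : E} (hω : Un ax ω) (η : E) :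
    Cyc e d (fun n => NP (if Even n then Φ else Ψ) ax ω η 0)
      (fun n => NS (if Even n then A else B) ax ω η 0) := by
  have hne : ax + (0 : ℝ) • ω ≠ 0 := ocyc_ne D.a1
  have hpar : ∀ n : ℕ, Even (n + 2) ↔ Even n := fun n => by
    rw [Nat.even_add]
    simp
  refine ⟨fun n => ?_, fun n => ?_, fun n => rfl, fun n => ?_, fun n => ?_, fun n => ?_⟩
  · show NP (if Even (n + 2) then Φ else Ψ) ax ω η 0 = NP (if Even n then Φ else Ψ) ax ω η 0
    simp only [hpar]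
  · show NS (if Even (n + 2) then A else B) ax ω η 0 = NS (if Even n then A else B) ax ω η 0
    simp only [hpar]
  · show 0 < (if Even n then A else B) (ax + (0 : ℝ) • ω)
    split_ifs
    · exact D.hA.p _ hne
    · exact D.hB.p _ hne
  · show (if Even n then A else B) (ax + (0 : ℝ) • ω) <
      (if Even n then Φ else Ψ) (ax + (0 : ℝ) • ω)
    split_ifs
    · exact ocyc_lt D.hA he hΦ ho hne
    · exact ocyc_lt D.hB he hΨ ho' hne
  · show NS (if Even (n + 1) then A else B) ax ω η 0 = nst e d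
      (NP (if Even n then Φ else Ψ) ax ω η 0) (NS (if Even n then A else B) ax ω η 0)
    by_cases h : Even n
    · have h' : ¬ Even (n + 1) := by
        rw [Nat.even_add_one]
        exact not_not.2 h
      rw [if_pos h, if_pos h, if_neg h']
      exact cyc_zero D he hΦ ho hω η
    · have h' : Even (n + 1) := Nat.even_add_one.2 h
      rw [if_neg h, if_neg h, if_pos h']
      exact cyc_zero D.swap he hΨ ho' hω η

end CJ
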