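import Pool.Agent.H.MP_1693ff_gtE.OHom

/-!
# Normalised variables of gauge functions and profiles
-/

namespace CJ

open Real Set Filter Topology CG CH
open CF hiding St

variable {E : Type} [NormedAddCommGroup E] [InnerProductSpace ℝ E]

/-- All relations between the derivatives at `a ax + ω` and at `ax + ω/a`. -/
theorem onv_rel {V : E → ℝ} (hV : Ho V) {ax ω : E} (η : E) {a : ℝ}
    (ha : 0 < a) (c : ContDiffAt ℝ 2 V (a • ax + ω)) :
    V (a • ax + ω) = a * V (ax + a⁻¹ • ω) ∧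
    D1 V (a • ax + ω) η = D1 V (ax + a⁻¹ • ω) η ∧
    V (a • ax + ω) - a * D1 V (a • ax + ω) ax = D1 V (ax + a⁻¹ • ω) ω ∧
    D2 V (a • ax + ω) ax ax * a ^ 3 = D2 V (ax + a⁻¹ • ω) ω ω ∧
    D2 V (a • ax + ω) ax η * a ^ 2 = -D2 V (ax + a⁻¹ • ω) ω η ∧
    D2 V (a • ax + ω) η η * a = D2 V (ax + a⁻¹ • ω) η η := by
  have ha' : a ≠ 0 := ha.ne'
  obtain ⟨q, hq⟩ : ∃ q : E, q = ax + a⁻¹ • ω := ⟨_, rfl⟩
  have hp : a • ax + ω = a • q := by
    rw [hq, smul_add, smul_smul, mul_inv_cancel₀ ha', one_smul]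
  have hq' : q = a⁻¹ • (a • ax + ω) := by
    rw [hp, smul_smul, inv_mul_cancel₀ ha', one_smul]
  have cq : ContDiffAt ℝ 2 V q := by
    rw [hq']
    exact ho_cd (k := 2) hV (inv_pos.mpr ha) c
  have dq : DifferentiableAt ℝ V q := cq.differentiableAt (by norm_num)
  have e1 : V (a • q) = a * V q := hV a ha q
  have e2 : ∀ x, D1 V (a • q) x = D1 V q x := fun x => ho_d1 hV ha dq x
  have e3 : ∀ x y, D2 V (a • q) x y = a⁻¹ * D2 V q x y := fun x y => ho_d2 hV ha cq x y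
  have f1 : D1 V q ax + a⁻¹ * D1 V q ω = V q := by
    have h1 := ho_euler hV dq
    have h2 : D1 V q q = D1 V q ax + a⁻¹ * D1 V q ω := by
      show fderiv ℝ V q q = fderiv ℝ V q ax + a⁻¹ * fderiv ℝ V q ω
      have h3 : fderiv ℝ V q q = fderiv ℝ V q (ax + a⁻¹ • ω) := by rw [← hq]
      rw [h3, map_add, map_smul, smul_eq_mul]
    rw [← h2]; exact h1
  have f2 : ∀ x, D2 V q ax x + a⁻¹ * D2 V q ω x = 0 := by
    intro x
    have h1 := (ho_d2_zero hV cq x).1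
    have h2 : D2 V q q x = D2 V q ax x + a⁻¹ * D2 V q ω x := by
      show fderiv ℝ (fderiv ℝ V) q q x
        = fderiv ℝ (fderiv ℝ V) q ax x + a⁻¹ * fderiv ℝ (fderiv ℝ V) q ω x
      have h3 : fderiv ℝ (fderiv ℝ V) q q = fderiv ℝ (fderiv ℝ V) q (ax + a⁻¹ • ω) := by
        rw [← hq]
      rw [h3, map_add, map_smul]
      rfl
    rw [← h2]; exact h1
  have f3 : ∀ x, D2 V q x ax + a⁻¹ * D2 V q x ω = 0 := by
    intro x
    have h1 := (ho_d2_zero hV cq x).2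
    have h2 : D2 V q x q = D2 V q x ax + a⁻¹ * D2 V q x ω := by
      show fderiv ℝ (fderiv ℝ V) q x q
        = fderiv ℝ (fderiv ℝ V) q x ax + a⁻¹ * fderiv ℝ (fderiv ℝ V) q x ω
      have h3 : fderiv ℝ (fderiv ℝ V) q x q = fderiv ℝ (fderiv ℝ V) q x (ax + a⁻¹ • ω) := by
        rw [← hq]
      rw [h3, map_add, map_smul, smul_eq_mul]
    rw [← h2]; exact h1
  rw [← hq, hp]
  refine ⟨e1, e2 η, ?_, ?_, ?_, ?_⟩
  · rw [e1, e2 ax]
    have h1 : D1 V q ax = V q - a⁻¹ * D1 V q ω := by linarith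
    rw [h1]
    field_simp
    ring
  · rw [e3 ax ax]
    have h1 : D2 V q ax ax = -(a⁻¹ * D2 V q ω ax) := by linarith [f2 ax]
    have h2 : D2 V q ω ax = -(a⁻¹ * D2 V q ω ω) := by linarith [f3 ω]
    rw [h1, h2]
    field_simp
  · rw [e3 ax η]
    have h1 : D2 V q ax η = -(a⁻¹ * D2 V q ω η) := by linarith [f2 η]
    rw [h1]
    field_simp
  · rw [e3 η η]
    field_simp

/-- `V (a ax + ω) = a V (ax + ω/a)`, `ho_d1`, `ho_d2`, and
`a D1 V v ax = V v - D1 V v ω` (`ho_euler`), `a D2 V v ax x = -D2 V v ω x` (`ho_d2_zero`),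
`v = a ax + ω`. -/
theorem nv_JE {d : ℝ} (hd : 0 < d) {V : E → ℝ} (hV : Ho V) {ax ω : E} (η : E) {a : ℝ}
    (ha : 0 < a) (c : ContDiffAt ℝ 2 V (a • ax + ω)) (v w : ℝ) :
    nv d (JE d V ax ω a v) (JT d V ax ω η a w) = NS V ax ω η a⁻¹ := by
  obtain ⟨r1, r2, r3, r4, r5, r6⟩ := onv_rel hV η ha c
  have ha' : a ≠ 0 := ha.ne'
  have hd' : d ≠ 0 := hd.ne'
  unfold nv NS JE JT
  simp only [Nv.mk.injEq, St.W]
  refine ⟨trivial, ?_, ?_, ?_, ?_, ?_, ?_⟩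
  · rw [r1]
    field_simp
    ring
  · rw [← r3]
    field_simp
    ring
  · rw [r2]
    field_simp
  · rw [← r4]
    field_simp
  · rw [← r5]
    field_simp
  · rw [← r6]
    field_simp

/-- The same for profiles. -/
theorem np_PE {Φ : E → ℝ} (hΦ : Ho Φ) {ax ω : E} (η : E) {a : ℝ}
    (ha : 0 < a) (c : ContDiffAt ℝ 2 Φ (a • ax + ω)) :
    np (PE Φ ax ω) (GE Φ ax ω η) a = NP Φ ax ω η a⁻¹ := by
  obtain ⟨r1, r2, r3, r4, r5, r6⟩ := onv_rel hΦ η ha c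
  have ha' : a ≠ 0 := ha.ne'
  unfold np NP PE GE
  simp only [Np.mk.injEq]
  refine ⟨?_, r3, r2, r4, r5, r6⟩
  rw [r1]
  field_simp

end CJ
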