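import Pool.Agent.H.MP_1693ff_gtE.ONvA
import Pool.Agent.H.MP_1693ff_gtE.ONv
import Pool.Agent.H.MP_1693ff_gtE.OBdSt

/-!
# The normalised step of a smooth body
-/

namespace CJ

open Real Set Filter Topology CG CH
open CF hiding St

variable {E : Type} [NormedAddCommGroup E] [InnerProductSpace ℝ E]

/-- composition with the line `z ↦ ax + z ω`. -/
theorem ocyca_line {G : Type*} [TopologicalSpace G] {F : E → G} {ax ω : E}
    (h : ContinuousAt F (ax + (0 : ℝ) • ω)) :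
    Tendsto (fun z : ℝ => F (ax + z • ω)) (𝓝 0) (𝓝 (F (ax + (0 : ℝ) • ω))) := by
  have h1 : ContinuousAt (fun z : ℝ => ax + z • ω) 0 := by fun_prop
  exact ContinuousAt.comp (f := fun z : ℝ => ax + z • ω) (g := F) h h1

theorem ocyca_ne {ax : E} (hax : ‖ax‖ = 1) (ω : E) : ax + (0 : ℝ) • ω ≠ 0 := by
  rw [zero_smul, add_zero]
  intro h
  rw [h, norm_zero] at hax
  exact zero_ne_one hax

theorem ocyca_c0 {V : E → ℝ} (hV : Hg V) {v : E} (hv : v ≠ 0) : ContinuousAt V v :=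
  (hV.c v hv).continuousAt

theorem ocyca_c1 {V : E → ℝ} (hV : Hg V) {v : E} (hv : v ≠ 0) (x : E) :
    ContinuousAt (fun u => D1 V u x) v := by
  have h1 : ContDiffAt ℝ 2 (fderiv ℝ V) v := (hV.c v hv).fderiv_right (by norm_num)
  exact h1.continuousAt.clm_apply continuousAt_const

theorem ocyca_c2 {V : E → ℝ} (hV : Hg V) {v : E} (hv : v ≠ 0) (x y : E) :
    ContinuousAt (fun u => D2 V u x y) v := by
  have h1 : ContDiffAt ℝ 2 (fderiv ℝ V) v := (hV.c v hv).fderiv_right (by norm_num)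
  have h2 : ContDiffAt ℝ 1 (fderiv ℝ (fderiv ℝ V)) v := h1.fderiv_right (by norm_num)
  exact (h2.continuousAt.clm_apply continuousAt_const).clm_apply continuousAt_const

/-- Continuity of the first two derivatives of a `C³` function. -/
theorem tn_NS {V : E → ℝ} (hV : Hg V) {ax : E} (hax : ‖ax‖ = 1) (ω η : E) :
    TN (𝓝 (0 : ℝ)) (fun z => NS V ax ω η z) (NS V ax ω η 0) := by
  have hv := ocyca_ne hax ω
  exact ⟨tendsto_id, ocyca_line (ocyca_c0 hV hv), ocyca_line (ocyca_c1 hV hv ω),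
    (ocyca_line (ocyca_c1 hV hv η)).neg, ocyca_line (ocyca_c2 hV hv ω ω),
    (ocyca_line (ocyca_c2 hV hv ω η)).neg, ocyca_line (ocyca_c2 hV hv η η)⟩

theorem tp_NP {Φ : E → ℝ} (hV : Hg Φ) {ax : E} (hax : ‖ax‖ = 1) (ω η : E) :
    TP (𝓝 (0 : ℝ)) (fun z => NP Φ ax ω η z) (NP Φ ax ω η 0) := by
  have hv := ocyca_ne hax ω
  exact ⟨ocyca_line (ocyca_c0 hV hv), ocyca_line (ocyca_c1 hV hv ω),
    ocyca_line (ocyca_c1 hV hv η), ocyca_line (ocyca_c2 hV hv ω ω),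
    (ocyca_line (ocyca_c2 hV hv ω η)).neg, ocyca_line (ocyca_c2 hV hv η η)⟩

/-- For `z > 0`, `a = 1/z`: `nst (NP Φ z) (NS A z) = NS B z'` with `z' = nz (NP Φ z) (NS A z)`, by
`nv_hst` for `JE A`, `hst_bd`, `hst3_bd`, `nv_JE`, `np_PE` (`W = A v < Φ v`,
`1 + d opp1 = 1 - d D1 A (-v) ax > 0` by `opp_jet`). -/
theorem cyc_step {e d : ℝ} {ax : E} {A B Φ : E → ℝ} (D : Bd d ax A B) (he : 1 ≤ e) (hΦ : Hg Φ)
    (ho : ∀ v, v ≠ 0 → Φ v ^ e = A v ^ e + A (-v) ^ e) {ω : E} (hω : Un ax ω) (η : E) {z : ℝ}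
    (hz : 0 < z) :
    nst e d (NP Φ ax ω η z) (NS A ax ω η z) =
      NS B ax ω η (nz e d (NP Φ ax ω η z) (NS A ax ω η z)) := by
  have ha : 0 < z⁻¹ := inv_pos.2 hz
  have hv := ax_ne hω z⁻¹
  have hv' : -(z⁻¹ • ax + ω) ≠ 0 := neg_ne_zero.2 hv
  have O := opp_bd he D.hA hΦ ho hv
  have hW : (JE d A ax ω z⁻¹ 1).W d = A (z⁻¹ • ax + ω) := by
    show (z⁻¹ - (z⁻¹ - d * A (z⁻¹ • ax + ω))) / d = A (z⁻¹ • ax + ω)
    have hd := D.d0.ne'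
    field_simp
    ring
  have W0 : 0 < (JE d A ax ω z⁻¹ 1).W d := by
    rw [hW]; exact D.hA.p _ hv
  have W1 : (JE d A ax ω z⁻¹ 1).W d < (PE Φ ax ω).f (JE d A ax ω z⁻¹ 1).a := by
    rw [hW]
    show A (z⁻¹ • ax + ω) < Φ (z⁻¹ • ax + ω)
    by_contra hc
    push Not at hc
    have h1 : Φ (z⁻¹ • ax + ω) ^ e ≤ A (z⁻¹ • ax + ω) ^ e :=
      Real.rpow_le_rpow (hΦ.p _ hv).le hc (by linarith)
    rw [ho _ hv] at h1
    have h2 : 0 < A (-(z⁻¹ • ax + ω)) ^ e := Real.rpow_pos_of_pos (D.hA.p _ hv') e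
    linarith
  have p0 : 0 < 1 + d * opp1 e d (PE Φ ax ω) (JE d A ax ω z⁻¹ 1) := by
    rw [(opp_jet D.d0 1 O).2.1]
    have h1 := D.sA _ hv'
    linarith
  have key := nv_hst (G := GE Φ ax ω η) (T := JT d A ax ω η z⁻¹ 0) he D.d0
    (P := PE Φ ax ω) (S := JE d A ax ω z⁻¹ 1) ha W0 W1 p0
  obtain ⟨w', hw'⟩ := hst3_bd D he hΦ ho hω η z⁻¹ 1 0
  have ha' : 0 < z⁻¹ + d * A (-(z⁻¹ • ax + ω)) :=
    add_pos ha (mul_pos D.d0 (D.hA.p _ hv'))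
  have cB : ContDiffAt ℝ 2 B ((z⁻¹ + d * A (-(z⁻¹ • ax + ω))) • ax + ω) :=
    (D.hB.c _ (ax_ne hω _)).of_le (by norm_num)
  have cA : ContDiffAt ℝ 2 A (z⁻¹ • ax + ω) := (D.hA.c _ hv).of_le (by norm_num)
  have cΦ : ContDiffAt ℝ 2 Φ (z⁻¹ • ax + ω) := (hΦ.c _ hv).of_le (by norm_num)
  have hnp : np (PE Φ ax ω) (GE Φ ax ω η) (JE d A ax ω z⁻¹ 1).a = NP Φ ax ω η z := by
    have h1 := np_PE hΦ.h η ha cΦ
    rw [inv_inv] at h1
    exact h1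
  rw [hst_bd D he hΦ ho hω z⁻¹ 1, hw', nv_JE D.d0 D.hB.h η ha' cB, hnp,
    nv_JE D.d0 D.hA.h η ha cA, inv_inv] at key
  have hzz : (z⁻¹ + d * A (-(z⁻¹ • ax + ω)))⁻¹ = nz e d (NP Φ ax ω η z) (NS A ax ω η z) :=
    congrArg Nv.z key
  rw [← hzz]
  exact key.symm

end CJ
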