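import Pool.Agent.H.MP_1693ff_gtC.NOpp3
import Pool.Agent.H.MP_1693ff_gtC.NJoint

/-!
# MP_1693ff_gt, `i ≤ -1`: pairs near the pair of a smooth body.  Definitions
-/

namespace CJ

open Real Set Filter Topology CG CH
open CF hiding St

noncomputable section

/-! ## Chains -/

/-- The chain of half steps from a start state, alternately with the profiles `P` and `Q`. -/
def cS (e d : ℝ) (P Q : Pf) (S : St) : ℕ → St
  | 0 => S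
  | n + 1 => hst e d (if Even n then P else Q) (cS e d P Q S n)

/-- The transverse part of the chain. -/
def cT (e d : ℝ) (P Q : Pf) (G G' : Pt) (S : St) (T : Tt) : ℕ → Tt
  | 0 => T
  | n + 1 => hst3 e d (if Even n then P else Q) (if Even n then G else G')
      (cS e d P Q S n) (cT e d P Q G G' S T n)

/-- The chain for a start arc. -/
def chn (e d : ℝ) (h k : ℝ → ℝ) (S : ℝ → St) (n : ℕ) (t : ℝ) : St := cS e d (pf h) (pf k) (S t) n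

/-- The transverse part of the chain for a start surface (parameters `t`, `r`). -/
def chn3 (e d : ℝ) (h k : ℝ → ℝ → ℝ) (S : ℝ → ℝ → St) (T : ℝ → ℝ → Tt) (n : ℕ) (t r : ℝ) : Tt :=
  cT e d (pf (h r)) (pf (k r)) (pt h r) (pt k r) (S t r) (T t r) n

/-- A half curve: on `[n, n+1]` the chain `(h,k)` from `S` for even `n`, the chain `(k,h)` from
`S'` for odd `n`. -/
def ZG (e d : ℝ) (h k : ℝ → ℝ) (S S' : ℝ → St) (τ : ℝ) : St :=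
  if Even ⌊τ⌋₊ then chn e d h k S ⌊τ⌋₊ (τ - ⌊τ⌋₊) else chn e d k h S' ⌊τ⌋₊ (τ - ⌊τ⌋₊)

/-- The same 1-jet. -/
def Eq3 (S S' : St) : Prop := S.α = S'.α ∧ S.a = S'.a ∧ S.s = S'.s

/-- `V` is the arc `U` seen from the other centre (reflected in the middle). -/
def Mir (U V : ℝ → St) : Prop :=
  ∀ t ∈ Icc (0 : ℝ) 1, (V (1 - t)).a = -(U t).α ∧ (V (1 - t)).α = -(U t).a ∧
    (V (1 - t)).s = ((U t).s)⁻¹

/-- What must be known at every 2-jet. -/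
structure Gd (e d : ℝ) (P : Pf) (S : St) : Prop where
  W0 : 0 < S.W d
  W1 : S.W d < P.f S.a
  s0 : 0 < S.s
  k0 : 0 ≤ S.k
  v0 : 0 < S.v
  p0 : 0 < 1 + d * opp1 e d P S

/-- Regularity of an arc on `[0,1]`. -/
structure Rg (S : ℝ → St) : Prop where
  ca : ContinuousOn (fun t => (S t).a) (Icc 0 1)
  cα : ContinuousOn (fun t => (S t).α) (Icc 0 1)
  cs : ContinuousOn (fun t => (S t).s) (Icc 0 1)
  al : ∀ t ∈ Ioo (0 : ℝ) 1, Along S t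

/-- All facts about the chains `(h,k)` from the start arc `S` and `(k,h)` from `S'`. -/
structure HK (e d : ℝ) (h k : ℝ → ℝ) (S S' : ℝ → St) : Prop where
  e1 : 1 ≤ e
  d0 : 0 < d
  hp : ∀ θ, h (θ + π) = h θ
  kp : ∀ θ, k (θ + π) = k θ
  hc : ContDiff ℝ 2 h
  kc : ContDiff ℝ 2 k
  rS : Rg S
  rS' : Rg S'
  good : ∀ t ∈ Icc (0 : ℝ) 1, ∀ n : ℕ,
    Gd e d (if Even n then pf h else pf k) (chn e d h k S n t)
  good' : ∀ t ∈ Icc (0 : ℝ) 1, ∀ n : ℕ,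
    Gd e d (if Even n then pf k else pf h) (chn e d k h S' n t)
  j : Eq3 (S 1) (hst e d (pf k) (S' 0))
  j' : Eq3 (S' 1) (hst e d (pf h) (S 0))
  gr : ∀ M : ℝ, ∃ N : ℕ, ∀ n, N ≤ n → ∀ t ∈ Icc (0 : ℝ) 1,
    M ≤ (chn e d h k S n t).a ∧ M ≤ (chn e d k h S' n t).a
  cb : ∃ C, ∀ t ∈ Icc (0 : ℝ) 1, ∀ n : ℕ,
    |(chn e d h k S n t).s * (chn e d h k S n t).a - (chn e d h k S n t).α| ≤ C ∧
    |(chn e d k h S' n t).s * (chn e d k h S' n t).a - (chn e d k h S' n t).α| ≤ C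
  sb : ∃ c > 0, ∀ t ∈ Icc (0 : ℝ) 1, ∀ n : ℕ,
    (c ≤ (chn e d h k S n t).s ∧ (chn e d h k S n t).s ≤ c⁻¹) ∧
    (c ≤ (chn e d k h S' n t).s ∧ (chn e d k h S' n t).s ≤ c⁻¹)
  lt : ∃ N : ℕ, ∀ n, N ≤ n → ∀ t ∈ Icc (0 : ℝ) 1,
    (chn e d h k S n t).s < 1 ∧ (chn e d k h S' n t).s < 1

/-- Half curves: what is needed for the gluing. -/
structure HZG (Z : ℝ → St) : Prop where
  ca : ContinuousOn (fun τ => (Z τ).a) (Ici 0)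
  cα : ContinuousOn (fun τ => (Z τ).α) (Ici 0)
  cs : ContinuousOn (fun τ => (Z τ).s) (Ici 0)
  s0 : ∀ τ, 0 ≤ τ → 0 < (Z τ).s
  mono : StrictMonoOn (fun τ => (Z τ).a) (Ici 0)
  pos : ∀ τ, 0 ≤ τ → (Z τ).α < (Z τ).a
  rel : ∀ τ τ', 0 ≤ τ → τ ≤ τ' →
    RelG (Z τ).a (-(Z τ).α) (Z τ).s (Z τ').a (-(Z τ').α) (Z τ').s
  top : Tendsto (fun τ => (Z τ).a) atTop atTop
  lt : ∃ τ, 0 ≤ τ ∧ (Z τ).s < 1
  cb : ∃ C, ∀ τ, 0 ≤ τ → |(Z τ).s * (Z τ).a - (Z τ).α| ≤ C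
  sb : ∃ c > 0, ∀ τ, 0 ≤ τ → c ≤ (Z τ).s ∧ (Z τ).s ≤ c⁻¹

/-! ## Surfaces -/

/-- All facts about the chains of a pair of families. -/
structure D3G (e d : ℝ) (h k : ℝ → ℝ → ℝ) (S S' : ℝ → ℝ → St) (T T' : ℝ → ℝ → Tt) : Prop where
  hk : ∀ r, HK e d (h r) (k r) (fun t => S t r) (fun t => S' t r)
  ph : PJ (fun r => pf (h r)) (fun r => pt h r)
  pk : PJ (fun r => pf (k r)) (fun r => pt k r)
  c : ∀ t ∈ Icc (0 : ℝ) 1, ∀ r, C13 (fun p => S p.1 p.2) (fun p => T p.1 p.2) (t, r)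
  c' : ∀ t ∈ Icc (0 : ℝ) 1, ∀ r, C13 (fun p => S' p.1 p.2) (fun p => T' p.1 p.2) (t, r)
  st : ∀ t ∈ Icc (0 : ℝ) 1, ∀ r, ∀ᶠ p : ℝ × ℝ in 𝓝 (t, r),
    Al3 (fun t => S t p.2) (fun t => T t p.2) (S p.1 p.2).v 0 p.1
  sr : ∀ t ∈ Icc (0 : ℝ) 1, ∀ r, ∀ᶠ p : ℝ × ℝ in 𝓝 (t, r),
    Al3 (fun r => S p.1 r) (fun r => T p.1 r) (T p.1 p.2).w 1 p.2
  st' : ∀ t ∈ Icc (0 : ℝ) 1, ∀ r, ∀ᶠ p : ℝ × ℝ in 𝓝 (t, r),
    Al3 (fun t => S' t p.2) (fun t => T' t p.2) (S' p.1 p.2).v 0 p.1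
  sr' : ∀ t ∈ Icc (0 : ℝ) 1, ∀ r, ∀ᶠ p : ℝ × ℝ in 𝓝 (t, r),
    Al3 (fun r => S' p.1 r) (fun r => T' p.1 r) (T' p.1 p.2).w 1 p.2
  pos : ∀ r, ∀ t ∈ Icc (0 : ℝ) 1, ∀ (n : ℕ) (z ρ : ℝ),
    0 ≤ bf (chn e d (h r) (k r) (fun t => S t r) n t) (chn3 e d h k S T n t r) z ρ
  pos' : ∀ r, ∀ t ∈ Icc (0 : ℝ) 1, ∀ (n : ℕ) (z ρ : ℝ),
    0 ≤ bf (chn e d (k r) (h r) (fun t => S' t r) n t) (chn3 e d k h S' T' n t r) z ρ
  z : ∀ r, (S 0 r).a = 0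
  z' : ∀ r, (S' 0 r).a = 0

/-- A surface, parametrised by `(t, r)` near `(t₀, 0)`. -/
structure Sheet (S : ℝ → ℝ → St) (T : ℝ → ℝ → Tt) (t₀ : ℝ) : Prop where
  c : C13 (fun p => S p.1 p.2) (fun p => T p.1 p.2) (t₀, 0)
  t : ∀ᶠ p : ℝ × ℝ in 𝓝 (t₀, 0),
    Al3 (fun t => S t p.2) (fun t => T t p.2) (S p.1 p.2).v 0 p.1
  r : ∀ᶠ p : ℝ × ℝ in 𝓝 (t₀, 0),
    Al3 (fun r => S p.1 r) (fun r => T p.1 r) (T p.1 p.2).w 1 p.2
  v0 : 0 < (S t₀ 0).v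
  s0 : 0 < (S t₀ 0).s
  pos : ∀ z ρ, 0 ≤ bf (S t₀ 0) (T t₀ 0) z ρ

/-! ## Space -/

variable {E : Type*} [NormedAddCommGroup E] [InnerProductSpace ℝ E]

/-- the function of the angle in the plane of `ax`, `ω`. -/
def pl (H : E → ℝ) (ax ω : E) (θ : ℝ) : ℝ := H (cos θ • ax + sin θ • ω)

/-- rotating unit vector. -/
def ro (ω η : E) (r : ℝ) : E := cos r • ω + sin r • η

/-- the family of functions of the angle for the frame `(ω, η)`. -/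
def hf (H : E → ℝ) (ax ω η : E) (r θ : ℝ) : ℝ := pl H ax (ro ω η r) θ

/-- unit vectors orthogonal to the axis. -/
structure Un (ax ω : E) : Prop where
  n1 : ‖ω‖ = 1
  o1 : inner ℝ ax ω = (0 : ℝ)

/-- orthonormal frames. -/
structure Fm (ax ω η : E) : Prop where
  a : ‖ax‖ = 1
  w : Un ax ω
  h : Un ax η
  o : inner ℝ ω η = (0 : ℝ)

/-- The curves in all half planes, and the limit slopes. -/
structure GA (e d : ℝ) (H₁ H₂ : E → ℝ) (ax : E) (m M : ℝ) (X Y s YH sH : E → ℝ → ℝ) : Prop where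
  m0 : 0 < m
  m1 : m < 1
  M1 : 1 < M
  neg : ∀ ω, Un ax ω → ∀ τ, X (-ω) (-τ) = -X ω τ ∧ Y (-ω) (-τ) = -YH ω τ
  cv : ∀ ω, Un ax ω → GCv e (d * H₁ ax) (d * deriv (pl H₁ ax ω) 0) (d * H₂ ax)
    (d * deriv (ng (pl H₂ ax ω)) 0) (fun x => d * prof (pl H₁ ax ω) x)
    (fun x => d * prof1 (pl H₁ ax ω) x) (fun x => d * prof (ng (pl H₂ ax ω)) x)
    (fun x => d * prof1 (ng (pl H₂ ax ω)) x) (X ω) (Y ω) (s ω) (YH ω) (sH ω)
  lt : ∀ ω, Un ax ω → Tendsto (s ω) atTop (𝓝 m)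
  lb : ∀ ω, Un ax ω → Tendsto (s ω) atBot (𝓝 M)
  e1 : (1 - m) ^ e + (M - 1) ^ e = (d * H₁ ax) ^ e
  e2 : (m⁻¹ - 1) ^ e + (1 - M⁻¹) ^ e = (d * H₂ ax) ^ e

/-- the component orthogonal to the axis. -/
def xi (ax u : E) : E := u - (inner ℝ ax u : ℝ) • ax

open Classical in
/-- The gauge function. -/
def gg (ax : E) (m M : ℝ) (X Y : E → ℝ → ℝ) (u : E) : ℝ :=
  if xi ax u = 0 then
    (if 0 ≤ (inner ℝ ax u : ℝ) then (1 - m) * inner ℝ ax u else (1 - M) * inner ℝ ax u)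
  else ‖xi ax u‖ * (inner ℝ ax u / ‖xi ax u‖ + Y (‖xi ax u‖⁻¹ • xi ax u)
    (Function.invFun (X (‖xi ax u‖⁻¹ • xi ax u)) (inner ℝ ax u / ‖xi ax u‖)))

/-- The half curves in all half planes are those of start arcs. -/
structure GB (e d : ℝ) (H₁ H₂ : E → ℝ) (ax : E) (U L : E → ℝ → St)
    (X Y s YH sH : E → ℝ → ℝ) : Prop where
  br : ∀ ω, Un ax ω → Br (ZG e d (pl H₁ ax ω) (pl H₂ ax ω) (U ω) (L ω))
    (ZG e d (pl H₂ ax ω) (pl H₁ ax ω) (L ω) (U ω))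
    (ZG e d (pl H₂ ax (-ω)) (pl H₁ ax (-ω)) (L (-ω)) (U (-ω)))
    (ZG e d (pl H₁ ax (-ω)) (pl H₂ ax (-ω)) (U (-ω)) (L (-ω)))
    (X ω) (Y ω) (s ω) (YH ω) (sH ω)

/-- Start arcs in all half planes. -/
structure SF (e d : ℝ) (H₁ H₂ : E → ℝ) (ax : E) (U L : E → ℝ → St) : Prop where
  hk : ∀ ω, Un ax ω → HK e d (pl H₁ ax ω) (pl H₂ ax ω) (U ω) (L ω)
  m1 : ∀ ω, Un ax ω → Mir (U ω) (L (-ω))
  m2 : ∀ ω, Un ax ω → Mir (L ω) (U (-ω))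

/-- Start surfaces for all frames. -/
def S3 (e d : ℝ) (H₁ H₂ : E → ℝ) (ax : E) (U L : E → ℝ → St) : Prop :=
  ∀ ω η, Fm ax ω η → ∃ T T', D3G e d (hf H₁ ax ω η) (hf H₂ ax ω η)
      (fun t r => U (ro ω η r) t) (fun t r => L (ro ω η r) t) T T'

end

variable {E : Type*} [NormedAddCommGroup E] [InnerProductSpace ℝ E]

theorem pl_neg (H : E → ℝ) (ax ω : E) : pl H ax (-ω) = ng (pl H ax ω) := by
  funext θ
  simp [pl, ng]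

theorem ro_zero (ω η : E) : ro ω η 0 = ω := by simp [ro]

theorem ro_neg (ω η : E) (r : ℝ) : ro (-ω) (-η) r = -ro ω η r := by
  simp only [ro, smul_neg]; abel

theorem hf_neg (H : E → ℝ) (ax ω η : E) (r : ℝ) : hf H ax (-ω) (-η) r = ng (hf H ax ω η r) := by
  show pl H ax (ro (-ω) (-η) r) = ng (pl H ax (ro ω η r))
  rw [ro_neg, pl_neg]

theorem Un.neg {ax ω : E} (h : Un ax ω) : Un ax (-ω) :=
  ⟨by rw [norm_neg]; exact h.n1, by rw [inner_neg_right, h.o1, neg_zero]⟩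

theorem Fm.neg {ax ω η : E} (h : Fm ax ω η) : Fm ax (-ω) (-η) :=
  ⟨h.a, h.w.neg, h.h.neg, by rw [inner_neg_neg]; exact h.o⟩

/-- `ro ω η r` is a unit vector orthogonal to the axis. -/
theorem Fm.ro {ax ω η : E} (h : Fm ax ω η) (r : ℝ) : Un ax (ro ω η r) := by
  have h1 := h.w.n1
  have h2 := h.h.n1
  have h3 := h.o
  have hn : ‖CJ.ro ω η r‖ ^ 2 = 1 := by
    rw [CJ.ro, norm_add_sq_real, norm_smul, norm_smul, h1, h2, inner_smul_left,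
      inner_smul_right, h3]
    simp
  refine ⟨?_, ?_⟩
  · have h0 := norm_nonneg (CJ.ro ω η r)
    nlinarith
  · rw [CJ.ro, inner_add_right, inner_smul_right, inner_smul_right, h.w.o1, h.h.o1]
    ring

end CJ
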