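import Pool.Agent.H.MP_1693ff_gtE.ODefs

/-!
# Pairs near the pair of a smooth body: data on the space
-/

namespace CJ

open Real Set Filter Topology CG CH
open CF hiding St

noncomputable section

variable {E : Type} [NormedAddCommGroup E] [InnerProductSpace ℝ E]

/-- first derivative. -/
def D1 (V : E → ℝ) (v x : E) : ℝ := fderiv ℝ V v x
/-- second derivative. -/
def D2 (V : E → ℝ) (v x y : E) : ℝ := fderiv ℝ (fderiv ℝ V) v x y

/-- A function on the half plane of `ax`, `ω`, in the chart `a ↦ a ax + ω`. -/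
def PE (Φ : E → ℝ) (ax ω : E) : Pf :=
  { f := fun a => Φ (a • ax + ω)
    f1 := fun a => D1 Φ (a • ax + ω) ax
    f2 := fun a => D2 Φ (a • ax + ω) ax ax }

/-- Its transverse derivatives in the direction `η`. -/
def GE (Φ : E → ℝ) (ax ω η : E) : Pt :=
  { fr := fun a => D1 Φ (a • ax + ω) η
    far := fun a => D2 Φ (a • ax + ω) ax η
    ft := fun a => D2 Φ (a • ax + ω) η η }

/-- The 2-jet at `v = a ax + ω` of the surface with gauge function `V`, seen from its centre. -/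
def JE (d : ℝ) (V : E → ℝ) (ax ω : E) (a v : ℝ) : St :=
  { α := a - d * V (a • ax + ω)
    a := a
    s := 1 - d * D1 V (a • ax + ω) ax
    k := d * D2 V (a • ax + ω) ax ax
    v := v }

/-- The transverse part. -/
def JT (d : ℝ) (V : E → ℝ) (ax ω η : E) (a w : ℝ) : Tt :=
  { κ := -(d * D1 V (a • ax + ω) η)
    ℓ := d * D2 V (a • ax + ω) ax η
    q := d * D2 V (a • ax + ω) η η
    w := w }

/-- A 2-jet seen from the other centre (reflected in the middle of the two centres). -/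
def rv (S : St) : St :=
  { α := -S.a
    a := -S.α
    s := S.s⁻¹
    k := S.k * S.s⁻¹ ^ 3
    v := S.s * S.v }

/-- The transverse part. -/
def rvT (S : St) (T : Tt) : Tt :=
  { κ := S.s⁻¹ * T.κ
    ℓ := S.k * T.κ * S.s⁻¹ ^ 3 - T.ℓ * S.s⁻¹ ^ 2
    q := T.q * S.s⁻¹ - 2 * T.κ * T.ℓ * S.s⁻¹ ^ 2 + S.k * T.κ ^ 2 * S.s⁻¹ ^ 3
    w := -(S.s * T.w + T.κ) }

/-- Positively homogeneous of degree one. -/
def Ho (V : E → ℝ) : Prop := ∀ c : ℝ, 0 < c → ∀ v, V (c • v) = c * V v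

/-- Positively homogeneous of degree one, positive and `C³` off the origin. -/
structure Hg (V : E → ℝ) : Prop where
  h : Ho V
  p : ∀ v, v ≠ 0 → 0 < V v
  c : ∀ v, v ≠ 0 → ContDiffAt ℝ 3 V v

/-- The two gauge functions of a smooth body with centres `0` and `d ax`: `A` is the gauge function
with centre `0`, `B u` the one with centre `d ax` at `-u`. -/
structure Bd (d : ℝ) (ax : E) (A B : E → ℝ) : Prop where
  d0 : 0 < d
  a1 : ‖ax‖ = 1
  hA : Hg A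
  hB : Hg B
  qA : ∀ v x, v ≠ 0 → (∀ c : ℝ, x ≠ c • v) → 0 < D2 A v x x
  qB : ∀ v x, v ≠ 0 → (∀ c : ℝ, x ≠ c • v) → 0 < D2 B v x x
  sA : ∀ v, v ≠ 0 → 0 < 1 - d * D1 A v ax
  sB : ∀ v, v ≠ 0 → 0 < 1 - d * D1 B v ax
  lA : ∀ v, v ≠ 0 → B (v + (d * A (-v)) • ax) = A (-v)
  lB : ∀ v, v ≠ 0 → A (v + (d * B (-v)) • ax) = B (-v)

theorem Bd.swap {d : ℝ} {ax : E} {A B : E → ℝ} (D : Bd d ax A B) : Bd d ax B A :=
  ⟨D.d0, D.a1, D.hB, D.hA, D.qB, D.qA, D.sB, D.sA, D.lB, D.lA⟩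

/-! ## Families depending on a parameter -/

variable {ι : Type} [TopologicalSpace ι]

/-- Continuity at `(i₀, v)` of the derivatives (in `v`) up to order `k` of a family `f`. -/
def JD (i₀ : ι) (v : E) : ℕ → ∀ {F : Type} [NormedAddCommGroup F] [NormedSpace ℝ F],
    (ι → E → F) → Prop
  | 0, _, _, _, f => ContinuousAt (fun p : ι × E => f p.1 p.2) (i₀, v)
  | k + 1, _, _, _, f => ContinuousAt (fun p : ι × E => f p.1 p.2) (i₀, v) ∧
      JD i₀ v k (fun i => fderiv ℝ (f i))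

/-- The family `f` is `C^k` in `v`, near `(i₀, v)`, and the derivatives are continuous
at `(i₀, v)`. -/
def JC (i₀ : ι) (v : E) (k : ℕ) {F : Type} [NormedAddCommGroup F] [NormedSpace ℝ F]
    (f : ι → E → F) : Prop :=
  (∀ᶠ p : ι × E in 𝓝 (i₀, v), ContDiffAt ℝ k (f p.1) p.2) ∧ JD i₀ v k f

/-- Data near those of a smooth body. `Φ i v ^ e` is (up to the factor `|v|^e`) the `(-e)`-chord
function at `0`, `Ψ i v ^ e` the one at `d ax`. -/
structure Fml (e d : ℝ) (ax : E) (A B : E → ℝ) (Φ Ψ : ι → E → ℝ) (i₀ : ι) : Prop where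
  e1 : 1 ≤ e
  bd : Bd d ax A B
  hΦ : ∀ i, Hg (Φ i)
  hΨ : ∀ i, Hg (Ψ i)
  eΦ : ∀ i v, Φ i (-v) = Φ i v
  eΨ : ∀ i v, Ψ i (-v) = Ψ i v
  jΦ : ∀ v, v ≠ 0 → JC i₀ v 3 Φ
  jΨ : ∀ v, v ≠ 0 → JC i₀ v 3 Ψ
  oΦ : ∀ v, v ≠ 0 → Φ i₀ v ^ e = A v ^ e + A (-v) ^ e
  oΨ : ∀ v, v ≠ 0 → Ψ i₀ v ^ e = B v ^ e + B (-v) ^ e
  cc : e = 1 → ∀ i w, inner ℝ ax w = (0 : ℝ) → D2 (Φ i) ax w w = D2 (Ψ i) ax w w

theorem Fml.swap {e d : ℝ} {ax : E} {A B : E → ℝ} {Φ Ψ : ι → E → ℝ} {i₀ : ι}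
    (F : Fml e d ax A B Φ Ψ i₀) : Fml e d ax B A Ψ Φ i₀ :=
  ⟨F.e1, F.bd.swap, F.hΨ, F.hΦ, F.eΨ, F.eΦ, F.jΨ, F.jΦ, F.oΨ, F.oΦ,
    fun h i w hw => (F.cc h i w hw).symm⟩

/-- The parameters `(ω, η, t)`. -/
def XX (ax : E) : Set (E × E × ℝ) :=
  {x | Un ax x.1 ∧ inner ℝ ax x.2.1 = (0 : ℝ) ∧ inner ℝ x.1 x.2.1 = (0 : ℝ) ∧ ‖x.2.1‖ ≤ 1 ∧
    x.2.2 ∈ Icc (0 : ℝ) 1}

/-- Continuity of all components. -/
structure CS {X : Type*} [TopologicalSpace X] (f : X → St) (x : X) : Prop where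
  α : ContinuousAt (fun y => (f y).α) x
  a : ContinuousAt (fun y => (f y).a) x
  s : ContinuousAt (fun y => (f y).s) x
  k : ContinuousAt (fun y => (f y).k) x
  v : ContinuousAt (fun y => (f y).v) x

/-- Continuity of all components. -/
structure CT {X : Type*} [TopologicalSpace X] (f : X → Tt) (x : X) : Prop where
  κ : ContinuousAt (fun y => (f y).κ) x
  ℓ : ContinuousAt (fun y => (f y).ℓ) x
  q : ContinuousAt (fun y => (f y).q) x
  w : ContinuousAt (fun y => (f y).w) x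

/-- A family of start surfaces, continuous at `i₀`, where it is part of the surface with gauge
function `A`. -/
structure Stf (d : ℝ) (ax : E) (A : E → ℝ) (S : ι → E → ℝ → St) (T : ι → E → E → ℝ → Tt)
    (i₀ : ι) : Prop where
  lim : ∀ ω η t, (ω, η, t) ∈ XX ax → ∃ a v w : ℝ, 0 ≤ a ∧ 0 < v ∧
    S i₀ ω t = JE d A ax ω a v ∧ T i₀ ω η t = JT d A ax ω η a w
  cs : ∀ x ∈ XX ax, CS (fun p : ι × (E × E × ℝ) => S p.1 p.2.1 p.2.2.2) (i₀, x)
  ct : ∀ x ∈ XX ax, CT (fun p : ι × (E × E × ℝ) => T p.1 p.2.1 p.2.2.1 p.2.2.2) (i₀, x)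

/-- The `n`-th state of the chain. -/
def chE (e d : ℝ) (ax : E) (Φ Ψ : ι → E → ℝ) (S : ι → E → ℝ → St) (n : ℕ)
    (p : ι × (E × E × ℝ)) : St :=
  cS e d (PE (Φ p.1) ax p.2.1) (PE (Ψ p.1) ax p.2.1) (S p.1 p.2.1 p.2.2.2) n

/-- Its transverse part. -/
def ctE (e d : ℝ) (ax : E) (Φ Ψ : ι → E → ℝ) (S : ι → E → ℝ → St) (T : ι → E → E → ℝ → Tt)
    (n : ℕ) (p : ι × (E × E × ℝ)) : Tt :=
  cT e d (PE (Φ p.1) ax p.2.1) (PE (Ψ p.1) ax p.2.1) (GE (Φ p.1) ax p.2.1 p.2.2.1)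
    (GE (Ψ p.1) ax p.2.1 p.2.2.1) (S p.1 p.2.1 p.2.2.2) (T p.1 p.2.1 p.2.2.1 p.2.2.2) n

/-- The conditions at every 2-jet. -/
structure Cd (e d c C : ℝ) (P : Pf) (S : St) : Prop where
  W0 : c * (1 + S.a) < S.W d
  W1 : S.W d < P.f S.a
  s0 : c < S.s
  s1 : S.s < c⁻¹
  k0 : 0 < S.k
  v0 : 0 < S.v
  p0 : 0 < 1 + d * opp1 e d P S
  g0 : |S.s * S.a - S.α| < C

/-- The strict inequalities in the limit `a → ∞`. -/
structure LC (d c C : ℝ) (ax : E) (A : E → ℝ) (ω : E) : Prop where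
  w : c < A ax
  s0 : c < 1 - d * A ax
  s1 : 1 - d * A ax < c⁻¹
  g : d * |D1 A ax ω| < C

/-- Constants for which all strict inequalities hold for both surfaces of the body. -/
structure CC (e d c C : ℝ) (ax : E) (A B Φ Ψ : E → ℝ) : Prop where
  c0 : 0 < c
  C0 : 0 < C
  jA : ∀ ω, Un ax ω → ∀ a v : ℝ, 0 ≤ a → 0 < v → Cd e d c C (PE Φ ax ω) (JE d A ax ω a v)
  jB : ∀ ω, Un ax ω → ∀ a v : ℝ, 0 ≤ a → 0 < v → Cd e d c C (PE Ψ ax ω) (JE d B ax ω a v)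
  lA : ∀ ω, Un ax ω → LC d c C ax A ω
  lB : ∀ ω, Un ax ω → LC d c C ax B ω

/-- positive definite. -/
def PD (S : St) (T : Tt) : Prop := 0 < S.k ∧ T.ℓ ^ 2 < S.k * T.q

/-! ## Normalised variables -/

/-- Normalised 2-jet: `z = 1/a`, `w = W/a`, `g = W - a W_a`, `b = -W_r`, `K, L, Q` the
normalised second derivatives. -/
structure Nv where
  (z w g b K L Q : ℝ)

/-- Normalised profile. -/
structure Np where
  (w g b K L Q : ℝ)

/-- normalised variables of a 2-jet. -/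
def nv (d : ℝ) (S : St) (T : Tt) : Nv :=
  { z := S.a⁻¹
    w := S.W d / S.a
    g := (S.s * S.a - S.α) / d
    b := T.κ / d
    K := S.k * S.a ^ 3 / d
    L := T.ℓ * S.a ^ 2 / d
    Q := T.q * S.a / d }

/-- normalised profile at `a`. -/
def np (P : Pf) (G : Pt) (a : ℝ) : Np :=
  { w := P.f a / a
    g := P.f a - a * P.f1 a
    b := G.fr a
    K := P.f2 a * a ^ 3
    L := G.far a * a ^ 2
    Q := G.ft a * a }

/-- normalised opposite value. -/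
def no (e : ℝ) (F : Np) (N : Nv) : ℝ := (F.w ^ e - N.w ^ e) ^ e⁻¹
/-- growth factor `μ`. -/
def nm (e d : ℝ) (F : Np) (N : Nv) : ℝ := 1 + d * no e F N
/-- the new `z`. -/
def nz (e d : ℝ) (F : Np) (N : Nv) : ℝ := N.z / nm e d F N
/-- `g` of the opposite value. -/
def ngo (e : ℝ) (F : Np) (N : Nv) : ℝ :=
  (F.w / no e F N) ^ (e - 1) * F.g - (N.w / no e F N) ^ (e - 1) * N.g
/-- `b` of the opposite value. -/
def nbo (e : ℝ) (F : Np) (N : Nv) : ℝ :=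
  (F.w / no e F N) ^ (e - 1) * F.b + (N.w / no e F N) ^ (e - 1) * N.b
/-- `τ = 1/(1 - d z' go)`. -/
def nt (e d : ℝ) (F : Np) (N : Nv) : ℝ := (1 - d * nz e d F N * ngo e F N)⁻¹
/-- `(e-1) w^{e-2} f^{e-2} o^{1-2e}`. -/
def nc (e : ℝ) (F : Np) (N : Nv) : ℝ :=
  (e - 1) * N.w ^ (e - 2) * F.w ^ (e - 2) * no e F N ^ (1 - 2 * e)
/-- `w f_g - f w_g`. -/
def ndl (F : Np) (N : Nv) : ℝ := N.w * F.g - F.w * N.g
/-- `f w_b + w f_b`. -/
def ndr (F : Np) (N : Nv) : ℝ := F.w * N.b + N.w * F.b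
/-- second derivatives of the opposite value. -/
def n11 (e : ℝ) (F : Np) (N : Nv) : ℝ :=
  (F.w / no e F N) ^ (e - 1) * F.K - (N.w / no e F N) ^ (e - 1) * N.K - nc e F N * ndl F N ^ 2
/-- second derivatives of the opposite value. -/
def n12 (e : ℝ) (F : Np) (N : Nv) : ℝ :=
  (F.w / no e F N) ^ (e - 1) * F.L - (N.w / no e F N) ^ (e - 1) * N.L +
    nc e F N * ndl F N * ndr F N
/-- second derivatives of the opposite value. -/
def n22 (e : ℝ) (F : Np) (N : Nv) : ℝ :=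
  (F.w / no e F N) ^ (e - 1) * F.Q - (N.w / no e F N) ^ (e - 1) * N.Q - nc e F N * ndr F N ^ 2
/-- `β = τ z' d bo`. -/
def nbe (e d : ℝ) (F : Np) (N : Nv) : ℝ := nt e d F N * nz e d F N * d * nbo e F N

/-- The half step in normalised variables. -/
def nst (e d : ℝ) (F : Np) (N : Nv) : Nv :=
  { z := nz e d F N
    w := no e F N / nm e d F N
    g := nt e d F N / nm e d F N * ngo e F N
    b := -(nt e d F N / nm e d F N * nbo e F N)
    K := nt e d F N ^ 3 * n11 e F N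
    L := nt e d F N ^ 2 * (n12 e F N - nbe e d F N * n11 e F N)
    Q := nt e d F N * (n22 e F N - 2 * nbe e d F N * n12 e F N +
      nbe e d F N ^ 2 * n11 e F N) }

/-- The normalised profile of `Φ` as a function of `z = 1/a`. -/
def NP (Φ : E → ℝ) (ax ω η : E) (z : ℝ) : Np :=
  { w := Φ (ax + z • ω)
    g := D1 Φ (ax + z • ω) ω
    b := D1 Φ (ax + z • ω) η
    K := D2 Φ (ax + z • ω) ω ω
    L := -D2 Φ (ax + z • ω) ω η
    Q := D2 Φ (ax + z • ω) η η }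

/-- The normalised 2-jet of `V` as a function of `z = 1/a`. -/
def NS (V : E → ℝ) (ax ω η : E) (z : ℝ) : Nv :=
  { z := z
    w := V (ax + z • ω)
    g := D1 V (ax + z • ω) ω
    b := -D1 V (ax + z • ω) η
    K := D2 V (ax + z • ω) ω ω
    L := -D2 V (ax + z • ω) ω η
    Q := D2 V (ax + z • ω) η η }

/-- The chain in normalised variables, for profiles `P n z` (`n` the number of the step). -/
def cN (e d : ℝ) (P : ℕ → ℝ → Np) (N₀ : Nv) : ℕ → Nv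
  | 0 => N₀
  | n + 1 => nst e d (P n (cN e d P N₀ n).z) (cN e d P N₀ n)

/-- The limit cycle. -/
structure Cyc (e d : ℝ) (F : ℕ → Np) (N : ℕ → Nv) : Prop where
  pF : ∀ n, F (n + 2) = F n
  pN : ∀ n, N (n + 2) = N n
  z : ∀ n, (N n).z = 0
  w0 : ∀ n, 0 < (N n).w
  w1 : ∀ n, (N n).w < (F n).w
  st : ∀ n, N (n + 1) = nst e d (F n) (N n)

/-- Convergence of all components. -/
structure TN {X : Type*} (l : Filter X) (f : X → Nv) (c : Nv) : Prop where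
  z : Tendsto (fun x => (f x).z) l (𝓝 c.z)
  w : Tendsto (fun x => (f x).w) l (𝓝 c.w)
  g : Tendsto (fun x => (f x).g) l (𝓝 c.g)
  b : Tendsto (fun x => (f x).b) l (𝓝 c.b)
  K : Tendsto (fun x => (f x).K) l (𝓝 c.K)
  L : Tendsto (fun x => (f x).L) l (𝓝 c.L)
  Q : Tendsto (fun x => (f x).Q) l (𝓝 c.Q)

/-- Convergence of all components. -/
structure TP {X : Type*} (l : Filter X) (f : X → Np) (c : Np) : Prop where
  w : Tendsto (fun x => (f x).w) l (𝓝 c.w)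
  g : Tendsto (fun x => (f x).g) l (𝓝 c.g)
  b : Tendsto (fun x => (f x).b) l (𝓝 c.b)
  K : Tendsto (fun x => (f x).K) l (𝓝 c.K)
  L : Tendsto (fun x => (f x).L) l (𝓝 c.L)
  Q : Tendsto (fun x => (f x).Q) l (𝓝 c.Q)

/-- Convergence, uniform in `n`. -/
def UC {J : Type*} (l : Filter J) (x : J → ℕ → ℝ) (c : ℕ → ℝ) : Prop :=
  ∀ ε > 0, ∀ᶠ j in l, ∀ n, |x j n - c n| ≤ ε

/-- All components. -/
structure UN {J : Type*} (l : Filter J) (M : J → ℕ → Nv) (N : ℕ → Nv) : Prop where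
  z : UC l (fun j n => (M j n).z) (fun n => (N n).z)
  w : UC l (fun j n => (M j n).w) (fun n => (N n).w)
  g : UC l (fun j n => (M j n).g) (fun n => (N n).g)
  b : UC l (fun j n => (M j n).b) (fun n => (N n).b)
  K : UC l (fun j n => (M j n).K) (fun n => (N n).K)
  L : UC l (fun j n => (M j n).L) (fun n => (N n).L)
  Q : UC l (fun j n => (M j n).Q) (fun n => (N n).Q)

/-- All components. -/
structure UP {J : Type*} (l : Filter J) (M : J → ℕ → Np) (N : ℕ → Np) : Prop where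
  w : UC l (fun j n => (M j n).w) (fun n => (N n).w)
  g : UC l (fun j n => (M j n).g) (fun n => (N n).g)
  b : UC l (fun j n => (M j n).b) (fun n => (N n).b)
  K : UC l (fun j n => (M j n).K) (fun n => (N n).K)
  L : UC l (fun j n => (M j n).L) (fun n => (N n).L)
  Q : UC l (fun j n => (M j n).Q) (fun n => (N n).Q)

/-- Runs (sequences of normalised 2-jets `M j n` with profiles `G j n`) which start near the limit
cycle, after it is known that `w` and `z` stay near it. -/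
structure Env {J : Type*} (l : Filter J) (e d θ : ℝ) (G : J → ℕ → Np) (M : J → ℕ → Nv)
    (F : ℕ → Np) (N : ℕ → Nv) : Prop where
  e1 : 1 ≤ e
  d0 : 0 < d
  cyc : Cyc e d F N
  st : ∀ j n, M j (n + 1) = nst e d (G j n) (M j n)
  i : TN l (fun j => M j 0) (N 0)
  t0 : 0 ≤ θ
  t1 : θ < 1
  z : ∀ᶠ j in l, ∀ n, 0 < (M j n).z ∧ (M j (n + 1)).z ≤ θ * (M j n).z
  w : UC l (fun j n => (M j n).w) (fun n => (N n).w)
  G : UP l G F

/-- The filter of the pairs `(j, n)` with `j` along `l`, all `n` of the parity of `b`. -/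
def PF {J : Type*} (l : Filter J) (b : ℕ) : Filter (J × ℕ) :=
  (l ×ˢ ⊤) ⊓ 𝓟 {p | p.2 % 2 = b % 2}

/-- minus the derivative of the new `g` (and `b`) with respect to the old one, on the limit
cycle. -/
def kg (e d : ℝ) (F : Np) (N : Nv) : ℝ := (nm e d F N)⁻¹ * (N.w / no e F N) ^ (e - 1)
/-- minus the derivative of the new `K` (and `L`, `Q`) with respect to the old one, on the limit
cycle. -/
def kk (e : ℝ) (F : Np) (N : Nv) : ℝ := (N.w / no e F N) ^ (e - 1)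
/-- the new `w`. -/
def ps (e d f w : ℝ) : ℝ := (f ^ e - w ^ e) ^ e⁻¹ / (1 + d * (f ^ e - w ^ e) ^ e⁻¹)

/-- The additional hypothesis for `e = 1`: the second derivatives of both profiles tend to the same
limit `R j`, at the rate `C z`. -/
def Hc {J : Type*} (l : Filter J) (G : J → ℕ → Np) (M : J → ℕ → Nv) : Prop :=
  ∃ C ≥ 0, ∃ R : J → Np, ∀ᶠ j in l, ∀ n, |(G j n).K - (R j).K| ≤ C * (M j n).z ∧
    |(G j n).L - (R j).L| ≤ C * (M j n).z ∧ |(G j n).Q - (R j).Q| ≤ C * (M j n).z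

/-! ## Start surfaces -/

/-- The hypothesis: near `v` the function `V` is part of a body with chord function `Φ^e`. -/
structure Opp (e : ℝ) (Φ V : E → ℝ) (v : E) : Prop where
  e1 : 1 ≤ e
  cV : ContDiffAt ℝ 2 V v
  cV' : ContDiffAt ℝ 2 V (-v)
  cΦ : ContDiffAt ℝ 2 Φ v
  p : 0 < V v
  p' : 0 < V (-v)
  pΦ : 0 < Φ v
  h : ∀ᶠ u in 𝓝 v, V u ^ e + V (-u) ^ e = Φ u ^ e

/-- `V` with `V(v)^e + V(-v)^e = Φ(v)^e` near `A`: `V(v)^e = (Φ(v)^e + A(v)^e - A(-v)^e)/2`. -/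
def VA (e : ℝ) (Φ A : E → ℝ) (v : E) : ℝ := ((Φ v ^ e + A v ^ e - A (-v) ^ e) / 2) ^ e⁻¹

/-- What is known about this function. -/
structure VG (e d : ℝ) (ax : E) (Φ V : E → ℝ) : Prop where
  hg : Hg V
  r : ∀ v, v ≠ 0 → V v ^ e + V (-v) ^ e = Φ v ^ e
  s : ∀ v, v ≠ 0 → 0 < 1 - d * D1 V v ax

/-- Hermite interpolation: value `p`, derivative `q` at `0`; value `p'`, derivative `q'` at `1`. -/
def hmt (x p q p' q' : ℝ) : ℝ :=
  p * (1 - 3 * x ^ 2 + 2 * x ^ 3) + q * (x - 2 * x ^ 2 + x ^ 3) + p' * (3 * x ^ 2 - 2 * x ^ 3) +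
    q' * (x ^ 3 - x ^ 2)

/-- The gauge function of the start surface at `v` in terms of the values
`y₁ = VA ξ`, `y₂ = D1 VA ξ ax`, `y₃ = VB (-ξ)`, `y₄ = D1 VB (-ξ) ax`, `ξ = xi ax v`. -/
def WY (d : ℝ) (ax : E) (A : E → ℝ) (v : E) (y₁ y₂ y₃ y₄ : ℝ) : ℝ :=
  A v + hmt ((inner ℝ ax v : ℝ) / (d * y₃)) (y₁ - A (xi ax v))
    (d * y₃ * (y₂ - D1 A (xi ax v) ax)) (y₃ - A ((d * y₃) • ax + xi ax v))
    (d * y₃ * (-y₄ / (1 - d * y₄) - D1 A ((d * y₃) • ax + xi ax v) ax))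

/-- The gauge function of the start surface. -/
def WW (d : ℝ) (ax : E) (A VA VB : E → ℝ) (v : E) : ℝ :=
  WY d ax A v (VA (xi ax v)) (D1 VA (xi ax v) ax) (VB (-xi ax v)) (D1 VB (-xi ax v) ax)

/-- The end of the start surface in the half plane of `ω`. -/
def a1 (d : ℝ) (VB : E → ℝ) (ω : E) : ℝ := d * VB (-ω)

/-- The upper start surface. -/
def SU (d : ℝ) (ax : E) (W a₁ : E → ℝ) (ω : E) (t : ℝ) : St :=
  JE d W ax ω (t * a₁ ω) (a₁ ω)

/-- Its transverse part. -/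
def TU (d : ℝ) (ax : E) (W a₁ : E → ℝ) (ω η : E) (t : ℝ) : Tt :=
  JT d W ax ω η (t * a₁ ω) (t * D1 a₁ ω η)

/-- The lower start surface: the upper one of the opposite half plane seen from the other
centre. -/
def SL (d : ℝ) (ax : E) (W a₁ : E → ℝ) (ω : E) (t : ℝ) : St := rv (SU d ax W a₁ (-ω) (1 - t))

/-- Its transverse part. -/
def TL (d : ℝ) (ax : E) (W a₁ : E → ℝ) (ω η : E) (t : ℝ) : Tt :=
  rvT (SU d ax W a₁ (-ω) (1 - t)) (TU d ax W a₁ (-ω) (-η) (1 - t))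

/-- `VA` of the family. -/
def fA (e : ℝ) (Φ : ι → E → ℝ) (A : E → ℝ) (i : ι) : E → ℝ := VA e (Φ i) A

/-- The gauge function of the start surface. -/
def fW (e d : ℝ) (ax : E) (A B : E → ℝ) (Φ Ψ : ι → E → ℝ) (i : ι) : E → ℝ :=
  WW d ax A (fA e Φ A i) (fA e Ψ B i)

/-- `a₁` of the family. -/
def fa (e d : ℝ) (B : E → ℝ) (Ψ : ι → E → ℝ) (i : ι) : E → ℝ := a1 d (fA e Ψ B i)

/-- The upper start surfaces of the family. -/
def fU (e d : ℝ) (ax : E) (A B : E → ℝ) (Φ Ψ : ι → E → ℝ) (i : ι) (ω : E) (t : ℝ) : St :=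
  SU d ax (fW e d ax A B Φ Ψ i) (fa e d B Ψ i) ω t

/-- Transverse part. -/
def fUT (e d : ℝ) (ax : E) (A B : E → ℝ) (Φ Ψ : ι → E → ℝ) (i : ι) (ω η : E) (t : ℝ) : Tt :=
  TU d ax (fW e d ax A B Φ Ψ i) (fa e d B Ψ i) ω η t

/-- The lower start surfaces of the family. -/
def fL (e d : ℝ) (ax : E) (A B : E → ℝ) (Φ Ψ : ι → E → ℝ) (i : ι) (ω : E) (t : ℝ) : St :=
  SL d ax (fW e d ax A B Φ Ψ i) (fa e d B Ψ i) ω t

/-- Transverse part. -/
def fLT (e d : ℝ) (ax : E) (A B : E → ℝ) (Φ Ψ : ι → E → ℝ) (i : ι) (ω η : E) (t : ℝ) : Tt :=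
  TL d ax (fW e d ax A B Φ Ψ i) (fa e d B Ψ i) ω η t

/-- The run from step `2 N` on, for `j = (N, p)`, `p = (i, x)`. -/
def rn (e d : ℝ) (ax : E) (Φ Ψ : ι → E → ℝ) (S : ι → E → ℝ → St)
    (T : ι → E → E → ℝ → Tt) (j : ℕ × (ι × (E × E × ℝ))) (n : ℕ) : Nv :=
  cN e d (fun n z => NP (if Even n then Φ j.2.1 else Ψ j.2.1) ax j.2.2.1 j.2.2.2.1 z)
    (nv d (chE e d ax Φ Ψ S (2 * j.1) j.2) (ctE e d ax Φ Ψ S T (2 * j.1) j.2)) n

/-- The profiles along the run. -/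
def rp (e d : ℝ) (ax : E) (Φ Ψ : ι → E → ℝ) (S : ι → E → ℝ → St)
    (T : ι → E → E → ℝ → Tt) (j : ℕ × (ι × (E × E × ℝ))) (n : ℕ) : Np :=
  NP (if Even n then Φ j.2.1 else Ψ j.2.1) ax j.2.2.1 j.2.2.2.1 (rn e d ax Φ Ψ S T j n).z

/-- What is known for a single index `i`. -/
structure Gi (e d c C : ℝ) (ax : E) (A B : E → ℝ) (Φ Ψ : ι → E → ℝ) (i : ι) : Prop where
  vA : VG e d ax (Φ i) (fA e Φ A i)
  vB : VG e d ax (Ψ i) (fA e Ψ B i)
  U : ∀ x ∈ XX ax, ∀ n : ℕ,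
      Cd e d c C (if Even n then PE (Φ i) ax x.1 else PE (Ψ i) ax x.1)
        (chE e d ax Φ Ψ (fU e d ax A B Φ Ψ) n (i, x)) ∧
      (‖x.2.1‖ = 1 → PD (chE e d ax Φ Ψ (fU e d ax A B Φ Ψ) n (i, x))
        (ctE e d ax Φ Ψ (fU e d ax A B Φ Ψ) (fUT e d ax A B Φ Ψ) n (i, x)))
  L : ∀ x ∈ XX ax, ∀ n : ℕ,
      Cd e d c C (if Even n then PE (Ψ i) ax x.1 else PE (Φ i) ax x.1)
        (chE e d ax Ψ Φ (fL e d ax A B Φ Ψ) n (i, x)) ∧
      (‖x.2.1‖ = 1 → PD (chE e d ax Ψ Φ (fL e d ax A B Φ Ψ) n (i, x))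
        (ctE e d ax Ψ Φ (fL e d ax A B Φ Ψ) (fLT e d ax A B Φ Ψ) n (i, x)))

/-- The boundary of `K` is of class `C³` with positive curvature, seen from the interior point `p`:
the inverse of the radial function at `p` (the gauge function of `K - p`) is `C³` off the origin and
has positive second derivative in all directions except the radial one. -/
structure Sm (K : Set E) (p : E) : Prop where
  c : ContDiffOn ℝ 3 (fun u => (radial K p u)⁻¹) {0}ᶜ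
  q : ∀ u, u ≠ 0 → ∀ x, (∀ c : ℝ, x ≠ c • u) →
    0 < fderiv ℝ (fderiv ℝ fun u => (radial K p u)⁻¹) u x x

end

end CJ
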