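import Pool.Agent.H.MP_1693ff_gtE.OE

/-!
# Drift, uniformly in the number of the step
-/

namespace CJ

open Real Set Filter Topology CG CH
open CF hiding St

variable {J : Type*} {l : Filter J}

/-- **Drift.**  `u n = x j n - c n - (R j - Rs)/2` satisfies `|u (n+1) + u n| ≤ C z n`
(`hc`: `c (n+1) + c n = Rs`) as long as `|x j n - c n| ≤ 1`, and `z j n ≤ θ^n z j 0`, so
`|u n| ≤ |u 0| + C z j 0 / (1 - θ)`, which is small; by induction on `n` (which also shows
`|x j n - c n| ≤ 1`). -/
theorem drift {x z : J → ℕ → ℝ} {c : ℕ → ℝ} {R : J → ℝ} {Rs θ C : ℝ} (hC : 0 ≤ C)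
    (t0 : 0 ≤ θ) (t1 : θ < 1) (hz : ∀ᶠ j in l, ∀ n, 0 < z j n ∧ z j (n + 1) ≤ θ * z j n)
    (hz0 : Tendsto (fun j => z j 0) l (𝓝 0)) (hR : Tendsto R l (𝓝 Rs))
    (hc : ∀ n, c (n + 1) + c n = Rs) (h0 : Tendsto (fun j => x j 0) l (𝓝 (c 0)))
    (hs : ∀ᶠ j in l, ∀ n, |x j n - c n| ≤ 1 → |x j (n + 1) + x j n - R j| ≤ C * z j n) :
    UC l x c := by
  intro ε hε
  have h1t : 0 < 1 - θ := by linarith
  have hsum : Tendsto (fun j => |x j 0 - c 0| + |R j - Rs| + C * z j 0 / (1 - θ)) l (𝓝 0) := by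
    have a1 : Tendsto (fun j => |x j 0 - c 0|) l (𝓝 0) := by
      have h := (h0.sub_const (c 0)).abs
      simpa using h
    have a2 : Tendsto (fun j => |R j - Rs|) l (𝓝 0) := by
      have h := (hR.sub_const Rs).abs
      simpa using h
    have a3 : Tendsto (fun j => C * z j 0 / (1 - θ)) l (𝓝 0) := by
      have h := (hz0.const_mul C).div_const (1 - θ)
      simpa using h
    have h := (a1.add a2).add a3
    simpa using h
  have hev : ∀ᶠ j in l, |x j 0 - c 0| + |R j - Rs| + C * z j 0 / (1 - θ) < min ε 1 :=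
    hsum.eventually_lt_const (by positivity)
  filter_upwards [hz, hs, hev] with j hzj hsj hj
  have hzn : ∀ n, z j n ≤ θ ^ n * z j 0 := by
    intro n
    induction n with
    | zero => simp
    | succ n ih =>
      calc z j (n + 1) ≤ θ * z j n := (hzj n).2
        _ ≤ θ * (θ ^ n * z j 0) := mul_le_mul_of_nonneg_left ih t0
        _ = θ ^ (n + 1) * z j 0 := by ring
  have hz00 : 0 < z j 0 := (hzj 0).1
  have hCz : 0 ≤ C * z j 0 := mul_nonneg hC hz00.le
  have hbound : ∀ n, |x j n - c n - (R j - Rs) / 2| ≤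
      |x j 0 - c 0| + |R j - Rs| / 2 + C * z j 0 * ((1 - θ ^ n) / (1 - θ)) →
      |x j n - c n| ≤ min ε 1 := by
    intro n hn
    have h2 : |x j n - c n| ≤ |x j n - c n - (R j - Rs) / 2| + |R j - Rs| / 2 := by
      have h3 := abs_add_le (x j n - c n - (R j - Rs) / 2) ((R j - Rs) / 2)
      have h4 : x j n - c n - (R j - Rs) / 2 + (R j - Rs) / 2 = x j n - c n := by ring
      rw [h4, abs_div, abs_of_pos (two_pos : (0 : ℝ) < 2)] at h3
      exact h3
    have h5 : C * z j 0 * ((1 - θ ^ n) / (1 - θ)) ≤ C * z j 0 / (1 - θ) := by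
      rw [mul_div_assoc' , div_le_div_iff_of_pos_right h1t]
      have h6 : 0 ≤ θ ^ n := pow_nonneg t0 n
      nlinarith
    linarith
  have hu : ∀ n, |x j n - c n - (R j - Rs) / 2| ≤
      |x j 0 - c 0| + |R j - Rs| / 2 + C * z j 0 * ((1 - θ ^ n) / (1 - θ)) := by
    intro n
    induction n with
    | zero =>
      have h3 := abs_sub (x j 0 - c 0) ((R j - Rs) / 2)
      rw [abs_div, abs_of_pos (two_pos : (0 : ℝ) < 2)] at h3
      simpa using h3
    | succ n ih =>
      have h7 := hbound n ih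
      have h8 := hsj n (h7.trans (min_le_right _ _))
      have h9 : x j (n + 1) - c (n + 1) - (R j - Rs) / 2 =
          (x j (n + 1) + x j n - R j) - (x j n - c n - (R j - Rs) / 2) := by
        have := hc n
        linarith
      have h10 : |x j (n + 1) - c (n + 1) - (R j - Rs) / 2| ≤
          |x j (n + 1) + x j n - R j| + |x j n - c n - (R j - Rs) / 2| := by
        rw [h9]
        exact abs_sub _ _
      have h11 : C * z j n ≤ C * z j 0 * θ ^ n := by
        calc C * z j n ≤ C * (θ ^ n * z j 0) := mul_le_mul_of_nonneg_left (hzn n) hC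
          _ = C * z j 0 * θ ^ n := by ring
      have h12 : C * z j 0 * ((1 - θ ^ (n + 1)) / (1 - θ)) =
          C * z j 0 * ((1 - θ ^ n) / (1 - θ)) + C * z j 0 * θ ^ n := by
        field_simp
        ring
      rw [h12]
      linarith
  intro n
  exact (hbound n (hu n)).trans (min_le_left _ _)

end CJ
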