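import Pool.Agent.H.MP_1693ff_gtE.OFarO
import Pool.Agent.H.MP_1693ff_gtE.OUCc

/-!
# Runs near the limit cycle: `K`, `L`, `Q` for `e = 1`
-/

namespace CJ

open Real Set Filter Topology CG CH
open CF hiding St

variable {J : Type*} {l : Filter J} {d θ : ℝ} {G : J → ℕ → Np} {M : J → ℕ → Nv}
  {F : ℕ → Np} {N : ℕ → Nv}

/-- A uniform limit which is 2-periodic is bounded. -/
theorem ofarp_bd {x : J → ℕ → ℝ} {c : ℕ → ℝ} (pc : ∀ n, c (n + 2) = c n) (h : UC l x c) :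
    ∃ B ≥ 0, (∀ n, |c n| ≤ B) ∧ ∀ᶠ j in l, ∀ n, |x j n| ≤ B + 1 := by
  have hb : ∀ n, |c n| ≤ max |c 0| |c 1| := by
    intro n
    rcases Nat.mod_two_eq_zero_or_one n with hn | hn
    · rw [per_eq pc (b := 0) (by simpa using hn)]; exact le_max_left _ _
    · rw [per_eq pc (b := 1) (by simpa using hn)]; exact le_max_right _ _
  refine ⟨max |c 0| |c 1|, le_trans (abs_nonneg _) (le_max_left _ _), hb, ?_⟩
  filter_upwards [h 1 one_pos] with j hj n
  have h1 := hj n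
  have h2 := hb n
  have h3 : |x j n| ≤ |x j n - c n| + |c n| := by
    have := abs_add_le (x j n - c n) (c n)
    rwa [sub_add_cancel] at this
  linarith

theorem ofarp_aK {t g k r z C1 C2 B : ℝ} (hz0 : 0 ≤ z) (hz1 : z ≤ 1) (hC2 : 0 ≤ C2)
    (hB : 0 ≤ B) (h1 : |g - r| ≤ C1 * z) (h2 : |t - 1| ≤ C2 * z) (h3 : |g - k| ≤ B) :
    |t ^ 3 * (g - k) + k - r| ≤ (C1 + C2 * ((1 + C2) ^ 2 + (1 + C2) + 1) * B) * z := by
  have ht : |t| ≤ 1 + C2 := by
    have h4 : |t| ≤ |t - 1| + |1| := by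
      have := abs_add_le (t - 1) 1
      rwa [sub_add_cancel] at this
    rw [abs_one] at h4
    have h5 : C2 * z ≤ C2 := by nlinarith
    linarith
  have ht0 := abs_nonneg t
  have h6 : |t ^ 2 + t + 1| ≤ (1 + C2) ^ 2 + (1 + C2) + 1 := by
    have h7 := abs_add_le (t ^ 2 + t) 1
    have h8 := abs_add_le (t ^ 2) t
    rw [abs_one] at h7
    rw [abs_pow] at h8
    have h9 : |t| ^ 2 ≤ (1 + C2) ^ 2 := pow_le_pow_left₀ ht0 ht 2
    linarith
  have h10 : t ^ 3 * (g - k) + k - r = (g - r) + (t - 1) * ((t ^ 2 + t + 1) * (g - k)) := by ring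
  rw [h10]
  have h11 : |(t - 1) * ((t ^ 2 + t + 1) * (g - k))| ≤
      (C2 * z) * (((1 + C2) ^ 2 + (1 + C2) + 1) * B) := by
    rw [abs_mul, abs_mul]
    have h12 : |t ^ 2 + t + 1| * |g - k| ≤ ((1 + C2) ^ 2 + (1 + C2) + 1) * B :=
      mul_le_mul h6 h3 (abs_nonneg _) (by positivity)
    exact mul_le_mul h2 h12 (by positivity) (by positivity)
  have h13 := abs_add_le (g - r) ((t - 1) * ((t ^ 2 + t + 1) * (g - k)))
  nlinarith

theorem ofarp_aL {t be g k n r z C1 C2 B B' : ℝ} (hz0 : 0 ≤ z) (hz1 : z ≤ 1) (hC2 : 0 ≤ C2)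
    (hB : 0 ≤ B) (hB' : 0 ≤ B') (h1 : |g - r| ≤ C1 * z) (h2 : |t - 1| ≤ C2 * z)
    (h2' : |be| ≤ C2 * z) (h3 : |g - k| ≤ B) (h4 : |n| ≤ B') :
    |t ^ 2 * ((g - k) - be * n) + k - r| ≤
      (C1 + C2 * (2 + C2) * B + (1 + C2) ^ 2 * C2 * B') * z := by
  have ht : |t| ≤ 1 + C2 := by
    have h4 : |t| ≤ |t - 1| + |1| := by
      have := abs_add_le (t - 1) 1
      rwa [sub_add_cancel] at this
    rw [abs_one] at h4
    have h5 : C2 * z ≤ C2 := by nlinarith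
    linarith
  have ht0 := abs_nonneg t
  have h6 : |t + 1| ≤ 2 + C2 := by
    have h7 := abs_add_le t 1
    rw [abs_one] at h7
    linarith
  have h10 : t ^ 2 * ((g - k) - be * n) + k - r =
      (g - r) + (t - 1) * ((t + 1) * (g - k)) + (-(t ^ 2 * (be * n))) := by ring
  rw [h10]
  have h11 : |(t - 1) * ((t + 1) * (g - k))| ≤ (C2 * z) * ((2 + C2) * B) := by
    rw [abs_mul, abs_mul]
    have h12 : |t + 1| * |g - k| ≤ (2 + C2) * B :=
      mul_le_mul h6 h3 (abs_nonneg _) (by positivity)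
    exact mul_le_mul h2 h12 (by positivity) (by positivity)
  have h14 : |(-(t ^ 2 * (be * n)))| ≤ (1 + C2) ^ 2 * ((C2 * z) * B') := by
    rw [abs_neg, abs_mul, abs_mul, abs_pow]
    have h9 : |t| ^ 2 ≤ (1 + C2) ^ 2 := pow_le_pow_left₀ ht0 ht 2
    have h15 : |be| * |n| ≤ (C2 * z) * B' := mul_le_mul h2' h4 (abs_nonneg _) (by positivity)
    exact mul_le_mul h9 h15 (by positivity) (by positivity)
  have h13 := abs_add_le (g - r) ((t - 1) * ((t + 1) * (g - k)))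
  have h16 := abs_add_le ((g - r) + (t - 1) * ((t + 1) * (g - k))) (-(t ^ 2 * (be * n)))
  have h17 : (C1 + C2 * (2 + C2) * B + (1 + C2) ^ 2 * C2 * B') * z =
      C1 * z + (C2 * z) * ((2 + C2) * B) + (1 + C2) ^ 2 * ((C2 * z) * B') := by ring
  rw [h17]
  linarith

theorem ofarp_aQ {t be g k m n r z C1 C2 B B' B'' : ℝ} (hz0 : 0 ≤ z) (hz1 : z ≤ 1)
    (hC2 : 0 ≤ C2) (hB : 0 ≤ B) (hB' : 0 ≤ B') (hB'' : 0 ≤ B'') (h1 : |g - r| ≤ C1 * z)
    (h2 : |t - 1| ≤ C2 * z) (h2' : |be| ≤ C2 * z) (h3 : |g - k| ≤ B) (h4 : |m| ≤ B')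
    (h5 : |n| ≤ B'') :
    |t * ((g - k) - 2 * be * m + be ^ 2 * n) + k - r| ≤
      (C1 + C2 * B + 2 * (1 + C2) * C2 * B' + (1 + C2) * C2 ^ 2 * B'') * z := by
  have hb1 : |be| ≤ C2 := by nlinarith
  have ht : |t| ≤ 1 + C2 := by
    have h4 : |t| ≤ |t - 1| + |1| := by
      have := abs_add_le (t - 1) 1
      rwa [sub_add_cancel] at this
    rw [abs_one] at h4
    have h5 : C2 * z ≤ C2 := by nlinarith
    linarith
  have ht0 := abs_nonneg t
  have h10 : t * ((g - k) - 2 * be * m + be ^ 2 * n) + k - r =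
      (g - r) + (t - 1) * (g - k) + (-(2 * t * (be * m))) + t * (be * (be * n)) := by ring
  rw [h10]
  have h11 : |(t - 1) * (g - k)| ≤ (C2 * z) * B := by
    rw [abs_mul]
    exact mul_le_mul h2 h3 (abs_nonneg _) (by positivity)
  have h12 : |(-(2 * t * (be * m)))| ≤ 2 * ((1 + C2) * ((C2 * z) * B')) := by
    have e1 : -(2 * t * (be * m)) = (-2) * (t * (be * m)) := by ring
    rw [e1, abs_mul, abs_mul, abs_mul]
    have e2 : |(-2 : ℝ)| = 2 := by norm_num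
    rw [e2]
    have h15 : |be| * |m| ≤ (C2 * z) * B' := mul_le_mul h2' h4 (abs_nonneg _) (by positivity)
    have h16 : |t| * (|be| * |m|) ≤ (1 + C2) * ((C2 * z) * B') :=
      mul_le_mul ht h15 (by positivity) (by positivity)
    linarith
  have h13 : |t * (be * (be * n))| ≤ (1 + C2) * ((C2 * z) * (C2 * B'')) := by
    rw [abs_mul, abs_mul, abs_mul]
    have h15 : |be| * |n| ≤ C2 * B'' := mul_le_mul hb1 h5 (abs_nonneg _) (by positivity)
    have h16 : |be| * (|be| * |n|) ≤ (C2 * z) * (C2 * B'') :=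
      mul_le_mul h2' h15 (by positivity) (by positivity)
    exact mul_le_mul ht h16 (by positivity) (by positivity)
  have h14 := abs_add_le (g - r) ((t - 1) * (g - k))
  have h15 := abs_add_le ((g - r) + (t - 1) * (g - k)) (-(2 * t * (be * m)))
  have h16 := abs_add_le ((g - r) + (t - 1) * (g - k) + (-(2 * t * (be * m))))
    (t * (be * (be * n)))
  have h17 : (C1 + C2 * B + 2 * (1 + C2) * C2 * B' + (1 + C2) * C2 ^ 2 * B'') * z =
      C1 * z + (C2 * z) * B + 2 * ((1 + C2) * ((C2 * z) * B')) +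
        (1 + C2) * ((C2 * z) * (C2 * B'')) := by ring
  rw [h17]
  linarith

theorem ofarp_sub {g f k c BF BN : ℝ} (h1 : |g| ≤ BF + 1) (h2 : |c| ≤ BN) (h3 : |k - c| ≤ 1) :
    |g - k| ≤ BF + BN + 2 := by
  have h4 : |k| ≤ |k - c| + |c| := by
    have := abs_add_le (k - c) c
    rwa [sub_add_cancel] at this
  have h5 := abs_sub g k
  linarith

theorem ofarp_bdd {x : J → ℕ → ℝ} {c : ℕ → ℝ} (h : UC l x c) : ∀ᶠ j in l, ∀ n,
    |x j n - c n| ≤ 1 := h 1 one_pos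

/-- `drift` with `R j = (R j).K`: the new `K` is `τ³ (F.K - K)` (`one_n`), so
`K' + K - R = (F.K - R) + (τ³ - 1)(F.K - K)`, where `|F.K - R| ≤ C z`, `|τ³ - 1| ≤ C z`
(`one_tb`) and `F.K - K` is bounded when `|K - K*| ≤ 1`.  (`l = ⊥` is trivial.) -/
theorem one_K (H : Env l 1 d θ G M F N) (h : Hc l G M) :
    UC l (fun j n => (M j n).K) (fun n => (N n).K) := by
  rcases eq_or_neBot l with hl | hl
  · intro ε _
    rw [hl]
    exact Filter.eventually_bot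
  have pN : ∀ n, N (n + 2) = N n := H.cyc.pN
  have pF : ∀ n, F (n + 2) = F n := H.cyc.pF
  have hcy := fun n => (one_cyc H h n).1
  obtain ⟨C1, hC1, R, hR⟩ := h
  obtain ⟨C2, hC2, hT⟩ := one_tb H
  obtain ⟨BF, hBF, -, hF⟩ := ofarp_bd (fun n => by rw [pF]) H.G.K
  obtain ⟨BN, hBN, hN⟩ : ∃ B ≥ 0, ∀ n, |(N n).K| ≤ B := by
    refine ⟨max |(N 0).K| |(N 1).K|, le_trans (abs_nonneg _) (le_max_left _ _), fun n => ?_⟩
    rcases Nat.mod_two_eq_zero_or_one n with hn | hn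
    · rw [per_eq pN (b := 0) (by simpa using hn)]; exact le_max_left _ _
    · rw [per_eq pN (b := 1) (by simpa using hn)]; exact le_max_right _ _
  have hz0 : Tendsto (fun j => (M j 0).z) l (𝓝 0) := by
    have := H.i.z
    rwa [H.cyc.z 0] at this
  have hC3 : 0 ≤ C1 + C2 * ((1 + C2) ^ 2 + (1 + C2) + 1) * (BF + BN + 2) := by positivity
  refine drift (z := fun j n => (M j n).z) (R := fun j => (R j).K) (θ := θ) hC3 H.t0 H.t1 H.z hz0
    (one_R H hC1 hR).1 hcy H.i.K ?_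
  filter_upwards [hR, hT, hF, H.z] with j r1 r2 r3 r4 n hx
  have hst : (M j (n + 1)).K = nt 1 d (G j n) (M j n) ^ 3 * n11 1 (G j n) (M j n) := by
    rw [H.st j n]; rfl
  rw [(one_n (G j n) (M j n)).1] at hst
  rw [hst]
  exact ofarp_aK (r4 n).1.le (r2 n).2.2 hC2 (by positivity) (r1 n).1 (r2 n).1
    (ofarp_sub (f := 0) (r3 n) (hN n) hx)

/-- The new `L` is `τ² (F.L - L - β n11)`, `n11 = F.K - K` bounded (`one_K`), `|β| ≤ C z`. -/
theorem one_L (H : Env l 1 d θ G M F N) (h : Hc l G M) :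
    UC l (fun j n => (M j n).L) (fun n => (N n).L) := by
  rcases eq_or_neBot l with hl | hl
  · intro ε _
    rw [hl]
    exact Filter.eventually_bot
  have pN : ∀ n, N (n + 2) = N n := H.cyc.pN
  have pF : ∀ n, F (n + 2) = F n := H.cyc.pF
  have hK1 := one_K H h
  have hcy := fun n => (one_cyc H h n).2.1
  obtain ⟨C1, hC1, R, hR⟩ := h
  obtain ⟨C2, hC2, hT⟩ := one_tb H
  obtain ⟨BF, hBF, -, hF⟩ := ofarp_bd (fun n => by rw [pF]) H.G.L
  obtain ⟨BF', hBF', -, hF'⟩ := ofarp_bd (fun n => by rw [pF]) H.G.K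
  obtain ⟨BN', hBN', -, hN'⟩ := ofarp_bd (fun n => by rw [pN]) hK1
  obtain ⟨BN, hBN, hN⟩ : ∃ B ≥ 0, ∀ n, |(N n).L| ≤ B := by
    refine ⟨max |(N 0).L| |(N 1).L|, le_trans (abs_nonneg _) (le_max_left _ _), fun n => ?_⟩
    rcases Nat.mod_two_eq_zero_or_one n with hn | hn
    · rw [per_eq pN (b := 0) (by simpa using hn)]; exact le_max_left _ _
    · rw [per_eq pN (b := 1) (by simpa using hn)]; exact le_max_right _ _
  have hz0 : Tendsto (fun j => (M j 0).z) l (𝓝 0) := by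
    have := H.i.z
    rwa [H.cyc.z 0] at this
  have hC3 : 0 ≤ C1 + C2 * (2 + C2) * (BF + BN + 2) +
      (1 + C2) ^ 2 * C2 * ((BF' + 1) + (BN' + 1)) := by positivity
  refine drift (z := fun j n => (M j n).z) (R := fun j => (R j).L) (θ := θ) hC3 H.t0 H.t1 H.z hz0
    (one_R H hC1 hR).2.1 hcy H.i.L ?_
  filter_upwards [hR, hT, hF, H.z, hF', hN'] with j r1 r2 r3 r4 r5 r6 n hx
  have hst : (M j (n + 1)).L = nt 1 d (G j n) (M j n) ^ 2 *
      (n12 1 (G j n) (M j n) - nbe 1 d (G j n) (M j n) * n11 1 (G j n) (M j n)) := by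
    rw [H.st j n]; rfl
  rw [(one_n (G j n) (M j n)).1, (one_n (G j n) (M j n)).2.1] at hst
  rw [hst]
  have hn11 : |(G j n).K - (M j n).K| ≤ (BF' + 1) + (BN' + 1) := by
    have := abs_sub (G j n).K (M j n).K
    have := r5 n
    have := r6 n
    linarith
  exact ofarp_aL (r4 n).1.le (r2 n).2.2 hC2 (by positivity) (by positivity) (r1 n).2.1 (r2 n).1
    (r2 n).2.1 (ofarp_sub (f := 0) (r3 n) (hN n) hx) hn11

/-- The new `Q` is `τ (F.Q - Q - 2 β n12 + β² n11)`. -/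
theorem one_Q (H : Env l 1 d θ G M F N) (h : Hc l G M) :
    UC l (fun j n => (M j n).Q) (fun n => (N n).Q) := by
  rcases eq_or_neBot l with hl | hl
  · intro ε _
    rw [hl]
    exact Filter.eventually_bot
  have pN : ∀ n, N (n + 2) = N n := H.cyc.pN
  have pF : ∀ n, F (n + 2) = F n := H.cyc.pF
  have hK1 := one_K H h
  have hL1 := one_L H h
  have hcy := fun n => (one_cyc H h n).2.2
  obtain ⟨C1, hC1, R, hR⟩ := h
  obtain ⟨C2, hC2, hT⟩ := one_tb H
  obtain ⟨BF, hBF, -, hF⟩ := ofarp_bd (fun n => by rw [pF]) H.G.Q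
  obtain ⟨BF', hBF', -, hF'⟩ := ofarp_bd (fun n => by rw [pF]) H.G.K
  obtain ⟨BF2, hBF2, -, hF2⟩ := ofarp_bd (fun n => by rw [pF]) H.G.L
  obtain ⟨BN', hBN', -, hN'⟩ := ofarp_bd (fun n => by rw [pN]) hK1
  obtain ⟨BN2, hBN2, -, hN2⟩ := ofarp_bd (fun n => by rw [pN]) hL1
  obtain ⟨BN, hBN, hN⟩ : ∃ B ≥ 0, ∀ n, |(N n).Q| ≤ B := by
    refine ⟨max |(N 0).Q| |(N 1).Q|, le_trans (abs_nonneg _) (le_max_left _ _), fun n => ?_⟩
    rcases Nat.mod_two_eq_zero_or_one n with hn | hn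
    · rw [per_eq pN (b := 0) (by simpa using hn)]; exact le_max_left _ _
    · rw [per_eq pN (b := 1) (by simpa using hn)]; exact le_max_right _ _
  have hz0 : Tendsto (fun j => (M j 0).z) l (𝓝 0) := by
    have := H.i.z
    rwa [H.cyc.z 0] at this
  have hC3 : 0 ≤ C1 + C2 * (BF + BN + 2) + 2 * (1 + C2) * C2 * ((BF2 + 1) + (BN2 + 1)) +
      (1 + C2) * C2 ^ 2 * ((BF' + 1) + (BN' + 1)) := by positivity
  refine drift (z := fun j n => (M j n).z) (R := fun j => (R j).Q) (θ := θ) hC3 H.t0 H.t1 H.z hz0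
    (one_R H hC1 hR).2.2 hcy H.i.Q ?_
  filter_upwards [hR, hT, hF, H.z, hF', hN', hF2, hN2] with j r1 r2 r3 r4 r5 r6 r7 r8 n hx
  have hst : (M j (n + 1)).Q = nt 1 d (G j n) (M j n) *
      (n22 1 (G j n) (M j n) - 2 * nbe 1 d (G j n) (M j n) * n12 1 (G j n) (M j n) +
        nbe 1 d (G j n) (M j n) ^ 2 * n11 1 (G j n) (M j n)) := by
    rw [H.st j n]; rfl
  rw [(one_n (G j n) (M j n)).1, (one_n (G j n) (M j n)).2.1,
    (one_n (G j n) (M j n)).2.2.1] at hst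
  rw [hst]
  have hn11 : |(G j n).K - (M j n).K| ≤ (BF' + 1) + (BN' + 1) := by
    have := abs_sub (G j n).K (M j n).K
    have := r5 n
    have := r6 n
    linarith
  have hn12 : |(G j n).L - (M j n).L| ≤ (BF2 + 1) + (BN2 + 1) := by
    have := abs_sub (G j n).L (M j n).L
    have := r7 n
    have := r8 n
    linarith
  exact ofarp_aQ (r4 n).1.le (r2 n).2.2 hC2 (by positivity) (by positivity) (by positivity)
    (r1 n).2.2 (r2 n).1 (r2 n).2.1 (ofarp_sub (f := 0) (r3 n) (hN n) hx) hn12 hn11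

end CJ
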