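import Pool.Agent.H.MP_1693ff_gtE.OFarK
import Pool.Agent.H.MP_1693ff_gtE.OFarP

/-!
# Runs near the limit cycle: all components
-/

namespace CJ

open Real Set Filter Topology CG CH
open CF hiding St

variable {J : Type*} {l : Filter J} {e d θ : ℝ} {G : J → ℕ → Np} {M : J → ℕ → Nv}
  {F : ℕ → Np} {N : ℕ → Nv}

/-- **Runs that start near the limit cycle stay near it.** -/
theorem far_all (H : Env l e d θ G M F N) (h : e = 1 → Hc l G M) : UN l M N := by
  rcases H.e1.lt_or_eq with he | he
  · exact ⟨env_z H, H.w, far_g H, far_b H, far_K he H, far_L he H, far_Q he H⟩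
  · subst he
    exact ⟨env_z H, H.w, far_g H, far_b H, one_K H (h rfl), one_L H (h rfl), one_Q H (h rfl)⟩

end CJ
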