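import Pool.Agent.H.MP_1693ff_gtE.ONvA

/-!
# Inequalities in normalised variables
-/

namespace CJ

open Real Set Filter Topology CG CH
open CF hiding St

/-- `Cd` in terms of the normalised variables: `W = w a`, `s = 1 - d (w - z g)`,
`k = d K / a³`, `s a - α = d g`, `nv_p`. -/
theorem cd_of_nv {e d c C : ℝ} (he : 1 ≤ e) (hd : 0 < d) (hc : 0 < c) {P : Pf} {G : Pt} {S : St}
    {T : Tt} (ha : 0 < S.a) (h1 : c * ((nv d S T).z + 1) < (nv d S T).w)
    (h2 : (nv d S T).w < (np P G S.a).w)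
    (h3 : c < 1 - d * ((nv d S T).w - (nv d S T).z * (nv d S T).g))
    (h4 : 1 - d * ((nv d S T).w - (nv d S T).z * (nv d S T).g) < c⁻¹)
    (h5 : 0 < (nv d S T).K) (h6 : 0 < S.v)
    (h7 : 0 < nm e d (np P G S.a) (nv d S T) *
      (1 - d * nz e d (np P G S.a) (nv d S T) * ngo e (np P G S.a) (nv d S T)))
    (h8 : d * |(nv d S T).g| < C) : Cd e d c C P S := by
  have hs : 1 - d * ((nv d S T).w - (nv d S T).z * (nv d S T).g) = S.s := by
    simp only [nv, St.W]
    field_simp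
    ring
  have hW0 : c * (1 + S.a) < S.W d := by
    have h : c * (S.a⁻¹ + 1) < S.W d / S.a := h1
    rw [lt_div_iff₀ ha] at h
    have e1 : c * (S.a⁻¹ + 1) * S.a = c * (1 + S.a) := by field_simp
    rwa [e1] at h
  have hW1 : S.W d < P.f S.a := by
    have h : S.W d / S.a < P.f S.a / S.a := h2
    exact (div_lt_div_iff_of_pos_right ha).1 h
  have hWp : 0 < S.W d := lt_trans (mul_pos hc (by linarith)) hW0
  rw [hs] at h3 h4
  refine ⟨hW0, hW1, h3, h4, ?_, h6, ?_, ?_⟩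
  · have h : 0 < S.k * S.a ^ 3 / d := h5
    have h9 : 0 < S.k * S.a ^ 3 := by
      have := mul_pos h hd
      rwa [div_mul_cancel₀ _ hd.ne'] at this
    exact pos_of_mul_pos_left h9 (by positivity)
  · rw [nv_p (G := G) (T := T) he hd ha hWp hW1]
    exact h7
  · have h : d * |(S.s * S.a - S.α) / d| < C := h8
    rw [abs_div, abs_of_pos hd, mul_div_cancel₀ _ hd.ne'] at h
    exact h

theorem pd_of_nv {d : ℝ} (hd : 0 < d) {S : St} {T : Tt} (ha : 0 < S.a)
    (h5 : 0 < (nv d S T).K) (h : (nv d S T).L ^ 2 < (nv d S T).K * (nv d S T).Q) : PD S T := by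
  have h5' : 0 < S.k * S.a ^ 3 / d := h5
  have h' : (T.ℓ * S.a ^ 2 / d) ^ 2 < (S.k * S.a ^ 3 / d) * (T.q * S.a / d) := h
  constructor
  · have h9 : 0 < S.k * S.a ^ 3 := by
      have := mul_pos h5' hd
      rwa [div_mul_cancel₀ _ hd.ne'] at this
    exact pos_of_mul_pos_left h9 (by positivity)
  · have e1 : (T.ℓ * S.a ^ 2 / d) ^ 2 = T.ℓ ^ 2 * (S.a ^ 4 / d ^ 2) := by field_simp
    have e2 : (S.k * S.a ^ 3 / d) * (T.q * S.a / d) = (S.k * T.q) * (S.a ^ 4 / d ^ 2) := by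
      field_simp
    rw [e1, e2] at h'
    exact lt_of_mul_lt_mul_right h' (by positivity)

end CJ
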