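import Pool.Agent.H.MP_1693ff_gtE.ONvA

/-!
# Chains in normalised variables
-/

namespace CJ

open Real Set Filter Topology CG CH
open CF hiding St

/-- The chain from the state after `2 N` steps. -/
theorem cS_add {e d : ℝ} (P Q : Pf) (S : St) (N n : ℕ) :
    cS e d P Q S (2 * N + n) = cS e d P Q (cS e d P Q S (2 * N)) n := by
  induction n with
  | zero => rfl
  | succ n ih =>
    have h1 : Even (2 * N + n) ↔ Even n := by simp [Nat.even_add]
    show hst e d (if Even (2 * N + n) then P else Q) (cS e d P Q S (2 * N + n)) =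
      hst e d (if Even n then P else Q) (cS e d P Q (cS e d P Q S (2 * N)) n)
    rw [ih]
    by_cases h2 : Even n
    · rw [if_pos h2, if_pos (h1.2 h2)]
    · rw [if_neg h2, if_neg (fun h3 => h2 (h1.1 h3))]

theorem cT_add {e d : ℝ} (P Q : Pf) (G G' : Pt) (S : St) (T : Tt) (N n : ℕ) :
    cT e d P Q G G' S T (2 * N + n) =
      cT e d P Q G G' (cS e d P Q S (2 * N)) (cT e d P Q G G' S T (2 * N)) n := by
  induction n with
  | zero => rfl
  | succ n ih =>
    have h1 : Even (2 * N + n) ↔ Even n := by simp [Nat.even_add]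
    show hst3 e d (if Even (2 * N + n) then P else Q) (if Even (2 * N + n) then G else G')
        (cS e d P Q S (2 * N + n)) (cT e d P Q G G' S T (2 * N + n)) =
      hst3 e d (if Even n then P else Q) (if Even n then G else G')
        (cS e d P Q (cS e d P Q S (2 * N)) n)
        (cT e d P Q G G' (cS e d P Q S (2 * N)) (cT e d P Q G G' S T (2 * N)) n)
    rw [ih, cS_add]
    by_cases h2 : Even n
    · rw [if_pos h2, if_pos h2, if_pos (h1.2 h2), if_pos (h1.2 h2)]
    · rw [if_neg h2, if_neg h2, if_neg (fun h3 => h2 (h1.1 h3)), if_neg (fun h3 => h2 (h1.1 h3))]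

/-- A chain in normalised variables is the run of `nst`, as long as the inequalities hold.
Induction on `n` with `nv_hst` (`W = w a`, `f = F.w a`, `nv_p`). -/
theorem far_chain {e d : ℝ} (he : 1 ≤ e) (hd : 0 < d) {P Q : Pf} {G G' : Pt} {S : St} {T : Tt}
    {Pn : ℕ → ℝ → Np}
    (hP : ∀ (n : ℕ) (a : ℝ), 0 < a →
      Pn n a⁻¹ = np (if Even n then P else Q) (if Even n then G else G') a)
    (ha : 0 < S.a)
    (h : ∀ n, 0 < (cN e d Pn (nv d S T) n).w ∧
      (cN e d Pn (nv d S T) n).w < (Pn n (cN e d Pn (nv d S T) n).z).w ∧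
      0 < nm e d (Pn n (cN e d Pn (nv d S T) n).z) (cN e d Pn (nv d S T) n) *
        (1 - d * nz e d (Pn n (cN e d Pn (nv d S T) n).z) (cN e d Pn (nv d S T) n) *
          ngo e (Pn n (cN e d Pn (nv d S T) n).z) (cN e d Pn (nv d S T) n))) (n : ℕ) :
    0 < (cS e d P Q S n).a ∧
      nv d (cS e d P Q S n) (cT e d P Q G G' S T n) = cN e d Pn (nv d S T) n := by
  induction n with
  | zero => exact ⟨ha, rfl⟩
  | succ n ih =>
    obtain ⟨ha', hn⟩ := ih
    have hh := h n
    rw [← hn] at hh
    have hz : (nv d (cS e d P Q S n) (cT e d P Q G G' S T n)).z = (cS e d P Q S n).a⁻¹ := rfl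
    rw [hz, hP n _ ha'] at hh
    obtain ⟨k1, k2, k3⟩ := hh
    have W0 : 0 < (cS e d P Q S n).W d := by
      have h1 : (nv d (cS e d P Q S n) (cT e d P Q G G' S T n)).w =
        (cS e d P Q S n).W d / (cS e d P Q S n).a := rfl
      rw [h1] at k1
      exact (div_pos_iff_of_pos_right ha').1 k1
    have W1 : (cS e d P Q S n).W d < (if Even n then P else Q).f (cS e d P Q S n).a := by
      have h1 : (cS e d P Q S n).W d / (cS e d P Q S n).a <
        (if Even n then P else Q).f (cS e d P Q S n).a / (cS e d P Q S n).a := k2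
      exact (div_lt_div_iff_of_pos_right ha').1 h1
    have p0 : 0 < 1 + d * opp1 e d (if Even n then P else Q) (cS e d P Q S n) := by
      rw [nv_p (G := if Even n then G else G') (T := cT e d P Q G G' S T n) he hd ha' W0 W1]
      exact k3
    have h2 := nv_hst (G := if Even n then G else G') (T := cT e d P Q G G' S T n) he hd ha' W0
      W1 p0
    refine ⟨?_, ?_⟩
    · show 0 < (cS e d P Q S n).a + d * opp e d (if Even n then P else Q) (cS e d P Q S n)
      have h3 : 0 ≤ opp e d (if Even n then P else Q) (cS e d P Q S n) := by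
        unfold opp
        apply Real.rpow_nonneg
        have h4 := Real.rpow_le_rpow W0.le W1.le (by linarith : (0 : ℝ) ≤ e)
        linarith
      have h5 := mul_nonneg hd.le h3
      linarith
    · show nv d (hst e d (if Even n then P else Q) (cS e d P Q S n))
          (hst3 e d (if Even n then P else Q) (if Even n then G else G') (cS e d P Q S n)
            (cT e d P Q G G' S T n)) =
        nst e d (Pn n (cN e d Pn (nv d S T) n).z) (cN e d Pn (nv d S T) n)
      rw [h2, ← hn, hz, hP n _ ha']

/-- The speed stays positive: `v' = v (1 + d opp1)`. -/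
theorem far_v {e d : ℝ} {P Q : Pf} {S : St} (hv : 0 < S.v)
    (h : ∀ n, 0 < 1 + d * opp1 e d (if Even n then P else Q) (cS e d P Q S n)) (n : ℕ) :
    0 < (cS e d P Q S n).v := by
  induction n with
  | zero => exact hv
  | succ n ih =>
    show 0 < (cS e d P Q S n).v * (1 + d * opp1 e d (if Even n then P else Q) (cS e d P Q S n))
    exact mul_pos ih (h n)

end CJ
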