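import Pool.Agent.H.MP_1693ff_gtE.OUCa
import Pool.Agent.H.MP_1693ff_gtE.OSt0

/-!
# Inequalities along runs near the limit cycle
-/

namespace CJ

open Real Set Filter Topology CG CH
open CF hiding St

variable {J : Type*} {l : Filter J} {e d θ : ℝ} {G : J → ℕ → Np} {M : J → ℕ → Nv}
  {F : ℕ → Np} {N : ℕ → Nv}

/-- From the limits along `PF l b` to all `n`. -/
theorem ofard_two {Q : J → ℕ → Prop} (h : ∀ b, ∀ᶠ p in PF l b, Q p.1 p.2) :
    ∀ᶠ j in l, ∀ n, Q j n := by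
  have h0 := pf_ev.1 (h 0)
  have h1 := pf_ev.1 (h 1)
  filter_upwards [h0, h1] with j k0 k1 n
  rcases Nat.mod_two_eq_zero_or_one n with hn | hn
  · exact k0 n (by simpa using hn)
  · exact k1 n (by simpa using hn)

/-- All quantities converge along `PF l b`, `b = 0, 1` (`uc_pf`; `z → 0`, `nm → nm* > 1`,
`nz → 0`, `ngo` converges), so the strict inequalities hold eventually; `pf_ev`. -/
theorem far_ineq (H : Env l e d θ G M F N) (U : UN l M N) {c C : ℝ}
    (h1 : ∀ n, c < (N n).w) (h2 : ∀ n, c < 1 - d * (N n).w) (h3 : ∀ n, 1 - d * (N n).w < c⁻¹)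
    (h4 : ∀ n, 0 < (N n).K) (h5 : ∀ n, d * |(N n).g| < C) : ∀ᶠ j in l, ∀ n,
      0 < (M j n).z ∧ 0 < (M j n).w ∧ c * ((M j n).z + 1) < (M j n).w ∧
      (M j n).w < (G j n).w ∧
      c < 1 - d * ((M j n).w - (M j n).z * (M j n).g) ∧
      1 - d * ((M j n).w - (M j n).z * (M j n).g) < c⁻¹ ∧ 0 < (M j n).K ∧
      0 < nm e d (G j n) (M j n) * (1 - d * nz e d (G j n) (M j n) * ngo e (G j n) (M j n)) ∧
      d * |(M j n).g| < C := by
  have pN : ∀ n, N (n + 2) = N n := H.cyc.pN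
  have pF : ∀ n, F (n + 2) = F n := H.cyc.pF
  have key : ∀ᶠ j in l, ∀ n, 0 < (M j n).w ∧ c * ((M j n).z + 1) < (M j n).w ∧
      (M j n).w < (G j n).w ∧
      c < 1 - d * ((M j n).w - (M j n).z * (M j n).g) ∧
      1 - d * ((M j n).w - (M j n).z * (M j n).g) < c⁻¹ ∧ 0 < (M j n).K ∧
      0 < nm e d (G j n) (M j n) * (1 - d * nz e d (G j n) (M j n) * ngo e (G j n) (M j n)) ∧
      d * |(M j n).g| < C := by
    apply ofard_two
    intro b
    have hz : Tendsto (fun p : J × ℕ => (M p.1 p.2).z) (PF l b) (𝓝 0) := by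
      have := uc_pf (fun n => by rw [pN]) U.z b
      rwa [H.cyc.z b] at this
    have hw : Tendsto (fun p : J × ℕ => (M p.1 p.2).w) (PF l b) (𝓝 (N b).w) :=
      uc_pf (fun n => by rw [pN]) U.w b
    have hg : Tendsto (fun p : J × ℕ => (M p.1 p.2).g) (PF l b) (𝓝 (N b).g) :=
      uc_pf (fun n => by rw [pN]) U.g b
    have hK : Tendsto (fun p : J × ℕ => (M p.1 p.2).K) (PF l b) (𝓝 (N b).K) :=
      uc_pf (fun n => by rw [pN]) U.K b
    have hFw : Tendsto (fun p : J × ℕ => (G p.1 p.2).w) (PF l b) (𝓝 (F b).w) :=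
      uc_pf (fun n => by rw [pF]) H.G.w b
    have hFg : Tendsto (fun p : J × ℕ => (G p.1 p.2).g) (PF l b) (𝓝 (F b).g) :=
      uc_pf (fun n => by rw [pF]) H.G.g b
    have w0 := H.cyc.w0 b
    have w1 := H.cyc.w1 b
    have hnm := lim_nm (d := d) H.e1 w0 w1 hw hFw
    have hnz := lim_nz H.e1 H.d0 w0 w1 hz hw hFw
    have hA := lim_A H.e1 w0 w1 hw hFw
    have hB := lim_B H.e1 w0 w1 hw hFw
    have hngo : Tendsto (fun p : J × ℕ => ngo e (G p.1 p.2) (M p.1 p.2)) (PF l b)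
        (𝓝 (ngo e (F b) (N b))) := by
      unfold ngo
      exact (hA.mul hFg).sub (hB.mul hg)
    have hnm1 := nm_pos H.e1 H.d0 w0 w1
    have e2 : ∀ᶠ p in PF l b, 0 < (M p.1 p.2).w := hw.eventually (lt_mem_nhds w0)
    have e3 : ∀ᶠ p in PF l b, c * ((M p.1 p.2).z + 1) < (M p.1 p.2).w := by
      have t : Tendsto (fun p : J × ℕ => (M p.1 p.2).w - c * ((M p.1 p.2).z + 1)) (PF l b)
          (𝓝 ((N b).w - c * (0 + 1))) := hw.sub ((hz.add_const 1).const_mul c)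
      have t0 : 0 < (N b).w - c * (0 + 1) := by have := h1 b; linarith
      filter_upwards [t.eventually (lt_mem_nhds t0)] with p hp
      linarith
    have e4 : ∀ᶠ p in PF l b, (M p.1 p.2).w < (G p.1 p.2).w := by
      have t := hFw.sub hw
      have t0 : 0 < (F b).w - (N b).w := by linarith
      filter_upwards [t.eventually (lt_mem_nhds t0)] with p hp
      linarith
    have e5t : Tendsto (fun p : J × ℕ => 1 - d * ((M p.1 p.2).w - (M p.1 p.2).z * (M p.1 p.2).g))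
        (PF l b) (𝓝 (1 - d * ((N b).w - 0 * (N b).g))) :=
      ((hw.sub (hz.mul hg)).const_mul d).const_sub 1
    have e5v : 1 - d * ((N b).w - 0 * (N b).g) = 1 - d * (N b).w := by ring
    rw [e5v] at e5t
    have e5 : ∀ᶠ p in PF l b, c < 1 - d * ((M p.1 p.2).w - (M p.1 p.2).z * (M p.1 p.2).g) :=
      e5t.eventually (lt_mem_nhds (h2 b))
    have e6 : ∀ᶠ p in PF l b, 1 - d * ((M p.1 p.2).w - (M p.1 p.2).z * (M p.1 p.2).g) < c⁻¹ :=
      e5t.eventually (gt_mem_nhds (h3 b))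
    have e7 : ∀ᶠ p in PF l b, 0 < (M p.1 p.2).K := hK.eventually (lt_mem_nhds (h4 b))
    have e8 : ∀ᶠ p in PF l b, 0 < nm e d (G p.1 p.2) (M p.1 p.2) *
        (1 - d * nz e d (G p.1 p.2) (M p.1 p.2) * ngo e (G p.1 p.2) (M p.1 p.2)) := by
      have t : Tendsto (fun p : J × ℕ => nm e d (G p.1 p.2) (M p.1 p.2) *
          (1 - d * nz e d (G p.1 p.2) (M p.1 p.2) * ngo e (G p.1 p.2) (M p.1 p.2))) (PF l b)
          (𝓝 (nm e d (F b) (N b) * (1 - d * 0 * ngo e (F b) (N b)))) :=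
        hnm.mul (((hnz.const_mul d).mul hngo).const_sub 1)
      have t0 : 0 < nm e d (F b) (N b) * (1 - d * 0 * ngo e (F b) (N b)) := by
        have : nm e d (F b) (N b) * (1 - d * 0 * ngo e (F b) (N b)) = nm e d (F b) (N b) := by ring
        rw [this]; linarith
      exact t.eventually (lt_mem_nhds t0)
    have e9 : ∀ᶠ p in PF l b, d * |(M p.1 p.2).g| < C := by
      have t : Tendsto (fun p : J × ℕ => d * |(M p.1 p.2).g|) (PF l b) (𝓝 (d * |(N b).g|)) :=
        hg.abs.const_mul d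
      exact t.eventually (gt_mem_nhds (h5 b))
    filter_upwards [e2, e3, e4, e5, e6, e7, e8, e9] with p p2 p3 p4 p5 p6 p7 p8 p9
    exact ⟨p2, p3, p4, p5, p6, p7, p8, p9⟩
  filter_upwards [key, H.z] with j hj hz n
  exact ⟨(hz n).1, hj n⟩

theorem far_ineq_pd (H : Env l e d θ G M F N) (U : UN l M N)
    (h : ∀ n, (N n).L ^ 2 < (N n).K * (N n).Q) :
    ∀ᶠ j in l, ∀ n, (M j n).L ^ 2 < (M j n).K * (M j n).Q := by
  have pN : ∀ n, N (n + 2) = N n := H.cyc.pN
  apply ofard_two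
  intro b
  have hK : Tendsto (fun p : J × ℕ => (M p.1 p.2).K) (PF l b) (𝓝 (N b).K) :=
    uc_pf (fun n => by rw [pN]) U.K b
  have hL : Tendsto (fun p : J × ℕ => (M p.1 p.2).L) (PF l b) (𝓝 (N b).L) :=
    uc_pf (fun n => by rw [pN]) U.L b
  have hQ : Tendsto (fun p : J × ℕ => (M p.1 p.2).Q) (PF l b) (𝓝 (N b).Q) :=
    uc_pf (fun n => by rw [pN]) U.Q b
  have t := (hK.mul hQ).sub (hL.pow 2)
  have t0 : 0 < (N b).K * (N b).Q - (N b).L ^ 2 := by have := h b; linarith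
  filter_upwards [t.eventually (lt_mem_nhds t0)] with p hp
  linarith

end CJ
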