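import Pool.Agent.H.MP_1693ff_gtE.OPeC

/-!
# Joint continuity of the normalised profile
-/

namespace CJ

open Real Set Filter Topology CG CH
open CF hiding St

variable {ι : Type} [TopologicalSpace ι]
variable {E : Type} [NormedAddCommGroup E] [InnerProductSpace ℝ E]

/-- Joint continuity of the normalised profile at `(i₀, x₀)`, `z = 0`: `(i, x, z) ↦ ax + z ω` tends
to `ax`; `JD.c0`, `JC.c1`, `JC.c2`. -/
theorem np_joint {Φ : ι → E → ℝ} {i₀ : ι} {ax : E} (j : JC i₀ ax 3 Φ) (x₀ : E × E × ℝ) :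
    TP (𝓝 (i₀, x₀) ×ˢ 𝓝 (0 : ℝ)) (fun q : (ι × (E × E × ℝ)) × ℝ =>
      NP (Φ q.1.1) ax q.1.2.1 q.1.2.2.1 q.2) (NP (Φ i₀) ax x₀.1 x₀.2.1 0) := by
  rw [← nhds_prod_eq]
  have e0 : ax = ax + (0 : ℝ) • x₀.1 := by rw [zero_smul, add_zero]
  have hv : Continuous fun q : (ι × (E × E × ℝ)) × ℝ => ax + q.2 • q.1.2.1 := by fun_prop
  have hi : Continuous fun q : (ι × (E × E × ℝ)) × ℝ => q.1.1 := by fun_prop
  have hω : Continuous fun q : (ι × (E × E × ℝ)) × ℝ => q.1.2.1 := by fun_prop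
  have hη : Continuous fun q : (ι × (E × E × ℝ)) × ℝ => q.1.2.2.1 := by fun_prop
  have k0 : ContinuousAt (fun p : ι × E => Φ p.1 p.2) (i₀, ax + (0 : ℝ) • x₀.1) := by
    rw [← e0]
    exact j.2.c0
  have k1 : ∀ x : E, ContinuousAt (fun q : ι × E × E => D1 (Φ q.1) q.2.1 q.2.2)
      (i₀, ax + (0 : ℝ) • x₀.1, x) := by
    intro x
    rw [← e0]
    exact JC.c1 (k := 2) j x
  have k2 : ∀ x y : E, ContinuousAt (fun q : ι × E × E × E => D2 (Φ q.1) q.2.1 q.2.2.1 q.2.2.2)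
      (i₀, ax + (0 : ℝ) • x₀.1, x, y) := by
    intro x y
    rw [← e0]
    exact JC.c2 (k := 1) j x y
  have m1 : ∀ g : (ι × (E × E × ℝ)) × ℝ → E, Continuous g →
      Tendsto (fun q : (ι × (E × E × ℝ)) × ℝ => D1 (Φ q.1.1) (ax + q.2 • q.1.2.1) (g q))
        (𝓝 ((i₀, x₀), (0 : ℝ))) (𝓝 (D1 (Φ i₀) (ax + (0 : ℝ) • x₀.1) (g ((i₀, x₀), 0)))) := by
    intro g hg
    exact ContinuousAt.comp (f := fun q : (ι × (E × E × ℝ)) × ℝ =>
      ((q.1.1, ax + q.2 • q.1.2.1, g q) : ι × E × E)) (x := ((i₀, x₀), (0 : ℝ)))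
      (k1 (g ((i₀, x₀), 0))) (hi.prodMk (hv.prodMk hg)).continuousAt
  have m2 : ∀ g h : (ι × (E × E × ℝ)) × ℝ → E, Continuous g → Continuous h →
      Tendsto (fun q : (ι × (E × E × ℝ)) × ℝ => D2 (Φ q.1.1) (ax + q.2 • q.1.2.1) (g q) (h q))
        (𝓝 ((i₀, x₀), (0 : ℝ))) (𝓝 (D2 (Φ i₀) (ax + (0 : ℝ) • x₀.1) (g ((i₀, x₀), 0))
          (h ((i₀, x₀), 0)))) := by
    intro g h hg hh
    exact ContinuousAt.comp (f := fun q : (ι × (E × E × ℝ)) × ℝ =>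
      ((q.1.1, ax + q.2 • q.1.2.1, g q, h q) : ι × E × E × E)) (x := ((i₀, x₀), (0 : ℝ)))
      (k2 (g ((i₀, x₀), 0)) (h ((i₀, x₀), 0)))
      (hi.prodMk (hv.prodMk (hg.prodMk hh))).continuousAt
  refine ⟨?_, m1 _ hω, m1 _ hη, m2 _ _ hω hω, (m2 _ _ hω hη).neg, m2 _ _ hη hη⟩
  exact ContinuousAt.comp (f := fun q : (ι × (E × E × ℝ)) × ℝ =>
    ((q.1.1, ax + q.2 • q.1.2.1) : ι × E)) (x := ((i₀, x₀), (0 : ℝ))) k0
    (hi.prodMk hv).continuousAt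

end CJ
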