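import Pool.Agent.H.MP_1693ff_gtE.OChC
import Pool.Agent.H.MP_1693ff_gtE.OCycA

/-!
# The start of the far region
-/

namespace CJ

open Real Set Filter Topology CG CH
open CF hiding St

variable {ι : Type} [TopologicalSpace ι]
variable {E : Type} [NormedAddCommGroup E] [InnerProductSpace ℝ E]

theorem ofarf_lim {P : Type*} [TopologicalSpace P] {p₀ : P} {u : ℕ → P → ℝ} {c : ℝ}
    (h1 : ∀ᶠ N in atTop, ContinuousAt (u N) p₀) (h2 : Tendsto (fun N => u N p₀) atTop (𝓝 c)) :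
    Tendsto (fun j : ℕ × P => u j.1 j.2) ((atTop : Filter ℕ).curry (𝓝 p₀)) (𝓝 c) := by
  rw [Metric.tendsto_nhds]
  intro ε hε
  rw [Filter.eventually_curry_iff]
  filter_upwards [h1, Metric.tendsto_nhds.1 h2 (ε / 2) (half_pos hε)] with N hN1 hN2
  filter_upwards [Metric.tendsto_nhds.1 hN1 (ε / 2) (half_pos hε)] with p hp
  have h3 := dist_triangle (u N p) (u N p₀) c
  linarith

theorem ofarf_state [FiniteDimensional ℝ E] {e d : ℝ} {ax : E} {A B : E → ℝ} {Φ Ψ : ι → E → ℝ}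
    {i₀ : ι} (F : Fml e d ax A B Φ Ψ i₀) {S : ι → E → ℝ → St} {T : ι → E → E → ℝ → Tt}
    (H : Stf d ax A S T i₀) {x₀ : E × E × ℝ} (hx : x₀ ∈ XX ax) :
    ∃ a v w : ℕ → ℝ, Tendsto a atTop atTop ∧ (∀ N, 1 ≤ N → 0 < a N) ∧ (∀ N, 0 < v N) ∧
      (∀ N, chE e d ax Φ Ψ S (2 * N) (i₀, x₀) = JE d A ax x₀.1 (a N) (v N)) ∧
      (∀ N, ctE e d ax Φ Ψ S T (2 * N) (i₀, x₀) = JT d A ax x₀.1 x₀.2.1 (a N) (w N)) := by
  obtain ⟨m, hm, h⟩ := chE_i0 F H
  have h' : ∀ N : ℕ, ∃ a v w : ℝ, m * ((2 * N : ℕ) : ℝ) ≤ a ∧ 0 < v ∧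
      chE e d ax Φ Ψ S (2 * N) (i₀, x₀) = JE d A ax x₀.1 a v ∧
      ctE e d ax Φ Ψ S T (2 * N) (i₀, x₀) = JT d A ax x₀.1 x₀.2.1 a w := by
    intro N
    obtain ⟨a, v, w, h1, h2, h3, h4⟩ := h x₀ hx (2 * N)
    rw [if_pos (even_two_mul N)] at h3 h4
    exact ⟨a, v, w, h1, h2, h3, h4⟩
  choose a v w h1 h2 h3 h4 using h'
  refine ⟨a, v, w, ?_, ?_, h2, h3, h4⟩
  · refine tendsto_atTop_mono h1 ?_
    refine Tendsto.const_mul_atTop hm ?_
    exact tendsto_natCast_atTop_atTop.comp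
      (Filter.tendsto_atTop_mono (fun N => (by omega : N ≤ 2 * N)) tendsto_id)
  · intro N hN
    refine lt_of_lt_of_le ?_ (h1 N)
    have : (0 : ℝ) < ((2 * N : ℕ) : ℝ) := by
      exact_mod_cast (by omega : 0 < 2 * N)
    positivity

theorem ofarf_comp {X Y : Type*} {l : Filter X} {l' : Filter Y} {f : X → Nv} {c : Nv} {g : Y → X}
    (h : TN l f c) (hg : Tendsto g l' l) : TN l' (fun y => f (g y)) c :=
  ⟨h.z.comp hg, h.w.comp hg, h.g.comp hg, h.b.comp hg, h.K.comp hg, h.L.comp hg, h.Q.comp hg⟩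

theorem ofarf_congr {X : Type*} {l : Filter X} {f f' : X → Nv} {c : Nv}
    (h : TN l f c) (hf : f =ᶠ[l] f') : TN l f' c :=
  ⟨h.z.congr' (hf.fun_comp Nv.z), h.w.congr' (hf.fun_comp Nv.w), h.g.congr' (hf.fun_comp Nv.g),
    h.b.congr' (hf.fun_comp Nv.b), h.K.congr' (hf.fun_comp Nv.K), h.L.congr' (hf.fun_comp Nv.L),
    h.Q.congr' (hf.fun_comp Nv.Q)⟩

/-- **The states after `2 N` steps in normalised variables tend to the limit cycle**, for the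
filter `curry atTop (𝓝 (i₀, x₀))` (first `N → ∞`, then `(i, x) → (i₀, x₀)`).  Let `ε > 0`.  At
`(i₀, x₀)` the state is `JE d A` with `a ≥ m (2 N)` (`chE_i0`, `Even (2 N)`), so `nv` of it is
`NS A ax ω₀ η₀ a⁻¹` (`nv_JE`), which is `ε/2`-close to `NS A ax ω₀ η₀ 0` for large `N`
(`tn_NS`).  For fixed `N` all components of `nv` are continuous at `(i₀, x₀)` (`chE_cont`,
`a > 0`). -/
theorem tn_start [FiniteDimensional ℝ E] {e d : ℝ} {ax : E} {A B : E → ℝ} {Φ Ψ : ι → E → ℝ}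
    {i₀ : ι} (F : Fml e d ax A B Φ Ψ i₀) {S : ι → E → ℝ → St} {T : ι → E → E → ℝ → Tt}
    (H : Stf d ax A S T i₀) {x₀ : E × E × ℝ} (hx : x₀ ∈ XX ax) :
    TN ((atTop : Filter ℕ).curry (𝓝 (i₀, x₀)))
      (fun j => nv d (chE e d ax Φ Ψ S (2 * j.1) j.2) (ctE e d ax Φ Ψ S T (2 * j.1) j.2))
      (NS A ax x₀.1 x₀.2.1 0) := by
  obtain ⟨a, v, w, ha, ha0, hv, hS, hT⟩ := ofarf_state F H hx
  have hd := F.bd.d0
  -- the limit at `(i₀, x₀)`
  have L : TN atTop (fun N : ℕ => nv d (chE e d ax Φ Ψ S (2 * N) (i₀, x₀))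
      (ctE e d ax Φ Ψ S T (2 * N) (i₀, x₀))) (NS A ax x₀.1 x₀.2.1 0) := by
    have h1 := ofarf_comp (tn_NS F.bd.hA F.bd.a1 x₀.1 x₀.2.1) (tendsto_inv_atTop_zero.comp ha)
    refine ofarf_congr h1 ?_
    filter_upwards [eventually_ge_atTop 1] with N hN
    have c : ContDiffAt ℝ 2 A (a N • ax + x₀.1) :=
      (F.bd.hA.c _ (ax_ne hx.1 _)).of_le (by norm_num)
    rw [hS, hT, nv_JE hd F.bd.hA.h x₀.2.1 (ha0 N hN) c]
    rfl
  -- continuity
  have C : ∀ N, CS (fun p => chE e d ax Φ Ψ S (2 * N) p) (i₀, x₀) ∧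
      CT (fun p => ctE e d ax Φ Ψ S T (2 * N) p) (i₀, x₀) := fun N => chE_cont F H hx (2 * N)
  have hne : ∀ N, 1 ≤ N → (chE e d ax Φ Ψ S (2 * N) (i₀, x₀)).a ≠ 0 := by
    intro N hN
    rw [hS N]
    exact (ha0 N hN).ne'
  refine ⟨?_, ?_, ?_, ?_, ?_, ?_, ?_⟩
  · refine ofarf_lim (u := fun N p => (nv d (chE e d ax Φ Ψ S (2 * N) p)
      (ctE e d ax Φ Ψ S T (2 * N) p)).z) ?_ L.z
    filter_upwards [eventually_ge_atTop 1] with N hN
    exact (C N).1.a.inv₀ (hne N hN)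
  · refine ofarf_lim (u := fun N p => (nv d (chE e d ax Φ Ψ S (2 * N) p)
      (ctE e d ax Φ Ψ S T (2 * N) p)).w) ?_ L.w
    filter_upwards [eventually_ge_atTop 1] with N hN
    exact (((C N).1.a.sub (C N).1.α).div_const d).div (C N).1.a (hne N hN)
  · refine ofarf_lim (u := fun N p => (nv d (chE e d ax Φ Ψ S (2 * N) p)
      (ctE e d ax Φ Ψ S T (2 * N) p)).g) ?_ L.g
    filter_upwards [eventually_ge_atTop 1] with N hN
    exact (((C N).1.s.mul (C N).1.a).sub (C N).1.α).div_const d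
  · refine ofarf_lim (u := fun N p => (nv d (chE e d ax Φ Ψ S (2 * N) p)
      (ctE e d ax Φ Ψ S T (2 * N) p)).b) ?_ L.b
    filter_upwards [eventually_ge_atTop 1] with N hN
    exact (C N).2.κ.div_const d
  · refine ofarf_lim (u := fun N p => (nv d (chE e d ax Φ Ψ S (2 * N) p)
      (ctE e d ax Φ Ψ S T (2 * N) p)).K) ?_ L.K
    filter_upwards [eventually_ge_atTop 1] with N hN
    exact ((C N).1.k.mul ((C N).1.a.pow 3)).div_const d
  · refine ofarf_lim (u := fun N p => (nv d (chE e d ax Φ Ψ S (2 * N) p)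
      (ctE e d ax Φ Ψ S T (2 * N) p)).L) ?_ L.L
    filter_upwards [eventually_ge_atTop 1] with N hN
    exact ((C N).2.ℓ.mul ((C N).1.a.pow 2)).div_const d
  · refine ofarf_lim (u := fun N p => (nv d (chE e d ax Φ Ψ S (2 * N) p)
      (ctE e d ax Φ Ψ S T (2 * N) p)).Q) ?_ L.Q
    filter_upwards [eventually_ge_atTop 1] with N hN
    exact ((C N).2.q.mul (C N).1.a).div_const d

/-- Positivity of `a` (hence of `z`) and `v` at the start, eventually along the same filter. -/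
theorem tn_pos [FiniteDimensional ℝ E] {e d : ℝ} {ax : E} {A B : E → ℝ} {Φ Ψ : ι → E → ℝ}
    {i₀ : ι} (F : Fml e d ax A B Φ Ψ i₀) {S : ι → E → ℝ → St} {T : ι → E → E → ℝ → Tt}
    (H : Stf d ax A S T i₀) {x₀ : E × E × ℝ} (hx : x₀ ∈ XX ax) :
    ∀ᶠ j in (atTop : Filter ℕ).curry (𝓝 (i₀, x₀)),
      0 < (chE e d ax Φ Ψ S (2 * j.1) j.2).a ∧ 0 < (chE e d ax Φ Ψ S (2 * j.1) j.2).v := by
  obtain ⟨a, v, w, ha, ha0, hv, hS, hT⟩ := ofarf_state F H hx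
  rw [Filter.eventually_curry_iff]
  filter_upwards [eventually_ge_atTop 1] with N hN
  obtain ⟨C, -⟩ := chE_cont F H hx (2 * N)
  have h1 : 0 < (chE e d ax Φ Ψ S (2 * N) (i₀, x₀)).a := by
    rw [hS N]
    exact ha0 N hN
  have h2 : 0 < (chE e d ax Φ Ψ S (2 * N) (i₀, x₀)).v := by
    rw [hS N]
    exact hv N
  exact (C.a.eventually (eventually_gt_nhds h1)).and (C.v.eventually (eventually_gt_nhds h2))

end CJ
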