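import Pool.Agent.H.MP_1693ff_gtE.OSt0

/-!
# Weights
-/

namespace CJ

open Real Set Filter Topology CG CH
open CF hiding St

variable {e d : ℝ}

/-- The opposite value is positive. -/
theorem ostv_pos (he : 1 ≤ e) {f w : ℝ} (w0 : 0 < w) (w1 : w < f) :
    0 < (f ^ e - w ^ e) ^ e⁻¹ := by
  have h : w ^ e < f ^ e := Real.rpow_lt_rpow w0.le w1 (by linarith)
  exact Real.rpow_pos_of_pos (by linarith) _

/-- `(w/o)^(e-1) (o/μ)^(e-1) = w^(e-1) / μ^(e-1)`. -/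
theorem ostv_mul {w o μ : ℝ} (w0 : 0 < w) (o0 : 0 < o) (m0 : 0 < μ) :
    (w / o) ^ (e - 1) * (o / μ) ^ (e - 1) = w ^ (e - 1) / μ ^ (e - 1) := by
  rw [← Real.mul_rpow (div_pos w0 o0).le (div_pos o0 m0).le, ← Real.div_rpow w0.le m0.le]
  congr 1
  field_simp

/-- With the weights `γ = w^{e-1}` the half step is a contraction on the limit cycle: with
`o = no`, `μ = nm`, `w' = o/μ`:
`(w/o)^{e-1}/μ² · w'^{e-1} = μ^{-(e+1)} w^{e-1} < w^{e-1}`. -/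
theorem w_weight (he : 1 ≤ e) (hd : 0 < d) {F : Np} {N : Nv} (w0 : 0 < N.w) (w1 : N.w < F.w) :
    (N.w / (F.w ^ e - N.w ^ e) ^ e⁻¹) ^ (e - 1) / (1 + d * (F.w ^ e - N.w ^ e) ^ e⁻¹) ^ 2 *
      (nst e d F N).w ^ (e - 1) < N.w ^ (e - 1) := by
  have ho := ostv_pos he w0 w1
  have h1 : (nst e d F N).w = (F.w ^ e - N.w ^ e) ^ e⁻¹ / (1 + d * (F.w ^ e - N.w ^ e) ^ e⁻¹) :=
    rfl
  rw [h1]
  generalize (F.w ^ e - N.w ^ e) ^ e⁻¹ = o at ho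
  have hdo : 0 < d * o := mul_pos hd ho
  have hm : (1 : ℝ) < 1 + d * o := by linarith
  have hm0 : (0 : ℝ) < 1 + d * o := by linarith
  have key := ostv_mul (e := e) w0 ho hm0
  have hA : 0 < N.w ^ (e - 1) := Real.rpow_pos_of_pos w0 _
  have hM : 1 ≤ (1 + d * o) ^ (e - 1) := Real.one_le_rpow hm.le (by linarith)
  rw [div_mul_eq_mul_div, key, div_div]
  rw [div_lt_iff₀ (by positivity)]
  have h2 : (1 : ℝ) < (1 + d * o) ^ 2 := by nlinarith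
  have h3 : 1 < (1 + d * o) ^ (e - 1) * (1 + d * o) ^ 2 := by nlinarith
  nlinarith

/-- With the weights `γ = w^{e-1}`: `kg · w'^{e-1} = μ^{-e} w^{e-1} < w^{e-1}`, `w' = o/μ`. -/
theorem kg_weight (he : 1 ≤ e) (hd : 0 < d) {F : Np} {N : Nv} (w0 : 0 < N.w) (w1 : N.w < F.w) :
    0 ≤ kg e d F N ∧ kg e d F N * (nst e d F N).w ^ (e - 1) < N.w ^ (e - 1) := by
  have ho := ostv_pos he w0 w1
  have h1 : (nst e d F N).w = (F.w ^ e - N.w ^ e) ^ e⁻¹ / (1 + d * (F.w ^ e - N.w ^ e) ^ e⁻¹) :=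
    rfl
  have h2 : kg e d F N = (1 + d * (F.w ^ e - N.w ^ e) ^ e⁻¹)⁻¹ *
      (N.w / (F.w ^ e - N.w ^ e) ^ e⁻¹) ^ (e - 1) := rfl
  rw [h1, h2]
  generalize (F.w ^ e - N.w ^ e) ^ e⁻¹ = o at ho
  have hdo : 0 < d * o := mul_pos hd ho
  have hm : (1 : ℝ) < 1 + d * o := by linarith
  have hm0 : (0 : ℝ) < 1 + d * o := by linarith
  refine ⟨mul_nonneg (inv_nonneg.mpr hm0.le)
    (Real.rpow_nonneg (div_nonneg w0.le ho.le) _), ?_⟩
  have key := ostv_mul (e := e) w0 ho hm0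
  have hA : 0 < N.w ^ (e - 1) := Real.rpow_pos_of_pos w0 _
  have hM : 1 ≤ (1 + d * o) ^ (e - 1) := Real.one_le_rpow hm.le (by linarith)
  rw [mul_assoc, key, inv_mul_eq_div, div_div]
  rw [div_lt_iff₀ (by positivity)]
  have h3 : 1 < (1 + d * o) ^ (e - 1) * (1 + d * o) := by nlinarith
  nlinarith

/-- With the weights `γ = w^{e-1}`: `kk · w'^{e-1} = μ^{-(e-1)} w^{e-1} < w^{e-1}`,
`w' = o/μ`. -/
theorem kk_weight (he : 1 < e) (hd : 0 < d) {F : Np} {N : Nv} (w0 : 0 < N.w) (w1 : N.w < F.w) :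
    0 ≤ kk e F N ∧ kk e F N * (nst e d F N).w ^ (e - 1) < N.w ^ (e - 1) := by
  have ho := ostv_pos he.le w0 w1
  have h1 : (nst e d F N).w = (F.w ^ e - N.w ^ e) ^ e⁻¹ / (1 + d * (F.w ^ e - N.w ^ e) ^ e⁻¹) :=
    rfl
  have h2 : kk e F N = (N.w / (F.w ^ e - N.w ^ e) ^ e⁻¹) ^ (e - 1) := rfl
  rw [h1, h2]
  generalize (F.w ^ e - N.w ^ e) ^ e⁻¹ = o at ho
  have hdo : 0 < d * o := mul_pos hd ho
  have hm : (1 : ℝ) < 1 + d * o := by linarith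
  have hm0 : (0 : ℝ) < 1 + d * o := by linarith
  refine ⟨Real.rpow_nonneg (div_nonneg w0.le ho.le) _, ?_⟩
  have key := ostv_mul (e := e) w0 ho hm0
  have hA : 0 < N.w ^ (e - 1) := Real.rpow_pos_of_pos w0 _
  have hM : 1 < (1 + d * o) ^ (e - 1) := Real.one_lt_rpow hm (by linarith)
  rw [key, div_lt_iff₀ (by positivity)]
  nlinarith

end CJ
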