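import Pool.Agent.H.MP_1693ff_gtE.OUCa

/-!
# Contraction, uniformly in the number of the step
-/

namespace CJ

open Real Set Filter Topology CG CH
open CF hiding St

variable {J : Type*} {l : Filter J}

/-- **Contraction.**  Weights `γ n ∈ [g₀, g₁]`, `0 < g₀`.  For `ε > 0` put `ε₁ = min ε ρ`; for
`j` eventually `|x j 0 - c 0| ≤ g₀ ε₁ / g₁` and `hs` holds with `(1 - lam) g₀ ε₁`; by induction
`γ n |x j n - c n| ≤ g₀ ε₁`, hence `|x j n - c n| ≤ ε₁`. -/
theorem dyn {x : J → ℕ → ℝ} {c γ : ℕ → ℝ} {lam ρ g₀ g₁ : ℝ} (hl0 : 0 ≤ lam) (hl : lam < 1)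
    (hρ : 0 < ρ) (hg0 : 0 < g₀) (hγ0 : ∀ n, g₀ ≤ γ n) (hγ1 : ∀ n, γ n ≤ g₁)
    (h0 : Tendsto (fun j => x j 0) l (𝓝 (c 0)))
    (hs : ∀ ε > 0, ∀ᶠ j in l, ∀ n, |x j n - c n| ≤ ρ →
      γ (n + 1) * |x j (n + 1) - c (n + 1)| ≤ lam * (γ n * |x j n - c n|) + ε) : UC l x c := by
  intro ε hε
  set ε₁ := min ε ρ with hε₁
  have hε₁0 : 0 < ε₁ := lt_min hε hρ
  have hg1 : 0 < g₁ := lt_of_lt_of_le hg0 ((hγ0 0).trans (hγ1 0))
  have hA : ∀ᶠ j in l, |x j 0 - c 0| ≤ g₀ * ε₁ / g₁ := by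
    have hpos : 0 < g₀ * ε₁ / g₁ := by positivity
    have h1 := (Metric.tendsto_nhds.1 h0) _ hpos
    filter_upwards [h1] with j hj
    rw [Real.dist_eq] at hj
    exact hj.le
  have hB := hs ((1 - lam) * (g₀ * ε₁)) (mul_pos (sub_pos.2 hl) (mul_pos hg0 hε₁0))
  filter_upwards [hA, hB] with j hj0 hjs n
  have key : ∀ n, γ n * |x j n - c n| ≤ g₀ * ε₁ := by
    intro n
    induction n with
    | zero =>
      calc γ 0 * |x j 0 - c 0| ≤ g₁ * (g₀ * ε₁ / g₁) :=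
            mul_le_mul (hγ1 0) hj0 (abs_nonneg _) hg1.le
        _ = g₀ * ε₁ := by field_simp
    | succ n ih =>
      have h1 : |x j n - c n| ≤ ε₁ := by
        have h2 : g₀ * |x j n - c n| ≤ g₀ * ε₁ :=
          (mul_le_mul_of_nonneg_right (hγ0 n) (abs_nonneg _)).trans ih
        exact le_of_mul_le_mul_left h2 hg0
      have h3 := hjs n (h1.trans (min_le_right _ _))
      have h4 : lam * (γ n * |x j n - c n|) ≤ lam * (g₀ * ε₁) :=
        mul_le_mul_of_nonneg_left ih hl0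
      linarith
  have h2 : g₀ * |x j n - c n| ≤ g₀ * ε₁ :=
    (mul_le_mul_of_nonneg_right (hγ0 n) (abs_nonneg _)).trans (key n)
  exact (le_of_mul_le_mul_left h2 hg0).trans (min_le_left _ _)

/-- The form used for `g, b, K, L, Q`: `c, κ, γ` are 2-periodic, `γ > 0`, `κ ≥ 0`,
`κ n γ (n+1) < γ n`.  Let `lam < 1` with `κ n γ (n+1) ≤ lam γ n` for `n = 0, 1` (hence all `n`),
`g₀`, `g₁` the minimum and maximum of `γ 0, γ 1`; `dyn` with `ρ = 1`: for given `ε`, by `hs`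
(`b = 0, 1`, `pf_ev_inf`) eventually in `j`, for all `n` with `|x j n - c n| ≤ 1`:
`|x j (n+1) - c (n+1)| ≤ κ n |x j n - c n| + ε / g₁`. -/
theorem dyn2 {x : J → ℕ → ℝ} {c κ γ : ℕ → ℝ} (pc : ∀ n, c (n + 2) = c n)
    (pκ : ∀ n, κ (n + 2) = κ n) (pγ : ∀ n, γ (n + 2) = γ n) (hγ : ∀ n, 0 < γ n)
    (hκ : ∀ n, 0 ≤ κ n) (hl : ∀ n, κ n * γ (n + 1) < γ n)
    (h0 : Tendsto (fun j => x j 0) l (𝓝 (c 0)))
    (hs : ∀ b, Tendsto (fun p : J × ℕ => x p.1 (p.2 + 1) - c (p.2 + 1) +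
      κ p.2 * (x p.1 p.2 - c p.2)) (PF l b ⊓ 𝓟 {p | |x p.1 p.2 - c p.2| ≤ 1}) (𝓝 0)) :
    UC l x c := by
  have hcase : ∀ n : ℕ, n % 2 = 0 % 2 ∨ n % 2 = 1 % 2 := fun n => by omega
  have hγ1pos := hγ 1
  have hγ0pos := hγ 0
  have hg20 : γ 2 = γ 0 := pγ 0
  set lam : ℝ := max (κ 0 * γ 1 / γ 0) (κ 1 * γ 0 / γ 1) with hlam
  have hl0 : 0 ≤ lam :=
    le_max_of_le_left (div_nonneg (mul_nonneg (hκ 0) hγ1pos.le) hγ0pos.le)
  have hl1 : lam < 1 := by
    refine max_lt ?_ ?_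
    · rw [div_lt_one hγ0pos]
      exact hl 0
    · rw [div_lt_one hγ1pos]
      have := hl 1
      rw [show (1 + 1 : ℕ) = 2 from rfl, hg20] at this
      exact this
  have hlam' : ∀ n, γ (n + 1) * κ n ≤ lam * γ n := by
    intro n
    rcases hcase n with h | h
    · have e1 : κ n = κ 0 := per_eq pκ h
      have e2 : γ n = γ 0 := per_eq pγ h
      have e3 : γ (n + 1) = γ 1 := per_eq pγ (by omega)
      rw [e1, e2, e3]
      have h1 : κ 0 * γ 1 / γ 0 ≤ lam := le_max_left _ _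
      rw [div_le_iff₀ hγ0pos] at h1
      linarith
    · have e1 : κ n = κ 1 := per_eq pκ h
      have e2 : γ n = γ 1 := per_eq pγ h
      have e3 : γ (n + 1) = γ 0 := per_eq pγ (by omega)
      rw [e1, e2, e3]
      have h1 : κ 1 * γ 0 / γ 1 ≤ lam := le_max_right _ _
      rw [div_le_iff₀ hγ1pos] at h1
      linarith
  have hγm : ∀ n, γ n = γ 0 ∨ γ n = γ 1 := by
    intro n
    rcases hcase n with h | h
    · exact Or.inl (per_eq pγ h)
    · exact Or.inr (per_eq pγ h)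
  have hg1 : 0 < max (γ 0) (γ 1) := lt_max_of_lt_left hγ0pos
  refine dyn (γ := γ) (lam := lam) (ρ := 1) (g₀ := min (γ 0) (γ 1)) (g₁ := max (γ 0) (γ 1))
    hl0 hl1 one_pos (lt_min hγ0pos hγ1pos) ?_ ?_ h0 ?_
  · intro n
    rcases hγm n with h | h
    · rw [h]; exact min_le_left _ _
    · rw [h]; exact min_le_right _ _
  · intro n
    rcases hγm n with h | h
    · rw [h]; exact le_max_left _ _
    · rw [h]; exact le_max_right _ _
  · intro ε hε
    have hε' : 0 < ε / max (γ 0) (γ 1) := div_pos hε hg1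
    have hb : ∀ b : ℕ, ∀ᶠ j in l, ∀ n, n % 2 = b % 2 → |x j n - c n| ≤ 1 →
        |x j (n + 1) - c (n + 1) + κ n * (x j n - c n)| ≤ ε / max (γ 0) (γ 1) := by
      intro b
      have h1 := (Metric.tendsto_nhds.1 (hs b)) _ hε'
      have h2 := (pf_ev_inf (R := fun p : J × ℕ => |x p.1 p.2 - c p.2| ≤ 1)).1 h1
      filter_upwards [h2] with j hj n hn hR
      have h3 := hj n hn hR
      rw [Real.dist_eq, sub_zero] at h3
      exact h3.le
    filter_upwards [hb 0, hb 1] with j hj0 hj1 n hn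
    have h1 : |x j (n + 1) - c (n + 1) + κ n * (x j n - c n)| ≤ ε / max (γ 0) (γ 1) := by
      rcases hcase n with h | h
      · exact hj0 n h hn
      · exact hj1 n h hn
    have h2 : |x j (n + 1) - c (n + 1)| ≤ κ n * |x j n - c n| + ε / max (γ 0) (γ 1) := by
      have h3 : x j (n + 1) - c (n + 1) =
          (x j (n + 1) - c (n + 1) + κ n * (x j n - c n)) - κ n * (x j n - c n) := by ring
      calc |x j (n + 1) - c (n + 1)|
          = |(x j (n + 1) - c (n + 1) + κ n * (x j n - c n)) - κ n * (x j n - c n)| := by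
            rw [← h3]
        _ ≤ |x j (n + 1) - c (n + 1) + κ n * (x j n - c n)| + |κ n * (x j n - c n)| :=
            abs_sub _ _
        _ ≤ κ n * |x j n - c n| + ε / max (γ 0) (γ 1) := by
            rw [abs_mul, abs_of_nonneg (hκ n)]
            linarith
    have h4 : γ (n + 1) * (ε / max (γ 0) (γ 1)) ≤ ε := by
      have h5 : γ (n + 1) ≤ max (γ 0) (γ 1) := by
        rcases hγm (n + 1) with h | h
        · rw [h]; exact le_max_left _ _
        · rw [h]; exact le_max_right _ _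
      calc γ (n + 1) * (ε / max (γ 0) (γ 1)) ≤ max (γ 0) (γ 1) * (ε / max (γ 0) (γ 1)) :=
            mul_le_mul_of_nonneg_right h5 hε'.le
        _ = ε := by field_simp
    calc γ (n + 1) * |x j (n + 1) - c (n + 1)|
        ≤ γ (n + 1) * (κ n * |x j n - c n| + ε / max (γ 0) (γ 1)) :=
          mul_le_mul_of_nonneg_left h2 (hγ (n + 1)).le
      _ = γ (n + 1) * κ n * |x j n - c n| + γ (n + 1) * (ε / max (γ 0) (γ 1)) := by ring
      _ ≤ lam * γ n * |x j n - c n| + ε :=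
          add_le_add (mul_le_mul_of_nonneg_right (hlam' n) (abs_nonneg _)) h4
      _ = lam * (γ n * |x j n - c n|) + ε := by ring

end CJ
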