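import Pool.Agent.H.MP_1693ff_gtE.OStg
import Pool.Agent.H.MP_1693ff_gtE.OStV
import Pool.Agent.H.MP_1693ff_gtE.OUCb

/-!
# Runs near the limit cycle: `g` and `b`
-/

namespace CJ

open Real Set Filter Topology CG CH
open CF hiding St

variable {J : Type*} {l : Filter J} {e d θ : ℝ} {G : J → ℕ → Np} {M : J → ℕ → Nv}
  {F : ℕ → Np} {N : ℕ → Nv}

/-- `z → 0` uniformly: `0 < z_n ≤ z_0` and `(N 0).z = 0`. -/
theorem env_z (H : Env l e d θ G M F N) : UC l (fun j n => (M j n).z) (fun n => (N n).z) := by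
  intro ε hε
  have h0 : Tendsto (fun j => (M j 0).z) l (𝓝 0) := by
    have h := H.i.z
    rw [H.cyc.z 0] at h
    exact h
  have h1 := (Metric.tendsto_nhds.1 h0) ε hε
  filter_upwards [h1, H.z] with j hj hz n
  rw [Real.dist_eq, sub_zero] at hj
  have hle : ∀ n, (M j n).z ≤ (M j 0).z := by
    intro n
    induction n with
    | zero => exact le_rfl
    | succ n ih =>
      have h2 := (hz n).2
      have h3 := (hz n).1
      have h4 : θ * (M j n).z ≤ 1 * (M j n).z := mul_le_mul_of_nonneg_right H.t1.le h3.le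
      linarith
  show |(M j n).z - (N n).z| ≤ ε
  rw [H.cyc.z n, sub_zero, abs_of_pos (hz n).1]
  have h5 := le_abs_self (M j 0).z
  linarith [hle n]

theorem ofarg_kg (H : Env l e d θ G M F N) (n : ℕ) :
    0 ≤ kg e d (F n) (N n) ∧
      kg e d (F n) (N n) * (N (n + 1)).w ^ (e - 1) < (N n).w ^ (e - 1) := by
  have h := kg_weight H.e1 H.d0 (H.cyc.w0 n) (H.cyc.w1 n)
  rw [← H.cyc.st n] at h
  exact h

/-- `dyn2` with `γ n = (N n).w^{e-1}`, `κ n = kg e d (F n) (N n)` (`kg_weight`, `cyc.st`),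
`stepg` along the filters `PF l b ⊓ 𝓟 _` (`uc_pf`, `per_eq` to replace `F p.2`, `N p.2` by
`F b`, `N b`: `Tendsto.congr'`). -/
theorem far_g (H : Env l e d θ G M F N) : UC l (fun j n => (M j n).g) (fun n => (N n).g) := by
  refine dyn2 (γ := fun n => (N n).w ^ (e - 1)) (κ := fun n => kg e d (F n) (N n))
    ?_ ?_ ?_ ?_ ?_ ?_ H.i.g ?_
  · intro n; show (N (n + 2)).g = (N n).g; rw [H.cyc.pN n]
  · intro n
    show kg e d (F (n + 2)) (N (n + 2)) = kg e d (F n) (N n)
    rw [H.cyc.pN n, H.cyc.pF n]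
  · intro n; show (N (n + 2)).w ^ (e - 1) = (N n).w ^ (e - 1); rw [H.cyc.pN n]
  · intro n; exact Real.rpow_pos_of_pos (H.cyc.w0 n) _
  · intro n; exact (ofarg_kg H n).1
  · intro n; exact (ofarg_kg H n).2
  · intro b
    have hz : Tendsto (fun p : J × ℕ => (M p.1 p.2).z) (PF l b) (𝓝 0) := by
      have h := uc_pf (c := fun n => (N n).z) (fun n => by show (N (n + 2)).z = _; rw [H.cyc.pN n])
        (env_z H) b
      have hb : (N b).z = 0 := H.cyc.z b
      rw [hb] at h
      exact h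
    have hw := uc_pf (c := fun n => (N n).w) (fun n => by show (N (n + 2)).w = _; rw [H.cyc.pN n])
        H.w b
    have hFw := uc_pf (c := fun n => (F n).w) (fun n => by show (F (n + 2)).w = _; rw [H.cyc.pF n])
        H.G.w b
    have hFg := uc_pf (c := fun n => (F n).g) (fun n => by show (F (n + 2)).g = _; rw [H.cyc.pF n])
        H.G.g b
    have h1 : ∀ᶠ p : J × ℕ in PF l b ⊓ 𝓟 {p | |(M p.1 p.2).g - (N p.2).g| ≤ 1},
        |(M p.1 p.2).g - (N b).g| ≤ 1 := by
      refine (pf_ev_inf (R := fun p : J × ℕ => |(M p.1 p.2).g - (N p.2).g| ≤ 1)).2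
        (Eventually.of_forall fun j n hn hR => ?_)
      rw [← per_eq H.cyc.pN hn]
      exact hR
    have h := stepg (G := fun p : J × ℕ => G p.1 p.2) (M := fun p : J × ℕ => M p.1 p.2)
      (F := F b) (N := N b) H.e1 H.d0 (H.cyc.z b) (H.cyc.w0 b) (H.cyc.w1 b)
      (hz.mono_left inf_le_left) (hw.mono_left inf_le_left) (hFw.mono_left inf_le_left)
      (hFg.mono_left inf_le_left) h1
    refine h.congr' ?_
    refine (pf_ev_inf (R := fun p : J × ℕ => |(M p.1 p.2).g - (N p.2).g| ≤ 1)).2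
        (Eventually.of_forall fun j n hn hR => ?_)
    show (nst e d (G j n) (M j n)).g - (nst e d (F b) (N b)).g +
      kg e d (F b) (N b) * ((M j n).g - (N b).g) =
      (M j (n + 1)).g - (N (n + 1)).g + kg e d (F n) (N n) * ((M j n).g - (N n).g)
    rw [H.st j n, H.cyc.st n, per_eq H.cyc.pN hn, per_eq H.cyc.pF hn]

/-- The same with `stepb`. -/
theorem far_b (H : Env l e d θ G M F N) : UC l (fun j n => (M j n).b) (fun n => (N n).b) := by
  refine dyn2 (γ := fun n => (N n).w ^ (e - 1)) (κ := fun n => kg e d (F n) (N n))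
    ?_ ?_ ?_ ?_ ?_ ?_ H.i.b ?_
  · intro n; show (N (n + 2)).b = (N n).b; rw [H.cyc.pN n]
  · intro n
    show kg e d (F (n + 2)) (N (n + 2)) = kg e d (F n) (N n)
    rw [H.cyc.pN n, H.cyc.pF n]
  · intro n; show (N (n + 2)).w ^ (e - 1) = (N n).w ^ (e - 1); rw [H.cyc.pN n]
  · intro n; exact Real.rpow_pos_of_pos (H.cyc.w0 n) _
  · intro n; exact (ofarg_kg H n).1
  · intro n; exact (ofarg_kg H n).2
  · intro b
    have hz : Tendsto (fun p : J × ℕ => (M p.1 p.2).z) (PF l b) (𝓝 0) := by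
      have h := uc_pf (c := fun n => (N n).z) (fun n => by show (N (n + 2)).z = _; rw [H.cyc.pN n])
        (env_z H) b
      have hb : (N b).z = 0 := H.cyc.z b
      rw [hb] at h
      exact h
    have hw := uc_pf (c := fun n => (N n).w) (fun n => by show (N (n + 2)).w = _; rw [H.cyc.pN n])
        H.w b
    have hg := uc_pf (c := fun n => (N n).g) (fun n => by show (N (n + 2)).g = _; rw [H.cyc.pN n])
        (far_g H) b
    have hFw := uc_pf (c := fun n => (F n).w) (fun n => by show (F (n + 2)).w = _; rw [H.cyc.pF n])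
        H.G.w b
    have hFg := uc_pf (c := fun n => (F n).g) (fun n => by show (F (n + 2)).g = _; rw [H.cyc.pF n])
        H.G.g b
    have hFb := uc_pf (c := fun n => (F n).b) (fun n => by show (F (n + 2)).b = _; rw [H.cyc.pF n])
        H.G.b b
    have h1 : ∀ᶠ p : J × ℕ in PF l b ⊓ 𝓟 {p | |(M p.1 p.2).b - (N p.2).b| ≤ 1},
        |(M p.1 p.2).b - (N b).b| ≤ 1 := by
      refine (pf_ev_inf (R := fun p : J × ℕ => |(M p.1 p.2).b - (N p.2).b| ≤ 1)).2
        (Eventually.of_forall fun j n hn hR => ?_)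
      rw [← per_eq H.cyc.pN hn]
      exact hR
    have h := stepb (G := fun p : J × ℕ => G p.1 p.2) (M := fun p : J × ℕ => M p.1 p.2)
      (F := F b) (N := N b) H.e1 H.d0 (H.cyc.z b) (H.cyc.w0 b) (H.cyc.w1 b)
      (hz.mono_left inf_le_left) (hw.mono_left inf_le_left) (hFw.mono_left inf_le_left)
      (hFg.mono_left inf_le_left) (hFb.mono_left inf_le_left) (hg.mono_left inf_le_left) h1
    refine h.congr' ?_
    refine (pf_ev_inf (R := fun p : J × ℕ => |(M p.1 p.2).b - (N p.2).b| ≤ 1)).2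
        (Eventually.of_forall fun j n hn hR => ?_)
    show (nst e d (G j n) (M j n)).b - (nst e d (F b) (N b)).b +
      kg e d (F b) (N b) * ((M j n).b - (N b).b) =
      (M j (n + 1)).b - (N (n + 1)).b + kg e d (F n) (N n) * ((M j n).b - (N n).b)
    rw [H.st j n, H.cyc.st n, per_eq H.cyc.pN hn, per_eq H.cyc.pF hn]

end CJ
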