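import Pool.Agent.H.MP_1693ff_gtE.OHomA

/-!
# Derivatives of homogeneous functions
-/

namespace CJ

open Real Set Filter Topology CG CH
open CF hiding St

variable {E : Type} [NormedAddCommGroup E] [InnerProductSpace ℝ E]

/-- The derivative is homogeneous of degree zero (no differentiability needed). -/
theorem ohom_fd {V : E → ℝ} (h : Ho V) {c : ℝ} (hc : 0 < c) (v : E) :
    fderiv ℝ V (c • v) = fderiv ℝ V v := by
  have h1 : (fun x : E => V (c • x)) = c • V := by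
    funext x
    simp only [Pi.smul_apply, smul_eq_mul]
    exact h c hc x
  have h2 : fderiv ℝ (fun x : E => V (c • x)) v = c • fderiv ℝ V (c • v) := fderiv_comp_smul c
  rw [h1, fderiv_const_smul_field] at h2
  have h3 : c • fderiv ℝ V v = c • fderiv ℝ V (c • v) := h2
  exact (smul_right_injective (E →L[ℝ] ℝ) hc.ne' h3).symm

theorem ohom_fd2 {V : E → ℝ} (h : Ho V) {c : ℝ} (hc : 0 < c) (v : E) :
    fderiv ℝ (fderiv ℝ V) (c • v) = c⁻¹ • fderiv ℝ (fderiv ℝ V) v := by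
  have h1 : (fun x : E => fderiv ℝ V (c • x)) = fderiv ℝ V := by
    funext x
    exact ohom_fd h hc x
  have h2 : fderiv ℝ (fun x : E => fderiv ℝ V (c • x)) v
      = c • fderiv ℝ (fderiv ℝ V) (c • v) := fderiv_comp_smul c
  rw [h1] at h2
  rw [h2, smul_smul, inv_mul_cancel₀ hc.ne', one_smul]

theorem ohom_ray (v : E) : HasDerivAt (fun c : ℝ => c • v) v 1 := by
  simpa using (hasDerivAt_id (1 : ℝ)).smul_const v

/-- `V (c v) = c V v`. -/
theorem ho_d1 {V : E → ℝ} (h : Ho V) {c : ℝ} (hc : 0 < c) {v : E} (hv : DifferentiableAt ℝ V v)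
    (x : E) : D1 V (c • v) x = D1 V v x := by
  show fderiv ℝ V (c • v) x = fderiv ℝ V v x
  rw [ohom_fd h hc v]

/-- Euler: derivative of `V (c v) = c V v` at `c = 1`. -/
theorem ho_euler {V : E → ℝ} (h : Ho V) {v : E} (hv : DifferentiableAt ℝ V v) :
    D1 V v v = V v := by
  show fderiv ℝ V v v = V v
  have h1 : HasDerivAt (fun c : ℝ => V (c • v)) (fderiv ℝ V v v) 1 := by
    have hv' : HasFDerivAt V (fderiv ℝ V v) ((1 : ℝ) • v) := by
      rw [one_smul]; exact hv.hasFDerivAt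
    exact hv'.comp_hasDerivAt (1 : ℝ) (ohom_ray v)
  have h2 : HasDerivAt (fun c : ℝ => c * V v) (V v) 1 := by
    simpa using (hasDerivAt_id (1 : ℝ)).mul_const (V v)
  have h3 : (fun c : ℝ => V (c • v)) =ᶠ[𝓝 (1 : ℝ)] fun c : ℝ => c * V v := by
    filter_upwards [lt_mem_nhds (zero_lt_one' ℝ)] with c hc
    exact h c hc v
  exact (h1.congr_of_eventuallyEq h3.symm).unique h2

/-- The first derivative is homogeneous of degree `0` near `v`, so
`D2 V (c v) x y = c⁻¹ D2 V v x y`. -/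
theorem ho_d2 {V : E → ℝ} (h : Ho V) {c : ℝ} (hc : 0 < c) {v : E} (hv : ContDiffAt ℝ 2 V v)
    (x y : E) : D2 V (c • v) x y = c⁻¹ * D2 V v x y := by
  show fderiv ℝ (fderiv ℝ V) (c • v) x y = c⁻¹ * fderiv ℝ (fderiv ℝ V) v x y
  rw [ohom_fd2 h hc v]
  simp

/-- `D1 V (c v) x = D1 V v x` near `v`: derivative at `c = 1`; symmetry. -/
theorem ho_d2_zero {V : E → ℝ} (h : Ho V) {v : E} (hv : ContDiffAt ℝ 2 V v) (x : E) :
    D2 V v v x = 0 ∧ D2 V v x v = 0 := by
  have hd : DifferentiableAt ℝ (fderiv ℝ V) v := by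
    have h1 : ContDiffAt ℝ 1 (fderiv ℝ V) v := hv.fderiv_right (by norm_num)
    exact h1.differentiableAt (by norm_num)
  have h0 : fderiv ℝ (fderiv ℝ V) v v = 0 := by
    have h1 : HasDerivAt (fun c : ℝ => fderiv ℝ V (c • v)) (fderiv ℝ (fderiv ℝ V) v v) 1 := by
      have hv' : HasFDerivAt (fderiv ℝ V) (fderiv ℝ (fderiv ℝ V) v) ((1 : ℝ) • v) := by
        rw [one_smul]; exact hd.hasFDerivAt
      exact hv'.comp_hasDerivAt (1 : ℝ) (ohom_ray v)
    have h2 : HasDerivAt (fun _ : ℝ => fderiv ℝ V v) (0 : E →L[ℝ] ℝ) 1 :=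
      hasDerivAt_const (1 : ℝ) (fderiv ℝ V v)
    have h3 : (fun c : ℝ => fderiv ℝ V (c • v)) =ᶠ[𝓝 (1 : ℝ)] fun _ : ℝ => fderiv ℝ V v := by
      filter_upwards [lt_mem_nhds (zero_lt_one' ℝ)] with c hc
      exact ohom_fd h hc v
    exact (h1.congr_of_eventuallyEq h3.symm).unique h2
  have hs : IsSymmSndFDerivAt ℝ V v := hv.isSymmSndFDerivAt (by simp)
  have ha : D2 V v v x = 0 := by
    show fderiv ℝ (fderiv ℝ V) v v x = 0
    rw [h0]; rfl
  refine ⟨ha, ?_⟩
  have hb : D2 V v x v = D2 V v v x := hs x v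
  rw [hb, ha]

/-- Regularity is homogeneous. -/
theorem ho_cd {V : E → ℝ} (h : Ho V) {c : ℝ} (hc : 0 < c) {v : E} {k : ℕ∞}
    (hv : ContDiffAt ℝ k V v) : ContDiffAt ℝ k V (c • v) := by
  have h1 : V = fun x : E => c * V (c⁻¹ • x) := by
    funext x
    rw [h c⁻¹ (inv_pos.mpr hc) x, ← mul_assoc, mul_inv_cancel₀ hc.ne', one_mul]
  rw [h1]
  have h2 : ContDiffAt ℝ k V (c⁻¹ • (c • v)) := by
    rw [smul_smul, inv_mul_cancel₀ hc.ne', one_smul]; exact hv
  have h3 : ContDiffAt ℝ k (fun x : E => c⁻¹ • x) (c • v) := contDiffAt_id.const_smul c⁻¹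
  exact contDiffAt_const.mul (h2.comp (c • v) h3)

end CJ
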