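import Pool.Agent.H.MP_1693ff_gtE.OJCc
import Pool.Agent.H.MP_1693ff_gtE.OHom

/-!
# The second derivatives of the profiles for `e = 1`
-/

namespace CJ

open Real Set Filter Topology CG CH
open CF hiding St

variable {ι : Type} [TopologicalSpace ι]
variable {E : Type} [NormedAddCommGroup E] [InnerProductSpace ℝ E]

/-- Removal of the component along `v`. -/
theorem ofarh_q {V : E → ℝ} {v : E} (h : Ho V) (c : ContDiffAt ℝ 2 V v) (z : E) (t : ℝ) :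
    D2 V v z z = D2 V v (z - t • v) (z - t • v) := by
  have e : z = (z - t • v) + t • v := by abel
  have h1 : D2 V v z z = D2 V v ((z - t • v) + t • v) ((z - t • v) + t • v) := by rw [← e]
  rw [h1, d2_add_l, d2_add_r, d2_add_r, d2_smul_l, d2_smul_l, d2_smul_r, d2_smul_r,
    (ho_d2_zero h c (z - t • v)).1, (ho_d2_zero h c (z - t • v)).2, (ho_d2_zero h c v).1]
  ring

/-- Polarisation. -/
theorem ofarh_pol {V : E → ℝ} {v : E} (c : ContDiffAt ℝ 2 V v) (x y : E) :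
    D2 V v (x + y) (x + y) = D2 V v x x + 2 * D2 V v x y + D2 V v y y := by
  rw [d2_add_l, d2_add_r, d2_add_r, d2_symm c y x]
  ring

/-- For `e = 1` the second derivatives of `Φ i` and `Ψ i` at `ax` agree: `F.cc` and polarisation
for vectors orthogonal to `ax`; `D2 V ax ax y = 0` (`ho_d2_zero`). -/
theorem cc_all {d : ℝ} {ax : E} {A B : E → ℝ} {Φ Ψ : ι → E → ℝ} {i₀ : ι}
    (F : Fml 1 d ax A B Φ Ψ i₀) (i : ι) (x y : E) : D2 (Φ i) ax x y = D2 (Ψ i) ax x y := by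
  have hne : ax ≠ 0 := by
    intro h
    have := F.bd.a1
    rw [h, norm_zero] at this
    norm_num at this
  have cΦ : ContDiffAt ℝ 2 (Φ i) ax := ((F.hΦ i).c ax hne).of_le (by norm_num)
  have cΨ : ContDiffAt ℝ 2 (Ψ i) ax := ((F.hΨ i).c ax hne).of_le (by norm_num)
  have hq : ∀ z : E, D2 (Φ i) ax z z = D2 (Ψ i) ax z z := by
    intro z
    have hw : inner ℝ ax (z - (inner ℝ ax z : ℝ) • ax) = (0 : ℝ) := by
      rw [inner_sub_right, inner_smul_right, real_inner_self_eq_norm_sq, F.bd.a1]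
      ring
    rw [ofarh_q (F.hΦ i).h cΦ z (inner ℝ ax z : ℝ), ofarh_q (F.hΨ i).h cΨ z (inner ℝ ax z : ℝ)]
    exact F.cc rfl i _ hw
  have h1 := ofarh_pol cΦ x y
  have h2 := ofarh_pol cΨ x y
  have h3 := hq (x + y)
  have h4 := hq x
  have h5 := hq y
  linarith

/-- For `e = 1`: the normalised second derivatives of the profiles differ from those at `z = 0`
(the same for `Φ` and `Ψ`, `cc_all`) by at most `C z`: `JC.lip` at `ax` for `Φ` and `Ψ`,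
`‖ω‖`, `‖η‖ ≤ 2` near `x₀`. -/
theorem hc_NP {d : ℝ} {ax : E} {A B : E → ℝ} {Φ Ψ : ι → E → ℝ} {i₀ : ι}
    (F : Fml 1 d ax A B Φ Ψ i₀) {x₀ : E × E × ℝ} (hx : x₀ ∈ XX ax) :
    ∃ C z₁ : ℝ, 0 ≤ C ∧ 0 < z₁ ∧ ∀ᶠ p : ι × (E × E × ℝ) in 𝓝 (i₀, x₀), ∀ (n : ℕ),
      ∀ z ∈ Icc (0 : ℝ) z₁,
      |(NP (if Even n then Φ p.1 else Ψ p.1) ax p.2.1 p.2.2.1 z).K -
        (NP (Φ p.1) ax p.2.1 p.2.2.1 0).K| ≤ C * z ∧
      |(NP (if Even n then Φ p.1 else Ψ p.1) ax p.2.1 p.2.2.1 z).L -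
        (NP (Φ p.1) ax p.2.1 p.2.2.1 0).L| ≤ C * z ∧
      |(NP (if Even n then Φ p.1 else Ψ p.1) ax p.2.1 p.2.2.1 z).Q -
        (NP (Φ p.1) ax p.2.1 p.2.2.1 0).Q| ≤ C * z := by
  have hne : ax ≠ 0 := by
    intro h
    have := F.bd.a1
    rw [h, norm_zero] at this
    norm_num at this
  obtain ⟨C1, hC1, U1, hU1, h1⟩ := (F.jΦ ax hne).lip
  obtain ⟨C2, hC2, U2, hU2, h2⟩ := (F.jΨ ax hne).lip
  obtain ⟨r, hr, hball⟩ := Metric.mem_nhds_iff.1 (Filter.inter_mem hU1 hU2)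
  refine ⟨8 * (C1 + C2), r / 4, by positivity, by positivity, ?_⟩
  have e1 : ∀ᶠ p : ι × (E × E × ℝ) in 𝓝 (i₀, x₀), ∀ u ∈ U1, ∀ u' ∈ U1, ∀ x y : E,
      |D2 (Φ p.1) u x y - D2 (Φ p.1) u' x y| ≤ C1 * ‖u - u'‖ * (‖x‖ * ‖y‖) :=
    (continuous_fst.tendsto (i₀, x₀)).eventually h1
  have e2 : ∀ᶠ p : ι × (E × E × ℝ) in 𝓝 (i₀, x₀), ∀ u ∈ U2, ∀ u' ∈ U2, ∀ x y : E,
      |D2 (Ψ p.1) u x y - D2 (Ψ p.1) u' x y| ≤ C2 * ‖u - u'‖ * (‖x‖ * ‖y‖) :=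
    (continuous_fst.tendsto (i₀, x₀)).eventually h2
  have e3 : ∀ᶠ p : ι × (E × E × ℝ) in 𝓝 (i₀, x₀), ‖p.2.1‖ < 2 := by
    have hc : Continuous fun p : ι × (E × E × ℝ) => ‖p.2.1‖ := by fun_prop
    apply hc.continuousAt.eventually (Iio_mem_nhds _)
    show ‖x₀.1‖ < 2
    rw [hx.1.n1]; norm_num
  have e4 : ∀ᶠ p : ι × (E × E × ℝ) in 𝓝 (i₀, x₀), ‖p.2.2.1‖ < 2 := by
    have hc : Continuous fun p : ι × (E × E × ℝ) => ‖p.2.2.1‖ := by fun_prop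
    apply hc.continuousAt.eventually (Iio_mem_nhds _)
    show ‖x₀.2.1‖ < 2
    linarith [hx.2.2.2.1]
  filter_upwards [e1, e2, e3, e4] with p p1 p2 p3 p4 n z hz
  have hax : ax ∈ U1 ∩ U2 := hball (Metric.mem_ball_self hr)
  have hn : ‖z • p.2.1‖ ≤ 2 * z := by
    rw [norm_smul, Real.norm_of_nonneg hz.1]
    nlinarith [hz.1]
  have hmem : ax + z • p.2.1 ∈ U1 ∩ U2 := by
    apply hball
    rw [Metric.mem_ball, dist_eq_norm, add_sub_cancel_left]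
    linarith [hz.2]
  have key : ∀ x y : E, ‖x‖ ≤ 2 → ‖y‖ ≤ 2 →
      |D2 (if Even n then Φ p.1 else Ψ p.1) (ax + z • p.2.1) x y - D2 (Φ p.1) ax x y| ≤
        8 * (C1 + C2) * z := by
    intro x y hx2 hy2
    have hxy : ‖x‖ * ‖y‖ ≤ 4 := by nlinarith [norm_nonneg x, norm_nonneg y]
    have hxy0 : 0 ≤ ‖x‖ * ‖y‖ := by positivity
    have hm : ‖ax + z • p.2.1 - ax‖ * (‖x‖ * ‖y‖) ≤ 8 * z := by
      rw [add_sub_cancel_left]
      calc ‖z • p.2.1‖ * (‖x‖ * ‖y‖) ≤ (2 * z) * 4 :=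
            mul_le_mul hn hxy hxy0 (by linarith [hz.1])
        _ = 8 * z := by ring
    have hz0 := hz.1
    have a1 : 0 ≤ C1 * (8 * z) := by positivity
    have a2 : 0 ≤ C2 * (8 * z) := by positivity
    split_ifs with hev
    · calc _ ≤ C1 * ‖ax + z • p.2.1 - ax‖ * (‖x‖ * ‖y‖) := p1 _ hmem.1 _ hax.1 x y
        _ = C1 * (‖ax + z • p.2.1 - ax‖ * (‖x‖ * ‖y‖)) := by ring
        _ ≤ C1 * (8 * z) := mul_le_mul_of_nonneg_left hm hC1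
        _ ≤ 8 * (C1 + C2) * z := by linarith
    · rw [cc_all F p.1 x y]
      calc _ ≤ C2 * ‖ax + z • p.2.1 - ax‖ * (‖x‖ * ‖y‖) := p2 _ hmem.2 _ hax.2 x y
        _ = C2 * (‖ax + z • p.2.1 - ax‖ * (‖x‖ * ‖y‖)) := by ring
        _ ≤ C2 * (8 * z) := mul_le_mul_of_nonneg_left hm hC2
        _ ≤ 8 * (C1 + C2) * z := by linarith
  simp only [NP, zero_smul, add_zero]
  refine ⟨key _ _ p3.le p3.le, ?_, key _ _ p4.le p4.le⟩
  rw [neg_sub_neg, abs_sub_comm]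
  exact key _ _ p3.le p4.le

end CJ
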