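import Pool.Agent.H.MP_1693ff_gtE.OSt0

/-!
# The normalised half step: `L`
-/

namespace CJ

open Real Set Filter Topology CG CH
open CF hiding St

variable {X : Type*} {l : Filter X} {e d : ℝ} {G : X → Np} {M : X → Nv} {F : Np} {N : Nv}

/-- The new `L` is `τ² (A F.L - B L + c dl dr - β n11)`, `τ → 1`, `β → 0` (`lim_nbe`), `n11`
converges; compare `stepK`. -/
theorem stepL (he : 1 ≤ e) (hd : 0 < d) (z0 : N.z = 0) (w0 : 0 < N.w) (w1 : N.w < F.w)
    (hz : Tendsto (fun x => (M x).z) l (𝓝 0))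
    (hw : Tendsto (fun x => (M x).w) l (𝓝 N.w)) (hF : TP l G F)
    (hg : Tendsto (fun x => (M x).g) l (𝓝 N.g)) (hb : Tendsto (fun x => (M x).b) l (𝓝 N.b))
    (hK : Tendsto (fun x => (M x).K) l (𝓝 N.K)) (h1 : ∀ᶠ x in l, |(M x).L - N.L| ≤ 1) :
    Tendsto (fun x => (nst e d (G x) (M x)).L - (nst e d F N).L +
      kk e F N * ((M x).L - N.L)) l (𝓝 0) := by
  have hgb : ∀ᶠ x in l, |(M x).g| ≤ |N.g| + 1 := by
    have h2 := hg.abs
    exact (h2.eventually (gt_mem_nhds (lt_add_one |N.g|))).mono (fun x hx => hx.le)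
  have hτ := lim_nt (e := e) (d := d) he hd w0 w1 hz hw hF.w hF.g hgb
  have hβ := lim_nbe (e := e) (d := d) he hd w0 w1 hz hw hF.w hF.g hF.b hg hb
  have hA := lim_A (e := e) he w0 w1 hw hF.w
  have hB := lim_B (e := e) he w0 w1 hw hF.w
  have hc := lim_nc (e := e) he w0 w1 hw hF.w
  have hdl : Tendsto (fun x => ndl (G x) (M x)) l (𝓝 (ndl F N)) :=
    (hw.mul hF.g).sub (hF.w.mul hg)
  have hdr : Tendsto (fun x => ndr (G x) (M x)) l (𝓝 (ndr F N)) :=
    (hF.w.mul hb).add (hw.mul hF.b)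
  have h11 : Tendsto (fun x => n11 e (G x) (M x)) l (𝓝 (n11 e F N)) :=
    ((hA.mul hF.K).sub (hB.mul hK)).sub (hc.mul (hdl.pow 2))
  obtain ⟨t1, b1⟩ := nt_zero (e := e) (d := d) (F := F) z0
  have hP : Tendsto (fun x => nt e d (G x) (M x) ^ 2 *
      (((G x).w / no e (G x) (M x)) ^ (e - 1) * (G x).L +
        nc e (G x) (M x) * ndl (G x) (M x) * ndr (G x) (M x) -
        nbe e d (G x) (M x) * n11 e (G x) (M x)) -
      ((F.w / no e F N) ^ (e - 1) * F.L + nc e F N * ndl F N * ndr F N)) l (𝓝 0) := by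
    have h2 := ((hτ.pow 2).mul (((hA.mul hF.L).add ((hc.mul hdl).mul hdr)).sub
      (hβ.mul h11))).sub_const ((F.w / no e F N) ^ (e - 1) * F.L + nc e F N * ndl F N * ndr F N)
    convert h2 using 2
    ring
  have hR : Tendsto (fun x => nt e d (G x) (M x) ^ 2 *
      ((M x).w / no e (G x) (M x)) ^ (e - 1) - kk e F N) l (𝓝 0) := by
    have h2 := ((hτ.pow 2).mul hB).sub_const (kk e F N)
    convert h2 using 2
    unfold kk
    ring
  have hL : IsBoundedUnder (· ≤ ·) l (norm ∘ fun x => (M x).L) := by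
    refine isBoundedUnder_of_eventually_le (a := |N.L| + 1) ?_
    filter_upwards [h1] with x hx
    have h3 := abs_sub_abs_le_abs_sub (M x).L N.L
    simp only [Function.comp_apply, Real.norm_eq_abs]
    linarith
  have hRL := hR.zero_mul_isBoundedUnder_le hL
  have h5 := hP.sub hRL
  rw [sub_zero] at h5
  refine h5.congr (fun x => ?_)
  simp only [nst, n12, t1, b1, kk]
  ring

end CJ
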