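import Pool.Agent.H.MP_1693ff_gtE.OStK
import Pool.Agent.H.MP_1693ff_gtE.OStL
import Pool.Agent.H.MP_1693ff_gtE.OStQ
import Pool.Agent.H.MP_1693ff_gtE.OFarG

/-!
# Runs near the limit cycle: `K`, `L`, `Q` for `e > 1`
-/

namespace CJ

open Real Set Filter Topology CG CH
open CF hiding St

variable {J : Type*} {l : Filter J} {e d θ : ℝ} {G : J → ℕ → Np} {M : J → ℕ → Nv}
  {F : ℕ → Np} {N : ℕ → Nv}

/-- the common part of the three proofs -/
theorem ofark_aux (he : 1 < e) (H : Env l e d θ G M F N) (y : Nv → ℝ)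
    (h0 : Tendsto (fun j => y (M j 0)) l (𝓝 (y (N 0))))
    (hs : ∀ b, Tendsto (fun p : J × ℕ => y (nst e d (G p.1 p.2) (M p.1 p.2)) -
      y (nst e d (F b) (N b)) + kk e (F b) (N b) * (y (M p.1 p.2) - y (N b)))
      (PF l b ⊓ 𝓟 {p | |y (M p.1 p.2) - y (N p.2)| ≤ 1}) (𝓝 0)) :
    UC l (fun j n => y (M j n)) (fun n => y (N n)) := by
  have hw : ∀ n, 0 ≤ kk e (F n) (N n) ∧
      kk e (F n) (N n) * (N (n + 1)).w ^ (e - 1) < (N n).w ^ (e - 1) := by
    intro n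
    rw [H.cyc.st n]
    exact kk_weight he H.d0 (H.cyc.w0 n) (H.cyc.w1 n)
  refine dyn2 (κ := fun n => kk e (F n) (N n)) (γ := fun n => (N n).w ^ (e - 1))
    (fun n => by rw [H.cyc.pN]) (fun n => by simp only [H.cyc.pN, H.cyc.pF])
    (fun n => by simp only [H.cyc.pN]) (fun n => Real.rpow_pos_of_pos (H.cyc.w0 n) _)
    (fun n => (hw n).1) (fun n => (hw n).2) h0 fun b => ?_
  refine (hs b).congr' ?_
  have h1 : ∀ᶠ p : J × ℕ in PF l b ⊓ 𝓟 {p | |y (M p.1 p.2) - y (N p.2)| ≤ 1}, p.2 % 2 = b % 2 := by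
    refine Filter.Eventually.filter_mono inf_le_left ?_
    exact Filter.Eventually.filter_mono inf_le_right (Filter.mem_principal_self _)
  filter_upwards [h1] with p hp
  rw [H.st, H.cyc.st, per_eq H.cyc.pN hp, per_eq H.cyc.pF hp]

/-- the bound in the filter -/
theorem ofark_one (H : Env l e d θ G M F N) (y : Nv → ℝ) (b : ℕ) :
    ∀ᶠ p : J × ℕ in PF l b ⊓ 𝓟 {p | |y (M p.1 p.2) - y (N p.2)| ≤ 1},
      |y (M p.1 p.2) - y (N b)| ≤ 1 := by
  have h1 : ∀ᶠ p : J × ℕ in PF l b ⊓ 𝓟 {p | |y (M p.1 p.2) - y (N p.2)| ≤ 1}, p.2 % 2 = b % 2 := by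
    refine Filter.Eventually.filter_mono inf_le_left ?_
    exact Filter.Eventually.filter_mono inf_le_right (Filter.mem_principal_self _)
  have h2 : ∀ᶠ p : J × ℕ in PF l b ⊓ 𝓟 {p | |y (M p.1 p.2) - y (N p.2)| ≤ 1},
      |y (M p.1 p.2) - y (N p.2)| ≤ 1 :=
    Filter.Eventually.filter_mono inf_le_right (Filter.mem_principal_self _)
  filter_upwards [h1, h2] with p hp hq
  rw [← per_eq H.cyc.pN hp]
  exact hq

/-- convergence of a component of `M` along the filter -/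
theorem ofark_M (H : Env l e d θ G M F N) {y : Nv → ℝ}
    (h : UC l (fun j n => y (M j n)) (fun n => y (N n))) (b : ℕ) (s : Set (J × ℕ)) :
    Tendsto (fun p : J × ℕ => y (M p.1 p.2)) (PF l b ⊓ 𝓟 s) (𝓝 (y (N b))) :=
  (uc_pf (fun n => by rw [H.cyc.pN]) h b).mono_left inf_le_left

/-- convergence of a component of `G` along the filter -/
theorem ofark_G (H : Env l e d θ G M F N) {y : Np → ℝ}
    (h : UC l (fun j n => y (G j n)) (fun n => y (F n))) (b : ℕ) (s : Set (J × ℕ)) :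
    Tendsto (fun p : J × ℕ => y (G p.1 p.2)) (PF l b ⊓ 𝓟 s) (𝓝 (y (F b))) :=
  (uc_pf (fun n => by rw [H.cyc.pF]) h b).mono_left inf_le_left

/-- all components of `G` -/
theorem ofark_TP (H : Env l e d θ G M F N) (b : ℕ) (s : Set (J × ℕ)) :
    TP (PF l b ⊓ 𝓟 s) (fun p : J × ℕ => G p.1 p.2) (F b) :=
  ⟨ofark_G H (y := Np.w) H.G.w b s, ofark_G H (y := Np.g) H.G.g b s,
    ofark_G H (y := Np.b) H.G.b b s, ofark_G H (y := Np.K) H.G.K b s,
    ofark_G H (y := Np.L) H.G.L b s, ofark_G H (y := Np.Q) H.G.Q b s⟩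

/-- `z → 0` -/
theorem ofark_z (H : Env l e d θ G M F N) (b : ℕ) (s : Set (J × ℕ)) :
    Tendsto (fun p : J × ℕ => (M p.1 p.2).z) (PF l b ⊓ 𝓟 s) (𝓝 0) := by
  have h := ofark_M H (y := Nv.z) (env_z H) b s
  rwa [H.cyc.z b] at h

/-- As `far_g`, with `κ n = kk e (F n) (N n)`, `stepK`. -/
theorem far_K (he : 1 < e) (H : Env l e d θ G M F N) :
    UC l (fun j n => (M j n).K) (fun n => (N n).K) := by
  refine ofark_aux he H Nv.K H.i.K fun b => ?_
  exact stepK he.le H.d0 (H.cyc.z b) (H.cyc.w0 b) (H.cyc.w1 b) (ofark_z H b _)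
    (ofark_M H (y := Nv.w) H.w b _) (ofark_TP H b _).w (ofark_TP H b _).g (ofark_TP H b _).K
    (ofark_M H (y := Nv.g) (far_g H) b _) (ofark_one H Nv.K b)

/-- `stepL`. -/
theorem far_L (he : 1 < e) (H : Env l e d θ G M F N) :
    UC l (fun j n => (M j n).L) (fun n => (N n).L) := by
  refine ofark_aux he H Nv.L H.i.L fun b => ?_
  exact stepL he.le H.d0 (H.cyc.z b) (H.cyc.w0 b) (H.cyc.w1 b) (ofark_z H b _)
    (ofark_M H (y := Nv.w) H.w b _) (ofark_TP H b _)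
    (ofark_M H (y := Nv.g) (far_g H) b _) (ofark_M H (y := Nv.b) (far_b H) b _)
    (ofark_M H (y := Nv.K) (far_K he H) b _) (ofark_one H Nv.L b)

/-- `stepQ`. -/
theorem far_Q (he : 1 < e) (H : Env l e d θ G M F N) :
    UC l (fun j n => (M j n).Q) (fun n => (N n).Q) := by
  refine ofark_aux he H Nv.Q H.i.Q fun b => ?_
  exact stepQ he.le H.d0 (H.cyc.z b) (H.cyc.w0 b) (H.cyc.w1 b) (ofark_z H b _)
    (ofark_M H (y := Nv.w) H.w b _) (ofark_TP H b _)
    (ofark_M H (y := Nv.g) (far_g H) b _) (ofark_M H (y := Nv.b) (far_b H) b _)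
    (ofark_M H (y := Nv.K) (far_K he H) b _) (ofark_M H (y := Nv.L) (far_L he H) b _)
    (ofark_one H Nv.Q b)

end CJ
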