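import Pool.Agent.H.MP_1693ff_gtE.OFarG

/-!
# Runs near the limit cycle for `e = 1`: preparations
-/

namespace CJ

open Real Set Filter Topology CG CH
open CF hiding St

variable {J : Type*} {l : Filter J} {d θ : ℝ} {G : J → ℕ → Np} {M : J → ℕ → Nv}
  {F : ℕ → Np} {N : ℕ → Nv}

/-- A 2-periodic sequence is bounded. -/
theorem ofaro_bd {c : ℕ → ℝ} (pc : ∀ n, c (n + 2) = c n) : ∃ B ≥ 0, ∀ n, |c n| ≤ B := by
  refine ⟨|c 0| + |c 1|, by positivity, fun n => ?_⟩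
  rcases Nat.mod_two_eq_zero_or_one n with h | h
  · rw [per_eq pc (show n % 2 = 0 % 2 by simpa using h)]
    linarith [abs_nonneg (c 1)]
  · rw [per_eq pc (show n % 2 = 1 % 2 by simpa using h)]
    linarith [abs_nonneg (c 0)]

/-- For `e = 1` (`nc = 0`, `x ^ 0 = 1`): the ingredients. -/
theorem one_n (F : Np) (N : Nv) : n11 1 F N = F.K - N.K ∧ n12 1 F N = F.L - N.L ∧
    n22 1 F N = F.Q - N.Q ∧ ngo 1 F N = F.g - N.g ∧ nbo 1 F N = F.b + N.b := by
  have hc : nc 1 F N = 0 := by simp [nc]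
  refine ⟨?_, ?_, ?_, ?_, ?_⟩
  · simp [n11, hc]
  · simp [n12, hc]
  · simp [n22, hc]
  · simp [ngo]
  · simp [nbo]

theorem ofaro_no (F : Np) (N : Nv) : no 1 F N = F.w - N.w := by
  simp [no]

/-- `|τ - 1| ≤ C z`, `|β| ≤ C z`, uniformly: `nz = z/μ`, `μ → μ* > 1`, so `0 ≤ nz ≤ z`
eventually; `ngo`, `nbo` are bounded (`far_g`, `far_b`, `H.G`, the limits are 2-periodic, so
bounded), `|d nz ngo| ≤ 1/2` eventually. -/
theorem one_tb (H : Env l 1 d θ G M F N) : ∃ C ≥ 0, ∀ᶠ j in l, ∀ n,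
    |nt 1 d (G j n) (M j n) - 1| ≤ C * (M j n).z ∧
    |nbe 1 d (G j n) (M j n)| ≤ C * (M j n).z ∧ (M j n).z ≤ 1 := by
  obtain ⟨B1, hB1, b1⟩ := ofaro_bd (c := fun n => (N n).g) (fun n => by
    simp only [H.cyc.pN n])
  obtain ⟨B2, hB2, b2⟩ := ofaro_bd (c := fun n => (N n).b) (fun n => by
    simp only [H.cyc.pN n])
  obtain ⟨B3, hB3, b3⟩ := ofaro_bd (c := fun n => (F n).g) (fun n => by
    simp only [H.cyc.pF n])
  obtain ⟨B4, hB4, b4⟩ := ofaro_bd (c := fun n => (F n).b) (fun n => by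
    simp only [H.cyc.pF n])
  set B : ℝ := B1 + B2 + B3 + B4 + 2 with hB
  have hB0 : 0 < B := by rw [hB]; linarith
  -- the gap `F.w - N.w`
  obtain ⟨ρ, hρ, hgap⟩ : ∃ ρ > 0, ∀ n, ρ ≤ (F n).w - (N n).w := by
    refine ⟨min ((F 0).w - (N 0).w) ((F 1).w - (N 1).w), ?_, fun n => ?_⟩
    · exact lt_min (sub_pos.2 (H.cyc.w1 0)) (sub_pos.2 (H.cyc.w1 1))
    · rcases Nat.mod_two_eq_zero_or_one n with h | h
      · rw [per_eq H.cyc.pF (show n % 2 = 0 % 2 by simpa using h),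
          per_eq H.cyc.pN (show n % 2 = 0 % 2 by simpa using h)]
        exact min_le_left _ _
      · rw [per_eq H.cyc.pF (show n % 2 = 1 % 2 by simpa using h),
          per_eq H.cyc.pN (show n % 2 = 1 % 2 by simpa using h)]
        exact min_le_right _ _
  have hd := H.d0
  refine ⟨2 * d * B, by positivity, ?_⟩
  filter_upwards [far_g H 1 one_pos, far_b H 1 one_pos, H.G.g 1 one_pos, H.G.b 1 one_pos,
    H.G.w (ρ / 2) (by positivity), H.w (ρ / 2) (by positivity),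
    env_z H (min 1 (1 / (2 * d * B))) (by positivity), H.z] with j h1 h2 h3 h4 h5 h6 h7 h8 n
  have e1 := abs_le.1 (h1 n)
  have e2 := abs_le.1 (h2 n)
  have e3 := abs_le.1 (h3 n)
  have e4 := abs_le.1 (h4 n)
  have e5 := abs_le.1 (h5 n)
  have e6 := abs_le.1 (h6 n)
  have e7 := (abs_le.1 (h7 n)).2
  have f1 := abs_le.1 (b1 n)
  have f2 := abs_le.1 (b2 n)
  have f3 := abs_le.1 (b3 n)
  have f4 := abs_le.1 (b4 n)
  have hz := (h8 n).1
  have hg := hgap n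
  simp only [H.cyc.z n, sub_zero] at e7
  have z1 : (M j n).z ≤ 1 := e7.trans (min_le_left _ _)
  have z2 : (M j n).z ≤ 1 / (2 * d * B) := e7.trans (min_le_right _ _)
  have z3 : 2 * d * B * (M j n).z ≤ 1 := by
    have := (le_div_iff₀ (by positivity)).1 z2
    linarith
  have hno : 0 ≤ no 1 (G j n) (M j n) := by
    rw [ofaro_no]; linarith [e5.1, e6.2]
  have hnm : 1 ≤ nm 1 d (G j n) (M j n) := by
    unfold nm
    nlinarith
  have hnm0 : 0 < nm 1 d (G j n) (M j n) := by linarith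
  have hnz0 : 0 ≤ nz 1 d (G j n) (M j n) := div_nonneg hz.le hnm0.le
  have hnz1 : nz 1 d (G j n) (M j n) ≤ (M j n).z := div_le_self hz.le hnm
  obtain ⟨-, -, -, o4, o5⟩ := one_n (G j n) (M j n)
  have hgo : |ngo 1 (G j n) (M j n)| ≤ B := by
    rw [o4, abs_le, hB]
    constructor <;> linarith [e1.1, e1.2, e3.1, e3.2, f1.1, f1.2, f3.1, f3.2]
  have hbo : |nbo 1 (G j n) (M j n)| ≤ B := by
    rw [o5, abs_le, hB]
    constructor <;> linarith [e2.1, e2.2, e4.1, e4.2, f2.1, f2.2, f4.1, f4.2]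
  set x : ℝ := d * nz 1 d (G j n) (M j n) * ngo 1 (G j n) (M j n) with hx
  have hxa : |x| ≤ d * B * (M j n).z := by
    rw [hx, abs_mul, abs_of_nonneg (by positivity : 0 ≤ d * nz 1 d (G j n) (M j n))]
    calc d * nz 1 d (G j n) (M j n) * |ngo 1 (G j n) (M j n)|
        ≤ d * (M j n).z * B := by
          apply mul_le_mul (mul_le_mul_of_nonneg_left hnz1 hd.le) hgo (abs_nonneg _)
          positivity
      _ = d * B * (M j n).z := by ring
  have hx2 : |x| ≤ 1 / 2 := by linarith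
  have hx3 := abs_le.1 hx2
  have h1x : 0 < 1 - x := by linarith
  have hnt : nt 1 d (G j n) (M j n) = (1 - x)⁻¹ := by rw [nt, hx]
  have hnt2 : nt 1 d (G j n) (M j n) ≤ 2 := by
    rw [hnt, inv_le_comm₀ h1x (by norm_num)]
    linarith
  have hnt0 : 0 < nt 1 d (G j n) (M j n) := by rw [hnt]; positivity
  refine ⟨?_, ?_, z1⟩
  · have : nt 1 d (G j n) (M j n) - 1 = nt 1 d (G j n) (M j n) * x := by
      rw [hnt]; field_simp; ring
    rw [this, abs_mul, abs_of_pos hnt0]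
    calc nt 1 d (G j n) (M j n) * |x| ≤ 2 * (d * B * (M j n).z) :=
          mul_le_mul hnt2 hxa (abs_nonneg _) (by norm_num)
      _ = 2 * d * B * (M j n).z := by ring
  · rw [nbe, abs_mul, abs_mul, abs_mul, abs_of_pos hnt0, abs_of_nonneg hnz0, abs_of_pos hd]
    calc nt 1 d (G j n) (M j n) * nz 1 d (G j n) (M j n) * d * |nbo 1 (G j n) (M j n)|
        ≤ 2 * (M j n).z * d * B := by
          apply mul_le_mul _ hbo (abs_nonneg _) (by positivity)
          apply mul_le_mul_of_nonneg_right _ hd.le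
          exact mul_le_mul hnt2 hnz1 hnz0 (by norm_num)
      _ = 2 * d * B * (M j n).z := by ring

theorem ofaro_lim {x y z : J → ℝ} {c C : ℝ} (hx : Tendsto x l (𝓝 c)) (hz : Tendsto z l (𝓝 0))
    (h : ∀ᶠ j in l, |x j - y j| ≤ C * z j) : Tendsto y l (𝓝 c) := by
  have h0 : Tendsto (fun j => x j - y j) l (𝓝 0) := by
    apply squeeze_zero_norm' (a := fun j => C * z j)
    · simpa [Real.norm_eq_abs] using h
    · simpa using hz.const_mul C
  have := hx.sub h0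
  simpa using this

theorem ofaro_uc {x : J → ℕ → ℝ} {c : ℕ → ℝ} (h : UC l x c) (n : ℕ) :
    Tendsto (fun j => x j n) l (𝓝 (c n)) := by
  rw [Metric.tendsto_nhds]
  intro ε hε
  filter_upwards [h (ε / 2) (by positivity)] with j hj
  rw [Real.dist_eq]
  linarith [hj n]

theorem ofaro_R (H : Env l 1 d θ G M F N) {R : J → Np} {C : ℝ}
    (hR : ∀ᶠ j in l, ∀ n, |(G j n).K - (R j).K| ≤ C * (M j n).z ∧
      |(G j n).L - (R j).L| ≤ C * (M j n).z ∧ |(G j n).Q - (R j).Q| ≤ C * (M j n).z) (n : ℕ) :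
    Tendsto (fun j => (R j).K) l (𝓝 (F n).K) ∧ Tendsto (fun j => (R j).L) l (𝓝 (F n).L) ∧
      Tendsto (fun j => (R j).Q) l (𝓝 (F n).Q) := by
  have hz : Tendsto (fun j => (M j n).z) l (𝓝 0) := by
    have := ofaro_uc (env_z H) n
    simpa only [H.cyc.z n] using this
  refine ⟨ofaro_lim (C := C) (ofaro_uc H.G.K n) hz ?_,
    ofaro_lim (C := C) (ofaro_uc H.G.L n) hz ?_,
    ofaro_lim (C := C) (ofaro_uc H.G.Q n) hz ?_⟩
  · filter_upwards [hR] with j hj using (hj n).1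
  · filter_upwards [hR] with j hj using (hj n).2.1
  · filter_upwards [hR] with j hj using (hj n).2.2

/-- `(R j).K → (F 0).K` etc.: `|(G j 0).K - (R j).K| ≤ C z_0 → 0` and `(G j 0).K → (F 0).K`. -/
theorem one_R (H : Env l 1 d θ G M F N) {R : J → Np} {C : ℝ} (hC : 0 ≤ C)
    (hR : ∀ᶠ j in l, ∀ n, |(G j n).K - (R j).K| ≤ C * (M j n).z ∧
      |(G j n).L - (R j).L| ≤ C * (M j n).z ∧ |(G j n).Q - (R j).Q| ≤ C * (M j n).z) :
    Tendsto (fun j => (R j).K) l (𝓝 (F 0).K) ∧ Tendsto (fun j => (R j).L) l (𝓝 (F 0).L) ∧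
      Tendsto (fun j => (R j).Q) l (𝓝 (F 0).Q) :=
  ofaro_R H hR 0

/-- For `l ≠ ⊥`: `(F 1).K = (F 0).K` etc. (both are the limit of `(R j).K`; for `F 1` argue as in `one_R` with `n = 1`), so on the limit cycle
`(N (n+1)).K + (N n).K = (F 0).K` (`one_n`, `nt_zero`). -/
theorem one_cyc [NeBot l] (H : Env l 1 d θ G M F N) (h : Hc l G M) (n : ℕ) :
    (N (n + 1)).K + (N n).K = (F 0).K ∧ (N (n + 1)).L + (N n).L = (F 0).L ∧
      (N (n + 1)).Q + (N n).Q = (F 0).Q := by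
  obtain ⟨C, hC, R, hR⟩ := h
  obtain ⟨k1, k2, k3⟩ := ofaro_R H hR n
  obtain ⟨m1, m2, m3⟩ := ofaro_R H hR 0
  have e1 := tendsto_nhds_unique k1 m1
  have e2 := tendsto_nhds_unique k2 m2
  have e3 := tendsto_nhds_unique k3 m3
  obtain ⟨t1, t2⟩ := nt_zero (e := 1) (d := d) (F := F n) (N := N n) (H.cyc.z n)
  obtain ⟨o1, o2, o3, -, -⟩ := one_n (F n) (N n)
  rw [H.cyc.st n]
  simp only [nst, t1, t2, o1, o2, o3]
  refine ⟨?_, ?_, ?_⟩
  · rw [← e1]; ring
  · rw [← e2]; ring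
  · rw [← e3]; ring

end CJ
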