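import Pool.Agent.H.MP_1693ff_gtE.OFarW

/-!
# Runs near the limit cycle: the environment
-/

namespace CJ

open Real Set Filter Topology CG CH
open CF hiding St

variable {J : Type*} {l : Filter J} {e d : ℝ}

/-- One component: closeness, uniformly in `n`. -/
theorem ofarv_uc {P : J → ℕ → ℝ → ℝ} {F : ℕ → ℝ} (hp : ∀ j n z, P j (n + 2) z = P j n z)
    (pF : ∀ n, F (n + 2) = F n)
    (hF : ∀ n, Tendsto (fun p : J × ℝ => P p.1 n p.2) (l ×ˢ 𝓝[>] (0 : ℝ)) (𝓝 (F n)))
    {z : J → ℕ → ℝ} (hz : ∀ᶠ j in l, ∀ n, 0 < z j n ∧ z j n ≤ z j 0)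
    (h0 : Tendsto (fun j => z j 0) l (𝓝 0)) : UC l (fun j n => P j n (z j n)) F := by
  intro ε hε
  have key : ∀ b : ℕ, ∀ᶠ j in l, ∀ x : ℝ, 0 < x → x ≤ z j 0 → |P j b x - F b| ≤ ε := by
    intro b
    have h1 : ∀ᶠ p : J × ℝ in l ×ˢ 𝓝[>] (0 : ℝ), |P p.1 b p.2 - F b| ≤ ε := by
      have := (hF b).eventually (Metric.closedBall_mem_nhds (F b) hε)
      filter_upwards [this] with p hp'
      rwa [Real.dist_eq] at hp'
    obtain ⟨pa, ha, pb, hb, hab⟩ := eventually_prod_iff.1 h1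
    obtain ⟨δ, hδ, hsub⟩ := mem_nhdsGT_iff_exists_Ioo_subset.1 hb
    have hδ' : (0 : ℝ) < δ := hδ
    filter_upwards [ha, h0.eventually (gt_mem_nhds hδ')] with j hj1 hj2 x hx0 hx1
    exact hab hj1 (hsub ⟨hx0, lt_of_le_of_lt hx1 hj2⟩)
  filter_upwards [key 0, key 1, hz] with j h1 h2 h3 n
  have hn : n % 2 = 0 ∨ n % 2 = 1 := by omega
  rcases hn with hn | hn
  · have e1 : P j n = P j 0 := per_eq (c := P j) (fun m => funext fun z => hp j m z)
      (by rw [hn])
    have e2 : F n = F 0 := per_eq pF (by rw [hn])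
    show |P j n (z j n) - F n| ≤ ε
    rw [e1, e2]
    exact h1 _ (h3 n).1 (h3 n).2
  · have e1 : P j n = P j 1 := per_eq (c := P j) (fun m => funext fun z => hp j m z)
      (by rw [hn])
    have e2 : F n = F 1 := per_eq pF (by rw [hn])
    show |P j n (z j n) - F n| ≤ ε
    rw [e1, e2]
    exact h2 _ (h3 n).1 (h3 n).2

/-- The environment for the other components.  `G`: since `0 < z_n ≤ z_0 → 0`, `hF` for
`n = 0, 1` gives the closeness of all components of the profiles (`UC`), uniformly in `n`. -/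
theorem far_env (he : 1 ≤ e) (hd : 0 < d) {P : J → ℕ → ℝ → Np} {N₀ : J → Nv} {F : ℕ → Np}
    {N : ℕ → Nv} (C : Cyc e d F N) (hp : ∀ j n z, P j (n + 2) z = P j n z)
    (hF : ∀ n, TP (l ×ˢ 𝓝[>] (0 : ℝ)) (fun p : J × ℝ => P p.1 n p.2) (F n))
    (h0 : TN l N₀ (N 0)) (hz0 : ∀ᶠ j in l, 0 < (N₀ j).z) :
    ∃ θ : ℝ, Env l e d θ (fun j n => P j n (cN e d (P j) (N₀ j) n).z)
      (fun j n => cN e d (P j) (N₀ j) n) F N := by
  have hz : Tendsto (fun j => (N₀ j).z) l (𝓝 0) := by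
    have := h0.z
    rwa [C.z 0] at this
  obtain ⟨hw, θ, t0, t1, hθ⟩ := far_w he hd C hp (fun n => (hF n).w) h0.w hz hz0
  have hdec : ∀ᶠ j in l, ∀ n, 0 < (cN e d (P j) (N₀ j) n).z ∧
      (cN e d (P j) (N₀ j) n).z ≤ (cN e d (P j) (N₀ j) 0).z := by
    filter_upwards [hθ] with j hj n
    refine ⟨(hj n).1, ?_⟩
    induction n with
    | zero => exact le_rfl
    | succ n ih =>
      have h1 := (hj n).2
      have h2 := (hj n).1
      nlinarith
  have hz' : Tendsto (fun j => (cN e d (P j) (N₀ j) 0).z) l (𝓝 0) := hz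
  refine ⟨θ, ⟨he, hd, C, fun j n => rfl, h0, t0, t1, hθ, hw, ?_⟩⟩
  exact ⟨ofarv_uc (P := fun j n z => (P j n z).w) (F := fun n => (F n).w)
      (fun j n z => by rw [hp]) (fun n => by rw [C.pF]) (fun n => (hF n).w) hdec hz',
    ofarv_uc (P := fun j n z => (P j n z).g) (F := fun n => (F n).g)
      (fun j n z => by rw [hp]) (fun n => by rw [C.pF]) (fun n => (hF n).g) hdec hz',
    ofarv_uc (P := fun j n z => (P j n z).b) (F := fun n => (F n).b)
      (fun j n z => by rw [hp]) (fun n => by rw [C.pF]) (fun n => (hF n).b) hdec hz',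
    ofarv_uc (P := fun j n z => (P j n z).K) (F := fun n => (F n).K)
      (fun j n z => by rw [hp]) (fun n => by rw [C.pF]) (fun n => (hF n).K) hdec hz',
    ofarv_uc (P := fun j n z => (P j n z).L) (F := fun n => (F n).L)
      (fun j n z => by rw [hp]) (fun n => by rw [C.pF]) (fun n => (hF n).L) hdec hz',
    ofarv_uc (P := fun j n z => (P j n z).Q) (F := fun n => (F n).Q)
      (fun j n z => by rw [hp]) (fun n => by rw [C.pF]) (fun n => (hF n).Q) hdec hz'⟩

end CJ
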