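import Pool.Agent.H.MP_1693ff_gtE.OE

/-!
# Convergence uniform in the number of the step
-/

namespace CJ

open Real Set Filter Topology CG CH
open CF hiding St

variable {J : Type*} {l : Filter J}

/-- `Filter.eventually_inf_principal`, `Filter.eventually_prod_principal_iff` (`⊤ = 𝓟 univ`,
`Filter.principal_univ`). -/
theorem pf_ev {b : ℕ} {Q : J × ℕ → Prop} :
    (∀ᶠ p in PF l b, Q p) ↔ ∀ᶠ j in l, ∀ n, n % 2 = b % 2 → Q (j, n) := by
  unfold PF
  rw [eventually_inf_principal, ← principal_univ, eventually_prod_principal_iff]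
  constructor
  · intro h
    filter_upwards [h] with j hj n hn
    exact hj n (mem_univ _) hn
  · intro h
    filter_upwards [h] with j hj n _ hn
    exact hj n hn

/-- The version with a restriction. -/
theorem pf_ev_inf {b : ℕ} {Q R : J × ℕ → Prop} :
    (∀ᶠ p in PF l b ⊓ 𝓟 {p | R p}, Q p) ↔
      ∀ᶠ j in l, ∀ n, n % 2 = b % 2 → R (j, n) → Q (j, n) := by
  rw [eventually_inf_principal, pf_ev]
  exact Iff.rfl

theorem ouca_aux1 {X : Type*} {c : ℕ → X} (pc : ∀ n, c (n + 2) = c n) (r : ℕ) :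
    ∀ m : ℕ, c (r + 2 * m) = c r := by
  intro m
  induction m with
  | zero => rfl
  | succ m ih =>
    rw [← ih, ← pc (r + 2 * m)]
    rfl

/-- A 2-periodic sequence depends on the parity only. -/
theorem per_eq {X : Type*} {c : ℕ → X} (pc : ∀ n, c (n + 2) = c n) {n b : ℕ}
    (h : n % 2 = b % 2) : c n = c b := by
  have h1 := ouca_aux1 pc (n % 2) (n / 2)
  have h2 := ouca_aux1 pc (b % 2) (b / 2)
  rw [Nat.mod_add_div] at h1 h2
  rw [h1, h2, h]

/-- From uniform convergence to a 2-periodic limit to a limit along `PF`. -/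
theorem uc_pf {x : J → ℕ → ℝ} {c : ℕ → ℝ} (pc : ∀ n, c (n + 2) = c n) (h : UC l x c) (b : ℕ) :
    Tendsto (fun p : J × ℕ => x p.1 p.2) (PF l b) (𝓝 (c b)) := by
  rw [Metric.tendsto_nhds]
  intro ε hε
  rw [pf_ev]
  filter_upwards [h (ε / 2) (half_pos hε)] with j hj n hn
  rw [Real.dist_eq, ← per_eq pc hn]
  exact (hj n).trans_lt (half_lt_self hε)

/-- Conversely. -/
theorem pf_uc {x : J → ℕ → ℝ} {c : ℕ → ℝ} (pc : ∀ n, c (n + 2) = c n)
    (h : ∀ b, Tendsto (fun p : J × ℕ => x p.1 p.2) (PF l b) (𝓝 (c b))) : UC l x c := by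
  intro ε hε
  have h0 := Metric.tendsto_nhds.1 (h 0) ε hε
  have h1 := Metric.tendsto_nhds.1 (h 1) ε hε
  rw [pf_ev] at h0 h1
  filter_upwards [h0, h1] with j hj0 hj1 n
  rcases Nat.mod_two_eq_zero_or_one n with hn | hn
  · have h2 : n % 2 = 0 % 2 := hn
    have h3 := hj0 n h2
    rw [Real.dist_eq, ← per_eq pc h2] at h3
    exact h3.le
  · have h2 : n % 2 = 1 % 2 := hn
    have h3 := hj1 n h2
    rw [Real.dist_eq, ← per_eq pc h2] at h3
    exact h3.le

/-- `n ↦ n + 1` changes the parity. -/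
theorem pf_succ {X : Type*} {x : J → ℕ → X} {b : ℕ} {L : Filter X}
    (h : Tendsto (fun p : J × ℕ => x p.1 p.2) (PF l (b + 1)) L) :
    Tendsto (fun p : J × ℕ => x p.1 (p.2 + 1)) (PF l b) L := by
  intro s hs
  have h1 : ∀ᶠ p in PF l (b + 1), x p.1 p.2 ∈ s := h hs
  rw [pf_ev] at h1
  have h2 : ∀ᶠ p in PF l b, x p.1 (p.2 + 1) ∈ s := by
    rw [pf_ev]
    filter_upwards [h1] with j hj n hn
    exact hj (n + 1) (by omega)
  exact h2

end CJ
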