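import Pool.Agent.H.MP_1693ff_gtE.OStW
import Pool.Agent.H.MP_1693ff_gtE.OStV
import Pool.Agent.H.MP_1693ff_gtE.OUCa

/-!
# Runs near the limit cycle: `w` and `z`
-/

namespace CJ

open Real Set Filter Topology CG CH
open CF hiding St

variable {J : Type*} {l : Filter J} {e d : ℝ}

/-- one half step, with the weights `w^{e-1}`. -/
theorem ofarw_one (he : 1 ≤ e) (hd : 0 < d) {F : ℕ → Np} {N : ℕ → Nv} (C : Cyc e d F N)
    (n : ℕ) : ∃ Λ K ρ o : ℝ, 0 ≤ Λ ∧ Λ < 1 ∧ 0 ≤ K ∧ 0 < ρ ∧ 0 < o ∧ ∀ f' w',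
      |f' - (F n).w| ≤ ρ → |w' - (N n).w| ≤ ρ →
      (N (n + 1)).w ^ (e - 1) * |ps e d f' w' - (N (n + 1)).w| ≤
        Λ * ((N n).w ^ (e - 1) * |w' - (N n).w|) + K * |f' - (F n).w| ∧
      o ≤ (f' ^ e - w' ^ e) ^ e⁻¹ := by
  have w0 := C.w0 n
  have w1 := C.w1 n
  have hγ : 0 < (N n).w ^ (e - 1) := Real.rpow_pos_of_pos w0 _
  have hγ' : 0 < (N (n + 1)).w ^ (e - 1) := Real.rpow_pos_of_pos (C.w0 (n + 1)) _
  have hwt := w_weight he hd w0 w1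
  rw [← C.st n] at hwt
  have ho : 0 < ((F n).w ^ e - (N n).w ^ e) ^ e⁻¹ :=
    Real.rpow_pos_of_pos (sub_pos.2 (Real.rpow_lt_rpow w0.le w1 (by linarith))) _
  have h7 : ps e d (F n).w (N n).w = (N (n + 1)).w := by
    rw [C.st n]
    rfl
  generalize hγd : (N n).w ^ (e - 1) = γ at *
  generalize hγd' : (N (n + 1)).w ^ (e - 1) = γ' at *
  have hκ : 0 ≤ ((N n).w / ((F n).w ^ e - (N n).w ^ e) ^ e⁻¹) ^ (e - 1) /
      (1 + d * ((F n).w ^ e - (N n).w ^ e) ^ e⁻¹) ^ 2 := by positivity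
  have h1 := (lt_div_iff₀ hγ').2 hwt
  obtain ⟨lam, h2, h3⟩ := exists_between h1
  have h4 : 0 < lam := hκ.trans_lt h2
  have h5 : lam * γ' < γ := (lt_div_iff₀ hγ').1 h3
  obtain ⟨Cc, ρ, hC, hρ, h⟩ := w_step he hd w0 w1 h2
  refine ⟨lam * γ' / γ, γ' * Cc, ρ, _, by positivity, (div_lt_one hγ).2 h5,
    by positivity, hρ, half_pos ho, ?_⟩
  intro f' w' hf hw
  obtain ⟨h8, -, -, h9⟩ := h f' w' hf hw
  rw [h7] at h8
  refine ⟨?_, h9⟩
  have h10 : lam * γ' / γ * (γ * |w' - (N n).w|) = γ' * (lam * |w' - (N n).w|) := by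
    field_simp
  rw [h10]
  have h11 := mul_le_mul_of_nonneg_left h8 hγ'.le
  linarith

/-- all half steps. -/
theorem ofarw_all (he : 1 ≤ e) (hd : 0 < d) {F : ℕ → Np} {N : ℕ → Nv} (C : Cyc e d F N) :
    ∃ Λ K ρ o : ℝ, 0 ≤ Λ ∧ Λ < 1 ∧ 0 ≤ K ∧ 0 < ρ ∧ 0 < o ∧ ∀ n f' w',
      |f' - (F n).w| ≤ ρ → |w' - (N n).w| ≤ ρ →
      (N (n + 1)).w ^ (e - 1) * |ps e d f' w' - (N (n + 1)).w| ≤
        Λ * ((N n).w ^ (e - 1) * |w' - (N n).w|) + K * |f' - (F n).w| ∧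
      o ≤ (f' ^ e - w' ^ e) ^ e⁻¹ := by
  obtain ⟨Λ₀, K₀, ρ₀, o₀, a1, a2, a3, a4, a5, a6⟩ := ofarw_one he hd C 0
  obtain ⟨Λ₁, K₁, ρ₁, o₁, b1, b2, b3, b4, b5, b6⟩ := ofarw_one he hd C 1
  refine ⟨max Λ₀ Λ₁, max K₀ K₁, min ρ₀ ρ₁, min o₀ o₁, a1.trans (le_max_left _ _),
    max_lt a2 b2, a3.trans (le_max_left _ _), lt_min a4 b4, lt_min a5 b5, ?_⟩
  intro n
  induction n using Nat.twoStepInduction with
  | zero =>
    intro f' w' hf hw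
    obtain ⟨h1, h2⟩ := a6 f' w' (hf.trans (min_le_left _ _)) (hw.trans (min_le_left _ _))
    refine ⟨h1.trans (add_le_add ?_ ?_), (min_le_left _ _).trans h2⟩
    · exact mul_le_mul_of_nonneg_right (le_max_left _ _)
        (mul_nonneg (Real.rpow_pos_of_pos (C.w0 0) _).le (abs_nonneg _))
    · exact mul_le_mul_of_nonneg_right (le_max_left _ _) (abs_nonneg _)
  | one =>
    intro f' w' hf hw
    obtain ⟨h1, h2⟩ := b6 f' w' (hf.trans (min_le_right _ _)) (hw.trans (min_le_right _ _))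
    refine ⟨h1.trans (add_le_add ?_ ?_), (min_le_right _ _).trans h2⟩
    · exact mul_le_mul_of_nonneg_right (le_max_right _ _)
        (mul_nonneg (Real.rpow_pos_of_pos (C.w0 1) _).le (abs_nonneg _))
    · exact mul_le_mul_of_nonneg_right (le_max_right _ _) (abs_nonneg _)
  | more n ih _ =>
    have e1 := C.pF n
    have e2 := C.pN n
    have e3 : N (n + 2 + 1) = N (n + 1) := C.pN (n + 1)
    rw [e1, e2, e3]
    exact ih

/-- uniformity in the number of the step of the convergence of the profiles. -/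
theorem ofarw_prof {P : J → ℕ → ℝ → Np} {F : ℕ → Np} (hpF : ∀ n, F (n + 2) = F n)
    (hp : ∀ j n z, P j (n + 2) z = P j n z)
    (hF : ∀ n, Tendsto (fun p : J × ℝ => (P p.1 n p.2).w) (l ×ˢ 𝓝[>] 0) (𝓝 (F n).w))
    {φ : ℝ} (hφ : 0 < φ) : ∃ δ > 0, ∀ᶠ j in l, ∀ n, ∀ z, 0 < z → z < δ →
      |(P j n z).w - (F n).w| ≤ φ := by
  have key : ∀ n, ∃ δ > 0, ∀ᶠ j in l, ∀ z, 0 < z → z < δ → |(P j n z).w - (F n).w| ≤ φ := by
    intro n
    have h1 := Metric.tendsto_nhds.1 (hF n) φ hφ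
    obtain ⟨pa, ha, pb, hb, hab⟩ := eventually_prod_iff.1 h1
    obtain ⟨δ, hδ, hδ'⟩ := mem_nhdsGT_iff_exists_Ioo_subset.1 hb
    refine ⟨δ, hδ, ?_⟩
    filter_upwards [ha] with j hj z hz hz'
    have h2 := hab hj (hδ' ⟨hz, hz'⟩)
    rw [Real.dist_eq] at h2
    exact h2.le
  obtain ⟨δ₀, d0, h0⟩ := key 0
  obtain ⟨δ₁, d1, h1⟩ := key 1
  refine ⟨min δ₀ δ₁, lt_min d0 d1, ?_⟩
  filter_upwards [h0, h1] with j h0 h1 n
  induction n using Nat.twoStepInduction with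
  | zero => exact fun z hz hz' => h0 z hz (hz'.trans_le (min_le_left _ _))
  | one => exact fun z hz hz' => h1 z hz (hz'.trans_le (min_le_right _ _))
  | more n ih _ =>
    intro z hz hz'
    rw [hp, hpF]
    exact ih z hz hz'

/-- the induction. -/
theorem ofarw_main (he : 1 ≤ e) (hd : 0 < d) {P : J → ℕ → ℝ → Np} {N₀ : J → Nv} {F : ℕ → Np}
    {N : ℕ → Nv} (C : Cyc e d F N) (hp : ∀ j n z, P j (n + 2) z = P j n z)
    (hF : ∀ n, Tendsto (fun p : J × ℝ => (P p.1 n p.2).w) (l ×ˢ 𝓝[>] 0) (𝓝 (F n).w))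
    (h0 : Tendsto (fun j => (N₀ j).w) l (𝓝 (N 0).w))
    (hz : Tendsto (fun j => (N₀ j).z) l (𝓝 0)) (hz0 : ∀ᶠ j in l, 0 < (N₀ j).z) :
    ∃ ρ θ : ℝ, 0 < ρ ∧ 0 ≤ θ ∧ θ < 1 ∧ ∀ ε > 0, ε ≤ ρ → ∀ᶠ j in l, ∀ n,
      |(cN e d (P j) (N₀ j) n).w - (N n).w| ≤ ε ∧ 0 < (cN e d (P j) (N₀ j) n).z ∧
      (cN e d (P j) (N₀ j) (n + 1)).z ≤ θ * (cN e d (P j) (N₀ j) n).z := by
  obtain ⟨Λ, K, ρ, o, hΛ0, hΛ1, hK, hρ, ho, hall⟩ := ofarw_all he hd C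
  have hdo : 0 < d * o := mul_pos hd ho
  refine ⟨ρ, (1 + d * o)⁻¹, hρ, by positivity, inv_lt_one_of_one_lt₀ (by linarith), ?_⟩
  intro ε hε hερ
  obtain ⟨g, hg⟩ : ∃ g : ℕ → ℝ, g = fun n => (N n).w ^ (e - 1) := ⟨_, rfl⟩
  have hgp : ∀ n, 0 < g n := by
    intro n
    rw [hg]
    exact Real.rpow_pos_of_pos (C.w0 n) _
  have hg2 : ∀ n, g (n + 2) = g n := by
    intro n
    rw [hg]
    simp only [C.pN n]
  have hgm : ∀ n, min (g 0) (g 1) ≤ g n := by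
    intro n
    induction n using Nat.twoStepInduction with
    | zero => exact min_le_left _ _
    | one => exact min_le_right _ _
    | more n ih _ =>
      rw [hg2]
      exact ih
  have hg0 : 0 < min (g 0) (g 1) := lt_min (hgp 0) (hgp 1)
  generalize min (g 0) (g 1) = g₀ at *
  have hM : 0 < g₀ * ε := mul_pos hg0 hε
  obtain ⟨φ, hφ0, hφρ, hφK⟩ : ∃ φ : ℝ, 0 < φ ∧ φ ≤ ρ ∧ K * φ ≤ (1 - Λ) * (g₀ * ε) := by
    have h1 : 0 < (1 - Λ) * (g₀ * ε) / (K + 1) :=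
      div_pos (mul_pos (by linarith) hM) (by linarith)
    refine ⟨min ρ ((1 - Λ) * (g₀ * ε) / (K + 1)), lt_min hρ h1, min_le_left _ _, ?_⟩
    calc K * min ρ ((1 - Λ) * (g₀ * ε) / (K + 1))
        ≤ (K + 1) * ((1 - Λ) * (g₀ * ε) / (K + 1)) :=
          mul_le_mul (by linarith) (min_le_right _ _) (lt_min hρ h1).le (by linarith)
      _ = (1 - Λ) * (g₀ * ε) := by
          field_simp
  obtain ⟨δ, hδ, hprof⟩ := ofarw_prof C.pF hp hF hφ0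
  have hA : ∀ᶠ j in l, g 0 * |(N₀ j).w - (N 0).w| ≤ g₀ * ε := by
    have h1 := Metric.tendsto_nhds.1 h0 (g₀ * ε / g 0) (div_pos hM (hgp 0))
    filter_upwards [h1] with j hj
    rw [Real.dist_eq, lt_div_iff₀ (hgp 0)] at hj
    linarith [mul_comm (g 0) |(N₀ j).w - (N 0).w|]
  have hB : ∀ᶠ j in l, (N₀ j).z < δ := hz.eventually_lt_const hδ
  filter_upwards [hprof, hA, hB, hz0] with j hprof hA hB hz0
  -- one step for this `j`
  have hone : ∀ n, 0 < (cN e d (P j) (N₀ j) n).z → (cN e d (P j) (N₀ j) n).z < δ →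
      g n * |(cN e d (P j) (N₀ j) n).w - (N n).w| ≤ g₀ * ε →
      |(cN e d (P j) (N₀ j) n).w - (N n).w| ≤ ε ∧
      0 < (cN e d (P j) (N₀ j) (n + 1)).z ∧
      (cN e d (P j) (N₀ j) (n + 1)).z ≤ (1 + d * o)⁻¹ * (cN e d (P j) (N₀ j) n).z ∧
      g (n + 1) * |(cN e d (P j) (N₀ j) (n + 1)).w - (N (n + 1)).w| ≤ g₀ * ε := by
    intro n z0 z1 hw
    have h1 : |(cN e d (P j) (N₀ j) n).w - (N n).w| ≤ ε := by
      have h2 : g₀ * |(cN e d (P j) (N₀ j) n).w - (N n).w| ≤ g₀ * ε :=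
        (mul_le_mul_of_nonneg_right (hgm n) (abs_nonneg _)).trans hw
      exact le_of_mul_le_mul_left h2 hg0
    have h2 := hprof n _ z0 z1
    obtain ⟨h3, h4⟩ := hall n _ _ (h2.trans hφρ) (h1.trans hερ)
    have h5 : (cN e d (P j) (N₀ j) (n + 1)).w =
        ps e d (P j n (cN e d (P j) (N₀ j) n).z).w (cN e d (P j) (N₀ j) n).w := rfl
    have h6 : (cN e d (P j) (N₀ j) (n + 1)).z = (cN e d (P j) (N₀ j) n).z /
        (1 + d * ((P j n (cN e d (P j) (N₀ j) n).z).w ^ e -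
          (cN e d (P j) (N₀ j) n).w ^ e) ^ e⁻¹) := rfl
    rw [← h5] at h3
    generalize ((P j n (cN e d (P j) (N₀ j) n).z).w ^ e -
          (cN e d (P j) (N₀ j) n).w ^ e) ^ e⁻¹ = o' at *
    have h7 : 1 + d * o ≤ 1 + d * o' := by
      have := mul_le_mul_of_nonneg_left h4 hd.le
      linarith
    refine ⟨h1, ?_, ?_, ?_⟩
    · rw [h6]
      exact div_pos z0 (by linarith)
    · rw [h6, div_eq_mul_inv, mul_comm]
      exact mul_le_mul_of_nonneg_right (inv_anti₀ (by linarith) h7) z0.le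
    · have hgn : g n = (N n).w ^ (e - 1) := by rw [hg]
      have hgn' : g (n + 1) = (N (n + 1)).w ^ (e - 1) := by rw [hg]
      rw [← hgn, ← hgn'] at h3
      have h8 := mul_le_mul_of_nonneg_left hw hΛ0
      have h9 := mul_le_mul_of_nonneg_left h2 hK
      linarith
  have hind : ∀ n, 0 < (cN e d (P j) (N₀ j) n).z ∧ (cN e d (P j) (N₀ j) n).z < δ ∧
      g n * |(cN e d (P j) (N₀ j) n).w - (N n).w| ≤ g₀ * ε := by
    intro n
    induction n with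
    | zero => exact ⟨hz0, hB, hA⟩
    | succ n ih =>
      obtain ⟨i1, i2, i3⟩ := ih
      obtain ⟨-, k2, k3, k4⟩ := hone n i1 i2 i3
      refine ⟨k2, lt_of_le_of_lt (k3.trans ?_) i2, k4⟩
      have h1 : (1 + d * o)⁻¹ ≤ 1 := inv_le_one_of_one_le₀ (by linarith)
      have h2 := mul_le_mul_of_nonneg_right h1 i1.le
      linarith
  intro n
  obtain ⟨i1, i2, i3⟩ := hind n
  obtain ⟨k1, -, k3, -⟩ := hone n i1 i2 i3
  exact ⟨k1, i1, k3⟩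

/-- **`w` stays near the limit cycle and `z` decays.**  Let `κ_n = (w_n/o_n)^{e-1}/μ_n²`,
`γ_n = w_n^{e-1}` on the limit cycle (2-periodic); by `w_weight` choose `lam_n > κ_n` with
`lam_n γ_{n+1} < γ_n`, and `Λ < 1` with `lam_n γ_{n+1} ≤ Λ γ_n` for `n = 0, 1`, hence for all
`n`.  `w_step` (for `n = 0, 1`) gives common `C`, `ρ`, and `θ = max_n 1/(1 + d o_n/2) < 1`.
Given `ε` (without loss `≤ ρ`): by `hF` (for `n = 0, 1`; `hp`) there is `δ > 0` such that for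
`j` eventually and all `n`, `z ∈ (0, δ)`: `|(P j n z).w - (F n).w| ≤ min ρ ε'`, and eventually
`0 < (N₀ j).z < δ`, `|(N₀ j).w - (N 0).w|` small.  By induction on `n`: `0 < z_n ≤ z_0` and
`γ_n |w_n - w*_n| ≤ g₀ ε`, `g₀ = min γ`: the new `w` is `ps e d (P j n z_n).w w_n`
(`nst`, `no`, `nm`, `ps` unfold), that of the limit cycle `ps e d (F n).w w*_n`, and
`z_{n+1} = z_n/(1 + d o) ≤ θ z_n`. -/
theorem far_w (he : 1 ≤ e) (hd : 0 < d) {P : J → ℕ → ℝ → Np} {N₀ : J → Nv} {F : ℕ → Np}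
    {N : ℕ → Nv} (C : Cyc e d F N) (hp : ∀ j n z, P j (n + 2) z = P j n z)
    (hF : ∀ n, Tendsto (fun p : J × ℝ => (P p.1 n p.2).w) (l ×ˢ 𝓝[>] 0) (𝓝 (F n).w))
    (h0 : Tendsto (fun j => (N₀ j).w) l (𝓝 (N 0).w))
    (hz : Tendsto (fun j => (N₀ j).z) l (𝓝 0)) (hz0 : ∀ᶠ j in l, 0 < (N₀ j).z) :
    UC l (fun j n => (cN e d (P j) (N₀ j) n).w) (fun n => (N n).w) ∧
    ∃ θ : ℝ, 0 ≤ θ ∧ θ < 1 ∧ ∀ᶠ j in l, ∀ n, 0 < (cN e d (P j) (N₀ j) n).z ∧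
      (cN e d (P j) (N₀ j) (n + 1)).z ≤ θ * (cN e d (P j) (N₀ j) n).z := by
  obtain ⟨ρ, θ, hρ, hθ0, hθ1, hmain⟩ := ofarw_main he hd C hp hF h0 hz hz0
  refine ⟨?_, θ, hθ0, hθ1, ?_⟩
  · intro ε hε
    filter_upwards [hmain (min ε ρ) (lt_min hε hρ) (min_le_right _ _)] with j hj n
    exact (hj n).1.trans (min_le_left _ _)
  · filter_upwards [hmain ρ hρ le_rfl] with j hj n
    exact (hj n).2

end CJ
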