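import Pool.Agent.H.MP_1693ff_gtE.OE
import Pool.Agent.H.MP_1693ff_gtC.NFin
import Pool.Agent.H.MP_1693ff_gtD.MQD

/-!
# Translations; necessity
-/

namespace CJ

open Real Set Filter Topology CG CH
open CF hiding St
open CI (EvC qf)

theorem ofina_radial {F : Type*} [AddCommGroup F] [Module ℝ F] (K : Set F) (y p u : F) :
    radial ((fun x => y + x) '' K) (y + p) u = radial K p u := by
  unfold radial
  have h : {c : ℝ | 0 ≤ c ∧ y + p + c • u ∈ (fun x => y + x) '' K} =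
      {c : ℝ | 0 ≤ c ∧ p + c • u ∈ K} := by
    ext c
    refine and_congr_right fun _ => ?_
    rw [add_assoc]
    constructor
    · rintro ⟨x, hx, he⟩
      have h1 : x = p + c • u := add_left_cancel he
      rw [← h1]
      exact hx
    · intro hx
      exact ⟨_, hx, rfl⟩
  rw [h]

theorem ofina_chord {F : Type*} [AddCommGroup F] [Module ℝ F] (i : ℝ) (K : Set F) (y p u : F) :
    chord i ((fun x => y + x) '' K) (y + p) u = chord i K p u := by
  unfold chord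
  rw [ofina_radial, ofina_radial]

theorem ofina_interior {F : Type*} [NormedAddCommGroup F] [NormedSpace ℝ F] (K : Set F) (y : F) :
    interior ((fun x => y + x) '' K) = (fun x => y + x) '' interior K :=
  ((Homeomorph.addLeft y).image_interior K).symm

/-- Translation of a pair. -/
theorem pairE_vadd {n : ℕ} {i : ℝ} {f₁ f₂ : EuclideanSpace ℝ (Fin n) → ℝ}
    {K : Set (EuclideanSpace ℝ (Fin n))} {p₁ p₂ : EuclideanSpace ℝ (Fin n)}
    (y : EuclideanSpace ℝ (Fin n)) (h : PairE i f₁ f₂ K p₁ p₂) :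
    PairE i f₁ f₂ ((fun x => y + x) '' K) (y + p₁) (y + p₂) := by
  obtain ⟨⟨hc, hk, hi⟩, h1, h2, h3, h4⟩ := h
  refine ⟨⟨hc.translate y, hk.image (continuous_const.add continuous_id), ?_⟩, ?_, ?_, ?_, ?_⟩
  · rw [ofina_interior]
    exact hi.image _
  · rw [ofina_interior]
    exact mem_image_of_mem _ h1
  · rw [ofina_interior]
    exact mem_image_of_mem _ h2
  · intro u hu
    rw [ofina_chord, h3 u hu]
  · intro u hu
    rw [ofina_chord, h4 u hu]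

/-- Translation of a smooth body (`radial` does not change). -/
theorem sm_vadd {n : ℕ} {K : Set (EuclideanSpace ℝ (Fin n))} {p : EuclideanSpace ℝ (Fin n)}
    (y : EuclideanSpace ℝ (Fin n)) (h : Sm K p) : Sm ((fun x => y + x) '' K) (y + p) := by
  have h1 : (fun u => (radial ((fun x => y + x) '' K) (y + p) u)⁻¹) =
      fun u => (radial K p u)⁻¹ := by
    funext u
    rw [ofina_radial]
  refine ⟨?_, ?_⟩
  · rw [h1]
    exact h.c
  · rw [h1]
    exact h.q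

/-- Necessity of the curvature condition: as in `CI.nec_pair`, for the given points. -/
theorem nec_at {n : ℕ} {g₁ g₂ : EuclideanSpace ℝ (Fin n) → ℝ} (h1 : EvC 2 g₁) (h2 : EvC 2 g₂)
    {K : Set (EuclideanSpace ℝ (Fin n))} {p₁ p₂ : EuclideanSpace ℝ (Fin n)} (hne : p₁ ≠ p₂)
    (h : PairE (-1) g₁ g₂ K p₁ p₂) {w : EuclideanSpace ℝ (Fin n)} (hw : ‖w‖ = 1)
    (ho : inner ℝ w (p₂ - p₁) = (0 : ℝ)) :
    qf g₁ (‖p₂ - p₁‖⁻¹ • (p₂ - p₁)) w = qf g₂ (‖p₂ - p₁‖⁻¹ • (p₂ - p₁)) w := by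
  obtain ⟨hK, hp₁, hp₂, c1, c2⟩ := h
  have hD : 0 < ‖p₂ - p₁‖ := norm_pos_iff.2 (sub_ne_zero.2 hne.symm)
  have he : ‖‖p₂ - p₁‖⁻¹ • (p₂ - p₁)‖ = 1 := by
    rw [norm_smul, norm_inv, norm_norm, inv_mul_cancel₀ hD.ne']
  have he0 : ‖p₂ - p₁‖⁻¹ • (p₂ - p₁) ≠ 0 := by
    intro h0
    rw [h0, norm_zero] at he
    exact zero_ne_one he
  have hwe : inner ℝ w (‖p₂ - p₁‖⁻¹ • (p₂ - p₁)) = (0 : ℝ) := by
    rw [inner_smul_right, ho, mul_zero]
  have hu : ∀ t : ℝ, ‖cos t • (‖p₂ - p₁‖⁻¹ • (p₂ - p₁)) + sin t • w‖ = 1 := by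
    intro t
    have hew : inner ℝ (‖p₂ - p₁‖⁻¹ • (p₂ - p₁)) w = (0 : ℝ) := by rw [real_inner_comm, hwe]
    have h1 : ‖cos t • (‖p₂ - p₁‖⁻¹ • (p₂ - p₁)) + sin t • w‖ ^ 2 = 1 := by
      rw [norm_add_sq_real, norm_smul (cos t), norm_smul (sin t), he, hw, inner_smul_left,
        inner_smul_right, hew]
      simp only [Real.norm_eq_abs, mul_one, sq_abs, mul_zero, add_zero]
      exact Real.cos_sq_add_sin_sq t
    exact (pow_eq_one_iff_of_nonneg (norm_nonneg _) two_ne_zero).1 h1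
  have t1 := CI.evc_taylor h1 (w := w) he0
  have t2 := CI.evc_taylor h2 (w := w) he0
  have hc1 : ∀ t : ℝ, chord (-1) K p₁ (cos t • (‖p₂ - p₁‖⁻¹ • (p₂ - p₁)) + sin t • w) =
      g₁ (cos t • (‖p₂ - p₁‖⁻¹ • (p₂ - p₁)) + sin t • w) := fun t => c1 _ (hu t)
  have hc2 : ∀ t : ℝ, chord (-1) K p₂ (cos t • (‖p₂ - p₁‖⁻¹ • (p₂ - p₁)) + sin t • w) =
      g₂ (cos t • (‖p₂ - p₁‖⁻¹ • (p₂ - p₁)) + sin t • w) := fun t => c2 _ (hu t)
  simp only [← hc1] at t1
  simp only [← hc2] at t2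
  exact partA K p₁ p₂ w hK hp₁ hp₂ hne hw ho _ _ _ _ _ _ t1 t2

end CJ
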