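import Pool.Agent.H.MP_1693ff_gtE.OJCp

/-!
# Families with continuous derivatives: composition
-/

namespace CJ

open Real Set Filter Topology CG CH
open CF hiding St

variable {ι : Type} [TopologicalSpace ι]
variable {E : Type} [NormedAddCommGroup E] [InnerProductSpace ℝ E]

/-- A fixed function. Induction on `k` (all `F`). -/
theorem JC.const {i₀ : ι} {v : E} {k : ℕ} {F : Type} [NormedAddCommGroup F] [NormedSpace ℝ F]
    {f : E → F} (h : ContDiffAt ℝ k f v) : JC i₀ v k (fun _ : ι => f) := by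
  have hev : ∀ {F : Type} [NormedAddCommGroup F] [NormedSpace ℝ F] {f : E → F} {k : ℕ},
      ContDiffAt ℝ k f v → ∀ᶠ p : ι × E in 𝓝 (i₀, v), ContDiffAt ℝ k f p.2 := by
    intro F _ _ f k h
    have h1 : ∀ᶠ y in 𝓝 v, ContDiffAt ℝ k f y := h.eventually (by simp)
    have h2 : Tendsto (fun p : ι × E => p.2) (𝓝 (i₀, v)) (𝓝 v) := continuousAt_snd
    exact h2.eventually h1
  have hco : ∀ {F : Type} [NormedAddCommGroup F] [NormedSpace ℝ F] {f : E → F},
      ContinuousAt f v → ContinuousAt (fun p : ι × E => f p.2) (i₀, v) := by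
    intro F _ _ f h
    have h2 : Tendsto (fun p : ι × E => p.2) (𝓝 (i₀, v)) (𝓝 v) := continuousAt_snd
    exact Tendsto.comp h h2
  induction k generalizing F with
  | zero => exact ⟨hev h, hco h.continuousAt⟩
  | succ k ih =>
    refine JC.of_fd (hev h) (hco h.continuousAt) ?_
    exact ih (h.fderiv_right (m := (k : WithTop ℕ∞)) (by push_cast; exact le_rfl))

/-- **Composition with a fixed function.**  Induction on `k` (for all spaces and functions):
near `(i₀, v)`, `fderiv (Ψ ∘ f i) x = (fderiv Ψ (f i x)).comp (fderiv (f i) x)` (`JC.congr`);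
`(i, x) ↦ fderiv Ψ (f i x)` is `JC k` by induction (`JC.mono`, `ContDiffAt.fderiv_right`), the
pair with `fderiv (f i) x` by `JC.prodMk`, `JC.fd`, and the composition of the two
is the fixed smooth (bounded bilinear) map `(A, B) ↦ A.comp B`, so again the induction
hypothesis. -/
theorem JC.comp {i₀ : ι} {v : E} {k : ℕ} {F G : Type} [NormedAddCommGroup F]
    [NormedSpace ℝ F] [NormedAddCommGroup G] [NormedSpace ℝ G] {f : ι → E → F} {Ψ : F → G}
    (hΨ : ContDiffAt ℝ k Ψ (f i₀ v)) (hf : JC i₀ v k f) : JC i₀ v k (fun i x => Ψ (f i x)) := by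
  have hev : ∀ {F G : Type} [NormedAddCommGroup F] [NormedSpace ℝ F] [NormedAddCommGroup G]
      [NormedSpace ℝ G] {f : ι → E → F} {Ψ : F → G} {k : ℕ}, ContDiffAt ℝ k Ψ (f i₀ v) →
      JC i₀ v k f → ∀ᶠ p : ι × E in 𝓝 (i₀, v),
        ContDiffAt ℝ k (fun x => Ψ (f p.1 x)) p.2 ∧ ContDiffAt ℝ k Ψ (f p.1 p.2) := by
    intro F G _ _ _ _ f Ψ k hΨ hf
    have h1 : ∀ᶠ y in 𝓝 (f i₀ v), ContDiffAt ℝ k Ψ y := hΨ.eventually (by simp)
    have h2 : Tendsto (fun p : ι × E => f p.1 p.2) (𝓝 (i₀, v)) (𝓝 (f i₀ v)) := hf.2.c0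
    filter_upwards [hf.1, h2.eventually h1] with p hp hq
    exact ⟨ContDiffAt.comp p.2 hq hp, hq⟩
  have hco : ∀ {F G : Type} [NormedAddCommGroup F] [NormedSpace ℝ F] [NormedAddCommGroup G]
      [NormedSpace ℝ G] {f : ι → E → F} {Ψ : F → G} {k : ℕ}, ContDiffAt ℝ k Ψ (f i₀ v) →
      JC i₀ v k f → ContinuousAt (fun p : ι × E => Ψ (f p.1 p.2)) (i₀, v) := by
    intro F G _ _ _ _ f Ψ k hΨ hf
    have h2 : Tendsto (fun p : ι × E => f p.1 p.2) (𝓝 (i₀, v)) (𝓝 (f i₀ v)) := hf.2.c0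
    exact Tendsto.comp hΨ.continuousAt h2
  induction k generalizing F G with
  | zero => exact ⟨(hev hΨ hf).mono fun p hp => hp.1, hco hΨ hf⟩
  | succ k ih =>
    refine JC.of_fd ((hev hΨ hf).mono fun p hp => hp.1) (hco hΨ hf) ?_
    have hΨ' : ContDiffAt ℝ k (fderiv ℝ Ψ) (f i₀ v) :=
      hΨ.fderiv_right (m := (k : WithTop ℕ∞)) (by push_cast; exact le_rfl)
    have h1 : JC i₀ v k (fun i x => fderiv ℝ Ψ (f i x)) := ih hΨ' hf.mono
    have h2 : JC i₀ v k (fun i x => (fderiv ℝ Ψ (f i x), fderiv ℝ (f i) x)) :=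
      JC.prodMk h1 hf.fd
    have hL : ContDiffAt ℝ k (fun p : (F →L[ℝ] G) × (E →L[ℝ] F) => p.1.comp p.2)
        (fderiv ℝ Ψ (f i₀ v), fderiv ℝ (f i₀) v) :=
      (isBoundedBilinearMap_comp (𝕜 := ℝ) (E := E) (F := F) (G := G)).contDiff.contDiffAt
    have h3 : JC i₀ v k (fun i x => (fderiv ℝ Ψ (f i x)).comp (fderiv ℝ (f i) x)) :=
      ih (f := fun i x => (fderiv ℝ Ψ (f i x), fderiv ℝ (f i) x))
        (Ψ := fun p : (F →L[ℝ] G) × (E →L[ℝ] F) => p.1.comp p.2) hL h2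
    refine JC.congr h3 ?_
    filter_upwards [hev hΨ hf, hf.1] with p hp hq
    have n1 : (((k + 1 : ℕ) : ℕ∞) : WithTop ℕ∞) ≠ 0 := by simp
    exact fderiv_fun_comp p.2 (hp.2.differentiableAt n1) (hq.differentiableAt n1)

/-- Precomposition with a continuous linear map.  Induction on `k`:
`fderiv (f i ∘ P) x = (fderiv (f i) (P x)).comp P`, followed by the fixed linear map
`A ↦ A.comp P` (`JC.comp`). -/
theorem JC.pre {E' : Type} [NormedAddCommGroup E'] [InnerProductSpace ℝ E'] {i₀ : ι} {v : E}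
    {k : ℕ} {F : Type} [NormedAddCommGroup F] [NormedSpace ℝ F] {f : ι → E' → F} (P : E →L[ℝ] E')
    (hf : JC i₀ (P v) k f) : JC i₀ v k (fun i x => f i (P x)) := by
  have hT : Tendsto (fun p : ι × E => (p.1, P p.2)) (𝓝 (i₀, v)) (𝓝 (i₀, P v)) := by
    have : Continuous (fun p : ι × E => (p.1, P p.2)) :=
      continuous_fst.prodMk (P.continuous.comp continuous_snd)
    exact this.continuousAt
  have hev : ∀ {F : Type} [NormedAddCommGroup F] [NormedSpace ℝ F] {f : ι → E' → F} {k : ℕ},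
      JC i₀ (P v) k f → ∀ᶠ p : ι × E in 𝓝 (i₀, v),
        ContDiffAt ℝ k (fun x => f p.1 (P x)) p.2 ∧ ContDiffAt ℝ k (f p.1) (P p.2) := by
    intro F _ _ f k hf
    filter_upwards [hT.eventually hf.1] with p hp
    exact ⟨ContDiffAt.comp p.2 hp P.contDiff.contDiffAt, hp⟩
  have hco : ∀ {F : Type} [NormedAddCommGroup F] [NormedSpace ℝ F] {f : ι → E' → F} {k : ℕ},
      JC i₀ (P v) k f → ContinuousAt (fun p : ι × E => f p.1 (P p.2)) (i₀, v) := by
    intro F _ _ f k hf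
    have h2 : Tendsto (fun p : ι × E' => f p.1 p.2) (𝓝 (i₀, P v)) (𝓝 (f i₀ (P v))) := hf.2.c0
    exact Tendsto.comp h2 hT
  induction k generalizing F with
  | zero => exact ⟨(hev hf).mono fun p hp => hp.1, hco hf⟩
  | succ k ih =>
    refine JC.of_fd ((hev hf).mono fun p hp => hp.1) (hco hf) ?_
    have h1 : JC i₀ v k (fun i x => fderiv ℝ (f i) (P x)) := ih hf.fd
    have hL : ContDiffAt ℝ k (fun A : E' →L[ℝ] F => A.comp P) (fderiv ℝ (f i₀) (P v)) :=
      ((ContinuousLinearMap.compL ℝ E E' F).flip P).contDiff.contDiffAt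
    have h3 : JC i₀ v k (fun i x => (fderiv ℝ (f i) (P x)).comp P) :=
      JC.comp (f := fun i x => fderiv ℝ (f i) (P x)) (Ψ := fun A : E' →L[ℝ] F => A.comp P) hL h1
    refine JC.congr h3 ?_
    filter_upwards [hev hf] with p hp
    have n1 : (((k + 1 : ℕ) : ℕ∞) : WithTop ℕ∞) ≠ 0 := by simp
    have h4 := fderiv_fun_comp p.2 (hp.2.differentiableAt n1) P.differentiableAt
    rw [ContinuousLinearMap.fderiv] at h4
    exact h4

end CJ
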