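import Pool.Agent.H.MP_1693ff_gtE.OIx
import Pool.Agent.H.MP_1693ff_gtE.OJCb

/-!
# The family of all nearby pairs: regularity
-/

namespace CJ

open Real Set Filter Topology CG CH
open CF hiding St
open CI (EvC qf)

variable {E : Type} [NormedAddCommGroup E] [InnerProductSpace ℝ E]

/-- A family of even functions near a fixed one. -/
theorem oix2_aux {ι : Type} [TopologicalSpace ι] {x₀ : ι} {G : ι → E → ℝ} {f : E → ℝ}
    {ε : ι → ℝ} (hε : Tendsto ε (𝓝 x₀) (𝓝 0)) (hG : ∀ x, EvC 3 (G x)) (hf : EvC 3 f)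
    (hb : ∀ x, ∀ j ≤ 3, ∀ u, ‖u‖ = 1 → ‖iteratedFDeriv ℝ j (fun u => G x u - f u) u‖ ≤ ε x)
    {v : E} (hv : v ≠ 0) : JC x₀ v 3 G := by
  have hcG : ∀ x, ∀ u : E, u ≠ 0 → ContDiffAt ℝ (3 : ℕ) (G x) u := by
    intro x u hu
    have h := (hG x).c.contDiffAt (isOpen_compl_singleton.mem_nhds (by simpa using hu))
    exact_mod_cast h
  have hcf : ∀ u : E, u ≠ 0 → ContDiffAt ℝ (3 : ℕ) f u := by
    intro u hu
    have h := hf.c.contDiffAt (isOpen_compl_singleton.mem_nhds (by simpa using hu))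
    exact_mod_cast h
  have hD : JC x₀ v 3 (fun x u => G x u - f u) := by
    refine ⟨?_, ?_⟩
    · have h1 : ∀ᶠ p : ι × E in 𝓝 (x₀, v), p.2 ≠ 0 :=
        continuousAt_snd.eventually_ne hv
      filter_upwards [h1] with p hp
      exact (hcG p.1 p.2 hp).sub (hcf p.2 hp)
    · refine jd_small 3 fun j hj => ?_
      have hn : Tendsto (fun p : ι × E => ‖p.2‖) (𝓝 (x₀, v)) (𝓝 ‖v‖) :=
        (continuous_snd.norm.tendsto (x₀, v))
      have hp : Tendsto (fun p : ι × E => ‖p.2‖⁻¹ ^ j * ε p.1) (𝓝 (x₀, v)) (𝓝 0) := by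
        have h2 : Tendsto (fun p : ι × E => ε p.1) (𝓝 (x₀, v)) (𝓝 0) :=
          hε.comp (continuous_fst.tendsto (x₀, v))
        have h3 := ((hn.inv₀ (norm_ne_zero_iff.2 hv)).pow j).mul h2
        rwa [mul_zero] at h3
      refine squeeze_zero' (Filter.Eventually.of_forall fun p => norm_nonneg _) ?_ hp
      have h1 : ∀ᶠ p : ι × E in 𝓝 (x₀, v), p.2 ≠ 0 :=
        continuousAt_snd.eventually_ne hv
      filter_upwards [h1] with p hp
      have h4 : ∀ t : ℝ, t ≠ 0 → ∀ u, (fun u => G p.1 u - f u) (t • u) =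
          (fun u => G p.1 u - f u) u := by
        intro t ht u
        simp only [(hG p.1).hom t ht u, hf.hom t ht u]
      rw [itf_hom h4 hp]
      refine mul_le_mul_of_nonneg_left (hb p.1 j hj _ ?_) (by positivity)
      rw [norm_smul, norm_inv, norm_norm, inv_mul_cancel₀ (norm_ne_zero_iff.2 hp)]
  have hC : JC x₀ v 3 (fun _ : ι => f) := JC.const (hcf v hv)
  have hP := hC.prodMk hD
  have hA : ContDiffAt ℝ (3 : ℕ) (fun q : ℝ × ℝ => q.1 + q.2) (f v, G x₀ v - f v) :=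
    (contDiff_fst.add contDiff_snd).contDiffAt
  have h5 : JC x₀ v 3 (fun (x : ι) (u : E) => f u + (G x u - f u)) :=
    JC.comp (ι := ι) (E := E) (i₀ := x₀) (v := v) (k := 3) (F := ℝ × ℝ) (G := ℝ)
      (f := fun x u => (f u, G x u - f u)) (Ψ := fun q : ℝ × ℝ => q.1 + q.2) hA hP
  have h6 : (fun (x : ι) (u : E) => f u + (G x u - f u)) = G := by
    funext x u
    ring
  rwa [h6] at h5

/-- the distance tends to zero -/
theorem oix2_eps {i : ℝ} {f₁ f₂ : E → ℝ} {ax : E} {x₀ : Ix i f₁ f₂ ax} (h0 : x₀.ε = 0) :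
    Tendsto (fun x : Ix i f₁ f₂ ax => x.ε) (𝓝 x₀) (𝓝 0) := by
  have h : Continuous (fun x : Ix i f₁ f₂ ax => x.ε) := continuous_induced_dom
  have h1 := h.tendsto x₀
  rwa [h0] at h1

/-- `g₁ = f₁ + (g₁ - f₁)`: `JC.const`, `jd_small` with `itf_hom` and `x.ε → 0`; sum by `JC.comp`
(`JC.prodMk`). -/
theorem jc_ix1 {i : ℝ} {f₁ f₂ : E → ℝ} {ax : E} {x₀ : Ix i f₁ f₂ ax} (h0 : x₀.ε = 0)
    (hf : EvC 3 f₁) {v : E} (hv : v ≠ 0) : JC x₀ v 3 (fun x : Ix i f₁ f₂ ax => x.g₁) :=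
  oix2_aux (oix2_eps h0) (fun x => x.h₁) hf (fun x => x.n₁) hv

theorem jc_ix2 {i : ℝ} {f₁ f₂ : E → ℝ} {ax : E} {x₀ : Ix i f₁ f₂ ax} (h0 : x₀.ε = 0)
    (hf : EvC 3 f₂) {v : E} (hv : v ≠ 0) : JC x₀ v 3 (fun x : Ix i f₁ f₂ ax => x.g₂) :=
  oix2_aux (oix2_eps h0) (fun x => x.h₂) hf (fun x => x.n₂) hv

end CJ
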