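import Pool.Agent.H.MP_1693ff_gtE.OIxD
import Pool.Agent.H.MP_1693ff_gtE.OJCb

/-!
# The family of all nearby pairs: homogeneous functions
-/

namespace CJ

open Real Set Filter Topology CG CH
open CF hiding St
open CI (EvC qf)

variable {E : Type} [NormedAddCommGroup E] [InnerProductSpace ℝ E]

theorem oixb_neg {g : E → ℝ} (h : EvC 3 g) (v : E) : g (-v) = g v := by
  have := h.hom (-1) (by norm_num) v
  rwa [neg_smul, one_smul] at this

theorem oixb_pos {g : E → ℝ} (h : EvC 3 g) (p : ∀ u, ‖u‖ = 1 → 0 < g u) {v : E} (hv : v ≠ 0) :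
    0 < g v := by
  have hn : ‖v‖ ≠ 0 := norm_ne_zero_iff.2 hv
  rw [← h.hom ‖v‖⁻¹ (inv_ne_zero hn) v]
  apply p
  rw [norm_smul, norm_inv, norm_norm, inv_mul_cancel₀ hn]

/-- An even positive `C³` function gives a homogeneous function (`g v = g (v/‖v‖) > 0`). -/
theorem nr_hg {e : ℝ} {g : E → ℝ} (h : EvC 3 g) (p : ∀ u, ‖u‖ = 1 → 0 < g u) :
    Hg (nr e g) ∧ ∀ v, nr e g (-v) = nr e g v := by
  refine ⟨⟨?_, ?_, ?_⟩, ?_⟩
  · intro c hc v
    unfold nr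
    rw [h.hom c hc.ne' v, norm_smul, Real.norm_of_nonneg hc.le]
    ring
  · intro v hv
    exact mul_pos (norm_pos_iff.2 hv) (Real.rpow_pos_of_pos (oixb_pos h p hv) _)
  · intro v hv
    have hg : ContDiffAt ℝ 3 g v := h.c.contDiffAt (isOpen_compl_singleton.mem_nhds hv)
    exact (contDiffAt_norm ℝ hv).mul (hg.rpow_const_of_ne (oixb_pos h p hv).ne')
  · intro v
    unfold nr
    rw [norm_neg, oixb_neg h]

/-- Composition of the family with `(y, v) ↦ ‖v‖ y^{1/e}`, smooth for `v ≠ 0`, `y > 0`. -/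
theorem nr_jc {ι : Type} [TopologicalSpace ι] {i₀ : ι} {e : ℝ} {g : ι → E → ℝ} {v : E}
    (hv : v ≠ 0) (h : JC i₀ v 3 g) (p : 0 < g i₀ v) : JC i₀ v 3 (fun i => nr e (g i)) := by
  have h1 : JC i₀ v 3 (fun i x => (g i x, x)) :=
    h.prodMk (JC.const (f := fun x : E => x) contDiffAt_fun_id)
  have hΨ : ContDiffAt ℝ (3 : ℕ) (fun q : ℝ × E => ‖q.2‖ * q.1 ^ e⁻¹) (g i₀ v, v) := by
    apply ContDiffAt.mul
    · exact ContDiffAt.comp (g i₀ v, v) (contDiffAt_norm ℝ hv) contDiffAt_snd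
    · exact contDiffAt_fst.rpow_const_of_ne p.ne'
  exact JC.comp (f := fun i x => (g i x, x)) (Ψ := fun q : ℝ × E => ‖q.2‖ * q.1 ^ e⁻¹) hΨ h1

end CJ
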