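import Pool.Agent.H.MP_1693ff_gtE.OE

/-!
# Derivatives: linearity, symmetry, chain rule
-/

namespace CJ

open Real Set Filter Topology CG CH
open CF hiding St

variable {E : Type} [NormedAddCommGroup E] [InnerProductSpace ℝ E]

theorem d1_add (V : E → ℝ) (v x y : E) : D1 V v (x + y) = D1 V v x + D1 V v y := by
  simp [D1]

theorem d1_smul (V : E → ℝ) (v : E) (c : ℝ) (x : E) : D1 V v (c • x) = c * D1 V v x := by
  simp [D1]

theorem d1_neg (V : E → ℝ) (v x : E) : D1 V v (-x) = -D1 V v x := by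
  simp [D1]

theorem d2_add_l (V : E → ℝ) (v x x' y : E) : D2 V v (x + x') y = D2 V v x y + D2 V v x' y := by
  simp [D2]

theorem d2_smul_l (V : E → ℝ) (v : E) (c : ℝ) (x y : E) : D2 V v (c • x) y = c * D2 V v x y := by
  simp [D2]

theorem d2_neg_l (V : E → ℝ) (v x y : E) : D2 V v (-x) y = -D2 V v x y := by
  simp [D2]

theorem d2_add_r (V : E → ℝ) (v x y y' : E) : D2 V v x (y + y') = D2 V v x y + D2 V v x y' := by
  simp [D2]

theorem d2_smul_r (V : E → ℝ) (v : E) (c : ℝ) (x y : E) : D2 V v x (c • y) = c * D2 V v x y := by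
  simp [D2]

theorem d2_neg_r (V : E → ℝ) (v x y : E) : D2 V v x (-y) = -D2 V v x y := by
  simp [D2]

/-- Symmetry (`ContDiffAt.isSymmSndFDerivAt`). -/
theorem d2_symm {V : E → ℝ} {v : E} (c : ContDiffAt ℝ 2 V v) (x y : E) :
    D2 V v x y = D2 V v y x := by
  have h : IsSymmSndFDerivAt ℝ V v := c.isSymmSndFDerivAt (by simp)
  exact h.eq x y

/-- chain rule along a curve. -/
theorem d1_along {V : E → ℝ} {γ : ℝ → E} {γ' : E} {t : ℝ} (c : DifferentiableAt ℝ V (γ t))
    (h : HasDerivAt γ γ' t) : HasDerivAt (fun t => V (γ t)) (D1 V (γ t) γ') t := by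
  have h1 := c.hasFDerivAt.comp_hasDerivAt t h
  exact h1

/-- chain rule for the first derivative along a curve, applied to a varying vector. -/
theorem d2_along {V : E → ℝ} {γ x : ℝ → E} {γ' x' : E} {t : ℝ} (c : ContDiffAt ℝ 2 V (γ t))
    (h : HasDerivAt γ γ' t) (hx : HasDerivAt x x' t) :
    HasDerivAt (fun t => D1 V (γ t) (x t)) (D2 V (γ t) γ' (x t) + D1 V (γ t) x') t := by
  have h1 : DifferentiableAt ℝ (fderiv ℝ V) (γ t) :=
    (c.fderiv_right (m := 1) (by norm_num)).differentiableAt (by norm_num)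
  have h2 : HasDerivAt (fun t => fderiv ℝ V (γ t)) (fderiv ℝ (fderiv ℝ V) (γ t) γ') t :=
    h1.hasFDerivAt.comp_hasDerivAt t h
  exact h2.clm_apply hx

/-- `a ax + ω ≠ 0` for `ω ⊥ ax` a unit vector. -/
theorem ax_ne {ax ω : E} (hω : Un ax ω) (a : ℝ) : a • ax + ω ≠ 0 := by
  intro h
  have h1 : inner ℝ (a • ax + ω) ω = (0 : ℝ) := by rw [h, inner_zero_left]
  have h2 : inner ℝ ω ω = (1 : ℝ) := by
    rw [real_inner_self_eq_norm_sq, hω.n1]; norm_num
  rw [inner_add_left, real_inner_smul_left, hω.o1, h2] at h1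
  norm_num at h1

/-- `ax + z ω ≠ 0` for `ω ⊥ ax`, `|ax| = 1`. -/
theorem ax_ne' {ax ω : E} (h : ‖ax‖ = 1) (hω : inner ℝ ax ω = (0 : ℝ)) (z : ℝ) :
    ax + z • ω ≠ 0 := by
  intro h0
  have h1 : inner ℝ ax (ax + z • ω) = (0 : ℝ) := by rw [h0, inner_zero_right]
  have h2 : inner ℝ ax ax = (1 : ℝ) := by
    rw [real_inner_self_eq_norm_sq, h]; norm_num
  rw [inner_add_right, real_inner_smul_right, hω, h2] at h1
  norm_num at h1

end CJ
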