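import Pool.Agent.H.MP_1693ff_gtE.OIxD
import Pool.Agent.H.MP_1693ff_gtE.OHomA

/-!
# The family of all nearby pairs: the curvature condition
-/

namespace CJ

open Real Set Filter Topology CG CH
open CF hiding St
open CI (EvC qf)

variable {E : Type} [NormedAddCommGroup E] [InnerProductSpace ℝ E]

theorem nr_one_eq (g : E → ℝ) : nr 1 g = fun v => ‖v‖ * g v := by
  funext v
  unfold nr
  rw [inv_one, Real.rpow_one]

/-- For `w ⊥ ax`, `‖ax‖ = 1`: `D2 (‖·‖ g) ax w w = ‖w‖² g ax + D² g ax w w` (product rule;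
`D‖·‖(ax) w = 0`, `D²‖·‖(ax)(w, w) = ‖w‖²`, for instance along `t ↦ ax + t w`:
`‖ax + t w‖ = √(1 + t² ‖w‖²)`). -/
theorem nr_d2 {g : E → ℝ} (h : EvC 3 g) {ax w : E} (hax : ‖ax‖ = 1)
    (hw : inner ℝ ax w = (0 : ℝ)) :
    D2 (nr 1 g) ax w w = ‖w‖ ^ 2 * g ax + fderiv ℝ (fderiv ℝ g) ax w w := by
  have hγ : ∀ t : ℝ, HasDerivAt (fun t : ℝ => ax + t • w) w t := by
    intro t
    have h1 := ((hasDerivAt_id t).smul_const w).const_add ax
    rw [one_smul] at h1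
    exact h1
  have hne : ∀ t : ℝ, ax + t • w ≠ 0 := ax_ne' hax hw
  have hg : ∀ t : ℝ, ContDiffAt ℝ 3 g (ax + t • w) := fun t =>
    h.c.contDiffAt (isOpen_compl_singleton.mem_nhds (hne t))
  have hV : ∀ t : ℝ, ContDiffAt ℝ 2 (nr 1 g) (ax + t • w) := by
    intro t
    rw [nr_one_eq]
    exact (contDiffAt_norm ℝ (hne t)).mul ((hg t).of_le (by norm_num))
  have hN : ∀ t : ℝ, ‖ax + t • w‖ = √(1 + t ^ 2 * ‖w‖ ^ 2) := by
    intro t
    have h1 : ‖ax + t • w‖ ^ 2 = 1 + t ^ 2 * ‖w‖ ^ 2 := by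
      rw [norm_add_sq_real, hax, real_inner_smul_right, hw, norm_smul, mul_pow,
        Real.norm_eq_abs, sq_abs]
      ring
    rw [← h1, Real.sqrt_sq (norm_nonneg _)]
  have hpos : ∀ t : ℝ, 0 < 1 + t ^ 2 * ‖w‖ ^ 2 := fun t => by positivity
  have hNd : ∀ t : ℝ, HasDerivAt (fun t : ℝ => √(1 + t ^ 2 * ‖w‖ ^ 2))
      (t * ‖w‖ ^ 2 / √(1 + t ^ 2 * ‖w‖ ^ 2)) t := by
    intro t
    have h1 : HasDerivAt (fun t : ℝ => 1 + t ^ 2 * ‖w‖ ^ 2) (2 * t * ‖w‖ ^ 2) t := by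
      have h2 := ((hasDerivAt_pow 2 t).mul_const (‖w‖ ^ 2)).const_add 1
      refine h2.congr_deriv ?_
      norm_num
    refine (h1.sqrt (hpos t).ne').congr_deriv ?_
    have h3 : √(1 + t ^ 2 * ‖w‖ ^ 2) ≠ 0 := (Real.sqrt_pos.2 (hpos t)).ne'
    field_simp
  have hD1 : ∀ t : ℝ, D1 (nr 1 g) (ax + t • w) w =
      t * ‖w‖ ^ 2 / √(1 + t ^ 2 * ‖w‖ ^ 2) * g (ax + t • w) +
        √(1 + t ^ 2 * ‖w‖ ^ 2) * D1 g (ax + t • w) w := by
    intro t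
    have h1 := d1_along (γ := fun t : ℝ => ax + t • w)
      ((hV t).differentiableAt (by norm_num)) (hγ t)
    have h2 := (hNd t).mul (d1_along (γ := fun t : ℝ => ax + t • w)
      ((hg t).differentiableAt (by norm_num)) (hγ t))
    have h3 : (fun t : ℝ => nr 1 g (ax + t • w)) =
        (fun t : ℝ => √(1 + t ^ 2 * ‖w‖ ^ 2) * g (ax + t • w)) := by
      funext s
      rw [nr_one_eq]
      show ‖ax + s • w‖ * g (ax + s • w) = _
      rw [hN]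
    rw [h3] at h1
    exact h1.unique h2
  have hx : HasDerivAt (fun _ : ℝ => w) (0 : E) 0 := hasDerivAt_const 0 w
  have e1 := d2_along (γ := fun t : ℝ => ax + t • w) (x := fun _ => w) (t := 0) (hV 0)
    (hγ 0) hx
  have e2 := d2_along (γ := fun t : ℝ => ax + t • w) (x := fun _ => w) (t := 0)
    ((hg 0).of_le (by norm_num)) (hγ 0) hx
  have e3 := d1_along (γ := fun t : ℝ => ax + t • w) (t := 0)
    ((hg 0).differentiableAt (by norm_num)) (hγ 0)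
  have hs0 : √(1 + (0 : ℝ) ^ 2 * ‖w‖ ^ 2) = 1 := by norm_num
  have e4 : HasDerivAt (fun t : ℝ => t * ‖w‖ ^ 2 / √(1 + t ^ 2 * ‖w‖ ^ 2)) (‖w‖ ^ 2) 0 := by
    have h1 : HasDerivAt (fun t : ℝ => t * ‖w‖ ^ 2) (1 * ‖w‖ ^ 2) 0 :=
      (hasDerivAt_id (0 : ℝ)).mul_const _
    refine (h1.div (hNd 0) (by rw [hs0]; norm_num)).congr_deriv ?_
    rw [hs0]
    norm_num
  have e5 := (e4.mul e3).add ((hNd 0).mul e2)
  have h3 : (fun t : ℝ => D1 (nr 1 g) (ax + t • w) w) =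
      (fun t : ℝ => t * ‖w‖ ^ 2 / √(1 + t ^ 2 * ‖w‖ ^ 2) * g (ax + t • w)) +
        (fun t : ℝ => √(1 + t ^ 2 * ‖w‖ ^ 2) * D1 g (ax + t • w) w) := by
    funext s
    exact hD1 s
  rw [h3] at e1
  have e6 := e1.unique e5
  have z1 : ∀ V : E → ℝ, D1 V (ax + (0 : ℝ) • w) 0 = 0 := by
    intro V
    simp [D1]
  rw [z1, z1, hs0] at e6
  simp only [zero_smul, add_zero, zero_mul, one_mul, zero_div, zero_add] at e6
  exact e6

/-- The condition `cc` from the curvature condition for unit vectors. -/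
theorem nr_cc {g₁ g₂ : E → ℝ} (h₁ : EvC 3 g₁) (h₂ : EvC 3 g₂) {ax : E} (hax : ‖ax‖ = 1)
    (c : ∀ w, ‖w‖ = 1 → inner ℝ w ax = (0 : ℝ) → qf g₁ ax w = qf g₂ ax w) {w : E}
    (hw : inner ℝ ax w = (0 : ℝ)) : D2 (nr 1 g₁) ax w w = D2 (nr 1 g₂) ax w w := by
  rw [nr_d2 h₁ hax hw, nr_d2 h₂ hax hw]
  by_cases h0 : w = 0
  · subst h0
    simp
  · have hn : ‖w‖ ≠ 0 := norm_ne_zero_iff.2 h0
    have hu : ‖‖w‖⁻¹ • w‖ = 1 := by
      rw [norm_smul, norm_inv, norm_norm, inv_mul_cancel₀ hn]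
    have ho : inner ℝ (‖w‖⁻¹ • w) ax = (0 : ℝ) := by
      rw [real_inner_smul_left, real_inner_comm, hw, mul_zero]
    have h1 := c _ hu ho
    unfold qf at h1
    have key : ∀ g : E → ℝ, ‖w‖ ^ 2 * g ax + fderiv ℝ (fderiv ℝ g) ax w w =
        ‖w‖ ^ 2 * (g ax + fderiv ℝ (fderiv ℝ g) ax (‖w‖⁻¹ • w) (‖w‖⁻¹ • w)) := by
      intro g
      rw [map_smul, map_smul, ContinuousLinearMap.smul_apply, smul_eq_mul, smul_eq_mul]
      field_simp
    rw [key g₁, key g₂, h1]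

end CJ
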