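import Pool.Agent.H.MP_1693ff_gtE.OMainA
import Pool.Agent.H.MP_1693ff_gtE.OIx2
import Pool.Agent.H.MP_1693ff_gtE.OIxB
import Pool.Agent.H.MP_1693ff_gtE.OIxC
import Pool.Agent.H.MP_1693ff_gtE.OBodyL
import Pool.Agent.H.MP_1693ff_gtE.OFinA

/-!
# Pairs near the pair of a smooth body: the theorem
-/

namespace CJ

open Real Set Filter Topology CG CH Pointwise
open CF hiding St
open CI (EvC qf)

noncomputable section

/-- A body for every nearby index. -/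
theorem main_ev {ι : Type} [TopologicalSpace ι] {n : ℕ} (hn : 2 ≤ n) {e d : ℝ}
    {ax : EuclideanSpace ℝ (Fin n)} {A B : EuclideanSpace ℝ (Fin n) → ℝ}
    {Φ Ψ : ι → EuclideanSpace ℝ (Fin n) → ℝ} {i₀ : ι} (F : Fml e d ax A B Φ Ψ i₀) :
    ∀ᶠ i in 𝓝 i₀, ∃ K, PairE (-e) (fun u => Φ i u ^ e) (fun u => Ψ i u ^ e) K 0 (d • ax) := by
  obtain ⟨c, C, hc, H⟩ := gi_ev F
  have hd := F.bd.d0
  have hax := F.bd.a1
  have he := F.e1
  filter_upwards [H] with i G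
  have hne : ∀ u : EuclideanSpace ℝ (Fin n), ‖u‖ = 1 → u ≠ 0 := by
    intro u hu h0
    rw [h0, norm_zero] at hu
    exact zero_ne_one hu
  have P1 : ∀ u : EuclideanSpace ℝ (Fin n), ‖u‖ = 1 → 0 < Φ i u :=
    fun u hu => (F.hΦ i).p u (hne u hu)
  have P2 : ∀ u : EuclideanSpace ℝ (Fin n), ‖u‖ = 1 → 0 < Ψ i u :=
    fun u hu => (F.hΨ i).p u (hne u hu)
  obtain ⟨K, h1, h2, h3, h4, h5⟩ := top_all hn hax
    (gi_sf he hc F.bd (F.hΦ i) (F.hΨ i) (F.eΦ i) (F.eΨ i) G)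
    (gi_s3 he hc F.bd (F.hΦ i) (F.hΨ i) (F.eΦ i) (F.eΨ i) G) (F.eΦ i) (F.eΨ i) P1 P2
  refine ⟨d • K, ?_⟩
  have h := pairE_smul (i := -e) (neg_ne_zero.2 (by linarith : (0:ℝ) < e).ne') hd
    (f₁ := fun u => Φ i u ^ e) (f₂ := fun u => Ψ i u ^ e) (K := K) (p₁ := 0) (p₂ := ax)
    ⟨h1, h2, h3, ?_, ?_⟩
  · rw [smul_zero] at h
    exact h
  · intro u hu
    rw [h4 u hu]
    show (d * Φ i u) ^ e = d ^ (- -e) * Φ i u ^ e
    rw [Real.mul_rpow hd.le (P1 u hu).le, neg_neg]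
  · intro u hu
    rw [h5 u hu]
    show (d * Ψ i u) ^ e = d ^ (- -e) * Ψ i u ^ e
    rw [Real.mul_rpow hd.le (P2 u hu).le, neg_neg]

theorem nr_pow {E : Type} [NormedAddCommGroup E] [InnerProductSpace ℝ E] {e : ℝ} (he : 1 ≤ e)
    {g : E → ℝ} {c : ℝ} (hc : 0 < c) {v : E} (hv : ‖v‖ = c) (hg : 0 ≤ g v) :
    nr e g v ^ e = c ^ e * g v := by
  unfold nr
  rw [hv, Real.mul_rpow hc.le (Real.rpow_nonneg hg _), ← Real.rpow_mul hg,
    inv_mul_cancel₀ (by linarith : e ≠ 0), Real.rpow_one]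

/-- The chord function is positive. -/
theorem or_pos {E : Type} [NormedAddCommGroup E] [InnerProductSpace ℝ E] {K : Set E} {p : E}
    {i : ℝ} (hi : i ≠ 0) {f A : E → ℝ} (hA : ∀ v, v ≠ 0 → 0 < A v)
    (hr : ∀ u, A u = (radial K p u)⁻¹) (hc : ∀ u, ‖u‖ = 1 → chord i K p u = f u) {u : E}
    (hu : ‖u‖ = 1) : 0 < f u := by
  have h0 : u ≠ 0 := by
    intro h0
    rw [h0, norm_zero] at hu
    exact zero_ne_one hu
  have h1 : 0 < radial K p u := by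
    have := hA u h0
    rw [hr] at this
    exact inv_pos.1 this
  have h2 : 0 < radial K p (-u) := by
    have := hA (-u) (neg_ne_zero.2 h0)
    rw [hr] at this
    exact inv_pos.1 this
  rw [← hc u hu]
  unfold chord
  rw [if_neg hi]
  exact add_pos (Real.rpow_pos_of_pos h1 _) (Real.rpow_pos_of_pos h2 _)

/-- The chord function in terms of the gauge function. -/
theorem or_eq {E : Type} [NormedAddCommGroup E] [InnerProductSpace ℝ E] {K : Set E} {p : E}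
    {i e : ℝ} (he : e = -i) (he1 : 1 ≤ e) {f A : E → ℝ} (hf : EvC 3 f) (hA : Ho A)
    (hp : ∀ v, v ≠ 0 → 0 < A v) (hr : ∀ u, A u = (radial K p u)⁻¹)
    (hc : ∀ u, ‖u‖ = 1 → chord i K p u = f u) {v : E} (hv : v ≠ 0) :
    nr e f v ^ e = A v ^ e + A (-v) ^ e := by
  have hi : i ≠ 0 := by
    intro h0
    rw [h0] at he
    linarith
  have c0 : 0 < ‖v‖ := norm_pos_iff.2 hv
  obtain ⟨c, hcv⟩ : ∃ c, ‖v‖ = c := ⟨_, rfl⟩
  rw [hcv] at c0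
  obtain ⟨u, hu⟩ : ∃ u, c⁻¹ • v = u := ⟨_, rfl⟩
  have hu1 : ‖u‖ = 1 := by
    rw [← hu, norm_smul, Real.norm_eq_abs, abs_of_pos (inv_pos.2 c0), hcv,
      inv_mul_cancel₀ c0.ne']
  have hvu : v = c • u := by
    rw [← hu, smul_smul, mul_inv_cancel₀ c0.ne', one_smul]
  have hfv : f v = f u := by rw [hvu, hf.hom c c0.ne']
  have hfp : 0 < f u := or_pos hi hp hr hc hu1
  have h0 : u ≠ 0 := by
    intro h0
    rw [h0, norm_zero] at hu1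
    exact zero_ne_one hu1
  have e1 : A v = c * A u := by rw [hvu, hA c c0]
  have e2 : A (-v) = c * A (-u) := by rw [hvu, ← smul_neg, hA c c0]
  have k1 : ∀ x : E, 0 < A x → A x ^ e = radial K p x ^ i := by
    intro x hx
    rw [hr] at hx
    have hx' : 0 < radial K p x := inv_pos.1 hx
    rw [hr, Real.inv_rpow hx'.le, he, ← Real.rpow_neg hx'.le, neg_neg]
  rw [nr_pow he1 c0 hcv (by rw [hfv]; exact hfp.le), hfv, e1, e2,
    Real.mul_rpow c0.le (hp u h0).le, Real.mul_rpow c0.le (hp (-u) (neg_ne_zero.2 h0)).le,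
    k1 u (hp u h0), k1 (-u) (hp (-u) (neg_ne_zero.2 h0)), ← hc u hu1]
  unfold chord
  rw [if_neg hi]
  ring

/-- The function `u ↦ g u` is near `f u`. -/
theorem near_val {E : Type} [NormedAddCommGroup E] [InnerProductSpace ℝ E] {f g : E → ℝ}
    {δ : ℝ} {u : E} (h : ‖iteratedFDeriv ℝ 0 (fun u => g u - f u) u‖ ≤ δ) :
    f u - δ ≤ g u := by
  rw [norm_iteratedFDeriv_zero, Real.norm_eq_abs] at h
  have := neg_le_of_abs_le h
  linarith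

/-- A positive function on the sphere has a positive minimum. -/
theorem sph_min {n : ℕ} {f : EuclideanSpace ℝ (Fin n) → ℝ} (hf : EvC 3 f)
    (p : ∀ u, ‖u‖ = 1 → 0 < f u) : ∃ m > 0, ∀ u, ‖u‖ = 1 → m ≤ f u := by
  have hs : IsCompact (Metric.sphere (0 : EuclideanSpace ℝ (Fin n)) 1) := isCompact_sphere 0 1
  have hc : ContinuousOn f (Metric.sphere (0 : EuclideanSpace ℝ (Fin n)) 1) := by
    refine hf.c.continuousOn.mono fun u hu => ?_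
    rw [mem_sphere_zero_iff_norm] at hu
    intro h0
    rw [h0, norm_zero] at hu
    exact zero_ne_one hu
  rcases (Metric.sphere (0 : EuclideanSpace ℝ (Fin n)) 1).eq_empty_or_nonempty with h0 | h0
  · refine ⟨1, one_pos, fun u hu => ?_⟩
    have : u ∈ Metric.sphere (0 : EuclideanSpace ℝ (Fin n)) 1 := by
      rw [mem_sphere_zero_iff_norm]
      exact hu
    rw [h0] at this
    exact absurd this (Set.notMem_empty u)
  · obtain ⟨u₀, h1, h2⟩ := hs.exists_isMinOn h0 hc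
    refine ⟨f u₀, p u₀ (by rwa [mem_sphere_zero_iff_norm] at h1), fun u hu => ?_⟩
    exact h2 (by rw [mem_sphere_zero_iff_norm]; exact hu)

/-- **The family of all nearby pairs.** -/
theorem fml_ix {n : ℕ} {i : ℝ} (hi : i ≤ -1) {f₁ f₂ : EuclideanSpace ℝ (Fin n) → ℝ}
    (h1 : EvC 3 f₁) (h2 : EvC 3 f₂) {K : Set (EuclideanSpace ℝ (Fin n))} {d : ℝ} (hd : 0 < d)
    {ax : EuclideanSpace ℝ (Fin n)} (hax : ‖ax‖ = 1) (H : PairE i f₁ f₂ K 0 (d • ax))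
    (s0 : Sm K 0) (s1 : Sm K (d • ax)) {x₀ : Ix i f₁ f₂ ax} (e0 : x₀.ε = 0) (g1 : x₀.g₁ = f₁)
    (g2 : x₀.g₂ = f₂) :
    Fml (-i) d ax (fun u => (radial K 0 u)⁻¹) (fun u => (radial K (d • ax) (-u))⁻¹)
      (fun x : Ix i f₁ f₂ ax => nr (-i) x.g₁) (fun x : Ix i f₁ f₂ ax => nr (-i) x.g₂) x₀ := by
  obtain ⟨hK, k1, k2, c1, c2⟩ := H
  have D := bd_of_body hK hd hax k1 k2 s0 s1
  have he1 : 1 ≤ -i := by linarith
  have hi0 : i ≠ 0 := by linarith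
  have hne : ∀ v : EuclideanSpace ℝ (Fin n), v ≠ 0 → ∀ f : EuclideanSpace ℝ (Fin n) → ℝ,
      EvC 3 f → (∀ u, ‖u‖ = 1 → 0 < f u) → 0 < f v := by
    intro v hv f hf hp
    have c0 : 0 < ‖v‖ := norm_pos_iff.2 hv
    have := hp (‖v‖⁻¹ • v) (by rw [norm_smul, norm_inv, norm_norm, inv_mul_cancel₀ c0.ne'])
    rwa [hf.hom _ (inv_ne_zero c0.ne')] at this
  have hB : ∀ v : EuclideanSpace ℝ (Fin n), v ≠ 0 → 0 < (radial K (d • ax) v)⁻¹ := by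
    intro v hv
    have := D.hB.p (-v) (neg_ne_zero.2 hv)
    simpa only [neg_neg] using this
  have hB' : Ho (fun v : EuclideanSpace ℝ (Fin n) => (radial K (d • ax) v)⁻¹) := by
    intro c hc v
    have := D.hB.h c hc (-v)
    simpa only [smul_neg, neg_neg] using this
  have P1 : ∀ u, ‖u‖ = 1 → 0 < f₁ u := fun u hu => or_pos hi0 D.hA.p (fun _ => rfl) c1 hu
  have P2 : ∀ u, ‖u‖ = 1 → 0 < f₂ u :=
    fun u hu => or_pos hi0 hB (fun _ => rfl) c2 hu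
  refine { e1 := he1, bd := D, hΦ := fun x => (nr_hg x.h₁ x.p₁).1,
           hΨ := fun x => (nr_hg x.h₂ x.p₂).1, eΦ := fun x => (nr_hg x.h₁ x.p₁).2,
           eΨ := fun x => (nr_hg x.h₂ x.p₂).2, jΦ := ?_, jΨ := ?_, oΦ := ?_, oΨ := ?_, cc := ?_ }
  · intro v hv
    exact nr_jc hv (jc_ix1 e0 h1 hv) (by rw [g1]; exact hne v hv f₁ h1 P1)
  · intro v hv
    exact nr_jc hv (jc_ix2 e0 h2 hv) (by rw [g2]; exact hne v hv f₂ h2 P2)
  · intro v hv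
    rw [g1]
    exact or_eq rfl he1 h1 D.hA.h D.hA.p (fun _ => rfl) c1 hv
  · intro v hv
    rw [g2]
    have := or_eq rfl he1 h2 hB' hB (fun _ => rfl) c2 hv
    rw [this, neg_neg]
    exact add_comm _ _
  · intro h x w hw
    have hi1 : i = -1 := by linarith
    simp only [h]
    exact nr_cc x.h₁ x.h₂ hax (x.c hi1) hw

/-- **The theorem.** -/
theorem smooth_bodies {n : ℕ} (hn : 2 ≤ n) {i : ℝ} (hi : i ≤ -1)
    {f₁ f₂ : EuclideanSpace ℝ (Fin n) → ℝ} (h1 : EvC 3 f₁) (h2 : EvC 3 f₂)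
    {K : Set (EuclideanSpace ℝ (Fin n))} {p₁ p₂ : EuclideanSpace ℝ (Fin n)} (hne : p₁ ≠ p₂)
    (H : PairE i f₁ f₂ K p₁ p₂) (s1 : Sm K p₁) (s2 : Sm K p₂) :
    ∃ δ > 0, ∀ g₁ g₂ : EuclideanSpace ℝ (Fin n) → ℝ, EvC 3 g₁ → EvC 3 g₂ →
      (∀ j ≤ 3, ∀ u, ‖u‖ = 1 → ‖iteratedFDeriv ℝ j (fun u => g₁ u - f₁ u) u‖ ≤ δ) →
      (∀ j ≤ 3, ∀ u, ‖u‖ = 1 → ‖iteratedFDeriv ℝ j (fun u => g₂ u - f₂ u) u‖ ≤ δ) →
      ((∃ K', PairE i g₁ g₂ K' p₁ p₂) ↔ (i = -1 → ∀ w, ‖w‖ = 1 →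
        inner ℝ w (p₂ - p₁) = (0 : ℝ) → qf g₁ (‖p₂ - p₁‖⁻¹ • (p₂ - p₁)) w =
          qf g₂ (‖p₂ - p₁‖⁻¹ • (p₂ - p₁)) w)) := by
  have d0 : 0 < ‖p₂ - p₁‖ := norm_pos_iff.2 (sub_ne_zero.2 hne.symm)
  obtain ⟨d, hd⟩ : ∃ d, ‖p₂ - p₁‖ = d := ⟨_, rfl⟩
  rw [hd] at d0
  obtain ⟨ax, hax⟩ : ∃ ax, d⁻¹ • (p₂ - p₁) = ax := ⟨_, rfl⟩
  have ax1 : ‖ax‖ = 1 := by
    rw [← hax, norm_smul, Real.norm_eq_abs, abs_of_pos (inv_pos.2 d0), hd,
      inv_mul_cancel₀ d0.ne']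
  have dax : d • ax = p₂ - p₁ := by
    rw [← hax, smul_smul, mul_inv_cancel₀ d0.ne', one_smul]
  have hi0 : i ≠ 0 := by linarith
  have he1 : 1 ≤ -i := by linarith
  have ewr : ∀ w : EuclideanSpace ℝ (Fin n), inner ℝ w ax = (0 : ℝ) ↔
      inner ℝ w (p₂ - p₁) = (0 : ℝ) := by
    intro w
    rw [← dax, inner_smul_right]
    constructor
    · intro h
      rw [h, mul_zero]
    · intro h
      exact (mul_eq_zero.1 h).resolve_left d0.ne'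
  -- the translated pair
  have H' := pairE_vadd (-p₁) H
  have q1 := sm_vadd (-p₁) s1
  have q2 := sm_vadd (-p₁) s2
  have z1 : -p₁ + p₁ = 0 := neg_add_cancel p₁
  have z2 : -p₁ + p₂ = d • ax := by
    rw [dax]
    abel
  rw [z1] at q1
  rw [z2] at q2
  rw [z1, z2] at H'
  obtain ⟨hK, k1, k2, c1, c2⟩ := id H'
  have D := bd_of_body hK d0 ax1 k1 k2 q1 q2
  have P1 : ∀ u, ‖u‖ = 1 → 0 < f₁ u := fun u hu => or_pos hi0 D.hA.p (fun _ => rfl) c1 hu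
  have hB : ∀ v : EuclideanSpace ℝ (Fin n), v ≠ 0 →
      0 < (radial ((fun x => -p₁ + x) '' K) (d • ax) v)⁻¹ := by
    intro v hv
    have := D.hB.p (-v) (neg_ne_zero.2 hv)
    simpa only [neg_neg] using this
  have P2 : ∀ u, ‖u‖ = 1 → 0 < f₂ u := fun u hu => or_pos hi0 hB (fun _ => rfl) c2 hu
  have e12 : ∀ f : EuclideanSpace ℝ (Fin n) → ℝ, EvC 3 f → EvC 2 f :=
    fun f hf => ⟨hf.hom, hf.c.of_le (by norm_num)⟩
  have zero : ∀ f : EuclideanSpace ℝ (Fin n) → ℝ, ∀ j ≤ 3, ∀ u, ‖u‖ = 1 →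
      ‖iteratedFDeriv ℝ j (fun u => f u - f u) u‖ ≤ 0 := by
    intro f j _ u _
    have e : (fun u => f u - f u) = fun _ : EuclideanSpace ℝ (Fin n) => (0 : ℝ) := by
      funext u
      exact sub_self _
    rw [e]
    have e0 : iteratedFDeriv ℝ j (fun _ : EuclideanSpace ℝ (Fin n) => (0 : ℝ)) u = 0 := by
      have := iteratedFDeriv_fun_zero (𝕜 := ℝ) (E := EuclideanSpace ℝ (Fin n)) (F := ℝ) (n := j)
      exact congrFun this u
    rw [e0, norm_zero]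
  obtain ⟨x₀, hx₀⟩ : ∃ x₀ : Ix i f₁ f₂ ax, x₀.ε = 0 ∧ x₀.g₁ = f₁ ∧ x₀.g₂ = f₂ := by
    refine ⟨⟨f₁, f₂, 0, le_rfl, h1, h2, P1, P2, zero f₁, zero f₂, ?_⟩, rfl, rfl, rfl⟩
    intro hi1 w hw ho
    subst hi1
    have := nec_at (e12 _ h1) (e12 _ h2) hne H hw ((ewr w).1 ho)
    rwa [hd, hax] at this
  have F := fml_ix hi h1 h2 d0 ax1 H' q1 q2 hx₀.1 hx₀.2.1 hx₀.2.2
  obtain ⟨δ₀, hδ₀, M⟩ := ix_ev hx₀.1 (main_ev hn F)
  obtain ⟨m₁, hm₁, M₁⟩ := sph_min h1 P1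
  obtain ⟨m₂, hm₂, M₂⟩ := sph_min h2 P2
  refine ⟨min δ₀ (min (m₁ / 2) (m₂ / 2)), lt_min hδ₀ (lt_min (half_pos hm₁) (half_pos hm₂)), ?_⟩
  intro g₁ g₂ hg₁ hg₂ n₁ n₂
  have l1 : min δ₀ (min (m₁ / 2) (m₂ / 2)) ≤ m₁ / 2 := (min_le_right _ _).trans (min_le_left _ _)
  have l2 : min δ₀ (min (m₁ / 2) (m₂ / 2)) ≤ m₂ / 2 := (min_le_right _ _).trans (min_le_right _ _)
  have G1 : ∀ u, ‖u‖ = 1 → 0 < g₁ u := by
    intro u hu
    have a1 := near_val (n₁ 0 (by norm_num) u hu)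
    have a2 := M₁ u hu
    linarith
  have G2 : ∀ u, ‖u‖ = 1 → 0 < g₂ u := by
    intro u hu
    have a1 := near_val (n₂ 0 (by norm_num) u hu)
    have a2 := M₂ u hu
    linarith
  rw [hd, hax]
  constructor
  · rintro ⟨K', hK'⟩ hi1 w hw ho
    subst hi1
    have := nec_at (e12 _ hg₁) (e12 _ hg₂) hne hK' hw ho
    rwa [hd, hax] at this
  · intro hc
    obtain ⟨K', hK'⟩ := M ⟨g₁, g₂, min δ₀ (min (m₁ / 2) (m₂ / 2)),
      (lt_min hδ₀ (lt_min (half_pos hm₁) (half_pos hm₂))).le, hg₁, hg₂, G1, G2, n₁, n₂,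
      fun hi1 w hw ho => hc hi1 w hw ((ewr w).1 ho)⟩ (min_le_left _ _)
    obtain ⟨a1, a2, a3, a4, a5⟩ := hK'
    have h6 : PairE i g₁ g₂ K' 0 (d • ax) := by
      refine ⟨a1, a2, a3, fun u hu => ?_, fun u hu => ?_⟩
      · have := a4 u hu
        rw [neg_neg] at this
        rw [this]
        show nr (-i) g₁ u ^ (-i) = g₁ u
        rw [nr_pow he1 one_pos hu (G1 u hu).le, Real.one_rpow, one_mul]
      · have := a5 u hu
        rw [neg_neg] at this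
        rw [this]
        show nr (-i) g₂ u ^ (-i) = g₂ u
        rw [nr_pow he1 one_pos hu (G2 u hu).le, Real.one_rpow, one_mul]
    have h7 := pairE_vadd p₁ h6
    have z3 : p₁ + d • ax = p₂ := by
      rw [dax]
      abel
    rw [z3, add_zero] at h7
    exact ⟨_, h7⟩

end

end CJ
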