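import Pool.Agent.H.MP_1693ff_gtE.OE

/-!
# A rotation near the identity; parameters
-/

namespace CJ

open Real Set Filter Topology CG CH
open CF hiding St

variable {E : Type} [NormedAddCommGroup E] [InnerProductSpace ℝ E]

/-- Formula for the reflection in a hyperplane. -/
theorem omvb_refl (v x : E) : (ℝ ∙ v)ᗮ.reflection x = x - (2 * (inner ℝ v x / ‖v‖ ^ 2)) • v := by
  rw [Submodule.reflection_orthogonal_apply, Submodule.reflection_singleton_apply]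
  simp only [two_smul, RCLike.ofReal_real_eq_id, id_eq]
  module

theorem omvb_bound (a m y : E) (ha : ‖a‖ = 1) (hm : ‖m‖ = 1) :
    ‖(2 * inner ℝ a y : ℝ) • a - (2 * inner ℝ m y : ℝ) • m‖ ≤ 4 * ‖m - a‖ * ‖y‖ := by
  have e : (2 * inner ℝ a y : ℝ) • a - (2 * inner ℝ m y : ℝ) • m =
      (2 * inner ℝ (a - m) y : ℝ) • a + (2 * inner ℝ m y : ℝ) • (a - m) := by
    rw [inner_sub_left]
    module
  rw [e]
  have h1 : ‖(2 * inner ℝ (a - m) y : ℝ) • a‖ ≤ 2 * (‖m - a‖ * ‖y‖) := by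
    rw [norm_smul, ha, mul_one, norm_mul, Real.norm_eq_abs, Real.norm_eq_abs, abs_two]
    have := abs_real_inner_le_norm (a - m) y
    rw [norm_sub_rev a m] at this
    linarith
  have h2 : ‖(2 * inner ℝ m y : ℝ) • (a - m)‖ ≤ 2 * (‖m - a‖ * ‖y‖) := by
    rw [norm_smul, norm_mul, Real.norm_eq_abs, Real.norm_eq_abs, abs_two, norm_sub_rev a m]
    have h3 := abs_real_inner_le_norm m y
    rw [hm, one_mul] at h3
    have h4 := mul_le_mul_of_nonneg_right h3 (norm_nonneg (m - a))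
    linarith
  have h3 := norm_add_le ((2 * inner ℝ (a - m) y : ℝ) • a) ((2 * inner ℝ m y : ℝ) • (a - m))
  linarith

/-- The product of the reflections in the hyperplanes orthogonal to `a = u₀` and to
`m = (u₀ + u')/|u₀ + u'|`: `r_a u₀ = -u₀`, `r_m (-u₀) = u'`;
`R x - x = (r_m - r_a) (r_a x)`, `(r_m - r_a) y = -2 ⟨m,y⟩ m + 2 ⟨a,y⟩ a` has norm at most
`4 |m - a| |y|`, and `|m - a| ≤ 2 |u' - u₀|`: `|u₀ + u'| ≥ 2 - |u' - u₀| ≥ 1` and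
`|(u₀ + u') - |u₀ + u'| u₀| ≤ |(u₀ + u') - 2 u₀| + |2 - |u₀ + u'|| ≤ 2 |u' - u₀|`. -/
theorem rot_exists {u₀ u' : E} (h0 : ‖u₀‖ = 1) (h1 : ‖u'‖ = 1) (h : ‖u' - u₀‖ ≤ 1) :
    ∃ R : E ≃ₗᵢ[ℝ] E, R u₀ = u' ∧ ∀ x, ‖R x - x‖ ≤ 8 * ‖u' - u₀‖ * ‖x‖ := by
  have hs1 : 1 ≤ ‖-u₀ - u'‖ := by
    have e : -u₀ - u' = -((2 : ℝ) • u₀ + (u' - u₀)) := by module
    rw [e, norm_neg]
    have h2 : ‖(2 : ℝ) • u₀‖ ≤ ‖(2 : ℝ) • u₀ + (u' - u₀)‖ + ‖u' - u₀‖ := by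
      have := norm_sub_le ((2 : ℝ) • u₀ + (u' - u₀)) (u' - u₀)
      rwa [add_sub_cancel_right] at this
    rw [norm_smul, h0, Real.norm_eq_abs, abs_two] at h2
    linarith
  have hs2 : 2 - ‖u' - u₀‖ ≤ ‖-u₀ - u'‖ := by
    have e : -u₀ - u' = -((2 : ℝ) • u₀ + (u' - u₀)) := by module
    rw [e, norm_neg]
    have h2 : ‖(2 : ℝ) • u₀‖ ≤ ‖(2 : ℝ) • u₀ + (u' - u₀)‖ + ‖u' - u₀‖ := by
      have := norm_sub_le ((2 : ℝ) • u₀ + (u' - u₀)) (u' - u₀)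
      rwa [add_sub_cancel_right] at this
    rw [norm_smul, h0, Real.norm_eq_abs, abs_two] at h2
    linarith
  have hs3 : ‖-u₀ - u'‖ ≤ 2 := by
    have := norm_sub_le (-u₀) u'
    rw [norm_neg, h0, h1] at this
    linarith
  set s : ℝ := ‖-u₀ - u'‖ with hs
  have hspos : 0 < s := by linarith
  refine ⟨((ℝ ∙ u₀)ᗮ.reflection).trans ((ℝ ∙ (-u₀ - u'))ᗮ.reflection), ?_, ?_⟩
  · rw [LinearIsometryEquiv.trans_apply, Submodule.reflection_orthogonalComplement_singleton_eq_neg]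
    exact Submodule.reflection_sub (by rw [norm_neg, h0, h1])
  · intro x
    rw [LinearIsometryEquiv.trans_apply]
    set y := (ℝ ∙ u₀)ᗮ.reflection x with hy
    have hxy : (ℝ ∙ u₀)ᗮ.reflection y = x := by rw [hy, Submodule.reflection_reflection]
    have hny : ‖y‖ = ‖x‖ := by rw [hy, LinearIsometryEquiv.norm_map]
    set m : E := s⁻¹ • (u₀ + u') with hm
    have hmn : ‖m‖ = 1 := by
      have e : u₀ + u' = -(-u₀ - u') := by module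
      rw [hm, norm_smul, e, norm_neg, norm_inv, Real.norm_eq_abs, abs_of_pos hspos]
      exact inv_mul_cancel₀ hspos.ne'
    have e1 : (ℝ ∙ (-u₀ - u'))ᗮ.reflection y = y - (2 * inner ℝ m y : ℝ) • m := by
      rw [omvb_refl, ← hs]
      have e2 : (-u₀ - u' : E) = (-s) • m := by
        rw [hm, smul_smul]
        have : -s * s⁻¹ = -1 := by field_simp
        rw [this]
        module
      rw [e2, inner_smul_left, smul_smul]
      congr 2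
      simp only [conj_trivial]
      field_simp
    have e3 : x = y - (2 * inner ℝ u₀ y : ℝ) • u₀ := by
      have := omvb_refl u₀ y
      rw [hxy, h0] at this
      rw [this]
      norm_num
    have e4 : (ℝ ∙ (-u₀ - u'))ᗮ.reflection y - x =
        (2 * inner ℝ u₀ y : ℝ) • u₀ - (2 * inner ℝ m y : ℝ) • m := by
      rw [e1]
      conv_lhs => rw [e3]
      module
    have h5 := omvb_bound u₀ m y h0 hmn
    have h6 : ‖m - u₀‖ ≤ 2 * ‖u' - u₀‖ := by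
      have e5 : m - u₀ = s⁻¹ • ((u' - u₀) + (2 - s) • u₀) := by
        have e7 : s⁻¹ • ((u' - u₀) + (2 - s) • u₀) = s⁻¹ • (u₀ + u') - (s⁻¹ * s) • u₀ := by
          module
        rw [e7, inv_mul_cancel₀ hspos.ne', one_smul, hm]
      rw [e5, norm_smul, norm_inv, Real.norm_eq_abs, abs_of_pos hspos]
      have h7 : ‖(u' - u₀) + (2 - s) • u₀‖ ≤ ‖u' - u₀‖ + (2 - s) := by
        have := norm_add_le (u' - u₀) ((2 - s) • u₀)
        rw [norm_smul, h0, mul_one, Real.norm_eq_abs, abs_of_nonneg (by linarith)] at this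
        exact this
      have h8 : s⁻¹ ≤ 1 := inv_le_one_of_one_le₀ hs1
      have h9 : 0 ≤ ‖(u' - u₀) + (2 - s) • u₀‖ := norm_nonneg _
      have h10 : s⁻¹ * ‖(u' - u₀) + (2 - s) • u₀‖ ≤ 1 * ‖(u' - u₀) + (2 - s) • u₀‖ :=
        mul_le_mul_of_nonneg_right h8 h9
      linarith
    rw [e4]
    have h11 := mul_le_mul_of_nonneg_right h6 (norm_nonneg y)
    rw [← hny]
    linarith

/-- Continuity at `(p₁, p₂)` of the distance and the direction. -/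
theorem par_near {p₁ p₂ : E} (hne : p₁ ≠ p₂) (i : ℝ) {ρ : ℝ} (hρ : 0 < ρ) :
    ∃ δ > 0, ∀ q₁ q₂ : E, ‖q₁ - p₁‖ ≤ δ → ‖q₂ - p₂‖ ≤ δ → q₁ ≠ q₂ ∧
      |(‖q₂ - q₁‖ / ‖p₂ - p₁‖) ^ i - 1| ≤ ρ ∧
      ‖‖q₂ - q₁‖⁻¹ • (q₂ - q₁) - ‖p₂ - p₁‖⁻¹ • (p₂ - p₁)‖ ≤ ρ := by
  have hd : 0 < ‖p₂ - p₁‖ := norm_pos_iff.2 (sub_ne_zero.2 hne.symm)
  have c0 : ContinuousAt (fun q : E × E => q.2 - q.1) (p₁, p₂) :=
    continuousAt_snd.sub continuousAt_fst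
  have c1 : ContinuousAt (fun q : E × E => ‖q.2 - q.1‖) (p₁, p₂) := c0.norm
  have c2 : ContinuousAt (fun q : E × E => (‖q.2 - q.1‖ / ‖p₂ - p₁‖) ^ i) (p₁, p₂) :=
    (c1.div_const _).rpow_const (Or.inl (by simpa using (div_pos hd hd).ne'))
  have c3 : ContinuousAt (fun q : E × E => ‖q.2 - q.1‖⁻¹ • (q.2 - q.1)) (p₁, p₂) :=
    (c1.inv₀ hd.ne').smul c0
  have v2 : (‖p₂ - p₁‖ / ‖p₂ - p₁‖) ^ i = 1 := by rw [div_self hd.ne', Real.one_rpow]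
  have e1 : ∀ᶠ q : E × E in 𝓝 (p₁, p₂), 0 < ‖q.2 - q.1‖ := c1.eventually (lt_mem_nhds hd)
  have e2 : ∀ᶠ q : E × E in 𝓝 (p₁, p₂), |(‖q.2 - q.1‖ / ‖p₂ - p₁‖) ^ i - 1| < ρ := by
    have c4 : Tendsto (fun q : E × E => |(‖q.2 - q.1‖ / ‖p₂ - p₁‖) ^ i - 1|) (𝓝 (p₁, p₂))
        (𝓝 |(‖p₂ - p₁‖ / ‖p₂ - p₁‖) ^ i - 1|) := (c2.sub continuousAt_const).abs
    rw [v2, sub_self, abs_zero] at c4
    exact c4.eventually (gt_mem_nhds hρ)
  have e3 : ∀ᶠ q : E × E in 𝓝 (p₁, p₂),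
      ‖‖q.2 - q.1‖⁻¹ • (q.2 - q.1) - ‖p₂ - p₁‖⁻¹ • (p₂ - p₁)‖ < ρ := by
    have c4 : Tendsto (fun q : E × E =>
        ‖‖q.2 - q.1‖⁻¹ • (q.2 - q.1) - ‖p₂ - p₁‖⁻¹ • (p₂ - p₁)‖) (𝓝 (p₁, p₂))
        (𝓝 ‖‖p₂ - p₁‖⁻¹ • (p₂ - p₁) - ‖p₂ - p₁‖⁻¹ • (p₂ - p₁)‖) :=
      (c3.sub continuousAt_const).norm
    rw [sub_self, norm_zero] at c4
    exact c4.eventually (gt_mem_nhds hρ)
  obtain ⟨ε, hε, hall⟩ := Metric.eventually_nhds_iff.1 (e1.and (e2.and e3))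
  refine ⟨ε / 2, half_pos hε, fun q₁ q₂ h1 h2 => ?_⟩
  have h3 := hall (y := (q₁, q₂)) (by
    rw [Prod.dist_eq, max_lt_iff]
    constructor
    · show dist q₁ p₁ < ε
      rw [dist_eq_norm]; linarith
    · show dist q₂ p₂ < ε
      rw [dist_eq_norm]; linarith)
  obtain ⟨h4, h5, h6⟩ := h3
  refine ⟨?_, h5.le, h6.le⟩
  intro h7
  rw [h7] at h4
  simp at h4

end CJ
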