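import Pool.Agent.H.MP_1693ff_gtE.OE
import Pool.Agent.H.MP_1693ff_gtD.MQD

/-!
# Composition with a rotation near the identity
-/

namespace CJ

open Real Set Filter Topology CG CH
open CF hiding St
open CI (EvC qf)

/-- The function is `C³` at every point of the unit sphere. -/
theorem omvc_at {n : ℕ} {f : EuclideanSpace ℝ (Fin n) → ℝ} (hf : EvC 3 f)
    {u : EuclideanSpace ℝ (Fin n)} (hu : u ≠ 0) : ContDiffAt ℝ 3 f u :=
  hf.c.contDiffAt (isOpen_compl_singleton.mem_nhds hu)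

theorem omvc_ne {n : ℕ} {u : EuclideanSpace ℝ (Fin n)} (hu : ‖u‖ = 1) : u ≠ 0 := by
  intro h
  rw [h, norm_zero] at hu
  exact zero_ne_one hu

/-- Bound of the derivatives on the (compact) unit sphere. -/
theorem itf_bd {n : ℕ} {f : EuclideanSpace ℝ (Fin n) → ℝ} (hf : EvC 3 f) :
    ∃ M : ℝ, 0 < M ∧ ∀ j ≤ 3, ∀ u, ‖u‖ = 1 → ‖iteratedFDeriv ℝ j f u‖ ≤ M := by
  have key : ∀ j ≤ 3, ∃ M : ℝ, ∀ u ∈ Metric.sphere (0 : EuclideanSpace ℝ (Fin n)) 1,
      ‖iteratedFDeriv ℝ j f u‖ ≤ M := by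
    intro j hj
    refine (isCompact_sphere _ _).exists_bound_of_continuousOn ?_
    intro u hu
    have hu1 : ‖u‖ = 1 := by simpa using hu
    exact ((omvc_at hf (omvc_ne hu1)).continuousAt_iteratedFDeriv
      (by exact_mod_cast hj)).continuousWithinAt
  obtain ⟨M0, h0⟩ := key 0 (by norm_num)
  obtain ⟨M1, h1⟩ := key 1 (by norm_num)
  obtain ⟨M2, h2⟩ := key 2 (by norm_num)
  obtain ⟨M3, h3⟩ := key 3 (by norm_num)
  refine ⟨max 1 (max (max M0 M1) (max M2 M3)), lt_of_lt_of_le one_pos (le_max_left _ _), ?_⟩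
  intro j hj u hu
  have hu' : u ∈ Metric.sphere (0 : EuclideanSpace ℝ (Fin n)) 1 := by simpa using hu
  refine le_trans ?_ (le_max_right _ _)
  interval_cases j
  · exact (h0 u hu').trans ((le_max_left _ _).trans (le_max_left _ _))
  · exact (h1 u hu').trans ((le_max_right _ _).trans (le_max_left _ _))
  · exact (h2 u hu').trans ((le_max_left _ _).trans (le_max_right _ _))
  · exact (h3 u hu').trans ((le_max_right _ _).trans (le_max_right _ _))

/-- `(L, u) ↦ (iteratedFDeriv ℝ j f (L u)).compContinuousLinearMap (fun _ => L)` is continuous at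
`(id, u)`. -/
theorem omvc_cont {n : ℕ} {f : EuclideanSpace ℝ (Fin n) → ℝ} (hf : EvC 3 f) {j : ℕ} (hj : j ≤ 3)
    {u : EuclideanSpace ℝ (Fin n)} (hu : u ≠ 0) :
    ContinuousAt (fun p : (EuclideanSpace ℝ (Fin n) →L[ℝ] EuclideanSpace ℝ (Fin n)) ×
        EuclideanSpace ℝ (Fin n) =>
      (iteratedFDeriv ℝ j f (p.1 p.2)).compContinuousLinearMap (fun _ => p.1))
      (ContinuousLinearMap.id ℝ _, u) := by
  have h1 : ContinuousAt (fun p : (EuclideanSpace ℝ (Fin n) →L[ℝ] EuclideanSpace ℝ (Fin n)) ×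
      EuclideanSpace ℝ (Fin n) => p.1 p.2) (ContinuousLinearMap.id ℝ _, u) :=
    continuousAt_fst.clm_apply continuousAt_snd
  have h2 : ContinuousAt (iteratedFDeriv ℝ j f)
      ((fun p : (EuclideanSpace ℝ (Fin n) →L[ℝ] EuclideanSpace ℝ (Fin n)) ×
      EuclideanSpace ℝ (Fin n) => p.1 p.2) (ContinuousLinearMap.id ℝ _, u)) :=
    (omvc_at hf hu).continuousAt_iteratedFDeriv (by exact_mod_cast hj)
  have h3 : ContinuousAt (fun p : (EuclideanSpace ℝ (Fin n) →L[ℝ] EuclideanSpace ℝ (Fin n)) ×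
      EuclideanSpace ℝ (Fin n) => iteratedFDeriv ℝ j f (p.1 p.2))
      (ContinuousLinearMap.id ℝ _, u) := ContinuousAt.comp (f := fun p :
        (EuclideanSpace ℝ (Fin n) →L[ℝ] EuclideanSpace ℝ (Fin n)) ×
        EuclideanSpace ℝ (Fin n) => p.1 p.2) (g := iteratedFDeriv ℝ j f) h2 h1
  have h4 : Continuous (fun p : (EuclideanSpace ℝ (Fin n) →L[ℝ] EuclideanSpace ℝ (Fin n)) ×
      EuclideanSpace ℝ (Fin n) =>
      ContinuousMultilinearMap.compContinuousLinearMapContinuousMultilinear ℝ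
        (fun _ : Fin j => EuclideanSpace ℝ (Fin n)) (fun _ => EuclideanSpace ℝ (Fin n)) ℝ
        (fun _ => p.1)) :=
    (ContinuousMultilinearMap.cont _).comp (continuous_pi fun _ => continuous_fst)
  have h5 := h4.continuousAt.clm_apply h3
  exact h5

/-- The derivatives of the composition with a linear isometry. -/
theorem omvc_comp {n : ℕ} (f : EuclideanSpace ℝ (Fin n) → ℝ) (j : ℕ)
    (R : EuclideanSpace ℝ (Fin n) ≃ₗᵢ[ℝ] EuclideanSpace ℝ (Fin n))
    (u : EuclideanSpace ℝ (Fin n)) :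
    iteratedFDeriv ℝ j (fun x => f (R x)) u =
      (iteratedFDeriv ℝ j f (R u)).compContinuousLinearMap
        (fun _ => (R.toContinuousLinearEquiv : EuclideanSpace ℝ (Fin n) →L[ℝ]
          EuclideanSpace ℝ (Fin n))) := by
  have h := R.toContinuousLinearEquiv.iteratedFDerivWithin_comp_right f
    (uniqueDiffOn_univ (𝕜 := ℝ)) (x := u) (mem_univ _) j
  rw [preimage_univ, iteratedFDerivWithin_univ, iteratedFDerivWithin_univ] at h
  exact h

/-- `(L, u) ↦ (iteratedFDeriv ℝ j f (L u)).compContinuousLinearMap (fun _ => L)` is continuous at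
`(id, u)` (`ContDiffAt.continuousAt_iteratedFDeriv` or `ContDiffOn.continuousOn_iteratedFDeriv`
on the open set `{0}ᶜ`; `ContinuousMultilinearMap.compContinuousLinearMapContinuousMultilinear`
or an elementary estimate); for an isometry `L = R` it is `iteratedFDeriv ℝ j (f ∘ R) u`.  By
compactness of the sphere (`IsCompact.eventually_forall_of_forall_eventually`) the difference with
`iteratedFDeriv ℝ j f u` is at most `η` for all unit vectors `u`, for `L` near `id`. -/
theorem itf_rot {n : ℕ} {f : EuclideanSpace ℝ (Fin n) → ℝ} (hf : EvC 3 f) {j : ℕ} (hj : j ≤ 3)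
    {η : ℝ} (hη : 0 < η) : ∃ ρ > 0, ∀ R : EuclideanSpace ℝ (Fin n) ≃ₗᵢ[ℝ] EuclideanSpace ℝ (Fin n),
      (∀ x, ‖R x - x‖ ≤ ρ * ‖x‖) → ∀ u, ‖u‖ = 1 →
      ‖iteratedFDeriv ℝ j (fun x => f (R x) - f x) u‖ ≤ η := by
  have hev : ∀ᶠ L : EuclideanSpace ℝ (Fin n) →L[ℝ] EuclideanSpace ℝ (Fin n) in
      𝓝 (ContinuousLinearMap.id ℝ _), ∀ u ∈ Metric.sphere (0 : EuclideanSpace ℝ (Fin n)) 1,
      ‖(iteratedFDeriv ℝ j f (L u)).compContinuousLinearMap (fun _ => L) -
        iteratedFDeriv ℝ j f u‖ < η := by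
    refine IsCompact.eventually_forall_of_forall_eventually (isCompact_sphere _ _) ?_
    intro u hu
    have hu1 : ‖u‖ = 1 := by simpa using hu
    have hu0 := omvc_ne hu1
    have c1 := omvc_cont hf hj hu0
    have c2 : ContinuousAt (fun p : (EuclideanSpace ℝ (Fin n) →L[ℝ] EuclideanSpace ℝ (Fin n)) ×
        EuclideanSpace ℝ (Fin n) => iteratedFDeriv ℝ j f p.2)
        (ContinuousLinearMap.id ℝ _, u) := ContinuousAt.comp (f := fun p :
        (EuclideanSpace ℝ (Fin n) →L[ℝ] EuclideanSpace ℝ (Fin n)) ×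
        EuclideanSpace ℝ (Fin n) => p.2) (g := iteratedFDeriv ℝ j f)
        ((omvc_at hf hu0).continuousAt_iteratedFDeriv (by exact_mod_cast hj)) continuousAt_snd
    have c3 := (c1.sub c2).norm
    refine c3.eventually_lt_const ?_
    have hz : (iteratedFDeriv ℝ j f ((ContinuousLinearMap.id ℝ (EuclideanSpace ℝ (Fin n))) u)
        ).compContinuousLinearMap (fun _ => ContinuousLinearMap.id ℝ _) -
        iteratedFDeriv ℝ j f u = 0 := by
      rw [sub_eq_zero]
      ext m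
      rfl
    show ‖(iteratedFDeriv ℝ j f ((ContinuousLinearMap.id ℝ (EuclideanSpace ℝ (Fin n))) u)
        ).compContinuousLinearMap (fun _ => ContinuousLinearMap.id ℝ _) -
        iteratedFDeriv ℝ j f u‖ < η
    rw [hz, norm_zero]
    exact hη
  obtain ⟨ρ, hρ, hb⟩ := Metric.eventually_nhds_iff.1 hev
  refine ⟨ρ / 2, half_pos hρ, fun R hR u hu => ?_⟩
  have hd : dist (R.toContinuousLinearEquiv : EuclideanSpace ℝ (Fin n) →L[ℝ]
      EuclideanSpace ℝ (Fin n)) (ContinuousLinearMap.id ℝ _) < ρ := by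
    rw [dist_eq_norm]
    refine lt_of_le_of_lt (ContinuousLinearMap.opNorm_le_bound _ (half_pos hρ).le fun x => ?_)
      (half_lt_self hρ)
    exact hR x
  have hu' : u ∈ Metric.sphere (0 : EuclideanSpace ℝ (Fin n)) 1 := by simpa using hu
  have h1 := hb hd u hu'
  have hu0 := omvc_ne hu
  have hRu0 : R u ≠ 0 := by
    apply omvc_ne
    rw [R.norm_map, hu]
  have d1 : ContDiffAt ℝ j (fun x => f (R x)) u := by
    have h2 : ContDiffAt ℝ j f (R u) := (omvc_at hf hRu0).of_le (by exact_mod_cast hj)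
    exact ContDiffAt.comp u h2 R.contDiff.contDiffAt
  have d2 : ContDiffAt ℝ j f u := (omvc_at hf hu0).of_le (by exact_mod_cast hj)
  have h3 : iteratedFDeriv ℝ j (fun x => f (R x) - f x) u =
      iteratedFDeriv ℝ j (fun x => f (R x)) u - iteratedFDeriv ℝ j f u :=
    iteratedFDeriv_sub_apply d1 d2
  rw [h3, omvc_comp]
  exact h1.le

end CJ
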