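import Pool.Agent.H.MP_1693ff_gtE.OMvA
import Pool.Agent.H.MP_1693ff_gtE.OMvC

/-!
# Composition with a rotation near the identity: nearby functions
-/

namespace CJ

open Real Set Filter Topology CG CH
open CF hiding St
open CI (EvC qf)

theorem omvd_cda {n : ℕ} {f : EuclideanSpace ℝ (Fin n) → ℝ} (hf : EvC 3 f) {j : ℕ} (hj : j ≤ 3)
    {u : EuclideanSpace ℝ (Fin n)} (hu : ‖u‖ = 1) : ContDiffAt ℝ j f u := by
  have hu0 : u ≠ 0 := by
    intro h
    rw [h, norm_zero] at hu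
    exact zero_ne_one hu
  have h1 : ContDiffAt ℝ 3 f u := hf.c.contDiffAt (isOpen_compl_singleton.mem_nhds hu0)
  exact h1.of_le (by exact_mod_cast hj)

/-- `c g∘R - f = c (g - f)∘R + (c - 1) f∘R + (f∘R - f)`; the derivatives of the three summands at a
unit vector are at most `|c| δ` (`LinearIsometryEquiv.norm_iteratedFDeriv_comp_right`),
`|c - 1| M` (`itf_bd`) and `η/3` (`itf_rot` for `j = 0, 1, 2, 3`; minimum of the four `ρ`). -/
theorem near_comb {n : ℕ} {f : EuclideanSpace ℝ (Fin n) → ℝ} (hf : EvC 3 f) {η : ℝ}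
    (hη : 0 < η) : ∃ δ > 0, ∀ R : EuclideanSpace ℝ (Fin n) ≃ₗᵢ[ℝ] EuclideanSpace ℝ (Fin n),
      (∀ x, ‖R x - x‖ ≤ δ * ‖x‖) → ∀ c : ℝ, |c - 1| ≤ δ →
      ∀ g : EuclideanSpace ℝ (Fin n) → ℝ, EvC 3 g →
      (∀ j ≤ 3, ∀ u, ‖u‖ = 1 → ‖iteratedFDeriv ℝ j (fun u => g u - f u) u‖ ≤ δ) →
      ∀ j ≤ 3, ∀ u, ‖u‖ = 1 → ‖iteratedFDeriv ℝ j (fun x => c * g (R x) - f x) u‖ ≤ η := by
  obtain ⟨M, hM, hMb⟩ := itf_bd hf
  have hex : ∀ j : ℕ, ∃ ρ > 0, j ≤ 3 →
      ∀ R : EuclideanSpace ℝ (Fin n) ≃ₗᵢ[ℝ] EuclideanSpace ℝ (Fin n),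
      (∀ x, ‖R x - x‖ ≤ ρ * ‖x‖) → ∀ u, ‖u‖ = 1 →
      ‖iteratedFDeriv ℝ j (fun x => f (R x) - f x) u‖ ≤ η / 3 := by
    intro j
    by_cases hj : j ≤ 3
    · obtain ⟨ρ, hρ, h⟩ := itf_rot hf hj (show 0 < η / 3 by positivity)
      exact ⟨ρ, hρ, fun _ => h⟩
    · exact ⟨1, one_pos, fun h => absurd h hj⟩
  choose ρ hρ hrot using hex
  obtain ⟨δ, hδ, hδρ, hδ1, hδη, hδM⟩ : ∃ δ : ℝ, 0 < δ ∧ (∀ j ≤ 3, δ ≤ ρ j) ∧ δ ≤ 1 ∧
      δ ≤ η / 6 ∧ δ * M ≤ η / 3 := by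
    refine ⟨min (min (min (ρ 0) (ρ 1)) (min (ρ 2) (ρ 3))) (min 1 (min (η / 6) (η / (3 * M)))),
      ?_, ?_, ?_, ?_, ?_⟩
    · have h0 := hρ 0
      have h1 := hρ 1
      have h2 := hρ 2
      have h3 := hρ 3
      positivity
    · intro j hj
      refine (min_le_left _ _).trans ?_
      interval_cases j
      · exact (min_le_left _ _).trans (min_le_left _ _)
      · exact (min_le_left _ _).trans (min_le_right _ _)
      · exact (min_le_right _ _).trans (min_le_left _ _)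
      · exact (min_le_right _ _).trans (min_le_right _ _)
    · exact (min_le_right _ _).trans (min_le_left _ _)
    · exact (min_le_right _ _).trans ((min_le_right _ _).trans (min_le_left _ _))
    · have h1 : min (min (min (ρ 0) (ρ 1)) (min (ρ 2) (ρ 3)))
          (min 1 (min (η / 6) (η / (3 * M)))) ≤ η / (3 * M) :=
        (min_le_right _ _).trans ((min_le_right _ _).trans (min_le_right _ _))
      calc _ ≤ η / (3 * M) * M := mul_le_mul_of_nonneg_right h1 hM.le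
        _ = η / 3 := by field_simp
  refine ⟨δ, hδ, fun R hR c hc g hg hgf j hj u hu => ?_⟩
  have hRu : ‖R u‖ = 1 := by rw [R.norm_map, hu]
  have hcR : ContDiffAt ℝ j (fun x : EuclideanSpace ℝ (Fin n) => R x) u :=
    R.contDiff.contDiffAt
  have hd1 : ContDiffAt ℝ j (fun u => g u - f u) (R u) :=
    (omvd_cda hg hj hRu).sub (omvd_cda hf hj hRu)
  have hd1' : ContDiffAt ℝ j ((fun u => g u - f u) ∘ R) u := hd1.comp u hcR
  have hd2' : ContDiffAt ℝ j (f ∘ R) u := (omvd_cda hf hj hRu).comp u hcR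
  have hd3 : ContDiffAt ℝ j (fun x => f (R x) - f x) u := hd2'.sub (omvd_cda hf hj hu)
  have hs1 : ContDiffAt ℝ j (fun x => c • ((fun u => g u - f u) ∘ R) x) u := hd1'.const_smul c
  have hs2 : ContDiffAt ℝ j (fun x => (c - 1) • (f ∘ R) x) u := hd2'.const_smul (c - 1)
  have hfun : (fun x => c * g (R x) - f x) =
      fun x => (c • ((fun u => g u - f u) ∘ R) x + (c - 1) • (f ∘ R) x) + (f (R x) - f x) := by
    funext x
    simp only [smul_eq_mul, Function.comp]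
    ring
  rw [hfun, fun_iteratedFDeriv_add_apply (hs1.add hs2) hd3, fun_iteratedFDeriv_add_apply hs1 hs2,
    iteratedFDeriv_const_smul_apply' hd1', iteratedFDeriv_const_smul_apply' hd2']
  have hc2 : |c| ≤ 2 := by
    have h1 : |c| ≤ |c - 1| + |(1 : ℝ)| := by
      have h2 := abs_add_le (c - 1) 1
      rwa [sub_add_cancel] at h2
    rw [abs_one] at h1
    linarith
  have b1 : ‖c • iteratedFDeriv ℝ j ((fun u => g u - f u) ∘ R) u‖ ≤ η / 3 := by
    rw [norm_smul, LinearIsometryEquiv.norm_iteratedFDeriv_comp_right, Real.norm_eq_abs]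
    calc |c| * ‖iteratedFDeriv ℝ j (fun u => g u - f u) (R u)‖ ≤ 2 * δ :=
          mul_le_mul hc2 (hgf j hj _ hRu) (norm_nonneg _) (by norm_num)
      _ ≤ η / 3 := by linarith
  have b2 : ‖(c - 1) • iteratedFDeriv ℝ j (f ∘ R) u‖ ≤ η / 3 := by
    rw [norm_smul, LinearIsometryEquiv.norm_iteratedFDeriv_comp_right, Real.norm_eq_abs]
    exact (mul_le_mul hc (hMb j hj _ hRu) (norm_nonneg _) hδ.le).trans hδM
  have b3 : ‖iteratedFDeriv ℝ j (fun x => f (R x) - f x) u‖ ≤ η / 3 :=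
    hrot j hj R (fun x => (hR x).trans
      (mul_le_mul_of_nonneg_right (hδρ j hj) (norm_nonneg _))) u hu
  refine (norm_add_le _ _).trans ?_
  have b4 := norm_add_le (c • iteratedFDeriv ℝ j ((fun u => g u - f u) ∘ R) u)
    ((c - 1) • iteratedFDeriv ℝ j (f ∘ R) u)
  linarith

end CJ
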