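import Pool.Agent.H.MP_1693ff_gtE.OSmA
import Pool.Agent.H.MP_1693ff_gtE.OHom

/-!
# Smoothness of the boundary does not depend on the centre
-/

namespace CJ

open Real Set Filter Topology CG CH
open CF hiding St

variable {E : Type} [NormedAddCommGroup E] [InnerProductSpace ℝ E]

/-- Derivatives of the identity `B (u - A(u) y) = A u` (valid near `v`):
`D1 B w (T x) = D1 A v x`, `T x = x - D1 A v x • y`, `w = v - A v • y`; in the direction `y`:
`1 + D1 B w y = (1 - D1 A v y)⁻¹`; second derivative in the direction `x` (derivative along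
`u = v + t x` of `D1 B (F u) (x - D1 A u x • y) = D1 A u x`):
`D2 B w (T x) (T x) - D2 A v x x * D1 B w y = D2 A v x x`. -/
theorem sm_d2 {A B : E → ℝ} {y v : E} (cA : ContDiffAt ℝ 3 A v)
    (cB : ContDiffAt ℝ 3 B (v - A v • y)) (h1 : 0 < 1 - D1 A v y)
    (h : ∀ᶠ u in 𝓝 v, B (u - A u • y) = A u) (x : E) :
    D2 B (v - A v • y) (x - D1 A v x • y) (x - D1 A v x • y) =
      D2 A v x x * (1 - D1 A v y)⁻¹ := by
  have hF : ∀ {u : E}, DifferentiableAt ℝ A u → HasFDerivAt (fun u => u - A u • y)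
      (ContinuousLinearMap.id ℝ E - (fderiv ℝ A u).smulRight y) u := fun {u} hu =>
    (hasFDerivAt_id u).sub (hu.hasFDerivAt.smul_const y)
  have dA : ∀ᶠ u in 𝓝 v, DifferentiableAt ℝ A u :=
    (cA.eventually (by simp)).mono fun u hu => hu.differentiableAt (by norm_num)
  have dB : ∀ᶠ u in 𝓝 (v - A v • y), DifferentiableAt ℝ B u :=
    (cB.eventually (by simp)).mono fun u hu => hu.differentiableAt (by norm_num)
  have hFv := hF dA.self_of_nhds
  have dB' : ∀ᶠ u in 𝓝 v, DifferentiableAt ℝ B (u - A u • y) :=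
    hFv.continuousAt.eventually dB
  have key : ∀ᶠ u in 𝓝 v, ∀ z : E, fderiv ℝ B (u - A u • y) (z - fderiv ℝ A u z • y) =
      fderiv ℝ A u z := by
    filter_upwards [h.eventually_nhds, dA, dB'] with u hu hAu hBu z
    have e1 := hBu.hasFDerivAt.comp u (hF hAu)
    have e2 : (B ∘ fun u => u - A u • y) =ᶠ[𝓝 u] A := hu
    have e3 := e1.congr_of_eventuallyEq e2.symm
    have e4 := e3.unique hAu.hasFDerivAt
    have e5 := congrArg (fun L : E →L[ℝ] ℝ => L z) e4
    simpa using e5
  have cA1 : DifferentiableAt ℝ (fderiv ℝ A) v := by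
    have h2 : ContDiffAt ℝ 2 (fderiv ℝ A) v := cA.fderiv_right (by norm_num)
    exact h2.differentiableAt (by norm_num)
  have cB1 : DifferentiableAt ℝ (fderiv ℝ B) (v - A v • y) := by
    have h2 : ContDiffAt ℝ 2 (fderiv ℝ B) (v - A v • y) := cB.fderiv_right (by norm_num)
    exact h2.differentiableAt (by norm_num)
  have g1 : HasFDerivAt (fun u => fderiv ℝ B (u - A u • y))
      ((fderiv ℝ (fderiv ℝ B) (v - A v • y)).comp
        (ContinuousLinearMap.id ℝ E - (fderiv ℝ A v).smulRight y)) v :=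
    cB1.hasFDerivAt.comp v hFv
  have g2 : HasFDerivAt (fun u => fderiv ℝ A u x) ((fderiv ℝ (fderiv ℝ A) v).flip x) v := by
    have g := cA1.hasFDerivAt.clm_apply (hasFDerivAt_const x v)
    simpa using g
  have g3 : HasFDerivAt (fun u => x - fderiv ℝ A u x • y)
      (-((fderiv ℝ (fderiv ℝ A) v).flip x).smulRight y) v :=
    (g2.smul_const y).const_sub x
  have g4 := g1.clm_apply g3
  have g5 : (fun u => fderiv ℝ B (u - A u • y) (x - fderiv ℝ A u x • y)) =ᶠ[𝓝 v]
      fun u => fderiv ℝ A u x := key.mono fun u hu => hu x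
  have g6 := (g4.congr_of_eventuallyEq g5.symm).unique g2
  have g7 := congrArg (fun L : E →L[ℝ] ℝ => L x) g6
  have g8 := key.self_of_nhds y
  have g9 : D1 B (v - A v • y) y * (1 - D1 A v y) = D1 A v y := by
    have e : y - fderiv ℝ A v y • y = (1 - fderiv ℝ A v y) • y := by
      rw [sub_smul, one_smul]
    rw [e, map_smul, smul_eq_mul] at g8
    unfold D1
    linarith
  have g10 : D2 B (v - A v • y) (x - D1 A v x • y) (x - D1 A v x • y) -
      D2 A v x x * D1 B (v - A v • y) y = D2 A v x x := by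
    unfold D2 D1
    simp at g7 ⊢
    linarith
  have g11 : 1 + D1 B (v - A v • y) y = (1 - D1 A v y)⁻¹ := by
    refine eq_inv_of_mul_eq_one_left ?_
    linarith
  rw [← g11]
  linarith

/-- **Independence of the centre.**  `q = p + y`; `sm_cd`; for `w ≠ 0` take `v` of `sm_pre`; a
vector `z` which is not a multiple of `w` is `T x` with `x = z + (D1 A v z / (1 - D1 A v y)) • y`,
and `x` is not a multiple of `v`, since `T (c v) = c (v - A v • y) = c w` (`ho_euler`,
`rad_hg`); `sm_d2` with `rad_link`, `rad_sl` (`d = 1`). -/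
theorem sm_centre [FiniteDimensional ℝ E] {K : Set E} (hK : IsBody K) {p q : E}
    (hp : p ∈ interior K) (hq : q ∈ interior K) (s : Sm K p) : Sm K q := by
  obtain ⟨y, rfl⟩ : ∃ y, q = p + y := ⟨q - p, by abel⟩
  have cB := sm_cd hK hp hq s.c
  refine ⟨cB, fun w hw z hz => ?_⟩
  obtain ⟨v, hv, hvw⟩ := sm_pre hK hp hq hw
  have hgA := rad_hg hK hp s.c
  have hgB := rad_hg hK hq cB
  have h1 := rad_sl hK hp s.c one_pos (x := y) (by rwa [one_smul]) hv
  rw [one_mul] at h1
  set A : E → ℝ := fun u => (radial K p u)⁻¹ with hA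
  set B : E → ℝ := fun u => (radial K (p + y) u)⁻¹ with hB
  have hvw' : v - A v • y = w := hvw
  have hl : ∀ᶠ u in 𝓝 v, B (u - A u • y) = A u := by
    filter_upwards [isOpen_ne.mem_nhds hv] with u hu
    exact rad_link hK hp hq hu
  set c : ℝ := D1 A v z / (1 - D1 A v y) with hc
  have hlin : ∀ a b : E, ∀ r : ℝ, D1 A v (a + r • b) = D1 A v a + r * D1 A v b := by
    intro a b r
    unfold D1
    rw [map_add, map_smul, smul_eq_mul]
  have hx : D1 A v (z + c • y) = c := by
    rw [hlin, hc]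
    field_simp
    ring
  have h2 := sm_d2 (hgA.c v hv) (by rw [hvw']; exact hgB.c w hw) h1 hl (z + c • y)
  rw [hvw', hx, add_sub_cancel_right] at h2
  have h3 : 0 < D2 A v (z + c • y) (z + c • y) := by
    refine s.q v hv (z + c • y) fun r hr => hz r ?_
    have e1 : D1 A v (r • v) = r * A v := by
      have e := ho_euler hgA.h (v := v) ((hgA.c v hv).differentiableAt (by norm_num))
      unfold D1 at e ⊢
      rw [map_smul, smul_eq_mul, e]
    have e2 : c = r * A v := by rw [← e1, ← hr, hx]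
    have e3 : z = r • v - c • y := by rw [← hr, add_sub_cancel_right]
    rw [e3, e2, ← hvw', smul_sub, smul_smul]
  have h4 : 0 < D2 B w z z := by
    rw [h2]
    exact mul_pos h3 (inv_pos.2 h1)
  exact h4

end CJ
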