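import Pool.Agent.H.MP_1693ff_gtE.OFin
import Pool.Agent.H.MP_1693ff_gtE.OSmB
import Pool.Agent.H.MP_1693ff_gtE.OMvB
import Pool.Agent.H.MP_1693ff_gtE.OMvD

/-!
# Pairs near the pair of a smooth body: moving points
-/

namespace CJ

open Real Set Filter Topology CG CH Pointwise
open CF hiding St
open CI (EvC qf)

/-- **The theorem, with moving points.** -/
theorem smooth_bodies_mov {n : ℕ} (hn : 2 ≤ n) {i : ℝ} (hi : i ≤ -1)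
    {f₁ f₂ : EuclideanSpace ℝ (Fin n) → ℝ} (h1 : EvC 3 f₁) (h2 : EvC 3 f₂)
    {K : Set (EuclideanSpace ℝ (Fin n))} {p₁ p₂ p : EuclideanSpace ℝ (Fin n)} (hne : p₁ ≠ p₂)
    (H : PairE i f₁ f₂ K p₁ p₂) (hp : p ∈ interior K) (s : Sm K p) :
    ∃ δ > 0, ∀ q₁ q₂ : EuclideanSpace ℝ (Fin n), ‖q₁ - p₁‖ ≤ δ → ‖q₂ - p₂‖ ≤ δ →
      ∀ g₁ g₂ : EuclideanSpace ℝ (Fin n) → ℝ, EvC 3 g₁ → EvC 3 g₂ →
      (∀ j ≤ 3, ∀ u, ‖u‖ = 1 → ‖iteratedFDeriv ℝ j (fun u => g₁ u - f₁ u) u‖ ≤ δ) →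
      (∀ j ≤ 3, ∀ u, ‖u‖ = 1 → ‖iteratedFDeriv ℝ j (fun u => g₂ u - f₂ u) u‖ ≤ δ) →
      ((∃ K', PairE i g₁ g₂ K' q₁ q₂) ↔ (i = -1 → ∀ w, ‖w‖ = 1 →
        inner ℝ w (q₂ - q₁) = (0 : ℝ) → qf g₁ (‖q₂ - q₁‖⁻¹ • (q₂ - q₁)) w =
          qf g₂ (‖q₂ - q₁‖⁻¹ • (q₂ - q₁)) w)) := by
  have hi0 : i ≠ 0 := by linarith
  have s1 : Sm K p₁ := sm_centre H.1 hp H.2.1 s
  have s2 : Sm K p₂ := sm_centre H.1 hp H.2.2.1 s
  obtain ⟨δ₁, hδ₁, M⟩ := smooth_bodies hn hi h1 h2 hne H s1 s2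
  obtain ⟨δa, ha, Na⟩ := near_comb h1 hδ₁
  obtain ⟨δb, hb, Nb⟩ := near_comb h2 hδ₁
  have hρ : 0 < min (min δa δb) 1 / 8 := by positivity
  obtain ⟨δc, hc, Nc⟩ := par_near hne (-i) hρ
  obtain ⟨ρ, hρe⟩ : ∃ ρ, min (min δa δb) 1 / 8 = ρ := ⟨_, rfl⟩
  rw [hρe] at hρ Nc
  have ρa : 8 * ρ ≤ δa := by
    rw [← hρe]
    have := (min_le_left (min δa δb) 1).trans (min_le_left δa δb)
    linarith
  have ρb : 8 * ρ ≤ δb := by
    rw [← hρe]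
    have := (min_le_left (min δa δb) 1).trans (min_le_right δa δb)
    linarith
  have ρ1 : ρ ≤ 1 := by
    rw [← hρe]
    have := min_le_right (min δa δb) 1
    linarith
  refine ⟨min (min δa δb) δc, lt_min (lt_min ha hb) hc, ?_⟩
  intro q₁ q₂ hq₁ hq₂ g₁ g₂ hg₁ hg₂ n₁ n₂
  have la : min (min δa δb) δc ≤ δa := (min_le_left _ _).trans (min_le_left _ _)
  have lb : min (min δa δb) δc ≤ δb := (min_le_left _ _).trans (min_le_right _ _)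
  have lc : min (min δa δb) δc ≤ δc := min_le_right _ _
  obtain ⟨hqne, c1, d1⟩ := Nc q₁ q₂ (hq₁.trans lc) (hq₂.trans lc)
  have e12 : ∀ f : EuclideanSpace ℝ (Fin n) → ℝ, EvC 3 f → EvC 2 f :=
    fun f hf => ⟨hf.hom, hf.c.of_le (by norm_num)⟩
  have dp : 0 < ‖p₂ - p₁‖ := norm_pos_iff.2 (sub_ne_zero.2 hne.symm)
  have dq : 0 < ‖q₂ - q₁‖ := norm_pos_iff.2 (sub_ne_zero.2 hqne.symm)
  have unit : ∀ x : EuclideanSpace ℝ (Fin n), 0 < ‖x‖ → ‖‖x‖⁻¹ • x‖ = 1 := by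
    intro x hx
    rw [norm_smul, norm_inv, norm_norm, inv_mul_cancel₀ hx.ne']
  obtain ⟨R, hR, hRn⟩ := rot_exists (unit _ dp) (unit _ dq) (d1.trans ρ1)
  have hRa : ∀ x, ‖R x - x‖ ≤ δa * ‖x‖ := fun x => (hRn x).trans (by
    have := norm_nonneg x
    nlinarith [norm_nonneg x])
  have hRb : ∀ x, ‖R x - x‖ ≤ δb * ‖x‖ := fun x => (hRn x).trans (by
    have := norm_nonneg x
    nlinarith [norm_nonneg x])
  obtain ⟨lam, hlam⟩ : ∃ lam, ‖q₂ - q₁‖ / ‖p₂ - p₁‖ = lam := ⟨_, rfl⟩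
  rw [hlam] at c1
  have lam0 : 0 < lam := by
    rw [← hlam]
    positivity
  have M' := M (fun x => lam ^ (-i) * g₁ (R x)) (fun x => lam ^ (-i) * g₂ (R x))
    (evc_rot hg₁ _ R) (evc_rot hg₂ _ R)
    (Na R hRa _ (c1.trans (by linarith)) g₁ hg₁ fun j hj u hu => (n₁ j hj u hu).trans la)
    (Nb R hRb _ (c1.trans (by linarith)) g₂ hg₂ fun j hj u hu => (n₂ j hj u hu).trans lb)
  constructor
  · rintro ⟨K', hK'⟩ hi1 w hw ho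
    subst hi1
    exact nec_at (e12 _ hg₁) (e12 _ hg₂) hqne hK' hw ho
  · intro hcond
    have hu0 : ‖p₂ - p₁‖⁻¹ • (p₂ - p₁) ≠ 0 := by
      intro h0
      have := unit _ dp
      rw [h0, norm_zero] at this
      exact zero_ne_one this
    obtain ⟨K', hK'⟩ := M'.2 (by
      intro hi1 w hw ho
      rw [qf_rot (e12 _ hg₁) _ R hu0, qf_rot (e12 _ hg₂) _ R hu0, hR]
      have hRw : ‖R w‖ = 1 := by rw [R.norm_map, hw]
      have hRo : inner ℝ (R w) (q₂ - q₁) = (0 : ℝ) := by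
        have e : q₂ - q₁ = ‖q₂ - q₁‖ • (‖q₂ - q₁‖⁻¹ • (q₂ - q₁)) := by
          rw [smul_smul, mul_inv_cancel₀ dq.ne', one_smul]
        rw [e, ← hR, inner_smul_right, R.inner_map_map, inner_smul_right, ho, mul_zero, mul_zero]
      rw [hcond hi1 (R w) hRw hRo])
    have t1 := pairE_vadd (-p₁) hK'
    have t2 := pairE_rot R t1
    have z1 : -p₁ + p₁ = 0 := neg_add_cancel p₁
    have z2 : -p₁ + p₂ = ‖p₂ - p₁‖ • (‖p₂ - p₁‖⁻¹ • (p₂ - p₁)) := by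
      rw [smul_smul, mul_inv_cancel₀ dp.ne', one_smul]
      abel
    rw [z1, z2, map_zero, R.map_smul, hR] at t2
    simp only [LinearIsometryEquiv.apply_symm_apply] at t2
    have t3 := pairE_smul hi0 lam0 t2
    have z3 : lam • ‖p₂ - p₁‖ • (‖q₂ - q₁‖⁻¹ • (q₂ - q₁)) = q₂ - q₁ := by
      rw [← hlam, smul_smul, smul_smul, div_mul_cancel₀ _ dp.ne', mul_inv_cancel₀ dq.ne', one_smul]
    rw [smul_zero, z3] at t3
    have t4 := pairE_vadd q₁ t3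
    have z4 : q₁ + (q₂ - q₁) = q₂ := by abel
    rw [add_zero, z4] at t4
    exact ⟨_, t4⟩

end CJ
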