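import Pool.Agent.H.MP_1693ff_gtE.OHalf

/-!
# Gluing: the formulas
-/

namespace CJ

open Real Set Filter Topology CG CH
open CF hiding St

/-- The four half curves fit together. -/
theorem exists_brG {e d : ℝ} {h₁ h₂ h₃ h₄ : ℝ → ℝ} {U L V V' : ℝ → St}
    (D : HK e d h₁ h₂ U L) (D' : HK e d h₃ h₄ V V') (m13 : Mir U V) (m24 : Mir L V') :
    ∃ x y s yH sH : ℝ → ℝ,
    Br (ZG e d h₁ h₂ U L) (ZG e d h₂ h₁ L U) (ZG e d h₃ h₄ V V') (ZG e d h₄ h₃ V' V)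
      x y s yH sH := by
  -- the half steps
  have S12 : ∀ τ, 0 ≤ τ → (ZG e d h₂ h₁ L U (τ + 1)).α = (ZG e d h₁ h₂ U L τ).a := fun τ hτ => by
    rw [zg_step hτ]; rfl
  have S21 : ∀ τ, 0 ≤ τ → (ZG e d h₁ h₂ U L (τ + 1)).α = (ZG e d h₂ h₁ L U τ).a := fun τ hτ => by
    rw [zg_step hτ]; rfl
  have S34 : ∀ τ, 0 ≤ τ → (ZG e d h₄ h₃ V' V (τ + 1)).α = (ZG e d h₃ h₄ V V' τ).a :=
    fun τ hτ => by rw [zg_step hτ]; rfl
  have S43 : ∀ τ, 0 ≤ τ → (ZG e d h₃ h₄ V V' (τ + 1)).α = (ZG e d h₄ h₃ V' V τ).a :=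
    fun τ hτ => by rw [zg_step hτ]; rfl
  -- the mirror images
  have M13 : ∀ t ∈ Icc (0 : ℝ) 1, (ZG e d h₃ h₄ V V' (1 - t)).a = -(ZG e d h₁ h₂ U L t).α ∧
      (ZG e d h₃ h₄ V V' (1 - t)).α = -(ZG e d h₁ h₂ U L t).a ∧
      (ZG e d h₃ h₄ V V' (1 - t)).s = ((ZG e d h₁ h₂ U L t).s)⁻¹ := by
    intro t ht
    have ht' : 1 - t ∈ Icc (0 : ℝ) 1 := ⟨by linarith [ht.2], by linarith [ht.1]⟩
    obtain ⟨a1, a2, a3⟩ := zg_arc D ht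
    obtain ⟨b1, b2, b3⟩ := zg_arc D' ht'
    obtain ⟨c1, c2, c3⟩ := m13 t ht
    rw [a1, a2, a3, b1, b2, b3]
    exact ⟨c1, c2, c3⟩
  have M24 : ∀ t ∈ Icc (0 : ℝ) 1, (ZG e d h₄ h₃ V' V (1 - t)).a = -(ZG e d h₂ h₁ L U t).α ∧
      (ZG e d h₄ h₃ V' V (1 - t)).α = -(ZG e d h₂ h₁ L U t).a ∧
      (ZG e d h₄ h₃ V' V (1 - t)).s = ((ZG e d h₂ h₁ L U t).s)⁻¹ := by
    intro t ht
    have ht' : 1 - t ∈ Icc (0 : ℝ) 1 := ⟨by linarith [ht.2], by linarith [ht.1]⟩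
    obtain ⟨a1, a2, a3⟩ := zg_arc D.swap ht
    obtain ⟨b1, b2, b3⟩ := zg_arc D'.swap ht'
    obtain ⟨c1, c2, c3⟩ := m24 t ht
    rw [a1, a2, a3, b1, b2, b3]
    exact ⟨c1, c2, c3⟩
  have B0 : Br (ZG e d h₁ h₂ U L) (ZG e d h₂ h₁ L U) (ZG e d h₃ h₄ V V') (ZG e d h₄ h₃ V' V)
      (fun τ => if 0 ≤ τ then (ZG e d h₁ h₂ U L τ).a else -(ZG e d h₃ h₄ V V' (1 - τ)).α)
      (fun τ => if 0 ≤ τ then -(ZG e d h₁ h₂ U L τ).α else (ZG e d h₃ h₄ V V' (1 - τ)).a)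
      (fun τ => if 0 ≤ τ then (ZG e d h₁ h₂ U L τ).s else ((ZG e d h₃ h₄ V V' (1 - τ)).s)⁻¹)
      (fun τ => if 0 ≤ τ then -(ZG e d h₂ h₁ L U (τ + 1)).a else (ZG e d h₄ h₃ V' V (-τ)).α)
      (fun τ => if 0 ≤ τ then ((ZG e d h₂ h₁ L U (τ + 1)).s)⁻¹
        else (ZG e d h₄ h₃ V' V (-τ)).s) := by
    have u1 : ∀ τ, 0 ≤ τ →
        (if 0 ≤ τ then (ZG e d h₁ h₂ U L τ).a else -(ZG e d h₃ h₄ V V' (1 - τ)).α) =
          (ZG e d h₁ h₂ U L τ).a ∧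
        (if 0 ≤ τ then -(ZG e d h₁ h₂ U L τ).α else (ZG e d h₃ h₄ V V' (1 - τ)).a) =
          -(ZG e d h₁ h₂ U L τ).α ∧
        (if 0 ≤ τ then (ZG e d h₁ h₂ U L τ).s else ((ZG e d h₃ h₄ V V' (1 - τ)).s)⁻¹) =
          (ZG e d h₁ h₂ U L τ).s := by
      intro τ hτ
      rw [if_pos hτ, if_pos hτ, if_pos hτ]
      exact ⟨rfl, rfl, rfl⟩
    have u2 : ∀ τ, τ ≤ 1 →
        (if 0 ≤ τ then (ZG e d h₁ h₂ U L τ).a else -(ZG e d h₃ h₄ V V' (1 - τ)).α) =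
          -(ZG e d h₃ h₄ V V' (1 - τ)).α ∧
        (if 0 ≤ τ then -(ZG e d h₁ h₂ U L τ).α else (ZG e d h₃ h₄ V V' (1 - τ)).a) =
          (ZG e d h₃ h₄ V V' (1 - τ)).a ∧
        (if 0 ≤ τ then (ZG e d h₁ h₂ U L τ).s else ((ZG e d h₃ h₄ V V' (1 - τ)).s)⁻¹) =
          ((ZG e d h₃ h₄ V V' (1 - τ)).s)⁻¹ := by
      intro τ hτ
      by_cases h0 : 0 ≤ τ
      · rw [if_pos h0, if_pos h0, if_pos h0]
        obtain ⟨m1, m2, m3⟩ := M13 τ ⟨h0, hτ⟩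
        rw [m1, m2, m3, neg_neg, inv_inv]
        exact ⟨rfl, rfl, rfl⟩
      · rw [if_neg h0, if_neg h0, if_neg h0]
        exact ⟨rfl, rfl, rfl⟩
    have l1 : ∀ τ, -1 ≤ τ →
        (if 0 ≤ τ then (ZG e d h₁ h₂ U L τ).a else -(ZG e d h₃ h₄ V V' (1 - τ)).α) =
          (ZG e d h₂ h₁ L U (τ + 1)).α ∧
        (if 0 ≤ τ then -(ZG e d h₂ h₁ L U (τ + 1)).a else (ZG e d h₄ h₃ V' V (-τ)).α) =
          -(ZG e d h₂ h₁ L U (τ + 1)).a ∧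
        (if 0 ≤ τ then ((ZG e d h₂ h₁ L U (τ + 1)).s)⁻¹ else (ZG e d h₄ h₃ V' V (-τ)).s) =
          ((ZG e d h₂ h₁ L U (τ + 1)).s)⁻¹ := by
      intro τ hτ
      by_cases h0 : 0 ≤ τ
      · rw [if_pos h0, if_pos h0, if_pos h0, S12 τ h0]
        exact ⟨rfl, rfl, rfl⟩
      · rw [if_neg h0, if_neg h0, if_neg h0]
        push Not at h0
        obtain ⟨m1, m2, m3⟩ := M24 (τ + 1) ⟨by linarith, by linarith⟩
        have e1 : 1 - (τ + 1) = -τ := by ring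
        rw [e1] at m1 m2 m3
        have e2 := S43 (-τ) (by linarith)
        have e3 : -τ + 1 = 1 - τ := by ring
        rw [e3] at e2
        rw [e2, m1, m2, m3, neg_neg]
        exact ⟨rfl, rfl, rfl⟩
    have l2 : ∀ τ, τ ≤ 0 →
        (if 0 ≤ τ then (ZG e d h₁ h₂ U L τ).a else -(ZG e d h₃ h₄ V V' (1 - τ)).α) =
          -(ZG e d h₄ h₃ V' V (-τ)).a ∧
        (if 0 ≤ τ then -(ZG e d h₂ h₁ L U (τ + 1)).a else (ZG e d h₄ h₃ V' V (-τ)).α) =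
          (ZG e d h₄ h₃ V' V (-τ)).α ∧
        (if 0 ≤ τ then ((ZG e d h₂ h₁ L U (τ + 1)).s)⁻¹ else (ZG e d h₄ h₃ V' V (-τ)).s) =
          (ZG e d h₄ h₃ V' V (-τ)).s := by
      intro τ hτ
      by_cases h0 : 0 ≤ τ
      · have h00 : τ = 0 := le_antisymm hτ h0
        obtain ⟨m1, m2, m3⟩ := M24 1 ⟨zero_le_one, le_refl 1⟩
        rw [if_pos h0, if_pos h0, if_pos h0, ← S12 τ h0]
        subst h00
        rw [sub_self] at m1 m2 m3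
        rw [zero_add, neg_zero, m1, m2, m3, neg_neg]
        exact ⟨rfl, rfl, rfl⟩
      · rw [if_neg h0, if_neg h0, if_neg h0]
        push Not at h0
        have e2 := S43 (-τ) (by linarith)
        have e3 : -τ + 1 = 1 - τ := by ring
        rw [e3] at e2
        rw [e2]
        exact ⟨rfl, rfl, rfl⟩
    refine ⟨u1, u2, l1, l2, fun τ => ?_⟩
    rcases le_or_gt (-1) τ with h | h
    · have h1 := (l1 τ h).2.1
      have h2 := (u1 (τ + 2) (by linarith)).2.1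
      have h3 := S21 (τ + 1) (by linarith)
      have e1 : τ + 1 + 1 = τ + 2 := by ring
      rw [e1] at h3
      exact h1.trans (h2.trans (congrArg Neg.neg h3)).symm
    · have h1 := (l2 τ (by linarith)).2.1
      have h2 := (u2 (τ + 2) (by linarith)).2.1
      have h3 := S34 (-1 - τ) (by linarith)
      have e1 : -1 - τ + 1 = -τ := by ring
      have e2 : 1 - (τ + 2) = -1 - τ := by ring
      rw [e1] at h3
      have h4 : (ZG e d h₃ h₄ V V' (1 - (τ + 2))).a = (ZG e d h₃ h₄ V V' (-1 - τ)).a := by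
        rw [e2]
      exact (h1.trans h3).trans (h2.trans h4).symm
  exact ⟨_, _, _, _, _, B0⟩

end CJ
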