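import Pool.Agent.H.MP_1693ff_gtE.OE

/-!
# The facts about the chains from the inequalities at every step
-/

namespace CJ

open Real Set Filter Topology CG CH
open CF hiding St

/-- `a` is nonnegative along the chain: `a' = a + d opp ≥ a` (`opp ≥ 0`, a real power of the
positive number `f^e - W^e`; `0 < c (1 + a) < W < f`). -/
theorem hk_a0 {e d c C : ℝ} (he : 1 ≤ e) (hd : 0 < d) (hc : 0 < c) {h k : ℝ → ℝ} {S : ℝ → St}
    {t : ℝ} (a0 : 0 ≤ (S t).a)
    (cd : ∀ n, Cd e d c C (if Even n then pf h else pf k) (chn e d h k S n t)) (n : ℕ) :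
    0 ≤ (chn e d h k S n t).a := by
  induction n with
  | zero => exact a0
  | succ n ih =>
    have hcd := cd n
    have h1 : (chn e d h k S (n + 1) t).a = (chn e d h k S n t).a +
      d * opp e d (if Even n then pf h else pf k) (chn e d h k S n t) := rfl
    have hW : 0 < (chn e d h k S n t).W d := by
      have h2 := hcd.W0
      have h3 : 0 ≤ c * (1 + (chn e d h k S n t).a) := by positivity
      linarith
    have h4 : 0 ≤ opp e d (if Even n then pf h else pf k) (chn e d h k S n t) := by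
      unfold opp
      apply rpow_nonneg
      have h5 := rpow_le_rpow hW.le hcd.W1.le (by linarith : (0 : ℝ) ≤ e)
      linarith
    rw [h1]
    have h6 : 0 ≤ d * opp e d (if Even n then pf h else pf k) (chn e d h k S n t) :=
      mul_nonneg hd.le h4
    linarith

/-- Growth: `a_{n+1} - a_n = d W_{n+1} > d c` (`α_{n+1} = a_n`). -/
theorem hk_gr {e d c C : ℝ} (he : 1 ≤ e) (hd : 0 < d) (hc : 0 < c) {h k : ℝ → ℝ} {S : ℝ → St}
    {t : ℝ} (a0 : 0 ≤ (S t).a)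
    (cd : ∀ n, Cd e d c C (if Even n then pf h else pf k) (chn e d h k S n t)) (n : ℕ) :
    d * c * n ≤ (chn e d h k S n t).a := by
  induction n with
  | zero =>
    have h1 : 0 ≤ (chn e d h k S 0 t).a := a0
    simpa using h1
  | succ n ih =>
    have ha := hk_a0 he hd hc a0 cd (n + 1)
    have hcd := (cd (n + 1)).W0
    have h1 : (chn e d h k S (n + 1) t).α = (chn e d h k S n t).a := rfl
    have h2 : (chn e d h k S (n + 1) t).W d =
      ((chn e d h k S (n + 1) t).a - (chn e d h k S n t).a) / d := by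
      rw [← h1]
      rfl
    rw [h2, lt_div_iff₀ hd] at hcd
    have h3 : c * d ≤ c * (1 + (chn e d h k S (n + 1) t).a) * d := by
      have h4 : 0 ≤ c * (chn e d h k S (n + 1) t).a * d := by positivity
      nlinarith
    push_cast
    nlinarith

/-- `s < 1` once `a > C/(d c)`: `(1 - s) a = (a - α) - (s a - α) > d c (1 + a) - C`. -/
theorem hk_lt {e d c C : ℝ} (hd : 0 < d) (hc : 0 < c) {P : Pf} {S : St} (a0 : 0 < S.a)
    (cd : Cd e d c C P S) (h : C ≤ d * c * S.a) : S.s < 1 := by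
  have h1 := cd.W0
  have h2 : S.W d = (S.a - S.α) / d := rfl
  rw [h2, lt_div_iff₀ hd] at h1
  have h3 := (abs_lt.1 cd.g0).2
  have h4 : 0 < d * c := mul_pos hd hc
  have h5 : 0 < (1 - S.s) * S.a := by nlinarith
  have h6 := (mul_pos_iff_of_pos_right a0).1 h5
  linarith

/-- **All facts.** -/
theorem hk_of_cd {e d c C : ℝ} {h k : ℝ → ℝ} {S S' : ℝ → St} (he : 1 ≤ e) (hd : 0 < d)
    (hc : 0 < c) (hp : ∀ θ, h (θ + π) = h θ) (kp : ∀ θ, k (θ + π) = k θ) (hC : ContDiff ℝ 2 h)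
    (kC : ContDiff ℝ 2 k) (rS : Rg S) (rS' : Rg S') (a0 : ∀ t ∈ Icc (0 : ℝ) 1, 0 ≤ (S t).a)
    (a0' : ∀ t ∈ Icc (0 : ℝ) 1, 0 ≤ (S' t).a)
    (cd : ∀ t ∈ Icc (0 : ℝ) 1, ∀ n,
      Cd e d c C (if Even n then pf h else pf k) (chn e d h k S n t))
    (cd' : ∀ t ∈ Icc (0 : ℝ) 1, ∀ n,
      Cd e d c C (if Even n then pf k else pf h) (chn e d k h S' n t))
    (j : Eq3 (S 1) (hst e d (pf k) (S' 0))) (j' : Eq3 (S' 1) (hst e d (pf h) (S 0))) :
    HK e d h k S S' := by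
  have A := fun t (ht : t ∈ Icc (0 : ℝ) 1) (n : ℕ) => hk_a0 he hd hc (a0 t ht) (cd t ht) n
  have A' := fun t (ht : t ∈ Icc (0 : ℝ) 1) (n : ℕ) => hk_a0 he hd hc (a0' t ht) (cd' t ht) n
  have B := fun t (ht : t ∈ Icc (0 : ℝ) 1) (n : ℕ) => hk_gr he hd hc (a0 t ht) (cd t ht) n
  have B' := fun t (ht : t ∈ Icc (0 : ℝ) 1) (n : ℕ) => hk_gr he hd hc (a0' t ht) (cd' t ht) n
  have hdc : 0 < d * c := mul_pos hd hc
  have gd : ∀ {P : Pf} {S : St}, 0 ≤ S.a → Cd e d c C P S → Gd e d P S := by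
    intro P S hS hcd
    refine ⟨?_, hcd.W1, hc.trans hcd.s0, hcd.k0.le, hcd.v0, hcd.p0⟩
    have h2 := hcd.W0
    have h3 : 0 ≤ c * (1 + S.a) := by positivity
    linarith
  have gr : ∀ M : ℝ, ∃ N : ℕ, ∀ n, N ≤ n → ∀ t ∈ Icc (0 : ℝ) 1,
      M ≤ (chn e d h k S n t).a ∧ M ≤ (chn e d k h S' n t).a := by
    intro M
    refine ⟨⌈M / (d * c)⌉₊, fun n hn t ht => ?_⟩
    have h1 : M ≤ d * c * n := by
      have h2 : M / (d * c) ≤ n := (Nat.le_ceil _).trans (by exact_mod_cast hn)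
      rw [div_le_iff₀ hdc] at h2
      linarith
    exact ⟨h1.trans (B t ht n), h1.trans (B' t ht n)⟩
  refine ⟨he, hd, hp, kp, hC, kC, rS, rS', fun t ht n => gd (A t ht n) (cd t ht n),
    fun t ht n => gd (A' t ht n) (cd' t ht n), j, j', gr,
    ⟨C, fun t ht n => ⟨(cd t ht n).g0.le, (cd' t ht n).g0.le⟩⟩,
    ⟨c, hc, fun t ht n => ⟨⟨(cd t ht n).s0.le, (cd t ht n).s1.le⟩,
      ⟨(cd' t ht n).s0.le, (cd' t ht n).s1.le⟩⟩⟩, ?_⟩
  obtain ⟨N, hN⟩ := gr (max 1 (C / (d * c)))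
  refine ⟨N, fun n hn t ht => ?_⟩
  obtain ⟨h1, h2⟩ := hN n hn t ht
  have key : ∀ {P : Pf} {S : St}, max 1 (C / (d * c)) ≤ S.a → Cd e d c C P S → S.s < 1 := by
    intro P S hS hcd
    have h3 : (1 : ℝ) ≤ S.a := (le_max_left _ _).trans hS
    have h4 : C / (d * c) ≤ S.a := (le_max_right _ _).trans hS
    rw [div_le_iff₀ hdc] at h4
    exact hk_lt hd hc (by linarith) hcd (by linarith)
  exact ⟨key h1 (cd t ht n), key h2 (cd' t ht n)⟩

/-- Positive definite forms are nonnegative. -/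
theorem pd_bf {S : St} {T : Tt} (h : PD S T) (z ρ : ℝ) : 0 ≤ bf S T z ρ := by
  obtain ⟨h1, h2⟩ := h
  have h3 : S.k * bf S T z ρ = (S.k * z + T.ℓ * ρ) ^ 2 + (S.k * T.q - T.ℓ ^ 2) * ρ ^ 2 := by
    unfold bf
    ring
  have h4 : 0 ≤ S.k * bf S T z ρ := by
    rw [h3]
    have h5 : 0 ≤ (S.k * T.q - T.ℓ ^ 2) * ρ ^ 2 :=
      mul_nonneg (by linarith) (sq_nonneg _)
    have h6 := sq_nonneg (S.k * z + T.ℓ * ρ)
    linarith
  exact nonneg_of_mul_nonneg_right h4 h1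

end CJ
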