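import Pool.Agent.H.MP_1693ff_gtE.OJunc

/-!
# The half curve
-/

namespace CJ

open Real Set Filter Topology CG CH
open CF hiding St

/-- `ZG` in terms of the integral and fractional parts. -/
theorem ohalf_eval {e d : ℝ} {h k : ℝ → ℝ} {S S' : ℝ → St} {τ : ℝ} {n : ℕ} {t : ℝ} (hn : ⌊τ⌋₊ = n)
    (ht : τ = n + t) :
    ZG e d h k S S' τ = if Even n then chn e d h k S n t else chn e d k h S' n t := by
  have h1 : τ - (n : ℝ) = t := by rw [ht]; ring
  unfold ZG
  rw [hn, h1]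

theorem ohalf_frac {τ : ℝ} (hτ : 0 ≤ τ) : τ - (⌊τ⌋₊ : ℝ) ∈ Icc (0 : ℝ) 1 := by
  have h1 := Nat.floor_le hτ
  have h2 := Nat.lt_floor_add_one τ
  exact ⟨by linarith, by linarith⟩

/-- `ZG` on the closed interval `[n, n+1]` (at `n + 1` by `junc`): equal to the chain in the
components `α, a, s`. -/
theorem zg_piece {e d : ℝ} {h k : ℝ → ℝ} {S S' : ℝ → St} (D : HK e d h k S S') (n : ℕ) {t : ℝ}
    (ht : t ∈ Icc (0 : ℝ) 1) :
    (ZG e d h k S S' (n + t)).α =
      (if Even n then chn e d h k S n t else chn e d k h S' n t).α ∧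
    (ZG e d h k S S' (n + t)).a = (if Even n then chn e d h k S n t else chn e d k h S' n t).a ∧
    (ZG e d h k S S' (n + t)).s = (if Even n then chn e d h k S n t else chn e d k h S' n t).s := by
  rcases ht.2.lt_or_eq with h1 | h1
  · have hfl : ⌊(n : ℝ) + t⌋₊ = n := by
      rw [Nat.floor_eq_iff (by have := ht.1; positivity)]
      exact ⟨by linarith [ht.1], by linarith⟩
    rw [ohalf_eval hfl rfl]
    exact ⟨rfl, rfl, rfl⟩
  · subst h1
    have hfl : ⌊(n : ℝ) + 1⌋₊ = n + 1 := by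
      rw [Nat.floor_eq_iff (by positivity)]
      push_cast
      exact ⟨le_rfl, by linarith⟩
    rw [ohalf_eval (n := n + 1) (t := 0) hfl (by push_cast; ring)]
    by_cases hn : Even n
    · have hn1 : ¬ Even (n + 1) := by
        rw [Nat.even_add_one]
        exact not_not.2 hn
      rw [if_neg hn1, if_pos hn]
      obtain ⟨j1, j2, j3⟩ := chn_junc D n
      exact ⟨j1.symm, j2.symm, j3.symm⟩
    · have hn1 : Even (n + 1) := Nat.even_add_one.2 hn
      rw [if_pos hn1, if_neg hn]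
      obtain ⟨j1, j2, j3⟩ := chn_junc D.swap n
      exact ⟨j1.symm, j2.symm, j3.symm⟩

/-- The half step moves by `1` and exchanges the two half curves: `⌊τ+1⌋₊ = ⌊τ⌋₊ + 1`. -/
theorem zg_step {e d : ℝ} {h k : ℝ → ℝ} {S S' : ℝ → St} {τ : ℝ} (hτ : 0 ≤ τ) :
    ZG e d k h S' S (τ + 1) = hst e d (pf h) (ZG e d h k S S' τ) := by
  obtain ⟨n, hn⟩ : ∃ n, n = ⌊τ⌋₊ := ⟨_, rfl⟩
  obtain ⟨t, ht⟩ : ∃ t, t = τ - (n : ℝ) := ⟨_, rfl⟩
  have hfl : ⌊τ + 1⌋₊ = n + 1 := by rw [Nat.floor_add_one hτ, hn]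
  rw [ohalf_eval (n := n + 1) (t := t) hfl (by rw [ht]; push_cast; ring),
    ohalf_eval (n := n) (t := t) hn.symm (by rw [ht]; ring)]
  by_cases he : Even n
  · have hn1 : ¬ Even (n + 1) := by
      rw [Nat.even_add_one]
      exact not_not.2 he
    rw [if_neg hn1, if_pos he]
    show hst e d (if Even n then pf h else pf k) (chn e d h k S n t) = _
    rw [if_pos he]
  · have hn1 : Even (n + 1) := Nat.even_add_one.2 he
    rw [if_pos hn1, if_neg he]
    show hst e d (if Even n then pf k else pf h) (chn e d k h S' n t) = _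
    rw [if_neg he]

/-- `ZG` on `[0,1]`. -/
theorem zg_arc {e d : ℝ} {h k : ℝ → ℝ} {S S' : ℝ → St} (D : HK e d h k S S') {t : ℝ}
    (ht : t ∈ Icc (0 : ℝ) 1) :
    (ZG e d h k S S' t).α = (S t).α ∧ (ZG e d h k S S' t).a = (S t).a ∧
    (ZG e d h k S S' t).s = (S t).s := by
  have := zg_piece D 0 ht
  simpa [chn, cS] using this

/-- `Gd` along the half curve. -/
theorem zg_good {e d : ℝ} {h k : ℝ → ℝ} {S S' : ℝ → St} (D : HK e d h k S S') {τ : ℝ} (hτ : 0 ≤ τ) :
    Gd e d (pf h) (ZG e d h k S S' τ) := by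
  have hm := ohalf_frac hτ
  unfold ZG
  by_cases he : Even ⌊τ⌋₊
  · rw [if_pos he]
    have := D.good _ hm ⌊τ⌋₊
    rwa [if_pos he] at this
  · rw [if_neg he]
    have := D.good' _ hm ⌊τ⌋₊
    rwa [if_neg he] at this

end CJ
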