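import Pool.Agent.H.MP_1693ff_gtE.OIxD

/-!
# The family of all nearby pairs: basics
-/

namespace CJ

open Real Set Filter Topology CG CH
open CF hiding St
open CI (EvC qf)

variable {E : Type} [NormedAddCommGroup E] [InnerProductSpace ℝ E]

/-- Eventually near `x₀` means for all `x` with `x.ε` near `x₀.ε`. -/
theorem ix_ev {i : ℝ} {f₁ f₂ : E → ℝ} {ax : E} {x₀ : Ix i f₁ f₂ ax} (h0 : x₀.ε = 0)
    {P : Ix i f₁ f₂ ax → Prop} (h : ∀ᶠ x in 𝓝 x₀, P x) :
    ∃ δ > 0, ∀ x : Ix i f₁ f₂ ax, x.ε ≤ δ → P x := by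
  rw [nhds_induced, Filter.eventually_comap, h0, Metric.eventually_nhds_iff] at h
  obtain ⟨r, hr, H⟩ := h
  refine ⟨r / 2, half_pos hr, fun x hx => H (y := x.ε) ?_ x rfl⟩
  rw [Real.dist_eq, sub_zero, abs_of_nonneg x.ε0]
  linarith

/-- A family all of whose derivatives up to order `k` tend to `0` at `(i₀, v)`: induction on `k`,
`norm_iteratedFDeriv_fderiv`; the value at `(i₀, v)` itself is `0`. -/
theorem jd_small {ι : Type} [TopologicalSpace ι] {i₀ : ι} {v : E} (k : ℕ) {F : Type}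
    [NormedAddCommGroup F] [NormedSpace ℝ F] {f : ι → E → F}
    (h : ∀ j ≤ k, Tendsto (fun p : ι × E => ‖iteratedFDeriv ℝ j (f p.1) p.2‖) (𝓝 (i₀, v)) (𝓝 0)) :
    JD i₀ v k f := by
  have key : ∀ {G : Type} [NormedAddCommGroup G] [NormedSpace ℝ G] {g : ι → E → G},
      Tendsto (fun p : ι × E => ‖iteratedFDeriv ℝ 0 (g p.1) p.2‖) (𝓝 (i₀, v)) (𝓝 0) →
      ContinuousAt (fun p : ι × E => g p.1 p.2) (i₀, v) := by
    intro G _ _ g hg
    simp only [norm_iteratedFDeriv_zero] at hg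
    have h1 : Tendsto (fun p : ι × E => g p.1 p.2) (𝓝 (i₀, v)) (𝓝 0) :=
      tendsto_zero_iff_norm_tendsto_zero.2 hg
    have h2 : g i₀ v = 0 := (tendsto_nhds_unique (h1.mono_left (pure_le_nhds _))
      (tendsto_pure_nhds (fun p : ι × E => g p.1 p.2) (i₀, v))).symm
    show Tendsto _ _ (𝓝 (g i₀ v))
    rw [h2]
    exact h1
  induction k generalizing F with
  | zero => exact key (h 0 le_rfl)
  | succ k ih =>
    refine ⟨key (h 0 (Nat.zero_le _)), ih fun j hj => ?_⟩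
    have := h (j + 1) (Nat.succ_le_succ hj)
    simpa only [norm_iteratedFDeriv_fderiv] using this

/-- The derivatives of a function which is constant on lines through `0` are homogeneous:
`‖iteratedFDeriv ℝ j g v‖ = ‖v‖^{-j} ‖iteratedFDeriv ℝ j g (v/‖v‖)‖`. -/
theorem itf_hom {g : E → ℝ} (h : ∀ t : ℝ, t ≠ 0 → ∀ u, g (t • u) = g u) {j : ℕ} {v : E}
    (hv : v ≠ 0) : ‖iteratedFDeriv ℝ j g v‖ = ‖v‖⁻¹ ^ j * ‖iteratedFDeriv ℝ j g (‖v‖⁻¹ • v)‖ := by
  have ht : ‖v‖⁻¹ ≠ 0 := inv_ne_zero (norm_ne_zero_iff.2 hv)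
  let L : E ≃L[ℝ] E := ContinuousLinearEquiv.smulLeft (Units.mk0 (‖v‖⁻¹) ht)
  have hL : ∀ u, L u = ‖v‖⁻¹ • u := fun u => rfl
  have hg : g ∘ L = g := by
    funext u
    rw [Function.comp_apply, hL, h _ ht]
  have h1 : iteratedFDeriv ℝ j (g ∘ L) v =
      (iteratedFDeriv ℝ j g (L v)).compContinuousLinearMap fun _ => (L : E →L[ℝ] E) := by
    have := L.iteratedFDerivWithin_comp_right g uniqueDiffOn_univ (mem_univ (L v)) j
    simpa only [preimage_univ, iteratedFDerivWithin_univ] using this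
  have h2 : ((iteratedFDeriv ℝ j g (L v)).compContinuousLinearMap fun _ => (L : E →L[ℝ] E)) =
      (‖v‖⁻¹ ^ j) • iteratedFDeriv ℝ j g (L v) := by
    ext m
    have := (iteratedFDeriv ℝ j g (L v)).map_smul_univ (fun _ => ‖v‖⁻¹) m
    simp only [Finset.prod_const, Finset.card_univ, Fintype.card_fin] at this
    exact this
  rw [hg, h2, hL] at h1
  rw [h1, norm_smul, norm_pow, norm_inv, norm_norm]

end CJ
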