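import Pool.Agent.H.MP_1693ff_gtE.OE
import Pool.Agent.H.MP_1693ff_gtD.MQD

/-!
# The family of all nearby pairs: definition
-/

namespace CJ

open Real Set Filter Topology CG CH
open CF hiding St
open CI (EvC qf)

noncomputable section

variable {E : Type} [NormedAddCommGroup E] [InnerProductSpace ℝ E]

/-- A pair of even positive `C³` functions, `ε`-near to `(f₁, f₂)`, which satisfies the curvature
condition if `i = -1`. -/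
structure Ix (i : ℝ) (f₁ f₂ : E → ℝ) (ax : E) where
  (g₁ g₂ : E → ℝ)
  ε : ℝ
  ε0 : 0 ≤ ε
  h₁ : EvC 3 g₁
  h₂ : EvC 3 g₂
  p₁ : ∀ u, ‖u‖ = 1 → 0 < g₁ u
  p₂ : ∀ u, ‖u‖ = 1 → 0 < g₂ u
  n₁ : ∀ j ≤ 3, ∀ u, ‖u‖ = 1 → ‖iteratedFDeriv ℝ j (fun u => g₁ u - f₁ u) u‖ ≤ ε
  n₂ : ∀ j ≤ 3, ∀ u, ‖u‖ = 1 → ‖iteratedFDeriv ℝ j (fun u => g₂ u - f₂ u) u‖ ≤ ε
  c : i = -1 → ∀ w, ‖w‖ = 1 → inner ℝ w ax = (0 : ℝ) → qf g₁ ax w = qf g₂ ax w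

instance (i : ℝ) (f₁ f₂ : E → ℝ) (ax : E) : TopologicalSpace (Ix i f₁ f₂ ax) :=
  TopologicalSpace.induced (fun x => x.ε) inferInstance

/-- `‖v‖ g(v)^{1/e}`. -/
def nr (e : ℝ) (g : E → ℝ) (v : E) : ℝ := ‖v‖ * g v ^ e⁻¹

end

end CJ
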