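import Pool.Agent.H.MP_1693ff_gtE.OE

/-!
# Families with continuous derivatives: basics
-/

namespace CJ

open Real Set Filter Topology CG CH
open CF hiding St

variable {ι : Type} [TopologicalSpace ι]
variable {E : Type} [NormedAddCommGroup E] [InnerProductSpace ℝ E]

/-- The first condition of `JD`. -/
theorem JD.c0 {i₀ : ι} {v : E} {k : ℕ} {F : Type} [NormedAddCommGroup F] [NormedSpace ℝ F]
    {f : ι → E → F} (h : JD i₀ v k f) : ContinuousAt (fun p : ι × E => f p.1 p.2) (i₀, v) := by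
  cases k with
  | zero => exact h
  | succ k => exact h.1

/-- Induction on `k`. -/
theorem JD.mono {i₀ : ι} {v : E} {k : ℕ} {F : Type} [NormedAddCommGroup F] [NormedSpace ℝ F]
    {f : ι → E → F} (h : JD i₀ v (k + 1) f) : JD i₀ v k f := by
  induction k generalizing F with
  | zero => exact h.1
  | succ k ih => exact ⟨h.1, ih h.2⟩

theorem JC.mono {i₀ : ι} {v : E} {k : ℕ} {F : Type} [NormedAddCommGroup F] [NormedSpace ℝ F]
    {f : ι → E → F} (h : JC i₀ v (k + 1) f) : JC i₀ v k f := by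
  refine ⟨h.1.mono fun p hp => hp.of_le ?_, h.2.mono⟩
  exact_mod_cast Nat.le_succ k

/-- `ContDiffAt.fderiv_right`. -/
theorem JC.fd {i₀ : ι} {v : E} {k : ℕ} {F : Type} [NormedAddCommGroup F] [NormedSpace ℝ F]
    {f : ι → E → F} (h : JC i₀ v (k + 1) f) : JC i₀ v k (fun i => fderiv ℝ (f i)) := by
  refine ⟨h.1.mono fun p hp => hp.fderiv_right ?_, h.2.2⟩
  exact_mod_cast le_refl (k + 1)

/-- Conversely. -/
theorem JC.of_fd {i₀ : ι} {v : E} {k : ℕ} {F : Type} [NormedAddCommGroup F] [NormedSpace ℝ F]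
    {f : ι → E → F} (hc : ∀ᶠ p : ι × E in 𝓝 (i₀, v), ContDiffAt ℝ (k + 1 : ℕ) (f p.1) p.2)
    (h0 : ContinuousAt (fun p : ι × E => f p.1 p.2) (i₀, v))
    (h : JC i₀ v k (fun i => fderiv ℝ (f i))) : JC i₀ v (k + 1) f := by
  exact ⟨hc, h0, h.2⟩

/-- Agreement near the point gives agreement of germs. -/
theorem ojc_ev {i₀ : ι} {v : E} {F : Type} {f g : ι → E → F}
    (hfg : ∀ᶠ p : ι × E in 𝓝 (i₀, v), g p.1 p.2 = f p.1 p.2) :
    ∀ᶠ p : ι × E in 𝓝 (i₀, v), g p.1 =ᶠ[𝓝 p.2] f p.1 := by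
  filter_upwards [eventually_eventually_nhds.mpr hfg] with p hp
  have hc : Tendsto (fun y : E => (p.1, y)) (𝓝 p.2) (𝓝 p) := by
    have h1 : Continuous (fun y : E => (p.1, y)) := by fun_prop
    exact h1.tendsto p.2
  exact hc.eventually hp

theorem ojc_jd {i₀ : ι} {v : E} {k : ℕ} {F : Type} [NormedAddCommGroup F] [NormedSpace ℝ F]
    {f g : ι → E → F} (h : JD i₀ v k f) (hfg : ∀ᶠ p : ι × E in 𝓝 (i₀, v), g p.1 p.2 = f p.1 p.2) :
    JD i₀ v k g := by
  induction k generalizing F with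
  | zero =>
    have h1 : ContinuousAt (fun p : ι × E => f p.1 p.2) (i₀, v) := h
    have h2 : ContinuousAt (fun p : ι × E => g p.1 p.2) (i₀, v) := h1.congr (hfg.mono fun p hp => hp.symm)
    exact h2
  | succ k ih =>
    have h1 : ContinuousAt (fun p : ι × E => f p.1 p.2) (i₀, v) := h.1
    have h2 : ContinuousAt (fun p : ι × E => g p.1 p.2) (i₀, v) := h1.congr (hfg.mono fun p hp => hp.symm)
    refine ⟨h2, ih h.2 ?_⟩
    filter_upwards [ojc_ev hfg] with p hp
    exact hp.fderiv_eq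

/-- Two families which agree near `(i₀, v)`; there is a product neighbourhood `U × V`, `V` open,
where they agree, so the derivatives agree there. Induction on `k`. -/
theorem JC.congr {i₀ : ι} {v : E} {k : ℕ} {F : Type} [NormedAddCommGroup F] [NormedSpace ℝ F]
    {f g : ι → E → F} (h : JC i₀ v k f) (hfg : ∀ᶠ p : ι × E in 𝓝 (i₀, v), g p.1 p.2 = f p.1 p.2) :
    JC i₀ v k g := by
  refine ⟨?_, ojc_jd h.2 hfg⟩
  filter_upwards [ojc_ev hfg, h.1] with p hp h1
  exact h1.congr_of_eventuallyEq hp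

end CJ
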