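import Pool.Agent.H.MP_1693ff_gtE.OJCb

/-!
# Families with continuous derivatives: consequences
-/

namespace CJ

open Real Set Filter Topology CG CH
open CF hiding St

variable {ι : Type} [TopologicalSpace ι]
variable {E : Type} [NormedAddCommGroup E] [InnerProductSpace ℝ E]

/-- `D1 (f i) u x`. -/
theorem JC.d1 {i₀ : ι} {v : E} {k : ℕ} {f : ι → E → ℝ} (hf : JC i₀ v (k + 1) f) (x : E) :
    JC i₀ v k (fun i u => D1 (f i) u x) := by
  have h1 : JC i₀ v k (fun i => fderiv ℝ (f i)) := JC.fd hf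
  have h2 : ContDiffAt ℝ k (fun L : E →L[ℝ] ℝ => L x) (fderiv ℝ (f i₀) v) :=
    (ContinuousLinearMap.apply ℝ ℝ x).contDiff.contDiffAt
  exact JC.comp (Ψ := fun L : E →L[ℝ] ℝ => L x) h2 h1

/-- Continuity of the first derivative, jointly with the vector. -/
theorem JC.c1 {i₀ : ι} {v : E} {k : ℕ} {f : ι → E → ℝ} (hf : JC i₀ v (k + 1) f) (x : E) :
    ContinuousAt (fun q : ι × E × E => D1 (f q.1) q.2.1 q.2.2) (i₀, v, x) := by
  have h1 : ContinuousAt (fun p : ι × E => fderiv ℝ (f p.1) p.2) (i₀, v) := JD.c0 (JC.fd hf).2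
  have h2 : ContinuousAt (fun q : ι × E × E => ((q.1, q.2.1) : ι × E)) (i₀, v, x) :=
    (continuous_fst.prodMk (continuous_fst.comp continuous_snd)).continuousAt
  have h3 : ContinuousAt (fun q : ι × E × E => fderiv ℝ (f q.1) q.2.1) (i₀, v, x) :=
    ContinuousAt.comp (f := fun q : ι × E × E => ((q.1, q.2.1) : ι × E))
      (g := fun p : ι × E => fderiv ℝ (f p.1) p.2) h1 h2
  have h4 : ContinuousAt (fun q : ι × E × E => q.2.2) (i₀, v, x) :=
    (continuous_snd.comp continuous_snd).continuousAt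
  exact h3.clm_apply h4

/-- Continuity of the second derivative, jointly with the vectors. -/
theorem JC.c2 {i₀ : ι} {v : E} {k : ℕ} {f : ι → E → ℝ} (hf : JC i₀ v (k + 2) f) (x y : E) :
    ContinuousAt (fun q : ι × E × E × E => D2 (f q.1) q.2.1 q.2.2.1 q.2.2.2) (i₀, v, x, y) := by
  have h0 : JC i₀ v (k + 1) (fun i => fderiv ℝ (f i)) := JC.fd hf
  have h1 : ContinuousAt (fun p : ι × E => fderiv ℝ (fderiv ℝ (f p.1)) p.2) (i₀, v) :=
    JD.c0 (JC.fd h0).2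
  have h2 : ContinuousAt (fun q : ι × E × E × E => ((q.1, q.2.1) : ι × E)) (i₀, v, x, y) :=
    (continuous_fst.prodMk (continuous_fst.comp continuous_snd)).continuousAt
  have h3 : ContinuousAt (fun q : ι × E × E × E => fderiv ℝ (fderiv ℝ (f q.1)) q.2.1)
      (i₀, v, x, y) :=
    ContinuousAt.comp (f := fun q : ι × E × E × E => ((q.1, q.2.1) : ι × E))
      (g := fun p : ι × E => fderiv ℝ (fderiv ℝ (f p.1)) p.2) h1 h2
  have h4 : ContinuousAt (fun q : ι × E × E × E => q.2.2.1) (i₀, v, x, y) :=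
    (continuous_fst.comp (continuous_snd.comp continuous_snd)).continuousAt
  have h5 : ContinuousAt (fun q : ι × E × E × E => q.2.2.2) (i₀, v, x, y) :=
    (continuous_snd.comp (continuous_snd.comp continuous_snd)).continuousAt
  exact (h3.clm_apply h4).clm_apply h5

set_option maxSynthPendingDepth 3 in
/-- The third derivative is bounded near `(i₀, v)`, hence the second derivative is Lipschitz near
`v`, uniformly: there are `C` and a neighbourhood `U` of `v` such that for `i` near `i₀` and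
`u, u' ∈ U`: `|D2 (f i) u x y - D2 (f i) u' x y| ≤ C |u - u'| |x| |y|` (`U` a ball, mean value
inequality `Convex.norm_image_sub_le_of_norm_fderiv_le`). -/
theorem JC.lip {i₀ : ι} {v : E} {f : ι → E → ℝ} (hf : JC i₀ v 3 f) :
    ∃ C ≥ 0, ∃ U ∈ 𝓝 v, ∀ᶠ i in 𝓝 i₀, ∀ u ∈ U, ∀ u' ∈ U, ∀ x y : E,
      |D2 (f i) u x y - D2 (f i) u' x y| ≤ C * ‖u - u'‖ * (‖x‖ * ‖y‖) := by
  have h1 : JC i₀ v 2 (fun i => fderiv ℝ (f i)) := JC.fd hf
  have h2 : JC i₀ v 1 (fun i => fderiv ℝ (fderiv ℝ (f i))) := JC.fd h1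
  have h3 : JC i₀ v 0 (fun i => fderiv ℝ (fderiv ℝ (fderiv ℝ (f i)))) := JC.fd h2
  have hc : ContinuousAt (fun p : ι × E => fderiv ℝ (fderiv ℝ (fderiv ℝ (f p.1))) p.2)
      (i₀, v) := JD.c0 h3.2
  set C : ℝ := ‖fderiv ℝ (fderiv ℝ (fderiv ℝ (f i₀))) v‖ + 1 with hC
  have hb : ∀ᶠ p : ι × E in 𝓝 (i₀, v),
      ‖fderiv ℝ (fderiv ℝ (fderiv ℝ (f p.1))) p.2‖ < C :=
    (hc.norm).eventually_lt continuousAt_const (by simp [hC])
  have hd : ∀ᶠ p : ι × E in 𝓝 (i₀, v),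
      DifferentiableAt ℝ (fderiv ℝ (fderiv ℝ (f p.1))) p.2 := by
    filter_upwards [h2.1] with p hp
    exact hp.differentiableAt (by simp)
  have hall := hb.and hd
  rw [nhds_prod_eq, Filter.eventually_prod_iff] at hall
  obtain ⟨pa, hpa, pb, hpb, hab⟩ := hall
  obtain ⟨r, hr, hrb⟩ := Metric.eventually_nhds_iff_ball.mp hpb
  refine ⟨C, by positivity, Metric.ball v r, Metric.ball_mem_nhds v hr, ?_⟩
  filter_upwards [hpa] with i hi u hu u' hu' x y
  have key : ‖fderiv ℝ (fderiv ℝ (f i)) u - fderiv ℝ (fderiv ℝ (f i)) u'‖ ≤ C * ‖u - u'‖ := by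
    refine Convex.norm_image_sub_le_of_norm_fderiv_le (𝕜 := ℝ) (s := Metric.ball v r)
      (fun z hz => (hab hi (hrb z hz)).2) (fun z hz => (hab hi (hrb z hz)).1.le)
      (convex_ball v r) hu' hu
  have h4 : D2 (f i) u x y - D2 (f i) u' x y =
      (fderiv ℝ (fderiv ℝ (f i)) u - fderiv ℝ (fderiv ℝ (f i)) u') x y := rfl
  rw [h4, ← Real.norm_eq_abs]
  calc ‖(fderiv ℝ (fderiv ℝ (f i)) u - fderiv ℝ (fderiv ℝ (f i)) u') x y‖
      ≤ ‖(fderiv ℝ (fderiv ℝ (f i)) u - fderiv ℝ (fderiv ℝ (f i)) u') x‖ * ‖y‖ :=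
        ContinuousLinearMap.le_opNorm _ _
    _ ≤ (‖fderiv ℝ (fderiv ℝ (f i)) u - fderiv ℝ (fderiv ℝ (f i)) u'‖ * ‖x‖) * ‖y‖ :=
        mul_le_mul_of_nonneg_right (ContinuousLinearMap.le_opNorm _ _) (norm_nonneg _)
    _ ≤ ((C * ‖u - u'‖) * ‖x‖) * ‖y‖ :=
        mul_le_mul_of_nonneg_right (mul_le_mul_of_nonneg_right key (norm_nonneg _))
          (norm_nonneg _)
    _ = C * ‖u - u'‖ * (‖x‖ * ‖y‖) := by ring

end CJ
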