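import Pool.Agent.H.MP_1693ff_gtE.OJC

/-!
# Families with continuous derivatives: pairs
-/

namespace CJ

open Real Set Filter Topology CG CH
open CF hiding St

variable {ι : Type} [TopologicalSpace ι]
variable {E : Type} [NormedAddCommGroup E] [InnerProductSpace ℝ E]

/-- The sum of the images under two fixed continuous linear maps. -/
theorem ojcp_lin {i₀ : ι} {v : E} {k : ℕ} {F G H : Type} [NormedAddCommGroup F]
    [NormedSpace ℝ F] [NormedAddCommGroup G] [NormedSpace ℝ G] [NormedAddCommGroup H]
    [NormedSpace ℝ H] {f : ι → E → F} {g : ι → E → G} (L : F →L[ℝ] H) (M : G →L[ℝ] H)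
    (hf : JC i₀ v k f) (hg : JC i₀ v k g) : JC i₀ v k (fun i x => L (f i x) + M (g i x)) := by
  induction k generalizing F G H with
  | zero =>
    refine ⟨?_, ?_⟩
    · filter_upwards [hf.1, hg.1] with p h1 h2
      exact (L.contDiff.contDiffAt.comp p.2 h1).add (M.contDiff.contDiffAt.comp p.2 h2)
    · exact (L.continuous.continuousAt.comp hf.2.c0).add (M.continuous.continuousAt.comp hg.2.c0)
  | succ k ih =>
    refine JC.of_fd ?_ ?_ ?_
    · filter_upwards [hf.1, hg.1] with p h1 h2
      exact (L.contDiff.contDiffAt.comp p.2 h1).add (M.contDiff.contDiffAt.comp p.2 h2)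
    · exact (L.continuous.continuousAt.comp hf.2.c0).add (M.continuous.continuousAt.comp hg.2.c0)
    · have h := ih (ContinuousLinearMap.compL ℝ E F H L) (ContinuousLinearMap.compL ℝ E G H M)
        hf.fd hg.fd
      refine JC.congr h ?_
      filter_upwards [hf.1, hg.1] with p h1 h2
      have n1 : (((k + 1 : ℕ) : ℕ∞) : WithTop ℕ∞) ≠ 0 := by simp
      have d1 := (L.hasFDerivAt (x := f p.1 p.2)).comp p.2 (h1.differentiableAt n1).hasFDerivAt
      have d2 := (M.hasFDerivAt (x := g p.1 p.2)).comp p.2 (h2.differentiableAt n1).hasFDerivAt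
      exact (d1.add d2).fderiv

/-- Induction on `k`: `fderiv` of the pair is the pair of the `fderiv`s near `(i₀, v)`, followed by
the fixed continuous linear map `(L₁, L₂) ↦ L₁.prod L₂`
(`ContinuousLinearMap.prodₗᵢ` or similar).  It may be easier to prove the induction for
`L ∘ (f, g)` with a fixed continuous linear map `L : F × G →L H`. -/
theorem JC.prodMk {i₀ : ι} {v : E} {k : ℕ} {F G : Type} [NormedAddCommGroup F]
    [NormedSpace ℝ F] [NormedAddCommGroup G] [NormedSpace ℝ G] {f : ι → E → F} {g : ι → E → G}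
    (hf : JC i₀ v k f) (hg : JC i₀ v k g) : JC i₀ v k (fun i x => (f i x, g i x)) := by
  have h := ojcp_lin (ContinuousLinearMap.inl ℝ F G) (ContinuousLinearMap.inr ℝ F G) hf hg
  refine JC.congr h (Eventually.of_forall fun p => ?_)
  simp

end CJ
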