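import Pool.Agent.H.MP_1693ff_gtC.NJoint
import Pool.Agent.H.MP_1693ff_gtC.NOpp3
import Pool.Agent.H.MP_1693ff_gtB.GOpp

/-!
# Joint regularity of the half step
-/

namespace CJ

open Real Set Filter Topology CG CH
open CF hiding St

/-- The half step preserves joint regularity: all formulas are compositions of `C¹` functions
(`J.c0`, `J.c1`, `J.c2` composed with `q ↦ ((S q).a, q.2)`; real powers of positive functions,
`ContDiffAt.rpow_const_of_ne`; inverse of `1 + d opp1 ≠ 0`).  `a_new = a + d opp`, `α_new = a`,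
`s_new = (1 + d opp1)⁻¹`, `κ_new = -(1 + d opp1)⁻¹ og`. -/
theorem c13_hst {e d : ℝ} (he : 1 ≤ e) (hd : 0 < d) {F : ℝ → Pf} {G : ℝ → Pt} (J : PJ F G)
    {S : ℝ × ℝ → St} {T : ℝ × ℝ → Tt} {p : ℝ × ℝ} (C : C13 S T p)
    (h0 : 0 < (S p).W d) (h1 : (S p).W d < (F p.2).f (S p).a)
    (hp : 0 < 1 + d * opp1 e d (F p.2) (S p)) :
    C13 (fun q => hst e d (F q.2) (S q)) (fun q => hst3 e d (F q.2) (G q.2) (S q) (T q)) p := by
  have he0 : 0 < e := by linarith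
  have hf0 : 0 < (F p.2).f (S p).a := h0.trans h1
  have ho0 : 0 < opp e d (F p.2) (S p) := opp_pos he0 h0 h1
  have hpair : ContDiffAt ℝ 1 (fun q : ℝ × ℝ => ((S q).a, q.2)) p :=
    C.ca.prodMk contDiffAt_snd
  have hW : ContDiffAt ℝ 1 (fun q => (S q).W d) p := (C.ca.sub C.cα).div_const d
  have hP : ContDiffAt ℝ 1 (fun q => (S q).p d) p := (contDiffAt_const.sub C.cs).div_const d
  have hf : ContDiffAt ℝ 1 (fun q : ℝ × ℝ => (F q.2).f (S q).a) p :=
    J.c0.contDiffAt.comp p hpair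
  have hf1 : ContDiffAt ℝ 1 (fun q : ℝ × ℝ => (F q.2).f1 (S q).a) p :=
    J.c1.contDiffAt.comp p hpair
  have hfr : ContDiffAt ℝ 1 (fun q : ℝ × ℝ => (G q.2).fr (S q).a) p :=
    J.c2.contDiffAt.comp p hpair
  have hopp : ContDiffAt ℝ 1 (fun q => opp e d (F q.2) (S q)) p :=
    ((hf.rpow_const_of_ne hf0.ne').sub (hW.rpow_const_of_ne h0.ne')).rpow_const_of_ne
      (gopp_sub he0 h0 h1).ne'
  have hA : ContDiffAt ℝ 1
      (fun q : ℝ × ℝ => ((F q.2).f (S q).a / opp e d (F q.2) (S q)) ^ (e - 1)) p :=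
    (hf.div hopp ho0.ne').rpow_const_of_ne (div_pos hf0 ho0).ne'
  have hB : ContDiffAt ℝ 1
      (fun q : ℝ × ℝ => ((S q).W d / opp e d (F q.2) (S q)) ^ (e - 1)) p :=
    (hW.div hopp ho0.ne').rpow_const_of_ne (div_pos h0 ho0).ne'
  have hopp1 : ContDiffAt ℝ 1 (fun q => opp1 e d (F q.2) (S q)) p :=
    (hA.mul hf1).sub (hB.mul hP)
  have hσ : ContDiffAt ℝ 1 (fun q => (1 + d * opp1 e d (F q.2) (S q))⁻¹) p :=
    (contDiffAt_const.add (contDiffAt_const.mul hopp1)).inv hp.ne'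
  have hog : ContDiffAt ℝ 1 (fun q => og e d (F q.2) (G q.2) (S q) (T q)) p :=
    (contDiffAt_const.mul (hA.mul hfr)).add (hB.mul C.cκ)
  exact ⟨C.ca.add (contDiffAt_const.mul hopp), C.ca, hσ, (hσ.mul hog).neg⟩

end CJ
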