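import Pool.Agent.H.MP_1693ff_gtE.OJoint

/-!
# The conditions are open
-/

namespace CJ

open Real Set Filter Topology CG CH
open CF hiding St

/-- The conditions are open: `W`, `f`, `opp1` are continuous at `p` in `(t, r)`. -/
theorem open_hst {e d : ℝ} (he : 1 ≤ e) (hd : 0 < d) {F : ℝ → Pf} {G : ℝ → Pt} (J : PJ F G)
    {S : ℝ × ℝ → St} {T : ℝ × ℝ → Tt} {p : ℝ × ℝ} (C : C13 S T p)
    (h0 : 0 < (S p).W d) (h1 : (S p).W d < (F p.2).f (S p).a)
    (hp : 0 < 1 + d * opp1 e d (F p.2) (S p)) :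
    ∀ᶠ q in 𝓝 p, 0 < (S q).W d ∧ (S q).W d < (F q.2).f (S q).a ∧
      0 < 1 + d * opp1 e d (F q.2) (S q) := by
  have he0 : 0 < e := by linarith
  have ha : ContinuousAt (fun q => (S q).a) p := C.ca.continuousAt
  have hα : ContinuousAt (fun q => (S q).α) p := C.cα.continuousAt
  have hs : ContinuousAt (fun q => (S q).s) p := C.cs.continuousAt
  have haq : ContinuousAt (fun q : ℝ × ℝ => ((S q).a, q.2)) p := ha.prodMk continuousAt_snd
  have hf : ContinuousAt (fun q : ℝ × ℝ => (F q.2).f (S q).a) p :=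
    ContinuousAt.comp (f := fun q : ℝ × ℝ => ((S q).a, q.2))
      (g := fun p : ℝ × ℝ => (F p.2).f p.1) J.c0.continuous.continuousAt haq
  have hf1 : ContinuousAt (fun q : ℝ × ℝ => (F q.2).f1 (S q).a) p :=
    ContinuousAt.comp (f := fun q : ℝ × ℝ => ((S q).a, q.2))
      (g := fun p : ℝ × ℝ => (F p.2).f1 p.1) J.c1.continuous.continuousAt haq
  have hW : ContinuousAt (fun q => (S q).W d) p := (ha.sub hα).div_const d
  have hpp : ContinuousAt (fun q => (S q).p d) p := (continuousAt_const.sub hs).div_const d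
  have hsub : 0 < (F p.2).f (S p).a ^ e - (S p).W d ^ e := gopp_sub he0 h0 h1
  have hopos : 0 < opp e d (F p.2) (S p) := opp_pos he0 h0 h1
  have ho : ContinuousAt (fun q => opp e d (F q.2) (S q)) p :=
    ((hf.rpow_const (Or.inr he0.le)).sub (hW.rpow_const (Or.inr he0.le))).rpow_const
      (Or.inl hsub.ne')
  have ho1 : ContinuousAt (fun q => opp1 e d (F q.2) (S q)) p :=
    (((hf.div ho hopos.ne').rpow_const (Or.inr (by linarith))).mul hf1).sub
      (((hW.div ho hopos.ne').rpow_const (Or.inr (by linarith))).mul hpp)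
  have h3 : ContinuousAt (fun q => 1 + d * opp1 e d (F q.2) (S q)) p :=
    continuousAt_const.add (continuousAt_const.mul ho1)
  have h4 : 0 < (F p.2).f (S p).a - (S p).W d := sub_pos.2 h1
  filter_upwards [hW.eventually (lt_mem_nhds h0), (hf.sub hW).eventually (lt_mem_nhds h4),
    h3.eventually (lt_mem_nhds hp)] with q a b c
  exact ⟨a, sub_pos.1 b, c⟩

end CJ
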