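import Pool.Agent.H.MP_1693ff_gtE.OOpp

/-!
# The half step of a gauge function
-/

namespace CJ

open Real Set Filter Topology CG CH
open CF hiding St

variable {E : Type} [NormedAddCommGroup E] [InnerProductSpace ℝ E]

theorem ooppb_W {d : ℝ} (hd : 0 < d) (V : E → ℝ) (ax ω : E) (a v : ℝ) :
    (JE d V ax ω a v).W d = V (a • ax + ω) := by
  simp only [St.W, JE]
  field_simp
  ring

theorem ooppb_p {d : ℝ} (hd : 0 < d) (V : E → ℝ) (ax ω : E) (a v : ℝ) :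
    (JE d V ax ω a v).p d = D1 V (a • ax + ω) ax := by
  simp only [St.p, JE]
  field_simp
  ring

theorem ooppb_r {d : ℝ} (hd : 0 < d) (V : E → ℝ) (ax ω : E) (a v : ℝ) :
    (JE d V ax ω a v).r d = D2 V (a • ax + ω) ax ax := by
  simp only [St.r, JE]
  field_simp

theorem ooppb_opp {e d : ℝ} (hd : 0 < d) {Φ V : E → ℝ} {ax ω : E} {a : ℝ} (v : ℝ)
    (O : Opp e Φ V (a • ax + ω)) :
    opp e d (PE Φ ax ω) (JE d V ax ω a v) = V (-(a • ax + ω)) := by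
  have h0 := O.h.self_of_nhds
  have he : e ≠ 0 := by have := O.e1; intro h; rw [h] at this; linarith
  have h1 : opp e d (PE Φ ax ω) (JE d V ax ω a v) =
      (Φ (a • ax + ω) ^ e - V (a • ax + ω) ^ e) ^ e⁻¹ := by
    unfold opp
    rw [ooppb_W hd]
    rfl
  rw [h1, ← h0, add_sub_cancel_left, ← Real.rpow_mul O.p'.le, mul_inv_cancel₀ he, Real.rpow_one]

/-- `opp = (Φ^e - V^e)^{1/e} = V (-v)`; `d1_opp`, `d2_opp` (unfold `opp1`, `opp2`, `St.W`, `St.p`,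
`St.r`: `W = V v`, `p = D1 V v ax`, `r = D2 V v ax ax`). -/
theorem opp_jet {e d : ℝ} (hd : 0 < d) {Φ V : E → ℝ} {ax ω : E} {a : ℝ} (v : ℝ)
    (O : Opp e Φ V (a • ax + ω)) :
    opp e d (PE Φ ax ω) (JE d V ax ω a v) = V (-(a • ax + ω)) ∧
    opp1 e d (PE Φ ax ω) (JE d V ax ω a v) = -D1 V (-(a • ax + ω)) ax ∧
    opp2 e d (PE Φ ax ω) (JE d V ax ω a v) = D2 V (-(a • ax + ω)) ax ax := by
  have h1 := d1_opp O.e1 (O.cV.differentiableAt (by norm_num))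
    (O.cV'.differentiableAt (by norm_num)) (O.cΦ.differentiableAt (by norm_num)) O.p O.p' O.pΦ
    O.h ax
  have h2 := d2_opp O.e1 O.cV O.cV' O.cΦ O.p O.p' O.pΦ O.h ax ax
  refine ⟨ooppb_opp hd v O, ?_, ?_⟩
  · unfold opp1
    rw [ooppb_opp hd v O, ooppb_W hd, ooppb_p hd, h1]
    rfl
  · unfold opp2
    rw [ooppb_opp hd v O, ooppb_W hd, ooppb_p hd, ooppb_r hd, h2, sq]
    rfl

/-- `og`, `mz`, `mr` (`dl = Φ D1 V ax - V D1 Φ ax`, `dr = -(Φ D1 V η - V D1 Φ η)`). -/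
theorem opp_jet3 {e d : ℝ} (hd : 0 < d) {Φ V : E → ℝ} {ax ω : E} (η : E) {a : ℝ} (v w : ℝ)
    (O : Opp e Φ V (a • ax + ω)) :
    og e d (PE Φ ax ω) (GE Φ ax ω η) (JE d V ax ω a v) (JT d V ax ω η a w) =
      -(d * D1 V (-(a • ax + ω)) η) ∧
    mz e d (PE Φ ax ω) (GE Φ ax ω η) (JE d V ax ω a v) (JT d V ax ω η a w) =
      D2 V (-(a • ax + ω)) ax η ∧
    mr e d (PE Φ ax ω) (GE Φ ax ω η) (JE d V ax ω a v) (JT d V ax ω η a w) =
      D2 V (-(a • ax + ω)) η η := by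
  have h1 := d1_opp O.e1 (O.cV.differentiableAt (by norm_num))
    (O.cV'.differentiableAt (by norm_num)) (O.cΦ.differentiableAt (by norm_num)) O.p O.p' O.pΦ
    O.h η
  have h2 := d2_opp O.e1 O.cV O.cV' O.cΦ O.p O.p' O.pΦ O.h ax η
  have h3 := d2_opp O.e1 O.cV O.cV' O.cΦ O.p O.p' O.pΦ O.h η η
  have hdl : dl d (PE Φ ax ω) (JE d V ax ω a v) = Φ (a • ax + ω) * D1 V (a • ax + ω) ax -
      V (a • ax + ω) * D1 Φ (a • ax + ω) ax := by
    unfold dl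
    rw [ooppb_W hd, ooppb_p hd]
    rfl
  have hdr : dr d (PE Φ ax ω) (GE Φ ax ω η) (JE d V ax ω a v) (JT d V ax ω η a w) =
      -(Φ (a • ax + ω) * D1 V (a • ax + ω) η - V (a • ax + ω) * D1 Φ (a • ax + ω) η) := by
    unfold dr
    rw [ooppb_W hd]
    have h4 : (JT d V ax ω η a w).κ / d = -D1 V (a • ax + ω) η := by
      simp only [JT]
      field_simp
    rw [h4]
    show Φ (a • ax + ω) * -D1 V (a • ax + ω) η + V (a • ax + ω) * D1 Φ (a • ax + ω) η = _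
    ring
  have hcc : cc e d (PE Φ ax ω) (JE d V ax ω a v) = (e - 1) * V (a • ax + ω) ^ (e - 2) *
      Φ (a • ax + ω) ^ (e - 2) * V (-(a • ax + ω)) ^ (1 - 2 * e) := by
    unfold cc
    rw [ooppb_opp hd v O, ooppb_W hd]
    rfl
  refine ⟨?_, ?_, ?_⟩
  · unfold og
    rw [ooppb_opp hd v O, ooppb_W hd]
    show d * ((Φ (a • ax + ω) / V (-(a • ax + ω))) ^ (e - 1) * D1 Φ (a • ax + ω) η) +
      (V (a • ax + ω) / V (-(a • ax + ω))) ^ (e - 1) * (-(d * D1 V (a • ax + ω) η)) = _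
    have h4 : -(d * D1 V (-(a • ax + ω)) η) = d * -D1 V (-(a • ax + ω)) η := by ring
    rw [h4, h1]
    ring
  · unfold mz
    rw [ooppb_opp hd v O, ooppb_W hd, hdl, hdr, hcc, h2]
    have h4 : (JT d V ax ω η a w).ℓ / d = D2 V (a • ax + ω) ax η := by
      simp only [JT]
      field_simp
    rw [h4]
    show (Φ (a • ax + ω) / V (-(a • ax + ω))) ^ (e - 1) * D2 Φ (a • ax + ω) ax η - _ + _ = _
    ring
  · unfold mr
    rw [ooppb_opp hd v O, ooppb_W hd, hdr, hcc, h3]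
    have h4 : (JT d V ax ω η a w).q / d = D2 V (a • ax + ω) η η := by
      simp only [JT]
      field_simp
    rw [h4]
    show (Φ (a • ax + ω) / V (-(a • ax + ω))) ^ (e - 1) * D2 Φ (a • ax + ω) η η - _ - _ = _
    ring

theorem ooppb_pt (ax ω : E) (a : ℝ) : (-a) • ax + (-ω) = -(a • ax + ω) := by
  rw [neg_smul, neg_add]

/-- The half step of `JE` is the same surface at the opposite point, seen from the other centre:
`(-a) ax + (-ω) = -(a ax + ω)`. -/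
theorem hst_opp {e d : ℝ} (hd : 0 < d) {Φ V : E → ℝ} {ax ω : E} {a : ℝ} (v : ℝ)
    (O : Opp e Φ V (a • ax + ω)) :
    hst e d (PE Φ ax ω) (JE d V ax ω a v) = rv (JE d V ax (-ω) (-a) v) := by
  obtain ⟨h1, h2, h3⟩ := opp_jet hd v O
  unfold hst rv
  rw [h1, h2, h3]
  simp only [JE, ooppb_pt]
  congr 1 <;> ring_nf

/-- The transverse part; `w'` is chosen such that the last component is right (`s ≠ 0`). -/
theorem hst3_opp {e d : ℝ} (hd : 0 < d) {Φ V : E → ℝ} {ax ω : E} (η : E) {a : ℝ} (v w : ℝ)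
    (O : Opp e Φ V (a • ax + ω)) (hs : 0 < 1 - d * D1 V (-(a • ax + ω)) ax) :
    ∃ w', hst3 e d (PE Φ ax ω) (GE Φ ax ω η) (JE d V ax ω a v) (JT d V ax ω η a w) =
      rvT (JE d V ax (-ω) (-a) v) (JT d V ax (-ω) (-η) (-a) w') := by
  obtain ⟨h1, h2, h3⟩ := opp_jet hd v O
  obtain ⟨h4, h5, h6⟩ := opp_jet3 hd η v w O
  refine ⟨-w, ?_⟩
  unfold hst3 rvT
  rw [h2, h3, h4, h5, h6]
  simp only [JE, JT, ooppb_pt, d1_neg, d2_neg_l, d2_neg_r]
  congr 1 <;> ring_nf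

end CJ
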