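import Pool.Agent.H.MP_1693ff_gtE.OWb2
import Pool.Agent.H.MP_1693ff_gtE.OOppB

/-!
# The start surface: junctions
-/

namespace CJ

open Real Set Filter Topology CG CH
open CF hiding St

variable {E : Type} [NormedAddCommGroup E] [InnerProductSpace ℝ E]

/-- `hst` of the 1-jet depends on the 1-jet only. -/
theorem eq3_hst' {e d : ℝ} {P : Pf} {S S' : St} (h : Eq3 S S') :
    Eq3 (hst e d P S) (hst e d P S') := by
  obtain ⟨h1, h2, h3⟩ := h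
  have hW : S.W d = S'.W d := by unfold St.W; rw [h1, h2]
  have hp : S.p d = S'.p d := by unfold St.p; rw [h3]
  have ho : opp e d P S = opp e d P S' := by unfold opp; rw [hW, h2]
  have ho1 : opp1 e d P S = opp1 e d P S' := by unfold opp1; rw [ho, hW, hp, h2]
  refine ⟨h2, ?_, ?_⟩
  · show S.a + d * opp e d P S = S'.a + d * opp e d P S'
    rw [h2, ho]
  · show (1 + d * opp1 e d P S)⁻¹ = (1 + d * opp1 e d P S')⁻¹
    rw [ho1]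

theorem opp_vg {e d : ℝ} (he : 1 ≤ e) {ax : E} {Φ V : E → ℝ} (hΦ : Hg Φ)
    (H : VG e d ax Φ V) {v : E} (hv : v ≠ 0) : Opp e Φ V v := by
  have hv' : -v ≠ 0 := neg_ne_zero.2 hv
  refine ⟨he, (H.hg.c v hv).of_le (by norm_num), (H.hg.c _ hv').of_le (by norm_num),
    (hΦ.c v hv).of_le (by norm_num), H.hg.p v hv, H.hg.p _ hv', hΦ.p v hv, ?_⟩
  filter_upwards [isOpen_ne.mem_nhds hv] with u hu
  exact H.r u hu

/-- The 1-jet of the upper surface at the beginning is that of `VA` (`ww_b0`, `0 * a₁ = 0`). -/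
theorem su_zero {e d : ℝ} {ax : E} (D0 : 0 < d) (hax : ‖ax‖ = 1) {A VA VB Φ Ψ : E → ℝ}
    (hA : Hg A) (vA : VG e d ax Φ VA) (vB : VG e d ax Ψ VB) {ω : E} (hω : Un ax ω) (v : ℝ) :
    Eq3 (SU d ax (WW d ax A VA VB) (a1 d VB) ω 0) (JE d VA ax ω 0 v) := by
  obtain ⟨h1, h2⟩ := ww_b0 (e := e) D0 hax hA vA vB hω
  refine ⟨?_, ?_, ?_⟩
  · show 0 * a1 d VB ω - d * WW d ax A VA VB ((0 * a1 d VB ω) • ax + ω) =
      0 - d * VA ((0 : ℝ) • ax + ω)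
    rw [zero_mul, zero_smul, zero_add, h1]
  · show 0 * a1 d VB ω = 0
    rw [zero_mul]
  · show 1 - d * D1 (WW d ax A VA VB) ((0 * a1 d VB ω) • ax + ω) ax =
      1 - d * D1 VA ((0 : ℝ) • ax + ω) ax
    rw [zero_mul, zero_smul, zero_add, h2]

/-- The 1-jet of the upper surface at the end. -/
theorem oju_end {e d : ℝ} {ax : E} (D0 : 0 < d) (hax : ‖ax‖ = 1) {A VA VB Φ Ψ : E → ℝ}
    (hA : Hg A) (vA : VG e d ax Φ VA) (vB : VG e d ax Ψ VB) {ω : E} (hω : Un ax ω) :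
    (SU d ax (WW d ax A VA VB) (a1 d VB) ω 1).α = 0 ∧
    (SU d ax (WW d ax A VA VB) (a1 d VB) ω 1).a = d * VB (-ω) ∧
    (SU d ax (WW d ax A VA VB) (a1 d VB) ω 1).s = (1 - d * D1 VB (-ω) ax)⁻¹ := by
  obtain ⟨h1, h2⟩ := ww_b1 (e := e) D0 hax hA vA vB hω
  have hne : (-ω : E) ≠ 0 := by
    have := ax_ne hω.neg 0
    rwa [zero_smul, zero_add] at this
  have hs := vB.s (-ω) hne
  refine ⟨?_, ?_, ?_⟩
  · show 1 * a1 d VB ω - d * WW d ax A VA VB ((1 * a1 d VB ω) • ax + ω) = 0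
    rw [one_mul, h1]
    unfold a1
    ring
  · show 1 * a1 d VB ω = d * VB (-ω)
    rw [one_mul]
    rfl
  · show 1 - d * D1 (WW d ax A VA VB) ((1 * a1 d VB ω) • ax + ω) ax = _
    rw [one_mul, h2]
    field_simp
    ring

/-- The 1-jet at the end seen from the other centre is that of `VB` (`ww_b1` for `-ω`:
`a₁ = d VB ω`, `α = 0`, `s = 1/(1 - d D1 VB ω ax)`). -/
theorem sl_zero {e d : ℝ} {ax : E} (D0 : 0 < d) (hax : ‖ax‖ = 1) {A VA VB Φ Ψ : E → ℝ}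
    (hA : Hg A) (vA : VG e d ax Φ VA) (vB : VG e d ax Ψ VB) {ω : E} (hω : Un ax ω) (v : ℝ) :
    Eq3 (SL d ax (WW d ax A VA VB) (a1 d VB) ω 0) (JE d VB ax ω 0 v) := by
  obtain ⟨h1, h2, h3⟩ := oju_end (e := e) D0 hax hA vA vB hω.neg
  rw [neg_neg] at h2 h3
  refine ⟨?_, ?_, ?_⟩
  · show -(SU d ax (WW d ax A VA VB) (a1 d VB) (-ω) (1 - 0)).a = 0 - d * VB ((0 : ℝ) • ax + ω)
    rw [sub_zero, h2, zero_smul, zero_add]
    ring
  · show -(SU d ax (WW d ax A VA VB) (a1 d VB) (-ω) (1 - 0)).α = 0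
    rw [sub_zero, h1, neg_zero]
  · show (SU d ax (WW d ax A VA VB) (a1 d VB) (-ω) (1 - 0)).s⁻¹ =
      1 - d * D1 VB ((0 : ℝ) • ax + ω) ax
    rw [sub_zero, h3, inv_inv, zero_smul, zero_add]

/-- `hst_opp` for `VB` and `sl_zero`: `hst (SL ω 0)` has the 1-jet of
`rv (JE d VB ax (-ω) (-0) v)`: `α = 0`, `a = d VB (-ω)`, `s = 1/(1 - d D1 VB (-ω) ax)`, which is
the 1-jet of `SU ω 1` (`ww_b1`). -/
theorem jun1 {e d : ℝ} {ax : E} (he : 1 ≤ e) (D0 : 0 < d) (hax : ‖ax‖ = 1)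
    {A VA VB Φ Ψ : E → ℝ} (hA : Hg A) (hΦ : Hg Φ) (hΨ : Hg Ψ) (vA : VG e d ax Φ VA)
    (vB : VG e d ax Ψ VB) {ω : E} (hω : Un ax ω) :
    Eq3 (SU d ax (WW d ax A VA VB) (a1 d VB) ω 1)
      (hst e d (PE Ψ ax ω) (SL d ax (WW d ax A VA VB) (a1 d VB) ω 0)) := by
  obtain ⟨h1, h2, h3⟩ := oju_end (e := e) D0 hax hA vA vB hω
  have h4 := eq3_hst' (e := e) (d := d) (P := PE Ψ ax ω)
    (sl_zero (e := e) D0 hax hA vA vB hω 0)
  rw [hst_opp D0 0 (opp_vg he hΨ vB (ax_ne hω 0))] at h4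
  obtain ⟨k1, k2, k3⟩ := h4
  refine ⟨?_, ?_, ?_⟩
  · rw [k1, h1]
    show (0 : ℝ) = -(-0)
    simp
  · rw [k2, h2]
    show d * VB (-ω) = -(-0 - d * VB ((-0 : ℝ) • ax + -ω))
    rw [neg_zero, zero_smul, zero_add]
    ring
  · rw [k3, h3]
    show (1 - d * D1 VB (-ω) ax)⁻¹ = (1 - d * D1 VB ((-0 : ℝ) • ax + -ω) ax)⁻¹
    rw [neg_zero, zero_smul, zero_add]

/-- `hst_opp` for `VA` and `su_zero` (for `ω` and `-ω`). -/
theorem jun2 {e d : ℝ} {ax : E} (he : 1 ≤ e) (D0 : 0 < d) (hax : ‖ax‖ = 1)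
    {A VA VB Φ Ψ : E → ℝ} (hA : Hg A) (hΦ : Hg Φ) (hΨ : Hg Ψ) (vA : VG e d ax Φ VA)
    (vB : VG e d ax Ψ VB) {ω : E} (hω : Un ax ω) :
    Eq3 (SL d ax (WW d ax A VA VB) (a1 d VB) ω 1)
      (hst e d (PE Φ ax ω) (SU d ax (WW d ax A VA VB) (a1 d VB) ω 0)) := by
  have h4 := eq3_hst' (e := e) (d := d) (P := PE Φ ax ω)
    (su_zero (e := e) D0 hax hA vA vB hω 0)
  rw [hst_opp D0 0 (opp_vg he hΦ vA (ax_ne hω 0))] at h4
  obtain ⟨k1, k2, k3⟩ := h4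
  obtain ⟨h1, h2, h3⟩ := su_zero (e := e) D0 hax hA vA vB hω.neg 0
  refine ⟨?_, ?_, ?_⟩
  · rw [k1]
    show -(SU d ax (WW d ax A VA VB) (a1 d VB) (-ω) (1 - 1)).a = -(-0)
    rw [sub_self, h2]
    show -(0 : ℝ) = -(-0)
    simp
  · rw [k2]
    show -(SU d ax (WW d ax A VA VB) (a1 d VB) (-ω) (1 - 1)).α =
      -(-0 - d * VA ((-0 : ℝ) • ax + -ω))
    rw [sub_self, h1, neg_zero]
    rfl
  · rw [k3]
    show (SU d ax (WW d ax A VA VB) (a1 d VB) (-ω) (1 - 1)).s⁻¹ =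
      (1 - d * D1 VA ((-0 : ℝ) • ax + -ω) ax)⁻¹
    rw [sub_self, h3, neg_zero]
    rfl

/-- The two halves are mirror images. -/
theorem mir1 {d : ℝ} {ax : E} {W a₁ : E → ℝ} (ω : E) :
    Mir (SU d ax W a₁ ω) (SL d ax W a₁ (-ω)) := by
  intro t _
  unfold SL
  rw [neg_neg, sub_sub_cancel]
  exact ⟨rfl, rfl, rfl⟩

theorem mir2 {d : ℝ} {ax : E} {W a₁ : E → ℝ} (ω : E) :
    Mir (SL d ax W a₁ ω) (SU d ax W a₁ (-ω)) := by
  intro t _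
  unfold SL rv
  simp

end CJ
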