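import Pool.Agent.H.MP_1693ff_gtE.OWb2

/-!
# The start surface: signs
-/

namespace CJ

open Real Set Filter Topology CG CH
open CF hiding St

variable {E : Type} [NormedAddCommGroup E] [InnerProductSpace ℝ E]

theorem oju2_xi {ax ω : E} (hax : ‖ax‖ = 1) (hω : Un ax ω) (a : ℝ) :
    xi ax (a • ax + ω) = ω := by
  unfold xi
  have h1 : (inner ℝ ax (a • ax + ω) : ℝ) = a := by
    rw [inner_add_right, inner_smul_right, real_inner_self_eq_norm_sq, hax, hω.o1]
    ring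
  rw [h1]
  abel

theorem oju2_ne {ax ω : E} (hω : Un ax ω) : ω ≠ 0 := by
  intro h
  have := hω.n1
  rw [h, norm_zero] at this
  norm_num at this

/-- The derivative of `α` along the arc. -/
theorem oju2_deriv {d : ℝ} {ax : E} {W : E → ℝ} {ω : E} {x : ℝ}
    (hW : DifferentiableAt ℝ W (x • ax + ω)) :
    HasDerivAt (fun a : ℝ => a - d * W (a • ax + ω)) (1 - d * D1 W (x • ax + ω) ax) x := by
  have h1 : HasDerivAt (fun a : ℝ => a • ax + ω) ax x := by
    have := ((hasDerivAt_id x).smul_const ax).add_const ω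
    simpa using this
  have h2 := d1_along (V := W) (γ := fun a : ℝ => a • ax + ω) hW h1
  exact (hasDerivAt_id x).sub (h2.const_mul d)

/-- Signs on the start surfaces: `a = t a₁ ≥ 0`; `-α ≥ 0` since `α` is increasing along the arc
(`s > 0`) and vanishes at the end (`ww_b1`). -/
theorem su_a0 {e d : ℝ} {ax : E} (D0 : 0 < d) (hax : ‖ax‖ = 1) {A VA VB Φ Ψ : E → ℝ}
    (hA : Hg A) (vA : VG e d ax Φ VA) (vB : VG e d ax Ψ VB) {ω : E} (hω : Un ax ω) :
    (SU d ax (WW d ax A VA VB) (a1 d VB) ω 0).a = 0 ∧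
    (SL d ax (WW d ax A VA VB) (a1 d VB) ω 0).a = 0 ∧
    (∀ t ∈ Icc (0 : ℝ) 1, 0 ≤ (SU d ax (WW d ax A VA VB) (a1 d VB) ω t).a) ∧
    ((∀ t ∈ Icc (0 : ℝ) 1, 0 < (SU d ax (WW d ax A VA VB) (a1 d VB) (-ω) t).s) →
      ∀ t ∈ Icc (0 : ℝ) 1, 0 ≤ (SL d ax (WW d ax A VA VB) (a1 d VB) ω t).a) := by
  have hω' : Un ax (-ω) := hω.neg
  have hne : ω ≠ 0 := oju2_ne hω
  have hne' : -ω ≠ 0 := oju2_ne hω'
  have ha1 : 0 < a1 d VB ω := mul_pos D0 (vB.hg.p _ hne')
  have ha1' : 0 < a1 d VB (-ω) := mul_pos D0 (vB.hg.p _ (neg_ne_zero.2 hne'))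
  have hend : a1 d VB (-ω) - d * WW d ax A VA VB (a1 d VB (-ω) • ax + -ω) = 0 := by
    rw [(ww_b1 D0 hax hA vA vB hω').1]
    unfold a1
    ring
  refine ⟨?_, ?_, ?_, ?_⟩
  · show (0 : ℝ) * a1 d VB ω = 0
    ring
  · show -(((1 : ℝ) - 0) * a1 d VB (-ω) -
      d * WW d ax A VA VB ((((1 : ℝ) - 0) * a1 d VB (-ω)) • ax + -ω)) = 0
    rw [sub_zero, one_mul, hend, neg_zero]
  · intro t ht
    show 0 ≤ t * a1 d VB ω
    exact mul_nonneg ht.1 ha1.le
  · intro hs t ht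
    show 0 ≤ -(((1 : ℝ) - t) * a1 d VB (-ω) -
      d * WW d ax A VA VB ((((1 : ℝ) - t) * a1 d VB (-ω)) • ax + -ω))
    have hd : ∀ x : ℝ, HasDerivAt (fun a : ℝ => a - d * WW d ax A VA VB (a • ax + -ω))
        (1 - d * D1 (WW d ax A VA VB) (x • ax + -ω) ax) x := by
      intro x
      apply oju2_deriv
      have : xi ax (x • ax + -ω) ≠ 0 := by rw [oju2_xi hax hω']; exact hne'
      exact (ww_cd D0 hax hA vA vB this).differentiableAt (by norm_num)
    have hmono : MonotoneOn (fun a : ℝ => a - d * WW d ax A VA VB (a • ax + -ω))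
        (Icc 0 (a1 d VB (-ω))) := by
      apply monotoneOn_of_deriv_nonneg (convex_Icc _ _)
      · exact fun x _ => (hd x).continuousAt.continuousWithinAt
      · exact fun x _ => (hd x).differentiableAt.differentiableWithinAt
      · intro x hx
        rw [interior_Icc] at hx
        rw [(hd x).deriv]
        have h1 := hs (x / a1 d VB (-ω)) ⟨div_nonneg hx.1.le ha1'.le,
          (div_le_one ha1').2 hx.2.le⟩
        have h2 : 0 < 1 - d * D1 (WW d ax A VA VB)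
            ((x / a1 d VB (-ω) * a1 d VB (-ω)) • ax + -ω) ax := h1
        rw [div_mul_cancel₀ _ ha1'.ne'] at h2
        exact h2.le
    have h3 := hmono (a := (1 - t) * a1 d VB (-ω)) (b := a1 d VB (-ω))
      ⟨mul_nonneg (by linarith [ht.2]) ha1'.le, by nlinarith [ht.1]⟩ ⟨ha1'.le, le_rfl⟩
      (by nlinarith [ht.1])
    have h4 : (1 - t) * a1 d VB (-ω) -
      d * WW d ax A VA VB (((1 - t) * a1 d VB (-ω)) • ax + -ω) ≤
      a1 d VB (-ω) - d * WW d ax A VA VB (a1 d VB (-ω) • ax + -ω) := h3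
    rw [hend] at h4
    linarith

end CJ
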