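import Pool.Agent.H.MP_1693ff_gtE.OPiece

/-!
# The pieces of the curve fit together
-/

namespace CJ

open Real Set Filter Topology CG CH
open CF hiding St

theorem eq3_hst {e d : ℝ} {P : Pf} {S S' : St} (h : Eq3 S S') :
    Eq3 (hst e d P S) (hst e d P S') := by
  obtain ⟨h1, h2, h3⟩ := h
  refine ⟨?_, ?_, ?_⟩
  · simp only [hst, h2]
  · simp only [hst, opp, St.W, h1, h2]
  · simp only [hst, opp1, opp, St.W, St.p, h1, h2, h3]

/-- All junctions. -/
theorem chn_junc {e d : ℝ} {h k : ℝ → ℝ} {S S' : ℝ → St} (D : HK e d h k S S') (n : ℕ) :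
    Eq3 (chn e d h k S n 1) (chn e d k h S' (n + 1) 0) := by
  induction n with
  | zero =>
    have : chn e d k h S' (0 + 1) 0 = hst e d (pf k) (S' 0) := by
      simp [chn, cS]
    rw [this]
    exact D.j
  | succ n ih =>
    have h1 : chn e d h k S (n + 1) 1 =
        hst e d (if Even n then pf h else pf k) (chn e d h k S n 1) := rfl
    have h2 : chn e d k h S' (n + 1 + 1) 0 =
        hst e d (if Even (n + 1) then pf k else pf h) (chn e d k h S' (n + 1) 0) := rfl
    rw [h1, h2]
    have h3 : (if Even (n + 1) then pf k else pf h) = if Even n then pf h else pf k := by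
      by_cases hn : Even n
      · rw [if_pos hn, if_neg (by simpa [Nat.even_add_one] using hn)]
      · rw [if_neg hn, if_pos (by simpa [Nat.even_add_one] using hn)]
    rw [h3]
    exact eq3_hst ih

end CJ
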