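import Pool.Agent.H.MP_1693ff_gtE.OHomA

/-!
# The change of the centre: derivatives
-/

namespace CJ

open Real Set Filter Topology CG CH
open CF hiding St

variable {E : Type} [NormedAddCommGroup E] [InnerProductSpace ℝ E]

/-- Euler's relation. -/
theorem olinka_euler {V : E → ℝ} (h : Hg V) {v : E} (hv : v ≠ 0) : D1 V v v = V v := by
  have hγ : HasDerivAt (fun t : ℝ => (1 + t) • v) v 0 := by
    have h1 : HasDerivAt (fun t : ℝ => 1 + t) 1 0 := (hasDerivAt_id (0 : ℝ)).const_add 1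
    simpa using h1.smul_const v
  have e0 : (1 + (0 : ℝ)) • v = v := by simp
  have hd : DifferentiableAt ℝ V ((fun t : ℝ => (1 + t) • v) 0) := by
    show DifferentiableAt ℝ V ((1 + (0 : ℝ)) • v)
    rw [e0]
    exact (h.c v hv).differentiableAt (by norm_num)
  have h1 := d1_along hd hγ
  have h2 : HasDerivAt (fun t : ℝ => (1 + t) * V v) (V v) 0 := by
    have h3 : HasDerivAt (fun t : ℝ => 1 + t) 1 0 := (hasDerivAt_id (0 : ℝ)).const_add 1
    simpa using h3.mul_const (V v)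
  have h4 : (fun t : ℝ => V ((1 + t) • v)) =ᶠ[𝓝 0] fun t => (1 + t) * V v := by
    have h5 : ∀ᶠ t : ℝ in 𝓝 0, -1 < t := eventually_gt_nhds (by norm_num)
    filter_upwards [h5] with t ht
    exact h.h (1 + t) (by linarith) v
  have h6 := h1.unique (h2.congr_of_eventuallyEq h4)
  have h7 : D1 V ((1 + (0 : ℝ)) • v) v = V v := h6
  rwa [e0] at h7

theorem olinka_ne {d : ℝ} {ax : E} {A B : E → ℝ} (D : Bd d ax A B) {v : E} (hv : v ≠ 0) :
    v + (d * A (-v)) • ax ≠ 0 := by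
  intro h
  have hA : 0 < A (-v) := D.hA.p _ (neg_ne_zero.2 hv)
  have hc : 0 < d * A (-v) := mul_pos D.d0 hA
  have h1 : -v = (d * A (-v)) • ax := neg_eq_of_add_eq_zero_right h
  have h2 : A (-v) = d * A (-v) * A ax := by
    have h3 := D.hA.h _ hc ax
    rw [← h1] at h3
    exact h3
  have ax0 : ax ≠ 0 := by
    intro h0
    have := D.a1
    rw [h0, norm_zero] at this
    norm_num at this
  have h4 := D.sA ax ax0
  rw [olinka_euler D.hA ax0] at h4
  have h5 : A (-v) * (1 - d * A ax) = 0 := by linear_combination h2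
  rcases mul_eq_zero.1 h5 with h6 | h6
  · linarith
  · linarith

theorem olinka_line (v x : E) : HasDerivAt (fun t : ℝ => v + t • x) x 0 := by
  have h1 : HasDerivAt (fun t : ℝ => t • x) x 0 := by
    simpa using (hasDerivAt_id (0 : ℝ)).smul_const x
  exact h1.const_add v

theorem olinka_ev {v : E} (hv : v ≠ 0) (x : E) : ∀ᶠ t : ℝ in 𝓝 0, v + t • x ≠ 0 := by
  have h1 : ContinuousAt (fun t : ℝ => v + t • x) 0 := (olinka_line v x).continuousAt
  have h2 : v + (0 : ℝ) • x ≠ 0 := by simpa using hv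
  exact h1.eventually_ne h2

theorem olinka_A {V : E → ℝ} (h : Hg V) {v : E} (hv : v ≠ 0) (x : E) :
    HasDerivAt (fun t : ℝ => V (-(v + t • x))) (-D1 V (-v) x) 0 := by
  have hd : DifferentiableAt ℝ V ((fun t : ℝ => -(v + t • x)) 0) := by
    show DifferentiableAt ℝ V (-(v + (0 : ℝ) • x))
    rw [zero_smul, add_zero]
    exact (h.c _ (neg_ne_zero.2 hv)).differentiableAt (by norm_num)
  have h1 := d1_along hd (olinka_line v x).neg
  have h2 : D1 V ((fun t : ℝ => -(v + t • x)) 0) (-x) = -D1 V (-v) x := by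
    show D1 V (-(v + (0 : ℝ) • x)) (-x) = -D1 V (-v) x
    rw [zero_smul, add_zero, d1_neg]
  exact HasDerivAt.congr_deriv h1 h2

theorem olinka_u {d : ℝ} {ax : E} {A : E → ℝ} (hA : Hg A) {v : E} (hv : v ≠ 0) (x : E) :
    HasDerivAt (fun t : ℝ => (v + t • x) + (d * A (-(v + t • x))) • ax)
      (x - (d * D1 A (-v) x) • ax) 0 := by
  have h1 := (olinka_line v x).add (((olinka_A hA hv x).const_mul d).smul_const ax)
  have h2 : x + (d * -D1 A (-v) x) • ax = x - (d * D1 A (-v) x) • ax := by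
    rw [mul_neg, neg_smul, sub_eq_add_neg]
  rw [h2] at h1
  exact h1

/-- `D1 B u (T x) = - D1 A (-v) x`. -/
theorem olinka_rel {d : ℝ} {ax : E} {A B : E → ℝ} (D : Bd d ax A B) {v : E} (hv : v ≠ 0) (x : E) :
    D1 B (v + (d * A (-v)) • ax) (x - (d * D1 A (-v) x) • ax) = -D1 A (-v) x := by
  have e0 : (fun t : ℝ => (v + t • x) + (d * A (-(v + t • x))) • ax) 0 =
      v + (d * A (-v)) • ax := by
    show (v + (0 : ℝ) • x) + (d * A (-(v + (0 : ℝ) • x))) • ax = _
    rw [zero_smul, add_zero]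
  have hd : DifferentiableAt ℝ B
      ((fun t : ℝ => (v + t • x) + (d * A (-(v + t • x))) • ax) 0) := by
    rw [e0]
    exact (D.hB.c _ (olinka_ne D hv)).differentiableAt (by norm_num)
  have h1 := d1_along hd (olinka_u (d := d) (ax := ax) D.hA hv x)
  have h2 : (fun t : ℝ => B ((v + t • x) + (d * A (-(v + t • x))) • ax)) =ᶠ[𝓝 0]
      fun t : ℝ => A (-(v + t • x)) := by
    filter_upwards [olinka_ev hv x] with t ht
    exact D.lA _ ht
  have h3 := h1.unique ((olinka_A D.hA hv x).congr_of_eventuallyEq h2)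
  have e1 : v + (0 : ℝ) • x + (d * A (-(v + (0 : ℝ) • x))) • ax = v + (d * A (-v)) • ax := e0
  rwa [e1] at h3

/-- `D2 B u (T y) (T x) + d D2 A (-v) y x · D1 B u ax = D2 A (-v) y x`. -/
theorem olinka_rel2 {d : ℝ} {ax : E} {A B : E → ℝ} (D : Bd d ax A B) {v : E} (hv : v ≠ 0)
    (y x : E) :
    D2 B (v + (d * A (-v)) • ax) (y - (d * D1 A (-v) y) • ax) (x - (d * D1 A (-v) x) • ax) +
      d * D2 A (-v) y x * D1 B (v + (d * A (-v)) • ax) ax = D2 A (-v) y x := by
  have e0 : (fun t : ℝ => (v + t • y) + (d * A (-(v + t • y))) • ax) 0 =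
      v + (d * A (-v)) • ax := by
    show (v + (0 : ℝ) • y) + (d * A (-(v + (0 : ℝ) • y))) • ax = _
    rw [zero_smul, add_zero]
  have e1 : -(v + (0 : ℝ) • y) = -v := by rw [zero_smul, add_zero]
  -- derivative of `D1 A (-(v + t y)) x`
  have hA2 : HasDerivAt (fun t : ℝ => D1 A (-(v + t • y)) x) (-D2 A (-v) y x) 0 := by
    have hc : ContDiffAt ℝ 2 A ((fun t : ℝ => -(v + t • y)) 0) := by
      show ContDiffAt ℝ 2 A (-(v + (0 : ℝ) • y))
      rw [e1]
      exact (D.hA.c _ (neg_ne_zero.2 hv)).of_le (by norm_num)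
    have h1 := d2_along hc (olinka_line v y).neg (hasDerivAt_const (0 : ℝ) x)
    have h2 : D2 A ((fun t : ℝ => -(v + t • y)) 0) (-y) ((fun _ : ℝ => x) 0) +
        D1 A ((fun t : ℝ => -(v + t • y)) 0) 0 = -D2 A (-v) y x := by
      show D2 A (-(v + (0 : ℝ) • y)) (-y) x + D1 A (-(v + (0 : ℝ) • y)) 0 = _
      have h3 : D1 A (-(v + (0 : ℝ) • y)) 0 = 0 := by
        unfold D1
        exact map_zero _
      rw [h3, e1, d2_neg_l, add_zero]
    exact h1.congr_deriv h2
  have hT : HasDerivAt (fun t : ℝ => x - (d * D1 A (-(v + t • y)) x) • ax)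
      ((d * D2 A (-v) y x) • ax) 0 := by
    have h1 := ((hA2.const_mul d).smul_const ax).const_sub x
    refine h1.congr_deriv ?_
    rw [mul_neg, neg_smul, neg_neg]
  have hc : ContDiffAt ℝ 2 B
      ((fun t : ℝ => (v + t • y) + (d * A (-(v + t • y))) • ax) 0) := by
    rw [e0]
    exact (D.hB.c _ (olinka_ne D hv)).of_le (by norm_num)
  have h1 := d2_along hc (olinka_u (d := d) (ax := ax) D.hA hv y) hT
  have h2 : (fun t : ℝ => D1 B ((v + t • y) + (d * A (-(v + t • y))) • ax)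
      (x - (d * D1 A (-(v + t • y)) x) • ax)) =ᶠ[𝓝 0]
      fun t : ℝ => -D1 A (-(v + t • y)) x := by
    filter_upwards [olinka_ev hv y] with t ht
    exact olinka_rel D ht x
  have h3 := h1.unique (hA2.neg.congr_of_eventuallyEq h2)
  have e2 : v + (0 : ℝ) • y + (d * A (-(v + (0 : ℝ) • y))) • ax = v + (d * A (-v)) • ax := e0
  rw [e2, e1, d1_smul, neg_neg] at h3
  exact h3

/-- Derivative of `B (v + d A(-v) ax) = A (-v)` in the direction `x`:
`D1 B u x - d D1 A (-v) x · D1 B u ax = -D1 A (-v) x`, `u = v + d A(-v) ax`; first for `x = ax`. -/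
theorem link_d1 {d : ℝ} {ax : E} {A B : E → ℝ} (D : Bd d ax A B) {v : E} (hv : v ≠ 0) (x : E) :
    v + (d * A (-v)) • ax ≠ 0 ∧
    D1 B (v + (d * A (-v)) • ax) x = -(D1 A (-v) x) / (1 - d * D1 A (-v) ax) ∧
    1 - d * D1 B (v + (d * A (-v)) • ax) ax = (1 - d * D1 A (-v) ax)⁻¹ := by
  have hs := D.sA (-v) (neg_ne_zero.2 hv)
  have hs' : 1 - d * D1 A (-v) ax ≠ 0 := hs.ne'
  have key : ∀ y, D1 B (v + (d * A (-v)) • ax) y -
      d * D1 A (-v) y * D1 B (v + (d * A (-v)) • ax) ax = -D1 A (-v) y := by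
    intro y
    have h1 := olinka_rel D hv y
    rw [sub_eq_add_neg, ← neg_smul, d1_add, d1_smul] at h1
    linarith
  have hax : D1 B (v + (d * A (-v)) • ax) ax = -(D1 A (-v) ax) / (1 - d * D1 A (-v) ax) := by
    rw [eq_div_iff hs']
    linear_combination key ax
  refine ⟨olinka_ne D hv, ?_, ?_⟩
  · have h2 := key x
    rw [hax] at h2
    rw [eq_div_iff hs']
    have h3 : D1 B (v + (d * A (-v)) • ax) x = -D1 A (-v) x +
        d * D1 A (-v) x * (-(D1 A (-v) ax) / (1 - d * D1 A (-v) ax)) := by linarith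
    rw [h3]
    field_simp
    ring
  · rw [hax]
    field_simp
    ring

/-- Second derivative: with `T x = x - d D1 A (-v) x ax`,
`D2 B u (T x) (T y) + d D2 A (-v) x y · D1 B u ax = D2 A (-v) x y`, so
`D2 B u (T x) (T y) = D2 A (-v) x y / s`, `s = 1 - d D1 A (-v) ax`; here `T ax = s ax` and
`y = T (y + λ ax)` with `λ = d D1 A (-v) y / s`. -/
theorem link_d2 {d : ℝ} {ax : E} {A B : E → ℝ} (D : Bd d ax A B) {v : E} (hv : v ≠ 0)
    {s : ℝ} (hs : s = 1 - d * D1 A (-v) ax) (y : E) :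
    D2 B (v + (d * A (-v)) • ax) ax ax = D2 A (-v) ax ax * s⁻¹ ^ 3 ∧
    D2 B (v + (d * A (-v)) • ax) ax y = D2 A (-v) ax y * s⁻¹ ^ 2 +
      d * D1 A (-v) y * D2 A (-v) ax ax * s⁻¹ ^ 3 ∧
    D2 B (v + (d * A (-v)) • ax) y y = D2 A (-v) y y * s⁻¹ +
      2 * (d * D1 A (-v) y) * D2 A (-v) ax y * s⁻¹ ^ 2 +
      (d * D1 A (-v) y) ^ 2 * D2 A (-v) ax ax * s⁻¹ ^ 3 := by
  have hs0 : 0 < s := by rw [hs]; exact D.sA (-v) (neg_ne_zero.2 hv)
  have hs' : s ≠ 0 := hs0.ne'
  obtain ⟨-, -, h3⟩ := link_d1 D hv ax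
  rw [← hs] at h3
  set b := v + (d * A (-v)) • ax with hb
  have key : ∀ y x, D2 B b (y - (d * D1 A (-v) y) • ax) (x - (d * D1 A (-v) x) • ax) =
      D2 A (-v) y x * s⁻¹ := by
    intro y x
    have h1 := olinka_rel2 D hv y x
    rw [← hb] at h1
    linear_combination h1 + D2 A (-v) y x * h3
  have hsy : ∀ x y, D2 A (-v) x y = D2 A (-v) y x := fun x y =>
    d2_symm ((D.hA.c _ (neg_ne_zero.2 hv)).of_le (by norm_num)) x y
  have hTax : ax - (d * D1 A (-v) ax) • ax = s • ax := by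
    rw [hs, sub_smul, one_smul]
  obtain ⟨l, hl⟩ : ∃ l, l = d * D1 A (-v) y * s⁻¹ := ⟨_, rfl⟩
  have hTy : (y + l • ax) - (d * D1 A (-v) (y + l • ax)) • ax = y := by
    have h4 : d * D1 A (-v) (y + l • ax) = l := by
      rw [d1_add, d1_smul]
      have h5 : d * D1 A (-v) y = l * s := by
        rw [hl]; field_simp
      rw [hs] at h5
      linear_combination h5
    rw [h4, add_sub_cancel_right]
  have k1 := key ax ax
  rw [hTax, d2_smul_l, d2_smul_r] at k1
  have k2 := key ax (y + l • ax)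
  rw [hTax, hTy, d2_smul_l, d2_add_r, d2_smul_r] at k2
  have k3 := key (y + l • ax) (y + l • ax)
  rw [hTy, d2_add_r, d2_add_l, d2_add_l, d2_smul_r, d2_smul_l, d2_smul_l, d2_smul_r] at k3
  rw [hsy y ax] at k3
  refine ⟨?_, ?_, ?_⟩
  · have : D2 B b ax ax = s⁻¹ * s⁻¹ * (s * (s * D2 B b ax ax)) := by field_simp
    rw [this, k1]; ring
  · have : D2 B b ax y = s⁻¹ * (s * D2 B b ax y) := by field_simp
    rw [this, k2, hl]; ring
  · rw [k3, hl]; ring

end CJ
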