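import Pool.Agent.H.MP_1693ff_gtE.OProfE

/-!
# Profiles of homogeneous functions: transverse derivatives
-/

namespace CJ

open Real Set Filter Topology CG CH
open CF hiding St

variable {E : Type} [NormedAddCommGroup E] [InnerProductSpace ℝ E]

theorem oproff_un {ax ω η : E} (hω : Un ax ω) (hη : Un ax η) (o : inner ℝ ω η = (0 : ℝ))
    (r : ℝ) : Un ax (ro ω η r) := by
  refine ⟨?_, ?_⟩
  · have h1 : inner ℝ (ro ω η r) (ro ω η r) = (1 : ℝ) := by
      unfold ro
      have e1 : inner ℝ ω ω = (1 : ℝ) := by rw [real_inner_self_eq_norm_sq, hω.n1]; norm_num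
      have e2 : inner ℝ η η = (1 : ℝ) := by rw [real_inner_self_eq_norm_sq, hη.n1]; norm_num
      have e3 : inner ℝ η ω = (0 : ℝ) := by rw [real_inner_comm]; exact o
      simp only [inner_add_left, inner_add_right, real_inner_smul_left, real_inner_smul_right,
        e1, e2, e3, o]
      have := cos_sq_add_sin_sq r
      nlinarith
    have h2 : ‖ro ω η r‖ ^ 2 = 1 := by rw [← real_inner_self_eq_norm_sq]; exact h1
    have h3 : 0 ≤ ‖ro ω η r‖ := norm_nonneg _
    nlinarith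
  · unfold ro
    simp only [inner_add_right, real_inner_smul_right, hω.o1, hη.o1]
    ring

theorem oproff_neg {ax ω : E} (h : Un ax ω) : Un ax (-ω) := by
  refine ⟨by rw [norm_neg]; exact h.n1, ?_⟩
  rw [inner_neg_right, h.o1, neg_zero]

/-- The rotated frame. -/
theorem fm_ro {ax ω η : E} (F : Fm ax ω η) (r : ℝ) : Fm ax (ro ω η r) (ro η (-ω) r) := by
  have o' : inner ℝ η ω = (0 : ℝ) := by rw [real_inner_comm]; exact F.o
  refine ⟨F.a, oproff_un F.w F.h F.o r, oproff_un F.h (oproff_neg F.w) ?_ r, ?_⟩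
  · rw [inner_neg_right, o', neg_zero]
  · unfold ro
    have e1 : inner ℝ ω ω = (1 : ℝ) := by rw [real_inner_self_eq_norm_sq, F.w.n1]; norm_num
    have e2 : inner ℝ η η = (1 : ℝ) := by rw [real_inner_self_eq_norm_sq, F.h.n1]; norm_num
    simp only [inner_add_left, inner_add_right, real_inner_smul_left, real_inner_smul_right,
      inner_neg_right, e1, e2, o', F.o]
    ring

theorem oproff_ne {ax ω : E} (h : Un ax ω) (a : ℝ) : a • ax + ω ≠ 0 := by
  intro h0
  have h1 : inner ℝ ω (a • ax + ω) = (1 : ℝ) := by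
    have e1 : inner ℝ ω ω = (1 : ℝ) := by rw [real_inner_self_eq_norm_sq, h.n1]; norm_num
    have e2 : inner ℝ ω ax = (0 : ℝ) := by rw [real_inner_comm]; exact h.o1
    rw [inner_add_right, real_inner_smul_right, e1, e2]
    ring
  rw [h0, inner_zero_right] at h1
  exact one_ne_zero h1.symm

theorem oproff_dro (ω η : E) (r : ℝ) : HasDerivAt (fun r => ro ω η r) (ro η (-ω) r) r := by
  have h1 : HasDerivAt (fun r : ℝ => cos r • ω) ((-sin r) • ω) r :=
    (hasDerivAt_cos r).smul_const ω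
  have h2 : HasDerivAt (fun r : ℝ => sin r • η) (cos r • η) r :=
    (hasDerivAt_sin r).smul_const η
  have h3 := h1.add h2
  have e : (-sin r) • ω + cos r • η = ro η (-ω) r := by
    unfold ro
    rw [smul_neg, neg_smul, add_comm]
  rw [e] at h3
  exact h3

theorem oproff_dro2 (ω η : E) (r : ℝ) :
    HasDerivAt (fun r => ro η (-ω) r) (-ro ω η r) r := by
  have h := oproff_dro η (-ω) r
  have e : ro (-ω) (-η) r = -ro ω η r := by
    unfold ro
    rw [smul_neg, smul_neg, neg_add]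
  rw [e] at h
  exact h

theorem oproff_dv (ax ω η : E) (a r : ℝ) :
    HasDerivAt (fun r => a • ax + ro ω η r) (ro η (-ω) r) r :=
  (oproff_dro ω η r).const_add (a • ax)

/-- Derivatives in `r` of `prof (hf Φ ax ω η r) a = Φ (a ax + ro ω η r)` and of
`prof1 (hf Φ ax ω η r) a = D1 Φ (a ax + ro ω η r) ax` (`pf_pl`), where `∂_r ro ω η r =
ro η (-ω) r`, `∂_r ro η (-ω) r = -ro ω η r`; in `ft` the terms `- D1 Φ v (ro ω η r)` and
`Φ v - a D1 Φ v ax` cancel by `ho_euler` (`v = a ax + ro ω η r`). -/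
theorem pt_hf {Φ : E → ℝ} (hΦ : Hg Φ) {ax ω η : E} (F : Fm ax ω η) (r : ℝ) :
    pt (hf Φ ax ω η) r = GE Φ ax (ro ω η r) (ro η (-ω) r) := by
  have hne : ∀ a r : ℝ, a • ax + ro ω η r ≠ 0 := fun a r => oproff_ne (fm_ro F r).w a
  have hd : ∀ a r : ℝ, HasFDerivAt Φ (fderiv ℝ Φ (a • ax + ro ω η r)) (a • ax + ro ω η r) :=
    fun a r => ((hΦ.c _ (hne a r)).differentiableAt (by norm_num)).hasFDerivAt
  have hd2 : ∀ a r : ℝ, HasFDerivAt (fderiv ℝ Φ) (fderiv ℝ (fderiv ℝ Φ) (a • ax + ro ω η r))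
      (a • ax + ro ω η r) := by
    intro a r
    have h1 : ContDiffAt ℝ 1 (fderiv ℝ Φ) (a • ax + ro ω η r) :=
      ((hΦ.c _ (hne a r)).of_le (by norm_num : (2 : WithTop ℕ∞) ≤ 3)).fderiv_right (by norm_num)
    exact (h1.differentiableAt (by norm_num)).hasFDerivAt
  have hsym : ∀ a r : ℝ, IsSymmSndFDerivAt ℝ Φ (a • ax + ro ω η r) := fun a r =>
    ((hΦ.c _ (hne a r)).of_le (by norm_num : (2 : WithTop ℕ∞) ≤ 3)).isSymmSndFDerivAt (by simp)
  have p0 : ∀ a r : ℝ, prof (hf Φ ax ω η r) a = Φ (a • ax + ro ω η r) := fun a r =>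
    prof_pl hΦ.h ax (ro ω η r) a
  have p1 : ∀ a r : ℝ, prof1 (hf Φ ax ω η r) a = D1 Φ (a • ax + ro ω η r) ax := by
    intro a r
    have h := pf_pl hΦ F.a (fm_ro F r).w
    have h2 := congrArg Pf.f1 h
    exact congrFun h2 a
  have q0 : ∀ a r : ℝ, HasDerivAt (fun r' => Φ (a • ax + ro ω η r'))
      (fderiv ℝ Φ (a • ax + ro ω η r) (ro η (-ω) r)) r := fun a r =>
    (hd a r).comp_hasDerivAt r (oproff_dv ax ω η a r)
  have q1 : ∀ a r : ℝ, HasDerivAt (fun r' => fderiv ℝ Φ (a • ax + ro ω η r'))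
      (fderiv ℝ (fderiv ℝ Φ) (a • ax + ro ω η r) (ro η (-ω) r)) r := fun a r =>
    (hd2 a r).comp_hasDerivAt r (oproff_dv ax ω η a r)
  have f0 : ∀ a : ℝ, (fun r' => prof (hf Φ ax ω η r') a) = fun r' => Φ (a • ax + ro ω η r') :=
    fun a => funext fun r' => p0 a r'
  have f1 : ∀ a : ℝ, (fun r' => prof1 (hf Φ ax ω η r') a) =
      fun r' => fderiv ℝ Φ (a • ax + ro ω η r') ax := fun a => funext fun r' => p1 a r'
  have g0 : ∀ a : ℝ, deriv (fun r' => prof (hf Φ ax ω η r') a) =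
      fun r' => fderiv ℝ Φ (a • ax + ro ω η r') (ro η (-ω) r') := by
    intro a
    rw [f0 a]
    exact funext fun r' => (q0 a r').deriv
  have A1 : (fun a => deriv (fun r' => prof (hf Φ ax ω η r') a) r) =
      fun a => D1 Φ (a • ax + ro ω η r) (ro η (-ω) r) := by
    funext a
    rw [g0 a]
    rfl
  have A2 : (fun a => deriv (fun r' => prof1 (hf Φ ax ω η r') a) r) =
      fun a => D2 Φ (a • ax + ro ω η r) ax (ro η (-ω) r) := by
    funext a
    rw [f1 a]
    have h1 : HasDerivAt (fun r' => fderiv ℝ Φ (a • ax + ro ω η r') ax)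
        (fderiv ℝ (fderiv ℝ Φ) (a • ax + ro ω η r) (ro η (-ω) r) ax) r := by
      have h2 := (q1 a r).clm_apply (hasDerivAt_const r ax)
      simpa using h2
    rw [h1.deriv]
    exact hsym a r _ _
  have A3 : (fun a => deriv (deriv fun r' => prof (hf Φ ax ω η r') a) r +
      prof (hf Φ ax ω η r) a - a * prof1 (hf Φ ax ω η r) a) =
      fun a => D2 Φ (a • ax + ro ω η r) (ro η (-ω) r) (ro η (-ω) r) := by
    funext a
    rw [g0 a, p0 a r, p1 a r]
    have h1 : HasDerivAt (fun r' => fderiv ℝ Φ (a • ax + ro ω η r') (ro η (-ω) r'))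
        (fderiv ℝ (fderiv ℝ Φ) (a • ax + ro ω η r) (ro η (-ω) r) (ro η (-ω) r) +
          fderiv ℝ Φ (a • ax + ro ω η r) (-ro ω η r)) r :=
      (q1 a r).clm_apply (oproff_dro2 ω η r)
    rw [h1.deriv]
    have h2 := ho_euler hΦ.h (hd a r).differentiableAt
    have h3 : D1 Φ (a • ax + ro ω η r) (a • ax + ro ω η r) =
        a * D1 Φ (a • ax + ro ω η r) ax + fderiv ℝ Φ (a • ax + ro ω η r) (ro ω η r) := by
      unfold D1
      rw [map_add, map_smul, smul_eq_mul]
    rw [h3] at h2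
    rw [← h2, map_neg]
    unfold D2
    ring
  unfold pt GE
  rw [A1, A2, A3]

/-- `pj_of` with `prof_pl`, `pl_c3`. -/
theorem pj_hf {Φ : E → ℝ} (hΦ : Hg Φ) {ax ω η : E} (F : Fm ax ω η) :
    PJ (fun r => pf (hf Φ ax ω η r)) (fun r => pt (hf Φ ax ω η) r) := by
  refine pj_of (h := hf Φ ax ω η) (fun r => ?_) ?_
  · exact (pl_c3 hΦ F.a (fm_ro F r).w).of_le (by norm_num)
  · have e : (fun p : ℝ × ℝ => prof (hf Φ ax ω η p.2) p.1) =
        fun p : ℝ × ℝ => Φ (p.1 • ax + ro ω η p.2) :=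
      funext fun p => prof_pl hΦ.h ax (ro ω η p.2) p.1
    rw [e, contDiff_iff_contDiffAt]
    intro p
    have h1 : ContDiffAt ℝ 2 Φ (p.1 • ax + ro ω η p.2) :=
      (hΦ.c _ (oproff_ne (fm_ro F p.2).w p.1)).of_le (by norm_num)
    have h2 : ContDiff ℝ 2 (fun p : ℝ × ℝ => p.1 • ax + ro ω η p.2) := by
      unfold ro
      exact (contDiff_fst.smul contDiff_const).add
        (((contDiff_cos.comp contDiff_snd).smul contDiff_const).add
          ((contDiff_sin.comp contDiff_snd).smul contDiff_const))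
    exact h1.comp p h2.contDiffAt

end CJ
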