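import Pool.Agent.H.MP_1693ff_gtE.OHomA

/-!
# Regularity of surfaces given by a homogeneous function
-/

namespace CJ

open Real Set Filter Topology CG CH
open CF hiding St

variable {E : Type} [NormedAddCommGroup E] [InnerProductSpace ℝ E]

theorem oreg_ro (ω η : E) {n : WithTop ℕ∞} : ContDiff ℝ n (fun p : ℝ × ℝ => ro ω η p.2) := by
  unfold ro
  exact ((contDiff_cos.comp contDiff_snd).smul contDiff_const).add
    ((contDiff_sin.comp contDiff_snd).smul contDiff_const)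

theorem oreg_a {a₁ : E → ℝ} {ω η : E} {t r : ℝ} (ca : ContDiffAt ℝ 1 a₁ (ro ω η r)) :
    ContDiffAt ℝ 1 (fun p : ℝ × ℝ => p.1 * a₁ (ro ω η p.2)) (t, r) := by
  have h1 : ContDiffAt ℝ 1 (fun p : ℝ × ℝ => a₁ (ro ω η p.2)) (t, r) :=
    ContDiffAt.comp (t, r) (f := fun p : ℝ × ℝ => ro ω η p.2) (g := a₁) ca
      (oreg_ro ω η).contDiffAt
  exact contDiff_fst.contDiffAt.mul h1

theorem oreg_γ {ax : E} {a₁ : E → ℝ} {ω η : E} {t r : ℝ} (ca : ContDiffAt ℝ 1 a₁ (ro ω η r)) :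
    ContDiffAt ℝ 1 (fun p : ℝ × ℝ => (p.1 * a₁ (ro ω η p.2)) • ax + ro ω η p.2) (t, r) :=
  ((oreg_a ca).smul contDiffAt_const).add (oreg_ro ω η).contDiffAt

/-- `(t, r) ↦ (t a₁(ro ω η r)) ax + ro ω η r` is `C¹`, `W` and its first derivative are `C¹`. -/
theorem us_c13 {d : ℝ} {W a₁ : E → ℝ} {ax ω η : E} {t r : ℝ}
    (cW : ContDiffAt ℝ 2 W ((t * a₁ (ro ω η r)) • ax + ro ω η r))
    (ca : ContDiffAt ℝ 1 a₁ (ro ω η r)) :
    C13 (fun p : ℝ × ℝ => SU d ax W a₁ (ro ω η p.2) p.1)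
      (fun p : ℝ × ℝ => TU d ax W a₁ (ro ω η p.2) (ro η (-ω) p.2) p.1) (t, r) := by
  have hγ := oreg_γ (ax := ax) (t := t) ca
  have h0 : ContDiffAt ℝ 1
      (fun p : ℝ × ℝ => W ((p.1 * a₁ (ro ω η p.2)) • ax + ro ω η p.2)) (t, r) :=
    ContDiffAt.comp (t, r)
      (f := fun p : ℝ × ℝ => (p.1 * a₁ (ro ω η p.2)) • ax + ro ω η p.2) (g := W)
      (cW.of_le (by norm_num)) hγ
  have h1 : ContDiffAt ℝ 1
      (fun p : ℝ × ℝ => fderiv ℝ W ((p.1 * a₁ (ro ω η p.2)) • ax + ro ω η p.2)) (t, r) :=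
    ContDiffAt.comp (t, r)
      (f := fun p : ℝ × ℝ => (p.1 * a₁ (ro ω η p.2)) • ax + ro ω η p.2) (g := fderiv ℝ W)
      (cW.fderiv_right (m := 1) (by norm_num)) hγ
  refine ⟨?_, ?_, ?_, ?_⟩
  · exact oreg_a ca
  · exact (oreg_a ca).sub (contDiffAt_const.mul h0)
  · exact contDiffAt_const.sub (contDiffAt_const.mul (h1.clm_apply contDiffAt_const))
  · exact (contDiffAt_const.mul (h1.clm_apply (oreg_ro η (-ω)).contDiffAt)).neg

/-- Along `t`: `d1_along`, `d2_along` with `γ t = (t a₁ ω) ax + ω`. -/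
theorem us_t {d : ℝ} {W a₁ : E → ℝ} {ax ω η : E} {t : ℝ}
    (cW : ContDiffAt ℝ 2 W ((t * a₁ ω) • ax + ω)) :
    Al3 (fun t => SU d ax W a₁ ω t) (fun t => TU d ax W a₁ ω η t) (SU d ax W a₁ ω t).v 0 t := by
  have hg : HasDerivAt (fun t : ℝ => (t * a₁ ω) • ax + ω) (a₁ ω • ax) t := by
    have h := (((hasDerivAt_id t).mul_const (a₁ ω)).smul_const ax).add_const ω
    simpa using h
  have h0 := d1_along (V := W) (cW.differentiableAt (by norm_num)) hg
  have h1 := d2_along (V := W) cW hg (hasDerivAt_const t ax)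
  have h2 := d2_along (V := W) cW hg (hasDerivAt_const t η)
  have z0 : ∀ v : E, D1 W v 0 = 0 := fun v => by simp [D1]
  refine ⟨?_, ?_, ?_, ?_⟩
  · have h := (hasDerivAt_id t).mul_const (a₁ ω)
    simpa [SU, JE] using h
  · have h := ((hasDerivAt_id t).mul_const (a₁ ω)).sub (h0.const_mul d)
    refine h.congr_deriv ?_
    simp only [SU, JE, TU, JT, d1_smul]
    ring
  · have h := (h1.const_mul d).const_sub 1
    refine h.congr_deriv ?_
    simp only [SU, JE, TU, JT, d2_smul_l, z0]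
    ring
  · have h := (h2.const_mul d).neg
    refine h.congr_deriv ?_
    simp only [SU, JE, TU, JT, d2_smul_l, z0]
    ring

/-- The hypotheses of `us_c13` are open conditions (`ContDiffAt.eventually`). -/
theorem us_ev {W a₁ : E → ℝ} {ax ω η : E} {t r : ℝ}
    (cW : ContDiffAt ℝ 2 W ((t * a₁ (ro ω η r)) • ax + ro ω η r))
    (ca : ContDiffAt ℝ 1 a₁ (ro ω η r)) :
    ∀ᶠ p : ℝ × ℝ in 𝓝 (t, r), ContDiffAt ℝ 2 W ((p.1 * a₁ (ro ω η p.2)) • ax + ro ω η p.2) ∧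
      ContDiffAt ℝ 1 a₁ (ro ω η p.2) := by
  have hγ : ContinuousAt
      (fun p : ℝ × ℝ => (p.1 * a₁ (ro ω η p.2)) • ax + ro ω η p.2) (t, r) :=
    (oreg_γ (ax := ax) (t := t) ca).continuousAt
  have hr : ContinuousAt (fun p : ℝ × ℝ => ro ω η p.2) (t, r) :=
    (oreg_ro ω η (n := 1)).continuous.continuousAt
  exact (hγ.eventually (cW.eventually (by simp))).and (hr.eventually (ca.eventually (by simp)))

end CJ
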