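import Pool.Agent.H.MP_1693ff_gtE.OHom
import Pool.Agent.H.MP_1693ff_gtE.OReg

/-!
# Regularity of surfaces given by a homogeneous function: along `r`
-/

namespace CJ

open Real Set Filter Topology CG CH
open CF hiding St

variable {E : Type} [NormedAddCommGroup E] [InnerProductSpace ℝ E]

/-- derivative of the rotating vector. -/
theorem oreg2_ro (ω η : E) (r : ℝ) : HasDerivAt (fun y => ro ω η y) (ro η (-ω) r) r := by
  have h1 : HasDerivAt (fun y => cos y • ω) ((-sin r) • ω) r := (hasDerivAt_cos r).smul_const ω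
  have h2 : HasDerivAt (fun y => sin y • η) (cos r • η) r := (hasDerivAt_sin r).smul_const η
  have h3 := h1.add h2
  have h4 : (-sin r) • ω + cos r • η = ro η (-ω) r := by
    simp only [ro, smul_neg, neg_smul]
    abel
  rw [h4] at h3
  exact h3

/-- second derivative of the rotating vector. -/
theorem oreg2_ro' (ω η : E) (r : ℝ) : HasDerivAt (fun y => ro η (-ω) y) (-(ro ω η r)) r := by
  have h := oreg2_ro η (-ω) r
  have h1 : ro (-ω) (-η) r = -(ro ω η r) := ro_neg ω η r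
  rw [h1] at h
  exact h

/-- Along `r`: `γ r = (t a₁ (ω_r)) ax + ω_r`, `γ' = w ax + η_r`, where `ω_r = ro ω η r`,
`η_r = ro η (-ω) r`, `∂_r ω_r = η_r`, `∂_r η_r = -ω_r`, `w = t D1 a₁ ω_r η_r`.  `dκ`:
the derivative of `-d D1 W (γ r) η_r` is `-d D2 W (w ax + η_r) η_r + d D1 W γ ω_r`, and
`D1 W γ ω_r = W - a D1 W γ ax` (`ho_euler`, `γ = a ax + ω_r`), i.e. `d D1 W γ ω_r = s a - α`. -/
theorem us_r {d : ℝ} {W a₁ : E → ℝ} (hW : Ho W) {ax ω η : E} {t r : ℝ}
    (cW : ContDiffAt ℝ 2 W ((t * a₁ (ro ω η r)) • ax + ro ω η r))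
    (ca : ContDiffAt ℝ 1 a₁ (ro ω η r)) :
    Al3 (fun r => SU d ax W a₁ (ro ω η r) t)
      (fun r => TU d ax W a₁ (ro ω η r) (ro η (-ω) r) t)
      (TU d ax W a₁ (ro ω η r) (ro η (-ω) r) t).w 1 r := by
  have da1 : DifferentiableAt ℝ a₁ (ro ω η r) := ca.differentiableAt (by norm_num)
  have hro := oreg2_ro ω η r
  have hro' := oreg2_ro' ω η r
  obtain ⟨w, hw⟩ : ∃ w : ℝ, w = t * D1 a₁ (ro ω η r) (ro η (-ω) r) := ⟨_, rfl⟩
  have ha : HasDerivAt (fun y => t * a₁ (ro ω η y)) w r := by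
    rw [hw]
    exact (d1_along (γ := fun y => ro ω η y) da1 hro).const_mul t
  have hγ : HasDerivAt (fun y => (t * a₁ (ro ω η y)) • ax + ro ω η y)
      (w • ax + ro η (-ω) r) r := (ha.smul_const ax).add hro
  have dW : DifferentiableAt ℝ W ((t * a₁ (ro ω η r)) • ax + ro ω η r) :=
    cW.differentiableAt (by norm_num)
  have h1 := d1_along (γ := fun y => (t * a₁ (ro ω η y)) • ax + ro ω η y) dW hγ
  have h2 := d2_along (γ := fun y => (t * a₁ (ro ω η y)) • ax + ro ω η y)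
    (x := fun _ => ax) cW hγ (hasDerivAt_const r ax)
  have h3 := d2_along (γ := fun y => (t * a₁ (ro ω η y)) • ax + ro ω η y)
    (x := fun y => ro η (-ω) y) cW hγ hro'
  obtain ⟨P, hP⟩ : ∃ P : E, P = (t * a₁ (ro ω η r)) • ax + ro ω η r := ⟨_, rfl⟩
  rw [← hP] at h1 h2 h3 cW
  have hs : D2 W P (ro η (-ω) r) ax = D2 W P ax (ro η (-ω) r) := d2_symm cW _ _
  have e0 : D1 W P (0 : E) = 0 := by
    have := d1_smul W P 0 (0 : E)
    simpa using this
  have dW' : DifferentiableAt ℝ W P := by rw [hP]; exact dW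
  have hE : (t * a₁ (ro ω η r)) * D1 W P ax + D1 W P (ro ω η r) = W P := by
    have h4 := ho_euler hW dW'
    have h5 : D1 W P P = D1 W P ((t * a₁ (ro ω η r)) • ax + ro ω η r) := by rw [← hP]
    rw [h5, d1_add, d1_smul] at h4
    exact h4
  refine ⟨?_, ?_, ?_, ?_⟩
  · show HasDerivAt (fun y => t * a₁ (ro ω η y)) (t * D1 a₁ (ro ω η r) (ro η (-ω) r)) r
    rw [← hw]; exact ha
  · show HasDerivAt (fun y => t * a₁ (ro ω η y) - d * W ((t * a₁ (ro ω η y)) • ax + ro ω η y))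
      ((1 - d * D1 W ((t * a₁ (ro ω η r)) • ax + ro ω η r) ax) *
        (t * D1 a₁ (ro ω η r) (ro η (-ω) r)) +
        -(d * D1 W ((t * a₁ (ro ω η r)) • ax + ro ω η r) (ro η (-ω) r)) * 1) r
    have h6 := ha.sub (h1.const_mul d)
    rw [← hw, ← hP]
    refine h6.congr_deriv ?_
    rw [d1_add, d1_smul]
    ring
  · show HasDerivAt (fun y => 1 - d * D1 W ((t * a₁ (ro ω η y)) • ax + ro ω η y) ax)
      (-(d * D2 W ((t * a₁ (ro ω η r)) • ax + ro ω η r) ax ax) *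
        (t * D1 a₁ (ro ω η r) (ro η (-ω) r)) -
        (d * D2 W ((t * a₁ (ro ω η r)) • ax + ro ω η r) ax (ro η (-ω) r)) * 1) r
    have h6 := (h2.const_mul d).const_sub 1
    rw [← hw, ← hP]
    refine h6.congr_deriv ?_
    rw [d2_add_l, d2_smul_l, hs, e0]
    ring
  · show HasDerivAt (fun y => -(d * D1 W ((t * a₁ (ro ω η y)) • ax + ro ω η y) (ro η (-ω) y)))
      (-(d * D2 W ((t * a₁ (ro ω η r)) • ax + ro ω η r) ax (ro η (-ω) r)) *
        (t * D1 a₁ (ro ω η r) (ro η (-ω) r)) +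
        ((1 - d * D1 W ((t * a₁ (ro ω η r)) • ax + ro ω η r) ax) * (t * a₁ (ro ω η r)) -
          (t * a₁ (ro ω η r) - d * W ((t * a₁ (ro ω η r)) • ax + ro ω η r)) -
          d * D2 W ((t * a₁ (ro ω η r)) • ax + ro ω η r) (ro η (-ω) r) (ro η (-ω) r)) * 1) r
    have h6 := (h3.const_mul d).neg
    rw [← hw, ← hP]
    refine h6.congr_deriv ?_
    rw [d2_add_l, d2_smul_l, d1_neg, ← hE]
    ring

/-- The arc. -/
theorem su_rg {d : ℝ} {W a₁ : E → ℝ} {ax ω : E}
    (cW : ∀ t ∈ Icc (0 : ℝ) 1, ContDiffAt ℝ 2 W ((t * a₁ ω) • ax + ω)) :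
    Rg (fun t => SU d ax W a₁ ω t) := by
  have hg : ∀ t : ℝ, ContinuousAt (fun t : ℝ => (t * a₁ ω) • ax + ω) t := by
    intro t
    have h1 : Continuous (fun t : ℝ => (t * a₁ ω) • ax + ω) := by fun_prop
    exact h1.continuousAt
  refine ⟨?_, ?_, ?_, ?_⟩
  · show ContinuousOn (fun t => t * a₁ ω) (Icc 0 1)
    fun_prop
  · show ContinuousOn (fun t => t * a₁ ω - d * W ((t * a₁ ω) • ax + ω)) (Icc 0 1)
    intro t ht
    have h1 : ContinuousAt W ((t * a₁ ω) • ax + ω) := (cW t ht).continuousAt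
    have h2 : ContinuousAt (fun t : ℝ => W ((t * a₁ ω) • ax + ω)) t :=
      ContinuousAt.comp (f := fun t : ℝ => (t * a₁ ω) • ax + ω) h1 (hg t)
    have h3 : ContinuousAt (fun t : ℝ => t * a₁ ω - d * W ((t * a₁ ω) • ax + ω)) t :=
      (by fun_prop : ContinuousAt (fun t : ℝ => t * a₁ ω) t).sub (h2.const_mul d)
    exact h3.continuousWithinAt
  · show ContinuousOn (fun t => 1 - d * D1 W ((t * a₁ ω) • ax + ω) ax) (Icc 0 1)
    intro t ht
    have h0 : ContDiffAt ℝ 1 (fderiv ℝ W) ((t * a₁ ω) • ax + ω) :=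
      (cW t ht).fderiv_right (by norm_num)
    have h1 : ContinuousAt (fderiv ℝ W) ((t * a₁ ω) • ax + ω) := h0.continuousAt
    have h2 : ContinuousAt (fun t : ℝ => fderiv ℝ W ((t * a₁ ω) • ax + ω)) t :=
      ContinuousAt.comp (f := fun t : ℝ => (t * a₁ ω) • ax + ω) h1 (hg t)
    have h3 : ContinuousAt (fun t : ℝ => fderiv ℝ W ((t * a₁ ω) • ax + ω) ax) t :=
      h2.clm_apply continuousAt_const
    have h4 : ContinuousAt (fun t : ℝ => 1 - d * fderiv ℝ W ((t * a₁ ω) • ax + ω) ax) t :=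
      continuousAt_const.sub (h3.const_mul d)
    exact h4.continuousWithinAt
  · intro t ht
    have h := us_t (d := d) (W := W) (a₁ := a₁) (ax := ax) (ω := ω) (η := (0 : E)) (t := t)
      (cW t ⟨ht.1.le, ht.2.le⟩)
    refine ⟨h.da, ?_, ?_⟩
    · have h1 := h.dα
      simpa using h1
    · have h1 := h.ds
      simpa using h1

end CJ
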