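import Pool.Agent.H.MP_1693ff_gtE.OE

/-!
# Surfaces seen from the other centre: regularity
-/

namespace CJ

open Real Set Filter Topology CG CH
open CF hiding St

/-- Composition with `(t, r) ↦ (1 - t, r)`; inverse of `s ≠ 0`. -/
theorem rv_c13 {S : ℝ × ℝ → St} {T : ℝ × ℝ → Tt} {t r : ℝ} (C : C13 S T (1 - t, r))
    (hs : (S (1 - t, r)).s ≠ 0) :
    C13 (fun p : ℝ × ℝ => rv (S (1 - p.1, p.2)))
      (fun p : ℝ × ℝ => rvT (S (1 - p.1, p.2)) (T (1 - p.1, p.2))) (t, r) := by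
  have hφ : ContDiffAt ℝ 1 (fun p : ℝ × ℝ => ((1 - p.1, p.2) : ℝ × ℝ)) (t, r) :=
    (contDiffAt_const.sub contDiffAt_fst).prodMk contDiffAt_snd
  have ha : ContDiffAt ℝ 1 (fun p : ℝ × ℝ => (S (1 - p.1, p.2)).a) (t, r) :=
    ContDiffAt.comp (t, r) (g := fun q => (S q).a) C.ca hφ
  have hα : ContDiffAt ℝ 1 (fun p : ℝ × ℝ => (S (1 - p.1, p.2)).α) (t, r) :=
    ContDiffAt.comp (t, r) (g := fun q => (S q).α) C.cα hφ
  have hss : ContDiffAt ℝ 1 (fun p : ℝ × ℝ => (S (1 - p.1, p.2)).s) (t, r) :=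
    ContDiffAt.comp (t, r) (g := fun q => (S q).s) C.cs hφ
  have hκ : ContDiffAt ℝ 1 (fun p : ℝ × ℝ => (T (1 - p.1, p.2)).κ) (t, r) :=
    ContDiffAt.comp (t, r) (g := fun q => (T q).κ) C.cκ hφ
  exact ⟨hα.neg, ha.neg, hss.inv hs, (hss.inv hs).mul hκ⟩

theorem orv_flip {f : ℝ → ℝ} {f' t : ℝ} (h : HasDerivAt f f' (1 - t)) :
    HasDerivAt (fun t => f (1 - t)) (-f') t := by
  have h1 : HasDerivAt (fun t : ℝ => 1 - t) (-1) t := by
    simpa using (hasDerivAt_id t).const_sub 1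
  have h2 := HasDerivAt.comp t h h1
  rw [mul_neg_one] at h2
  exact h2

/-- Along `t`. -/
theorem rv_t {S : ℝ → St} {T : ℝ → Tt} {t : ℝ} (A : Al3 S T (S (1 - t)).v 0 (1 - t))
    (hs : (S (1 - t)).s ≠ 0) :
    Al3 (fun t => rv (S (1 - t))) (fun t => rvT (S (1 - t)) (T (1 - t)))
      (rv (S (1 - t))).v 0 t := by
  have ha := orv_flip A.da
  have hα := orv_flip A.dα
  have hss := orv_flip A.ds
  have hκ := orv_flip A.dκ
  refine ⟨?_, ?_, ?_, ?_⟩
  · refine hα.neg.congr_deriv ?_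
    simp only [rv]
    ring
  · refine ha.neg.congr_deriv ?_
    simp only [rv]
    field_simp
    ring
  · refine (hss.inv hs).congr_deriv ?_
    simp only [rv]
    field_simp
    ring
  · refine ((hss.inv hs).mul hκ).congr_deriv ?_
    simp only [rv, rvT, Pi.inv_apply]
    field_simp
    ring

/-- Along `r`. -/
theorem rv_r {S : ℝ → St} {T : ℝ → Tt} {r : ℝ} (A : Al3 S T (T r).w 1 r) (hs : (S r).s ≠ 0) :
    Al3 (fun r => rv (S r)) (fun r => rvT (S r) (T r)) (rvT (S r) (T r)).w 1 r := by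
  refine ⟨?_, ?_, ?_, ?_⟩
  · refine A.dα.neg.congr_deriv ?_
    simp only [rvT]
    ring
  · refine A.da.neg.congr_deriv ?_
    simp only [rv, rvT]
    field_simp
    ring
  · refine (A.ds.inv hs).congr_deriv ?_
    simp only [rv, rvT]
    field_simp
    ring
  · refine ((A.ds.inv hs).mul A.dκ).congr_deriv ?_
    simp only [rv, rvT, Pi.inv_apply]
    field_simp
    ring

/-- The arc. -/
theorem rv_rg {S : ℝ → St} (R : Rg S) (hs : ∀ t ∈ Icc (0 : ℝ) 1, (S t).s ≠ 0) :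
    Rg (fun t => rv (S (1 - t))) := by
  have hm : MapsTo (fun t : ℝ => 1 - t) (Icc (0 : ℝ) 1) (Icc (0 : ℝ) 1) := by
    intro t ht
    exact ⟨by linarith [ht.2], by linarith [ht.1]⟩
  have hc : ContinuousOn (fun t : ℝ => 1 - t) (Icc (0 : ℝ) 1) :=
    (continuous_const.sub continuous_id).continuousOn
  refine ⟨(R.cα.comp hc hm).neg, (R.ca.comp hc hm).neg, (R.cs.comp hc hm).inv₀ ?_, ?_⟩
  · intro t ht
    exact hs _ (hm ht)
  · intro t ht
    have h1 : (1 - t) ∈ Ioo (0 : ℝ) 1 := ⟨by linarith [ht.2], by linarith [ht.1]⟩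
    have hs1 : (S (1 - t)).s ≠ 0 := hs _ ⟨h1.1.le, h1.2.le⟩
    have A := R.al _ h1
    have ha := orv_flip A.da
    have hα := orv_flip A.dα
    have hss := orv_flip A.ds
    refine ⟨?_, ?_, ?_⟩
    · refine hα.neg.congr_deriv ?_
      simp only [rv]
      ring
    · refine ha.neg.congr_deriv ?_
      simp only [rv]
      field_simp
    · refine (hss.inv hs1).congr_deriv ?_
      simp only [rv]
      field_simp

end CJ
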