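import Pool.Agent.H.MP_1693ff_gtE.OStf
import Pool.Agent.H.MP_1693ff_gtE.OBdSt

/-!
# The lower start surfaces as a family
-/

namespace CJ

open Real Set Filter Topology CG CH
open CF hiding St

variable {ι : Type} [TopologicalSpace ι]
variable {E : Type} [NormedAddCommGroup E] [InnerProductSpace ℝ E]

/-- The map `x ↦ (-ω, -η, 1 - t)`. -/
theorem xx_neg {ax : E} {ω η : E} {t : ℝ} (h : (ω, η, t) ∈ XX ax) : (-ω, -η, 1 - t) ∈ XX ax := by
  obtain ⟨h1, h2, h3, h4, h5⟩ := h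
  dsimp only at h1 h2 h3 h4 h5
  refine ⟨h1.neg, ?_, ?_, ?_, ?_⟩
  · show inner ℝ ax (-η) = (0 : ℝ)
    rw [inner_neg_right, h2, neg_zero]
  · show inner ℝ (-ω) (-η) = (0 : ℝ)
    rw [inner_neg_neg, h3]
  · show ‖-η‖ ≤ 1
    rwa [norm_neg]
  · show 1 - t ∈ Icc (0 : ℝ) 1
    exact ⟨by linarith [h5.2], by linarith [h5.1]⟩

/-- `d A(b ax - ω) - b` is decreasing in `b` and `0` for `b = d B ω`. -/
theorem ostf2_aux1 {d : ℝ} {ax : E} {A B : E → ℝ} (D : Bd d ax A B) {ω : E} (hω : Un ax ω)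
    {b : ℝ} (hb : b ≤ d * B ω) : 0 ≤ -b + d * A (b • ax + -ω) := by
  have hd : ∀ x : ℝ, HasDerivAt (fun x : ℝ => -x + d * A (x • ax + -ω))
      (-1 + d * D1 A (x • ax + -ω) ax) x := by
    intro x
    have hγ : HasDerivAt (fun x : ℝ => x • ax + -ω) ax x := by
      simpa using ((hasDerivAt_id x).smul_const ax).add_const (-ω)
    have hA : DifferentiableAt ℝ A ((fun x : ℝ => x • ax + -ω) x) :=
      (D.hA.c _ (ax_ne hω.neg x)).differentiableAt (by norm_num)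
    have h1 := (d1_along hA hγ).const_mul d
    exact (hasDerivAt_id x).neg.add h1
  have hanti : Antitone (fun x : ℝ => -x + d * A (x • ax + -ω)) := by
    refine antitone_of_deriv_nonpos (fun x => (hd x).differentiableAt) fun x => ?_
    rw [(hd x).deriv]
    have := D.sA _ (ax_ne hω.neg x)
    linarith
  have h1 := hanti hb
  dsimp only at h1
  have h2 := D.lB (-ω) (neg_ne_zero.2 ?_)
  · rw [neg_neg, add_comm] at h2
    rw [h2] at h1
    linarith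
  · have := ax_ne hω 0
    rwa [zero_smul, zero_add] at this

/-- `rv` of a continuous family. -/
theorem ostf2_aux2 {X : Type*} [TopologicalSpace X] {S : X → St} {x : X} (h : CS S x)
    (hs : (S x).s ≠ 0) : CS (fun y => rv (S y)) x := by
  have hi : ContinuousAt (fun y => (S y).s⁻¹) x := h.s.inv₀ hs
  exact ⟨h.a.neg, h.α.neg, hi, h.k.mul (hi.pow 3), h.s.mul h.v⟩

/-- `rvT` of a continuous family. -/
theorem ostf2_aux3 {X : Type*} [TopologicalSpace X] {S : X → St} {T : X → Tt} {x : X}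
    (h : CS S x) (hT : CT T x) (hs : (S x).s ≠ 0) : CT (fun y => rvT (S y) (T y)) x := by
  have hi : ContinuousAt (fun y => (S y).s⁻¹) x := h.s.inv₀ hs
  refine ⟨hi.mul hT.κ, ?_, ?_, ?_⟩
  · exact ((h.k.mul hT.κ).mul (hi.pow 3)).sub (hT.ℓ.mul (hi.pow 2))
  · exact ((hT.q.mul hi).sub (((continuousAt_const.mul hT.κ).mul hT.ℓ).mul (hi.pow 2))).add
      ((h.k.mul (hT.κ.pow 2)).mul (hi.pow 3))
  · exact ((h.s.mul hT.w).add hT.κ).neg

/-- Composition with a continuous map. -/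
theorem ostf2_aux4 {X Y : Type*} [TopologicalSpace X] [TopologicalSpace Y] {S : X → St} {g : Y → X}
    {y : Y} (h : CS S (g y)) (hg : ContinuousAt g y) : CS (fun z => S (g z)) y :=
  ⟨h.α.comp hg, h.a.comp hg, h.s.comp hg, h.k.comp hg, h.v.comp hg⟩

/-- Composition with a continuous map. -/
theorem ostf2_aux5 {X Y : Type*} [TopologicalSpace X] [TopologicalSpace Y] {S : X → Tt} {g : Y → X}
    {y : Y} (h : CT S (g y)) (hg : ContinuousAt g y) : CT (fun z => S (g z)) y :=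
  ⟨h.κ.comp hg, h.ℓ.comp hg, h.q.comp hg, h.w.comp hg⟩

/-- The lower start surfaces: `rv`, `rvT` of the upper ones at `(-ω, -η, 1 - t)` (`xx_neg`).
`lim`: `SU = JE d A ax (-ω) a' v'` with `a' = (1-t) a₁(-ω)`; `rv_link`, `rvT_link` with
`a = -a'`: the new `a` is `d A (a' ax - ω) - a'`, which is nonnegative: it is decreasing in `a'`
(`F.bd.sA`) and `0` for `a' = a₁ = d B ω` (`F.bd.lB` at `-ω`).  Continuity: `s ≠ 0` at `i₀`. -/
theorem stf_L {e d : ℝ} {ax : E} {A B : E → ℝ} {Φ Ψ : ι → E → ℝ} {i₀ : ι}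
    (F : Fml e d ax A B Φ Ψ i₀) :
    Stf d ax B (fL e d ax A B Φ Ψ) (fLT e d ax A B Φ Ψ) i₀ := by
  have HU := stf_U F
  have hg : Continuous (fun p : ι × (E × E × ℝ) =>
      ((p.1, (-p.2.1, -p.2.2.1, 1 - p.2.2.2)) : ι × (E × E × ℝ))) := by fun_prop
  have hne : ∀ x ∈ XX ax, (fU e d ax A B Φ Ψ i₀ (-x.1) (1 - x.2.2)).s ≠ 0 := by
    rintro ⟨ω, η, t⟩ hx
    obtain ⟨a, v, w, -, -, hS, -⟩ := HU.lim _ _ _ (xx_neg hx)
    show (fU e d ax A B Φ Ψ i₀ (-ω) (1 - t)).s ≠ 0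
    rw [hS]
    exact (F.bd.sA _ (ax_ne hx.1.neg a)).ne'
  refine ⟨?_, ?_, ?_⟩
  · intro ω η t hx
    have hω : Un ax ω := hx.1
    have ht : t ∈ Icc (0 : ℝ) 1 := hx.2.2.2.2
    have hω0 : ω ≠ 0 := by
      have := ax_ne hω 0
      rwa [zero_smul, zero_add] at this
    obtain ⟨a, v, w, ha, hv, hS, hT⟩ := HU.lim _ _ _ (xx_neg hx)
    have hB : fA e Ψ B i₀ ω = B ω := (fA_jc F.swap).2 ω hω0
    have haa : a = (1 - t) * (d * B ω) := by
      have h1 := congrArg St.a hS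
      have h2 : (fU e d ax A B Φ Ψ i₀ (-ω) (1 - t)).a =
          (1 - t) * (d * fA e Ψ B i₀ (- -ω)) := rfl
      rw [h2, neg_neg, hB] at h1
      exact h1.symm
    have hBp : 0 < d * B ω := mul_pos F.bd.d0 (F.bd.hB.p ω hω0)
    have hle : a ≤ d * B ω := by
      rw [haa]
      nlinarith [ht.1]
    have hpt : -((-a) • ax + ω) = a • ax + -ω := by
      rw [neg_smul]
      abel
    have hv0 : (-a) • ax + ω ≠ 0 := ax_ne hω (-a)
    have hR := rv_link F.bd hv0 v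
    obtain ⟨w', hRT⟩ := rvT_link F.bd η hv0 v w
    rw [neg_neg] at hR hRT
    refine ⟨-a + d * A (-((-a) • ax + ω)), (1 - d * D1 A (-((-a) • ax + ω)) ax) * v, w',
      ?_, ?_, ?_, ?_⟩
    · rw [hpt]
      exact ostf2_aux1 F.bd hω hle
    · exact mul_pos (F.bd.sA _ (neg_ne_zero.2 hv0)) hv
    · show rv (fU e d ax A B Φ Ψ i₀ (-ω) (1 - t)) = _
      rw [hS, hR]
    · show rvT (fU e d ax A B Φ Ψ i₀ (-ω) (1 - t)) (fUT e d ax A B Φ Ψ i₀ (-ω) (-η) (1 - t)) = _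
      rw [hS, hT, hRT]
  · rintro ⟨ω, η, t⟩ hx
    have h1 := ostf2_aux4 (g := fun p : ι × (E × E × ℝ) =>
      ((p.1, (-p.2.1, -p.2.2.1, 1 - p.2.2.2)) : ι × (E × E × ℝ))) (y := (i₀, (ω, η, t)))
      (HU.cs _ (xx_neg hx)) hg.continuousAt
    exact ostf2_aux2 h1 (hne _ hx)
  · rintro ⟨ω, η, t⟩ hx
    have h1 := ostf2_aux4 (g := fun p : ι × (E × E × ℝ) =>
      ((p.1, (-p.2.1, -p.2.2.1, 1 - p.2.2.2)) : ι × (E × E × ℝ))) (y := (i₀, (ω, η, t)))
      (HU.cs _ (xx_neg hx)) hg.continuousAt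
    have h2 := ostf2_aux5 (g := fun p : ι × (E × E × ℝ) =>
      ((p.1, (-p.2.1, -p.2.2.1, 1 - p.2.2.2)) : ι × (E × E × ℝ))) (y := (i₀, (ω, η, t)))
      (HU.ct _ (xx_neg hx)) hg.continuousAt
    exact ostf2_aux3 h1 h2 (hne _ hx)

end CJ
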