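import Pool.Agent.H.MP_1693ff_gtE.OBodyD
import Pool.Agent.H.MP_1693ff_gtE.OBody
import Pool.Agent.H.MP_1693ff_gtC.NFinB

/-!
# The body from the start surfaces
-/

namespace CJ

open Real Set Filter Topology CG CH
open CF hiding St

theorem otop_comb (α θ : ℝ) : cos θ • ev α + sin θ • ev (α + π / 2) = ev (α + θ) := by
  ext i
  fin_cases i
  · simp only [ev, PiLp.add_apply, PiLp.smul_apply, smul_eq_mul]
    simp [Real.cos_add, Real.cos_add_pi_div_two]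
    ring
  · simp only [ev, PiLp.add_apply, PiLp.smul_apply, smul_eq_mul]
    simp [Real.sin_add, Real.sin_add_pi_div_two]
    ring

theorem otop_un (α : ℝ) : Un (ev α) (ev (α + π / 2)) where
  n1 := nfinb_norm_ev _
  o1 := by
    simp only [ev, PiLp.inner_apply, Fin.sum_univ_two]
    simp [Real.cos_add_pi_div_two, Real.sin_add_pi_div_two]
    ring

/-- Dimension two.  `ax = ev θ₀` (`nfinb_exists`), `ω = ev (θ₀ + π/2)`, so
`pl H ax ω θ = H (ev (θ₀ + θ))`; `body_of_HK` for `F.hk ω` and `(F.hk (-ω)).swap` (`pl_neg`),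
`F.m1 ω`, `F.m2 ω` gives a body for `(θ ↦ (d H₁ (ev (θ₀ + θ)))^e, ...)` at `0`, `ev 0`;
`pairI_rot` (with `d = 1`) rotates it; every unit vector is some `ev θ`. -/
theorem top_two {e d : ℝ} {H₁ H₂ : EuclideanSpace ℝ (Fin 2) → ℝ}
    {ax : EuclideanSpace ℝ (Fin 2)} (hax : ‖ax‖ = 1)
    {U L : EuclideanSpace ℝ (Fin 2) → ℝ → St} (F : SF e d H₁ H₂ ax U L)
    (pos₁ : ∀ u, ‖u‖ = 1 → 0 < H₁ u) (pos₂ : ∀ u, ‖u‖ = 1 → 0 < H₂ u) :
    ∃ K : Set (EuclideanSpace ℝ (Fin 2)),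
      PairE (-e) (fun u => (d * H₁ u) ^ e) (fun u => (d * H₂ u) ^ e) K 0 ax := by
  obtain ⟨θ₀, rfl⟩ := nfinb_exists ax hax
  have hω := otop_un θ₀
  have e1 : ∀ (H : EuclideanSpace ℝ (Fin 2) → ℝ) (θ : ℝ),
      pl H (ev θ₀) (ev (θ₀ + π / 2)) θ = H (ev (θ₀ + θ)) := by
    intro H θ
    unfold pl
    rw [otop_comb]
  have D := F.hk _ hω
  have D' := (F.hk _ hω.neg).swap
  rw [pl_neg, pl_neg] at D'
  obtain ⟨K, hK⟩ := body_of_HK D D' (F.m1 _ hω) (F.m2 _ hω)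
    (fun θ => by rw [e1]; exact pos₁ _ (nfinb_norm_ev _))
    (fun θ => by rw [e1]; exact pos₂ _ (nfinb_norm_ev _))
  have hK2 : PairI (-e) (fun θ => (fun θ => (d * H₁ (ev θ)) ^ e) (θ₀ + θ))
      (fun θ => (fun θ => (d * H₂ (ev θ)) ^ e) (θ₀ + θ)) K 0 ((1 : ℝ) • ev 0) := by
    rw [one_smul]
    simp only [e1] at hK
    exact hK
  obtain ⟨K', hK', h1, h2, h3, h4⟩ := pairI_rot (i := -e) (α := θ₀) (d := 1)
    (f₁ := fun θ => (d * H₁ (ev θ)) ^ e) (f₂ := fun θ => (d * H₂ (ev θ)) ^ e) hK2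
  rw [one_smul] at h2 h4
  refine ⟨K', hK', h1, h2, fun u hu => ?_, fun u hu => ?_⟩
  · obtain ⟨θ, rfl⟩ := nfinb_exists u hu
    exact h3 θ
  · obtain ⟨θ, rfl⟩ := nfinb_exists u hu
    exact h4 θ

/-- All dimensions: `exists_bodyG` with `exists_frame` for `n ≥ 3`, `top_two` for `n = 2`. -/
theorem top_all {n : ℕ} (hn : 2 ≤ n) {e d : ℝ} {H₁ H₂ : EuclideanSpace ℝ (Fin n) → ℝ}
    {ax : EuclideanSpace ℝ (Fin n)} (hax : ‖ax‖ = 1)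
    {U L : EuclideanSpace ℝ (Fin n) → ℝ → St} (F : SF e d H₁ H₂ ax U L)
    (D : S3 e d H₁ H₂ ax U L) (ev₁ : ∀ u, H₁ (-u) = H₁ u) (ev₂ : ∀ u, H₂ (-u) = H₂ u)
    (pos₁ : ∀ u, ‖u‖ = 1 → 0 < H₁ u) (pos₂ : ∀ u, ‖u‖ = 1 → 0 < H₂ u) :
    ∃ K : Set (EuclideanSpace ℝ (Fin n)),
      PairE (-e) (fun u => (d * H₁ u) ^ e) (fun u => (d * H₂ u) ^ e) K 0 ax := by
  rcases eq_or_lt_of_le hn with h2 | h3
  · subst h2
    exact top_two hax F pos₁ pos₂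
  · obtain ⟨hf, ω, hω⟩ := exists_frame (n := n) h3 hax
    haveI : Nontrivial (EuclideanSpace ℝ (Fin n)) := by
      refine ⟨⟨0, ax, ?_⟩⟩
      intro h
      rw [← h, norm_zero] at hax
      exact zero_ne_one hax
    have hfr : ∀ ω, Un ax ω → ∃ η, Fm ax ω η := by
      intro ω hω
      obtain ⟨η, hη⟩ := hf ω ⟨hω.n1, hω.o1⟩
      exact ⟨η, hax, hω, ⟨hη.h.n1, hη.h.o1⟩, hη.o⟩
    have hex : ∃ ω, Un ax ω := ⟨ω, hω.n1, hω.o1⟩
    obtain ⟨K, k1, k2, k3, k4, k5⟩ := exists_bodyG hax hfr hex F D ev₁ ev₂ pos₁ pos₂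
    exact ⟨K, k1, k2, k3, k4, k5⟩

end CJ
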