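import Pool.Agent.H.MP_1693ff_gtE.OVA
import Pool.Agent.H.MP_1693ff_gtE.OJCc

/-!
# The gauge function above the centres: properties
-/

namespace CJ

open Real Set Filter Topology CG CH
open CF hiding St

variable {ι : Type} [TopologicalSpace ι]
variable {E : Type} [NormedAddCommGroup E] [InnerProductSpace ℝ E]

/-- Compactness of the sphere: near every `(i₀, v)`, `v ≠ 0`: the base
`(Φ^e + A^e - A(-)^e)/2` is positive, `VA` is `C³`, `VA > 0` and `1 - d D1 VA ax > 0`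
(`va_jc`, `va_i0`: at `i₀` these are `A v > 0`, `D.sA`); by compactness of the unit sphere
(`IsCompact.eventually_forall_of_forall_eventually`) for `i` near `i₀` and all unit vectors; by
homogeneity (`va_ho`, `ho_d1`, `ho_cd`) for all `v ≠ 0`.  `r`: `Φ i (-v) = Φ i v`, sum of the
two bases is `Φ^e`. -/
theorem va_good [FiniteDimensional ℝ E] {e d : ℝ} {ax : E} (he : 1 ≤ e) {Φ : ι → E → ℝ}
    {A B : E → ℝ} {i₀ : ι} (D : Bd d ax A B) (hΦ : ∀ i, Hg (Φ i)) (eΦ : ∀ i v, Φ i (-v) = Φ i v)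
    (ho : ∀ v, v ≠ 0 → Φ i₀ v ^ e = A v ^ e + A (-v) ^ e) (j : ∀ v, v ≠ 0 → JC i₀ v 3 Φ) :
    ∀ᶠ i in 𝓝 i₀, VG e d ax (Φ i) (VA e (Φ i) A) := by
  have hA := D.hA
  have ePos : 0 < e := by linarith
  have hVA : ∀ v, v ≠ 0 → JC i₀ v 3 (fun i => VA e (Φ i) A) := fun v hv =>
    va_jc he hΦ hA ho hv (j v hv)
  have hi0 : ∀ v, v ≠ 0 → VA e (Φ i₀) A v = A v := fun v hv => va_i0 he hA ho hv
  have hloc : ∀ y ∈ Metric.sphere (0 : E) 1, ∀ᶠ z : ι × E in 𝓝 (i₀, y),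
      (ContDiffAt ℝ 3 (VA e (Φ z.1) A) z.2 ∧ 0 < VA e (Φ z.1) A z.2 ∧
        0 < 1 - d * D1 (VA e (Φ z.1) A) z.2 ax ∧
        0 < (Φ z.1 z.2 ^ e + A z.2 ^ e - A (-z.2) ^ e) / 2) := by
    intro y hy
    have hy0 : y ≠ 0 := by rintro rfl; simp at hy
    have Jy := hVA y hy0
    have c1 : ContinuousAt (fun p : ι × E => VA e (Φ p.1) A p.2) (i₀, y) := Jy.2.c0
    have c2 : ContinuousAt (fun p : ι × E => D1 (VA e (Φ p.1) A) p.2 ax) (i₀, y) :=
      (JC.d1 (k := 2) Jy ax).2.c0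
    have v1 : 0 < VA e (Φ i₀) A y := by rw [hi0 y hy0]; exact hA.p y hy0
    have v2 : 0 < 1 - d * D1 (VA e (Φ i₀) A) y ax := by
      have h1 : D1 (VA e (Φ i₀) A) y ax = D1 A y ax := by
        unfold D1
        have h2 : VA e (Φ i₀) A =ᶠ[𝓝 y] A := by
          filter_upwards [isOpen_ne.mem_nhds hy0] with u hu
          exact hi0 u hu
        rw [h2.fderiv_eq]
      rw [h1]; exact D.sA y hy0
    have hs : ContinuousAt (fun p : ι × E => p.2) (i₀, y) := continuousAt_snd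
    have c3 : ContinuousAt (fun p : ι × E => (Φ p.1 p.2 ^ e + A p.2 ^ e - A (-p.2) ^ e) / 2)
        (i₀, y) := by
      have a1 : ContinuousAt (fun p : ι × E => Φ p.1 p.2) (i₀, y) := (j y hy0).2.c0
      have a2 : ContinuousAt (fun p : ι × E => A p.2) (i₀, y) :=
        ContinuousAt.comp (f := fun p : ι × E => p.2) (g := A) (x := (i₀, y))
          (hA.c y hy0).continuousAt hs
      have a3 : ContinuousAt (fun p : ι × E => A (-p.2)) (i₀, y) :=
        ContinuousAt.comp (f := fun p : ι × E => -p.2) (g := A) (x := (i₀, y))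
          (hA.c (-y) (neg_ne_zero.2 hy0)).continuousAt hs.neg
      exact (((a1.rpow_const (Or.inr ePos.le)).add (a2.rpow_const (Or.inr ePos.le))).sub
        (a3.rpow_const (Or.inr ePos.le))).div_const 2
    have v3 : 0 < (Φ i₀ y ^ e + A y ^ e - A (-y) ^ e) / 2 := by
      rw [ho y hy0]
      have := Real.rpow_pos_of_pos (hA.p y hy0) e
      linarith
    have c2' : ContinuousAt (fun p : ι × E => 1 - d * D1 (VA e (Φ p.1) A) p.2 ax) (i₀, y) :=
      continuousAt_const.sub (continuousAt_const.mul c2)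
    filter_upwards [Jy.1, c1.eventually (lt_mem_nhds v1), c2'.eventually (lt_mem_nhds v2),
      c3.eventually (lt_mem_nhds v3)] with p p1 p2 p3 p4
    exact ⟨by exact_mod_cast p1, p2, p3, p4⟩
  have hcomp : IsCompact (Metric.sphere (0 : E) 1) := isCompact_sphere 0 1
  have hall := hcomp.eventually_forall_of_forall_eventually (x₀ := i₀)
    (P := fun (i : ι) (u : E) => ContDiffAt ℝ 3 (VA e (Φ i) A) u ∧ 0 < VA e (Φ i) A u ∧
      0 < 1 - d * D1 (VA e (Φ i) A) u ax ∧ 0 < (Φ i u ^ e + A u ^ e - A (-u) ^ e) / 2) hloc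
  filter_upwards [hall] with i hi
  have hHo : Ho (VA e (Φ i) A) := va_ho he (hΦ i) hA
  have hsc : ∀ v : E, v ≠ 0 → ∃ c : ℝ, c > 0 ∧ ∃ u ∈ Metric.sphere (0 : E) 1, v = c • u := by
    intro v hv
    have hn : 0 < ‖v‖ := norm_pos_iff.2 hv
    refine ⟨‖v‖, hn, ‖v‖⁻¹ • v, ?_, ?_⟩
    · rw [mem_sphere_zero_iff_norm, norm_smul, norm_inv, norm_norm]
      exact inv_mul_cancel₀ hn.ne'
    · rw [smul_smul, mul_inv_cancel₀ hn.ne', one_smul]
  have hneg : ∀ u ∈ Metric.sphere (0 : E) 1, -u ∈ Metric.sphere (0 : E) 1 := by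
    intro u hu
    rw [mem_sphere_zero_iff_norm] at hu ⊢
    rw [norm_neg, hu]
  have hpow : ∀ u ∈ Metric.sphere (0 : E) 1,
      VA e (Φ i) A u ^ e = (Φ i u ^ e + A u ^ e - A (-u) ^ e) / 2 := by
    intro u hu
    unfold VA
    rw [← Real.rpow_mul (hi u hu).2.2.2.le, inv_mul_cancel₀ ePos.ne', Real.rpow_one]
  have hpos : ∀ v, v ≠ 0 → 0 < VA e (Φ i) A v := by
    intro v hv
    obtain ⟨c, hc, u, hu, rfl⟩ := hsc v hv
    rw [hHo c hc u]
    exact mul_pos hc (hi u hu).2.1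
  refine ⟨⟨hHo, hpos, ?_⟩, ?_, ?_⟩
  · intro v hv
    obtain ⟨c, hc, u, hu, rfl⟩ := hsc v hv
    have h1 := (hi u hu).1
    exact ho_cd (k := 3) hHo hc h1
  · intro v hv
    obtain ⟨c, hc, u, hu, rfl⟩ := hsc v hv
    have hu0 : u ≠ 0 := by rintro rfl; simp at hu
    have e1 : -(c • u) = c • (-u) := (smul_neg c u).symm
    rw [e1, hHo c hc u, hHo c hc (-u), (hΦ i).h c hc u,
      Real.mul_rpow hc.le (hpos u hu0).le, Real.mul_rpow hc.le (hpos (-u) (neg_ne_zero.2 hu0)).le,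
      Real.mul_rpow hc.le ((hΦ i).p u hu0).le, hpow u hu, hpow (-u) (hneg u hu), neg_neg, eΦ i u]
    ring
  · intro v hv
    obtain ⟨c, hc, u, hu, rfl⟩ := hsc v hv
    rw [ho_d1 hHo hc ((hi u hu).1.differentiableAt (by norm_num)) ax]
    exact (hi u hu).2.2.1

end CJ
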