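import Pool.Agent.H.MP_1693ff_gtE.ONear
import Pool.Agent.H.MP_1693ff_gtE.OStf2
import Pool.Agent.H.MP_1693ff_gtE.OCst
import Pool.Agent.H.MP_1693ff_gtE.OVB
import Pool.Agent.H.MP_1693ff_gtE.OHK
import Pool.Agent.H.MP_1693ff_gtE.OProfF
import Pool.Agent.H.MP_1693ff_gtE.OReg2
import Pool.Agent.H.MP_1693ff_gtE.ORv
import Pool.Agent.H.MP_1693ff_gtE.OJu
import Pool.Agent.H.MP_1693ff_gtE.OJu2
import Pool.Agent.H.MP_1693ff_gtE.OTop

/-!
# Bodies for the nearby pairs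
-/

namespace CJ

open Real Set Filter Topology CG CH
open CF hiding St

noncomputable section

variable {E : Type} [NormedAddCommGroup E] [InnerProductSpace ℝ E]
variable {ι : Type} [TopologicalSpace ι]

/-- All facts hold for all nearby indices. -/
theorem gi_ev [FiniteDimensional ℝ E] {e d : ℝ} {ax : E} {A B : E → ℝ} {Φ Ψ : ι → E → ℝ}
    {i₀ : ι} (F : Fml e d ax A B Φ Ψ i₀) :
    ∃ c C : ℝ, 0 < c ∧ ∀ᶠ i in 𝓝 i₀, Gi e d c C ax A B Φ Ψ i := by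
  obtain ⟨c, C, K⟩ := cst F
  refine ⟨c, C, K.c0, ?_⟩
  filter_upwards [va_good F.e1 F.bd F.hΦ F.eΦ F.oΦ F.jΦ,
    va_good F.e1 F.bd.swap F.hΨ F.eΨ F.oΨ F.jΨ, near_all F (stf_U F) K,
    near_all F.swap (stf_L F) K.swap] with i h1 h2 h3 h4
  exact ⟨h1, h2, h3, h4⟩

/-- Points with second coordinate `0`. -/
theorem xx_mem0 {ax ω : E} (hω : Un ax ω) {t : ℝ} (ht : t ∈ Icc (0 : ℝ) 1) :
    (ω, (0 : E), t) ∈ XX ax :=
  ⟨hω, inner_zero_right _, inner_zero_right _, by simp, ht⟩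

/-- Frames. -/
theorem xx_fm {ax ω η : E} (h : Fm ax ω η) {t : ℝ} (ht : t ∈ Icc (0 : ℝ) 1) :
    (ω, η, t) ∈ XX ax :=
  ⟨h.w, h.h.o1, h.o, h.h.n1.le, ht⟩

/-- The points of the start surface are off the axis. -/
theorem xi_off {ax ω : E} (hax : ‖ax‖ = 1) (hω : Un ax ω) (a : ℝ) :
    xi ax (a • ax + ω) ≠ 0 := by
  have h1 : xi ax (a • ax + ω) = ω := by
    unfold xi
    rw [inner_add_right, inner_smul_right, real_inner_self_eq_norm_sq, hax, hω.o1]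
    norm_num
  rw [h1]
  intro h0
  have := hω.n1
  rw [h0, norm_zero] at this
  exact zero_ne_one this

variable {e d c C : ℝ} {ax : E} {A B : E → ℝ} {Φ Ψ : ι → E → ℝ} {i : ι}

/-- `W` is `C²` at the points of the start surface. -/
theorem gi_cW (D : Bd d ax A B) (G : Gi e d c C ax A B Φ Ψ i) {ω : E} (hω : Un ax ω) (a : ℝ) :
    ContDiffAt ℝ 2 (fW e d ax A B Φ Ψ i) (a • ax + ω) :=
  ww_cd D.d0 D.a1 D.hA G.vA G.vB (xi_off D.a1 hω a)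

/-- `a₁` is `C¹`. -/
theorem gi_ca (G : Gi e d c C ax A B Φ Ψ i) {ω : E} (hω : Un ax ω) :
    ContDiffAt ℝ 1 (fa e d B Ψ i) ω := by
  have h0 : -ω ≠ 0 := by
    intro h
    have := hω.n1
    rw [neg_eq_zero.1 h, norm_zero] at this
    exact zero_ne_one this
  have h1 : ContDiffAt ℝ 3 (fA e Ψ B i) (-ω) := G.vB.hg.c _ h0
  have h2 : ContDiffAt ℝ 3 (fun ω : E => fA e Ψ B i (-ω)) ω :=
    ContDiffAt.comp ω h1 contDiff_neg.contDiffAt
  have h3 : ContDiffAt ℝ 3 (fun ω : E => d * fA e Ψ B i (-ω)) ω := contDiffAt_const.mul h2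
  exact h3.of_le (by norm_num)

/-- The slope on the start surface is positive. -/
theorem gi_s (hc : 0 < c) (G : Gi e d c C ax A B Φ Ψ i) {ω : E} (hω : Un ax ω) {t : ℝ}
    (ht : t ∈ Icc (0 : ℝ) 1) :
    0 < (SU d ax (fW e d ax A B Φ Ψ i) (fa e d B Ψ i) ω t).s := by
  have h := (G.U _ (xx_mem0 hω ht) 0).1.s0
  exact hc.trans h

/-- **The start arcs in all half planes.** -/
theorem gi_sf (he : 1 ≤ e) (hc : 0 < c) (D : Bd d ax A B) (hΦ : Hg (Φ i)) (hΨ : Hg (Ψ i))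
    (eΦ : ∀ v, Φ i (-v) = Φ i v) (eΨ : ∀ v, Ψ i (-v) = Ψ i v)
    (G : Gi e d c C ax A B Φ Ψ i) :
    SF e d (Φ i) (Ψ i) ax (fU e d ax A B Φ Ψ i) (fL e d ax A B Φ Ψ i) := by
  have hd := D.d0
  have hax := D.a1
  refine ⟨fun ω hω => ?_, fun ω _ => mir1 ω, fun ω _ => mir2 ω⟩
  have p1 := pf_pl hΦ hax hω
  have p2 := pf_pl hΨ hax hω
  obtain ⟨-, -, a0, a0'⟩ := su_a0 hd hax D.hA G.vA G.vB hω
  refine hk_of_cd (c := c) (C := C) he hd hc (pl_per eΦ ax ω) (pl_per eΨ ax ω)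
    ((pl_c3 hΦ hax hω).of_le (by norm_num)) ((pl_c3 hΨ hax hω).of_le (by norm_num))
    (su_rg fun t _ => gi_cW D G hω _) ?_ a0 (a0' fun t ht => gi_s hc G hω.neg ht) ?_ ?_ ?_ ?_
  · exact rv_rg (su_rg fun t _ => gi_cW D G hω.neg _) fun t ht => (gi_s hc G hω.neg ht).ne'
  · intro t ht n
    have h := (G.U _ (xx_mem0 hω ht) n).1
    unfold chn
    rw [p1, p2]
    exact h
  · intro t ht n
    have h := (G.L _ (xx_mem0 hω ht) n).1
    unfold chn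
    rw [p1, p2]
    exact h
  · rw [p2]
    exact jun1 he hd hax D.hA hΦ hΨ G.vA G.vB hω
  · rw [p1]
    exact jun2 he hd hax D.hA hΦ hΨ G.vA G.vB hω

/-- **The start surfaces for all frames.** -/
theorem gi_s3 (he : 1 ≤ e) (hc : 0 < c) (D : Bd d ax A B) (hΦ : Hg (Φ i)) (hΨ : Hg (Ψ i))
    (eΦ : ∀ v, Φ i (-v) = Φ i v) (eΨ : ∀ v, Ψ i (-v) = Ψ i v)
    (G : Gi e d c C ax A B Φ Ψ i) :
    S3 e d (Φ i) (Ψ i) ax (fU e d ax A B Φ Ψ i) (fL e d ax A B Φ Ψ i) := by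
  have hd := D.d0
  have hax := D.a1
  have SFi := gi_sf he hc D hΦ hΨ eΦ eΨ G
  intro ω η F
  have hF := F.neg
  have hm : ∀ r, Un ax (ro ω η r) := F.ro
  have hm' : ∀ r, Un ax (ro (-ω) (-η) r) := hF.ro
  have r1 : ∀ r, ro (-ω) (-η) r = -ro ω η r := fun r => ro_neg ω η r
  have r2 : ∀ r, ro (-η) (-(-ω)) r = -ro η (-ω) r := fun r => ro_neg η (-ω) r
  have cU : ∀ t r, C13 (fun p : ℝ × ℝ => SU d ax (fW e d ax A B Φ Ψ i) (fa e d B Ψ i)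
      (ro ω η p.2) p.1) (fun p : ℝ × ℝ => TU d ax (fW e d ax A B Φ Ψ i) (fa e d B Ψ i)
      (ro ω η p.2) (ro η (-ω) p.2) p.1) (t, r) :=
    fun t r => us_c13 (gi_cW D G (hm r) _) (gi_ca G (hm r))
  have cL : ∀ t r, C13 (fun p : ℝ × ℝ => SU d ax (fW e d ax A B Φ Ψ i) (fa e d B Ψ i)
      (ro (-ω) (-η) p.2) p.1) (fun p : ℝ × ℝ => TU d ax (fW e d ax A B Φ Ψ i) (fa e d B Ψ i)
      (ro (-ω) (-η) p.2) (ro (-η) (-(-ω)) p.2) p.1) (t, r) :=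
    fun t r => us_c13 (gi_cW D G (hm' r) _) (gi_ca G (hm' r))
  simp only [r1, r2] at cL
  have sL : ∀ t ∈ Icc (0 : ℝ) 1, ∀ r, (SU d ax (fW e d ax A B Φ Ψ i) (fa e d B Ψ i)
      (-ro ω η r) (1 - t)).s ≠ 0 := fun t ht r =>
    (gi_s hc G (hm r).neg ⟨by linarith [ht.2], by linarith [ht.1]⟩).ne'
  have evL : ∀ t ∈ Icc (0 : ℝ) 1, ∀ r, ∀ᶠ p : ℝ × ℝ in 𝓝 (t, r),
      ContDiffAt ℝ 2 (fW e d ax A B Φ Ψ i)
        (((1 - p.1) * fa e d B Ψ i (-ro ω η p.2)) • ax + -ro ω η p.2) ∧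
      ContDiffAt ℝ 1 (fa e d B Ψ i) (-ro ω η p.2) ∧
      (SU d ax (fW e d ax A B Φ Ψ i) (fa e d B Ψ i) (-ro ω η p.2) (1 - p.1)).s ≠ 0 := by
    intro t ht r
    have h1 := us_ev (ax := ax) (gi_cW D G (hm' r) ((1 - t) * fa e d B Ψ i (ro (-ω) (-η) r)))
      (gi_ca G (hm' r))
    simp only [r1] at h1
    have h2 : ∀ᶠ p : ℝ × ℝ in 𝓝 (1 - t, r),
        (SU d ax (fW e d ax A B Φ Ψ i) (fa e d B Ψ i) (-ro ω η p.2) p.1).s ≠ 0 :=
      (cL (1 - t) r).cs.continuousAt.eventually_ne (sL t ht r)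
    have h3 : Tendsto (fun p : ℝ × ℝ => (1 - p.1, p.2)) (𝓝 (t, r)) (𝓝 (1 - t, r)) :=
      (Continuous.prodMk (continuous_const.sub continuous_fst) continuous_snd).tendsto (t, r)
    filter_upwards [h3.eventually h1, h3.eventually h2] with p q1 q2
    exact ⟨q1.1, q1.2, q2⟩
  refine ⟨fun t r => fUT e d ax A B Φ Ψ i (ro ω η r) (ro η (-ω) r) t,
    fun t r => fLT e d ax A B Φ Ψ i (ro ω η r) (ro η (-ω) r) t, ?_⟩
  refine { hk := fun r => SFi.hk _ (hm r), ph := pj_hf hΦ F, pk := pj_hf hΨ F, c := ?_, c' := ?_,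
           st := ?_, sr := ?_, st' := ?_, sr' := ?_, pos := ?_, pos' := ?_, z := ?_, z' := ?_ }
  · exact fun t _ r => cU t r
  · intro t ht r
    exact rv_c13 (cL (1 - t) r) (sL t ht r)
  · intro t _ r
    filter_upwards [us_ev (ax := ax) (gi_cW D G (hm r) (t * fa e d B Ψ i (ro ω η r)))
      (gi_ca G (hm r))] with p hp
    exact us_t hp.1
  · intro t _ r
    filter_upwards [us_ev (ax := ax) (gi_cW D G (hm r) (t * fa e d B Ψ i (ro ω η r)))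
      (gi_ca G (hm r))] with p hp
    exact us_r (ww_ho hd hax D.hA G.vA G.vB) hp.1 hp.2
  · intro t ht r
    filter_upwards [evL t ht r] with p hp
    exact rv_t (S := fun t => SU d ax (fW e d ax A B Φ Ψ i) (fa e d B Ψ i) (-ro ω η p.2) t)
      (T := fun t => TU d ax (fW e d ax A B Φ Ψ i) (fa e d B Ψ i) (-ro ω η p.2)
        (-ro η (-ω) p.2) t) (us_t hp.1) hp.2.2
  · intro t ht r
    filter_upwards [evL t ht r] with p hp
    have h := us_r (d := d) (W := fW e d ax A B Φ Ψ i) (a₁ := fa e d B Ψ i) (ax := ax)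
      (ω := -ω) (η := -η) (t := 1 - p.1) (r := p.2) (ww_ho hd hax D.hA G.vA G.vB)
      (by rw [r1]; exact hp.1) (by rw [r1]; exact hp.2.1)
    simp only [r1, r2] at h
    exact rv_r (S := fun r => SU d ax (fW e d ax A B Φ Ψ i) (fa e d B Ψ i) (-ro ω η r) (1 - p.1))
      (T := fun r => TU d ax (fW e d ax A B Φ Ψ i) (fa e d B Ψ i) (-ro ω η r)
        (-ro η (-ω) r) (1 - p.1)) h hp.2.2
  · intro r t ht n z ρ
    refine pd_bf ?_ z ρ
    have h := (G.U _ (xx_fm (fm_ro F r) ht) n).2 (fm_ro F r).h.n1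
    unfold chn3 chn
    rw [pt_hf hΦ F, pt_hf hΨ F]
    show PD (cS e d (pf (pl (Φ i) ax (ro ω η r))) (pf (pl (Ψ i) ax (ro ω η r))) _ n)
      (cT e d (pf (pl (Φ i) ax (ro ω η r))) (pf (pl (Ψ i) ax (ro ω η r))) _ _ _ _ n)
    rw [pf_pl hΦ hax (hm r), pf_pl hΨ hax (hm r)]
    exact h
  · intro r t ht n z ρ
    refine pd_bf ?_ z ρ
    have h := (G.L _ (xx_fm (fm_ro F r) ht) n).2 (fm_ro F r).h.n1
    unfold chn3 chn
    rw [pt_hf hΦ F, pt_hf hΨ F]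
    show PD (cS e d (pf (pl (Ψ i) ax (ro ω η r))) (pf (pl (Φ i) ax (ro ω η r))) _ n)
      (cT e d (pf (pl (Ψ i) ax (ro ω η r))) (pf (pl (Φ i) ax (ro ω η r))) _ _ _ _ n)
    rw [pf_pl hΦ hax (hm r), pf_pl hΨ hax (hm r)]
    exact h
  · exact fun r => (su_a0 hd hax D.hA G.vA G.vB (hm r)).1
  · exact fun r => (su_a0 hd hax D.hA G.vA G.vB (hm r)).2.1

end

end CJ
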