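import Pool.Agent.H.MP_1693ff_gtE.OE
import Pool.Agent.H.MP_1693ff_gtC.NFin
import Pool.Agent.H.MP_1693ff_gtD.MQD

/-!
# Isometries
-/

namespace CJ

open Real Set Filter Topology CG CH
open CF hiding St
open CI (EvC qf)

theorem omva_radial {n : ℕ} {K : Set (EuclideanSpace ℝ (Fin n))} {p : EuclideanSpace ℝ (Fin n)}
    (R : EuclideanSpace ℝ (Fin n) ≃ₗᵢ[ℝ] EuclideanSpace ℝ (Fin n))
    (u : EuclideanSpace ℝ (Fin n)) : radial (R '' K) (R p) u = radial K p (R.symm u) := by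
  unfold radial
  congr 1
  ext c
  have e : R p + c • u = R (p + c • R.symm u) := by
    rw [map_add, map_smul, LinearIsometryEquiv.apply_symm_apply]
  constructor
  · rintro ⟨h0, h1⟩
    refine ⟨h0, ?_⟩
    rw [e] at h1
    obtain ⟨k, hk, hk2⟩ := h1
    rwa [← R.injective hk2]
  · rintro ⟨h0, h1⟩
    refine ⟨h0, ?_⟩
    rw [e]
    exact ⟨_, h1, rfl⟩

theorem omva_chord {n : ℕ} {i : ℝ} {K : Set (EuclideanSpace ℝ (Fin n))}
    {p : EuclideanSpace ℝ (Fin n)}
    (R : EuclideanSpace ℝ (Fin n) ≃ₗᵢ[ℝ] EuclideanSpace ℝ (Fin n))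
    (u : EuclideanSpace ℝ (Fin n)) : chord i (R '' K) (R p) u = chord i K p (R.symm u) := by
  unfold chord
  rw [omva_radial, omva_radial, map_neg]

/-- Isometric image of a pair: `R p + c R u = R (p + c u)`, so
`radial (R '' K) (R p) u = radial K p (R.symm u)`. -/
theorem pairE_rot {n : ℕ} {i : ℝ} {f₁ f₂ : EuclideanSpace ℝ (Fin n) → ℝ}
    {K : Set (EuclideanSpace ℝ (Fin n))} {p₁ p₂ : EuclideanSpace ℝ (Fin n)}
    (R : EuclideanSpace ℝ (Fin n) ≃ₗᵢ[ℝ] EuclideanSpace ℝ (Fin n))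
    (h : PairE i f₁ f₂ K p₁ p₂) :
    PairE i (fun u => f₁ (R.symm u)) (fun u => f₂ (R.symm u)) (R '' K) (R p₁) (R p₂) := by
  obtain ⟨hb, h1, h2, h3, h4⟩ := h
  have hint : interior (R '' K) = R '' interior K := (R.toHomeomorph.image_interior K).symm
  refine ⟨?_, ?_, ?_, ?_, ?_⟩
  · obtain ⟨c1, c2, c3⟩ := hb
    refine ⟨?_, ?_, ?_⟩
    · first
        | exact c1.is_linear_image R.toLinearEquiv.toLinearMap.isLinear
        | exact c1.image R.continuous
        | (rw [hint]; exact c1.image _)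
    · first
        | exact c2.is_linear_image R.toLinearEquiv.toLinearMap.isLinear
        | exact c2.image R.continuous
        | (rw [hint]; exact c2.image _)
    · first
        | exact c3.is_linear_image R.toLinearEquiv.toLinearMap.isLinear
        | exact c3.image R.continuous
        | (rw [hint]; exact c3.image _)
  · rw [hint]; exact ⟨_, h1, rfl⟩
  · rw [hint]; exact ⟨_, h2, rfl⟩
  · intro u hu
    rw [omva_chord]
    exact h3 _ (by rw [LinearIsometryEquiv.norm_map, hu])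
  · intro u hu
    rw [omva_chord]
    exact h4 _ (by rw [LinearIsometryEquiv.norm_map, hu])

/-- Composition with an isometry. -/
theorem evc_rot {n : ℕ} {N : WithTop ℕ∞} {g : EuclideanSpace ℝ (Fin n) → ℝ} (h : EvC N g)
    (c : ℝ) (R : EuclideanSpace ℝ (Fin n) ≃ₗᵢ[ℝ] EuclideanSpace ℝ (Fin n)) :
    EvC N (fun x => c * g (R x)) := by
  refine ⟨fun t ht u => ?_, ?_⟩
  · show c * g (R (t • u)) = c * g (R u)
    rw [map_smul, h.hom t ht]
  · have h1 : ContDiffOn ℝ N (fun x => g (R x)) {0}ᶜ := by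
      refine h.c.comp (R.contDiff.contDiffOn) ?_
      intro x hx h2
      apply hx
      rw [mem_singleton_iff] at h2 ⊢
      exact (map_eq_zero_iff R R.injective).1 h2
    exact contDiffOn_const.mul h1

/-- Chain rule, twice. -/
theorem qf_rot {n : ℕ} {g : EuclideanSpace ℝ (Fin n) → ℝ} (h : EvC 2 g)
    (c : ℝ) (R : EuclideanSpace ℝ (Fin n) ≃ₗᵢ[ℝ] EuclideanSpace ℝ (Fin n))
    {u : EuclideanSpace ℝ (Fin n)} (hu : u ≠ 0) (w : EuclideanSpace ℝ (Fin n)) :
    qf (fun x => c * g (R x)) u w = c * qf g (R u) (R w) := by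
  have hgc : ∀ v : EuclideanSpace ℝ (Fin n), v ≠ 0 → ContDiffAt ℝ 2 g v := fun v hv =>
    h.c.contDiffAt (isOpen_compl_singleton.mem_nhds hv)
  have hRu : R u ≠ 0 := fun h0 => hu ((map_eq_zero_iff R R.injective).1 h0)
  have hRc : ∀ x, HasFDerivAt (fun x => R x)
      (R.toContinuousLinearEquiv : EuclideanSpace ℝ (Fin n) →L[ℝ] EuclideanSpace ℝ (Fin n)) x :=
    fun x => R.toContinuousLinearEquiv.hasFDerivAt
  have hev : fderiv ℝ (fun x => c * g (R x)) =ᶠ[𝓝 u] fun x => c • (fderiv ℝ g (R x)).comp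
      (R.toContinuousLinearEquiv : EuclideanSpace ℝ (Fin n) →L[ℝ] EuclideanSpace ℝ (Fin n)) := by
    filter_upwards [isOpen_compl_singleton.mem_nhds hu] with x hx
    have hRx : R x ≠ 0 := fun h0 => hx ((map_eq_zero_iff R R.injective).1 h0)
    have h1 : HasFDerivAt g (fderiv ℝ g (R x)) (R x) :=
      ((hgc _ hRx).differentiableAt (by norm_num)).hasFDerivAt
    exact ((h1.comp x (hRc x)).const_mul c).fderiv
  have h2 : HasFDerivAt (fderiv ℝ g) (fderiv ℝ (fderiv ℝ g) (R u)) (R u) :=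
    (((hgc _ hRu).fderiv_right (m := 1) (by norm_num)).differentiableAt
      (by norm_num)).hasFDerivAt
  have h3 := h2.comp u (hRc u)
  have h4 := (((ContinuousLinearMap.compL ℝ (EuclideanSpace ℝ (Fin n))
    (EuclideanSpace ℝ (Fin n)) ℝ).flip (R.toContinuousLinearEquiv :
      EuclideanSpace ℝ (Fin n) →L[ℝ] EuclideanSpace ℝ (Fin n))).hasFDerivAt.comp u h3).const_smul c
  have h5 : fderiv ℝ (fderiv ℝ (fun x => c * g (R x))) u w w =
      c * fderiv ℝ (fderiv ℝ g) (R u) (R w) (R w) := by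
    rw [hev.fderiv_eq]
    have h6 := h4.fderiv
    have h7 : (fun x => c • (fderiv ℝ g (R x)).comp (R.toContinuousLinearEquiv :
        EuclideanSpace ℝ (Fin n) →L[ℝ] EuclideanSpace ℝ (Fin n))) = (c • ((((ContinuousLinearMap.compL ℝ
        (EuclideanSpace ℝ (Fin n)) (EuclideanSpace ℝ (Fin n)) ℝ).flip (R.toContinuousLinearEquiv :
        EuclideanSpace ℝ (Fin n) →L[ℝ] EuclideanSpace ℝ (Fin n)))) ∘ (fderiv ℝ g ∘ fun x => R x))) :=
      rfl
    rw [h7, h6]
    rfl
  unfold qf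
  rw [h5]
  ring

end CJ
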