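import Pool.Agent.H.MP_1693ff_gtE.OGlueC
import Pool.Agent.H.MP_1693ff_gtE.OAsymD
import Pool.Agent.H.MP_1693ff_gtC.NSpace

/-!
# The gauge function in space: existence
-/

namespace CJ

open Real Set Filter Topology CG CH
open CF hiding St

variable {E : Type*} [NormedAddCommGroup E] [InnerProductSpace ℝ E]

theorem ong_hf_zero (H : E → ℝ) (ax ω η : E) : hf H ax ω η 0 = pl H ax ω := by
  show pl H ax (ro ω η 0) = pl H ax ω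
  rw [ro_zero]

theorem ong_pl_zero (H : E → ℝ) (ax ω : E) : pl H ax ω 0 = H ax := by
  simp [pl]

/-- the curve in one half plane -/
theorem ong_curve {e d : ℝ} {H₁ H₂ : E → ℝ} {ax ω : E} {U L : E → ℝ → St} (hω : Un ax ω)
    (p₁ : 0 < H₁ ax) (p₂ : 0 < H₂ ax)
    (K : ∀ ω, Un ax ω → HK e d (pl H₁ ax ω) (pl H₂ ax ω) (U ω) (L ω))
    (m1 : ∀ ω, Un ax ω → Mir (U ω) (L (-ω))) (m2 : ∀ ω, Un ax ω → Mir (L ω) (U (-ω))) :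
    ∃ (m M : ℝ) (x y s yH sH : ℝ → ℝ), 1 ≤ e ∧ 0 < m ∧ m < 1 ∧ 1 < M ∧
      Br (ZG e d (pl H₁ ax ω) (pl H₂ ax ω) (U ω) (L ω))
        (ZG e d (pl H₂ ax ω) (pl H₁ ax ω) (L ω) (U ω))
        (ZG e d (pl H₂ ax (-ω)) (pl H₁ ax (-ω)) (L (-ω)) (U (-ω)))
        (ZG e d (pl H₁ ax (-ω)) (pl H₂ ax (-ω)) (U (-ω)) (L (-ω)))
        x y s yH sH ∧
      GCv e (d * H₁ ax) (d * deriv (pl H₁ ax ω) 0) (d * H₂ ax)
        (d * deriv (ng (pl H₂ ax ω)) 0) (fun x => d * prof (pl H₁ ax ω) x)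
        (fun x => d * prof1 (pl H₁ ax ω) x) (fun x => d * prof (ng (pl H₂ ax ω)) x)
        (fun x => d * prof1 (ng (pl H₂ ax ω)) x) x y s yH sH ∧
      Tendsto s atTop (𝓝 m) ∧ Tendsto s atBot (𝓝 M) ∧
      (1 - m) ^ e + (M - 1) ^ e = (d * H₁ ax) ^ e ∧
      (m⁻¹ - 1) ^ e + (1 - M⁻¹) ^ e = (d * H₂ ax) ^ e := by
  have D₁ := K ω hω
  have D₂ := (K (-ω) hω.neg).swap
  rw [pl_neg, pl_neg] at D₂
  obtain ⟨x, y, s, yH, sH, G, b⟩ := exists_gcvG D₁ D₂ (m1 ω hω) (m2 ω hω)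
    (by rw [ong_pl_zero]; exact p₁) (by rw [ong_pl_zero]; exact p₂)
  rw [ong_pl_zero, ong_pl_zero] at G
  rw [← pl_neg, ← pl_neg] at b
  obtain ⟨m, M, F, F', C, -, -, g1, g2⟩ := curveW D₁.e1 G
  exact ⟨m, M, x, y, s, yH, sH, D₁.e1, C.m0, C.m1, C.M1, b, G, C.sm, C.sM', g1, g2⟩

/-- The lower curve is the upper curve of the opposite half plane. -/
theorem gb_neg {e d : ℝ} {H₁ H₂ : E → ℝ} {ax : E} {U L : E → ℝ → St} {X Y s YH sH : E → ℝ → ℝ}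
    (g : GB e d H₁ H₂ ax U L X Y s YH sH) {ω : E} (hω : Un ax ω) (τ : ℝ) :
    X (-ω) (-τ) = -X ω τ ∧ Y (-ω) (-τ) = -YH ω τ := by
  have B := g.br ω hω
  have B' := g.br (-ω) hω.neg
  rw [neg_neg] at B'
  rcases le_total τ 0 with h | h
  · obtain ⟨h1, h2, -⟩ := B.l2 τ h
    obtain ⟨h3, h4, -⟩ := B'.u1 (-τ) (by linarith)
    rw [h1, h2, h3, h4, neg_neg]
    exact ⟨rfl, rfl⟩
  · obtain ⟨h1, h2, -⟩ := B.l1 τ (by linarith)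
    obtain ⟨h3, h4, -⟩ := B'.u2 (-τ) (by linarith)
    have e1 : 1 - -τ = τ + 1 := by ring
    rw [h1, h2, h3, h4, e1, neg_neg]
    exact ⟨rfl, rfl⟩

/-- `exists_gcvG`, `curveW`; the limit slopes are the same for all `ω` (`asyma_unique`). -/
theorem exists_GA {e d : ℝ} {H₁ H₂ : E → ℝ} {ax : E} {U L : E → ℝ → St}
    (hex : ∃ ω, Un ax ω) (p₁ : 0 < H₁ ax) (p₂ : 0 < H₂ ax)
    (K : ∀ ω, Un ax ω → HK e d (pl H₁ ax ω) (pl H₂ ax ω) (U ω) (L ω))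
    (m1 : ∀ ω, Un ax ω → Mir (U ω) (L (-ω))) (m2 : ∀ ω, Un ax ω → Mir (L ω) (U (-ω))) :
    ∃ (m M : ℝ) (X Y s YH sH : E → ℝ → ℝ), GA e d H₁ H₂ ax m M X Y s YH sH ∧
      GB e d H₁ H₂ ax U L X Y s YH sH := by
  have hc : ∀ ω, Un ax ω → ∃ (m M : ℝ) (x y s yH sH : ℝ → ℝ), 1 ≤ e ∧ 0 < m ∧ m < 1 ∧ 1 < M ∧
      Br (ZG e d (pl H₁ ax ω) (pl H₂ ax ω) (U ω) (L ω))
        (ZG e d (pl H₂ ax ω) (pl H₁ ax ω) (L ω) (U ω))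
        (ZG e d (pl H₂ ax (-ω)) (pl H₁ ax (-ω)) (L (-ω)) (U (-ω)))
        (ZG e d (pl H₁ ax (-ω)) (pl H₂ ax (-ω)) (U (-ω)) (L (-ω)))
        x y s yH sH ∧
      GCv e (d * H₁ ax) (d * deriv (pl H₁ ax ω) 0) (d * H₂ ax)
        (d * deriv (ng (pl H₂ ax ω)) 0) (fun x => d * prof (pl H₁ ax ω) x)
        (fun x => d * prof1 (pl H₁ ax ω) x) (fun x => d * prof (ng (pl H₂ ax ω)) x)
        (fun x => d * prof1 (ng (pl H₂ ax ω)) x) x y s yH sH ∧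
      Tendsto s atTop (𝓝 m) ∧ Tendsto s atBot (𝓝 M) ∧
      (1 - m) ^ e + (M - 1) ^ e = (d * H₁ ax) ^ e ∧
      (m⁻¹ - 1) ^ e + (1 - M⁻¹) ^ e = (d * H₂ ax) ^ e :=
    fun ω hω => ong_curve hω p₁ p₂ K m1 m2
  choose! m M X Y s YH sH he hm0 hm1 hM1 hb hg ht1 ht2 h1 h2 using hc
  obtain ⟨ω₀, hω₀⟩ := hex
  have hu : ∀ ω, Un ax ω → m ω = m ω₀ ∧ M ω = M ω₀ := fun ω hω =>
    asyma_unique (he ω₀ hω₀) (hm0 ω hω) (hm1 ω hω) (hM1 ω hω) (hm0 ω₀ hω₀) (hm1 ω₀ hω₀)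
      (hM1 ω₀ hω₀) (h1 ω hω) (h1 ω₀ hω₀) (h2 ω hω) (h2 ω₀ hω₀)
  have B : GB e d H₁ H₂ ax U L X Y s YH sH := ⟨hb⟩
  refine ⟨m ω₀, M ω₀, X, Y, s, YH, sH, ?_, B⟩
  exact
    { m0 := hm0 ω₀ hω₀
      m1 := hm1 ω₀ hω₀
      M1 := hM1 ω₀ hω₀
      neg := fun ω hω τ => gb_neg B hω τ
      cv := hg
      lt := fun ω hω => by
        rw [← (hu ω hω).1]
        exact ht1 ω hω
      lb := fun ω hω => by
        rw [← (hu ω hω).2]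
        exact ht2 ω hω
      e1 := h1 ω₀ hω₀
      e2 := h2 ω₀ hω₀ }

end CJ
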