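import Pool.Agent.H.MP_1693ff_gtE.OSuppB
import Pool.Agent.H.MP_1693ff_gtC.NConv
import Pool.Agent.H.MP_1693ff_gtC.NConvB

/-!
# Second order support of a surface along a segment, right part
-/

namespace CJ

open Real Set Filter Topology CG CH
open CF hiding St

theorem nsuppc_cdR {R₀ : ℝ} (hR : 0 < R₀) (q₁ q₂ : ℝ) : ContDiffAt ℝ 1 (RR R₀ q₁ q₂) 0 := by
  have h1 : ContDiffAt ℝ 1 (fun l : ℝ => (R₀ + l * q₁) ^ 2 + (l * q₂) ^ 2) 0 := by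
    apply ContDiff.contDiffAt
    fun_prop
  exact h1.sqrt (by
    rw [zero_mul, zero_mul, add_zero]
    positivity)

theorem nsuppc_cdr {R₀ : ℝ} (hR : 0 < R₀) (q₁ q₂ : ℝ) : ContDiffAt ℝ 1 (ra R₀ q₁ q₂) 0 := by
  have h1 : ContDiffAt ℝ 1 (fun l : ℝ => l * q₂ / (R₀ + l * q₁)) 0 := by
    refine ContDiffAt.div ?_ ?_ ?_
    · apply ContDiff.contDiffAt
      fun_prop
    · apply ContDiff.contDiffAt
      fun_prop
    · rw [zero_mul, add_zero]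
      exact hR.ne'
  exact h1.arctan

theorem nsuppc_path {S : ℝ → ℝ → St} {T : ℝ → ℝ → Tt} {t₀ : ℝ} (Sh : Sheet S T t₀)
    {R₀ : ℝ} (hR : 0 < R₀) (q₁ q₂ : ℝ) {tt : ℝ → ℝ} (ht : ContDiffAt ℝ 1 tt 0) (h0 : tt 0 = t₀) :
    ∀ᶠ l in 𝓝 (0 : ℝ), ∃ z, Al3 (fun x => S (tt x) (ra R₀ q₁ q₂ x))
      (fun x => T (tt x) (ra R₀ q₁ q₂ x)) z (R₀ * q₂ / RR R₀ q₁ q₂ l ^ 2) l := by
  have hP : Tendsto (fun l => (tt l, ra R₀ q₁ q₂ l)) (𝓝 0) (𝓝 (t₀, 0)) := by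
    have h1 : ContinuousAt (fun l => (tt l, ra R₀ q₁ q₂ l)) 0 :=
      ht.continuousAt.prodMk (nsuppc_cdr hR q₁ q₂).continuousAt
    have h2 := h1.tendsto
    rw [h0, (rr_deriv2 (q₁ := q₁) (q₂ := q₂) hR).2.2.2] at h2
    exact h2
  filter_upwards [hP.eventually (sheet_path Sh), ht.eventually (by simp),
    rr_deriv (q₁ := q₁) (q₂ := q₂) hR] with l hl htt hrr
  exact ⟨_, hl tt (ra R₀ q₁ q₂) (deriv tt l) (R₀ * q₂ / RR R₀ q₁ q₂ l ^ 2) l rfl rfl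
    (htt.differentiableAt one_ne_zero).hasDerivAt hrr.2.2⟩

theorem nsuppc_pos {R₀ : ℝ} (hR : 0 < R₀) (q₁ q₂ : ℝ) : ∀ᶠ l in 𝓝 (0 : ℝ), 0 < RR R₀ q₁ q₂ l :=
  (rr_deriv (q₁ := q₁) (q₂ := q₂) hR).mono fun _ h => h.1

/-- **Right support.**  `b l = (x₀ + l x₁)/R(l)`, `exists_tt` with `F = a` gives `tt`,
`a(tt l, r l) = b l`. Along the path `a' = b'`, so `α' = s b' + κ r'`, and for
`G̃ = x₀ + l x₁ - R α`: `G̃' = x₁ - R' α - R (s b' + κ r')` near `0`, and at `0`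
(`R'' = R r'²`, `2R'r' + R r'' = 0`, `b''R + 2b'R' + bR'' = 0`, `s' = -k b' - ℓ r'`,
`κ' = -ℓ b' + (c-q) r'`, `c = s a - α`) `G̃'' = R (k b'² + 2 ℓ b' r' + q r'²) ≥ 0`. `lower2`. -/
theorem supp_right {S : ℝ → ℝ → St} {T : ℝ → ℝ → Tt} {t₀ : ℝ} (Sh : Sheet S T t₀)
    {x₀ R₀ : ℝ} (hR : 0 < R₀) (hx : x₀ = R₀ * (S t₀ 0).a) (x₁ q₁ q₂ : ℝ) :
    ∃ tt : ℝ → ℝ, ContinuousAt tt 0 ∧ tt 0 = t₀ ∧
      (∀ᶠ l in 𝓝 (0 : ℝ), (S (tt l) (ra R₀ q₁ q₂ l)).a * RR R₀ q₁ q₂ l = x₀ + l * x₁) ∧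
      (∀ᶠ p : ℝ × ℝ in 𝓝 (0, t₀),
        (S p.2 (ra R₀ q₁ q₂ p.1)).a * RR R₀ q₁ q₂ p.1 = x₀ + p.1 * x₁ → p.2 = tt p.1) ∧
      ContinuousAt (fun l => x₀ + l * x₁ - RR R₀ q₁ q₂ l * (S (tt l) (ra R₀ q₁ q₂ l)).α) 0 ∧
      ∀ ε > 0, ∀ᶠ l in 𝓝 (0 : ℝ), (x₀ - R₀ * (S t₀ 0).α) +
        (x₁ - q₁ * (S t₀ 0).α - (S t₀ 0).s * (x₁ - q₁ * (S t₀ 0).a) - (T t₀ 0).κ * q₂) * l -
        ε * l ^ 2 ≤ x₀ + l * x₁ - RR R₀ q₁ q₂ l * (S (tt l) (ra R₀ q₁ q₂ l)).α := by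
  obtain ⟨hR2, hr2, hRR0, hra0⟩ := rr_deriv2 (q₁ := q₁) (q₂ := q₂) hR
  have cR := nsuppc_cdR hR q₁ q₂
  have cr := nsuppc_cdr hR q₁ q₂
  have hRpos := nsuppc_pos hR q₁ q₂
  have hrr := rr_deriv (q₁ := q₁) (q₂ := q₂) hR
  -- the function `b`
  let b : ℝ → ℝ := fun l => (x₀ + l * x₁) / RR R₀ q₁ q₂ l
  have hbl : ∀ l, b l = (x₀ + l * x₁) / RR R₀ q₁ q₂ l := fun l => rfl
  have cb : ContDiffAt ℝ 1 b 0 := by
    refine ContDiffAt.div ?_ cR ?_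
    · apply ContDiff.contDiffAt
      fun_prop
    · rw [hRR0]
      exact hR.ne'
  have hb0 : b 0 = (S t₀ 0).a := by
    rw [hbl, hRR0, zero_mul, add_zero, hx, mul_div_cancel_left₀ _ hR.ne']
  have hdF : HasDerivAt (fun t => (S t 0).a) (S t₀ 0).v t₀ := Sh.t.self_of_nhds.da
  obtain ⟨tt, ctt, htt0, heq, huniq⟩ := exists_tt (F := fun p : ℝ × ℝ => (S p.1 p.2).a)
    Sh.c.ca hdF Sh.v0.ne' cb cr hra0 hb0
  have hP : Tendsto (fun l => (tt l, ra R₀ q₁ q₂ l)) (𝓝 0) (𝓝 (t₀, 0)) := by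
    have h1 : ContinuousAt (fun l => (tt l, ra R₀ q₁ q₂ l)) 0 :=
      ctt.continuousAt.prodMk cr.continuousAt
    have h2 := h1.tendsto
    rw [htt0, hra0] at h2
    exact h2
  have hcα : ContinuousAt (fun l => (S (tt l) (ra R₀ q₁ q₂ l)).α) 0 := by
    have h1 : Tendsto (fun p : ℝ × ℝ => (S p.1 p.2).α) (𝓝 (t₀, 0)) (𝓝 (S t₀ 0).α) :=
      Sh.c.cα.continuousAt
    have h2 := h1.comp hP
    rw [ContinuousAt, htt0, hra0]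
    exact h2
  refine ⟨tt, ctt.continuousAt, htt0, ?_, ?_, ?_, ?_⟩
  · filter_upwards [heq, hRpos] with l hl hpos
    have h1 : (S (tt l) (ra R₀ q₁ q₂ l)).a = b l := hl
    rw [h1, hbl, div_mul_cancel₀ _ hpos.ne']
  · have h1 : Tendsto (fun p : ℝ × ℝ => p.1) (𝓝 (0, t₀)) (𝓝 0) := continuousAt_fst
    filter_upwards [huniq, h1.eventually hRpos] with p hp hpos h
    apply hp
    show (S p.2 (ra R₀ q₁ q₂ p.1)).a = b p.1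
    rw [hbl, eq_div_iff hpos.ne']
    exact h
  · have h1 : ContinuousAt (fun l : ℝ => x₀ + l * x₁) 0 := by fun_prop
    exact h1.sub (cR.continuousAt.mul hcα)
  · intro ε hε
    -- derivatives
    let Rd : ℝ → ℝ := fun l => ((R₀ + l * q₁) * q₁ + l * q₂ * q₂) / RR R₀ q₁ q₂ l
    let rd : ℝ → ℝ := fun l => R₀ * q₂ / RR R₀ q₁ q₂ l ^ 2
    let G1 : ℝ → ℝ := fun l => x₁ - Rd l * (S (tt l) (ra R₀ q₁ q₂ l)).α -
      (S (tt l) (ra R₀ q₁ q₂ l)).s * (x₁ - b l * Rd l) -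
      (T (tt l) (ra R₀ q₁ q₂ l)).κ * (RR R₀ q₁ q₂ l * rd l)
    have hbd : ∀ᶠ l in 𝓝 (0 : ℝ), HasDerivAt b ((x₁ - b l * Rd l) / RR R₀ q₁ q₂ l) l := by
      filter_upwards [hrr] with l hl
      have h1 : HasDerivAt (fun l : ℝ => x₀ + l * x₁) x₁ l := by
        simpa using ((hasDerivAt_id l).mul_const x₁).const_add x₀
      have h2 : HasDerivAt (RR R₀ q₁ q₂) (Rd l) l := hl.2.1
      refine (h1.div h2 hl.1.ne').congr_deriv ?_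
      have h3 := hl.1.ne'
      rw [hbl]
      field_simp
    have hz : ∀ᶠ l in 𝓝 (0 : ℝ), Al3 (fun x => S (tt x) (ra R₀ q₁ q₂ x))
        (fun x => T (tt x) (ra R₀ q₁ q₂ x)) ((x₁ - b l * Rd l) / RR R₀ q₁ q₂ l) (rd l) l := by
      filter_upwards [nsuppc_path Sh hR q₁ q₂ ctt htt0, hbd, heq.eventually_nhds] with l hl hbl' he
      obtain ⟨z, A⟩ := hl
      have h1 : HasDerivAt b z l := A.da.congr_of_eventuallyEq (he.mono fun x hx => hx.symm)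
      have h2 := h1.unique hbl'
      rw [← h2]
      exact A
    have hG : ∀ᶠ l in 𝓝 (0 : ℝ), HasDerivAt
        (fun l => x₀ + l * x₁ - RR R₀ q₁ q₂ l * (S (tt l) (ra R₀ q₁ q₂ l)).α) (G1 l) l := by
      filter_upwards [hz, hrr] with l A hl
      have h1 : HasDerivAt (fun l : ℝ => x₀ + l * x₁) x₁ l := by
        simpa using ((hasDerivAt_id l).mul_const x₁).const_add x₀
      have h2 : HasDerivAt (RR R₀ q₁ q₂) (Rd l) l := hl.2.1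
      refine (h1.sub (h2.mul A.dα)).congr_deriv ?_
      have h3 := hl.1.ne'
      show x₁ - (Rd l * (S (tt l) (ra R₀ q₁ q₂ l)).α + RR R₀ q₁ q₂ l *
        ((S (tt l) (ra R₀ q₁ q₂ l)).s * ((x₁ - b l * Rd l) / RR R₀ q₁ q₂ l) +
        (T (tt l) (ra R₀ q₁ q₂ l)).κ * rd l)) = x₁ - Rd l * (S (tt l) (ra R₀ q₁ q₂ l)).α -
      (S (tt l) (ra R₀ q₁ q₂ l)).s * (x₁ - b l * Rd l) -
      (T (tt l) (ra R₀ q₁ q₂ l)).κ * (RR R₀ q₁ q₂ l * rd l)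
      field_simp
      ring
    have A0 := hz.self_of_nhds
    have hR1 : HasDerivAt (RR R₀ q₁ q₂) (Rd 0) 0 := hrr.self_of_nhds.2.1
    have hRd0 : Rd 0 = q₁ := by
      show ((R₀ + 0 * q₁) * q₁ + 0 * q₂ * q₂) / RR R₀ q₁ q₂ 0 = q₁
      rw [hRR0]
      field_simp
      ring
    have hrd0 : rd 0 = q₂ / R₀ := by
      show R₀ * q₂ / RR R₀ q₁ q₂ 0 ^ 2 = q₂ / R₀
      rw [hRR0]
      field_simp
    have hb1 := hbd.self_of_nhds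
    have hG1 : HasDerivAt G1 (R₀ * bf (S t₀ 0) (T t₀ 0)
        ((x₁ - (S t₀ 0).a * q₁) / R₀) (q₂ / R₀)) 0 := by
      have h1 : HasDerivAt Rd (q₂ ^ 2 / R₀) 0 := hR2
      have h2 : HasDerivAt rd (-(2 * q₁ * q₂) / R₀ ^ 2) 0 := hr2
      have h3 := (((h1.mul A0.dα).const_sub x₁).sub
        (A0.ds.mul ((hb1.mul h1).const_sub x₁))).sub (A0.dκ.mul (hR1.mul h2))
      refine h3.congr_deriv ?_
      simp only [htt0, hra0, hRR0, hRd0, hrd0, hb0, Pi.mul_apply]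
      unfold bf
      field_simp
      ring
    have hc : 0 ≤ R₀ * bf (S t₀ 0) (T t₀ 0) ((x₁ - (S t₀ 0).a * q₁) / R₀) (q₂ / R₀) :=
      mul_nonneg hR.le (Sh.pos _ _)
    have hfin := lower2 hG hG1 hc hε
    have hG10 : G1 0 = x₁ - q₁ * (S t₀ 0).α - (S t₀ 0).s * (x₁ - q₁ * (S t₀ 0).a) -
        (T t₀ 0).κ * q₂ := by
      show x₁ - Rd 0 * (S (tt 0) (ra R₀ q₁ q₂ 0)).α -
        (S (tt 0) (ra R₀ q₁ q₂ 0)).s * (x₁ - b 0 * Rd 0) -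
        (T (tt 0) (ra R₀ q₁ q₂ 0)).κ * (RR R₀ q₁ q₂ 0 * rd 0) = _
      rw [htt0, hra0, hRR0, hRd0, hrd0, hb0]
      field_simp
    filter_upwards [hfin] with l hl
    rw [hG10, htt0, hra0, hRR0] at hl
    simpa using hl

end CJ
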