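import Pool.Agent.H.MP_1693ff_gtE.OSheetB
import Pool.Agent.H.MP_1693ff_gtE.OHalfB

/-!
# Half curves depending on `r`: sheets
-/

namespace CJ

open Real Set Filter Topology CG CH
open CF hiding St

variable {e d : ℝ} {h k : ℝ → ℝ → ℝ} {S S' : ℝ → ℝ → St} {T T' : ℝ → ℝ → Tt}

/-- At a junction the two sheets have the same `a, α, s, κ` at `r = 0`: `a, α, s` by `junc`
for all `r`, and `∂_r a = w`, `∂_r α = s w + κ` (`ok_r`) are then equal, too. -/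
theorem junc3 (D : D3G e d h k S S' T T') (n : ℕ) :
    (chn e d (h 0) (k 0) (fun t => S t 0) n 1).a = (chn e d (k 0) (h 0) (fun t => S' t 0) (n + 1) 0).a ∧
    (chn e d (h 0) (k 0) (fun t => S t 0) n 1).α = (chn e d (k 0) (h 0) (fun t => S' t 0) (n + 1) 0).α ∧
    (chn e d (h 0) (k 0) (fun t => S t 0) n 1).s = (chn e d (k 0) (h 0) (fun t => S' t 0) (n + 1) 0).s ∧
    (chn3 e d h k S T n 1 0).κ = (chn3 e d k h S' T' (n + 1) 0 0).κ := by
  have hj : ∀ r, (chn e d (h r) (k r) (fun t => S t r) n 1).α = (chn e d (k r) (h r) (fun t => S' t r) (n + 1) 0).α ∧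
      (chn e d (h r) (k r) (fun t => S t r) n 1).a = (chn e d (k r) (h r) (fun t => S' t r) (n + 1) 0).a ∧
      (chn e d (h r) (k r) (fun t => S t r) n 1).s = (chn e d (k r) (h r) (fun t => S' t r) (n + 1) 0).s := fun r =>
    chn_junc (D.hk r) n
  have h1 := ok_rG D (ok_ofG D (t := 1) ⟨zero_le_one, le_rfl⟩ 0 n)
  have h2 := ok_rG D.swap (ok_ofG D.swap (t := 0) ⟨le_rfl, zero_le_one⟩ 0 (n + 1))
  have ea : (fun r => (chn e d (h r) (k r) (fun t => S t r) n 1).a) =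
      fun r => (chn e d (k r) (h r) (fun t => S' t r) (n + 1) 0).a := funext fun r => (hj r).2.1
  have eα : (fun r => (chn e d (h r) (k r) (fun t => S t r) n 1).α) =
      fun r => (chn e d (k r) (h r) (fun t => S' t r) (n + 1) 0).α := funext fun r => (hj r).1
  have a1 := h1.da
  have α1 := h1.dα
  have a2 := h2.da
  have α2 := h2.dα
  rw [ea] at a1
  rw [eα] at α1
  have e1 := a1.unique a2
  have e2 := α1.unique α2
  refine ⟨(hj 0).2.1, (hj 0).1, (hj 0).2.2, ?_⟩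
  rw [e1, (hj 0).2.2] at e2
  linarith

/-- the surface that gives `ZZ` on `[n, n+1]` -/
noncomputable def ozzb_S (e d : ℝ) (h k : ℝ → ℝ → ℝ) (S S' : ℝ → ℝ → St) (n : ℕ) (t r : ℝ) : St :=
  if Even n then chn e d (h r) (k r) (fun t => S t r) n t else chn e d (k r) (h r) (fun t => S' t r) n t

/-- its transverse part -/
noncomputable def ozzb_T (e d : ℝ) (h k : ℝ → ℝ → ℝ) (S S' : ℝ → ℝ → St)
    (T T' : ℝ → ℝ → Tt) (n : ℕ) (t r : ℝ) : Tt :=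
  if Even n then chn3 e d h k S T n t r else chn3 e d k h S' T' n t r

theorem ozzb_sheet (D : D3G e d h k S S' T T') {t : ℝ} (ht : t ∈ Icc (0 : ℝ) 1) (n : ℕ) :
    Sheet (ozzb_S e d h k S S' n) (ozzb_T e d h k S S' T T' n) t := by
  unfold ozzb_S ozzb_T
  by_cases hn : Even n
  · simp only [hn, if_true]
    exact sheet_ofG D ht n
  · simp only [hn, if_false]
    exact sheet_ofG D.swap ht n

theorem ozzb_piece (D : D3G e d h k S S' T T') (n : ℕ) {τ : ℝ} (hτ : τ ∈ Icc (n : ℝ) (n + 1)) (r : ℝ) :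
    (ZG e d (h r) (k r) (fun t => S t r) (fun t => S' t r) τ).a = (ozzb_S e d h k S S' n (τ - n) r).a ∧
    (ZG e d (h r) (k r) (fun t => S t r) (fun t => S' t r) τ).α = (ozzb_S e d h k S S' n (τ - n) r).α := by
  have h1 := ohalfb_piece (D.hk r) n hτ
  exact ⟨h1.2.1, h1.1⟩

theorem ozzb_junc (D : D3G e d h k S S' T T') (n : ℕ) :
    (ozzb_S e d h k S S' (n + 1) 0 0).a = (ozzb_S e d h k S S' n 1 0).a ∧
    (ozzb_S e d h k S S' (n + 1) 0 0).α = (ozzb_S e d h k S S' n 1 0).α ∧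
    (ozzb_S e d h k S S' (n + 1) 0 0).s = (ozzb_S e d h k S S' n 1 0).s ∧
    (ozzb_T e d h k S S' T T' (n + 1) 0 0).κ = (ozzb_T e d h k S S' T T' n 1 0).κ := by
  unfold ozzb_S ozzb_T
  by_cases hn : Even n
  · have hn' : ¬ Even (n + 1) := by
      rw [Nat.even_add_one]
      exact not_not.2 hn
    simp only [hn, hn', if_true, if_false]
    have h1 := junc3 D n
    exact ⟨h1.1.symm, h1.2.1.symm, h1.2.2.1.symm, h1.2.2.2.symm⟩
  · have hn' : Even (n + 1) := by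
      rw [Nat.even_add_one]
      exact hn
    simp only [hn, hn', if_true, if_false]
    have h1 := junc3 D.swap n
    exact ⟨h1.1.symm, h1.2.1.symm, h1.2.2.1.symm, h1.2.2.2.symm⟩

/-- The sheets near a point `τ₀ > 0` of the half curve: there are one or two sheets (the two
pieces at a junction) with the same `a, α, s, κ` at the base point, such that near `r = 0`,
`τ = τ₀` the half curve is given by one of them.  For `τ₀ ∉ ℕ` take twice the sheet of the piece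
`n = ⌊τ₀⌋₊` (`chain (h,k) n` or `chain (k,h) n`), for `τ₀ = n ≥ 1` those of the pieces `n - 1`
(at `t = 1`) and `n` (at `t = 0`); `zg_piece`, `sheet_of`, `junc3`. -/
theorem zg_sheets (D : D3G e d h k S S' T T') {τ₀ : ℝ} (hτ : 0 < τ₀) :
    ∃ (S₁ S₂ : ℝ → ℝ → St) (T₁ T₂ : ℝ → ℝ → Tt) (t₁ t₂ : ℝ), Sheet S₁ T₁ t₁ ∧ Sheet S₂ T₂ t₂ ∧
      (S₁ t₁ 0).a = (ZG e d (h 0) (k 0) (fun t => S t 0) (fun t => S' t 0) τ₀).a ∧ (S₁ t₁ 0).α = (ZG e d (h 0) (k 0) (fun t => S t 0) (fun t => S' t 0) τ₀).α ∧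
      (S₂ t₂ 0).a = (S₁ t₁ 0).a ∧ (S₂ t₂ 0).α = (S₁ t₁ 0).α ∧ (S₂ t₂ 0).s = (S₁ t₁ 0).s ∧
      (T₂ t₂ 0).κ = (T₁ t₁ 0).κ ∧
      ∀ᶠ τ in 𝓝 τ₀, ∀ r, ((ZG e d (h r) (k r) (fun t => S t r) (fun t => S' t r) τ).a = (S₁ (τ - τ₀ + t₁) r).a ∧
          (ZG e d (h r) (k r) (fun t => S t r) (fun t => S' t r) τ).α = (S₁ (τ - τ₀ + t₁) r).α) ∨
        ((ZG e d (h r) (k r) (fun t => S t r) (fun t => S' t r) τ).a = (S₂ (τ - τ₀ + t₂) r).a ∧
          (ZG e d (h r) (k r) (fun t => S t r) (fun t => S' t r) τ).α = (S₂ (τ - τ₀ + t₂) r).α) := by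
  have hfl : τ₀ ∈ Icc ((⌊τ₀⌋₊ : ℕ) : ℝ) (⌊τ₀⌋₊ + 1) := ohalfb_floor hτ.le
  have hlt : τ₀ < ⌊τ₀⌋₊ + 1 := Nat.lt_floor_add_one τ₀
  rcases hfl.1.lt_or_eq with h1 | h1
  · refine ⟨ozzb_S e d h k S S' ⌊τ₀⌋₊, ozzb_S e d h k S S' ⌊τ₀⌋₊, ozzb_T e d h k S S' T T' ⌊τ₀⌋₊,
      ozzb_T e d h k S S' T T' ⌊τ₀⌋₊, τ₀ - ⌊τ₀⌋₊, τ₀ - ⌊τ₀⌋₊, ozzb_sheet D (ohalfb_mem hfl) _,
      ozzb_sheet D (ohalfb_mem hfl) _, (ozzb_piece D _ hfl 0).1.symm,
      (ozzb_piece D _ hfl 0).2.symm, rfl, rfl, rfl, rfl, ?_⟩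
    filter_upwards [Ioo_mem_nhds h1 hlt] with τ hτ1 r
    left
    have e1 : τ - τ₀ + (τ₀ - ⌊τ₀⌋₊) = τ - ⌊τ₀⌋₊ := by ring
    rw [e1]
    exact ozzb_piece D _ ⟨hτ1.1.le, hτ1.2.le⟩ r
  · obtain ⟨m, hm⟩ : ∃ m, ⌊τ₀⌋₊ = m + 1 := by
      refine Nat.exists_eq_succ_of_ne_zero ?_
      intro h0
      rw [h0] at h1
      simp at h1
      linarith
    rw [hm] at h1
    push_cast at h1
    have hm1 : τ₀ ∈ Icc (m : ℝ) (m + 1) := ⟨by linarith, by linarith⟩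
    have hm2 : τ₀ ∈ Icc (((m + 1 : ℕ) : ℝ)) (((m + 1 : ℕ) : ℝ) + 1) := by
      push_cast
      exact ⟨by linarith, by linarith⟩
    have e1 : τ₀ - m = 1 := by linarith
    have hp := ozzb_piece D m hm1 0
    rw [e1] at hp
    have hJ := ozzb_junc D m
    refine ⟨ozzb_S e d h k S S' m, ozzb_S e d h k S S' (m + 1), ozzb_T e d h k S S' T T' m,
      ozzb_T e d h k S S' T T' (m + 1), 1, 0, ozzb_sheet D ⟨zero_le_one, le_rfl⟩ _,
      ozzb_sheet D ⟨le_rfl, zero_le_one⟩ _, hp.1.symm, hp.2.symm, hJ.1, hJ.2.1, hJ.2.2.1,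
      hJ.2.2.2, ?_⟩
    have h2 : (m : ℝ) < τ₀ := by linarith
    have h3 : τ₀ < τ₀ + 1 := by linarith
    filter_upwards [Ioo_mem_nhds h2 h3] with τ hτ1 r
    rcases le_total τ τ₀ with h4 | h4
    · left
      have e2 : τ - τ₀ + 1 = τ - m := by linarith
      rw [e2]
      exact ozzb_piece D m ⟨hτ1.1.le, by linarith⟩ r
    · right
      have e2 : τ - τ₀ + 0 = τ - ((m + 1 : ℕ) : ℝ) := by
        push_cast
        linarith
      rw [e2]
      refine ozzb_piece D (m + 1) ⟨?_, ?_⟩ r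
      · push_cast
        linarith
      · push_cast
        linarith [hτ1.2]

end CJ
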