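import Pool.Agent.H.MP_1693ff_gtE.OZZ
import Pool.Agent.H.MP_1693ff_gtE.OZZB
import Pool.Agent.H.MP_1693ff_gtE.OSuppC

/-!
# Half curves depending on `r`: second order support, right part
-/

namespace CJ

open Real Set Filter Topology CG CH
open CF hiding St

variable {e d : ℝ} {h k : ℝ → ℝ → ℝ} {S S' : ℝ → ℝ → St} {T T' : ℝ → ℝ → Tt}

theorem ozzc_zero (D : D3G e d h k S S' T T') (r : ℝ) :
    (ZG e d (h r) (k r) (fun t => S t r) (fun t => S' t r) 0).a = 0 := by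
  have h := (zg_arc (D.hk r) (t := 0) (left_mem_Icc.2 zero_le_one)).2.1
  rw [h]
  exact D.z r

/-- existence and localisation of the parameter -/
theorem ozzc_loc (D : D3G e d h k S S' T T') {τ₀ x₀ R₀ : ℝ} (hτ : 0 < τ₀) (hR : 0 < R₀)
    (hx : x₀ = R₀ * (ZG e d (h 0) (k 0) (fun t => S t 0) (fun t => S' t 0) τ₀).a) (x₁ q₁ q₂ : ℝ) {N : Set ℝ} (hN : N ∈ 𝓝 τ₀) :
    ∀ᶠ l in 𝓝 (0 : ℝ), (∃ τ, 0 ≤ τ ∧
      (ZG e d (h (ra R₀ q₁ q₂ l)) (k (ra R₀ q₁ q₂ l)) (fun t => S t (ra R₀ q₁ q₂ l)) (fun t => S' t (ra R₀ q₁ q₂ l)) τ).a * RR R₀ q₁ q₂ l = x₀ + l * x₁) ∧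
      ∀ τ, 0 ≤ τ →
        (ZG e d (h (ra R₀ q₁ q₂ l)) (k (ra R₀ q₁ q₂ l)) (fun t => S t (ra R₀ q₁ q₂ l)) (fun t => S' t (ra R₀ q₁ q₂ l)) τ).a * RR R₀ q₁ q₂ l = x₀ + l * x₁ →
        τ ∈ N := by
  obtain ⟨-, -, hR0, hr0⟩ := rr_deriv2 (R₀ := R₀) (q₁ := q₁) (q₂ := q₂) hR
  obtain ⟨-, dR, dr⟩ := (rr_deriv (q₁ := q₁) (q₂ := q₂) hR).self_of_nhds
  have cR : Tendsto (RR R₀ q₁ q₂) (𝓝 0) (𝓝 R₀) := by
    have := dR.continuousAt.tendsto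
    rwa [hR0] at this
  have cr : Tendsto (ra R₀ q₁ q₂) (𝓝 0) (𝓝 0) := by
    have := dr.continuousAt.tendsto
    rwa [hr0] at this
  obtain ⟨δ', hδ', hN'⟩ := Metric.mem_nhds_iff.1 hN
  obtain ⟨δ, hδ⟩ : ∃ δ, δ = min δ' τ₀ / 2 := ⟨_, rfl⟩
  have hδ0 : 0 < δ := by
    rw [hδ]
    have := lt_min hδ' hτ
    linarith
  have hδ1 : δ < δ' := by
    rw [hδ]
    have := min_le_left δ' τ₀
    linarith [lt_min hδ' hτ]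
  have hδ2 : δ < τ₀ := by
    rw [hδ]
    have := min_le_right δ' τ₀
    linarith [lt_min hδ' hτ]
  have H0 := half_HZG (D.hk 0)
  have hpos : 0 < (ZG e d (h 0) (k 0) (fun t => S t 0) (fun t => S' t 0) τ₀).a := by
    have := H0.mono (mem_Ici.2 le_rfl) (mem_Ici.2 hτ.le) hτ
    simp only [ozzc_zero D 0] at this
    exact this
  have hx0 : 0 < x₀ := by
    rw [hx]
    positivity
  have hxR : x₀ / R₀ = (ZG e d (h 0) (k 0) (fun t => S t 0) (fun t => S' t 0) τ₀).a := by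
    rw [hx]
    field_simp
  have cx : Tendsto (fun l : ℝ => x₀ + l * x₁) (𝓝 0) (𝓝 x₀) := by
    have : Continuous fun l : ℝ => x₀ + l * x₁ := by fun_prop
    have := this.tendsto 0
    simpa using this
  have cq : Tendsto (fun l : ℝ => (x₀ + l * x₁) / RR R₀ q₁ q₂ l) (𝓝 0)
      (𝓝 (ZG e d (h 0) (k 0) (fun t => S t 0) (fun t => S' t 0) τ₀).a) := by
    rw [← hxR]
    exact cx.div cR hR.ne'
  have c1 : Tendsto (fun l : ℝ => (ZG e d (h (ra R₀ q₁ q₂ l)) (k (ra R₀ q₁ q₂ l)) (fun t => S t (ra R₀ q₁ q₂ l)) (fun t => S' t (ra R₀ q₁ q₂ l))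
      (τ₀ - δ)).a) (𝓝 0) (𝓝 (ZG e d (h 0) (k 0) (fun t => S t 0) (fun t => S' t 0) (τ₀ - δ)).a) :=
    ((zg_cont_r D (τ := τ₀ - δ) (by linarith)).1.tendsto 0).comp cr
  have c2 : Tendsto (fun l : ℝ => (ZG e d (h (ra R₀ q₁ q₂ l)) (k (ra R₀ q₁ q₂ l)) (fun t => S t (ra R₀ q₁ q₂ l)) (fun t => S' t (ra R₀ q₁ q₂ l))
      (τ₀ + δ)).a) (𝓝 0) (𝓝 (ZG e d (h 0) (k 0) (fun t => S t 0) (fun t => S' t 0) (τ₀ + δ)).a) :=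
    ((zg_cont_r D (τ := τ₀ + δ) (by linarith)).1.tendsto 0).comp cr
  have m1 : (ZG e d (h 0) (k 0) (fun t => S t 0) (fun t => S' t 0) (τ₀ - δ)).a < (ZG e d (h 0) (k 0) (fun t => S t 0) (fun t => S' t 0) τ₀).a :=
    H0.mono (mem_Ici.2 (by linarith)) (mem_Ici.2 hτ.le) (by linarith)
  have m2 : (ZG e d (h 0) (k 0) (fun t => S t 0) (fun t => S' t 0) τ₀).a < (ZG e d (h 0) (k 0) (fun t => S t 0) (fun t => S' t 0) (τ₀ + δ)).a :=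
    H0.mono (mem_Ici.2 hτ.le) (mem_Ici.2 (by linarith)) (by linarith)
  filter_upwards [cR.eventually (lt_mem_nhds hR), cx.eventually (lt_mem_nhds hx0),
    c1.eventually_lt cq m1, cq.eventually_lt c2 m2] with l h1 h2 h3 h4
  have Hl := half_HZG (D.hk (ra R₀ q₁ q₂ l))
  constructor
  · have h5 : 0 < (x₀ + l * x₁) / RR R₀ q₁ q₂ l := by positivity
    obtain ⟨T, hT0, hT⟩ : ∃ T, 0 ≤ T ∧ (x₀ + l * x₁) / RR R₀ q₁ q₂ l ≤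
        (ZG e d (h (ra R₀ q₁ q₂ l)) (k (ra R₀ q₁ q₂ l)) (fun t => S t (ra R₀ q₁ q₂ l)) (fun t => S' t (ra R₀ q₁ q₂ l)) T).a := by
      have := (Hl.top.eventually_ge_atTop ((x₀ + l * x₁) / RR R₀ q₁ q₂ l)).and
        (eventually_ge_atTop 0)
      obtain ⟨T, hT, hT0⟩ := this.exists
      exact ⟨T, hT0, hT⟩
    have hc : ContinuousOn (fun τ => (ZG e d (h (ra R₀ q₁ q₂ l)) (k (ra R₀ q₁ q₂ l)) (fun t => S t (ra R₀ q₁ q₂ l)) (fun t => S' t (ra R₀ q₁ q₂ l)) τ).a)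
        (Icc 0 T) := Hl.ca.mono fun τ hτ => mem_Ici.2 hτ.1
    have hiv := intermediate_value_Icc hT0 hc
    have hmem : (x₀ + l * x₁) / RR R₀ q₁ q₂ l ∈
        Icc (ZG e d (h (ra R₀ q₁ q₂ l)) (k (ra R₀ q₁ q₂ l)) (fun t => S t (ra R₀ q₁ q₂ l)) (fun t => S' t (ra R₀ q₁ q₂ l)) 0).a
          (ZG e d (h (ra R₀ q₁ q₂ l)) (k (ra R₀ q₁ q₂ l)) (fun t => S t (ra R₀ q₁ q₂ l)) (fun t => S' t (ra R₀ q₁ q₂ l)) T).a := by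
      rw [ozzc_zero D _]
      exact ⟨h5.le, hT⟩
    obtain ⟨τ, hτ', he⟩ := hiv hmem
    refine ⟨τ, hτ'.1, ?_⟩
    have he' : (ZG e d (h (ra R₀ q₁ q₂ l)) (k (ra R₀ q₁ q₂ l)) (fun t => S t (ra R₀ q₁ q₂ l)) (fun t => S' t (ra R₀ q₁ q₂ l)) τ).a =
      (x₀ + l * x₁) / RR R₀ q₁ q₂ l := he
    rw [he']
    field_simp
  · intro τ hτ0 he
    have he' : (ZG e d (h (ra R₀ q₁ q₂ l)) (k (ra R₀ q₁ q₂ l)) (fun t => S t (ra R₀ q₁ q₂ l)) (fun t => S' t (ra R₀ q₁ q₂ l)) τ).a =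
        (x₀ + l * x₁) / RR R₀ q₁ q₂ l := by
      rw [← he]
      field_simp
    rw [← he'] at h3 h4
    have h6 : τ₀ - δ < τ := (Hl.mono.lt_iff_lt (mem_Ici.2 (by linarith)) (mem_Ici.2 hτ0)).1 h3
    have h7 : τ < τ₀ + δ := (Hl.mono.lt_iff_lt (mem_Ici.2 hτ0) (mem_Ici.2 (by linarith))).1 h4
    apply hN'
    rw [Metric.mem_ball, Real.dist_eq, abs_lt]
    constructor <;> linarith

/-- **Local support, right part.**  `zg_sheets`, `supp_right` for both sheets (same values and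
same slope `p`).  For `l` near `0` there is `τ_l ≥ 0` with `a(τ_l; r_l) R_l = x₀ + l x₁`
(`HZ.ca`, `HZ.top`, `a(0) = 0 < x₀/R₀`), and `τ_l → τ₀` (`zg_cont_r` at `τ₀ ± δ` and strict
monotonicity `HZ.mono`).  So eventually `τ_l - τ₀ + t_j` satisfies the equation for one of the
sheets and is equal to `tt_j l` by the uniqueness clause; hence
`g l = x₀ + l x₁ - R (S_j (tt_j l) r_l).α`. -/
theorem zg_right (D : D3G e d h k S S' T T') {τ₀ x₀ x₁ R₀ q₁ q₂ : ℝ} (hτ : 0 < τ₀) (hR : 0 < R₀)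
    (hx : x₀ = R₀ * (ZG e d (h 0) (k 0) (fun t => S t 0) (fun t => S' t 0) τ₀).a) {g : ℝ → ℝ}
    (hg : ∀ᶠ l in 𝓝 (0 : ℝ), ∀ τ, 0 ≤ τ →
      (ZG e d (h (ra R₀ q₁ q₂ l)) (k (ra R₀ q₁ q₂ l)) (fun t => S t (ra R₀ q₁ q₂ l)) (fun t => S' t (ra R₀ q₁ q₂ l)) τ).a * RR R₀ q₁ q₂ l = x₀ + l * x₁ →
      g l = x₀ + l * x₁ -
        RR R₀ q₁ q₂ l * (ZG e d (h (ra R₀ q₁ q₂ l)) (k (ra R₀ q₁ q₂ l)) (fun t => S t (ra R₀ q₁ q₂ l)) (fun t => S' t (ra R₀ q₁ q₂ l)) τ).α) :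
    ContinuousAt g 0 ∧ ∃ p, ∀ ε > 0, ∀ᶠ l in 𝓝 (0 : ℝ), g 0 + p * l - ε * l ^ 2 ≤ g l := by
  obtain ⟨S₁, S₂, T₁, T₂, t₁, t₂, Sh₁, Sh₂, a1, α1, a2, α2, s2, κ2, hloc⟩ := zg_sheets D hτ
  obtain ⟨-, -, hR0, hr0⟩ := rr_deriv2 (R₀ := R₀) (q₁ := q₁) (q₂ := q₂) hR
  have hx1 : x₀ = R₀ * (S₁ t₁ 0).a := by rw [a1]; exact hx
  have hx2 : x₀ = R₀ * (S₂ t₂ 0).a := by rw [a2]; exact hx1
  obtain ⟨tt₁, -, tt₁0, -, u1, c1, b1⟩ := supp_right Sh₁ hR hx1 x₁ q₁ q₂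
  obtain ⟨tt₂, -, tt₂0, -, u2, c2, b2⟩ := supp_right Sh₂ hR hx2 x₁ q₁ q₂
  rw [a2, α2, s2, κ2] at b2
  obtain ⟨p, hp⟩ : ∃ p, p = x₁ - q₁ * (S₁ t₁ 0).α - (S₁ t₁ 0).s * (x₁ - q₁ * (S₁ t₁ 0).a) -
    (T₁ t₁ 0).κ * q₂ := ⟨_, rfl⟩
  rw [← hp] at b1 b2
  obtain ⟨G₁, hG₁⟩ : ∃ G₁ : ℝ → ℝ, G₁ = fun l => x₀ + l * x₁ - RR R₀ q₁ q₂ l *
    (S₁ (tt₁ l) (ra R₀ q₁ q₂ l)).α := ⟨_, rfl⟩
  obtain ⟨G₂, hG₂⟩ : ∃ G₂ : ℝ → ℝ, G₂ = fun l => x₀ + l * x₁ - RR R₀ q₁ q₂ l *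
    (S₂ (tt₂ l) (ra R₀ q₁ q₂ l)).α := ⟨_, rfl⟩
  rw [← hG₁] at c1
  rw [← hG₂] at c2
  have hb1 : ∀ ε > 0, ∀ᶠ l in 𝓝 (0 : ℝ), (x₀ - R₀ * (S₁ t₁ 0).α) + p * l - ε * l ^ 2 ≤ G₁ l := by
    intro ε hε
    rw [hG₁]
    exact b1 ε hε
  have hb2 : ∀ ε > 0, ∀ᶠ l in 𝓝 (0 : ℝ), (x₀ - R₀ * (S₁ t₁ 0).α) + p * l - ε * l ^ 2 ≤ G₂ l := by
    intro ε hε
    rw [hG₂]
    exact b2 ε hε
  have v1 : G₁ 0 = x₀ - R₀ * (S₁ t₁ 0).α := by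
    rw [hG₁]
    simp only [hR0, hr0, tt₁0]
    ring
  have v2 : G₂ 0 = x₀ - R₀ * (S₁ t₁ 0).α := by
    rw [hG₂]
    simp only [hR0, hr0, tt₂0, α2]
    ring
  have key : ∀ᶠ l in 𝓝 (0 : ℝ), g l = G₁ l ∨ g l = G₂ l := by
    rw [nhds_prod_eq, eventually_prod_iff] at u1 u2
    obtain ⟨A₁, hA₁, B₁, hB₁, hAB₁⟩ := u1
    obtain ⟨A₂, hA₂, B₂, hB₂, hAB₂⟩ := u2
    have sh : ∀ t : ℝ, Tendsto (fun τ => τ - τ₀ + t) (𝓝 τ₀) (𝓝 t) := by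
      intro t
      have h1 : Continuous fun τ : ℝ => τ - τ₀ + t := by fun_prop
      have h2 := h1.tendsto τ₀
      simpa using h2
    have hN : ∀ᶠ τ in 𝓝 τ₀, B₁ (τ - τ₀ + t₁) ∧ B₂ (τ - τ₀ + t₂) ∧
        ∀ r, ((ZG e d (h r) (k r) (fun t => S t r) (fun t => S' t r) τ).a = (S₁ (τ - τ₀ + t₁) r).a ∧
          (ZG e d (h r) (k r) (fun t => S t r) (fun t => S' t r) τ).α = (S₁ (τ - τ₀ + t₁) r).α) ∨
        ((ZG e d (h r) (k r) (fun t => S t r) (fun t => S' t r) τ).a = (S₂ (τ - τ₀ + t₂) r).a ∧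
          (ZG e d (h r) (k r) (fun t => S t r) (fun t => S' t r) τ).α = (S₂ (τ - τ₀ + t₂) r).α) :=
      ((sh t₁).eventually hB₁).and (((sh t₂).eventually hB₂).and hloc)
    filter_upwards [hA₁, hA₂, hg, ozzc_loc D hτ hR hx x₁ q₁ q₂ hN] with l l1 l2 l3 l4
    obtain ⟨⟨τ, hτ0, hτe⟩, l5⟩ := l4
    obtain ⟨n1, n2, n3⟩ := l5 τ hτ0 hτe
    have hgl := l3 τ hτ0 hτe
    rcases n3 (ra R₀ q₁ q₂ l) with ⟨w1, w2⟩ | ⟨w1, w2⟩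
    · left
      rw [w1] at hτe
      have h1 := hAB₁ l1 n1 hτe
      rw [hgl, w2, hG₁]
      have h2 : τ - τ₀ + t₁ = tt₁ l := h1
      rw [h2]
    · right
      rw [w1] at hτe
      have h1 := hAB₂ l2 n2 hτe
      rw [hgl, w2, hG₂]
      have h2 : τ - τ₀ + t₂ = tt₂ l := h1
      rw [h2]
  have g0 : g 0 = x₀ - R₀ * (S₁ t₁ 0).α := by
    rcases key.self_of_nhds with h1 | h1
    · rw [h1, v1]
    · rw [h1, v2]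
  constructor
  · rw [ContinuousAt, g0]
    have c1' : Tendsto G₁ (𝓝 0) (𝓝 (x₀ - R₀ * (S₁ t₁ 0).α)) := by
      rw [← v1]
      exact c1
    have c2' : Tendsto G₂ (𝓝 0) (𝓝 (x₀ - R₀ * (S₁ t₁ 0).α)) := by
      rw [← v2]
      exact c2
    intro U hU
    have e1 : ∀ᶠ l in 𝓝 (0 : ℝ), G₁ l ∈ U := c1' hU
    have e2 : ∀ᶠ l in 𝓝 (0 : ℝ), G₂ l ∈ U := c2' hU
    change ∀ᶠ l in 𝓝 (0 : ℝ), g l ∈ U
    filter_upwards [key, e1, e2] with l h1 h2 h3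
    rcases h1 with h1 | h1
    · rw [h1]
      exact h2
    · rw [h1]
      exact h3
  · refine ⟨p, fun ε hε => ?_⟩
    filter_upwards [key, hb1 ε hε, hb2 ε hε] with l h1 h2 h3
    rw [g0]
    rcases h1 with h1 | h1
    · rw [h1]
      exact h2
    · rw [h1]
      exact h3

end CJ
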