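import Pool.Agent.H.MP_1693ff_gtE.OZZ
import Pool.Agent.H.MP_1693ff_gtE.OZZB
import Pool.Agent.H.MP_1693ff_gtE.OSuppD

/-!
# Half curves depending on `r`: second order support, left part
-/

namespace CJ

open Real Set Filter Topology CG CH
open CF hiding St

variable {e d : ℝ} {h k : ℝ → ℝ → ℝ} {S S' : ℝ → ℝ → St} {T T' : ℝ → ℝ → Tt}

/-- The abstract argument: `A l τ` strictly increasing in `τ`, continuous, `A · τ` continuous at `0`. -/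
theorem ozzd_exists {A : ℝ → ℝ → ℝ} {b : ℝ → ℝ} {τ₀ : ℝ} (hτ : 0 < τ₀)
    (hmono : StrictMonoOn (A 0) (Ici 0)) (hcont : ∀ l, ContinuousOn (A l) (Ici 0))
    (hc : ∀ τ, 0 ≤ τ → ContinuousAt (fun l => A l τ) 0) (hb : ContinuousAt b 0)
    (h0 : b 0 = A 0 τ₀) {U : Set ℝ} (hU : U ∈ 𝓝 τ₀) :
    ∀ᶠ l in 𝓝 (0 : ℝ), ∃ τ ∈ U, 0 ≤ τ ∧ A l τ = b l := by
  obtain ⟨δ₀, hδ₀, hball⟩ := Metric.mem_nhds_iff.1 hU
  set δ := min (δ₀ / 2) (τ₀ / 2) with hδ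
  have hδpos : 0 < δ := lt_min (by linarith) (by linarith)
  have hδ1 : δ ≤ δ₀ / 2 := min_le_left _ _
  have hδ2 : δ ≤ τ₀ / 2 := min_le_right _ _
  have h1 : A 0 (τ₀ - δ) < b 0 := by
    rw [h0]
    exact hmono (show (0 : ℝ) ≤ τ₀ - δ by linarith) (show (0 : ℝ) ≤ τ₀ by linarith) (by linarith)
  have h2 : b 0 < A 0 (τ₀ + δ) := by
    rw [h0]
    exact hmono (show (0 : ℝ) ≤ τ₀ by linarith) (show (0 : ℝ) ≤ τ₀ + δ by linarith) (by linarith)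
  have e1 : ∀ᶠ l in 𝓝 (0 : ℝ), A l (τ₀ - δ) < b l :=
    (hc _ (by linarith)).eventually_lt hb h1
  have e2 : ∀ᶠ l in 𝓝 (0 : ℝ), b l < A l (τ₀ + δ) :=
    hb.eventually_lt (hc _ (by linarith)) h2
  filter_upwards [e1, e2] with l hl1 hl2
  have hsub : Icc (τ₀ - δ) (τ₀ + δ) ⊆ Ici 0 := fun x hx => by
    have := hx.1
    show (0 : ℝ) ≤ x
    linarith
  have h3 := intermediate_value_Icc (by linarith : τ₀ - δ ≤ τ₀ + δ) ((hcont l).mono hsub)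
  obtain ⟨τ, hτm, hτe⟩ := h3 ⟨hl1.le, hl2.le⟩
  refine ⟨τ, hball ?_, hsub hτm, hτe⟩
  rw [Metric.mem_ball, Real.dist_eq, abs_lt]
  have h4 := hτm.1
  have h5 := hτm.2
  constructor
  · linarith
  · linarith

/-- A function which is locally one of two functions. -/
theorem ozzd_two {g g₁ g₂ : ℝ → ℝ} {c p : ℝ} (h1 : ContinuousAt g₁ 0) (h2 : ContinuousAt g₂ 0)
    (e1 : g₁ 0 = c) (e2 : g₂ 0 = c)
    (s1 : ∀ ε > 0, ∀ᶠ l in 𝓝 (0 : ℝ), c + p * l - ε * l ^ 2 ≤ g₁ l)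
    (s2 : ∀ ε > 0, ∀ᶠ l in 𝓝 (0 : ℝ), c + p * l - ε * l ^ 2 ≤ g₂ l)
    (hg : ∀ᶠ l in 𝓝 (0 : ℝ), g l = g₁ l ∨ g l = g₂ l) :
    ContinuousAt g 0 ∧ ∃ p, ∀ ε > 0, ∀ᶠ l in 𝓝 (0 : ℝ), g 0 + p * l - ε * l ^ 2 ≤ g l := by
  have hg0 : g 0 = c := by
    rcases hg.self_of_nhds with h | h
    · rw [h, e1]
    · rw [h, e2]
  constructor
  · rw [Metric.continuousAt_iff']
    intro ε hε
    rw [Metric.continuousAt_iff'] at h1 h2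
    filter_upwards [h1 ε hε, h2 ε hε, hg] with l hl1 hl2 hl
    rw [hg0]
    rw [e1] at hl1
    rw [e2] at hl2
    rcases hl with h | h
    · rw [h]; exact hl1
    · rw [h]; exact hl2
  · refine ⟨p, fun ε hε => ?_⟩
    filter_upwards [s1 ε hε, s2 ε hε, hg] with l hl1 hl2 hl
    rw [hg0]
    rcases hl with h | h
    · rw [h]; exact hl1
    · rw [h]; exact hl2

/-- **Local support, left part.**  The same with `α` instead of `a` (`zg_alpha`; for `τ₀ > 0`,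
`α(0) < α(τ₀)`), `supp_left`. -/
theorem zg_left (D : D3G e d h k S S' T T') {τ₀ x₀ x₁ R₀ q₁ q₂ : ℝ} (hτ : 0 < τ₀) (hR : 0 < R₀)
    (hx : x₀ = -(R₀ * (ZG e d (h 0) (k 0) (fun t => S t 0) (fun t => S' t 0) τ₀).α)) {g : ℝ → ℝ}
    (hg : ∀ᶠ l in 𝓝 (0 : ℝ), ∀ τ, 0 ≤ τ →
      -((ZG e d (h (ra R₀ q₁ q₂ l)) (k (ra R₀ q₁ q₂ l)) (fun t => S t (ra R₀ q₁ q₂ l)) (fun t => S' t (ra R₀ q₁ q₂ l)) τ).α * RR R₀ q₁ q₂ l) = x₀ + l * x₁ →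
      g l = x₀ + l * x₁ +
        RR R₀ q₁ q₂ l * (ZG e d (h (ra R₀ q₁ q₂ l)) (k (ra R₀ q₁ q₂ l)) (fun t => S t (ra R₀ q₁ q₂ l)) (fun t => S' t (ra R₀ q₁ q₂ l)) τ).a) :
    ContinuousAt g 0 ∧ ∃ p, ∀ ε > 0, ∀ᶠ l in 𝓝 (0 : ℝ), g 0 + p * l - ε * l ^ 2 ≤ g l := by
  obtain ⟨S₁, S₂, T₁, T₂, t₁, t₂, Sh₁, Sh₂, ha1, hα1, ha2, hα2, hs2, hκ2, hloc⟩ := zg_sheets D hτ
  have hx1 : x₀ = -(R₀ * (S₁ t₁ 0).α) := by rw [hα1]; exact hx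
  have hx2 : x₀ = -(R₀ * (S₂ t₂ 0).α) := by rw [hα2]; exact hx1
  obtain ⟨tt₁, hc1, h01, heq1, huniq1, hG1, hs1⟩ := supp_left Sh₁ hR hx1 x₁ q₁ q₂
  obtain ⟨tt₂, hc2, h02, heq2, huniq2, hG2, hs2'⟩ := supp_left Sh₂ hR hx2 x₁ q₁ q₂
  obtain ⟨-, -, hRR0, hra0⟩ := rr_deriv2 (q₁ := q₁) (q₂ := q₂) hR
  have hrr := rr_deriv (q₁ := q₁) (q₂ := q₂) hR
  obtain ⟨hRpos, hRd, hrd⟩ := hrr.self_of_nhds
  have hRc : ContinuousAt (RR R₀ q₁ q₂) 0 := hRd.continuousAt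
  have hrc : ContinuousAt (ra R₀ q₁ q₂) 0 := hrd.continuousAt
  have hexists : ∀ U ∈ 𝓝 τ₀, ∀ᶠ l in 𝓝 (0 : ℝ), ∃ τ ∈ U, 0 ≤ τ ∧
      (ZG e d (h (ra R₀ q₁ q₂ l)) (k (ra R₀ q₁ q₂ l)) (fun t => S t (ra R₀ q₁ q₂ l)) (fun t => S' t (ra R₀ q₁ q₂ l)) τ).α = -(x₀ + l * x₁) / RR R₀ q₁ q₂ l := by
    intro U hU
    refine ozzd_exists (A := fun l τ => (ZG e d (h (ra R₀ q₁ q₂ l)) (k (ra R₀ q₁ q₂ l)) (fun t => S t (ra R₀ q₁ q₂ l)) (fun t => S' t (ra R₀ q₁ q₂ l)) τ).α)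
      (b := fun l => -(x₀ + l * x₁) / RR R₀ q₁ q₂ l) hτ ?_ ?_ ?_ ?_ ?_ hU
    · show StrictMonoOn (fun τ => (ZG e d (h (ra R₀ q₁ q₂ 0)) (k (ra R₀ q₁ q₂ 0)) (fun t => S t (ra R₀ q₁ q₂ 0)) (fun t => S' t (ra R₀ q₁ q₂ 0)) τ).α) (Ici 0)
      exact (zg_alpha (D.hk _)).1
    · intro l
      exact (half_HZG (D.hk _)).cα
    · intro τ hτ0
      have h1 := (zg_cont_r D hτ0).2
      exact ContinuousAt.comp (f := ra R₀ q₁ q₂) (x := (0 : ℝ))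
        (g := fun r => (ZG e d (h r) (k r) (fun t => S t r) (fun t => S' t r) τ).α) h1.continuousAt hrc
    · have h1 : ContinuousAt (fun l : ℝ => -(x₀ + l * x₁)) 0 := by fun_prop
      exact h1.div hRc hRpos.ne'
    · show -(x₀ + 0 * x₁) / RR R₀ q₁ q₂ 0 =
        (ZG e d (h (ra R₀ q₁ q₂ 0)) (k (ra R₀ q₁ q₂ 0)) (fun t => S t (ra R₀ q₁ q₂ 0)) (fun t => S' t (ra R₀ q₁ q₂ 0)) τ₀).α
      rw [hRR0, hra0, zero_mul, add_zero, hx, neg_neg]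
      field_simp
  have hshift : ∀ t : ℝ, Tendsto (fun p : ℝ × ℝ => (p.1, p.2 - τ₀ + t)) (𝓝 (0, τ₀)) (𝓝 (0, t)) := by
    intro t
    have hcont : Continuous (fun p : ℝ × ℝ => (p.1, p.2 - τ₀ + t)) := by fun_prop
    have := hcont.tendsto (0, τ₀)
    simpa using this
  have hP1 := (hshift t₁).eventually huniq1
  have hP2 := (hshift t₂).eventually huniq2
  have hP3 : ∀ᶠ p : ℝ × ℝ in 𝓝 (0, τ₀), ∀ r,
      ((ZG e d (h r) (k r) (fun t => S t r) (fun t => S' t r) p.2).a = (S₁ (p.2 - τ₀ + t₁) r).a ∧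
          (ZG e d (h r) (k r) (fun t => S t r) (fun t => S' t r) p.2).α = (S₁ (p.2 - τ₀ + t₁) r).α) ∨
        ((ZG e d (h r) (k r) (fun t => S t r) (fun t => S' t r) p.2).a = (S₂ (p.2 - τ₀ + t₂) r).a ∧
          (ZG e d (h r) (k r) (fun t => S t r) (fun t => S' t r) p.2).α = (S₂ (p.2 - τ₀ + t₂) r).α) :=
    (continuous_snd.tendsto ((0 : ℝ), τ₀)).eventually hloc
  have hP := hP1.and (hP2.and hP3)
  rw [nhds_prod_eq] at hP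
  obtain ⟨pa, hpa, pb, hpb, hab⟩ := Filter.eventually_prod_iff.1 hP
  refine ozzd_two hG1 hG2 ?_ ?_ hs1 ?_ ?_
  · show x₀ + 0 * x₁ + RR R₀ q₁ q₂ 0 * (S₁ (tt₁ 0) (ra R₀ q₁ q₂ 0)).a = x₀ + R₀ * (S₁ t₁ 0).a
    rw [hRR0, hra0, h01, zero_mul, add_zero]
  · show x₀ + 0 * x₁ + RR R₀ q₁ q₂ 0 * (S₂ (tt₂ 0) (ra R₀ q₁ q₂ 0)).a = x₀ + R₀ * (S₁ t₁ 0).a
    rw [hRR0, hra0, h02, zero_mul, add_zero, ha2]
  · intro ε hε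
    have := hs2' ε hε
    rw [ha2, hα2, hs2, hκ2] at this
    exact this
  · filter_upwards [hexists {τ | pb τ} hpb, hpa, hg, hrr] with l hl1 hl2 hl3 hl4
    obtain ⟨τ, hτU, hτ0, hτe⟩ := hl1
    obtain ⟨hRl, -, -⟩ := hl4
    have heq : -((ZG e d (h (ra R₀ q₁ q₂ l)) (k (ra R₀ q₁ q₂ l)) (fun t => S t (ra R₀ q₁ q₂ l)) (fun t => S' t (ra R₀ q₁ q₂ l)) τ).α * RR R₀ q₁ q₂ l) =
        x₀ + l * x₁ := by
      rw [hτe]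
      field_simp
    have hgl := hl3 τ hτ0 heq
    obtain ⟨hu1, hu2, hz⟩ := hab hl2 hτU
    rcases hz (ra R₀ q₁ q₂ l) with ⟨hza, hzα⟩ | ⟨hza, hzα⟩
    · left
      have h5 := hu1 (by
        show -((S₁ (τ - τ₀ + t₁) (ra R₀ q₁ q₂ l)).α * RR R₀ q₁ q₂ l) = x₀ + l * x₁
        have h6 : (ZG e d (h (ra R₀ q₁ q₂ l)) (k (ra R₀ q₁ q₂ l)) (fun t => S t (ra R₀ q₁ q₂ l)) (fun t => S' t (ra R₀ q₁ q₂ l)) τ).α =
          (S₁ (τ - τ₀ + t₁) (ra R₀ q₁ q₂ l)).α := hzα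
        rw [← h6]
        exact heq)
      have h7 : τ - τ₀ + t₁ = tt₁ l := h5
      have h8 : (ZG e d (h (ra R₀ q₁ q₂ l)) (k (ra R₀ q₁ q₂ l)) (fun t => S t (ra R₀ q₁ q₂ l)) (fun t => S' t (ra R₀ q₁ q₂ l)) τ).a =
        (S₁ (τ - τ₀ + t₁) (ra R₀ q₁ q₂ l)).a := hza
      rw [hgl, h8, h7]
    · right
      have h5 := hu2 (by
        show -((S₂ (τ - τ₀ + t₂) (ra R₀ q₁ q₂ l)).α * RR R₀ q₁ q₂ l) = x₀ + l * x₁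
        have h6 : (ZG e d (h (ra R₀ q₁ q₂ l)) (k (ra R₀ q₁ q₂ l)) (fun t => S t (ra R₀ q₁ q₂ l)) (fun t => S' t (ra R₀ q₁ q₂ l)) τ).α =
          (S₂ (τ - τ₀ + t₂) (ra R₀ q₁ q₂ l)).α := hzα
        rw [← h6]
        exact heq)
      have h7 : τ - τ₀ + t₂ = tt₂ l := h5
      have h8 : (ZG e d (h (ra R₀ q₁ q₂ l)) (k (ra R₀ q₁ q₂ l)) (fun t => S t (ra R₀ q₁ q₂ l)) (fun t => S' t (ra R₀ q₁ q₂ l)) τ).a =
        (S₂ (τ - τ₀ + t₂) (ra R₀ q₁ q₂ l)).a := hza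
      rw [hgl, h8, h7]

end CJ
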