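import Pool.Agent.H.MP_1693ff_gtE.ONearB

/-!
# All steps
-/

namespace CJ

open Real Set Filter Topology CG CH
open CF hiding St

variable {ι : Type} [TopologicalSpace ι]
variable {E : Type} [NormedAddCommGroup E] [InnerProductSpace ℝ E]

/-- **All steps, near a point.** -/
theorem near_pt [FiniteDimensional ℝ E] {e d : ℝ} {ax : E} {A B : E → ℝ} {Φ Ψ : ι → E → ℝ}
    {i₀ : ι} (F : Fml e d ax A B Φ Ψ i₀) {S : ι → E → ℝ → St} {T : ι → E → E → ℝ → Tt}
    (H : Stf d ax A S T i₀) {c C : ℝ} (K : CC e d c C ax A B (Φ i₀) (Ψ i₀)) {x₀ : E × E × ℝ}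
    (hx : x₀ ∈ XX ax) : ∀ᶠ p : ι × (E × E × ℝ) in 𝓝 (i₀, x₀), ∀ n : ℕ,
      Cd e d c C (if Even n then PE (Φ p.1) ax p.2.1 else PE (Ψ p.1) ax p.2.1)
        (chE e d ax Φ Ψ S n p) ∧
      (‖p.2.2.1‖ = 1 → PD (chE e d ax Φ Ψ S n p) (ctE e d ax Φ Ψ S T n p)) := by
  obtain ⟨N, hN⟩ := (near_far F H K hx).exists
  have hfin : ∀ᶠ p : ι × (E × E × ℝ) in 𝓝 (i₀, x₀), ∀ n ∈ Finset.range (2 * N),
      Cd e d c C (if Even n then PE (Φ p.1) ax p.2.1 else PE (Ψ p.1) ax p.2.1)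
        (chE e d ax Φ Ψ S n p) ∧
      (‖p.2.2.1‖ = 1 → PD (chE e d ax Φ Ψ S n p) (ctE e d ax Φ Ψ S T n p)) :=
    (Finset.eventually_all _).2 fun n _ => near_fin F H K hx n
  filter_upwards [hN, hfin] with p h1 h2 n
  rcases lt_or_ge n (2 * N) with h | h
  · exact h2 n (Finset.mem_range.2 h)
  · obtain ⟨k, rfl⟩ := Nat.exists_eq_add_of_le h
    have h3 := h1 k
    have e1 : Even (2 * N + k) ↔ Even k := by
      rw [Nat.even_add]
      simp
    simp only [e1]
    exact h3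

/-- The parameter set is compact. -/
theorem xx_compact [FiniteDimensional ℝ E] (ax : E) : IsCompact (XX ax) := by
  have h1 : IsCompact (Metric.closedBall (0 : E) 1 ×ˢ
      (Metric.closedBall (0 : E) 1 ×ˢ Icc (0 : ℝ) 1)) :=
    (isCompact_closedBall 0 1).prod ((isCompact_closedBall 0 1).prod isCompact_Icc)
  refine h1.of_isClosed_subset ?_ ?_
  · have e1 : XX ax = {x : E × E × ℝ | ‖x.1‖ = 1} ∩ ({x | inner ℝ ax x.1 = (0 : ℝ)} ∩
        ({x | inner ℝ ax x.2.1 = (0 : ℝ)} ∩ ({x | inner ℝ x.1 x.2.1 = (0 : ℝ)} ∩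
        ({x | ‖x.2.1‖ ≤ 1} ∩ ({x | 0 ≤ x.2.2} ∩ {x | x.2.2 ≤ 1}))))) := by
      ext x
      constructor
      · rintro ⟨h, h2, h3, h4, h5⟩
        exact ⟨h.n1, h.o1, h2, h3, h4, h5.1, h5.2⟩
      · rintro ⟨h, h', h2, h3, h4, h5, h6⟩
        exact ⟨⟨h, h'⟩, h2, h3, h4, h5, h6⟩
    rw [e1]
    have c1 : Continuous fun x : E × E × ℝ => x.1 := continuous_fst
    have c2 : Continuous fun x : E × E × ℝ => x.2.1 := continuous_fst.comp continuous_snd
    have c3 : Continuous fun x : E × E × ℝ => x.2.2 := continuous_snd.comp continuous_snd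
    refine (isClosed_eq c1.norm continuous_const).inter
      ((isClosed_eq (continuous_const.inner c1) continuous_const).inter
      ((isClosed_eq (continuous_const.inner c2) continuous_const).inter
      ((isClosed_eq (c1.inner c2) continuous_const).inter
      ((isClosed_le c2.norm continuous_const).inter
      ((isClosed_le continuous_const c3).inter (isClosed_le c3 continuous_const))))))
  · rintro x ⟨h, -, -, h4, h5⟩
    refine ⟨?_, ?_, h5⟩
    · rw [mem_closedBall_zero_iff, h.n1]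
    · rw [mem_closedBall_zero_iff]; exact h4

/-- **All steps, all parameters.**  `IsCompact.eventually_forall_of_forall_eventually`. -/
theorem near_all [FiniteDimensional ℝ E] {e d : ℝ} {ax : E} {A B : E → ℝ} {Φ Ψ : ι → E → ℝ}
    {i₀ : ι} (F : Fml e d ax A B Φ Ψ i₀) {S : ι → E → ℝ → St} {T : ι → E → E → ℝ → Tt}
    (H : Stf d ax A S T i₀) {c C : ℝ} (K : CC e d c C ax A B (Φ i₀) (Ψ i₀)) :
    ∀ᶠ i in 𝓝 i₀, ∀ x ∈ XX ax, ∀ n : ℕ,
      Cd e d c C (if Even n then PE (Φ i) ax x.1 else PE (Ψ i) ax x.1)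
        (chE e d ax Φ Ψ S n (i, x)) ∧
      (‖x.2.1‖ = 1 → PD (chE e d ax Φ Ψ S n (i, x)) (ctE e d ax Φ Ψ S T n (i, x))) := by
  refine (xx_compact ax).eventually_forall_of_forall_eventually fun x hx => ?_
  filter_upwards [near_pt F H K hx] with p hp
  exact hp

end CJ
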