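import Pool.Agent.H.MP_1693ff_gtE.OFarAll
import Pool.Agent.H.MP_1693ff_gtE.OFarV
import Pool.Agent.H.MP_1693ff_gtE.OFarE
import Pool.Agent.H.MP_1693ff_gtE.OFarF
import Pool.Agent.H.MP_1693ff_gtE.OFarH
import Pool.Agent.H.MP_1693ff_gtE.OCyc

/-!
# The runs of a family
-/

namespace CJ

open Real Set Filter Topology CG CH
open CF hiding St

variable {ι : Type} [TopologicalSpace ι]
variable {E : Type} [NormedAddCommGroup E] [InnerProductSpace ℝ E]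

theorem oneara_snd (i₀ : ι) (x₀ : E × E × ℝ) :
    Tendsto (fun j : ℕ × (ι × (E × E × ℝ)) => j.2) ((atTop : Filter ℕ).curry (𝓝 (i₀, x₀)))
      (𝓝 (i₀, x₀)) :=
  tendsto_snd.mono_left curry_le_prod

theorem oneara_tp {Φ : ι → E → ℝ} {i₀ : ι} {ax : E} (j : JC i₀ ax 3 Φ) (x₀ : E × E × ℝ) :
    TP (((atTop : Filter ℕ).curry (𝓝 (i₀, x₀))) ×ˢ 𝓝[>] (0 : ℝ))
      (fun p : (ℕ × (ι × (E × E × ℝ))) × ℝ => NP (Φ p.1.2.1) ax p.1.2.2.1 p.1.2.2.2.1 p.2)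
      (NP (Φ i₀) ax x₀.1 x₀.2.1 0) := by
  have h := np_joint j x₀
  have hm : Tendsto (fun p : (ℕ × (ι × (E × E × ℝ))) × ℝ => (p.1.2, p.2))
      (((atTop : Filter ℕ).curry (𝓝 (i₀, x₀))) ×ˢ 𝓝[>] (0 : ℝ))
      (𝓝 (i₀, x₀) ×ˢ 𝓝 (0 : ℝ)) :=
    ((oneara_snd i₀ x₀).comp tendsto_fst).prodMk
      ((tendsto_id.mono_right nhdsWithin_le_nhds).comp tendsto_snd)
  exact ⟨h.w.comp hm, h.g.comp hm, h.b.comp hm, h.K.comp hm, h.L.comp hm, h.Q.comp hm⟩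

/-- `far_env` with the limit cycle `cyc_bd`: the profiles converge by `np_joint` (for `Φ` and
`Ψ`; `Filter.curry_le_prod`, `tendsto_snd`), the start by `tn_start`, `tn_pos`. -/
theorem near_env [FiniteDimensional ℝ E] {e d : ℝ} {ax : E} {A B : E → ℝ} {Φ Ψ : ι → E → ℝ}
    {i₀ : ι} (F : Fml e d ax A B Φ Ψ i₀) {S : ι → E → ℝ → St} {T : ι → E → E → ℝ → Tt}
    (H : Stf d ax A S T i₀) {x₀ : E × E × ℝ} (hx : x₀ ∈ XX ax) :
    ∃ θ : ℝ, Env ((atTop : Filter ℕ).curry (𝓝 (i₀, x₀))) e d θ (rp e d ax Φ Ψ S T)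
      (rn e d ax Φ Ψ S T) (fun n => NP (if Even n then Φ i₀ else Ψ i₀) ax x₀.1 x₀.2.1 0)
      (fun n => NS (if Even n then A else B) ax x₀.1 x₀.2.1 0) := by
  have hax : ax ≠ 0 := by
    intro h
    have h1 := F.bd.a1
    rw [h, norm_zero] at h1
    exact zero_ne_one h1
  refine far_env (l := (atTop : Filter ℕ).curry (𝓝 (i₀, x₀)))
    (P := fun (j : ℕ × (ι × (E × E × ℝ))) (n : ℕ) (z : ℝ) =>
      NP (if Even n then Φ j.2.1 else Ψ j.2.1) ax j.2.2.1 j.2.2.2.1 z)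
    (N₀ := fun j => nv d (chE e d ax Φ Ψ S (2 * j.1) j.2) (ctE e d ax Φ Ψ S T (2 * j.1) j.2))
    F.e1 F.bd.d0
    (cyc_bd F.bd F.e1 (F.hΦ i₀) (F.hΨ i₀) (F.oΦ) (F.oΨ) hx.1 x₀.2.1) ?_ ?_ ?_ ?_
  · intro j n z
    have h1 : Even (n + 2) ↔ Even n := by
      rw [Nat.even_add]
      simp
    simp only [h1]
  · intro n
    by_cases hn : Even n
    · simp only [if_pos hn]
      exact oneara_tp (F.jΦ ax hax) x₀
    · simp only [if_neg hn]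
      exact oneara_tp (F.jΨ ax hax) x₀
  · have h0 : Even 0 := ⟨0, rfl⟩
    simp only [if_pos h0]
    exact tn_start F H hx
  · filter_upwards [tn_pos F H hx] with j hj
    exact inv_pos.2 hj.1

/-- `far_all`; for `e = 1` the hypothesis `Hc` by `hc_NP` (the `z` of the run are eventually
`≤ z₁`: `(near_env F H hx)`, `env_z`), `R j = NP (Φ j.2.1) ax j.2.2.1 j.2.2.2.1 0`. -/
theorem near_un [FiniteDimensional ℝ E] {e d : ℝ} {ax : E} {A B : E → ℝ} {Φ Ψ : ι → E → ℝ}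
    {i₀ : ι} (F : Fml e d ax A B Φ Ψ i₀) {S : ι → E → ℝ → St} {T : ι → E → E → ℝ → Tt}
    (H : Stf d ax A S T i₀) {x₀ : E × E × ℝ} (hx : x₀ ∈ XX ax) :
    UN ((atTop : Filter ℕ).curry (𝓝 (i₀, x₀))) (rn e d ax Φ Ψ S T)
      (fun n => NS (if Even n then A else B) ax x₀.1 x₀.2.1 0) := by
  obtain ⟨θ, HE⟩ := near_env F H hx
  refine far_all HE ?_
  intro he
  subst he
  obtain ⟨C, z₁, hC, hz1, hev⟩ := hc_NP F hx
  refine ⟨C, hC, fun j => NP (Φ j.2.1) ax j.2.2.1 j.2.2.2.1 0, ?_⟩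
  have h1 := env_z HE z₁ hz1
  have h2 := (oneara_snd i₀ x₀).eventually hev
  filter_upwards [h1, h2, HE.z] with j h1 h2 h3 n
  have h4 := h1 n
  have h5 := HE.cyc.z n
  rw [h5, sub_zero] at h4
  exact h2 n _ ⟨(h3 n).1.le, (le_abs_self _).trans h4⟩

end CJ
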