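import Pool.Agent.H.MP_1693ff_gtE.ONearA
import Pool.Agent.H.MP_1693ff_gtE.OFarC
import Pool.Agent.H.MP_1693ff_gtE.OFarB
import Pool.Agent.H.MP_1693ff_gtE.OFarD

/-!
# The far region
-/

namespace CJ

open Real Set Filter Topology CG CH
open CF hiding St

variable {ι : Type} [TopologicalSpace ι]
variable {E : Type} [NormedAddCommGroup E] [InnerProductSpace ℝ E]

/-- a single run. -/
theorem onearb_one {e d c C : ℝ} (he : 1 ≤ e) (hd : 0 < d) (hc : 0 < c) {Φ Ψ : E → ℝ}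
    (hΦ : Hg Φ) (hΨ : Hg Ψ) {ax ω η : E} (hω : ∀ a : ℝ, a • ax + ω ≠ 0) {S0 : St} {T0 : Tt}
    (ha : 0 < S0.a) (hv : 0 < S0.v) {M : ℕ → Nv} {G : ℕ → Np}
    (hM : ∀ n, M n = cN e d (fun n z => NP (if Even n then Φ else Ψ) ax ω η z) (nv d S0 T0) n)
    (hG : ∀ n, G n = NP (if Even n then Φ else Ψ) ax ω η (M n).z)
    (h : ∀ n, 0 < (M n).z ∧ 0 < (M n).w ∧ c * ((M n).z + 1) < (M n).w ∧ (M n).w < (G n).w ∧
      c < 1 - d * ((M n).w - (M n).z * (M n).g) ∧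
      1 - d * ((M n).w - (M n).z * (M n).g) < c⁻¹ ∧ 0 < (M n).K ∧
      0 < nm e d (G n) (M n) * (1 - d * nz e d (G n) (M n) * ngo e (G n) (M n)) ∧
      d * |(M n).g| < C) (n : ℕ) :
    Cd e d c C (if Even n then PE Φ ax ω else PE Ψ ax ω)
      (cS e d (PE Φ ax ω) (PE Ψ ax ω) S0 n) ∧
    ((M n).L ^ 2 < (M n).K * (M n).Q → PD (cS e d (PE Φ ax ω) (PE Ψ ax ω) S0 n)
      (cT e d (PE Φ ax ω) (PE Ψ ax ω) (GE Φ ax ω η) (GE Ψ ax ω η) S0 T0 n)) := by
  have hP : ∀ (n : ℕ) (a : ℝ), 0 < a → NP (if Even n then Φ else Ψ) ax ω η a⁻¹ =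
      np (if Even n then PE Φ ax ω else PE Ψ ax ω)
        (if Even n then GE Φ ax ω η else GE Ψ ax ω η) a := by
    intro n a ha
    by_cases hn : Even n
    · rw [if_pos hn, if_pos hn, if_pos hn]
      exact (np_PE hΦ.h η ha ((hΦ.c _ (hω a)).of_le (by norm_num))).symm
    · rw [if_neg hn, if_neg hn, if_neg hn]
      exact (np_PE hΨ.h η ha ((hΨ.c _ (hω a)).of_le (by norm_num))).symm
  have key : ∀ n, 0 < (cS e d (PE Φ ax ω) (PE Ψ ax ω) S0 n).a ∧
      nv d (cS e d (PE Φ ax ω) (PE Ψ ax ω) S0 n)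
        (cT e d (PE Φ ax ω) (PE Ψ ax ω) (GE Φ ax ω η) (GE Ψ ax ω η) S0 T0 n) = M n := by
    intro n
    rw [hM n]
    refine far_chain (Pn := fun n z => NP (if Even n then Φ else Ψ) ax ω η z) he hd hP ha ?_ n
    intro k
    have hk := h k
    rw [hG k, hM k] at hk
    exact ⟨hk.2.1, hk.2.2.2.1, hk.2.2.2.2.2.2.2.1⟩
  have hnp : ∀ n, np (if Even n then PE Φ ax ω else PE Ψ ax ω)
      (if Even n then GE Φ ax ω η else GE Ψ ax ω η)
      (cS e d (PE Φ ax ω) (PE Ψ ax ω) S0 n).a = G n := by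
    intro n
    rw [hG n, ← (key n).2]
    exact (hP n _ (key n).1).symm
  have hW : ∀ n, 0 < (cS e d (PE Φ ax ω) (PE Ψ ax ω) S0 n).W d ∧
      (cS e d (PE Φ ax ω) (PE Ψ ax ω) S0 n).W d <
        (if Even n then PE Φ ax ω else PE Ψ ax ω).f
          (cS e d (PE Φ ax ω) (PE Ψ ax ω) S0 n).a := by
    intro n
    have hk := h n
    rw [← hnp n, ← (key n).2] at hk
    have ha' := (key n).1
    have h1 : 0 < (cS e d (PE Φ ax ω) (PE Ψ ax ω) S0 n).W d /
        (cS e d (PE Φ ax ω) (PE Ψ ax ω) S0 n).a := hk.2.1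
    have h2 : (cS e d (PE Φ ax ω) (PE Ψ ax ω) S0 n).W d /
        (cS e d (PE Φ ax ω) (PE Ψ ax ω) S0 n).a <
        (if Even n then PE Φ ax ω else PE Ψ ax ω).f
          (cS e d (PE Φ ax ω) (PE Ψ ax ω) S0 n).a /
          (cS e d (PE Φ ax ω) (PE Ψ ax ω) S0 n).a := hk.2.2.2.1
    exact ⟨(div_pos_iff_of_pos_right ha').1 h1, (div_lt_div_iff_of_pos_right ha').1 h2⟩
  have hp0 : ∀ n, 0 < 1 + d * opp1 e d (if Even n then PE Φ ax ω else PE Ψ ax ω)
      (cS e d (PE Φ ax ω) (PE Ψ ax ω) S0 n) := by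
    intro n
    have hk := h n
    rw [← hnp n, ← (key n).2] at hk
    rw [nv_p (G := if Even n then GE Φ ax ω η else GE Ψ ax ω η)
      (T := cT e d (PE Φ ax ω) (PE Ψ ax ω) (GE Φ ax ω η) (GE Ψ ax ω η) S0 T0 n)
      he hd (key n).1 (hW n).1 (hW n).2]
    exact hk.2.2.2.2.2.2.2.1
  have hvn : ∀ n, 0 < (cS e d (PE Φ ax ω) (PE Ψ ax ω) S0 n).v := far_v hv hp0
  have hk := h n
  rw [← hnp n, ← (key n).2] at hk
  obtain ⟨k1, k2, k3, k4, k5, k6, k7, k8, k9⟩ := hk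
  refine ⟨cd_of_nv he hd hc (key n).1 k3 k4 k5 k6 k7 (hvn n) k8 k9, fun hL => ?_⟩
  rw [← (key n).2] at hL
  exact pd_of_nv hd (key n).1 k7 hL

/-- a vector orthogonal to the axis is not a multiple of the axis. -/
theorem onearb_ne {ax x : E} (hax : ‖ax‖ = 1) (hx : inner ℝ ax x = (0 : ℝ)) (h0 : x ≠ 0)
    (c : ℝ) : x ≠ c • ax := by
  intro h
  apply h0
  rw [h, inner_smul_right, real_inner_self_eq_norm_sq, hax] at hx
  have hc : c = 0 := by simpa using hx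
  rw [h, hc, zero_smul]

/-- positive definiteness on the span of two orthonormal vectors. -/
theorem onearb_pd {V : E → ℝ} {ax ω η : E} (hax : ‖ax‖ = 1) (hω : Un ax ω)
    (hη : inner ℝ ax η = (0 : ℝ)) (ho : inner ℝ ω η = (0 : ℝ)) (h1 : ‖η‖ = 1)
    (hc : ContDiffAt ℝ 2 V ax)
    (q : ∀ x, (∀ c : ℝ, x ≠ c • ax) → 0 < D2 V ax x x) :
    (-D2 V ax ω η) ^ 2 < D2 V ax ω ω * D2 V ax η η := by
  have hη0 : η ≠ 0 := by
    intro h
    rw [h, norm_zero] at h1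
    exact zero_ne_one h1
  have hQ : 0 < D2 V ax η η := q η (onearb_ne hax hη hη0)
  have hx : 0 < D2 V ax (D2 V ax η η • ω + (-D2 V ax ω η) • η)
      (D2 V ax η η • ω + (-D2 V ax ω η) • η) := by
    refine q _ (onearb_ne hax ?_ ?_)
    · rw [inner_add_right, inner_smul_right, inner_smul_right, hη, hω.o1]
      ring
    · intro h
      have h2 : inner ℝ ω (D2 V ax η η • ω + (-D2 V ax ω η) • η) = (0 : ℝ) := by
        rw [h, inner_zero_right]
      rw [inner_add_right, inner_smul_right, inner_smul_right, ho,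
        real_inner_self_eq_norm_sq, hω.n1] at h2
      linarith
  rw [d2_add_l, d2_add_r, d2_add_r, d2_smul_l, d2_smul_l, d2_smul_l, d2_smul_l, d2_smul_r,
    d2_smul_r, d2_smul_r, d2_smul_r, d2_symm hc η ω] at hx
  have h3 : 0 < D2 V ax η η * (D2 V ax ω ω * D2 V ax η η - (-D2 V ax ω η) ^ 2) := by
    nlinarith [hx]
  have h4 := (mul_pos_iff_of_pos_left hQ).1 h3
  linarith

/-- **The far region.**  `far_ineq` (limit inequalities from `K.lA`, `K.lB`; `K* = D2 A ax ω ω > 0`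
by `F.bd.qA`) and, if `‖η₀‖ = 1`, `far_ineq_pd` (`D2 A ax` is positive definite on the span of
`ω₀, η₀`); if `‖η₀‖ ≠ 1` then `‖η‖ ≠ 1` near `x₀`.  `far_chain` with
`Pn n z = NP (if Even n then Φ i else Ψ i) ax ω η z` (`np_PE`; `c` from `F.hΦ`, `F.hΨ`; for `ω`
near `ω₀` the point `a ax + ω` is not `0`), `cS_add`, `cT_add`, `far_v`, `cd_of_nv`,
`pd_of_nv`; `eventually_curry_iff`. -/
theorem near_far [FiniteDimensional ℝ E] {e d : ℝ} {ax : E} {A B : E → ℝ} {Φ Ψ : ι → E → ℝ}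
    {i₀ : ι} (F : Fml e d ax A B Φ Ψ i₀) {S : ι → E → ℝ → St} {T : ι → E → E → ℝ → Tt}
    (H : Stf d ax A S T i₀) {c C : ℝ} (K : CC e d c C ax A B (Φ i₀) (Ψ i₀)) {x₀ : E × E × ℝ}
    (hx : x₀ ∈ XX ax) : ∀ᶠ N : ℕ in atTop, ∀ᶠ p : ι × (E × E × ℝ) in 𝓝 (i₀, x₀), ∀ n : ℕ,
      Cd e d c C (if Even n then PE (Φ p.1) ax p.2.1 else PE (Ψ p.1) ax p.2.1)
        (chE e d ax Φ Ψ S (2 * N + n) p) ∧
      (‖p.2.2.1‖ = 1 → PD (chE e d ax Φ Ψ S (2 * N + n) p)
        (ctE e d ax Φ Ψ S T (2 * N + n) p)) := by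
  obtain ⟨θ, HE⟩ := near_env F H hx
  have U := near_un F H hx
  have hax := F.bd.a1
  have hax0 : ax ≠ 0 := by
    intro h
    rw [h, norm_zero] at hax
    exact zero_ne_one hax
  have hω : Un ax x₀.1 := hx.1
  have hω0 : x₀.1 ≠ 0 := by
    intro h
    have := hω.n1
    rw [h, norm_zero] at this
    exact zero_ne_one this
  have hz : ax + (0 : ℝ) • x₀.1 = ax := by rw [zero_smul, add_zero]
  have hmain := far_ineq HE U (c := c) (C := C) (fun n => ?_) (fun n => ?_) (fun n => ?_)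
    (fun n => ?_) (fun n => ?_)
  rotate_left
  · by_cases hn : Even n
    · simp only [if_pos hn, NS, hz]
      exact (K.lA _ hω).w
    · simp only [if_neg hn, NS, hz]
      exact (K.lB _ hω).w
  · by_cases hn : Even n
    · simp only [if_pos hn, NS, hz]
      exact (K.lA _ hω).s0
    · simp only [if_neg hn, NS, hz]
      exact (K.lB _ hω).s0
  · by_cases hn : Even n
    · simp only [if_pos hn, NS, hz]
      exact (K.lA _ hω).s1
    · simp only [if_neg hn, NS, hz]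
      exact (K.lB _ hω).s1
  · by_cases hn : Even n
    · simp only [if_pos hn, NS, hz]
      exact F.bd.qA ax x₀.1 hax0 (onearb_ne hax hω.o1 hω0)
    · simp only [if_neg hn, NS, hz]
      exact F.bd.qB ax x₀.1 hax0 (onearb_ne hax hω.o1 hω0)
  · by_cases hn : Even n
    · simp only [if_pos hn, NS, hz]
      exact (K.lA _ hω).g
    · simp only [if_neg hn, NS, hz]
      exact (K.lB _ hω).g
  have hpd : ∀ᶠ j in (atTop : Filter ℕ).curry (𝓝 (i₀, x₀)), ‖j.2.2.2.1‖ = 1 → ∀ n,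
      (rn e d ax Φ Ψ S T j n).L ^ 2 <
        (rn e d ax Φ Ψ S T j n).K * (rn e d ax Φ Ψ S T j n).Q := by
    by_cases hη : ‖x₀.2.1‖ = 1
    · have := far_ineq_pd HE U (fun n => ?_)
      · filter_upwards [this] with j hj _
        exact hj
      · by_cases hn : Even n
        · simp only [if_pos hn, NS, hz]
          exact onearb_pd hax hω hx.2.1 hx.2.2.1 hη ((F.bd.hA.c ax hax0).of_le (by norm_num))
            (fun x hx => F.bd.qA ax x hax0 hx)
        · simp only [if_neg hn, NS, hz]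
          exact onearb_pd hax hω hx.2.1 hx.2.2.1 hη ((F.bd.hB.c ax hax0).of_le (by norm_num))
            (fun x hx => F.bd.qB ax x hax0 hx)
    · have hcn : ContinuousAt (fun p : ι × (E × E × ℝ) => ‖p.2.2.1‖) (i₀, x₀) := by fun_prop
      have h1 := (oneara_snd i₀ x₀).eventually (hcn.eventually_ne hη)
      filter_upwards [h1] with j hj hj'
      exact absurd hj' hj
  have hne : ∀ᶠ j in (atTop : Filter ℕ).curry (𝓝 (i₀, x₀)), ∀ a : ℝ, a • ax + j.2.2.1 ≠ 0 := by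
    have hcx : ContinuousAt (fun p : ι × (E × E × ℝ) =>
        p.2.1 - (inner ℝ ax p.2.1 : ℝ) • ax) (i₀, x₀) := by fun_prop
    have h0 : (fun p : ι × (E × E × ℝ) => p.2.1 - (inner ℝ ax p.2.1 : ℝ) • ax) (i₀, x₀) ≠ 0 := by
      show x₀.1 - (inner ℝ ax x₀.1 : ℝ) • ax ≠ 0
      rw [hω.o1, zero_smul, sub_zero]
      exact hω0
    have h1 := (oneara_snd i₀ x₀).eventually (hcx.eventually_ne h0)
    filter_upwards [h1] with j hj a ha
    apply hj
    have h2 : j.2.2.1 = -(a • ax) := (neg_eq_of_add_eq_zero_right ha).symm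
    show j.2.2.1 - (inner ℝ ax j.2.2.1 : ℝ) • ax = 0
    rw [h2, inner_neg_right, inner_smul_right, real_inner_self_eq_norm_sq, hax]
    simp
  have hfin : ∀ᶠ j in (atTop : Filter ℕ).curry (𝓝 (i₀, x₀)), ∀ n : ℕ,
      Cd e d c C (if Even n then PE (Φ j.2.1) ax j.2.2.1 else PE (Ψ j.2.1) ax j.2.2.1)
        (chE e d ax Φ Ψ S (2 * j.1 + n) j.2) ∧
      (‖j.2.2.2.1‖ = 1 → PD (chE e d ax Φ Ψ S (2 * j.1 + n) j.2)
        (ctE e d ax Φ Ψ S T (2 * j.1 + n) j.2)) := by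
    filter_upwards [hmain, hpd, hne, tn_pos F H hx] with j j1 j2 j3 j4 n
    have h1 := onearb_one (e := e) (d := d) (c := c) (C := C) F.e1 F.bd.d0 K.c0 (F.hΦ j.2.1)
      (F.hΨ j.2.1) (η := j.2.2.2.1) j3 (T0 := ctE e d ax Φ Ψ S T (2 * j.1) j.2) j4.1 j4.2
      (M := rn e d ax Φ Ψ S T j) (G := rp e d ax Φ Ψ S T j) (fun _ => rfl) (fun _ => rfl) j1 n
    unfold chE ctE
    rw [cS_add, cT_add]
    exact ⟨h1.1, fun h2 => h1.2 (j2 h2 n)⟩
  exact eventually_curry_iff.1 hfin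

end CJ
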