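import Pool.Agent.H.MP_1693ff_gtE.OE

/-!
# The half step in normalised variables
-/

namespace CJ

open Real Set Filter Topology CG CH
open CF hiding St

theorem onva_sub {e W f : ℝ} (he : 1 ≤ e) (W0 : 0 < W) (W1 : W < f) : 0 < f ^ e - W ^ e :=
  sub_pos.2 (Real.rpow_lt_rpow W0.le W1 (by linarith))

theorem onva_opp_pos {e d : ℝ} {P : Pf} {S : St} (he : 1 ≤ e) (W0 : 0 < S.W d)
    (W1 : S.W d < P.f S.a) : 0 < opp e d P S :=
  Real.rpow_pos_of_pos (onva_sub he W0 W1) _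

theorem onva_no {e d : ℝ} {P : Pf} {G : Pt} {S : St} {T : Tt} (he : 1 ≤ e)
    (ha : 0 < S.a) (W0 : 0 < S.W d) (W1 : S.W d < P.f S.a) :
    no e (np P G S.a) (nv d S T) = opp e d P S / S.a := by
  have h1 := onva_sub he W0 W1
  have he0 : e ≠ 0 := by linarith
  change ((P.f S.a / S.a) ^ e - (S.W d / S.a) ^ e) ^ e⁻¹ = (P.f S.a ^ e - S.W d ^ e) ^ e⁻¹ / S.a
  rw [Real.div_rpow (W0.trans W1).le ha.le, Real.div_rpow W0.le ha.le, ← sub_div,
    Real.div_rpow h1.le (Real.rpow_nonneg ha.le _), Real.rpow_rpow_inv ha.le he0]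

theorem onva_A {e d : ℝ} {P : Pf} {G : Pt} {S : St} {T : Tt} (he : 1 ≤ e)
    (ha : 0 < S.a) (W0 : 0 < S.W d) (W1 : S.W d < P.f S.a) :
    ((np P G S.a).w / no e (np P G S.a) (nv d S T)) ^ (e - 1) =
      (P.f S.a / opp e d P S) ^ (e - 1) := by
  rw [onva_no he ha W0 W1]
  change (P.f S.a / S.a / (opp e d P S / S.a)) ^ (e - 1) = _
  rw [div_div_div_cancel_right₀ ha.ne']

theorem onva_B {e d : ℝ} {P : Pf} {G : Pt} {S : St} {T : Tt} (he : 1 ≤ e)
    (ha : 0 < S.a) (W0 : 0 < S.W d) (W1 : S.W d < P.f S.a) :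
    ((nv d S T).w / no e (np P G S.a) (nv d S T)) ^ (e - 1) =
      (S.W d / opp e d P S) ^ (e - 1) := by
  rw [onva_no he ha W0 W1]
  change (S.W d / S.a / (opp e d P S / S.a)) ^ (e - 1) = _
  rw [div_div_div_cancel_right₀ ha.ne']

theorem onva_euler {e d : ℝ} {P : Pf} {S : St} (he : 1 ≤ e) (W0 : 0 < S.W d)
    (W1 : S.W d < P.f S.a) :
    (P.f S.a / opp e d P S) ^ (e - 1) * P.f S.a - (S.W d / opp e d P S) ^ (e - 1) * S.W d =
      opp e d P S := by
  have ho := onva_opp_pos he W0 W1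
  have hf : 0 < P.f S.a := W0.trans W1
  have he0 : e ≠ 0 := by linarith
  have h1 : opp e d P S ^ e = P.f S.a ^ e - S.W d ^ e :=
    Real.rpow_inv_rpow (onva_sub he W0 W1).le he0
  have h2 : 0 < opp e d P S ^ e := Real.rpow_pos_of_pos ho _
  rw [Real.rpow_sub_one (div_pos hf ho).ne', Real.rpow_sub_one (div_pos W0 ho).ne',
    Real.div_rpow hf.le ho.le, Real.div_rpow W0.le ho.le]
  have h3 : P.f S.a ^ e = opp e d P S ^ e + S.W d ^ e := by linarith
  rw [h3]
  field_simp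
  ring

theorem onva_g {d : ℝ} (hd : 0 < d) (S : St) (T : Tt) : (nv d S T).g = S.W d - S.a * S.p d := by
  change (S.s * S.a - S.α) / d = (S.a - S.α) / d - S.a * ((1 - S.s) / d)
  field_simp
  ring

theorem onva_go {e d : ℝ} {P : Pf} {G : Pt} {S : St} {T : Tt} (he : 1 ≤ e) (hd : 0 < d)
    (ha : 0 < S.a) (W0 : 0 < S.W d) (W1 : S.W d < P.f S.a) :
    ngo e (np P G S.a) (nv d S T) = opp e d P S - S.a * opp1 e d P S := by
  have h1 := onva_euler he W0 W1
  unfold ngo
  rw [onva_A he ha W0 W1, onva_B he ha W0 W1, onva_g hd]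
  change (P.f S.a / opp e d P S) ^ (e - 1) * (P.f S.a - S.a * P.f1 S.a) - _ = _
  unfold opp1
  linarith

theorem onva_nc {e d : ℝ} {P : Pf} {G : Pt} {S : St} {T : Tt} (he : 1 ≤ e)
    (ha : 0 < S.a) (W0 : 0 < S.W d) (W1 : S.W d < P.f S.a) :
    nc e (np P G S.a) (nv d S T) = S.a ^ 3 * cc e d P S := by
  have ho := onva_opp_pos he W0 W1
  have hf : 0 < P.f S.a := W0.trans W1
  unfold nc cc
  rw [onva_no he ha W0 W1]
  change (e - 1) * (S.W d / S.a) ^ (e - 2) * (P.f S.a / S.a) ^ (e - 2) *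
    (opp e d P S / S.a) ^ (1 - 2 * e) = _
  rw [Real.div_rpow W0.le ha.le, Real.div_rpow hf.le ha.le, Real.div_rpow ho.le ha.le]
  have h1 : S.a ^ (e - 2) * S.a ^ (e - 2) * S.a ^ (1 - 2 * e) * S.a ^ 3 = 1 := by
    rw [← Real.rpow_add ha, ← Real.rpow_add ha, ← Real.rpow_natCast S.a 3, ← Real.rpow_add ha]
    have : e - 2 + (e - 2) + (1 - 2 * e) + ((3 : ℕ) : ℝ) = 0 := by
      push_cast
      ring
    rw [this, Real.rpow_zero]
  have h2 : 0 < S.a ^ (e - 2) := Real.rpow_pos_of_pos ha _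
  have h3 : 0 < S.a ^ (1 - 2 * e) := Real.rpow_pos_of_pos ha _
  have h4 : S.a ^ 3 = 1 / (S.a ^ (e - 2) * S.a ^ (e - 2) * S.a ^ (1 - 2 * e)) := by
    rw [eq_div_iff (by positivity)]
    linarith
  rw [h4]
  field_simp

theorem onva_dl {d : ℝ} {P : Pf} {G : Pt} {S : St} {T : Tt} (hd : 0 < d) (ha : 0 < S.a) :
    ndl (np P G S.a) (nv d S T) = dl d P S := by
  unfold ndl dl
  rw [onva_g hd]
  change S.W d / S.a * (P.f S.a - S.a * P.f1 S.a) - P.f S.a / S.a * (S.W d - S.a * S.p d) = _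
  field_simp
  ring

theorem onva_dr {d : ℝ} {P : Pf} {G : Pt} {S : St} {T : Tt} (ha : 0 < S.a) :
    ndr (np P G S.a) (nv d S T) = dr d P G S T / S.a := by
  unfold ndr dr
  change P.f S.a / S.a * (T.κ / d) + S.W d / S.a * G.fr S.a = _
  field_simp

theorem onva_bo {e d : ℝ} {P : Pf} {G : Pt} {S : St} {T : Tt} (he : 1 ≤ e) (hd : 0 < d)
    (ha : 0 < S.a) (W0 : 0 < S.W d) (W1 : S.W d < P.f S.a) :
    og e d P G S T = d * nbo e (np P G S.a) (nv d S T) := by
  unfold nbo og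
  rw [onva_A he ha W0 W1, onva_B he ha W0 W1]
  change _ = d * ((P.f S.a / opp e d P S) ^ (e - 1) * G.fr S.a +
    (S.W d / opp e d P S) ^ (e - 1) * (T.κ / d))
  field_simp

theorem onva_11 {e d : ℝ} {P : Pf} {G : Pt} {S : St} {T : Tt} (he : 1 ≤ e) (hd : 0 < d)
    (ha : 0 < S.a) (W0 : 0 < S.W d) (W1 : S.W d < P.f S.a) :
    n11 e (np P G S.a) (nv d S T) = S.a ^ 3 * opp2 e d P S := by
  unfold n11
  rw [onva_A he ha W0 W1, onva_B he ha W0 W1, onva_nc he ha W0 W1, onva_dl hd ha]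
  change (P.f S.a / opp e d P S) ^ (e - 1) * (P.f2 S.a * S.a ^ 3) -
    (S.W d / opp e d P S) ^ (e - 1) * (S.k * S.a ^ 3 / d) - _ = _
  unfold opp2 cc dl St.r
  ring

theorem onva_12 {e d : ℝ} {P : Pf} {G : Pt} {S : St} {T : Tt} (he : 1 ≤ e) (hd : 0 < d)
    (ha : 0 < S.a) (W0 : 0 < S.W d) (W1 : S.W d < P.f S.a) :
    n12 e (np P G S.a) (nv d S T) = S.a ^ 2 * mz e d P G S T := by
  unfold n12
  rw [onva_A he ha W0 W1, onva_B he ha W0 W1, onva_nc he ha W0 W1, onva_dl hd ha, onva_dr ha]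
  change (P.f S.a / opp e d P S) ^ (e - 1) * (G.far S.a * S.a ^ 2) -
    (S.W d / opp e d P S) ^ (e - 1) * (T.ℓ * S.a ^ 2 / d) + _ = _
  unfold mz
  generalize dl d P S = x
  generalize dr d P G S T = y
  generalize cc e d P S = c
  field_simp

theorem onva_22 {e d : ℝ} {P : Pf} {G : Pt} {S : St} {T : Tt} (he : 1 ≤ e)
    (ha : 0 < S.a) (W0 : 0 < S.W d) (W1 : S.W d < P.f S.a) :
    n22 e (np P G S.a) (nv d S T) = S.a * mr e d P G S T := by
  unfold n22
  rw [onva_A he ha W0 W1, onva_B he ha W0 W1, onva_nc he ha W0 W1, onva_dr ha]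
  change (P.f S.a / opp e d P S) ^ (e - 1) * (G.ft S.a * S.a) -
    (S.W d / opp e d P S) ^ (e - 1) * (T.q * S.a / d) - _ = _
  unfold mr
  generalize dr d P G S T = y
  generalize cc e d P S = c
  field_simp

/-- For `S.a > 0` the derivative factor in normalised variables. -/
theorem nv_p {e d : ℝ} {P : Pf} {G : Pt} {S : St} {T : Tt} (he : 1 ≤ e) (hd : 0 < d)
    (ha : 0 < S.a) (W0 : 0 < S.W d) (W1 : S.W d < P.f S.a) :
    1 + d * opp1 e d P S = nm e d (np P G S.a) (nv d S T) *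
      (1 - d * nz e d (np P G S.a) (nv d S T) * ngo e (np P G S.a) (nv d S T)) := by
  have ho := onva_opp_pos he W0 W1
  unfold nz nm
  rw [onva_go he hd ha W0 W1, onva_no he ha W0 W1]
  change 1 + d * opp1 e d P S = (1 + d * (opp e d P S / S.a)) *
    (1 - d * (S.a⁻¹ / (1 + d * (opp e d P S / S.a))) * (opp e d P S - S.a * opp1 e d P S))
  have h1 : 0 < 1 + d * (opp e d P S / S.a) := by positivity
  have h2 : 0 < S.a + d * opp e d P S := by positivity
  generalize opp e d P S = o at *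
  generalize opp1 e d P S = o1 at *
  field_simp
  ring

/-- The half step in normalised variables.  With `a = S.a`: `opp = a o` (`o = no`), so
`a' = a μ`; `f1 = (f - F.g)/a`, `p = (1 - s)/d = w - z g`, so `1 + d opp1 = μ (1 - d z' go)`
(`nv_p`) and `s' = τ/μ`; `cc = a⁻³ nc`, `dl = ndl`, `dr = a ndr`, `a³ opp2 = n11`,
`a² mz = n12`, `a mr = n22`, `og = d nbo`. -/
theorem nv_hst {e d : ℝ} {P : Pf} {G : Pt} {S : St} {T : Tt} (he : 1 ≤ e) (hd : 0 < d)
    (ha : 0 < S.a) (W0 : 0 < S.W d) (W1 : S.W d < P.f S.a) (p0 : 0 < 1 + d * opp1 e d P S) :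
    nv d (hst e d P S) (hst3 e d P G S T) = nst e d (np P G S.a) (nv d S T) := by
  have ho := onva_opp_pos he W0 W1
  have hp := nv_p (G := G) (T := T) he hd ha W0 W1
  have hno := onva_no (G := G) (T := T) he ha W0 W1
  have hμ : 0 < nm e d (np P G S.a) (nv d S T) := by
    unfold nm
    rw [hno]
    positivity
  have h11 := onva_11 (G := G) (T := T) he hd ha W0 W1
  have h12 := onva_12 (G := G) (T := T) he hd ha W0 W1
  have h22 := onva_22 (G := G) (T := T) he ha W0 W1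
  have hbo := onva_bo (G := G) (T := T) he hd ha W0 W1
  have hgo := onva_go (G := G) (T := T) he hd ha W0 W1
  have hz : nz e d (np P G S.a) (nv d S T) = S.a⁻¹ / nm e d (np P G S.a) (nv d S T) := rfl
  have ha' : S.a + d * opp e d P S = S.a * nm e d (np P G S.a) (nv d S T) := by
    unfold nm
    rw [hno]
    field_simp
  have hq : 0 < 1 - d * nz e d (np P G S.a) (nv d S T) * ngo e (np P G S.a) (nv d S T) := by
    rw [hp] at p0
    exact (pos_iff_pos_of_mul_pos p0).1 hμ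
  have hσ : (1 + d * opp1 e d P S)⁻¹ =
      nt e d (np P G S.a) (nv d S T) / nm e d (np P G S.a) (nv d S T) := by
    rw [hp, mul_inv]
    unfold nt
    rw [mul_comm, div_eq_mul_inv]
  have hτ : nt e d (np P G S.a) (nv d S T) - 1 = nt e d (np P G S.a) (nv d S T) *
      (d * nz e d (np P G S.a) (nv d S T) * ngo e (np P G S.a) (nv d S T)) := by
    unfold nt
    field_simp
    ring
  have hW : (hst e d P S).W d = opp e d P S := by
    change (S.a + d * opp e d P S - S.a) / d = opp e d P S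
    field_simp
    ring
  have hβ : nbe e d (np P G S.a) (nv d S T) = nt e d (np P G S.a) (nv d S T) *
    nz e d (np P G S.a) (nv d S T) * d * nbo e (np P G S.a) (nv d S T) := rfl
  have e1 : (nv d (hst e d P S) (hst3 e d P G S T)).z = (nst e d (np P G S.a) (nv d S T)).z := by
    change (S.a + d * opp e d P S)⁻¹ = nz e d (np P G S.a) (nv d S T)
    rw [ha', hz]
    field_simp
  have e2 : (nv d (hst e d P S) (hst3 e d P G S T)).w = (nst e d (np P G S.a) (nv d S T)).w := by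
    change (hst e d P S).W d / (S.a + d * opp e d P S) = no e (np P G S.a) (nv d S T) /
      nm e d (np P G S.a) (nv d S T)
    rw [ha', hno, hW]
    field_simp
  have e3 : (nv d (hst e d P S) (hst3 e d P G S T)).g = (nst e d (np P G S.a) (nv d S T)).g := by
    change ((1 + d * opp1 e d P S)⁻¹ * (S.a + d * opp e d P S) - S.a) / d =
      nt e d (np P G S.a) (nv d S T) / nm e d (np P G S.a) (nv d S T) *
        ngo e (np P G S.a) (nv d S T)
    rw [ha', hσ]
    have h1 : nt e d (np P G S.a) (nv d S T) / nm e d (np P G S.a) (nv d S T) *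
        (S.a * nm e d (np P G S.a) (nv d S T)) - S.a =
        S.a * (nt e d (np P G S.a) (nv d S T) - 1) := by
      field_simp
    rw [h1, hτ, hz]
    field_simp
  have e4 : (nv d (hst e d P S) (hst3 e d P G S T)).b = (nst e d (np P G S.a) (nv d S T)).b := by
    change -((1 + d * opp1 e d P S)⁻¹ * og e d P G S T) / d =
      -(nt e d (np P G S.a) (nv d S T) / nm e d (np P G S.a) (nv d S T) *
        nbo e (np P G S.a) (nv d S T))
    rw [hσ, hbo]
    field_simp
  have e5 : (nv d (hst e d P S) (hst3 e d P G S T)).K = (nst e d (np P G S.a) (nv d S T)).K := by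
    change d * opp2 e d P S * (1 + d * opp1 e d P S)⁻¹ ^ 3 * (S.a + d * opp e d P S) ^ 3 / d =
      nt e d (np P G S.a) (nv d S T) ^ 3 * n11 e (np P G S.a) (nv d S T)
    rw [hσ, ha', h11]
    field_simp
  have e6 : (nv d (hst e d P S) (hst3 e d P G S T)).L = (nst e d (np P G S.a) (nv d S T)).L := by
    change (1 + d * opp1 e d P S)⁻¹ * d * ((1 + d * opp1 e d P S)⁻¹ * mz e d P G S T -
      opp2 e d P S * (1 + d * opp1 e d P S)⁻¹ ^ 2 * og e d P G S T) *
        (S.a + d * opp e d P S) ^ 2 / d =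
      nt e d (np P G S.a) (nv d S T) ^ 2 * (n12 e (np P G S.a) (nv d S T) -
        nbe e d (np P G S.a) (nv d S T) * n11 e (np P G S.a) (nv d S T))
    rw [hσ, ha', h11, h12, hbo, hβ, hz]
    field_simp
  have e7 : (nv d (hst e d P S) (hst3 e d P G S T)).Q = (nst e d (np P G S.a) (nv d S T)).Q := by
    change (1 + d * opp1 e d P S)⁻¹ * d * (opp2 e d P S * (1 + d * opp1 e d P S)⁻¹ ^ 2 *
      og e d P G S T ^ 2 - 2 * mz e d P G S T * (1 + d * opp1 e d P S)⁻¹ * og e d P G S T +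
      mr e d P G S T) * (S.a + d * opp e d P S) / d =
      nt e d (np P G S.a) (nv d S T) * (n22 e (np P G S.a) (nv d S T) -
        2 * nbe e d (np P G S.a) (nv d S T) * n12 e (np P G S.a) (nv d S T) +
        nbe e d (np P G S.a) (nv d S T) ^ 2 * n11 e (np P G S.a) (nv d S T))
    rw [hσ, ha', h11, h12, h22, hbo, hβ, hz]
    field_simp
    ring
  generalize nv d (hst e d P S) (hst3 e d P G S T) = A at *
  generalize nst e d (np P G S.a) (nv d S T) = B at *
  cases A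
  cases B
  simp only at e1 e2 e3 e4 e5 e6 e7
  subst e1 e2 e3 e4 e5 e6 e7
  rfl

end CJ
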