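import Pool.Agent.H.MP_1693ff_gtE.OE

/-!
# The algebra of the second derivative
-/

namespace CJ

open Real Set Filter Topology CG CH
open CF hiding St

/-- The algebra.  With `P = f^{e-2}`, `Q = w^{e-2}`: `f^e = f² P`, `w^e = w² Q`,
`o^e = f² P - w² Q`, `(f/o)^{e-1} a - (w/o)^{e-1} b = (f P a - w Q b)/o^{e-1}`; multiply the claim
by `o^{e-1} o^e`: it is `o^e (P a a' - Q b b') - (f P a - w Q b)(f P a' - w Q b') =
-P Q (f b - w a)(f b' - w a')`. -/
theorem opp_alg {e f w o a b a' b' m n x : ℝ} (hf : 0 < f) (hw : 0 < w)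
    (ho : 0 < o) (h0 : w ^ e + o ^ e = f ^ e)
    (h2 : (e - 1) * w ^ (e - 2) * b * b' + w ^ (e - 1) * n +
      ((e - 1) * o ^ (e - 2) * (((f / o) ^ (e - 1) * a - (w / o) ^ (e - 1) * b) *
        ((f / o) ^ (e - 1) * a' - (w / o) ^ (e - 1) * b')) + o ^ (e - 1) * x) =
      (e - 1) * f ^ (e - 2) * a * a' + f ^ (e - 1) * m) :
    x = (f / o) ^ (e - 1) * m - (w / o) ^ (e - 1) * n -
      (e - 1) * w ^ (e - 2) * f ^ (e - 2) * o ^ (1 - 2 * e) *
        ((f * b - w * a) * (f * b' - w * a')) := by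
  have pw1 : ∀ y : ℝ, 0 < y → y ^ (e - 1) = y * y ^ (e - 2) := by
    intro y hy
    have h1 : y * y ^ (e - 2) = y ^ (1 : ℝ) * y ^ (e - 2) := by rw [Real.rpow_one]
    rw [h1, ← Real.rpow_add hy]
    congr 1
    ring
  have pw2 : ∀ y : ℝ, 0 < y → y ^ e = y ^ 2 * y ^ (e - 2) := by
    intro y hy
    rw [← Real.rpow_natCast, ← Real.rpow_add hy]
    congr 1
    push_cast
    ring
  have ho3 : o ^ (1 - 2 * e) = (o ^ 3 * (o ^ (e - 2)) ^ 2)⁻¹ := by
    apply eq_inv_of_mul_eq_one_right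
    rw [← Real.rpow_natCast, ← Real.rpow_natCast, ← Real.rpow_mul ho.le, ← Real.rpow_add ho,
      ← Real.rpow_add ho]
    have : (((3 : ℕ) : ℝ) + (e - 2) * ((2 : ℕ) : ℝ) + (1 - 2 * e)) = 0 := by push_cast; ring
    rw [this, Real.rpow_zero]
  rw [Real.div_rpow hf.le ho.le, Real.div_rpow hw.le ho.le, pw1 f hf, pw1 w hw, pw1 o ho] at h2 ⊢
  rw [pw2 f hf, pw2 w hw, pw2 o ho] at h0
  rw [ho3]
  have hP : 0 < f ^ (e - 2) := Real.rpow_pos_of_pos hf _
  have hQ : 0 < w ^ (e - 2) := Real.rpow_pos_of_pos hw _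
  have hR : 0 < o ^ (e - 2) := Real.rpow_pos_of_pos ho _
  generalize f ^ (e - 2) = P at *
  generalize w ^ (e - 2) = Q at *
  generalize o ^ (e - 2) = R at *
  have ho' : o ≠ 0 := ho.ne'
  have hR' : R ≠ 0 := hR.ne'
  have h3 : (o * R) * (o ^ 2 * R) * x =
      (o ^ 2 * R) * ((e - 1) * P * a * a' + f * P * m - (e - 1) * Q * b * b' - w * Q * n) -
        (e - 1) * ((f * P * a - w * Q * b) * (f * P * a' - w * Q * b')) := by
    have h4 : (o ^ 2 * R) * ((e - 1) * R * ((f * P / (o * R) * a - w * Q / (o * R) * b) *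
        (f * P / (o * R) * a' - w * Q / (o * R) * b'))) =
        (e - 1) * ((f * P * a - w * Q * b) * (f * P * a' - w * Q * b')) := by
      field_simp
    linear_combination (o ^ 2 * R) * h2 - h4
  have h5 : (o * R) * (o ^ 2 * R) * x = (o * R) * (o ^ 2 * R) *
      (f * P / (o * R) * m - w * Q / (o * R) * n - (e - 1) * Q * P * (o ^ 3 * R ^ 2)⁻¹ *
        ((f * b - w * a) * (f * b' - w * a'))) := by
    have h6 : (o * R) * (o ^ 2 * R) *
      (f * P / (o * R) * m - w * Q / (o * R) * n - (e - 1) * Q * P * (o ^ 3 * R ^ 2)⁻¹ *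
        ((f * b - w * a) * (f * b' - w * a'))) =
        (o ^ 2 * R) * (f * P * m - w * Q * n) - (e - 1) * Q * P *
          ((f * b - w * a) * (f * b' - w * a')) := by
      field_simp
    rw [h6, h3]
    have h7 : o ^ 2 * R = f ^ 2 * P - w ^ 2 * Q := by linarith
    rw [h7]
    ring
  exact mul_left_cancel₀ (by positivity) h5

end CJ
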