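import Pool.Agent.H.MP_1693ff_gtE.OHomA
import Pool.Agent.H.MP_1693ff_gtE.OOppA

/-!
# The derivatives at the opposite point
-/

namespace CJ

open Real Set Filter Topology CG CH
open CF hiding St

variable {E : Type} [NormedAddCommGroup E] [InnerProductSpace ℝ E]

/-- The straight line. -/
theorem oopp_line (v x : E) (t : ℝ) : HasDerivAt (fun t : ℝ => v + t • x) x t := by
  simpa using ((hasDerivAt_id t).smul_const x).const_add v

/-- The equation of the first derivatives. -/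
theorem oopp_core {e : ℝ} (he : 1 ≤ e) {Φ V : E → ℝ} {v : E} (cV : DifferentiableAt ℝ V v)
    (cV' : DifferentiableAt ℝ V (-v)) (cΦ : DifferentiableAt ℝ Φ v) (p : 0 < V v)
    (p' : 0 < V (-v)) (pΦ : 0 < Φ v) (h : ∀ᶠ u in 𝓝 v, V u ^ e + V (-u) ^ e = Φ u ^ e) (x : E) :
    V v ^ (e - 1) * D1 V v x - V (-v) ^ (e - 1) * D1 V (-v) x = Φ v ^ (e - 1) * D1 Φ v x := by
  have hv0 : v + (0 : ℝ) • x = v := by simp
  have l1 := oopp_line v x 0
  have l2 : HasDerivAt (fun t : ℝ => -(v + t • x)) (-x) 0 := l1.neg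
  have a1 : HasDerivAt (fun t : ℝ => V (v + t • x)) (D1 V v x) 0 := by
    have := d1_along (V := V) (γ := fun t : ℝ => v + t • x) (t := 0) (by rw [hv0]; exact cV) l1
    rwa [hv0] at this
  have a2 : HasDerivAt (fun t : ℝ => V (-(v + t • x))) (-D1 V (-v) x) 0 := by
    have := d1_along (V := V) (γ := fun t : ℝ => -(v + t • x)) (t := 0)
      (by rw [hv0]; exact cV') l2
    rwa [hv0, d1_neg] at this
  have a3 : HasDerivAt (fun t : ℝ => Φ (v + t • x)) (D1 Φ v x) 0 := by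
    have := d1_along (V := Φ) (γ := fun t : ℝ => v + t • x) (t := 0) (by rw [hv0]; exact cΦ) l1
    rwa [hv0] at this
  have b1 := a1.rpow_const (p := e) (Or.inl (by rw [hv0]; exact p.ne'))
  have b2 := a2.rpow_const (p := e) (Or.inl (by rw [hv0]; exact p'.ne'))
  have b3 := a3.rpow_const (p := e) (Or.inl (by rw [hv0]; exact pΦ.ne'))
  rw [hv0] at b1 b2 b3
  have b4 := b1.add b2
  have hc : Tendsto (fun t : ℝ => v + t • x) (𝓝 0) (𝓝 v) := by
    have := l1.continuousAt.tendsto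
    rwa [hv0] at this
  have b5 : (fun t : ℝ => V (v + t • x) ^ e + V (-(v + t • x)) ^ e) =ᶠ[𝓝 0]
      (fun t : ℝ => Φ (v + t • x) ^ e) := hc.eventually h
  have b6 := (b3.congr_of_eventuallyEq b5).unique b4
  have he0 : e ≠ 0 := by linarith
  apply mul_left_cancel₀ he0
  linarith

/-- First derivative: differentiate `V u ^ e + V (-u) ^ e = Φ u ^ e` in the direction `x`. -/
theorem d1_opp {e : ℝ} (he : 1 ≤ e) {Φ V : E → ℝ} {v : E} (cV : DifferentiableAt ℝ V v)
    (cV' : DifferentiableAt ℝ V (-v)) (cΦ : DifferentiableAt ℝ Φ v) (p : 0 < V v)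
    (p' : 0 < V (-v)) (pΦ : 0 < Φ v) (h : ∀ᶠ u in 𝓝 v, V u ^ e + V (-u) ^ e = Φ u ^ e) (x : E) :
    -D1 V (-v) x = (Φ v / V (-v)) ^ (e - 1) * D1 Φ v x - (V v / V (-v)) ^ (e - 1) * D1 V v x := by
  have h1 := oopp_core he cV cV' cΦ p p' pΦ h x
  have h2 : 0 < V (-v) ^ (e - 1) := Real.rpow_pos_of_pos p' _
  rw [Real.div_rpow pΦ.le p'.le, Real.div_rpow p.le p'.le]
  field_simp
  linarith

/-- Second derivative: `d1_opp` holds near `v`, in the form
`V^{e-1} D1 V x - V(-)^{e-1} D1 V(-) x = Φ^{e-1} D1 Φ x`; differentiate it in the direction `y`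
(along `t ↦ v + t y`, `d2_along`) and use `opp_alg` (with `o = V (-v)`). -/
theorem d2_opp {e : ℝ} (he : 1 ≤ e) {Φ V : E → ℝ} {v : E} (cV : ContDiffAt ℝ 2 V v)
    (cV' : ContDiffAt ℝ 2 V (-v)) (cΦ : ContDiffAt ℝ 2 Φ v) (p : 0 < V v) (p' : 0 < V (-v))
    (pΦ : 0 < Φ v) (h : ∀ᶠ u in 𝓝 v, V u ^ e + V (-u) ^ e = Φ u ^ e) (x y : E) :
    D2 V (-v) x y = (Φ v / V (-v)) ^ (e - 1) * D2 Φ v x y -
      (V v / V (-v)) ^ (e - 1) * D2 V v x y -
      (e - 1) * V v ^ (e - 2) * Φ v ^ (e - 2) * V (-v) ^ (1 - 2 * e) *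
        ((Φ v * D1 V v x - V v * D1 Φ v x) * (Φ v * D1 V v y - V v * D1 Φ v y)) := by
  have two_ne : (2 : WithTop ℕ∞) ≠ 0 := by norm_num
  -- the equation of the first derivatives near `v`
  have hneg : Tendsto (fun u : E => -u) (𝓝 v) (𝓝 (-v)) := continuous_neg.continuousAt
  have ev : ∀ᶠ u in 𝓝 v, V u ^ (e - 1) * D1 V u x - V (-u) ^ (e - 1) * D1 V (-u) x =
      Φ u ^ (e - 1) * D1 Φ u x := by
    have e1 : ∀ᶠ u in 𝓝 v, ContDiffAt ℝ 2 V u := cV.eventually (by simp)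
    have e2 : ∀ᶠ u in 𝓝 v, ContDiffAt ℝ 2 V (-u) := hneg.eventually (cV'.eventually (by simp))
    have e3 : ∀ᶠ u in 𝓝 v, ContDiffAt ℝ 2 Φ u := cΦ.eventually (by simp)
    have e4 : ∀ᶠ u in 𝓝 v, 0 < V u := cV.continuousAt.eventually_const_lt p
    have e5 : ∀ᶠ u in 𝓝 v, 0 < V (-u) := hneg.eventually (cV'.continuousAt.eventually_const_lt p')
    have e6 : ∀ᶠ u in 𝓝 v, 0 < Φ u := cΦ.continuousAt.eventually_const_lt pΦ
    filter_upwards [e1, e2, e3, e4, e5, e6, h.eventually_nhds] with u c1 c2 c3 c4 c5 c6 c7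
    exact oopp_core he (c1.differentiableAt two_ne) (c2.differentiableAt two_ne)
      (c3.differentiableAt two_ne) c4 c5 c6 c7 x
  have hv0 : v + (0 : ℝ) • y = v := by simp
  have l1 := oopp_line v y 0
  have l2 : HasDerivAt (fun t : ℝ => -(v + t • y)) (-y) 0 := l1.neg
  have a1 : HasDerivAt (fun t : ℝ => V (v + t • y)) (D1 V v y) 0 := by
    have := d1_along (V := V) (γ := fun t : ℝ => v + t • y) (t := 0)
      (by rw [hv0]; exact cV.differentiableAt two_ne) l1
    rwa [hv0] at this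
  have a2 : HasDerivAt (fun t : ℝ => V (-(v + t • y))) (-D1 V (-v) y) 0 := by
    have := d1_along (V := V) (γ := fun t : ℝ => -(v + t • y)) (t := 0)
      (by rw [hv0]; exact cV'.differentiableAt two_ne) l2
    rwa [hv0, d1_neg] at this
  have a3 : HasDerivAt (fun t : ℝ => Φ (v + t • y)) (D1 Φ v y) 0 := by
    have := d1_along (V := Φ) (γ := fun t : ℝ => v + t • y) (t := 0)
      (by rw [hv0]; exact cΦ.differentiableAt two_ne) l1
    rwa [hv0] at this
  have b1 := a1.rpow_const (p := e - 1) (Or.inl (by rw [hv0]; exact p.ne'))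
  have b2 := a2.rpow_const (p := e - 1) (Or.inl (by rw [hv0]; exact p'.ne'))
  have b3 := a3.rpow_const (p := e - 1) (Or.inl (by rw [hv0]; exact pΦ.ne'))
  rw [hv0] at b1 b2 b3
  have g1 : HasDerivAt (fun t : ℝ => D1 V (v + t • y) x) (D2 V v y x) 0 := by
    have := d2_along (V := V) (γ := fun t : ℝ => v + t • y) (x := fun _ => x) (x' := 0) (t := 0)
      (by rw [hv0]; exact cV) l1 (hasDerivAt_const _ _)
    rw [hv0] at this
    simpa [D1] using this
  have g2 : HasDerivAt (fun t : ℝ => D1 V (-(v + t • y)) x) (-D2 V (-v) y x) 0 := by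
    have := d2_along (V := V) (γ := fun t : ℝ => -(v + t • y)) (x := fun _ => x) (x' := 0) (t := 0)
      (by rw [hv0]; exact cV') l2 (hasDerivAt_const _ _)
    rw [hv0, d2_neg_l] at this
    simpa [D1] using this
  have g3 : HasDerivAt (fun t : ℝ => D1 Φ (v + t • y) x) (D2 Φ v y x) 0 := by
    have := d2_along (V := Φ) (γ := fun t : ℝ => v + t • y) (x := fun _ => x) (x' := 0) (t := 0)
      (by rw [hv0]; exact cΦ) l1 (hasDerivAt_const _ _)
    rw [hv0] at this
    simpa [D1] using this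
  have k1 := b1.mul g1
  have k2 := b2.mul g2
  have k3 := b3.mul g3
  rw [hv0] at k1 k2 k3
  have k4 := k1.sub k2
  have hc : Tendsto (fun t : ℝ => v + t • y) (𝓝 0) (𝓝 v) := by
    have := l1.continuousAt.tendsto
    rwa [hv0] at this
  have k5 := (k3.congr_of_eventuallyEq (hc.eventually ev)).unique k4
  have s1 := d1_opp he (cV.differentiableAt two_ne) (cV'.differentiableAt two_ne)
    (cΦ.differentiableAt two_ne) p p' pΦ h x
  have s2 := d1_opp he (cV.differentiableAt two_ne) (cV'.differentiableAt two_ne)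
    (cΦ.differentiableAt two_ne) p p' pΦ h y
  have ee : e - 1 - 1 = e - 2 := by ring
  rw [ee] at k5
  apply opp_alg pΦ p p' h.self_of_nhds
  rw [← s1, ← s2, d2_symm cV x y, d2_symm cV' x y, d2_symm cΦ x y]
  linarith

end CJ
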