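import Pool.Agent.H.MP_1693ff_gtE.ODefs
import Pool.Agent.H.MP_1693ff_gtE.OAlong
import Pool.Agent.H.MP_1693ff_gtB.GNear
import Pool.Agent.H.MP_1693ff_gt.Piece3

/-!
# One piece of the curve
-/

namespace CJ

open Real Set Filter Topology CG CH
open CF hiding St

theorem gpiece_P {h k : ℝ → ℝ} (hc : ContDiff ℝ 2 h) (kc : ContDiff ℝ 2 k) (n : ℕ) :
    (∀ a, HasDerivAt (if Even n then pf h else pf k).f ((if Even n then pf h else pf k).f1 a) a) ∧
    (∀ a, HasDerivAt (if Even n then pf h else pf k).f1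
      ((if Even n then pf h else pf k).f2 a) a) := by
  split_ifs
  · exact ⟨fun a => (prof_deriv hc a).1, fun a => (prof_deriv hc a).2⟩
  · exact ⟨fun a => (prof_deriv kc a).1, fun a => (prof_deriv kc a).2⟩

/-- `DK` is symmetric. -/
theorem HK.swap {e d : ℝ} {h k : ℝ → ℝ} {S S' : ℝ → St} (D : HK e d h k S S') :
    HK e d k h S' S := by
  obtain ⟨C, hC⟩ := D.cb
  obtain ⟨c, hc, hs⟩ := D.sb
  obtain ⟨N, hN⟩ := D.lt
  exact { e1 := D.e1, d0 := D.d0, hp := D.kp, kp := D.hp, hc := D.kc, kc := D.hc,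
          rS := D.rS', rS' := D.rS, good := D.good', good' := D.good, j := D.j', j' := D.j,
          gr := fun M => (D.gr M).imp fun N h n hn t ht => (h n hn t ht).symm,
          cb := ⟨C, fun t ht n => (hC t ht n).symm⟩,
          sb := ⟨c, hc, fun t ht n => (hs t ht n).symm⟩,
          lt := ⟨N, fun n hn t ht => (hN n hn t ht).symm⟩ }

/-- Continuity of the main components on `[0,1]` (`arc_cont`, `cont_hst`, induction). -/
theorem chn_cont {e d : ℝ} {h k : ℝ → ℝ} {S S' : ℝ → St} (D : HK e d h k S S') (n : ℕ) :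
    ContinuousOn (fun t => (chn e d h k S n t).a) (Icc 0 1) ∧
    ContinuousOn (fun t => (chn e d h k S n t).α) (Icc 0 1) ∧
    ContinuousOn (fun t => (chn e d h k S n t).s) (Icc 0 1) := by
  have hd : 0 < d := D.d0
  induction n with
  | zero => exact ⟨D.rS.ca, D.rS.cα, D.rS.cs⟩
  | succ n ih =>
    obtain ⟨q1, q2⟩ := gpiece_P D.hc D.kc n
    exact cont_hst D.e1 (continuous_iff_continuousAt.2 fun a => (q1 a).continuousAt)
      (continuous_iff_continuousAt.2 fun a => (q2 a).continuousAt) ih.1 ih.2.1 ih.2.2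
      (fun t ht => (D.good t ht n).W0) (fun t ht => (D.good t ht n).W1)
      (fun t ht => (D.good t ht n).p0)

/-- Consistency inside (`arc_along`, `along_hst`, induction). -/
theorem chn_along {e d : ℝ} {h k : ℝ → ℝ} {S S' : ℝ → St} (D : HK e d h k S S') (n : ℕ) {t : ℝ}
    (ht : t ∈ Ioo (0 : ℝ) 1) : Along (chn e d h k S n) t := by
  have hd : 0 < d := D.d0
  have ht' : t ∈ Icc (0 : ℝ) 1 := ⟨ht.1.le, ht.2.le⟩
  induction n with
  | zero => exact D.rS.al t ht
  | succ n ih =>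
    obtain ⟨q1, q2⟩ := gpiece_P D.hc D.kc n
    exact along_hst D.e1 hd q1 q2 ih (D.good t ht' n).W0 (D.good t ht' n).W1 (D.good t ht' n).p0

/-- The relation on one piece (`CF.rel_of_deriv` with `x = a`, `y = -α`, `g = k`), and strict
monotonicity of `a` (`v > 0`). -/
theorem chn_rel {e d : ℝ} {h k : ℝ → ℝ} {S S' : ℝ → St} (D : HK e d h k S S') (n : ℕ) {t t' : ℝ}
    (ht : t ∈ Icc (0 : ℝ) 1) (ht' : t' ∈ Icc (0 : ℝ) 1) (htt : t ≤ t') :
    RelG (chn e d h k S n t).a (-(chn e d h k S n t).α) (chn e d h k S n t).s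
      (chn e d h k S n t').a (-(chn e d h k S n t').α) (chn e d h k S n t').s ∧
    (t < t' → (chn e d h k S n t).a < (chn e d h k S n t').a) := by
  obtain ⟨c1, c2, c3⟩ := chn_cont D n
  have hsub : Icc t t' ⊆ Icc (0 : ℝ) 1 := Icc_subset_Icc ht.1 ht'.2
  have hA : ∀ τ ∈ Ioo t t', Along (chn e d h k S n) τ := fun τ hτ =>
    chn_along D n ⟨lt_of_le_of_lt ht.1 hτ.1, lt_of_lt_of_le hτ.2 ht'.2⟩
  have hG : ∀ τ ∈ Ioo t t', Gd e d (if Even n then pf h else pf k) (chn e d h k S n τ) :=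
    fun τ hτ => D.good τ (hsub ⟨hτ.1.le, hτ.2.le⟩) n
  constructor
  · refine rel_of_deriv (x := fun τ => (chn e d h k S n τ).a)
      (y := fun τ => -(chn e d h k S n τ).α) (s := fun τ => (chn e d h k S n τ).s)
      (v := fun τ => (chn e d h k S n τ).v) (g := fun τ => (chn e d h k S n τ).k) htt
      (c1.mono hsub) (c2.mono hsub).neg (c3.mono hsub) (fun τ hτ => (hA τ hτ).da)
      (fun τ hτ => ?_) (fun τ hτ => (hA τ hτ).ds) (fun τ hτ => (hG τ hτ).v0)
      (fun τ hτ => (hG τ hτ).k0)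
    have h1 := (hA τ hτ).dα.neg
    refine h1.congr_deriv ?_
    ring
  · intro hlt
    have : StrictMonoOn (fun τ => (chn e d h k S n τ).a) (Icc t t') := by
      refine strictMonoOn_of_deriv_pos (convex_Icc t t') (c1.mono hsub) ?_
      rw [interior_Icc]
      intro τ hτ
      rw [(hA τ hτ).da.deriv]
      exact (hG τ hτ).v0
    exact this ⟨le_refl t, htt⟩ ⟨htt, le_refl t'⟩ hlt

end CJ
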