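import Pool.Agent.H.MP_1693ff_gtE.OHom
import Pool.Agent.H.MP_1693ff_gtC.NProf
import Pool.Agent.H.MP_1693ff_gtC.NProfB

/-!
# Profiles of homogeneous functions
-/

namespace CJ

open Real Set Filter Topology CG CH
open CF hiding St

variable {E : Type} [NormedAddCommGroup E] [InnerProductSpace ℝ E]

theorem oprofe_ne {ax ω : E} (hax : ‖ax‖ = 1) (hω : Un ax ω) (θ : ℝ) :
    cos θ • ax + sin θ • ω ≠ 0 := by
  intro h
  have h1 : inner ℝ ax (cos θ • ax + sin θ • ω) = cos θ := by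
    rw [inner_add_right, real_inner_smul_right, real_inner_smul_right, hω.o1,
      real_inner_self_eq_norm_sq, hax]
    ring
  have h2 : inner ℝ (cos θ • ax + sin θ • ω) ω = sin θ := by
    rw [inner_add_left, real_inner_smul_left, real_inner_smul_left, hω.o1,
      real_inner_self_eq_norm_sq, hω.n1]
    ring
  rw [h, inner_zero_right] at h1
  rw [h, inner_zero_left] at h2
  have h3 := sin_sq_add_cos_sq θ
  rw [← h1, ← h2] at h3
  norm_num at h3

theorem oprofe_line {ax ω : E} (a : ℝ) : HasDerivAt (fun a : ℝ => a • ax + ω) ax a := by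
  have h1 := ((hasDerivAt_id a).smul_const ax).add_const ω
  simpa using h1

/-- `cos θ ax + sin θ ω` is a unit vector, so not `0`; composition. -/
theorem pl_c3 {Φ : E → ℝ} (hΦ : Hg Φ) {ax ω : E} (hax : ‖ax‖ = 1) (hω : Un ax ω) :
    ContDiff ℝ 3 (pl Φ ax ω) := by
  refine contDiff_iff_contDiffAt.2 fun θ => ?_
  have h1 : ContDiffAt ℝ 3 (fun θ : ℝ => cos θ • ax + sin θ • ω) θ :=
    ((contDiff_cos.smul contDiff_const).add (contDiff_sin.smul contDiff_const)).contDiffAt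
  exact (hΦ.c _ (oprofe_ne hax hω θ)).comp θ h1

theorem pl_per {Φ : E → ℝ} (ev : ∀ v, Φ (-v) = Φ v) (ax ω : E) (θ : ℝ) :
    pl Φ ax ω (θ + π) = pl Φ ax ω θ := by
  unfold pl
  rw [cos_add_pi, sin_add_pi, neg_smul, neg_smul, ← neg_add, ev]

/-- `prof (pl Φ ax ω) a = √(1+a²) Φ ((a ax + ω)/√(1+a²)) = Φ (a ax + ω)`
(`profa_cos`, `profa_sin`). -/
theorem prof_pl {Φ : E → ℝ} (hΦ : Ho Φ) (ax ω : E) (a : ℝ) :
    prof (pl Φ ax ω) a = Φ (a • ax + ω) := by
  have hs : 0 < √(1 + a ^ 2) := Real.sqrt_pos.2 (by positivity)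
  unfold prof pl
  rw [profa_cos, profa_sin, ← hΦ _ hs, smul_add, smul_smul, smul_smul,
    mul_div_cancel₀ _ hs.ne', mul_div_cancel₀ _ hs.ne', one_smul]

/-- `prof` by `prof_pl`, `prof1` and `prof2` are its derivatives (`prof_deriv`), those of
`a ↦ Φ (a ax + ω)` by `d1_along`, `d2_along`; uniqueness of the derivative. -/
theorem pf_pl {Φ : E → ℝ} (hΦ : Hg Φ) {ax ω : E} (hax : ‖ax‖ = 1) (hω : Un ax ω) :
    pf (pl Φ ax ω) = PE Φ ax ω := by
  have hc : ContDiff ℝ 2 (pl Φ ax ω) := (pl_c3 hΦ hax hω).of_le (by norm_num)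
  have e0 : prof (pl Φ ax ω) = fun a => Φ (a • ax + ω) := funext fun a => prof_pl hΦ.h ax ω a
  have e1 : prof1 (pl Φ ax ω) = fun a => D1 Φ (a • ax + ω) ax := by
    funext a
    have h1 := (prof_deriv hc a).1
    rw [e0] at h1
    have h2 : HasDerivAt (fun a : ℝ => Φ (a • ax + ω)) (D1 Φ (a • ax + ω) ax) a :=
      d1_along (γ := fun a : ℝ => a • ax + ω)
        ((hΦ.c _ (ax_ne hω a)).differentiableAt (by norm_num)) (oprofe_line a)
    exact h1.unique h2
  have e2 : prof2 (pl Φ ax ω) = fun a => D2 Φ (a • ax + ω) ax ax := by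
    funext a
    have h1 := (prof_deriv hc a).2
    rw [e1] at h1
    have h2 := d2_along (γ := fun a : ℝ => a • ax + ω) (x := fun _ => ax) (x' := 0) (t := a)
      ((hΦ.c _ (ax_ne hω a)).of_le (by norm_num)) (oprofe_line a) (hasDerivAt_const a ax)
    have h3 : D1 Φ (a • ax + ω) 0 = 0 := map_zero _
    have h4 : D2 Φ (a • ax + ω) ax ax + D1 Φ (a • ax + ω) 0 = D2 Φ (a • ax + ω) ax ax := by
      rw [h3, add_zero]
    exact h1.unique (h4 ▸ h2)
  unfold pf PE
  rw [e0, e1, e2]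

end CJ
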