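import Pool.Agent.H.MP_1693ff_gtE.OPiece
import Pool.Agent.H.MP_1693ff_gtE.OJointB
import Pool.Agent.H.MP_1693ff_gtE.OAlong3B

/-!
# Regularity of the surfaces
-/

namespace CJ

open Real Set Filter Topology CG CH
open CF hiding St

variable {e d : ℝ} {h k : ℝ → ℝ → ℝ} {S S' : ℝ → ℝ → St} {T T' : ℝ → ℝ → Tt}

/-- Regularity of the start surface and the strict inequalities needed for the regularity of the
`n`-th surface at `(t, r)`. -/
structure OkG (e d : ℝ) (h k : ℝ → ℝ → ℝ) (S : ℝ → ℝ → St) (T : ℝ → ℝ → Tt) (n : ℕ)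
    (t r : ℝ) : Prop where
  c0 : C13 (fun p => S p.1 p.2) (fun p => T p.1 p.2) (t, r)
  t0 : Al3 (fun t => S t r) (fun t => T t r) (S t r).v 0 t
  r0 : Al3 (fun r => S t r) (fun r => T t r) (T t r).w 1 r
  st : ∀ m < n, 0 < (chn e d (h r) (k r) (fun t => S t r) m t).W d ∧
    (chn e d (h r) (k r) (fun t => S t r) m t).W d < (if Even m then pf (h r) else pf (k r)).f
      (chn e d (h r) (k r) (fun t => S t r) m t).a ∧
    0 < 1 + d * opp1 e d (if Even m then pf (h r) else pf (k r))
      (chn e d (h r) (k r) (fun t => S t r) m t)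

theorem D3G.swap (D : D3G e d h k S S' T T') : D3G e d k h S' S T' T := by
  exact { hk := fun r => (D.hk r).swap, ph := D.pk, pk := D.ph, c := D.c', c' := D.c,
          st := D.st', sr := D.sr', st' := D.st, sr' := D.sr, pos := D.pos', pos' := D.pos,
          z := D.z', z' := D.z }

theorem ok_ofG (D : D3G e d h k S S' T T') {t : ℝ} (ht : t ∈ Icc (0 : ℝ) 1) (r : ℝ) (n : ℕ) :
    OkG e d h k S T n t r := by
  refine ⟨D.c t ht r, (D.st t ht r).self_of_nhds, (D.sr t ht r).self_of_nhds, fun m _ => ?_⟩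
  have h2 := (D.hk r).good t ht m
  exact ⟨h2.W0, h2.W1, h2.p0⟩

theorem osheet_mono {n m : ℕ} {t r : ℝ} (O : OkG e d h k S T n t r) (hm : m ≤ n) :
    OkG e d h k S T m t r :=
  ⟨O.c0, O.t0, O.r0, fun j hj => O.st j (lt_of_lt_of_le hj hm)⟩

theorem ok_c13G (D : D3G e d h k S S' T T') {t r : ℝ} {n : ℕ} (O : OkG e d h k S T n t r) :
    C13 (fun p => chn e d (h p.2) (k p.2) (fun t => S t p.2) n p.1)
      (fun p => chn3 e d h k S T n p.1 p.2) (t, r) := by
  have he := (D.hk 0).e1
  have hd := (D.hk 0).d0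
  induction n with
  | zero => exact O.c0
  | succ n ih =>
    have h1 := ih (osheet_mono O (Nat.le_succ n))
    obtain ⟨h2, h3, h4⟩ := O.st n (Nat.lt_succ_self n)
    by_cases hn : Even n
    · simp only [if_pos hn] at h3 h4
      simp only [chn, chn3, cS, cT, if_pos hn]
      exact c13_hst he hd D.ph h1 h2 h3 h4
    · simp only [if_neg hn] at h3 h4
      simp only [chn, chn3, cS, cT, if_neg hn]
      exact c13_hst he hd D.pk h1 h2 h3 h4

theorem ok_openG (D : D3G e d h k S S' T T') {t : ℝ} (ht : t ∈ Icc (0 : ℝ) 1) (r : ℝ) (n : ℕ) :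
    ∀ᶠ p : ℝ × ℝ in 𝓝 (t, r), OkG e d h k S T n p.1 p.2 := by
  have he := (D.hk 0).e1
  have hd := (D.hk 0).d0
  induction n with
  | zero =>
    have C := D.c t ht r
    filter_upwards [C.ca.eventually (by simp), C.cα.eventually (by simp),
      C.cs.eventually (by simp), C.cκ.eventually (by simp), D.st t ht r, D.sr t ht r]
      with p h1 h2 h3 h4 h5 h6
    exact ⟨⟨h1, h2, h3, h4⟩, h5, h6, fun m hm => absurd hm (Nat.not_lt_zero m)⟩
  | succ n ih =>
    have O := ok_ofG D ht r (n + 1)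
    have O1 := osheet_mono O (Nat.le_succ n)
    have h1 := ok_c13G D O1
    obtain ⟨h2, h3, h4⟩ := O.st n (Nat.lt_succ_self n)
    have key : ∀ᶠ p : ℝ × ℝ in 𝓝 (t, r),
        0 < (chn e d (h p.2) (k p.2) (fun t => S t p.2) n p.1).W d ∧
        (chn e d (h p.2) (k p.2) (fun t => S t p.2) n p.1).W d <
          (if Even n then pf (h p.2) else pf (k p.2)).f
          (chn e d (h p.2) (k p.2) (fun t => S t p.2) n p.1).a ∧
        0 < 1 + d * opp1 e d (if Even n then pf (h p.2) else pf (k p.2))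
          (chn e d (h p.2) (k p.2) (fun t => S t p.2) n p.1) := by
      by_cases hn : Even n
      · simp only [if_pos hn] at h3 h4 ⊢
        exact open_hst he hd D.ph h1 h2 h3 h4
      · simp only [if_neg hn] at h3 h4 ⊢
        exact open_hst he hd D.pk h1 h2 h3 h4
    filter_upwards [ih, key] with p h5 h6
    refine ⟨h5.c0, h5.t0, h5.r0, fun m hm => ?_⟩
    rcases Nat.lt_succ_iff_lt_or_eq.1 hm with h7 | h7
    · exact h5.st m h7
    · subst h7
      exact h6

end CJ
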