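import Pool.Agent.H.MP_1693ff_gtE.OSheet

/-!
# Consistency of the surfaces
-/

namespace CJ

open Real Set Filter Topology CG CH
open CF hiding St

variable {e d : ℝ} {h k : ℝ → ℝ → ℝ} {S S' : ℝ → ℝ → St} {T T' : ℝ → ℝ → Tt}

/-- Induction on `n`: `al3_hst` with `ρ = 0`, the path `r` constant. -/
theorem ok_tG (D : D3G e d h k S S' T T') {t r : ℝ} {n : ℕ} (O : OkG e d h k S T n t r) :
    Al3 (fun t => chn e d (h r) (k r) (fun t => S t r) n t) (fun t => chn3 e d h k S T n t r)
      (chn e d (h r) (k r) (fun t => S t r) n t).v 0 t := by
  have he := (D.hk 0).e1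
  have hd := (D.hk 0).d0
  induction n with
  | zero => exact O.t0
  | succ n ih =>
    have A := ih (osheet_mono O (Nat.le_succ n))
    obtain ⟨s0, s1, s2⟩ := O.st n (Nat.lt_succ_self n)
    by_cases hn : Even n
    · rw [if_pos hn] at s1 s2
      have B := al3_hst he hd D.ph (hasDerivAt_const t r) A s0 s1 s2
      have e1 : (chn e d (h r) (k r) (fun t => S t r) (n + 1) t).v =
          (1 + d * opp1 e d (pf (h r)) (chn e d (h r) (k r) (fun t => S t r) n t)) *
            (chn e d (h r) (k r) (fun t => S t r) n t).v +
          og e d (pf (h r)) (pt h r) (chn e d (h r) (k r) (fun t => S t r) n t) (chn3 e d h k S T n t r) * 0 := by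
        show (hst e d (if Even n then pf (h r) else pf (k r)) (chn e d (h r) (k r) (fun t => S t r) n t)).v = _
        rw [if_pos hn]
        show (chn e d (h r) (k r) (fun t => S t r) n t).v *
          (1 + d * opp1 e d (pf (h r)) (chn e d (h r) (k r) (fun t => S t r) n t)) = _
        ring
      rw [e1]
      have e2 : (fun t => chn e d (h r) (k r) (fun t => S t r) (n + 1) t) =
          fun t => hst e d (pf (h r)) (chn e d (h r) (k r) (fun t => S t r) n t) := by
        funext t
        show hst e d (if Even n then pf (h r) else pf (k r)) (chn e d (h r) (k r) (fun t => S t r) n t) = _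
        rw [if_pos hn]
      have e3 : (fun t => chn3 e d h k S T (n + 1) t r) = fun t => hst3 e d (pf (h r)) (pt h r)
          (chn e d (h r) (k r) (fun t => S t r) n t) (chn3 e d h k S T n t r) := by
        funext t
        show hst3 e d (if Even n then pf (h r) else pf (k r)) (if Even n then pt h r else pt k r)
          (chn e d (h r) (k r) (fun t => S t r) n t) (chn3 e d h k S T n t r) = _
        rw [if_pos hn, if_pos hn]
      rw [e2, e3]
      exact B
    · rw [if_neg hn] at s1 s2
      have B := al3_hst he hd D.pk (hasDerivAt_const t r) A s0 s1 s2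
      have e1 : (chn e d (h r) (k r) (fun t => S t r) (n + 1) t).v =
          (1 + d * opp1 e d (pf (k r)) (chn e d (h r) (k r) (fun t => S t r) n t)) *
            (chn e d (h r) (k r) (fun t => S t r) n t).v +
          og e d (pf (k r)) (pt k r) (chn e d (h r) (k r) (fun t => S t r) n t) (chn3 e d h k S T n t r) * 0 := by
        show (hst e d (if Even n then pf (h r) else pf (k r)) (chn e d (h r) (k r) (fun t => S t r) n t)).v = _
        rw [if_neg hn]
        show (chn e d (h r) (k r) (fun t => S t r) n t).v *
          (1 + d * opp1 e d (pf (k r)) (chn e d (h r) (k r) (fun t => S t r) n t)) = _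
        ring
      rw [e1]
      have e2 : (fun t => chn e d (h r) (k r) (fun t => S t r) (n + 1) t) =
          fun t => hst e d (pf (k r)) (chn e d (h r) (k r) (fun t => S t r) n t) := by
        funext t
        show hst e d (if Even n then pf (h r) else pf (k r)) (chn e d (h r) (k r) (fun t => S t r) n t) = _
        rw [if_neg hn]
      have e3 : (fun t => chn3 e d h k S T (n + 1) t r) = fun t => hst3 e d (pf (k r)) (pt k r)
          (chn e d (h r) (k r) (fun t => S t r) n t) (chn3 e d h k S T n t r) := by
        funext t
        show hst3 e d (if Even n then pf (h r) else pf (k r)) (if Even n then pt h r else pt k r)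
          (chn e d (h r) (k r) (fun t => S t r) n t) (chn3 e d h k S T n t r) = _
        rw [if_neg hn, if_neg hn]
      rw [e2, e3]
      exact B

/-- Induction on `n`: `al3_hst` with `ρ = 1`, the path `r` the identity. -/
theorem ok_rG (D : D3G e d h k S S' T T') {t r : ℝ} {n : ℕ} (O : OkG e d h k S T n t r) :
    Al3 (fun r => chn e d (h r) (k r) (fun t => S t r) n t) (fun r => chn3 e d h k S T n t r)
      (chn3 e d h k S T n t r).w 1 r := by
  have he := (D.hk 0).e1
  have hd := (D.hk 0).d0
  induction n with
  | zero => exact O.r0
  | succ n ih =>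
    have A := ih (osheet_mono O (Nat.le_succ n))
    obtain ⟨s0, s1, s2⟩ := O.st n (Nat.lt_succ_self n)
    by_cases hn : Even n
    · rw [if_pos hn] at s1 s2
      have B := al3_hst he hd D.ph (hasDerivAt_id' r) A s0 s1 s2
      have e1 : (chn3 e d h k S T (n + 1) t r).w =
          (1 + d * opp1 e d (pf (h r)) (chn e d (h r) (k r) (fun t => S t r) n t)) *
            (chn3 e d h k S T n t r).w +
          og e d (pf (h r)) (pt h r) (chn e d (h r) (k r) (fun t => S t r) n t) (chn3 e d h k S T n t r) * 1 := by
        show (hst3 e d (if Even n then pf (h r) else pf (k r)) (if Even n then pt h r else pt k r)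
          (chn e d (h r) (k r) (fun t => S t r) n t) (chn3 e d h k S T n t r)).w = _
        rw [if_pos hn, if_pos hn, mul_one]
        rfl
      rw [e1]
      have e2 : (fun r => chn e d (h r) (k r) (fun t => S t r) (n + 1) t) =
          fun r => hst e d (pf (h r)) (chn e d (h r) (k r) (fun t => S t r) n t) := by
        funext r
        show hst e d (if Even n then pf (h r) else pf (k r)) (chn e d (h r) (k r) (fun t => S t r) n t) = _
        rw [if_pos hn]
      have e3 : (fun r => chn3 e d h k S T (n + 1) t r) = fun r => hst3 e d (pf (h r)) (pt h r)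
          (chn e d (h r) (k r) (fun t => S t r) n t) (chn3 e d h k S T n t r) := by
        funext r
        show hst3 e d (if Even n then pf (h r) else pf (k r)) (if Even n then pt h r else pt k r)
          (chn e d (h r) (k r) (fun t => S t r) n t) (chn3 e d h k S T n t r) = _
        rw [if_pos hn, if_pos hn]
      rw [e2, e3]
      exact B
    · rw [if_neg hn] at s1 s2
      have B := al3_hst he hd D.pk (hasDerivAt_id' r) A s0 s1 s2
      have e1 : (chn3 e d h k S T (n + 1) t r).w =
          (1 + d * opp1 e d (pf (k r)) (chn e d (h r) (k r) (fun t => S t r) n t)) *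
            (chn3 e d h k S T n t r).w +
          og e d (pf (k r)) (pt k r) (chn e d (h r) (k r) (fun t => S t r) n t) (chn3 e d h k S T n t r) * 1 := by
        show (hst3 e d (if Even n then pf (h r) else pf (k r)) (if Even n then pt h r else pt k r)
          (chn e d (h r) (k r) (fun t => S t r) n t) (chn3 e d h k S T n t r)).w = _
        rw [if_neg hn, if_neg hn, mul_one]
        rfl
      rw [e1]
      have e2 : (fun r => chn e d (h r) (k r) (fun t => S t r) (n + 1) t) =
          fun r => hst e d (pf (k r)) (chn e d (h r) (k r) (fun t => S t r) n t) := by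
        funext r
        show hst e d (if Even n then pf (h r) else pf (k r)) (chn e d (h r) (k r) (fun t => S t r) n t) = _
        rw [if_neg hn]
      have e3 : (fun r => chn3 e d h k S T (n + 1) t r) = fun r => hst3 e d (pf (k r)) (pt k r)
          (chn e d (h r) (k r) (fun t => S t r) n t) (chn3 e d h k S T n t r) := by
        funext r
        show hst3 e d (if Even n then pf (h r) else pf (k r)) (if Even n then pt h r else pt k r)
          (chn e d (h r) (k r) (fun t => S t r) n t) (chn3 e d h k S T n t r) = _
        rw [if_neg hn, if_neg hn]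
      rw [e2, e3]
      exact B

/-- The `n`-th surface. -/
theorem sheet_ofG (D : D3G e d h k S S' T T') {t : ℝ} (ht : t ∈ Icc (0 : ℝ) 1) (n : ℕ) :
    Sheet (fun t r => chn e d (h r) (k r) (fun t => S t r) n t)
      (fun t r => chn3 e d h k S T n t r) t := by
  have O := ok_openG D ht 0 n
  exact
    { c := ok_c13G D (ok_ofG D ht 0 n)
      t := O.mono fun p hp => ok_tG D hp
      r := O.mono fun p hp => ok_rG D hp
      v0 := ((D.hk 0).good t ht n).v0
      s0 := ((D.hk 0).good t ht n).s0
      pos := D.pos 0 t ht n }

end CJ
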