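import Pool.Agent.H.MP_1693ff_gtE.OBodyL

/-!
# Smoothness of the boundary does not depend on the centre: regularity
-/

namespace CJ

open Real Set Filter Topology CG CH
open CF hiding St

variable {E : Type} [NormedAddCommGroup E] [InnerProductSpace ℝ E]

/-- With `A u = 1/radial K p u`, `B u = 1/radial K (p + y) u`: for `w ≠ 0` there is `v ≠ 0` with
`w = v - A(v) y` (namely `v = w + B(w) y`, `rad_link` for `p + y`, `-y` gives `A v = B w`, which is
positive), and `B (u - A(u) y) = A u` for all `u ≠ 0` (`rad_link`). -/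
theorem sm_pre {K : Set E} (hK : IsBody K) {p y : E} (hp : p ∈ interior K)
    (hq : p + y ∈ interior K) {w : E} (hw : w ≠ 0) :
    ∃ v : E, v ≠ 0 ∧ v - (radial K p v)⁻¹ • y = w := by
  have hq' : p + y + -y ∈ interior K := by rwa [add_neg_cancel_right]
  have h1 := rad_link hK hq hq' hw
  rw [add_neg_cancel_right, smul_neg, sub_neg_eq_add] at h1
  have hpos : 0 < (radial K (p + y) w)⁻¹ := by
    rw [rad_gauge hK hq]
    exact (radial_eq hK hq hw).2
  refine ⟨w + (radial K (p + y) w)⁻¹ • y, ?_, ?_⟩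
  · intro h0
    rw [h0, obodyk_aux1 (interior_subset hp), inv_zero] at h1
    linarith
  · rw [h1, add_sub_cancel_right]

/-- Inverse function theorem for `F u = u - A(u) y` at `v` (`sm_pre`): its derivative
`T x = x - D1 A v x • y` is invertible since `D1 A v y < 1` (`rad_sl` with `d = 1`); if `H` is
the local inverse (`ContDiffAt.to_localInverse`, with `ContinuousLinearEquiv` built from
`T` and `x ↦ x + (D1 A v x / (1 - D1 A v y)) • y`), then `B w' = B (F (H w')) = A (H w')` near
`w` (`rad_link`), so `B` is `C³` at `w`. -/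
theorem sm_cd [FiniteDimensional ℝ E] {K : Set E} (hK : IsBody K) {p y : E}
    (hp : p ∈ interior K) (hq : p + y ∈ interior K)
    (c : ContDiffOn ℝ 3 (fun u => (radial K p u)⁻¹) {0}ᶜ) :
    ContDiffOn ℝ 3 (fun u => (radial K (p + y) u)⁻¹) {0}ᶜ := by
  haveI : CompleteSpace E := FiniteDimensional.complete ℝ E
  intro w hw
  have hw0 : w ≠ 0 := hw
  obtain ⟨v, hv, hvw⟩ := sm_pre hK hp hq hw0
  obtain ⟨A, hA⟩ : ∃ A : E → ℝ, A = fun u => (radial K p u)⁻¹ := ⟨_, rfl⟩
  have hAv : ∀ u, A u = (radial K p u)⁻¹ := fun u => by rw [hA]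
  have hgA : Hg A := by rw [hA]; exact rad_hg hK hp c
  have cA : ContDiffAt ℝ 3 A v := hgA.c v hv
  have dA : HasFDerivAt A (fderiv ℝ A v) v := (cA.differentiableAt (by norm_num)).hasFDerivAt
  have hs : 0 < 1 - fderiv ℝ A v y := by
    have h1 := rad_sl hK hp c (d := 1) one_pos (x := y) (by rwa [one_smul]) hv
    rw [one_mul, ← hA] at h1
    exact h1
  have hs' : 1 - fderiv ℝ A v y ≠ 0 := hs.ne'
  obtain ⟨l, hl⟩ : ∃ l : E →L[ℝ] ℝ, l = fderiv ℝ A v := ⟨_, rfl⟩
  rw [← hl] at dA hs'
  have hTS : ∀ x : E, (x + ((1 - l y)⁻¹ * l x) • y) - l (x + ((1 - l y)⁻¹ * l x) • y) • y = x := by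
    intro x
    have h1 : l (x + ((1 - l y)⁻¹ * l x) • y) = (1 - l y)⁻¹ * l x := by
      rw [map_add, map_smul, smul_eq_mul]
      field_simp
      ring
    rw [h1, add_sub_cancel_right]
  have hST : ∀ x : E, (x - l x • y) + ((1 - l y)⁻¹ * l (x - l x • y)) • y = x := by
    intro x
    have h1 : (1 - l y)⁻¹ * l (x - l x • y) = l x := by
      rw [map_sub, map_smul, smul_eq_mul]
      field_simp
    rw [h1, sub_add_cancel]
  let T : E →L[ℝ] E := ContinuousLinearMap.id ℝ E - l.smulRight y
  let S : E →L[ℝ] E := ContinuousLinearMap.id ℝ E + ((1 - l y)⁻¹ • l).smulRight y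
  let e : E ≃L[ℝ] E := ContinuousLinearEquiv.equivOfInverse T S
    (fun x => by
      show (x - l x • y) + ((1 - l y)⁻¹ • l (x - l x • y)) • y = x
      rw [smul_eq_mul]
      exact hST x)
    (fun x => by
      show (x + ((1 - l y)⁻¹ • l x) • y) - l (x + ((1 - l y)⁻¹ • l x) • y) • y = x
      rw [smul_eq_mul]
      exact hTS x)
  obtain ⟨F, hF⟩ : ∃ F : E → E, F = fun u => u - A u • y := ⟨_, rfl⟩
  have cF : ContDiffAt ℝ 3 F v := by
    rw [hF]
    exact contDiffAt_id.sub (cA.smul contDiffAt_const)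
  have dF : HasFDerivAt F (e : E →L[ℝ] E) v := by
    rw [hF]
    have h1 := (hasFDerivAt_id v).sub (dA.smul_const y)
    exact h1
  have hFu : ∀ u, F u = u - (radial K p u)⁻¹ • y := fun u => by
    rw [hF]
    show u - A u • y = _
    rw [hAv]
  have hFv : F v = w := by rw [hFu]; exact hvw
  have h3 : (3 : WithTop ℕ∞) ≠ 0 := by norm_num
  have st : HasStrictFDerivAt F (e : E →L[ℝ] E) v := cF.hasStrictFDerivAt' dF h3
  have cH : ContDiffAt ℝ 3 (cF.localInverse dF h3) w := by
    have := cF.to_localInverse dF h3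
    rwa [hFv] at this
  have hHw : cF.localInverse dF h3 w = v := by
    have := cF.localInverse_apply_image dF h3
    rwa [hFv] at this
  have hinv : ∀ᶠ w' in 𝓝 w, F (cF.localInverse dF h3 w') = w' := by
    have := st.eventually_right_inverse
    rwa [hFv] at this
  have hne : ∀ᶠ w' in 𝓝 w, cF.localInverse dF h3 w' ≠ 0 := by
    have h4 : ContinuousAt (cF.localInverse dF h3) w := cH.continuousAt
    exact h4.eventually_ne (by rw [hHw]; exact hv)
  have heq : (fun u => (radial K (p + y) u)⁻¹) =ᶠ[𝓝 w] fun w' => A (cF.localInverse dF h3 w') := by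
    filter_upwards [hinv, hne] with w' h5 h6
    have h7 := rad_link hK hp hq h6
    have h8 : F (cF.localInverse dF h3 w') = cF.localInverse dF h3 w' -
        (radial K p (cF.localInverse dF h3 w'))⁻¹ • y := hFu _
    rw [← h8, h5] at h7
    rw [h7, hAv]
  have hfin : ContDiffAt ℝ 3 (fun w' => A (cF.localInverse dF h3 w')) w := by
    have h9 : ContDiffAt ℝ 3 A (cF.localInverse dF h3 w) := by rw [hHw]; exact cA
    exact h9.comp w cH
  exact (hfin.congr_of_eventuallyEq heq).contDiffWithinAt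

end CJ
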