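import Pool.Agent.H.MP_1693ff_gtE.OSt0

/-!
# The normalised half step: `K`
-/

namespace CJ

open Real Set Filter Topology CG CH
open CF hiding St

variable {X : Type*} {l : Filter X} {e d : ℝ} {G : X → Np} {M : X → Nv} {F : Np} {N : Nv}

/-- The new `K` is `τ³ (A F.K - B K - c dl²)`, `A = (F.w/o)^{e-1}`, `B = (w/o)^{e-1} = kk`; the
expression is `[τ³ (A F.K - c dl²) - the same on the cycle] - [τ³ B - kk] K`, `K` bounded. -/
theorem stepK (he : 1 ≤ e) (hd : 0 < d) (z0 : N.z = 0) (w0 : 0 < N.w) (w1 : N.w < F.w)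
    (hz : Tendsto (fun x => (M x).z) l (𝓝 0))
    (hw : Tendsto (fun x => (M x).w) l (𝓝 N.w)) (hFw : Tendsto (fun x => (G x).w) l (𝓝 F.w))
    (hFg : Tendsto (fun x => (G x).g) l (𝓝 F.g)) (hFK : Tendsto (fun x => (G x).K) l (𝓝 F.K))
    (hg : Tendsto (fun x => (M x).g) l (𝓝 N.g)) (h1 : ∀ᶠ x in l, |(M x).K - N.K| ≤ 1) :
    Tendsto (fun x => (nst e d (G x) (M x)).K - (nst e d F N).K +
      kk e F N * ((M x).K - N.K)) l (𝓝 0) := by
  have hgb : ∀ᶠ x in l, |(M x).g| ≤ |N.g| + 1 :=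
    hg.abs.eventually (eventually_le_nhds (by linarith))
  have hnt := lim_nt he hd w0 w1 hz hw hFw hFg hgb
  have hA := lim_A he w0 w1 hw hFw
  have hB := lim_B he w0 w1 hw hFw
  have hc := lim_nc he w0 w1 hw hFw
  have hdl : Tendsto (fun x => ndl (G x) (M x)) l (𝓝 (ndl F N)) := by
    unfold ndl
    exact (hw.mul hFg).sub (hFw.mul hg)
  have h3 : Tendsto (fun x => nt e d (G x) (M x) ^ 3) l (𝓝 1) := by
    have := hnt.pow 3
    rwa [one_pow] at this
  have hT1 : Tendsto (fun x => nt e d (G x) (M x) ^ 3 *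
      (((G x).w / no e (G x) (M x)) ^ (e - 1) * (G x).K - nc e (G x) (M x) * ndl (G x) (M x) ^ 2)) l
      (𝓝 (1 * ((F.w / no e F N) ^ (e - 1) * F.K - nc e F N * ndl F N ^ 2))) :=
    h3.mul ((hA.mul hFK).sub (hc.mul (hdl.pow 2)))
  have hT2 : Tendsto (fun x => nt e d (G x) (M x) ^ 3 * ((M x).w / no e (G x) (M x)) ^ (e - 1) -
      kk e F N) l (𝓝 0) := by
    have h4 : 1 * (N.w / no e F N) ^ (e - 1) - kk e F N = 0 := by
      unfold kk
      ring
    have := (h3.mul hB).sub_const (kk e F N)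
    rwa [h4] at this
  have hbd : IsBoundedUnder (· ≤ ·) l (norm ∘ (fun x => (M x).K)) := by
    refine ⟨|N.K| + 1, ?_⟩
    rw [eventually_map]
    filter_upwards [h1] with x hx
    have h5 : |(M x).K| ≤ |(M x).K - N.K| + |N.K| := by
      have := abs_add_le ((M x).K - N.K) N.K
      rwa [sub_add_cancel] at this
    change |(M x).K| ≤ |N.K| + 1
    linarith
  have hT3 := hT2.zero_mul_isBoundedUnder_le hbd
  have hT4 := (hT1.sub_const (1 * ((F.w / no e F N) ^ (e - 1) * F.K - nc e F N * ndl F N ^ 2))).sub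
    hT3
  rw [sub_self, sub_zero] at hT4
  refine hT4.congr fun x => ?_
  have h6 : (nst e d F N).K = n11 e F N := by
    change nt e d F N ^ 3 * n11 e F N = n11 e F N
    rw [(nt_zero z0).1, one_pow, one_mul]
  rw [h6]
  change _ = nt e d (G x) (M x) ^ 3 * n11 e (G x) (M x) - n11 e F N + kk e F N * ((M x).K - N.K)
  unfold n11 kk
  ring

end CJ
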