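import Pool.Agent.H.MP_1693ff_gtE.OE

/-!
# The normalised half step: `w`
-/

namespace CJ

open Real Set Filter Topology CG CH
open CF hiding St

variable {e d : ℝ}

theorem ostw_pos (he : 1 ≤ e) {f w : ℝ} (hw : 0 < w) (hf : w < f) : 0 < f ^ e - w ^ e := by
  have := Real.rpow_lt_rpow hw.le hf (by linarith : 0 < e)
  linarith

/-- the opposite value is differentiable in the pair. -/
theorem ostw_o (he : 1 ≤ e) {f w : ℝ} (hw : 0 < w) (hf : w < f) :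
    HasFDerivAt (fun p : ℝ × ℝ => (p.1 ^ e - p.2 ^ e) ^ e⁻¹)
      ((e⁻¹ * (f ^ e - w ^ e) ^ (e⁻¹ - 1)) •
        ((e * f ^ (e - 1)) • ContinuousLinearMap.fst ℝ ℝ ℝ -
          (e * w ^ (e - 1)) • ContinuousLinearMap.snd ℝ ℝ ℝ)) (f, w) := by
  have h1 : HasFDerivAt (fun p : ℝ × ℝ => p.1 ^ e)
      ((e * f ^ (e - 1)) • ContinuousLinearMap.fst ℝ ℝ ℝ) (f, w) :=
    HasFDerivAt.rpow_const (f := fun p : ℝ × ℝ => p.1)
      (hasFDerivAt_fst (𝕜 := ℝ) (E := ℝ) (F := ℝ) (p := (f, w))) (Or.inr he)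
  have h2 : HasFDerivAt (fun p : ℝ × ℝ => p.2 ^ e)
      ((e * w ^ (e - 1)) • ContinuousLinearMap.snd ℝ ℝ ℝ) (f, w) :=
    HasFDerivAt.rpow_const (f := fun p : ℝ × ℝ => p.2)
      (hasFDerivAt_snd (𝕜 := ℝ) (E := ℝ) (F := ℝ) (p := (f, w))) (Or.inr he)
  have h3 := h1.sub h2
  exact HasFDerivAt.rpow_const h3 (Or.inl (ostw_pos he hw hf).ne')

/-- the derivative of `t / (1 + d t)`. -/
theorem ostw_phi (hd : 0 < d) {t : ℝ} (ht : 0 < t) :
    HasDerivAt (fun t : ℝ => t / (1 + d * t)) (1 / (1 + d * t) ^ 2) t := by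
  have h0 : 1 + d * t ≠ 0 := by positivity
  have h1 : HasDerivAt (fun t : ℝ => 1 + d * t) d t := by
    have := (hasDerivAt_id t).const_mul d
    simpa using this.const_add 1
  have h2 := (hasDerivAt_id t).div h1 h0
  refine h2.congr_deriv ?_
  simp only [id]
  congr 1
  ring

theorem ostw_pow (he : 1 ≤ e) {f w : ℝ} (hw : 0 < w) (hf : w < f) :
    e⁻¹ * (f ^ e - w ^ e) ^ (e⁻¹ - 1) * (e * w ^ (e - 1)) =
      (w / (f ^ e - w ^ e) ^ e⁻¹) ^ (e - 1) := by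
  have hu := ostw_pos he hw hf
  have he0 : e ≠ 0 := by linarith
  have ho : 0 ≤ (f ^ e - w ^ e) ^ e⁻¹ := (Real.rpow_pos_of_pos hu _).le
  rw [Real.div_rpow hw.le ho, ← Real.rpow_mul hu.le]
  have h1 : e⁻¹ * (e - 1) = -(e⁻¹ - 1) := by
    field_simp
    ring
  rw [h1, Real.rpow_neg hu.le, div_inv_eq_mul]
  have h2 : e⁻¹ * e = 1 := inv_mul_cancel₀ he0
  calc e⁻¹ * (f ^ e - w ^ e) ^ (e⁻¹ - 1) * (e * w ^ (e - 1))
      = (e⁻¹ * e) * (w ^ (e - 1) * (f ^ e - w ^ e) ^ (e⁻¹ - 1)) := by ring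
    _ = w ^ (e - 1) * (f ^ e - w ^ e) ^ (e⁻¹ - 1) := by rw [h2, one_mul]

/-- `ps e d f w = o/(1 + d o)`, `o = (f^e - w^e)^{1/e}`, is `C¹` near `(f, w)` (`0 < w < f`) with
`∂_w ps = -(w/o)^{e-1}/(1 + d o)²`.  Strict differentiability (`ContDiffAt.hasStrictFDerivAt` for
the function of the pair): for `(f', w')` near `(f, w)`,
`|ps e d f' w' - ps e d f w - L (f' - f, w' - w)| ≤ ε (|f' - f| + |w' - w|)`, with `L (x, y) =
c x - (w/o)^{e-1}/(1+do)² y`; `ε` the difference to `lam`.  The last claim by continuity of `o`. -/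
theorem w_step (he : 1 ≤ e) (hd : 0 < d) {f w lam : ℝ} (hw : 0 < w) (hf : w < f)
    (hl : (w / (f ^ e - w ^ e) ^ e⁻¹) ^ (e - 1) / (1 + d * (f ^ e - w ^ e) ^ e⁻¹) ^ 2 < lam) :
    ∃ C ρ : ℝ, 0 ≤ C ∧ 0 < ρ ∧ ∀ f' w', |f' - f| ≤ ρ → |w' - w| ≤ ρ →
      |ps e d f' w' - ps e d f w| ≤ lam * |w' - w| + C * |f' - f| ∧
      0 < w' ∧ w' < f' ∧ (f ^ e - w ^ e) ^ e⁻¹ / 2 ≤ (f' ^ e - w' ^ e) ^ e⁻¹ := by
  have hu := ostw_pos he hw hf
  have ho : 0 < (f ^ e - w ^ e) ^ e⁻¹ := Real.rpow_pos_of_pos hu _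
  have hO := ostw_o he hw hf
  have hP := HasDerivAt.comp_hasFDerivAt (f, w) (ostw_phi (d := d) hd ho) hO
  obtain ⟨m, hm⟩ : ∃ m, m = (w / (f ^ e - w ^ e) ^ e⁻¹) ^ (e - 1) /
      (1 + d * (f ^ e - w ^ e) ^ e⁻¹) ^ 2 := ⟨_, rfl⟩
  obtain ⟨c, hc⟩ : ∃ c, c = 1 / (1 + d * (f ^ e - w ^ e) ^ e⁻¹) ^ 2 *
      (e⁻¹ * (f ^ e - w ^ e) ^ (e⁻¹ - 1) * (e * f ^ (e - 1))) := ⟨_, rfl⟩
  rw [← hm] at hl
  have hm0 : 0 ≤ m := by
    rw [hm]
    positivity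
  have hε : 0 < lam - m := by linarith
  have hbd := hP.isLittleO.def hε
  have hcont : ContinuousAt (fun p : ℝ × ℝ => (p.1 ^ e - p.2 ^ e) ^ e⁻¹) (f, w) :=
    hO.continuousAt
  have hev : ∀ᶠ p : ℝ × ℝ in 𝓝 (f, w), (f ^ e - w ^ e) ^ e⁻¹ / 2 < (p.1 ^ e - p.2 ^ e) ^ e⁻¹ :=
    hcont.eventually (lt_mem_nhds (by
      show (f ^ e - w ^ e) ^ e⁻¹ / 2 < (f ^ e - w ^ e) ^ e⁻¹
      linarith))
  have hw' : ∀ᶠ p : ℝ × ℝ in 𝓝 (f, w), 0 < p.2 :=
    (continuous_snd.continuousAt (x := (f, w))).eventually (lt_mem_nhds hw)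
  have hf' : ∀ᶠ p : ℝ × ℝ in 𝓝 (f, w), p.2 < p.1 :=
    (continuous_snd.continuousAt (x := (f, w))).eventually_lt
      (continuous_fst.continuousAt (x := (f, w))) hf
  obtain ⟨r, hr, hr'⟩ := Metric.eventually_nhds_iff.1 (hbd.and (hev.and (hw'.and hf')))
  refine ⟨|c| + (lam - m), r / 2, by positivity, by positivity, fun f' w' h1 h2 => ?_⟩
  have hdist : dist (f', w') (f, w) < r := by
    rw [Prod.dist_eq, Real.dist_eq, Real.dist_eq]
    exact max_lt (by show |f' - f| < r; linarith) (by show |w' - w| < r; linarith)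
  obtain ⟨g1, g2, g3, g4⟩ := hr' hdist
  refine ⟨?_, g3, g4, g2.le⟩
  have hL : ((1 / (1 + d * (f ^ e - w ^ e) ^ e⁻¹) ^ 2) •
      ((e⁻¹ * (f ^ e - w ^ e) ^ (e⁻¹ - 1)) •
        ((e * f ^ (e - 1)) • ContinuousLinearMap.fst ℝ ℝ ℝ -
          (e * w ^ (e - 1)) • ContinuousLinearMap.snd ℝ ℝ ℝ))) ((f', w') - (f, w)) =
      c * (f' - f) - m * (w' - w) := by
    have h3 := ostw_pow he hw hf
    have h4 : m = 1 / (1 + d * (f ^ e - w ^ e) ^ e⁻¹) ^ 2 *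
        (e⁻¹ * (f ^ e - w ^ e) ^ (e⁻¹ - 1) * (e * w ^ (e - 1))) := by
      rw [h3, hm]
      ring
    rw [h4, hc]
    simp only [smul_apply, sub_apply,
      ContinuousLinearMap.coe_fst', ContinuousLinearMap.coe_snd', smul_eq_mul, Prod.fst_sub,
      Prod.snd_sub]
    ring
  have hn : ‖(f', w') - (f, w)‖ ≤ |f' - f| + |w' - w| := by
    rw [Prod.norm_def]
    refine max_le ?_ ?_
    · show |f' - f| ≤ _
      linarith [abs_nonneg (w' - w)]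
    · show |w' - w| ≤ _
      linarith [abs_nonneg (f' - f)]
  have g5 : |ps e d f' w' - ps e d f w - (c * (f' - f) - m * (w' - w))| ≤
      (lam - m) * (|f' - f| + |w' - w|) := by
    rw [← hL]
    exact (g1.trans (mul_le_mul_of_nonneg_left hn hε.le))
  have g6 : ps e d f' w' - ps e d f w = (ps e d f' w' - ps e d f w -
      (c * (f' - f) - m * (w' - w))) + (c * (f' - f) + -(m * (w' - w))) := by ring
  rw [g6]
  refine (abs_add_le _ _).trans ?_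
  have g7 : |c * (f' - f) + -(m * (w' - w))| ≤ |c| * |f' - f| + m * |w' - w| := by
    refine (abs_add_le _ _).trans ?_
    rw [abs_neg, abs_mul, abs_mul, abs_of_nonneg hm0]
  have g8 : (lam - m) * (|f' - f| + |w' - w|) =
    (lam - m) * |f' - f| + (lam - m) * |w' - w| := by ring
  have g9 : (|c| + (lam - m)) * |f' - f| = |c| * |f' - f| + (lam - m) * |f' - f| := by ring
  have g10 : lam * |w' - w| = m * |w' - w| + (lam - m) * |w' - w| := by ring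
  rw [g9, g10]
  rw [g8] at g5
  linarith

end CJ
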