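import Pool.Agent.H.MP_1693ff_gtE.OWa
import Pool.Agent.H.MP_1693ff_gtE.OJCc

/-!
# The start surface: regularity of the gauge function, families
-/

namespace CJ

open Real Set Filter Topology CG CH
open CF hiding St

variable {ι : Type} [TopologicalSpace ι]
variable {E : Type} [NormedAddCommGroup E] [InnerProductSpace ℝ E]

/-- Composition of `wy_cd` with `v ↦ (v, VA ξ, D1 VA ξ ax, VB (-ξ), D1 VB (-ξ) ax)`. -/
theorem ww_cd {e d : ℝ} {ax : E} (D0 : 0 < d) (hax : ‖ax‖ = 1) {A VA VB Φ Ψ : E → ℝ}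
    (hA : Hg A) (vA : VG e d ax Φ VA) (vB : VG e d ax Ψ VB) {v : E} (hv : xi ax v ≠ 0) :
    ContDiffAt ℝ 2 (WW d ax A VA VB) v := by
  obtain ⟨P, hP⟩ := xi_clm ax
  have hxv : -xi ax v ≠ 0 := neg_ne_zero.2 hv
  have hPv : ContDiffAt ℝ 2 (fun u => xi ax u) v := by
    have h1 : (fun u => xi ax u) = fun u => P u := by
      funext u
      exact (hP u).symm
    rw [h1]
    exact P.contDiff.contDiffAt
  have hNv : ContDiffAt ℝ 2 (fun u => -xi ax u) v := hPv.neg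
  have cA : ContDiffAt ℝ 3 VA (xi ax v) := vA.hg.c _ hv
  have cB : ContDiffAt ℝ 3 VB (-xi ax v) := vB.hg.c _ hxv
  have dA : ContDiffAt ℝ 2 (fun u => D1 VA u ax) (xi ax v) :=
    (cA.fderiv_right (m := 2) (by norm_num)).clm_apply contDiffAt_const
  have dB : ContDiffAt ℝ 2 (fun u => D1 VB u ax) (-xi ax v) :=
    (cB.fderiv_right (m := 2) (by norm_num)).clm_apply contDiffAt_const
  have cA2 : ContDiffAt ℝ 2 VA (xi ax v) := cA.of_le (by norm_num)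
  have cB2 : ContDiffAt ℝ 2 VB (-xi ax v) := cB.of_le (by norm_num)
  have e1 : ContDiffAt ℝ 2 (fun u => VA (xi ax u)) v := cA2.comp v hPv
  have e2 : ContDiffAt ℝ 2 (fun u => D1 VA (xi ax u) ax) v := dA.comp v hPv
  have e3 : ContDiffAt ℝ 2 (fun u => VB (-xi ax u)) v := cB2.comp v hNv
  have e4 : ContDiffAt ℝ 2 (fun u => D1 VB (-xi ax u) ax) v :=
    ContDiffAt.comp (g := fun u => D1 VB u ax) (f := fun u => -xi ax u) v dB hNv
  have hall : ContDiffAt ℝ 2 (fun u => (u, VA (xi ax u), D1 VA (xi ax u) ax, VB (-xi ax u),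
      D1 VB (-xi ax u) ax)) v :=
    contDiffAt_id.prodMk (e1.prodMk (e2.prodMk (e3.prodMk e4)))
  exact (wy_cd D0 hax hA hv (y₁ := VA (xi ax v)) (y₂ := D1 VA (xi ax v) ax)
    (vB.hg.p _ hxv) (vB.s _ hxv).ne').comp v hall

/-- The version for families: `JC.comp` with the function of `wy_cd`; `JC.prodMk`,
`JC.pre` with the linear maps `xi ax` and `-xi ax` (`xi_clm`), `JC.d1`, `JC.const`
(identity of `E`). -/
theorem ww_jc {d : ℝ} (D0 : 0 < d) {ax : E} (hax : ‖ax‖ = 1) {A : E → ℝ} {i₀ : ι}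
    {VA VB : ι → E → ℝ} (hA : Hg A) (jA : ∀ v, v ≠ 0 → JC i₀ v 3 VA)
    (jB : ∀ v, v ≠ 0 → JC i₀ v 3 VB) (pB : ∀ v, v ≠ 0 → 0 < VB i₀ v)
    (sB : ∀ v, v ≠ 0 → 0 < 1 - d * D1 (VB i₀) v ax) {v : E} (hv : xi ax v ≠ 0) :
    JC i₀ v 2 (fun i => WW d ax A (VA i) (VB i)) := by
  obtain ⟨P, hP⟩ := xi_clm ax
  have hxv : -xi ax v ≠ 0 := neg_ne_zero.2 hv
  have hPv : P v ≠ 0 := by
    rw [hP]
    exact hv
  have hNv : (-P) v ≠ 0 := by
    rw [neg_apply, hP]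
    exact hxv
  have e1 : JC i₀ v 2 (fun i x => VA i (P x)) := JC.pre P (jA _ hPv).mono
  have e2 : JC i₀ v 2 (fun i x => D1 (VA i) (P x) ax) :=
    JC.pre (f := fun i u => D1 (VA i) u ax) P (JC.d1 (k := 2) (jA _ hPv) ax)
  have e3 : JC i₀ v 2 (fun i x => VB i ((-P) x)) := JC.pre (-P) (jB _ hNv).mono
  have e4 : JC i₀ v 2 (fun i x => D1 (VB i) ((-P) x) ax) :=
    JC.pre (f := fun i u => D1 (VB i) u ax) (-P) (JC.d1 (k := 2) (jB _ hNv) ax)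
  have e0 : JC i₀ v 2 (fun (_ : ι) (x : E) => x) := JC.const (f := fun x : E => x) contDiffAt_id
  have hall := JC.prodMk e0 (JC.prodMk e1 (JC.prodMk e2 (JC.prodMk e3 e4)))
  have hwy : ContDiffAt ℝ ((2 : ℕ) : WithTop ℕ∞)
      (fun p : E × ℝ × ℝ × ℝ × ℝ => WY d ax A p.1 p.2.1 p.2.2.1 p.2.2.2.1 p.2.2.2.2)
      (v, VA i₀ (P v), D1 (VA i₀) (P v) ax, VB i₀ ((-P) v), D1 (VB i₀) ((-P) v) ax) := by
    have h1 := wy_cd D0 hax hA hv (y₁ := VA i₀ (P v)) (y₂ := D1 (VA i₀) (P v) ax)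
      (pB _ hNv) (sB _ hNv).ne'
    exact_mod_cast h1
  have hfin := JC.comp (i₀ := i₀) (v := v) (k := 2)
    (f := fun i x => (x, VA i (P x), D1 (VA i) (P x) ax, VB i ((-P) x), D1 (VB i) ((-P) x) ax))
    (Ψ := fun p : E × ℝ × ℝ × ℝ × ℝ => WY d ax A p.1 p.2.1 p.2.2.1 p.2.2.2.1 p.2.2.2.2)
    hwy hall
  refine JC.congr hfin (Eventually.of_forall (fun p => ?_))
  simp only [WW, neg_apply, hP]

end CJ
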