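import Pool.Agent.H.MP_1693ff_gtE.OWa
import Pool.Agent.H.MP_1693ff_gtE.OHom
import Pool.Agent.H.MP_1693ff_gtE.OLinkA

/-!
# The start surface: homogeneity, value at `i₀`
-/

namespace CJ

open Real Set Filter Topology CG CH
open CF hiding St

variable {E : Type} [NormedAddCommGroup E] [InnerProductSpace ℝ E]

theorem owb_xi (ax v : E) (c : ℝ) : xi ax (c • v) = c • xi ax v := by
  simp only [xi, inner_smul_right, smul_sub, smul_smul]

theorem owb_hmt (c x p q p' q' : ℝ) :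
    hmt x (c * p) (c * q) (c * p') (c * q') = c * hmt x p q p' q' := by
  simp only [hmt]
  ring

theorem owb_hmt0 (x : ℝ) : hmt x 0 0 0 0 = 0 := by
  simp only [hmt]
  ring

theorem owb_d1 {V : E → ℝ} (h : Ho V) {c : ℝ} (hc : 0 < c) (v x : E) :
    D1 V (c • v) x = D1 V v x := by
  show fderiv ℝ V (c • v) x = fderiv ℝ V v x
  rw [ohom_fd h hc v]

theorem owb_d1_congr {V W : E → ℝ} (h : ∀ v, v ≠ 0 → V v = W v) {v : E} (hv : v ≠ 0) (x : E) :
    D1 V v x = D1 W v x := by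
  have h1 : V =ᶠ[𝓝 v] W := by
    filter_upwards [isOpen_ne.mem_nhds hv] with u hu
    exact h u hu
  show fderiv ℝ V v x = fderiv ℝ W v x
  rw [h1.fderiv_eq]

/-- Homogeneity. For `c > 0`: `ξ`, `⟨ax, v⟩`, `y₃ = VB (-ξ)`, the point `(d y₃) ax + ξ` are
multiplied by `c`, `D1 VA ξ ax`, `D1 VB (-ξ) ax`, `D1 A _ ax` do not change (`ho_d1` for `ξ ≠ 0`;
for `ξ = 0` everything is at the point `0` and `VB 0 = 0`). -/
theorem ww_ho {e d : ℝ} {ax : E} (D0 : 0 < d) (hax : ‖ax‖ = 1) {A VA VB Φ Ψ : E → ℝ}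
    (hA : Hg A) (vA : VG e d ax Φ VA) (vB : VG e d ax Ψ VB) : Ho (WW d ax A VA VB) := by
  have _ := D0
  have _ := hax
  intro c hc v
  have h1 : VB (-(c • xi ax v)) = c * VB (-xi ax v) := by
    rw [← smul_neg]
    exact vB.hg.h c hc _
  have h2 : D1 VB (-(c • xi ax v)) ax = D1 VB (-xi ax v) ax := by
    rw [← smul_neg]
    exact owb_d1 vB.hg.h hc _ _
  have h3 : (d * (c * VB (-xi ax v))) • ax + c • xi ax v
      = c • ((d * VB (-xi ax v)) • ax + xi ax v) := by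
    rw [smul_add, smul_smul]
    congr 2
    ring
  have h4 : c * (inner ℝ ax v : ℝ) / (d * (c * VB (-xi ax v)))
      = (inner ℝ ax v : ℝ) / (d * VB (-xi ax v)) := by
    rw [show d * (c * VB (-xi ax v)) = c * (d * VB (-xi ax v)) by ring]
    exact mul_div_mul_left _ _ hc.ne'
  simp only [WW, WY]
  rw [owb_xi, h1, h2, h3, inner_smul_right, h4, hA.h c hc v, hA.h c hc (xi ax v),
    hA.h c hc ((d * VB (-xi ax v)) • ax + xi ax v), vA.hg.h c hc (xi ax v),
    owb_d1 vA.hg.h hc, owb_d1 hA.h hc, owb_d1 hA.h hc, mul_add, ← owb_hmt]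
  congr 2
  · ring
  · ring
  · ring
  · ring

/-- At `i₀` (`VA = A`, `VB = B`) the correction is `0`: `VA ξ - A ξ = 0`, the derivatives are
equal; `VB (-ξ) - A (d VB (-ξ) ax + ξ) = 0` by `D.lB`, and the last term by `link_d1` for
`D.swap` at `v = ξ`: `1 - d D1 A u ax = 1/(1 - d D1 B (-ξ) ax)`. -/
theorem ww_i0 {d : ℝ} {ax : E} {A B VA VB : E → ℝ} (D : Bd d ax A B)
    (hVA : ∀ v, v ≠ 0 → VA v = A v) (hVB : ∀ v, v ≠ 0 → VB v = B v) {v : E}
    (hv : xi ax v ≠ 0) : WW d ax A VA VB v = A v := by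
  have hv' : -xi ax v ≠ 0 := neg_ne_zero.2 hv
  obtain ⟨_, h1, _⟩ := link_d1 D.swap hv ax
  have h2 := D.lB _ hv
  have h3 : (d * B (-xi ax v)) • ax + xi ax v = xi ax v + (d * B (-xi ax v)) • ax := add_comm _ _
  simp only [WW, WY]
  rw [hVA _ hv, hVB _ hv', owb_d1_congr hVA hv, owb_d1_congr hVB hv', h3, h2, h1, sub_self,
    sub_self, sub_self, sub_self, mul_zero, owb_hmt0, add_zero]

end CJ
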