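import Pool.Agent.H.MP_1693ff_gtE.OVB
import Pool.Agent.H.MP_1693ff_gtE.OWb
import Pool.Agent.H.MP_1693ff_gtE.OWa2

/-!
# The upper start surfaces as a family
-/

namespace CJ

open Real Set Filter Topology CG CH
open CF hiding St

variable {ι : Type} [TopologicalSpace ι]
variable {E : Type} [NormedAddCommGroup E] [InnerProductSpace ℝ E]

/-- `fA` is `JC 3`, equal to `A` at `i₀` (`va_jc`, `va_i0`). -/
theorem fA_jc {e d : ℝ} {ax : E} {A B : E → ℝ} {Φ Ψ : ι → E → ℝ} {i₀ : ι}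
    (F : Fml e d ax A B Φ Ψ i₀) : (∀ v, v ≠ 0 → JC i₀ v 3 (fA e Φ A)) ∧
      ∀ v, v ≠ 0 → fA e Φ A i₀ v = A v :=
  ⟨fun v hv => va_jc F.e1 F.hΦ F.bd.hA F.oΦ hv (F.jΦ v hv),
    fun v hv => va_i0 F.e1 F.bd.hA F.oΦ hv⟩

/-- functions which agree near `v` have the same first derivative. -/
theorem ostf_d1 {V W : E → ℝ} {v : E} (h : V =ᶠ[𝓝 v] W) (x : E) : D1 V v x = D1 W v x := by
  unfold D1
  rw [h.fderiv_eq]

/-- functions which agree near `v` have the same second derivative. -/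
theorem ostf_d2 {V W : E → ℝ} {v : E} (h : V =ᶠ[𝓝 v] W) (x y : E) : D2 V v x y = D2 W v x y := by
  unfold D2
  rw [h.fderiv.fderiv_eq]

/-- `fW` is `JC 2` off the axis and equal to `A` at `i₀` (`ww_jc`, `ww_i0`; positivity
at `i₀` from `fA_jc` for `F.swap`, `F.bd.sB`). -/
theorem fW_jc {e d : ℝ} {ax : E} {A B : E → ℝ} {Φ Ψ : ι → E → ℝ} {i₀ : ι}
    (F : Fml e d ax A B Φ Ψ i₀) {v : E} (hv : xi ax v ≠ 0) :
    JC i₀ v 2 (fW e d ax A B Φ Ψ) ∧ fW e d ax A B Φ Ψ i₀ v = A v := by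
  refine ⟨?_, ww_i0 F.bd (fA_jc F).2 (fA_jc F.swap).2 hv⟩
  refine ww_jc F.bd.d0 F.bd.a1 F.bd.hA (fA_jc F).1 (fA_jc F.swap).1 (fun u hu => ?_)
    (fun u hu => ?_) hv
  · rw [(fA_jc F.swap).2 u hu]
    exact F.bd.hB.p u hu
  · have h1 : fA e Ψ B i₀ =ᶠ[𝓝 u] B := by
      filter_upwards [isOpen_ne.mem_nhds hu] with w hw
      exact (fA_jc F.swap).2 w hw
    rw [ostf_d1 h1]
    exact F.bd.sB u hu

theorem ostf_xi {ax ω : E} (hax : ‖ax‖ = 1) (hω : Un ax ω) (a : ℝ) : xi ax (a • ax + ω) = ω := by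
  unfold xi
  rw [inner_add_right, inner_smul_right, real_inner_self_eq_norm_sq, hax, hω.o1]
  simp

theorem ostf_ne {ax ω : E} (hω : Un ax ω) : ω ≠ 0 := by
  intro h
  have := hω.n1
  rw [h, norm_zero] at this
  exact zero_ne_one this

theorem ostf_xi_ne {ax ω : E} (hax : ‖ax‖ = 1) (hω : Un ax ω) (a : ℝ) :
    xi ax (a • ax + ω) ≠ 0 := by
  rw [ostf_xi hax hω]
  exact ostf_ne hω

/-- at `i₀` the function is `A` near the points off the axis. -/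
theorem ostf_ev {e d : ℝ} {ax : E} {A B : E → ℝ} {Φ Ψ : ι → E → ℝ} {i₀ : ι}
    (F : Fml e d ax A B Φ Ψ i₀) {v : E} (hv : xi ax v ≠ 0) :
    fW e d ax A B Φ Ψ i₀ =ᶠ[𝓝 v] A := by
  obtain ⟨P, hP⟩ := xi_clm ax
  have h1 : ContinuousAt (fun u => xi ax u) v := by
    have h2 : (fun u => xi ax u) = fun u => P u := funext fun u => (hP u).symm
    rw [h2]
    exact P.continuous.continuousAt
  filter_upwards [h1.eventually_ne hv] with u hu
  exact (fW_jc F hu).2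

/-- the end of the start surface as a family. -/
theorem ostf_fa {e d : ℝ} {ax : E} {A B : E → ℝ} {Φ Ψ : ι → E → ℝ} {i₀ : ι}
    (F : Fml e d ax A B Φ Ψ i₀) {ω : E} (hω : ω ≠ 0) :
    JC i₀ ω 3 (fa e d B Ψ) ∧ fa e d B Ψ i₀ ω = d * B (-ω) := by
  have hn : -ω ≠ 0 := neg_ne_zero.2 hω
  constructor
  · have h1 : JC i₀ ((-(ContinuousLinearMap.id ℝ E)) ω) 3 (fA e Ψ B) := by
      have := (fA_jc F.swap).1 (-ω) hn
      simpa using this
    have h2 := JC.pre (-(ContinuousLinearMap.id ℝ E)) h1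
    have h3 : ContDiffAt ℝ (3 : ℕ) (fun y : ℝ => d * y)
        ((fun i x => fA e Ψ B i ((-(ContinuousLinearMap.id ℝ E)) x)) i₀ ω) :=
      contDiffAt_const.mul contDiffAt_id
    have h4 := JC.comp (v := ω) (f := fun i x => fA e Ψ B i ((-(ContinuousLinearMap.id ℝ E)) x))
      (Ψ := fun y : ℝ => d * y) h3 h2
    have h5 : (fun i x => d * fA e Ψ B i ((-(ContinuousLinearMap.id ℝ E)) x)) = fa e d B Ψ := by
      funext i x
      simp [fa, a1]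
    rw [← h5]
    exact h4
  · show d * fA e Ψ B i₀ (-ω) = d * B (-ω)
    rw [(fA_jc F.swap).2 (-ω) hn]

/-- continuity of the end and of the points of the surface. -/
theorem ostf_pt {e d : ℝ} {ax : E} {A B : E → ℝ} {Φ Ψ : ι → E → ℝ} {i₀ : ι}
    (F : Fml e d ax A B Φ Ψ i₀) {x : E × E × ℝ} (hx : Un ax x.1) :
    ContinuousAt (fun p : ι × (E × E × ℝ) => fa e d B Ψ p.1 p.2.1) (i₀, x) ∧
    ContinuousAt (fun p : ι × (E × E × ℝ) => p.2.2.2 * fa e d B Ψ p.1 p.2.1) (i₀, x) ∧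
    ContinuousAt (fun p : ι × (E × E × ℝ) =>
      (p.2.2.2 * fa e d B Ψ p.1 p.2.1) • ax + p.2.1) (i₀, x) := by
  have hω : ContinuousAt (fun p : ι × (E × E × ℝ) => p.2.1) (i₀, x) := by fun_prop
  have ht : ContinuousAt (fun p : ι × (E × E × ℝ) => p.2.2.2) (i₀, x) := by fun_prop
  have h0 : ContinuousAt (fun p : ι × (E × E × ℝ) => (p.1, p.2.1)) (i₀, x) := by fun_prop
  have h1 : ContinuousAt (fun p : ι × (E × E × ℝ) => fa e d B Ψ p.1 p.2.1) (i₀, x) :=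
    ContinuousAt.comp (f := fun p : ι × (E × E × ℝ) => (p.1, p.2.1))
      (g := fun q : ι × E => fa e d B Ψ q.1 q.2) (ostf_fa F (ostf_ne hx)).1.2.c0 h0
  have h2 := ht.mul h1
  exact ⟨h1, h2, (h2.smul continuousAt_const).add hω⟩

/-- The upper start surfaces.  `lim`: `a = t a₁ ≥ 0`, `v = a₁ = d B (-ω) > 0`; `fW i₀ = A` near
the point `a ax + ω` (off the axis), so the derivatives agree.  `cs`, `ct`: continuity of
`(i, ω, t) ↦ (t a₁, (t a₁) ax + ω)` and `JC` of `fW`, `fA` (`JC.c1`, `JC.c2`). -/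
theorem stf_U {e d : ℝ} {ax : E} {A B : E → ℝ} {Φ Ψ : ι → E → ℝ} {i₀ : ι}
    (F : Fml e d ax A B Φ Ψ i₀) :
    Stf d ax A (fU e d ax A B Φ Ψ) (fUT e d ax A B Φ Ψ) i₀ := by
  have hax := F.bd.a1
  refine ⟨?_, ?_, ?_⟩
  · rintro ω η t ⟨hω, -, -, -, ht⟩
    have hω' : Un ax ω := hω
    have hn : -ω ≠ 0 := neg_ne_zero.2 (ostf_ne hω')
    have hpos : 0 < fa e d B Ψ i₀ ω := by
      rw [(ostf_fa F (ostf_ne hω')).2]
      exact mul_pos F.bd.d0 (F.bd.hB.p _ hn)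
    have hev := ostf_ev F (ostf_xi_ne hax hω' (t * fa e d B Ψ i₀ ω))
    refine ⟨t * fa e d B Ψ i₀ ω, fa e d B Ψ i₀ ω, t * D1 (fa e d B Ψ i₀) ω η,
      mul_nonneg ht.1 hpos.le, hpos, ?_, ?_⟩
    · unfold fU SU JE
      rw [hev.eq_of_nhds, ostf_d1 hev, ostf_d2 hev]
    · unfold fUT TU JT
      rw [ostf_d1 hev, ostf_d2 hev, ostf_d2 hev]
  · rintro ⟨ω, η, t⟩ ⟨hω, -, -, -, ht⟩
    have hω' : Un ax ω := hω
    obtain ⟨c1, c2, c3⟩ := ostf_pt (x := (ω, η, t)) F hω'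
    have hJ := (fW_jc F (ostf_xi_ne hax hω' (t * fa e d B Ψ i₀ ω))).1
    have hi : ContinuousAt (fun p : ι × (E × E × ℝ) => p.1) (i₀, (ω, η, t)) := by fun_prop
    have g0 : ContinuousAt (fun p : ι × (E × E × ℝ) => fW e d ax A B Φ Ψ p.1
        ((p.2.2.2 * fa e d B Ψ p.1 p.2.1) • ax + p.2.1)) (i₀, (ω, η, t)) :=
      ContinuousAt.comp (f := fun p : ι × (E × E × ℝ) =>
          (p.1, (p.2.2.2 * fa e d B Ψ p.1 p.2.1) • ax + p.2.1))
        (g := fun q : ι × E => fW e d ax A B Φ Ψ q.1 q.2) hJ.2.c0 (hi.prodMk c3)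
    have g1 : ContinuousAt (fun p : ι × (E × E × ℝ) => D1 (fW e d ax A B Φ Ψ p.1)
        ((p.2.2.2 * fa e d B Ψ p.1 p.2.1) • ax + p.2.1) ax) (i₀, (ω, η, t)) :=
      ContinuousAt.comp (f := fun p : ι × (E × E × ℝ) =>
          (p.1, (p.2.2.2 * fa e d B Ψ p.1 p.2.1) • ax + p.2.1, ax))
        (g := fun q : ι × E × E => D1 (fW e d ax A B Φ Ψ q.1) q.2.1 q.2.2) (JC.c1 hJ ax)
        (hi.prodMk (c3.prodMk continuousAt_const))
    have g2 : ContinuousAt (fun p : ι × (E × E × ℝ) => D2 (fW e d ax A B Φ Ψ p.1)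
        ((p.2.2.2 * fa e d B Ψ p.1 p.2.1) • ax + p.2.1) ax ax) (i₀, (ω, η, t)) :=
      ContinuousAt.comp (f := fun p : ι × (E × E × ℝ) =>
          (p.1, (p.2.2.2 * fa e d B Ψ p.1 p.2.1) • ax + p.2.1, ax, ax))
        (g := fun q : ι × E × E × E => D2 (fW e d ax A B Φ Ψ q.1) q.2.1 q.2.2.1 q.2.2.2)
        (JC.c2 hJ ax ax)
        (hi.prodMk (c3.prodMk (continuousAt_const.prodMk continuousAt_const)))
    exact ⟨c2.sub (continuousAt_const.mul g0), c2, continuousAt_const.sub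
      (continuousAt_const.mul g1), continuousAt_const.mul g2, c1⟩
  · rintro ⟨ω, η, t⟩ ⟨hω, -, -, -, ht⟩
    have hω' : Un ax ω := hω
    obtain ⟨c1, c2, c3⟩ := ostf_pt (x := (ω, η, t)) F hω'
    have hJ := (fW_jc F (ostf_xi_ne hax hω' (t * fa e d B Ψ i₀ ω))).1
    have hi : ContinuousAt (fun p : ι × (E × E × ℝ) => p.1) (i₀, (ω, η, t)) := by fun_prop
    have hωc : ContinuousAt (fun p : ι × (E × E × ℝ) => p.2.1) (i₀, (ω, η, t)) := by fun_prop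
    have hη : ContinuousAt (fun p : ι × (E × E × ℝ) => p.2.2.1) (i₀, (ω, η, t)) := by fun_prop
    have ht' : ContinuousAt (fun p : ι × (E × E × ℝ) => p.2.2.2) (i₀, (ω, η, t)) := by fun_prop
    have g1 : ContinuousAt (fun p : ι × (E × E × ℝ) => D1 (fW e d ax A B Φ Ψ p.1)
        ((p.2.2.2 * fa e d B Ψ p.1 p.2.1) • ax + p.2.1) p.2.2.1) (i₀, (ω, η, t)) :=
      ContinuousAt.comp (f := fun p : ι × (E × E × ℝ) =>
          (p.1, (p.2.2.2 * fa e d B Ψ p.1 p.2.1) • ax + p.2.1, p.2.2.1))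
        (g := fun q : ι × E × E => D1 (fW e d ax A B Φ Ψ q.1) q.2.1 q.2.2) (JC.c1 hJ η)
        (hi.prodMk (c3.prodMk hη))
    have g2 : ContinuousAt (fun p : ι × (E × E × ℝ) => D2 (fW e d ax A B Φ Ψ p.1)
        ((p.2.2.2 * fa e d B Ψ p.1 p.2.1) • ax + p.2.1) ax p.2.2.1) (i₀, (ω, η, t)) :=
      ContinuousAt.comp (f := fun p : ι × (E × E × ℝ) =>
          (p.1, (p.2.2.2 * fa e d B Ψ p.1 p.2.1) • ax + p.2.1, ax, p.2.2.1))
        (g := fun q : ι × E × E × E => D2 (fW e d ax A B Φ Ψ q.1) q.2.1 q.2.2.1 q.2.2.2)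
        (JC.c2 hJ ax η)
        (hi.prodMk (c3.prodMk (continuousAt_const.prodMk hη)))
    have g3 : ContinuousAt (fun p : ι × (E × E × ℝ) => D2 (fW e d ax A B Φ Ψ p.1)
        ((p.2.2.2 * fa e d B Ψ p.1 p.2.1) • ax + p.2.1) p.2.2.1 p.2.2.1) (i₀, (ω, η, t)) :=
      ContinuousAt.comp (f := fun p : ι × (E × E × ℝ) =>
          (p.1, (p.2.2.2 * fa e d B Ψ p.1 p.2.1) • ax + p.2.1, p.2.2.1, p.2.2.1))
        (g := fun q : ι × E × E × E => D2 (fW e d ax A B Φ Ψ q.1) q.2.1 q.2.2.1 q.2.2.2)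
        (JC.c2 hJ η η)
        (hi.prodMk (c3.prodMk (hη.prodMk hη)))
    have g4 : ContinuousAt (fun p : ι × (E × E × ℝ) => D1 (fa e d B Ψ p.1) p.2.1 p.2.2.1)
        (i₀, (ω, η, t)) :=
      ContinuousAt.comp (f := fun p : ι × (E × E × ℝ) => (p.1, p.2.1, p.2.2.1))
        (g := fun q : ι × E × E => D1 (fa e d B Ψ q.1) q.2.1 q.2.2)
        (JC.c1 (ostf_fa F (ostf_ne hω')).1 η) (hi.prodMk (hωc.prodMk hη))
    exact ⟨(continuousAt_const.mul g1).neg, continuousAt_const.mul g2, continuousAt_const.mul g3,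
      ht'.mul g4⟩

end CJ
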