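import Pool.Agent.H.MP_1693ff_gtE.OSt0

/-!
# The normalised half step: `g` and `b`
-/

namespace CJ

open Real Set Filter Topology CG CH
open CF hiding St

variable {X : Type*} {l : Filter X} {e d : ℝ} {G : X → Np} {M : X → Nv} {F : Np} {N : Nv}

/-- From `|m - n| ≤ 1` to `|m| ≤ |n| + 1`. -/
theorem ostg_bd {f : X → ℝ} {n : ℝ} (h1 : ∀ᶠ x in l, |f x - n| ≤ 1) :
    ∀ᶠ x in l, |f x| ≤ |n| + 1 := by
  filter_upwards [h1] with x hx
  have := abs_sub_abs_le_abs_sub (f x) n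
  linarith

/-- `(τ/μ) B - kg → 0`. -/
theorem ostg_k (he : 1 ≤ e) (hd : 0 < d) (w0 : 0 < N.w) (w1 : N.w < F.w)
    (hT : Tendsto (fun x => nt e d (G x) (M x)) l (𝓝 1))
    (hw : Tendsto (fun x => (M x).w) l (𝓝 N.w)) (hFw : Tendsto (fun x => (G x).w) l (𝓝 F.w)) :
    Tendsto (fun x => nt e d (G x) (M x) / nm e d (G x) (M x) *
      ((M x).w / no e (G x) (M x)) ^ (e - 1) - kg e d F N) l (𝓝 0) := by
  have hm := hT.div (lim_nm (d := d) he w0 w1 hw hFw) (zero_lt_one.trans (nm_pos he hd w0 w1)).ne'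
  have h := (hm.mul (lim_B he w0 w1 hw hFw)).sub_const (kg e d F N)
  have h0 : 1 / nm e d F N * (N.w / no e F N) ^ (e - 1) - kg e d F N = 0 := by
    unfold kg
    rw [one_div, sub_self]
  rw [h0] at h
  exact h

/-- `(τ/μ) A f - (1/μ) A f → 0`. -/
theorem ostg_a (he : 1 ≤ e) (hd : 0 < d) (w0 : 0 < N.w) (w1 : N.w < F.w)
    (hT : Tendsto (fun x => nt e d (G x) (M x)) l (𝓝 1))
    (hw : Tendsto (fun x => (M x).w) l (𝓝 N.w)) (hFw : Tendsto (fun x => (G x).w) l (𝓝 F.w))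
    {f : X → ℝ} {f₀ : ℝ} (hf : Tendsto f l (𝓝 f₀)) :
    Tendsto (fun x => nt e d (G x) (M x) / nm e d (G x) (M x) *
      (((G x).w / no e (G x) (M x)) ^ (e - 1) * f x) -
        (nm e d F N)⁻¹ * ((F.w / no e F N) ^ (e - 1) * f₀)) l (𝓝 0) := by
  have hm := hT.div (lim_nm (d := d) he w0 w1 hw hFw) (zero_lt_one.trans (nm_pos he hd w0 w1)).ne'
  have h := (hm.mul ((lim_A he w0 w1 hw hFw).mul hf)).sub_const
    ((nm e d F N)⁻¹ * ((F.w / no e F N) ^ (e - 1) * f₀))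
  rw [one_div, sub_self] at h
  exact h

/-- The new `g` is `(τ/μ) (A F.g - B g)`, `A = (F.w/o)^{e-1}`, `B = (w/o)^{e-1}`, `τ → 1`
(`lim_nt`), `τ = 1` on the limit cycle (`nt_zero`), and `kg = B/μ` there.  The expression is equal
to `[(τ/μ) A F.g - the same on the cycle] - [(τ/μ) B - kg] g`, where the first bracket tends to
`0` and the second is something that tends to `0` times the bounded `g`. -/
theorem stepg (he : 1 ≤ e) (hd : 0 < d) (z0 : N.z = 0) (w0 : 0 < N.w) (w1 : N.w < F.w)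
    (hz : Tendsto (fun x => (M x).z) l (𝓝 0))
    (hw : Tendsto (fun x => (M x).w) l (𝓝 N.w)) (hFw : Tendsto (fun x => (G x).w) l (𝓝 F.w))
    (hFg : Tendsto (fun x => (G x).g) l (𝓝 F.g)) (h1 : ∀ᶠ x in l, |(M x).g - N.g| ≤ 1) :
    Tendsto (fun x => (nst e d (G x) (M x)).g - (nst e d F N).g +
      kg e d F N * ((M x).g - N.g)) l (𝓝 0) := by
  have hC := ostg_bd h1
  have hT := lim_nt he hd w0 w1 hz hw hFw hFg hC
  have hA := ostg_a he hd w0 w1 hT hw hFw hFg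
  have hB := bdd_le_mul_tendsto_zero' (|N.g| + 1) hC (ostg_k he hd w0 w1 hT hw hFw)
  have h := hA.sub hB
  rw [sub_zero] at h
  refine h.congr fun x => ?_
  have e1 : (nst e d F N).g = (nm e d F N)⁻¹ * ngo e F N := by
    show nt e d F N / nm e d F N * ngo e F N = _
    rw [(nt_zero z0).1, one_div]
  have e2 : (nst e d (G x) (M x)).g =
      nt e d (G x) (M x) / nm e d (G x) (M x) * ngo e (G x) (M x) := rfl
  rw [e1, e2]
  unfold kg ngo
  ring

/-- The new `b` is `-(τ/μ) (A F.b + B b)`; as `stepg`. -/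
theorem stepb (he : 1 ≤ e) (hd : 0 < d) (z0 : N.z = 0) (w0 : 0 < N.w) (w1 : N.w < F.w)
    (hz : Tendsto (fun x => (M x).z) l (𝓝 0))
    (hw : Tendsto (fun x => (M x).w) l (𝓝 N.w)) (hFw : Tendsto (fun x => (G x).w) l (𝓝 F.w))
    (hFg : Tendsto (fun x => (G x).g) l (𝓝 F.g)) (hFb : Tendsto (fun x => (G x).b) l (𝓝 F.b))
    (hg : Tendsto (fun x => (M x).g) l (𝓝 N.g)) (h1 : ∀ᶠ x in l, |(M x).b - N.b| ≤ 1) :
    Tendsto (fun x => (nst e d (G x) (M x)).b - (nst e d F N).b +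
      kg e d F N * ((M x).b - N.b)) l (𝓝 0) := by
  have hCg : ∀ᶠ x in l, |(M x).g| ≤ |N.g| + 1 := hg.abs.eventually_le_const (lt_add_one _)
  have hC := ostg_bd h1
  have hT := lim_nt he hd w0 w1 hz hw hFw hFg hCg
  have hA := ostg_a he hd w0 w1 hT hw hFw hFb
  have hB := bdd_le_mul_tendsto_zero' (|N.b| + 1) hC (ostg_k he hd w0 w1 hT hw hFw)
  have h := (hA.add hB).neg
  rw [add_zero, neg_zero] at h
  refine h.congr fun x => ?_
  have e1 : (nst e d F N).b = -((nm e d F N)⁻¹ * nbo e F N) := by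
    show -(nt e d F N / nm e d F N * nbo e F N) = _
    rw [(nt_zero z0).1, one_div]
  have e2 : (nst e d (G x) (M x)).b =
      -(nt e d (G x) (M x) / nm e d (G x) (M x) * nbo e (G x) (M x)) := rfl
  rw [e1, e2]
  unfold kg nbo
  ring

end CJ
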