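import Pool.Agent.H.MP_1693ff_gtE.ODefs
import Pool.Agent.H.MP_1693ff_gtC.NSupp

/-!
# Sheets along paths
-/

namespace CJ

open Real Set Filter Topology CG CH
open CF hiding St

/-- chain rule with partial derivatives -/
theorem nsuppb_chain {F : ℝ × ℝ → ℝ} {f g : ℝ → ℝ} {A B f' g' l : ℝ}
    (hF : DifferentiableAt ℝ F (f l, g l)) (hA : HasDerivAt (fun t => F (t, g l)) A (f l))
    (hB : HasDerivAt (fun r => F (f l, r)) B (g l)) (hf : HasDerivAt f f' l)
    (hg : HasDerivAt g g' l) : HasDerivAt (fun x => F (f x, g x)) (A * f' + B * g') l := by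
  have h1 := hF.hasFDerivAt
  have hA' : HasDerivAt (fun t : ℝ => F (t, g l)) (fderiv ℝ F (f l, g l) (1, 0)) (f l) :=
    h1.comp_hasDerivAt (f l) ((hasDerivAt_id (f l)).prodMk (hasDerivAt_const (f l) (g l)))
  have hB' : HasDerivAt (fun r : ℝ => F (f l, r)) (fderiv ℝ F (f l, g l) (0, 1)) (g l) :=
    h1.comp_hasDerivAt (g l) ((hasDerivAt_const (g l) (f l)).prodMk (hasDerivAt_id (g l)))
  have h2 : HasDerivAt (fun x : ℝ => F (f x, g x)) (fderiv ℝ F (f l, g l) (f', g')) l :=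
    h1.comp_hasDerivAt l (hf.prodMk hg)
  refine h2.congr_deriv ?_
  have h3 : ((f', g') : ℝ × ℝ) = f' • ((1, 0) : ℝ × ℝ) + g' • ((0, 1) : ℝ × ℝ) := by
    ext <;> simp
  rw [h3, map_add, map_smul, map_smul, hA.unique hA', hB.unique hB', smul_eq_mul, smul_eq_mul]
  ring

/-- Along a differentiable path `(t(l), r(l))` near `(t₀, 0)` a sheet has the derivatives
`a' = z`, `α' = s z + κ ρ`, `s' = -k z - ℓ ρ`, `κ' = -ℓ z + (c - q) ρ`, `z = v t' + w ρ`,
`ρ = r'`: the functions are differentiable at nearby points (`ContDiffAt ℝ 1`), the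
derivatives are known (`Sheet.t`, `Sheet.r`), chain rule. -/
theorem sheet_path {S : ℝ → ℝ → St} {T : ℝ → ℝ → Tt} {t₀ : ℝ} (Sh : Sheet S T t₀) :
    ∀ᶠ p : ℝ × ℝ in 𝓝 (t₀, 0), ∀ (f g : ℝ → ℝ) (f' g' l : ℝ), f l = p.1 → g l = p.2 →
      HasDerivAt f f' l → HasDerivAt g g' l →
      Al3 (fun x => S (f x) (g x)) (fun x => T (f x) (g x))
        ((S p.1 p.2).v * f' + (T p.1 p.2).w * g') g' l := by
  have e1 := Sh.c.ca.eventually (by simp)
  have e2 := Sh.c.cα.eventually (by simp)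
  have e3 := Sh.c.cs.eventually (by simp)
  have e4 := Sh.c.cκ.eventually (by simp)
  filter_upwards [e1, e2, e3, e4, Sh.t, Sh.r]
  rintro ⟨p1, p2⟩ h1 h2 h3 h4 ht hr f g f' g' l hfl hgl hf hg
  simp only at hfl hgl h1 h2 h3 h4 ht hr ⊢
  subst hfl hgl
  constructor
  · exact nsuppb_chain (F := fun q => (S q.1 q.2).a) (h1.differentiableAt one_ne_zero) ht.da hr.da
      hf hg
  · refine (nsuppb_chain (F := fun q => (S q.1 q.2).α) (h2.differentiableAt one_ne_zero) ht.dα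
      hr.dα hf hg).congr_deriv ?_
    ring
  · refine (nsuppb_chain (F := fun q => (S q.1 q.2).s) (h3.differentiableAt one_ne_zero) ht.ds
      hr.ds hf hg).congr_deriv ?_
    ring
  · refine (nsuppb_chain (F := fun q => (T q.1 q.2).κ) (h4.differentiableAt one_ne_zero) ht.dκ
      hr.dκ hf hg).congr_deriv ?_
    ring

end CJ
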