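import Pool.Agent.H.MP_1693ff_gtE.OJCb
import Pool.Agent.H.MP_1693ff_gtE.OHom

/-!
# The gauge function above the centres
-/

namespace CJ

open Real Set Filter Topology CG CH
open CF hiding St

variable {ι : Type} [TopologicalSpace ι]
variable {E : Type} [NormedAddCommGroup E] [InnerProductSpace ℝ E]

theorem ova_mul_rpow {R x : ℝ} (hR : 0 < R) {e : ℝ} (he : e ≠ 0) :
    (R * x) ^ e = R ^ e * x ^ e := by
  rcases lt_trichotomy x 0 with h | h | h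
  · rw [Real.rpow_def_of_neg h, Real.rpow_def_of_neg (mul_neg_of_pos_of_neg hR h),
      Real.rpow_def_of_pos hR, Real.log_mul hR.ne' h.ne, add_mul, Real.exp_add]
    ring
  · rw [h, mul_zero, Real.zero_rpow he, mul_zero]
  · exact Real.mul_rpow hR.le h.le

/-- `(c^e x)^{1/e} = c x^{1/e}` also for negative `x` (compare `ongc_mul_rpow`); `Φ v`, `A v`,
`A (-v)` are nonnegative for `v ≠ 0`, and for `v = 0` homogeneity gives `Φ 0 = 0`, ... -/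
theorem va_ho {e : ℝ} (he : 1 ≤ e) {Φ A : E → ℝ} (hΦ : Hg Φ) (hA : Hg A) : Ho (VA e Φ A) := by
  have he0 : e ≠ 0 := by linarith
  intro c hc v
  have h1 : -(c • v) = c • (-v) := (smul_neg c v).symm
  unfold VA
  rw [h1, hΦ.h c hc, hA.h c hc, hA.h c hc, ova_mul_rpow hc he0, ova_mul_rpow hc he0,
    ova_mul_rpow hc he0]
  have h2 : (c ^ e * Φ v ^ e + c ^ e * A v ^ e - c ^ e * A (-v) ^ e) / 2 =
      c ^ e * ((Φ v ^ e + A v ^ e - A (-v) ^ e) / 2) := by ring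
  rw [h2, ova_mul_rpow (Real.rpow_pos_of_pos hc e) (inv_ne_zero he0),
    Real.rpow_rpow_inv hc.le he0]

/-- At `i₀`. -/
theorem va_i0 {e : ℝ} (he : 1 ≤ e) {Φ A : E → ℝ} (hA : Hg A)
    (ho : ∀ v, v ≠ 0 → Φ v ^ e = A v ^ e + A (-v) ^ e) {v : E} (hv : v ≠ 0) :
    VA e Φ A v = A v := by
  have he0 : e ≠ 0 := by linarith
  unfold VA
  rw [ho v hv]
  have h2 : (A v ^ e + A (-v) ^ e + A v ^ e - A (-v) ^ e) / 2 = A v ^ e := by ring
  rw [h2, Real.rpow_rpow_inv (hA.p v hv).le he0]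

/-- `JC.comp` for the pair `(Φ i v, A v, A (-v))` and the fixed function
`(x, y, z) ↦ ((x^e + y^e - z^e)/2)^{1/e}`, smooth near `(Φ i₀ v, A v, A (-v))`, where the base is
`A v ^ e > 0`. -/
theorem va_jc {e : ℝ} (he : 1 ≤ e) {Φ : ι → E → ℝ} {A : E → ℝ} {i₀ : ι} (hΦ : ∀ i, Hg (Φ i))
    (hA : Hg A) (ho : ∀ v, v ≠ 0 → Φ i₀ v ^ e = A v ^ e + A (-v) ^ e) {v : E} (hv : v ≠ 0)
    (j : JC i₀ v 3 Φ) : JC i₀ v 3 (fun i => VA e (Φ i) A) := by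
  have he0 : e ≠ 0 := by linarith
  have hv' : -v ≠ 0 := neg_ne_zero.2 hv
  have hΦ0 := (hΦ i₀).p v hv
  have hA0 := hA.p v hv
  have hA1 := hA.p (-v) hv'
  have hc : ContDiffAt ℝ ((3 : ℕ) : WithTop ℕ∞) (fun x : E => (A x, A (-x))) v := by
    have h1 : ContDiffAt ℝ 3 (fun x : E => A (-x)) v :=
      (hA.c (-v) hv').comp v contDiff_neg.contDiffAt
    exact (hA.c v hv).prodMk h1
  have hp : JC i₀ v 3 (fun i x => (Φ i x, ((fun _ : ι => fun x : E => (A x, A (-x))) i x))) :=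
    j.prodMk (JC.const hc)
  have hΨ : ContDiffAt ℝ ((3 : ℕ) : WithTop ℕ∞)
      (fun p : ℝ × (ℝ × ℝ) => ((p.1 ^ e + p.2.1 ^ e - p.2.2 ^ e) / 2) ^ e⁻¹)
      (Φ i₀ v, (A v, A (-v))) := by
    have c1 : ContDiffAt ℝ 3 (fun p : ℝ × (ℝ × ℝ) => p.1) (Φ i₀ v, (A v, A (-v))) :=
      contDiff_fst.contDiffAt
    have c2 : ContDiffAt ℝ 3 (fun p : ℝ × (ℝ × ℝ) => p.2.1) (Φ i₀ v, (A v, A (-v))) :=
      (contDiff_fst.comp contDiff_snd).contDiffAt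
    have c3 : ContDiffAt ℝ 3 (fun p : ℝ × (ℝ × ℝ) => p.2.2) (Φ i₀ v, (A v, A (-v))) :=
      (contDiff_snd.comp contDiff_snd).contDiffAt
    have d1 := c1.rpow_const_of_ne (p := e) hΦ0.ne'
    have d2 := c2.rpow_const_of_ne (p := e) hA0.ne'
    have d3 := c3.rpow_const_of_ne (p := e) hA1.ne'
    have d4 := ((d1.add d2).sub d3).div_const 2
    refine d4.rpow_const_of_ne (p := e⁻¹) ?_
    change (Φ i₀ v ^ e + A v ^ e - A (-v) ^ e) / 2 ≠ 0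
    have h2 : (A v ^ e + A (-v) ^ e + A v ^ e - A (-v) ^ e) / 2 = A v ^ e := by ring
    rw [ho v hv, h2]
    exact (Real.rpow_pos_of_pos hA0 e).ne'
  exact JC.comp (i₀ := i₀) (v := v) (f := fun (i : ι) (x : E) => (Φ i x, (A x, A (-x))))
    (Ψ := fun p : ℝ × (ℝ × ℝ) => ((p.1 ^ e + p.2.1 ^ e - p.2.2 ^ e) / 2) ^ e⁻¹) hΨ hp

end CJ
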