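import Pool.Agent.H.MP_1693ff_gtE.OHomA

/-!
# The start surface: regularity of the gauge function
-/

namespace CJ

open Real Set Filter Topology CG CH
open CF hiding St

variable {ι : Type} [TopologicalSpace ι]
variable {E : Type} [NormedAddCommGroup E] [InnerProductSpace ℝ E]

/-- The point `x ax + xi ax v` is not `0`. -/
theorem xi_ne {ax : E} (hax : ‖ax‖ = 1) {v : E} (hv : xi ax v ≠ 0) (x : ℝ) :
    x • ax + xi ax v ≠ 0 ∧ v ≠ 0 := by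
  constructor
  · intro h
    have h1 : (inner ℝ ax (x • ax + xi ax v) : ℝ) = x := by
      unfold xi
      rw [inner_add_right, inner_sub_right, inner_smul_right, inner_smul_right,
        real_inner_self_eq_norm_sq, hax]
      ring
    rw [h, inner_zero_right] at h1
    rw [← h1, zero_smul, zero_add] at h
    exact hv h
  · rintro rfl
    apply hv
    unfold xi
    simp

/-- `xi ax` as a continuous linear map. -/
theorem xi_clm (ax : E) : ∃ P : E →L[ℝ] E, ∀ v, P v = xi ax v := by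
  refine ⟨ContinuousLinearMap.id ℝ E - (innerSL ℝ ax).smulRight ax, fun v => ?_⟩
  unfold xi
  simp

/-- Regularity of the interpolation. -/
theorem owa_hmt {X : Type*} [NormedAddCommGroup X] [NormedSpace ℝ X] {f p q p' q' : X → ℝ} {x₀ : X}
    (hf : ContDiffAt ℝ 2 f x₀) (hp : ContDiffAt ℝ 2 p x₀) (hq : ContDiffAt ℝ 2 q x₀)
    (hp' : ContDiffAt ℝ 2 p' x₀) (hq' : ContDiffAt ℝ 2 q' x₀) :
    ContDiffAt ℝ 2 (fun x => hmt (f x) (p x) (q x) (p' x) (q' x)) x₀ := by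
  unfold hmt
  fun_prop

/-- Regularity of the first derivative. -/
theorem owa_d1 {A : E → ℝ} (hA : Hg A) (ax : E) {w : E} (hw : w ≠ 0) :
    ContDiffAt ℝ 2 (fun u => D1 A u ax) w := by
  unfold D1
  have h1 : ContDiffAt ℝ 2 (fderiv ℝ A) w := (hA.c w hw).fderiv_right (by norm_num)
  exact h1.clm_apply contDiffAt_const

/-- All ingredients are `C²` near the point: `A` is `C³`, `u ↦ D1 A u ax` is `C²` off the origin
(`xi_ne`), `d y₃ ≠ 0`, `1 - d y₄ ≠ 0`. -/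
theorem wy_cd {d : ℝ} (hd : 0 < d) {ax : E} (hax : ‖ax‖ = 1) {A : E → ℝ} (hA : Hg A) {v : E}
    (hv : xi ax v ≠ 0) {y₁ y₂ y₃ y₄ : ℝ} (h3 : 0 < y₃) (h4 : 1 - d * y₄ ≠ 0) :
    ContDiffAt ℝ 2 (fun p : E × ℝ × ℝ × ℝ × ℝ => WY d ax A p.1 p.2.1 p.2.2.1 p.2.2.2.1 p.2.2.2.2)
      (v, y₁, y₂, y₃, y₄) := by
  obtain ⟨P, hP⟩ := xi_clm ax
  have hd3 : d * y₃ ≠ 0 := (mul_pos hd h3).ne'
  have hξ0 : xi ax v ≠ 0 := hv
  have hv0 : v ≠ 0 := (xi_ne hax hv 0).2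
  have hη0 : (d * y₃) • ax + xi ax v ≠ 0 := (xi_ne hax hv (d * y₃)).1
  have c0 : ContDiffAt ℝ 2 (fun p : E × ℝ × ℝ × ℝ × ℝ => p.1) (v, y₁, y₂, y₃, y₄) :=
    contDiff_fst.contDiffAt
  have c1 : ContDiffAt ℝ 2 (fun p : E × ℝ × ℝ × ℝ × ℝ => p.2.1) (v, y₁, y₂, y₃, y₄) := by
    fun_prop
  have c2 : ContDiffAt ℝ 2 (fun p : E × ℝ × ℝ × ℝ × ℝ => p.2.2.1) (v, y₁, y₂, y₃, y₄) := by
    fun_prop
  have c3 : ContDiffAt ℝ 2 (fun p : E × ℝ × ℝ × ℝ × ℝ => p.2.2.2.1) (v, y₁, y₂, y₃, y₄) := by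
    fun_prop
  have c4 : ContDiffAt ℝ 2 (fun p : E × ℝ × ℝ × ℝ × ℝ => p.2.2.2.2) (v, y₁, y₂, y₃, y₄) := by
    fun_prop
  have cξ : ContDiffAt ℝ 2 (fun p : E × ℝ × ℝ × ℝ × ℝ => xi ax p.1) (v, y₁, y₂, y₃, y₄) := by
    have : (fun p : E × ℝ × ℝ × ℝ × ℝ => xi ax p.1) = fun p => P p.1 := by
      funext p
      rw [hP]
    rw [this]
    exact P.contDiff.contDiffAt.comp _ c0
  have cd3 : ContDiffAt ℝ 2 (fun p : E × ℝ × ℝ × ℝ × ℝ => d * p.2.2.2.1) (v, y₁, y₂, y₃, y₄) := by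
    fun_prop
  have cη : ContDiffAt ℝ 2 (fun p : E × ℝ × ℝ × ℝ × ℝ => (d * p.2.2.2.1) • ax + xi ax p.1)
      (v, y₁, y₂, y₃, y₄) := (cd3.smul contDiffAt_const).add cξ
  have cA : ContDiffAt ℝ 2 (fun p : E × ℝ × ℝ × ℝ × ℝ => A p.1) (v, y₁, y₂, y₃, y₄) :=
    ((hA.c v hv0).of_le (by norm_num)).comp (v, y₁, y₂, y₃, y₄) c0
  have cAξ : ContDiffAt ℝ 2 (fun p : E × ℝ × ℝ × ℝ × ℝ => A (xi ax p.1)) (v, y₁, y₂, y₃, y₄) :=
    ContDiffAt.comp (g := A) (v, y₁, y₂, y₃, y₄) ((hA.c _ hξ0).of_le (by norm_num)) cξ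
  have cAη : ContDiffAt ℝ 2 (fun p : E × ℝ × ℝ × ℝ × ℝ => A ((d * p.2.2.2.1) • ax + xi ax p.1))
      (v, y₁, y₂, y₃, y₄) :=
    ContDiffAt.comp (g := A) (v, y₁, y₂, y₃, y₄) ((hA.c _ hη0).of_le (by norm_num)) cη
  have cDξ : ContDiffAt ℝ 2 (fun p : E × ℝ × ℝ × ℝ × ℝ => D1 A (xi ax p.1) ax)
      (v, y₁, y₂, y₃, y₄) :=
    ContDiffAt.comp (g := fun u => D1 A u ax) (v, y₁, y₂, y₃, y₄) (owa_d1 hA ax hξ0) cξ
  have cDη : ContDiffAt ℝ 2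
      (fun p : E × ℝ × ℝ × ℝ × ℝ => D1 A ((d * p.2.2.2.1) • ax + xi ax p.1) ax)
      (v, y₁, y₂, y₃, y₄) :=
    ContDiffAt.comp (g := fun u => D1 A u ax) (v, y₁, y₂, y₃, y₄) (owa_d1 hA ax hη0) cη
  have cin : ContDiffAt ℝ 2 (fun p : E × ℝ × ℝ × ℝ × ℝ => (inner ℝ ax p.1 : ℝ))
      (v, y₁, y₂, y₃, y₄) := contDiffAt_const.inner ℝ c0
  have cx : ContDiffAt ℝ 2 (fun p : E × ℝ × ℝ × ℝ × ℝ => (inner ℝ ax p.1 : ℝ) / (d * p.2.2.2.1))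
      (v, y₁, y₂, y₃, y₄) := cin.div cd3 hd3
  have cf : ContDiffAt ℝ 2 (fun p : E × ℝ × ℝ × ℝ × ℝ => -p.2.2.2.2 / (1 - d * p.2.2.2.2))
      (v, y₁, y₂, y₃, y₄) := c4.neg.div (contDiffAt_const.sub (contDiffAt_const.mul c4)) h4
  unfold WY
  exact cA.add (owa_hmt cx (c1.sub cAξ) (cd3.mul (c2.sub cDξ)) (c3.sub cAη)
    (cd3.mul (cf.sub cDη)))

end CJ
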