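import Pool.Agent.H.MP_1693ff_gtE.OWa2

/-!
# The start surface: values at the ends
-/

namespace CJ

open Real Set Filter Topology CG CH
open CF hiding St

variable {E : Type} [NormedAddCommGroup E] [InnerProductSpace ℝ E]

theorem owb2_xi {ax ω : E} (hax : ‖ax‖ = 1) (hω : Un ax ω) (a : ℝ) :
    (inner ℝ ax (a • ax + ω) : ℝ) = a ∧ xi ax (a • ax + ω) = ω := by
  have h1 : (inner ℝ ax (a • ax + ω) : ℝ) = a := by
    rw [inner_add_right, inner_smul_right, real_inner_self_eq_norm_sq, hax, hω.o1]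
    ring
  refine ⟨h1, ?_⟩
  rw [xi, h1]
  abel

theorem owb2_hmt (x p q p' q' : ℝ) : HasDerivAt (fun x => hmt x p q p' q')
    (p * (-6 * x + 6 * x ^ 2) + q * (1 - 4 * x + 3 * x ^ 2) + p' * (6 * x - 6 * x ^ 2) +
      q' * (3 * x ^ 2 - 2 * x)) x := by
  unfold hmt
  have h1 : HasDerivAt (fun x : ℝ => x) 1 x := hasDerivAt_id x
  have h2 := h1.pow 2
  have h3 := h1.pow 3
  have := (((((h2.const_mul 3).const_sub 1).add (h3.const_mul 2)).const_mul p).add
    (((h1.sub (h2.const_mul 2)).add h3).const_mul q)).add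
    (((h2.const_mul 3).sub (h3.const_mul 2)).const_mul p') |>.add ((h3.sub h2).const_mul q')
  refine (this.congr_deriv ?_)
  norm_num
  ring

/-- Along the line. -/
theorem owb2_line {d : ℝ} {ax : E} (hax : ‖ax‖ = 1) {A VA VB : E → ℝ} {ω : E}
    (hω : Un ax ω) (a : ℝ) : WW d ax A VA VB (a • ax + ω) =
      A (a • ax + ω) + hmt (a / (d * VB (-ω))) (VA ω - A ω)
        (d * VB (-ω) * (D1 VA ω ax - D1 A ω ax)) (VB (-ω) - A ((d * VB (-ω)) • ax + ω))
        (d * VB (-ω) * (-D1 VB (-ω) ax / (1 - d * D1 VB (-ω) ax) -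
          D1 A ((d * VB (-ω)) • ax + ω) ax)) := by
  obtain ⟨h1, h2⟩ := owb2_xi hax hω a
  rw [WW, WY, h1, h2]

theorem owb2_d {e d : ℝ} {ax : E} (D0 : 0 < d) (hax : ‖ax‖ = 1) {A VA VB Φ Ψ : E → ℝ}
    (hA : Hg A) (vA : VG e d ax Φ VA) (vB : VG e d ax Ψ VB) {ω : E} (hω : Un ax ω) (a : ℝ) :
    D1 (WW d ax A VA VB) (a • ax + ω) ax = D1 A (a • ax + ω) ax +
      ((VA ω - A ω) * (-6 * (a / (d * VB (-ω))) + 6 * (a / (d * VB (-ω))) ^ 2) +
        (d * VB (-ω) * (D1 VA ω ax - D1 A ω ax)) * (1 - 4 * (a / (d * VB (-ω))) +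
          3 * (a / (d * VB (-ω))) ^ 2) +
        (VB (-ω) - A ((d * VB (-ω)) • ax + ω)) * (6 * (a / (d * VB (-ω))) -
          6 * (a / (d * VB (-ω))) ^ 2) +
        (d * VB (-ω) * (-D1 VB (-ω) ax / (1 - d * D1 VB (-ω) ax) -
          D1 A ((d * VB (-ω)) • ax + ω) ax)) * (3 * (a / (d * VB (-ω))) ^ 2 -
          2 * (a / (d * VB (-ω))))) * (1 / (d * VB (-ω))) := by
  have hne : ω ≠ 0 := by
    intro h
    have := hω.n1
    rw [h, norm_zero] at this
    exact zero_ne_one this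
  have hxi : xi ax (a • ax + ω) ≠ 0 := by rw [(owb2_xi hax hω a).2]; exact hne
  have hγ : HasDerivAt (fun a : ℝ => a • ax + ω) ax a := by
    simpa using ((hasDerivAt_id a).smul_const ax).add_const ω
  have c1 : DifferentiableAt ℝ (WW d ax A VA VB) ((fun a : ℝ => a • ax + ω) a) :=
    (ww_cd D0 hax hA vA vB hxi).differentiableAt (by norm_num)
  have c2 : DifferentiableAt ℝ A ((fun a : ℝ => a • ax + ω) a) :=
    (hA.c _ (ax_ne hω a)).differentiableAt (by norm_num)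
  have k1 := d1_along c1 hγ
  have k2 := d1_along c2 hγ
  have k3 : HasDerivAt (fun a : ℝ => a / (d * VB (-ω))) (1 / (d * VB (-ω))) a :=
    (hasDerivAt_id a).div_const _
  have k4 := k2.add ((owb2_hmt (a / (d * VB (-ω))) (VA ω - A ω)
        (d * VB (-ω) * (D1 VA ω ax - D1 A ω ax)) (VB (-ω) - A ((d * VB (-ω)) • ax + ω))
        (d * VB (-ω) * (-D1 VB (-ω) ax / (1 - d * D1 VB (-ω) ax) -
          D1 A ((d * VB (-ω)) • ax + ω) ax))).comp a k3)
  have k5 : (fun a : ℝ => WW d ax A VA VB (a • ax + ω)) = fun a : ℝ => A (a • ax + ω) +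
      hmt (a / (d * VB (-ω))) (VA ω - A ω)
        (d * VB (-ω) * (D1 VA ω ax - D1 A ω ax)) (VB (-ω) - A ((d * VB (-ω)) • ax + ω))
        (d * VB (-ω) * (-D1 VB (-ω) ax / (1 - d * D1 VB (-ω) ax) -
          D1 A ((d * VB (-ω)) • ax + ω) ax)) := by
    funext a
    exact owb2_line hax hω a
  rw [k5] at k1
  exact k1.unique k4

/-- Value and derivative at the beginning: along `a ↦ a ax + ω` (`xi = ω` is constant, the inner
product with `ax` is `a`) the function is `A (a ax + ω) + hmt (a/a₁) ...`, a polynomial in `a`;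
`HasDerivAt` at `a = 0`; `ww_cd` for the differentiability, `d1_along`. -/
theorem ww_b0 {e d : ℝ} {ax : E} (D0 : 0 < d) (hax : ‖ax‖ = 1) {A VA VB Φ Ψ : E → ℝ}
    (hA : Hg A) (vA : VG e d ax Φ VA) (vB : VG e d ax Ψ VB) {ω : E} (hω : Un ax ω) :
    WW d ax A VA VB ω = VA ω ∧ D1 (WW d ax A VA VB) ω ax = D1 VA ω ax := by
  have hne : -ω ≠ 0 := by
    intro h
    have := hω.n1
    rw [neg_eq_zero.1 h, norm_zero] at this
    exact zero_ne_one this
  have hy : 0 < VB (-ω) := vB.hg.p _ hne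
  have h1 := owb2_line (d := d) (A := A) (VA := VA) (VB := VB) hax hω 0
  have h2 := owb2_d D0 hax hA vA vB hω 0
  simp only [zero_smul, zero_add, zero_div] at h1 h2
  refine ⟨?_, ?_⟩
  · rw [h1, hmt]; ring
  · rw [h2]
    field_simp
    ring

/-- Value and derivative at the end `a = a₁ = d VB (-ω)`. -/
theorem ww_b1 {e d : ℝ} {ax : E} (D0 : 0 < d) (hax : ‖ax‖ = 1) {A VA VB Φ Ψ : E → ℝ}
    (hA : Hg A) (vA : VG e d ax Φ VA) (vB : VG e d ax Ψ VB) {ω : E} (hω : Un ax ω) :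
    WW d ax A VA VB (a1 d VB ω • ax + ω) = VB (-ω) ∧
    D1 (WW d ax A VA VB) (a1 d VB ω • ax + ω) ax =
      -D1 VB (-ω) ax / (1 - d * D1 VB (-ω) ax) := by
  have hne : -ω ≠ 0 := by
    intro h
    have := hω.n1
    rw [neg_eq_zero.1 h, norm_zero] at this
    exact zero_ne_one this
  have hy : 0 < VB (-ω) := vB.hg.p _ hne
  have h1 := owb2_line (d := d) (A := A) (VA := VA) (VB := VB) hax hω (d * VB (-ω))
  have h2 := owb2_d D0 hax hA vA vB hω (d * VB (-ω))
  have h3 : d * VB (-ω) / (d * VB (-ω)) = 1 := div_self (by positivity)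
  rw [h3] at h1 h2
  refine ⟨?_, ?_⟩
  · rw [a1, h1, hmt]; ring
  · rw [a1, h2]
    generalize -D1 VB (-ω) ax / (1 - d * D1 VB (-ω) ax) = t
    field_simp
    ring

end CJ
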