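import Pool.Agent.H.MP_1693ff_gtE.OSheetB
import Pool.Agent.H.MP_1693ff_gtE.OHalfB

/-!
# Half curves depending on `r`: continuity
-/

namespace CJ

open Real Set Filter Topology CG CH
open CF hiding St

variable {e d : ℝ} {h k : ℝ → ℝ → ℝ} {S S' : ℝ → ℝ → St} {T T' : ℝ → ℝ → Tt}

theorem nzg_cont (D : D3G e d h k S S' T T') (n : ℕ) {t : ℝ} (ht : t ∈ Icc (0 : ℝ) 1) :
    Continuous (fun r => (chn e d (h r) (k r) (fun t => S t r) n t).a) ∧
    Continuous (fun r => (chn e d (h r) (k r) (fun t => S t r) n t).α) := by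
  have hp : ∀ r : ℝ, ContinuousAt (fun r : ℝ => ((t, r) : ℝ × ℝ)) r := fun r =>
    (continuous_const.prodMk continuous_id).continuousAt
  constructor
  · rw [continuous_iff_continuousAt]
    intro r
    have h1 := (ok_c13G D (ok_ofG D ht r n)).ca.continuousAt
    exact ContinuousAt.comp (f := fun r : ℝ => ((t, r) : ℝ × ℝ))
      (g := fun q : ℝ × ℝ => (chn e d (h q.2) (k q.2) (fun t => S t q.2) n q.1).a) h1 (hp r)
  · rw [continuous_iff_continuousAt]
    intro r
    have h1 := (ok_c13G D (ok_ofG D ht r n)).cα.continuousAt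
    exact ContinuousAt.comp (f := fun r : ℝ => ((t, r) : ℝ × ℝ))
      (g := fun q : ℝ × ℝ => (chn e d (h q.2) (k q.2) (fun t => S t q.2) n q.1).α) h1 (hp r)

/-- For fixed `τ` the components `a`, `α` are continuous in `r` (`ok_c13` for the pieces; `ZZ` is
`chain` of `(h,k)` or `(k,h)` at `τ - ⌊τ⌋₊ ∈ [0,1)`). -/
theorem zg_cont_r (D : D3G e d h k S S' T T') {τ : ℝ} (hτ : 0 ≤ τ) :
    Continuous (fun r => (ZG e d (h r) (k r) (fun t => S t r) (fun t => S' t r) τ).a) ∧
    Continuous (fun r => (ZG e d (h r) (k r) (fun t => S t r) (fun t => S' t r) τ).α) := by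
  have ht := ohalf_frac hτ
  unfold ZG
  by_cases he : Even ⌊τ⌋₊
  · simp only [he, if_true]
    exact nzg_cont D _ ht
  · simp only [he, if_false]
    exact nzg_cont D.swap _ ht

/-- `α` is strictly increasing on `[0, ∞)` (`HZ.rel`: `α' - α ≥ s' (a' - a) > 0`) and tends to
`∞` (`HZ.cb`: `α ≥ s a - C`, `HZ.sb`, `HZ.top`). -/
theorem zg_alpha {f g : ℝ → ℝ} {A B : ℝ → St} (D : HK e d f g A B) :
    StrictMonoOn (fun τ => (ZG e d f g A B τ).α) (Ici 0) ∧
    Tendsto (fun τ => (ZG e d f g A B τ).α) atTop atTop := by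
  have H := half_HZG D
  constructor
  · intro τ hτ τ' hτ' hlt
    have h1 := (H.rel τ τ' hτ hlt.le).2.2.2
    have h2 := H.mono hτ hτ' hlt
    have h3 := H.s0 τ' hτ'
    have h4 : 0 < (ZG e d f g A B τ').s * ((ZG e d f g A B τ').a - (ZG e d f g A B τ).a) :=
      mul_pos h3 (sub_pos.2 h2)
    show (ZG e d f g A B τ).α < (ZG e d f g A B τ').α
    linarith
  · obtain ⟨C, hC⟩ := H.cb
    obtain ⟨c, hc, hs⟩ := H.sb
    refine tendsto_atTop_mono' atTop (f₁ := fun τ => c * (ZG e d f g A B τ).a + -C) ?_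
      (tendsto_atTop_add_const_right atTop (-C) (H.top.const_mul_atTop hc))
    filter_upwards [eventually_ge_atTop (0 : ℝ), H.top.eventually_ge_atTop 0] with τ hτ ha
    have h1 := (abs_le.1 (hC τ hτ)).2
    have h2 := mul_le_mul_of_nonneg_right (hs τ hτ).1 ha
    show c * (ZG e d f g A B τ).a + -C ≤ (ZG e d f g A B τ).α
    linarith

end CJ
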